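import Mathlib

/-!
# MP_f58a57_nt, large transcendence degree: common definitions (interfaces between the parts A-E)

Paper: /team-store/lt49_paper.md.
-/

open Complex MvPolynomial Matrix

noncomputable section

namespace Pool.Agent.LT

/-! ### Part A: the criterion -/

/-- the length (sum of the absolute values of the coefficients) of an integer polynomial -/
def len {σ : Type} (p : MvPolynomial σ ℤ) : ℝ := ∑ d ∈ p.support, |((p.coeff d : ℤ) : ℝ)|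

/-- the value of a matrix of integer polynomials at `θ` -/
def evM {σ ι κ : Type} (θ : σ → ℂ) (B : Matrix ι κ (MvPolynomial σ ℤ)) : Matrix ι κ ℂ := B.map (fun p => MvPolynomial.aeval θ p)

/-- the range `R` of the sizes of the determinants -/
def RR (k : ℕ) (ε T : ℝ) : ℝ := T ^ (((k : ℝ) + 1) / 2 + 10 * ((k : ℝ) + 2) * ε)

/-- the hypotheses of the criterion (Theorem A) for the matrix `B` -/
structure BadMat {σ ι κ : Type} [Fintype ι] [Fintype κ] (k : ℕ) (θ : σ → ℂ) (ε c0 : ℝ) (T : ℕ)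
    (B : Matrix ι κ (MvPolynomial σ ℤ)) : Prop where
  deg : ∀ a b, (B a b).totalDegree ≤ T
  len : ∀ a b, len (B a b) ≤ Real.exp ((T : ℝ) ^ (1 + ε))
  cardr : (Fintype.card ι : ℝ) ≤ Real.exp T
  cardc : (Fintype.card κ : ℝ) ≤ Real.exp T
  ub : ∀ j : ℕ, 1 ≤ j → (j : ℝ) ≤ RR k ε T → ∀ (r : Fin j → ι) (c : Fin j → κ), ∃ E : Matrix (Fin j) (Fin j) ℂ,
    1 ≤ ‖E.det‖ ∧ (∀ i l, ‖E i l‖ ≤ Real.exp ((T : ℝ) ^ (1 + ε))) ∧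
      ∀ i l, ‖(((evM θ B).submatrix r c) * E) i l‖ ≤ Real.exp (-c0 * ((l : ℕ) + 1 : ℝ) ^ 2 + (T : ℝ) ^ (1 + ε))
  lb : ∀ j : ℕ, 1 ≤ j → (j : ℝ) ≤ RR k ε T → ∃ (U : Matrix (Fin j) ι ℂ) (V : Matrix κ (Fin j) ℂ),
    (∀ i a, ‖U i a‖ ≤ Real.exp ((T : ℝ) ^ ε * ((j : ℝ) ^ 2 + T))) ∧
      (∀ b i, ‖V b i‖ ≤ Real.exp ((T : ℝ) ^ ε * ((j : ℝ) ^ 2 + T))) ∧ U * evM θ B * V = 1

/-- THEOREM A -/
def ThmA : Prop :=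
  ∀ (m k : ℕ) (θ : Fin m → ℂ), Algebra.trdeg ℚ (Algebra.adjoin ℚ (Set.range θ)) ≤ k → ∀ ε c0 : ℝ, 0 < ε → ε ≤ 1 → 0 < c0 →
    ∃ T0 : ℕ, ∀ T : ℕ, T0 ≤ T → ∀ (ι κ : Type) [Fintype ι] [Fintype κ] (B : Matrix ι κ (MvPolynomial (Fin m) ℤ)),
      ¬ BadMat k θ ε c0 T B

/-! ### Part B: interpolation on a tower -/

/-- `ℂ^(c+1)` -/
abbrev Vc (c : ℕ) : Type := Fin (c + 1) → ℂ

/-- the standard hermitian form, linear in the first variable -/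
def herm {n : ℕ} (z a : Fin n → ℂ) : ℂ := ∑ i, z i * (starRingEnd ℂ) (a i)

/-- `|z|²` -/
def nsq {n : ℕ} (z : Fin n → ℂ) : ℝ := ∑ i, ‖z i‖ ^ 2

/-- the normalised absolute value -/
def NN {n : ℕ} (G : (Fin n → ℂ) → ℂ) (z : Fin n → ℂ) : ℝ := ‖G z‖ * Real.exp (-(Real.pi * nsq z))

/-- the quasi-periodic entire functions -/
def Aut {c : ℕ} (Γ : AddSubgroup (Vc c)) (G : Vc c → ℂ) : Prop :=
  Differentiable ℂ G ∧ ∀ γ ∈ Γ, ∃ e : ℂ, ‖e‖ = 1 ∧ ∀ z, G (z + γ) = e * cexp (2 * Real.pi * herm z γ + Real.pi * nsq γ) * G z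

/-- the covering property for the first two coordinates of `a`, `b` -/
def COV {c : ℕ} (a b : Vc (c + 1)) : Prop :=
  (a 0).im = 0 ∧ (b 0).im = 0 ∧ ∃ C : ℝ, 0 < C ∧ ∀ r k : ℝ, 0 < r → 0 < k → C ≤ r * k → C * r ≤ k → ∀ x y : ℝ, ∃ m n : ℤ,
    |x - (m * (a 0).re + n * (b 0).re)| ≤ r ∧ |y - (m * (a 1).im + n * (b 1).im)| ≤ k

/-- towers -/
def Tow : (c : ℕ) → AddSubgroup (Vc c) → Prop
  | 0, Γ => ∃ g ∈ Γ, g 0 ≠ 0 ∧ (g 0).im = 0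
  | c + 1, Γ => ∃ Γ₁ : AddSubgroup (Vc c), Tow c Γ₁ ∧ (∀ γ ∈ Γ₁, (Fin.cons 0 γ : Vc (c + 1)) ∈ Γ) ∧ ∃ a ∈ Γ, ∃ b ∈ Γ, COV a b

/-- the coefficient of `t ^ d` in `G (t v)` -/
def cf {n : ℕ} (G : (Fin n → ℂ) → ℂ) (v : Fin n → ℂ) (d : ℕ) : ℂ :=
  (2 * Real.pi)⁻¹ * ∫ s in (0 : ℝ)..(2 * Real.pi), G (cexp (I * s) • v) * cexp (-(I * d * s))

/-- all coefficients of order `< T` in the directions of the unit polydisc are at most `η` -/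
def JJ {n : ℕ} (G : (Fin n → ℂ) → ℂ) (T η : ℝ) : Prop := ∀ v : Fin n → ℂ, (∀ i, ‖v i‖ ≤ 1) → ∀ d : ℕ, (d : ℝ) < T → ‖cf G v d‖ ≤ η

/-- THEOREM B -/
def ThmB : Prop :=
  ∀ (c : ℕ) (Γ : AddSubgroup (Vc c)), Tow c Γ → ∀ ε A : ℝ, 0 < ε → ε ≤ 1 / 20 → 0 ≤ A → ∃ C T0 : ℝ, 1 ≤ C ∧ ∀ T : ℝ, T0 ≤ T → ∀ k : ℝ,
    T ^ (1 / 2 + ε) ≤ k → k ≤ T ^ ((c : ℝ) + 1 - ε) → ∀ G : Vc c → ℂ, Aut Γ G →
      (∀ z, |(z 0).im| ≤ k → NN G z ≤ Real.exp (A * (1 + (z 0).im ^ 2))) → JJ G T (Real.exp (-(T ^ ε * k ^ 2))) →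
        ∀ z, |(z 0).im| ≤ k / C → NN G z ≤ Real.exp (-(k ^ 2 / C))

/-! ### Derivatives (used in C, D, E) -/

/-- the `i`-th partial derivative -/
def pd {n : ℕ} (i : Fin n) (F : (Fin n → ℂ) → ℂ) (u : Fin n → ℂ) : ℂ := fderiv ℂ F u (Pi.single i 1)

/-- iterated partial derivatives; `pdl [] F = F`, `pdl (i :: w) F = pd i (pdl w F)` -/
def pdl {n : ℕ} : List (Fin n) → ((Fin n → ℂ) → ℂ) → ((Fin n → ℂ) → ℂ)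
  | [], F => F
  | i :: w, F => pd i (pdl w F)

/-- words of length `< T` in `n` letters -/
abbrev Wd (n T : ℕ) : Type := Σ d : Fin T, (Fin d → Fin n)

/-- the list of a word -/
def Wd.l {n T : ℕ} (w : Wd n T) : List (Fin n) := List.ofFn w.2

/-- the mixed derivatives at the origin -/
def mix {n : ℕ} (Φ : (Fin n → ℂ) → (Fin n → ℂ) → ℂ) (w w' : List (Fin n)) : ℂ := pdl w (fun u => pdl w' (Φ u) 0) 0

/-- the matrix of the mixed derivatives of order `< T` -/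
def BM {n : ℕ} (Φ : (Fin n → ℂ) → (Fin n → ℂ) → ℂ) (T : ℕ) : Matrix (Wd n T) (Wd n T) ℂ := fun w w' => mix Φ w.l w'.l

/-! ### Parts C, D: the data -/

/-- `e(x) = exp (2 π i x)` -/
def ee (x : ℂ) : ℂ := cexp (2 * Real.pi * I * x)

/-- the analytic data: `N = 2c+1` points `z j` of the upper half plane, a rational matrix `M`, `d M` integral, and a nonzero integer
vector `g` with `(M - Mᵀ) g = 0`; `dim ker (Z - M) ≥ c`. -/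
structure Dat (c : ℕ) where
  z : Fin (2 * c + 1) → ℂ
  im : ∀ j, 0 < (z j).im
  M : Matrix (Fin (2 * c + 1)) (Fin (2 * c + 1)) ℚ
  d : ℕ
  hd : 0 < d
  dM : Matrix (Fin (2 * c + 1)) (Fin (2 * c + 1)) ℤ
  hdM : ∀ i j, ((dM i j : ℤ) : ℚ) = d * M i j
  g : Fin (2 * c + 1) → ℤ
  hg : g ≠ 0
  hMg : M *ᵥ (fun j => (g j : ℚ)) = Mᵀ *ᵥ (fun j => (g j : ℚ))
  rk : c ≤ Module.finrank ℂ (LinearMap.ker (Matrix.mulVecLin (Matrix.diagonal z - M.map (fun q : ℚ => (q : ℂ)))))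

namespace Dat

variable {c : ℕ} (D : Dat c)

/-- `Z - M`; this is the matrix `Lᵀ` of the paper -/
def Lt : Matrix (Fin (2 * c + 1)) (Fin (2 * c + 1)) ℂ := Matrix.diagonal D.z - D.M.map (fun q : ℚ => (q : ℂ))

/-- `Z - Mᵀ`; this is the matrix `L` of the paper -/
def L : Matrix (Fin (2 * c + 1)) (Fin (2 * c + 1)) ℂ := Matrix.diagonal D.z - (D.Mᵀ).map (fun q : ℚ => (q : ℂ))

/-- the vector `g` as a complex vector -/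
def gc : Fin (2 * c + 1) → ℂ := fun j => (D.g j : ℂ)

/-- `v0 = L g = Lᵀ g` -/
def v0 : Fin (2 * c + 1) → ℂ := D.Lt *ᵥ D.gc

/-- `ν = gᵀ v0` -/
def nu : ℂ := D.gc ⬝ᵥ D.v0

end Dat

/-- the lattice vector `d a` -/
def lat {n : ℕ} (d : ℕ) (a : Fin n → ℤ) : Fin n → ℂ := fun j => (d : ℂ) * (a j : ℂ)

/-- the point `b + i y g` -/
def pt {n : ℕ} (g : Fin n → ℤ) (b : Fin n → ℝ) (y : ℝ) : Fin n → ℂ := fun j => (b j : ℂ) + I * y * (g j : ℂ)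

/-- sections: entire functions `F` with `F (u + d a) = C a e(-(d a)ᵀ P u) F u` and `F (u + k) = F u` for `P k = 0` -/
structure Sec {n : ℕ} (d : ℕ) (P : Matrix (Fin n) (Fin n) ℂ) (C : (Fin n → ℤ) → ℂ) (F : (Fin n → ℂ) → ℂ) : Prop where
  diff : Differentiable ℂ F
  per : ∀ (a : Fin n → ℤ) (u : Fin n → ℂ), F (u + lat d a) = C a * ee (-(lat d a ⬝ᵥ (P *ᵥ u))) * F u
  ker : ∀ k : Fin n → ℂ, P *ᵥ k = 0 → ∀ u, F (u + k) = F u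

/-- the absolute value of the multiplier: `|C a| = exp (π (d a)ᵀ Y (d a) + l (a))` with `l` linear -/
def MulOK {n : ℕ} (d : ℕ) (z : Fin n → ℂ) (C : (Fin n → ℤ) → ℂ) : Prop :=
  ∃ l : Fin n → ℝ, ∀ a : Fin n → ℤ, ‖C a‖ = Real.exp (Real.pi * ∑ j, (z j).im * ((d : ℝ) * (a j : ℝ)) ^ 2 + ∑ j, l j * ((d : ℝ) * (a j : ℝ)))

/-- the interpolation property of sections (proved in D from Theorem B); `N = 2c+1` -/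
def INT {c : ℕ} (d : ℕ) (g : Fin (2 * c + 1) → ℤ) (P : Matrix (Fin (2 * c + 1)) (Fin (2 * c + 1)) ℂ) (Cf : (Fin (2 * c + 1) → ℤ) → ℂ) : Prop :=
  ∀ ε A : ℝ, 0 < ε → ε ≤ 1 / 20 → 0 ≤ A → ∃ C T0 : ℝ, 1 ≤ C ∧ ∀ T : ℕ, T0 ≤ (T : ℝ) → ∀ k : ℝ,
    (T : ℝ) ^ (1 / 2 + ε) ≤ k → k ≤ (T : ℝ) ^ ((c : ℝ) + 1 - ε) → ∀ F : (Fin (2 * c + 1) → ℂ) → ℂ, Sec d P Cf F →
      (∀ (b : Fin (2 * c + 1) → ℝ) (y : ℝ), (∀ j, 0 ≤ b j ∧ b j ≤ d) → |y| ≤ k → ‖F (pt g b y)‖ ≤ Real.exp (A * (1 + y ^ 2))) →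
      (∀ w : List (Fin (2 * c + 1)), w.length < T → ‖pdl w F 0‖ ≤ Real.exp (-((T : ℝ) ^ ε * k ^ 2))) →
        ∀ (b : Fin (2 * c + 1) → ℝ) (y : ℝ), (∀ j, 0 ≤ b j ∧ b j ≤ d) → |y| ≤ k / C → ‖F (pt g b y)‖ ≤ Real.exp (-(k ^ 2 / C))

/-- the abstract properties (P1)-(P7) of the kernel -/
structure Ker {c : ℕ} (D : Dat c) (Φ : (Fin (2 * c + 1) → ℂ) → (Fin (2 * c + 1) → ℂ) → ℂ) (C C' : (Fin (2 * c + 1) → ℤ) → ℂ) : Prop where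
  diff : Differentiable ℂ (fun q : (Fin (2 * c + 1) → ℂ) × (Fin (2 * c + 1) → ℂ) => Φ q.1 q.2)
  secu : ∀ s, Sec D.d D.Lt C (fun u => Φ u s)
  secs : ∀ u, Sec D.d D.L C' (fun s => Φ u s)
  mulu : MulOK D.d D.z C
  muls : MulOK D.d D.z C'
  sh : ∀ (x : ℂ) (u s : Fin (2 * c + 1) → ℂ), Φ (u + x • D.gc) (s - x • D.gc) = ee (x * (D.v0 ⬝ᵥ (s - u)) - x ^ 2 * D.nu) * Φ u s
  jump : ∃ (p p' : Fin (2 * c + 1) → ℂ) (nn : Fin (2 * c + 1) → ℤ) (C5 : ℂ), C5 ≠ 0 ∧ D.L *ᵥ p' + D.Lt *ᵥ p = (fun j => (nn j : ℂ)) ∧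
    1 ≤ ∑ j, D.g j * nn j ∧ ∀ u s, Φ (u + p) (s + p') = C5 * ee (p ⬝ᵥ (D.L *ᵥ s) + u ⬝ᵥ (D.L *ᵥ p')) * Φ u s
  grow : ∃ A : ℝ, ∀ u s, ‖Φ u s‖ ≤ Real.exp (A * (1 + nsq u + nsq s))
  one : Φ 0 0 = 1

/-- UPPER BOUND (C.3) -/
def UB {n : ℕ} (Φ : (Fin n → ℂ) → (Fin n → ℂ) → ℂ) : Prop :=
  ∃ c0 C : ℝ, 0 < c0 ∧ ∀ (T j : ℕ), 2 ≤ T → ∀ r s : Fin j → Wd n T, ∃ E : Matrix (Fin j) (Fin j) ℂ,
    1 ≤ ‖E.det‖ ∧ (∀ i l, ‖E i l‖ ≤ 1) ∧ ∀ i l, ‖((BM Φ T).submatrix r s * E) i l‖ ≤ j * Real.exp (-c0 * ((l : ℕ) + 1 : ℝ) ^ 2 + C * T * Real.log T)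

/-- LOWER BOUND (C.4) -/
def LB {n : ℕ} (c : ℕ) (Φ : (Fin n → ℂ) → (Fin n → ℂ) → ℂ) : Prop :=
  ∀ ε : ℝ, 0 < ε → ε ≤ 1 / 20 → ∃ T0 : ℕ, ∀ T : ℕ, T0 ≤ T → ∀ j : ℕ, 1 ≤ j → (j : ℝ) ≤ (T : ℝ) ^ ((c : ℝ) + 1 - 4 * ε) →
    ∃ (U : Matrix (Fin j) (Wd n T) ℂ) (V : Matrix (Wd n T) (Fin j) ℂ),
      (∀ i a, ‖U i a‖ ≤ Real.exp ((T : ℝ) ^ (6 * ε) * ((j : ℝ) ^ 2 + T))) ∧
        (∀ b i, ‖V b i‖ ≤ Real.exp ((T : ℝ) ^ (6 * ε) * ((j : ℝ) ^ 2 + T))) ∧ U * BM Φ T * V = 1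

/-- THEOREM C -/
def ThmC : Prop :=
  ∀ (c : ℕ) (D : Dat c) (Φ : (Fin (2 * c + 1) → ℂ) → (Fin (2 * c + 1) → ℂ) → ℂ) (C C' : (Fin (2 * c + 1) → ℤ) → ℂ), Ker D Φ C C' →
    (INT D.d D.g D.Lt C → INT D.d D.g D.L C' → LB c Φ) ∧ UB Φ

/-! ### Part D: the arithmetic data -/

/-- `w` is the image of `z` under an element of `GL₂(ℚ)` -/
def GEq (z w : ℂ) : Prop := ∃ a b c d : ℚ, a * d - b * c ≠ 0 ∧ c * z + d ≠ 0 ∧ w = (a * z + b) / (c * z + d)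

/-- `z` satisfies no nontrivial quadratic equation over `ℚ` -/
def NQ (z : ℂ) : Prop := ∀ a b c : ℚ, (a : ℂ) * z ^ 2 + b * z + c = 0 → a = 0 ∧ b = 0 ∧ c = 0

/-- a nonreal quartic field containing a real quadratic field -/
structure QF (K : Subfield ℂ) : Prop where
  dim : Module.finrank ℚ K = 4
  nr : ∃ x ∈ K, x.im ≠ 0
  rq : ∃ Δ : ℕ, ¬ IsSquare Δ ∧ ((Real.sqrt Δ : ℝ) : ℂ) ∈ K

/-- THEOREM D1: existence of the matrix `M` (for `c + 1` points) -/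
def ThmD1 : Prop :=
  ∀ (K : Subfield ℂ), QF K → ∀ (c : ℕ) (z : Fin (c + 1) → ℂ), (∀ i, z i ∈ K) → (∀ i, 0 < (z i).im) → (∀ i, NQ (z i)) →
    (∀ i j, i ≠ j → ¬ GEq (z i) (z j)) → ∃ (D : Dat c) (idx : Fin (2 * c + 1) → Fin (c + 1)), ∀ j, D.z j = z (idx j)

/-- THEOREM D2: interpolation for sections (uses Theorem B) -/
def ThmD2 : Prop :=
  ∀ (K : Subfield ℂ), QF K → ∀ (c : ℕ) (D : Dat c), (∀ j, D.z j ∈ K) → (∀ j, NQ (D.z j)) →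
    (∀ i j, D.z i ≠ D.z j → ¬ GEq (D.z i) (D.z j)) → (∀ C, MulOK D.d D.z C → INT D.d D.g D.Lt C) ∧ (∀ C, MulOK D.d D.z C → INT D.d D.g D.L C)

end Pool.Agent.LT
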