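import Mathlib
import Pool.Agent.Lib.MP_f58a57_nt.LK.K002

open Complex MvPolynomial Matrix
noncomputable section
namespace Pool.Agent.LT
variable {m c : ℕ}

theorem Ah_mono {τ w' : ℝ} (hτ : τ ≤ 1 / 2) (hw' : 0 ≤ w') (I : Ideal (PC m)) {E : ℕ} {P : PC m} (hP : P ∈ I)
    (hh : P.IsHomogeneous E) (h1 : P.coeff (Finsupp.single 0 E) = 1)
    (hs : ∑ d ∈ P.support.erase (Finsupp.single 0 E), ‖P.coeff d‖ * Real.exp (-(w' * ((E : ℝ) - (d 0 : ℕ)))) ≤ 1)
    {L : ℕ} (hL : 2 * E ≤ L) (n : ℕ) : ∀ d : Fin (m + 1) →₀ ℕ, d 0 = n → d.degree = L →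
    ∃ F : PC m, F.IsHomogeneous L ∧ F - monomial d 1 ∈ I ∧ (∀ e : Fin (m + 1) →₀ ℕ, (L : ℝ) - (e 0 : ℕ) < τ * L → F.coeff e = 0) ∧
      lC F ≤ Ah_M τ w' E L n := by
  classical
  induction n using Nat.strong_induction_on with
  | _ n ih =>
  intro d hdn hd
  by_cases hc : τ * L ≤ (L : ℝ) - n
  · refine ⟨monomial d 1, isHomogeneous_monomial _ hd, by simp, ?_, ?_⟩
    · intro e he
      rw [coeff_monomial, if_neg]
      rintro rfl
      rw [hdn] at he
      linarith
    · rw [Ah_M, if_pos hc]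
      exact Ah_lC_mono d
  · have hc' := not_le.1 hc
    have hEn : E ≤ n := by
      have h2 : (2 : ℝ) * E ≤ L := by exact_mod_cast hL
      have h3 : τ * L ≤ 1 / 2 * L := mul_le_mul_of_nonneg_right hτ (Nat.cast_nonneg _)
      have h4 : (E : ℝ) < n := by linarith
      exact_mod_cast h4.le
    set d' : Fin (m + 1) →₀ ℕ := d - Finsupp.single 0 E with hd'
    have hdd : d' + Finsupp.single 0 E = d := by
      rw [hd']
      apply tsub_add_cancel_of_le
      rw [Finsupp.single_le_iff]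
      omega
    have hd'0 : d' 0 + E = n := by
      rw [← hdn, ← hdd]
      simp
    have hdeg' : d'.degree + E = L := by
      rw [← hd, ← hdd, map_add, Finsupp.degree_single]
    have hγ : ∀ γ ∈ P.support.erase (Finsupp.single 0 E), γ 0 < E ∧ γ.degree = E := by
      intro γ hγ
      rw [Finset.mem_erase, MvPolynomial.mem_support_iff] at hγ
      have hdg : γ.degree = E := by
        have := hh hγ.2
        rw [Finsupp.degree_eq_weight_one]
        exact this
      refine ⟨?_, hdg⟩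
      by_contra hlt
      push Not at hlt
      apply hγ.1
      have hle : Finsupp.single 0 E ≤ γ := by
        rw [Finsupp.single_le_iff]
        exact hlt
      obtain ⟨δ, hδ⟩ := le_iff_exists_add.1 hle
      have h5 : δ.degree = 0 := by
        have := congrArg Finsupp.degree hδ
        rw [map_add, Finsupp.degree_single, hdg] at this
        omega
      have h6 : δ = 0 := by
        rwa [Finsupp.degree_eq_zero_iff] at h5
      rw [hδ, h6, add_zero]
    have hex : ∀ γ, ∃ F : PC m, γ ∈ P.support.erase (Finsupp.single 0 E) →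
        (F.IsHomogeneous L ∧ F - monomial (d' + γ) 1 ∈ I ∧ (∀ e : Fin (m + 1) →₀ ℕ, (L : ℝ) - (e 0 : ℕ) < τ * L → F.coeff e = 0) ∧
      lC F ≤ Ah_M τ w' E L ((d' + γ) 0)) := by
      intro γ
      by_cases h : γ ∈ P.support.erase (Finsupp.single 0 E)
      · obtain ⟨h7, h8⟩ := hγ γ h
        obtain ⟨F, hF⟩ := ih ((d' + γ) 0) (by simp only [Finsupp.add_apply]; omega) (d' + γ) rfl (by rw [map_add]; omega)
        exact ⟨F, fun _ => hF⟩
      · exact ⟨0, fun h' => absurd h' h⟩
    choose Fγ hFγ using hex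
    have hPsum : monomial d' 1 * P = monomial d 1 + ∑ γ ∈ P.support.erase (Finsupp.single 0 E), C (P.coeff γ) * monomial (d' + γ) 1 := by
      have h9 : P = monomial (Finsupp.single 0 E) 1 + ∑ γ ∈ P.support.erase (Finsupp.single 0 E), monomial γ (P.coeff γ) := by
        conv_lhs => rw [P.as_sum]
        rw [← Finset.add_sum_erase P.support _ (a := Finsupp.single 0 E), h1]
        rw [MvPolynomial.mem_support_iff, h1]
        exact one_ne_zero
      conv_lhs => rw [h9]
      rw [mul_add, monomial_mul, hdd, one_mul, Finset.mul_sum]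
      congr 1
      refine Finset.sum_congr rfl fun γ _ => ?_
      rw [monomial_mul, one_mul, C_mul_monomial, mul_one]
    refine ⟨-∑ γ ∈ P.support.erase (Finsupp.single 0 E), C (P.coeff γ) * Fγ γ, ?_, ?_, ?_, ?_⟩
    · apply IsHomogeneous.neg
      apply IsHomogeneous.sum
      intro γ hγ'
      have := (isHomogeneous_C (Fin (m + 1)) (P.coeff γ)).mul (hFγ γ hγ').1
      rwa [zero_add] at this
    · have h10 : -∑ γ ∈ P.support.erase (Finsupp.single 0 E), C (P.coeff γ) * Fγ γ - monomial d 1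
          = -(∑ γ ∈ P.support.erase (Finsupp.single 0 E), C (P.coeff γ) * (Fγ γ - monomial (d' + γ) 1)) - monomial d' 1 * P := by
        rw [hPsum]
        simp only [mul_sub, Finset.sum_sub_distrib]
        ring
      rw [h10]
      apply I.sub_mem
      · apply I.neg_mem
        apply Ideal.sum_mem
        intro γ hγ'
        exact I.mul_mem_left _ (hFγ γ hγ').2.1
      · exact I.mul_mem_left _ hP
    · intro e he
      rw [coeff_neg, MvPolynomial.coeff_sum, neg_eq_zero]
      apply Finset.sum_eq_zero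
      intro γ hγ'
      rw [coeff_C_mul, (hFγ γ hγ').2.2.1 e he, mul_zero]
    · rw [Ah_lC_neg]
      have hMn : Ah_M τ w' E L n = Real.exp (w' * (τ * L + E - (L - n))) := by rw [Ah_M, if_neg hc]
      rw [hMn]
      have hbd : ∀ γ ∈ P.support.erase (Finsupp.single 0 E), Ah_M τ w' E L ((d' + γ) 0) ≤
          Real.exp (w' * (τ * L + E - (L - n))) * Real.exp (-(w' * ((E : ℝ) - (γ 0 : ℕ)))) := by
        intro γ hγ'
        obtain ⟨h7, h8⟩ := hγ γ hγ'
        have h11 : (((d' + γ) 0 : ℕ) : ℝ) = n - E + (γ 0 : ℕ) := by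
          have : (n : ℝ) = (d' 0 : ℕ) + E := by exact_mod_cast hd'0.symm
          rw [this, Finsupp.add_apply]
          push_cast
          ring
        rw [← Real.exp_add]
        unfold Ah_M
        split_ifs with h12
        · apply Real.one_le_exp
          have h13 : 0 ≤ w' * (τ * L - (L - n) + (γ 0 : ℕ)) := by
            apply mul_nonneg hw'
            have : (0 : ℝ) ≤ (γ 0 : ℕ) := Nat.cast_nonneg _
            linarith
          linarith
        · apply Real.exp_le_exp.2
          rw [h11]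
          apply le_of_eq
          ring
      calc lC (∑ γ ∈ P.support.erase (Finsupp.single 0 E), C (P.coeff γ) * Fγ γ)
          ≤ ∑ γ ∈ P.support.erase (Finsupp.single 0 E), lC (C (P.coeff γ) * Fγ γ) := Ah_lC_sum _ _
        _ ≤ ∑ γ ∈ P.support.erase (Finsupp.single 0 E), Real.exp (w' * (τ * L + E - (L - n))) * (‖P.coeff γ‖ * Real.exp (-(w' * ((E : ℝ) - (γ 0 : ℕ))))) := by
            apply Finset.sum_le_sum
            intro γ hγ'
            calc lC (C (P.coeff γ) * Fγ γ) ≤ ‖P.coeff γ‖ * lC (Fγ γ) := Ah_lC_C_mul _ _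
              _ ≤ ‖P.coeff γ‖ * (Real.exp (w' * (τ * L + E - (L - n))) * Real.exp (-(w' * ((E : ℝ) - (γ 0 : ℕ))))) := by
                  apply mul_le_mul_of_nonneg_left _ (norm_nonneg _)
                  exact (hFγ γ hγ').2.2.2.trans (hbd γ hγ')
              _ = _ := by ring
        _ = Real.exp (w' * (τ * L + E - (L - n))) * ∑ γ ∈ P.support.erase (Finsupp.single 0 E), (‖P.coeff γ‖ * Real.exp (-(w' * ((E : ℝ) - (γ 0 : ℕ))))) := by
            rw [Finset.mul_sum]
        _ ≤ Real.exp (w' * (τ * L + E - (L - n))) * 1 := mul_le_mul_of_nonneg_left hs (Real.exp_pos _).le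
        _ = _ := mul_one _

theorem switch (θ : Fin m → ℂ) {τ w w' : ℝ} (hτ0 : 0 ≤ τ) (hτ : τ ≤ 1 / 2) (hw' : 0 ≤ w') (hww : w' ≤ w) (p : Ideal (PQ m)) {E : ℕ} (hE : 1 ≤ E)
    {G : PC m} (hG : G ∈ JC p) (hh : G.IsHomogeneous E) (h1 : (phi θ G).coeff (Finsupp.single 0 E) = 1)
    (hs : ∑ d ∈ (phi θ G).support.erase (Finsupp.single 0 E), ‖(phi θ G).coeff d‖ * Real.exp (-(w' * ((E : ℝ) - (d 0 : ℕ)))) ≤ 1)
    {L : ℕ} (hL : 2 * E ≤ L) {f : PC m} (hf : f.IsHomogeneous L) :
    ∃ f' : PC m, f'.IsHomogeneous L ∧ f' - f ∈ JC p ∧ wl θ w τ L f' ≤ (1 + Real.exp (w' * E)) * wl θ w' τ L f := by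
  classical
  set I : Ideal (PC m) := (JC p).comap (phi (-θ)).toRingHom with hI
  have hPI : phi θ G ∈ I := by
    rw [hI, Ideal.mem_comap]
    change phi (-θ) (phi θ G) ∈ JC p
    rw [phi_neg']
    exact hG
  have hF : (phi θ f).IsHomogeneous L := phi_hom θ hf
  have hex : ∀ d, ∃ F : PC m, d ∈ (phi θ f).support → (F.IsHomogeneous L ∧ F - monomial d 1 ∈ I ∧
      (∀ e : Fin (m + 1) →₀ ℕ, (L : ℝ) - (e 0 : ℕ) < τ * L → F.coeff e = 0) ∧ lC F ≤ Ah_M τ w' E L (d 0)) := by
    intro d
    by_cases hd : d ∈ (phi θ f).support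
    · have hdg : d.degree = L := by
        have := hF (MvPolynomial.mem_support_iff.1 hd)
        rw [Finsupp.degree_eq_weight_one]
        exact this
      obtain ⟨F, hF⟩ := Ah_mono hτ hw' I hPI (phi_hom θ hh) h1 hs hL (d 0) d rfl hdg
      exact ⟨F, fun _ => hF⟩
    · exact ⟨0, fun h => absurd h hd⟩
  choose Fd hFd using hex
  set F' : PC m := ∑ d ∈ (phi θ f).support, C ((phi θ f).coeff d) * Fd d with hF'
  have hF'hom : F'.IsHomogeneous L := by
    apply IsHomogeneous.sum
    intro d hd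
    have := (isHomogeneous_C (Fin (m + 1)) ((phi θ f).coeff d)).mul (hFd d hd).1
    rwa [zero_add] at this
  refine ⟨phi (-θ) F', phi_hom (-θ) hF'hom, ?_, ?_⟩
  · have h2 : F' - phi θ f ∈ I := by
      have h3 : F' - phi θ f = ∑ d ∈ (phi θ f).support, C ((phi θ f).coeff d) * (Fd d - monomial d 1) := by
        simp only [mul_sub, Finset.sum_sub_distrib]
        rw [← hF']
        congr 1
        conv_lhs => rw [(phi θ f).as_sum]
        refine Finset.sum_congr rfl fun d _ => ?_
        rw [C_mul_monomial, mul_one]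
      rw [h3]
      apply Ideal.sum_mem
      intro d hd
      exact I.mul_mem_left _ (hFd d hd).2.1
    rw [hI, Ideal.mem_comap] at h2
    have h4 : phi (-θ) (F' - phi θ f) ∈ JC p := h2
    rwa [map_sub, phi_neg'] at h4
  · have h5 : wl θ w τ L (phi (-θ) F') = lC F' := by
      unfold wl lC
      rw [phi_neg]
      refine Finset.sum_congr rfl fun e he => ?_
      have h6 : τ * L ≤ (L : ℝ) - (e 0 : ℕ) := by
        by_contra hlt
        rw [MvPolynomial.mem_support_iff] at he
        apply he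
        rw [hF', MvPolynomial.coeff_sum]
        apply Finset.sum_eq_zero
        intro d hd
        rw [coeff_C_mul, (hFd d hd).2.2.1 e (not_le.1 hlt), mul_zero]
      rw [wt, max_eq_left (by linarith), mul_zero, Real.exp_zero, mul_one]
    rw [h5]
    calc lC F' ≤ ∑ d ∈ (phi θ f).support, lC (C ((phi θ f).coeff d) * Fd d) := Ah_lC_sum _ _
      _ ≤ ∑ d ∈ (phi θ f).support, (1 + Real.exp (w' * E)) * (‖(phi θ f).coeff d‖ * wt w' τ L d) := by
          apply Finset.sum_le_sum
          intro d hd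
          calc lC (C ((phi θ f).coeff d) * Fd d) ≤ ‖(phi θ f).coeff d‖ * lC (Fd d) := Ah_lC_C_mul _ _
            _ ≤ ‖(phi θ f).coeff d‖ * ((1 + Real.exp (w' * E)) * wt w' τ L d) := by
                apply mul_le_mul_of_nonneg_left _ (norm_nonneg _)
                refine (hFd d hd).2.2.2.trans ?_
                unfold Ah_M wt
                split_ifs with h7
                · have h8 : (1 : ℝ) ≤ Real.exp (w' * max 0 (τ * L - ((L : ℝ) - (d 0 : ℕ)))) :=
                    Real.one_le_exp (mul_nonneg hw' (le_max_left _ _))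
                  nlinarith [Real.exp_pos (w' * E)]
                · have h9 := not_le.1 h7
                  rw [max_eq_right (by linarith)]
                  have h10 : Real.exp (w' * (τ * L + E - (L - (d 0 : ℕ)))) = Real.exp (w' * E) * Real.exp (w' * (τ * L - ((L : ℝ) - (d 0 : ℕ)))) := by
                    rw [← Real.exp_add]
                    congr 1
                    ring
                  rw [h10]
                  apply mul_le_mul_of_nonneg_right _ (Real.exp_pos _).le
                  linarith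
            _ = _ := by ring
      _ = _ := by
          rw [wl, Finset.mul_sum]


/-! ### row Ai: the switch for generating functions -/


theorem Ai_chi (θ : Fin m → ℂ) {τ w w' : ℝ} (hτ0 : 0 ≤ τ) (hτ : τ ≤ 1 / 2) (hw' : 0 ≤ w') (hww : w' ≤ w) (p : Ideal (PQ m)) {E : ℕ} (hE : 1 ≤ E)
    {G : PC m} (hG : G ∈ JC p) (hh : G.IsHomogeneous E) (h1 : (phi θ G).coeff (Finsupp.single 0 E) = 1)
    (hs : ∑ d ∈ (phi θ G).support.erase (Finsupp.single 0 E), ‖(phi θ G).coeff d‖ * Real.exp (-(w' * ((E : ℝ) - (d 0 : ℕ)))) ≤ 1)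
    {L : ℕ} (hL : 2 * E ≤ L) :
    chi θ w τ p L ≤ chi θ w' τ p L + Real.log (1 + Real.exp (w' * E)) * rJ p L := by
  have hc0 : 0 ≤ Real.log (1 + Real.exp (w' * E)) := Real.log_nonneg (by linarith [Real.exp_pos (w' * E)])
  refine le_of_forall_pos_le_add fun η hη => ?_
  obtain ⟨r, f, g, hb, hm, hp⟩ := chi_adm θ hw' hτ0 p L hη
  have hsw : ∀ i, ∃ f' : PC m, f'.IsHomogeneous L ∧ f' - g i ∈ JC p ∧ wl θ w τ L f' ≤ (1 + Real.exp (w' * E)) * wl θ w' τ L (g i) :=
    fun i => switch θ hτ0 hτ hw' hww p hE hG hh h1 hs hL (hm.hom i)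
  choose g' hg1 hg2 hg3 using hsw
  have hadm : Adm θ w τ p L (chi θ w' τ p L + Real.log (1 + Real.exp (w' * E)) * rJ p L + η) := by
    refine ⟨r, f, g', hb, ⟨hg1, ?_⟩, ?_⟩
    · intro i
      have e : g' i - zc (f i) = (g' i - g i) + (g i - zc (f i)) := by ring
      rw [e]
      refine Submodule.add_mem _ ?_ (hm.mem i)
      exact Submodule.mem_sup_right (by simpa using hg2 i)
    · have h2 : ∏ i, wl θ w τ L (g' i) ≤ ∏ i, ((1 + Real.exp (w' * E)) * wl θ w' τ L (g i)) :=
        Finset.prod_le_prod (fun i _ => wl_nonneg _ _ _ _ _) fun i _ => hg3 i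
      rw [Finset.prod_mul_distrib, Finset.prod_const, Finset.card_univ, Fintype.card_fin] at h2
      refine h2.trans ?_
      have h3 : (1 + Real.exp (w' * E)) ^ r = Real.exp (Real.log (1 + Real.exp (w' * E)) * rJ p L) := by
        rw [← hb.card, mul_comm (Real.log _) (r : ℝ), Real.exp_nat_mul, Real.exp_log (by positivity)]
      have h4 : Real.exp (chi θ w' τ p L + Real.log (1 + Real.exp (w' * E)) * rJ p L + η) =
          Real.exp (Real.log (1 + Real.exp (w' * E)) * rJ p L) * Real.exp (chi θ w' τ p L + η) := by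
        rw [← Real.exp_add]; congr 1; ring
      rw [h4, h3]
      exact mul_le_mul_of_nonneg_left hp (Real.exp_pos _).le
  refine chi_le θ w τ p L ?_ hadm
  have := chi_nonneg θ w' τ p L
  positivity

theorem xx_switch (θ : Fin m → ℂ) {τ w w' : ℝ} (hτ0 : 0 ≤ τ) (hτ : τ ≤ 1 / 2) (hw' : 0 ≤ w') (hww : w' ≤ w) (p : Ideal (PQ m)) {E : ℕ} (hE : 1 ≤ E)
    {G : PC m} (hG : G ∈ JC p) (hh : G.IsHomogeneous E) (h1 : (phi θ G).coeff (Finsupp.single 0 E) = 1)
    (hs : ∑ d ∈ (phi θ G).support.erase (Finsupp.single 0 E), ‖(phi θ G).coeff d‖ * Real.exp (-(w' * ((E : ℝ) - (d 0 : ℕ)))) ≤ 1) :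
    ∃ C1 C2 : ℝ, ∀ t : ℝ, 0 ≤ t → t < 1 → XX θ w τ p t ≤ XX θ w' τ p t + C1 * PP p t + C2 := by
  have hw : 0 ≤ w := hw'.trans hww
  set cc := Real.log (1 + Real.exp (w' * E)) with hcc
  have hc0 : 0 ≤ cc := Real.log_nonneg (by linarith [Real.exp_pos (w' * E)])
  have hfin : Summable (fun L : ℕ => if L < 2 * E then chi θ w τ p L else 0) := by
    refine summable_of_ne_finset_zero (s := Finset.range (2 * E)) ?_
    intro b hb
    rw [Finset.mem_range] at hb
    rw [if_neg hb]
  refine ⟨cc, ∑' L : ℕ, (if L < 2 * E then chi θ w τ p L else 0), fun t h0 ht => ?_⟩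
  have s1 := xx_summable θ hw hτ0 p h0 ht
  have s2 := xx_summable θ hw' hτ0 p h0 ht
  have s3 := (pp_summable p h0 ht).mul_left cc
  have s4 := (s2.add s3).add hfin
  unfold XX PP
  rw [← tsum_mul_left, ← s2.tsum_add s3, ← (s2.add s3).tsum_add hfin]
  refine s1.tsum_le_tsum (fun L => ?_) s4
  have ht1 : t ^ L ≤ 1 := pow_le_one₀ h0 ht.le
  have ht0 : 0 ≤ t ^ L := pow_nonneg h0 L
  have hr0 : (0 : ℝ) ≤ rJ p L := Nat.cast_nonneg _
  have hn1 := chi_nonneg θ w τ p L
  have hn2 := chi_nonneg θ w' τ p L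
  by_cases hL : L < 2 * E
  · rw [if_pos hL]
    have a1 : chi θ w τ p L * t ^ L ≤ chi θ w τ p L := mul_le_of_le_one_right hn1 ht1
    have a2 : 0 ≤ chi θ w' τ p L * t ^ L := by positivity
    have a3 : 0 ≤ cc * ((rJ p L : ℝ) * t ^ L) := by positivity
    linarith
  · rw [if_neg hL]
    have := Ai_chi θ hτ0 hτ hw' hww p hE hG hh h1 hs (not_lt.mp hL)
    have a1 := mul_le_mul_of_nonneg_right this ht0
    rw [← hcc] at a1
    linarith


end Pool.Agent.LT

end
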