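import Mathlib
import Pool.Agent.Lib.MP_f58a57_nt.LK.K003
import Pool.Agent.Lib.MP_f58a57_nt.LK.K004

open Complex MvPolynomial Matrix
noncomputable section
namespace Pool.Agent.LT
variable {m c : ℕ}

theorem Al2_lC_C (a : ℂ) (f : PC m) : lC (C a * f) ≤ ‖a‖ * lC f := by
  unfold lC
  rw [Finset.mul_sum]
  have hs : (C a * f).support ⊆ f.support := by
    intro d hd
    rw [MvPolynomial.mem_support_iff] at hd ⊢
    rw [MvPolynomial.coeff_C_mul] at hd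
    exact right_ne_zero_of_mul hd
  calc ∑ d ∈ (C a * f).support, ‖(C a * f).coeff d‖ ≤ ∑ d ∈ f.support, ‖(C a * f).coeff d‖ :=
        Finset.sum_le_sum_of_subset_of_nonneg hs (fun _ _ _ => norm_nonneg _)
    _ = ∑ d ∈ f.support, ‖a‖ * ‖f.coeff d‖ := by
        refine Finset.sum_congr rfl (fun d _ => ?_)
        rw [MvPolynomial.coeff_C_mul, norm_mul]

theorem Al2_lC_zero : lC (0 : PC m) = 0 := by simp [lC]

theorem Al2_lC_sum {ι : Type} (s : Finset ι) (f : ι → PC m) : lC (∑ i ∈ s, f i) ≤ ∑ i ∈ s, lC (f i) := by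
  classical
  induction s using Finset.induction_on with
  | empty => simp [Al2_lC_zero]
  | insert a s ha ih =>
    rw [Finset.sum_insert ha, Finset.sum_insert ha]
    exact (lC_add_le _ _).trans (by linarith)

/-- the matrix `zc B` times a complex matrix -/
def Al2_A {ρ : ℕ} (B : Matrix (Fin ρ) (Fin ρ) (PZ m)) (E : Matrix (Fin ρ) (Fin ρ) ℂ) : Matrix (Fin ρ) (Fin ρ) (PC m) :=
  (B.map zc) * (E.map C)

theorem Al2_A_apply {ρ : ℕ} (B : Matrix (Fin ρ) (Fin ρ) (PZ m)) (E : Matrix (Fin ρ) (Fin ρ) ℂ) (i l : Fin ρ) :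
    Al2_A B E i l = ∑ j, C (E j l) * zc (B i j) := by
  simp only [Al2_A, Matrix.mul_apply, Matrix.map_apply]
  exact Finset.sum_congr rfl (fun j _ => mul_comm _ _)

theorem Al2_zc_hom {T : ℕ} {f : PZ m} (hf : f.IsHomogeneous T) : (zc f).IsHomogeneous T := hf.map _

theorem Al2_A_hom {ρ T : ℕ} (B : Matrix (Fin ρ) (Fin ρ) (PZ m)) (hB : ∀ i j, (B i j).IsHomogeneous T) (E : Matrix (Fin ρ) (Fin ρ) ℂ) (i l : Fin ρ) :
    (Al2_A B E i l).IsHomogeneous T := by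
  rw [Al2_A_apply]
  apply MvPolynomial.IsHomogeneous.sum
  intro j _
  have := (MvPolynomial.isHomogeneous_C (Fin (m + 1)) (E j l)).mul (Al2_zc_hom (hB i j))
  simpa using this

theorem Al2_A_det {ρ : ℕ} (B : Matrix (Fin ρ) (Fin ρ) (PZ m)) (E : Matrix (Fin ρ) (Fin ρ) ℂ) :
    (Al2_A B E).det = C E.det * zc B.det := by
  unfold Al2_A
  rw [Matrix.det_mul, mul_comm]
  congr 1
  · have := RingHom.map_det (C : ℂ →+* PC m) E
    rw [this]; rfl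
  · have := RingHom.map_det (MvPolynomial.map (Int.castRingHom ℂ) : PZ m →+* PC m) B
    show _ = (MvPolynomial.map (Int.castRingHom ℂ)) B.det
    rw [this]; rfl

theorem Al2_A_top (θ : Fin m → ℂ) {ρ T : ℕ} (B : Matrix (Fin ρ) (Fin ρ) (PZ m)) (hB : ∀ i j, (B i j).IsHomogeneous T) (E : Matrix (Fin ρ) (Fin ρ) ℂ) (i l : Fin ρ) :
    (phi θ (Al2_A B E i l)).coeff (Finsupp.single 0 T) = (evM (Fin.cons 1 θ : Fin (m + 1) → ℂ) B * E) i l := by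
  rw [Al2_top θ (Al2_A_hom B hB E i l), Al2_A_apply, map_sum, Matrix.mul_apply]
  refine Finset.sum_congr rfl (fun j _ => ?_)
  rw [map_mul, MvPolynomial.eval_C, Al2_zc_eval, mul_comm]
  rfl

theorem Al2_A_len (θ : Fin m → ℂ) {Θ : ℝ} (hΘ : ∀ i, ‖θ i‖ ≤ Θ) (hΘ0 : 0 ≤ Θ) {ρ T : ℕ} (B : Matrix (Fin ρ) (Fin ρ) (PZ m))
    (hB : ∀ i j, (B i j).IsHomogeneous T) (E : Matrix (Fin ρ) (Fin ρ) ℂ) {P : ℝ} (hlen : ∀ i j, len (B i j) ≤ Real.exp P)
    (hE : ∀ i j, ‖E i j‖ ≤ Real.exp P) (i l : Fin ρ) :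
    lC (phi θ (Al2_A B E i l)) ≤ ρ * (Real.exp (2 * P) * (1 + Θ) ^ T) := by
  rw [Al2_A_apply, map_sum]
  refine (Al2_lC_sum _ _).trans ?_
  have : ∀ j ∈ (Finset.univ : Finset (Fin ρ)), lC (phi θ (C (E j l) * zc (B i j))) ≤ Real.exp (2 * P) * (1 + Θ) ^ T := by
    intro j _
    rw [map_mul]
    have h1 : phi θ (C (E j l)) = C (E j l) := by simp [phi]
    rw [h1]
    refine (Al2_lC_C _ _).trans ?_
    have h2 := lC_phi_le θ hΘ hΘ0 (Al2_zc_hom (hB i j))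
    rw [lC_zc] at h2
    have h3 : (0 : ℝ) < (1 + Θ) ^ T := by positivity
    have h4 : lC (phi θ (zc (B i j))) ≤ (1 + Θ) ^ T * Real.exp P := h2.trans (mul_le_mul_of_nonneg_left (hlen i j) h3.le)
    have h5 : 0 ≤ lC (phi θ (zc (B i j))) := by unfold lC; positivity
    calc ‖E j l‖ * lC (phi θ (zc (B i j))) ≤ Real.exp P * ((1 + Θ) ^ T * Real.exp P) :=
          mul_le_mul (hE j l) h4 h5 (Real.exp_pos _).le
      _ = Real.exp (2 * P) * (1 + Θ) ^ T := by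
          rw [two_mul, Real.exp_add]; ring
  refine (Finset.sum_le_sum this).trans ?_
  simp

/-- the elementary part: bound of the sum over the subsets -/
theorem Al2_main {ρ T : ℕ} (hρ : 1 ≤ ρ) (hT : 1 ≤ T) {w τ c0 P : ℝ} (hw : 0 ≤ w) (hc0 : 0 < c0) (hP : (T : ℝ) ≤ P)
    (hτ : τ * T ≤ 1 / 2) (hτ0 : 0 ≤ τ) (hww : w * (τ * T) ≤ c0 / 24 * ρ ^ 2 + T) (hρP : Real.log ρ + Real.log 2 ≤ P) :
    (ρ.factorial : ℝ) * ∑ I : Finset (Fin ρ), Real.exp (w * max 0 (τ * (ρ * T : ℕ) - I.card)) * (Real.exp (3 * P)) ^ I.card *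
      ∏ l ∈ Iᶜ, Real.exp (-c0 * ((l : ℕ) + 1 : ℝ) ^ 2 + P) ≤ Real.exp (5 * P * ρ) := by
  have hP0 : (0 : ℝ) ≤ P := le_trans (by positivity) hP
  have hρ0 : (0 : ℝ) < ρ := by exact_mod_cast hρ
  have hT0 : (0 : ℝ) < T := by exact_mod_cast hT
  have hterm : ∀ I : Finset (Fin ρ), Real.exp (w * max 0 (τ * (ρ * T : ℕ) - I.card)) * (Real.exp (3 * P)) ^ I.card *
      ∏ l ∈ Iᶜ, Real.exp (-c0 * ((l : ℕ) + 1 : ℝ) ^ 2 + P) ≤ Real.exp (4 * P * ρ) := by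
    intro I
    rw [← Real.exp_sum, ← Real.exp_nat_mul, ← Real.exp_add, ← Real.exp_add]
    apply Real.exp_le_exp.2
    rw [Finset.sum_add_distrib, ← Finset.mul_sum]
    have hcard : (I.card : ℝ) + (Iᶜ.card : ℝ) = ρ := by
      have := Finset.card_add_card_compl I
      rw [Fintype.card_fin] at this
      exact_mod_cast this
    have hsq := Al2_sqFin Iᶜ
    rw [Finset.sum_const, nsmul_eq_mul]
    set S := ∑ l ∈ Iᶜ, (((l : ℕ) : ℝ) + 1) ^ 2 with hS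
    have hI0 : (0 : ℝ) ≤ I.card := by positivity
    have hIc0 : (0 : ℝ) ≤ Iᶜ.card := by positivity
    have hS0 : 0 ≤ S := by rw [hS]; positivity
    have key : w * max 0 (τ * (ρ * T : ℕ) - I.card) - c0 * S ≤ P * ρ := by
      rcases le_or_gt (τ * (ρ * T : ℕ)) I.card with h | h
      · rw [max_eq_left (by linarith), mul_zero]
        have : 0 ≤ c0 * S := by positivity
        have : 0 ≤ P * ρ := by positivity
        linarith
      · rw [max_eq_right (by linarith)]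
        push_cast at h ⊢
        have h1 : (I.card : ℝ) ≤ ρ / 2 := by
          have : τ * (ρ * T) ≤ ρ * (1 / 2) := by
            calc τ * (ρ * T) = ρ * (τ * T) := by ring
              _ ≤ ρ * (1 / 2) := mul_le_mul_of_nonneg_left hτ hρ0.le
          linarith
        have h2 : (ρ : ℝ) / 2 ≤ Iᶜ.card := by linarith
        have h3 : ((ρ : ℝ) / 2) ^ 3 ≤ (Iᶜ.card : ℝ) ^ 3 := pow_le_pow_left₀ (by positivity) h2 3
        have h4 : (ρ : ℝ) ^ 3 / 24 ≤ S := by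
          have : ((ρ : ℝ) / 2) ^ 3 / 3 = (ρ : ℝ) ^ 3 / 24 := by ring
          linarith
        have h5 : w * (τ * (ρ * T) - I.card) ≤ ρ * (w * (τ * T)) := by
          have : 0 ≤ w * I.card := by positivity
          nlinarith
        have h6 : ρ * (w * (τ * T)) ≤ ρ * (c0 / 24 * ρ ^ 2 + T) := mul_le_mul_of_nonneg_left hww hρ0.le
        have h7 : ρ * (c0 / 24 * (ρ : ℝ) ^ 2 + T) = c0 * ((ρ : ℝ) ^ 3 / 24) + T * ρ := by ring
        have h8 : c0 * ((ρ : ℝ) ^ 3 / 24) ≤ c0 * S := mul_le_mul_of_nonneg_left h4 hc0.le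
        have h9 : (T : ℝ) * ρ ≤ P * ρ := mul_le_mul_of_nonneg_right hP hρ0.le
        linarith
    have h10 : P * (Iᶜ.card : ℝ) ≤ 3 * P * Iᶜ.card := by nlinarith
    have h11 : (I.card : ℝ) * (3 * P) + 3 * P * Iᶜ.card = 3 * P * ρ := by rw [← hcard]; ring
    linarith
  have hsum : ∑ I : Finset (Fin ρ), Real.exp (w * max 0 (τ * (ρ * T : ℕ) - I.card)) * (Real.exp (3 * P)) ^ I.card *
      ∏ l ∈ Iᶜ, Real.exp (-c0 * ((l : ℕ) + 1 : ℝ) ^ 2 + P) ≤ 2 ^ ρ * Real.exp (4 * P * ρ) := by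
    refine (Finset.sum_le_sum (fun I _ => hterm I)).trans ?_
    rw [Finset.sum_const, nsmul_eq_mul]
    simp
  have hfac : (ρ.factorial : ℝ) ≤ (ρ : ℝ) ^ ρ := by exact_mod_cast Nat.factorial_le_pow ρ
  have h2 : (ρ : ℝ) ^ ρ = Real.exp (ρ * Real.log ρ) := by
    rw [Real.exp_nat_mul, Real.exp_log hρ0]
  have h3 : (2 : ℝ) ^ ρ = Real.exp (ρ * Real.log 2) := by
    rw [Real.exp_nat_mul, Real.exp_log (by norm_num)]
  calc _ ≤ (ρ : ℝ) ^ ρ * (2 ^ ρ * Real.exp (4 * P * ρ)) := by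
        refine mul_le_mul hfac hsum ?_ (by positivity)
        positivity
    _ = Real.exp (ρ * Real.log ρ + (ρ * Real.log 2 + 4 * P * ρ)) := by
        rw [h2, h3, Real.exp_add, Real.exp_add]
    _ ≤ Real.exp (5 * P * ρ) := by
        apply Real.exp_le_exp.2
        nlinarith

/-- the conditions on `T` -/
theorem Al2_large (k : ℕ) (Θ : ℝ) {ε c0 : ℝ} (hε : 0 < ε) (hc : 0 < c0) :
    ∃ T0 : ℕ, ∀ T : ℕ, T0 ≤ T → 1 ≤ T ∧ 5 ≤ (T : ℝ) ^ ε ∧ 4 * (T : ℝ) ^ (-2 * ε) ≤ c0 / 24 ∧ (T : ℝ) ^ (-4 * ε) ≤ 1 / 2 ∧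
      (((k : ℝ) + 1) / 2 + 10 * ((k : ℝ) + 2) * ε) * Real.log T + Real.log 2 ≤ (T : ℝ) ^ (1 + ε) ∧
      (((k : ℝ) + 1) / 2 + 10 * ((k : ℝ) + 2) * ε) * Real.log T + T * Real.log (1 + Θ) ≤ (T : ℝ) ^ (1 + ε) := by
  have hcast : Filter.Tendsto (fun n : ℕ => (n : ℝ)) Filter.atTop Filter.atTop := tendsto_natCast_atTop_atTop
  have e1 : ∀ᶠ T : ℝ in Filter.atTop, 5 ≤ T ^ ε := (tendsto_rpow_atTop hε).eventually_ge_atTop 5
  have e2 : ∀ᶠ T : ℝ in Filter.atTop, T ^ (-2 * ε) ≤ c0 / 96 := by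
    have : Filter.Tendsto (fun T : ℝ => T ^ (-(2 * ε))) Filter.atTop (nhds 0) := tendsto_rpow_neg_atTop (by positivity)
    have := this.eventually_le_const (show (0 : ℝ) < c0 / 96 by positivity)
    filter_upwards [this] with T hT
    rwa [show -2 * ε = -(2 * ε) by ring]
  have e3 : ∀ᶠ T : ℝ in Filter.atTop, T ^ (-4 * ε) ≤ 1 / 2 := by
    have : Filter.Tendsto (fun T : ℝ => T ^ (-(4 * ε))) Filter.atTop (nhds 0) := tendsto_rpow_neg_atTop (by positivity)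
    have := this.eventually_le_const (show (0 : ℝ) < 1 / 2 by positivity)
    filter_upwards [this] with T hT
    rwa [show -4 * ε = -(4 * ε) by ring]
  set K := (((k : ℝ) + 1) / 2 + 10 * ((k : ℝ) + 2) * ε) with hK
  have hK0 : 0 ≤ K := by positivity
  -- `K log T + a T + b ≤ T^(1+ε)` eventually
  have e4 : ∀ a : ℝ, 0 ≤ a → ∀ᶠ T : ℝ in Filter.atTop, K * Real.log T + a * T ≤ T ^ (1 + ε) := by
    intro a ha
    have f1 : ∀ᶠ T : ℝ in Filter.atTop, K + a ≤ T ^ ε := (tendsto_rpow_atTop hε).eventually_ge_atTop _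
    filter_upwards [f1, Filter.eventually_ge_atTop 1] with T h1 h2
    have h3 : Real.log T ≤ T := (Real.log_le_sub_one_of_pos (by linarith)).trans (by linarith)
    have h4 : T ^ (1 + ε) = T * T ^ ε := by rw [Real.rpow_add (by linarith), Real.rpow_one]
    rw [h4]
    have h5 : T * (K + a) ≤ T * T ^ ε := mul_le_mul_of_nonneg_left h1 (by linarith)
    nlinarith
  have e5 := e4 (|Real.log (1 + Θ)|) (abs_nonneg _)
  have e6 := e4 1 (by norm_num)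
  have hall := hcast.eventually (((((e1.and e2).and e3).and e5).and e6).and (Filter.eventually_ge_atTop 1))
  obtain ⟨T0, hT0⟩ := Filter.eventually_atTop.1 hall
  refine ⟨T0, fun T hT => ?_⟩
  obtain ⟨⟨⟨⟨⟨h1, h2⟩, h3⟩, h5⟩, h6⟩, h7⟩ := hT0 T hT
  refine ⟨by exact_mod_cast h7, h1, by linarith, h3, ?_, ?_⟩
  · have : Real.log 2 ≤ 1 := by
      have := Real.log_two_lt_d9
      linarith
    linarith
  · have : (T : ℝ) * Real.log (1 + Θ) ≤ |Real.log (1 + Θ)| * T := by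
      rw [mul_comm]
      exact mul_le_mul_of_nonneg_right (le_abs_self _) (by linarith)
    linarith

/-- row Al2: the determinants are small -/
theorem smallD (m k : ℕ) (θ : Fin m → ℂ) {ε c0 : ℝ} (hε : 0 < ε) (hε1 : ε ≤ 1) (hc : 0 < c0) :
    ∃ T0 : ℕ, ∀ T : ℕ, T0 ≤ T → ∀ (ι κ : Type) [Fintype ι] [Fintype κ] (B : Matrix ι κ (PZ m)), HMat k θ ε c0 T B →
      ∀ ρ : ℕ, 1 ≤ ρ → (ρ : ℝ) ≤ RR k ε T → ∀ (r : Fin ρ → ι) (c : Fin ρ → κ), ∀ w' : ℝ, 0 ≤ w' → w' ≤ wr ε T ρ →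
        Real.log (wl θ w' (tau ε T) (ρ * T) (zc (B.submatrix r c).det)) ≤ kap ε T * ((ρ * T : ℕ) : ℝ) := by
  classical
  set Θ : ℝ := ∑ i, ‖θ i‖ with hΘdef
  have hΘ0 : 0 ≤ Θ := by rw [hΘdef]; positivity
  have hΘ : ∀ i, ‖θ i‖ ≤ Θ := fun i => Finset.single_le_sum (f := fun i => ‖θ i‖) (fun _ _ => norm_nonneg _) (Finset.mem_univ i)
  obtain ⟨T0, hT0⟩ := Al2_large k Θ hε hc
  refine ⟨T0, fun T hT ι κ _ _ B hB ρ hρ hρR r c w' hw0 hw' => ?_⟩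
  obtain ⟨hT1, h5, h4c, hhalf, hlog2, hlogΘ⟩ := hT0 T hT
  have hTpos : (0 : ℝ) < T := by exact_mod_cast hT1
  have hT1' : (1 : ℝ) ≤ T := by exact_mod_cast hT1
  have hρpos : (0 : ℝ) < ρ := by exact_mod_cast hρ
  have hρ1 : (1 : ℝ) ≤ ρ := by exact_mod_cast hρ
  set P : ℝ := (T : ℝ) ^ (1 + ε) with hP
  have hPT : (T : ℝ) ≤ P := by
    rw [hP]
    nth_rewrite 1 [← Real.rpow_one (T : ℝ)]
    exact Real.rpow_le_rpow_of_exponent_le hT1' (by linarith)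
  have hlogρ : Real.log ρ ≤ (((k : ℝ) + 1) / 2 + 10 * ((k : ℝ) + 2) * ε) * Real.log T := by
    have := Real.log_le_log hρpos hρR
    rw [RR, Real.log_rpow hTpos] at this
    exact this
  obtain ⟨E, hE1, hE2, hE3⟩ := hB.ub ρ hρ hρR r c
  set A := Al2_A (B.submatrix r c) E with hA
  have hhom : ∀ i j, ((B.submatrix r c) i j).IsHomogeneous T := fun i j => hB.deg _ _
  have hlam : (ρ : ℝ) * (Real.exp (2 * P) * (1 + Θ) ^ T) ≤ Real.exp (3 * P) := by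
    have h1 : (ρ : ℝ) = Real.exp (Real.log ρ) := (Real.exp_log hρpos).symm
    have h2 : (1 + Θ) ^ T = Real.exp (T * Real.log (1 + Θ)) := by
      rw [Real.exp_nat_mul, Real.exp_log (by linarith)]
    rw [h2, h1, ← Real.exp_add, ← Real.exp_add]
    apply Real.exp_le_exp.2
    linarith
  have hbd := wl_det θ hw0 (τ := tau ε T) (by unfold tau; positivity) A (Al2_A_hom _ hhom E)
    (fun l : Fin ρ => Real.exp (-c0 * ((l : ℕ) + 1 : ℝ) ^ 2 + P)) (lam := Real.exp (3 * P))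
    (Real.one_le_exp (by linarith)) (fun i l => by
      rw [hA, Al2_A_top θ _ hhom]
      exact hE3 i l) (fun i l => (Al2_A_len θ hΘ hΘ0 _ hhom E (fun i j => hB.len _ _) hE2 i l).trans hlam)
  have hτT : tau ε T * T = (T : ℝ) ^ (-4 * ε) := by
    unfold tau
    have : (T : ℝ) ^ (-1 - 4 * ε) * T = (T : ℝ) ^ (-1 - 4 * ε) * (T : ℝ) ^ (1 : ℝ) := by rw [Real.rpow_one]
    rw [this, ← Real.rpow_add hTpos]
    congr 1
    ring
  have hmain := Al2_main (ρ := ρ) (T := T) hρ hT1 (w := w') (τ := tau ε T) (c0 := c0) (P := P) hw0 hc hPT (by rw [hτT]; exact hhalf)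
    (by unfold tau; positivity) (by
      rw [hτT]
      have h1 : w' * (T : ℝ) ^ (-4 * ε) ≤ wr ε T ρ * (T : ℝ) ^ (-4 * ε) := mul_le_mul_of_nonneg_right hw' (by positivity)
      have h2 : wr ε T ρ * (T : ℝ) ^ (-4 * ε) = (T : ℝ) ^ (-2 * ε) * (((ρ : ℝ) + 1) ^ 2 + T) := by
        unfold wr
        have : (T : ℝ) ^ (2 * ε) * (T : ℝ) ^ (-4 * ε) = (T : ℝ) ^ (-2 * ε) := by
          rw [← Real.rpow_add hTpos]; congr 1; ring
        rw [← this]; ring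
      have h3 : (T : ℝ) ^ (-2 * ε) ≤ 1 := Real.rpow_le_one_of_one_le_of_nonpos hT1' (by linarith)
      have h4 : (0 : ℝ) < (T : ℝ) ^ (-2 * ε) := by positivity
      have h6 : ((ρ : ℝ) + 1) ^ 2 ≤ 4 * ρ ^ 2 := by nlinarith
      have h7 : (T : ℝ) ^ (-2 * ε) * ((ρ : ℝ) + 1) ^ 2 ≤ c0 / 24 * ρ ^ 2 := by
        calc (T : ℝ) ^ (-2 * ε) * ((ρ : ℝ) + 1) ^ 2 ≤ (T : ℝ) ^ (-2 * ε) * (4 * ρ ^ 2) := mul_le_mul_of_nonneg_left h6 h4.le
          _ = (4 * (T : ℝ) ^ (-2 * ε)) * ρ ^ 2 := by ring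
          _ ≤ c0 / 24 * ρ ^ 2 := mul_le_mul_of_nonneg_right h4c (by positivity)
      have h8 : (T : ℝ) ^ (-2 * ε) * T ≤ T := by nlinarith
      calc _ ≤ _ := h1
        _ = _ := h2
        _ = (T : ℝ) ^ (-2 * ε) * ((ρ : ℝ) + 1) ^ 2 + (T : ℝ) ^ (-2 * ε) * T := by ring
        _ ≤ _ := by linarith) (by linarith)
  have hdet : wl θ w' (tau ε T) (ρ * T) A.det = ‖E.det‖ * wl θ w' (tau ε T) (ρ * T) (zc (B.submatrix r c).det) := by
    rw [hA, Al2_A_det, wl_C_mul]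
  have hwl0 := wl_nonneg θ w' (tau ε T) (ρ * T) (zc (B.submatrix r c).det)
  have hfin : wl θ w' (tau ε T) (ρ * T) (zc (B.submatrix r c).det) ≤ Real.exp (5 * P * ρ) := by
    have h1 : wl θ w' (tau ε T) (ρ * T) (zc (B.submatrix r c).det) ≤ ‖E.det‖ * wl θ w' (tau ε T) (ρ * T) (zc (B.submatrix r c).det) := by
      nlinarith
    exact h1.trans (hdet ▸ (hbd.trans hmain))
  have hkap : 5 * P * ρ ≤ kap ε T * ((ρ * T : ℕ) : ℝ) := by
    unfold kap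
    have h1 : (T : ℝ) ^ (2 * ε) * (T : ℝ) = (T : ℝ) ^ ε * P := by
      rw [hP]
      have : (T : ℝ) ^ (2 * ε) * (T : ℝ) = (T : ℝ) ^ (2 * ε) * (T : ℝ) ^ (1 : ℝ) := by rw [Real.rpow_one]
      rw [this, ← Real.rpow_add hTpos, ← Real.rpow_add hTpos]
      congr 1
      ring
    push_cast
    have hPρ : 0 ≤ P * ρ := by positivity
    calc 5 * P * ρ = 5 * (P * ρ) := by ring
      _ ≤ (T : ℝ) ^ ε * (P * ρ) := mul_le_mul_of_nonneg_right h5 hPρ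
      _ = ((T : ℝ) ^ ε * P) * ρ := by ring
      _ = ((T : ℝ) ^ (2 * ε) * T) * ρ := by rw [h1]
      _ = (T : ℝ) ^ (2 * ε) * (ρ * T) := by ring
  rcases eq_or_lt_of_le hwl0 with h0 | h0
  · rw [← h0, Real.log_zero]
    unfold kap
    positivity
  · have := Real.log_le_log h0 hfin
    rw [Real.log_exp] at this
    linarith



theorem Am_det_hom {R : Type} [CommRing R] {σ : Type} {ρ T : ℕ} (A : Matrix (Fin ρ) (Fin ρ) (MvPolynomial σ R))
    (hA : ∀ i j, (A i j).IsHomogeneous T) : A.det.IsHomogeneous (ρ * T) := by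
  rw [Matrix.det_apply]
  apply MvPolynomial.IsHomogeneous.sum
  intro σ' _
  have h1 : (∏ i, A (σ' i) i).IsHomogeneous (ρ * T) := by
    have h2 := MvPolynomial.IsHomogeneous.prod (Finset.univ : Finset (Fin ρ)) (fun i => A (σ' i) i) (fun _ => T)
      (fun i _ => hA (σ' i) i)
    simpa using h2
  rcases Int.units_eq_one_or (Equiv.Perm.sign σ') with h | h
  · rw [h, one_smul]
    exact h1
  · rw [h, Units.neg_smul, one_smul]
    exact h1.neg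

theorem Am_wl_X0 (θ : Fin m → ℂ) {w τ : ℝ} (hτ : 0 ≤ τ) : wl θ w τ 1 (zc (X 0 : PZ m)) = Real.exp (w * τ) := by
  have h1 : phi θ (zc (X 0 : PZ m)) = X 0 := by
    unfold zc phi
    rw [MvPolynomial.map_X, MvPolynomial.aeval_X, Fin.cons_zero]
  unfold wl
  rw [h1, MvPolynomial.support_X, Finset.sum_singleton, MvPolynomial.coeff_X]
  unfold wt
  simp [hτ]

theorem Am_large {ε : ℝ} (hε : 0 < ε) : ∃ T0 : ℕ, ∀ T : ℕ, T0 ≤ T → 2 ≤ T ∧ (2 : ℝ) ≤ (T : ℝ) ^ (4 * ε) := by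
  have h1 : Filter.Tendsto (fun T : ℕ => (T : ℝ) ^ (4 * ε)) Filter.atTop Filter.atTop :=
    (tendsto_rpow_atTop (by positivity)).comp tendsto_natCast_atTop_atTop
  obtain ⟨T0, h⟩ := Filter.eventually_atTop.mp ((h1.eventually_ge_atTop 2).and (Filter.eventually_ge_atTop 2))
  exact ⟨T0, fun T hT => ⟨(h T hT).2, (h T hT).1⟩⟩

theorem Am_tau_half {ε : ℝ} (hε : 0 < ε) {T : ℕ} (hT : 2 ≤ T) : tau ε T ≤ 1 / 2 := by
  have hT' : (2 : ℝ) ≤ T := by exact_mod_cast hT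
  unfold tau
  calc (T : ℝ) ^ (-1 - 4 * ε) ≤ (T : ℝ) ^ (-1 : ℝ) :=
        Real.rpow_le_rpow_of_exponent_le (by linarith) (by linarith)
    _ = (T : ℝ)⁻¹ := Real.rpow_neg_one _
    _ ≤ 2⁻¹ := inv_anti₀ (by norm_num) hT'
    _ = 1 / 2 := by norm_num

theorem Am_rho0 {ε : ℝ} {T : ℕ} (hT : 2 ≤ T) (h4 : (2 : ℝ) ≤ (T : ℝ) ^ (4 * ε)) {w' : ℝ}
    (hw : w' ≤ wr ε T 0) : w' * tau ε T ≤ kap ε T := by
  have hT' : (2 : ℝ) ≤ T := by exact_mod_cast hT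
  have hT0 : (0 : ℝ) < T := by linarith
  have hτ : 0 ≤ tau ε T := by unfold tau; positivity
  calc w' * tau ε T ≤ wr ε T 0 * tau ε T := mul_le_mul_of_nonneg_right hw hτ
    _ = kap ε T * ((1 + T) * (T : ℝ) ^ (-1 - 4 * ε)) := by
        unfold wr tau kap
        push_cast
        ring
    _ ≤ kap ε T * 1 := by
        refine mul_le_mul_of_nonneg_left ?_ (by unfold kap; positivity)
        have e1 : (T : ℝ) ^ (-1 - 4 * ε) = (T : ℝ)⁻¹ * ((T : ℝ) ^ (4 * ε))⁻¹ := by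
          rw [sub_eq_add_neg, Real.rpow_add hT0, Real.rpow_neg_one, Real.rpow_neg hT0.le]
        rw [e1]
        have e2 : ((T : ℝ) ^ (4 * ε))⁻¹ ≤ 2⁻¹ := inv_anti₀ (by norm_num) h4
        have e3 : (1 + (T : ℝ)) * ((T : ℝ)⁻¹) ≤ 2 := by
          rw [add_mul, one_mul, mul_inv_cancel₀ hT0.ne']
          have : (T : ℝ)⁻¹ ≤ 1 := inv_le_one_of_one_le₀ (by linarith)
          linarith
        calc (1 + (T : ℝ)) * ((T : ℝ)⁻¹ * ((T : ℝ) ^ (4 * ε))⁻¹) = ((1 + (T : ℝ)) * (T : ℝ)⁻¹) * ((T : ℝ) ^ (4 * ε))⁻¹ := by ring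
          _ ≤ 2 * 2⁻¹ := mul_le_mul e3 e2 (by positivity) (by norm_num)
          _ = 1 := by norm_num
    _ = kap ε T := mul_one _

/-- row Am: the matrix lemma -/
theorem matL (m k : ℕ) (θ : Fin m → ℂ) {ε c0 : ℝ} (hε : 0 < ε) (hε1 : ε ≤ 1) (hc : 0 < c0) :
    ∃ T0 : ℕ, ∀ T : ℕ, T0 ≤ T → ∀ (ι κ : Type) [Fintype ι] [Fintype κ] (B : Matrix ι κ (PZ m)), HMat k θ ε c0 T B →
      MatL θ (tau ε T) (kap ε T) (RR k ε T ^ 2) := by
  classical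
  obtain ⟨T1, h1⟩ := switchG m k θ hε hε1 hc
  obtain ⟨T2, h2⟩ := smallD m k θ hε hε1 hc
  obtain ⟨T3, h3⟩ := Am_large hε
  refine ⟨max T1 (max T2 T3), ?_⟩
  intro T hT ι κ _ _ B hB
  have hT1 : T1 ≤ T := (le_max_left _ _).trans hT
  have hT2 : T2 ≤ T := ((le_max_left _ _).trans (le_max_right _ _)).trans hT
  have hT3 : T3 ≤ T := ((le_max_right _ _).trans (le_max_right _ _)).trans hT
  obtain ⟨hT4, hT5⟩ := h3 T hT3
  have hTr : (2 : ℝ) ≤ T := by exact_mod_cast hT4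
  have hT0 : (0 : ℝ) < T := by linarith
  have hτ0 : 0 ≤ tau ε T := by unfold tau; positivity
  have hτ1 := Am_tau_half hε hT4
  intro p hp hpp hx w hw hw0
  have hR : 0 ≤ RR k ε T := by unfold RR; positivity
  let P : ℕ → Prop := fun ρ => ∃ (r : Fin ρ → ι) (c : Fin ρ → κ), zq (B.submatrix r c).det ∉ p
  have hP0 : P 0 := by
    refine ⟨Fin.elim0, Fin.elim0, ?_⟩
    rw [Matrix.det_isEmpty]
    unfold zq
    rw [map_one]
    exact fun h => hpp.ne_top ((Ideal.eq_top_iff_one _).mpr h)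
  obtain ⟨ρ, hρP, hρR, hρmax⟩ : ∃ ρ : ℕ, P ρ ∧ ρ ≤ ⌊RR k ε T⌋₊ ∧ (ρ < ⌊RR k ε T⌋₊ → ¬ P (ρ + 1)) := by
    refine ⟨Nat.findGreatest P ⌊RR k ε T⌋₊, ?_, Nat.findGreatest_le _, ?_⟩
    · exact Nat.findGreatest_spec (Nat.zero_le _) hP0
    · intro hlt
      exact Nat.findGreatest_is_greatest (Nat.lt_succ_self _) hlt
  -- the weight
  obtain ⟨w', hw'0, hw'w, hw'r, hsw⟩ : ∃ w' : ℝ, 0 ≤ w' ∧ w' ≤ w ∧ w' ≤ wr ε T ρ ∧
      ∃ C1 C2 : ℝ, ∀ t : ℝ, 0 ≤ t → t < 1 → XX θ w (tau ε T) p t ≤ XX θ w' (tau ε T) p t + C1 * PP p t + C2 := by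
    have htriv : w ≤ wr ε T ρ → ∃ w' : ℝ, 0 ≤ w' ∧ w' ≤ w ∧ w' ≤ wr ε T ρ ∧
      ∃ C1 C2 : ℝ, ∀ t : ℝ, 0 ≤ t → t < 1 → XX θ w (tau ε T) p t ≤ XX θ w' (tau ε T) p t + C1 * PP p t + C2 := by
      intro h
      refine ⟨w, hw, le_rfl, h, 0, 0, fun t _ _ => ?_⟩
      simp
    rcases le_or_gt w (wr ε T ρ) with hle | hlt
    · exact htriv hle
    · rcases lt_or_ge ρ ⌊RR k ε T⌋₊ with hlt' | hge
      · have hnP := hρmax hlt'
        have hρ1 : (ρ : ℝ) + 1 ≤ RR k ε T := by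
          have h5 : ((ρ + 1 : ℕ) : ℝ) ≤ RR k ε T := (Nat.le_floor_iff hR).mp hlt'
          push_cast at h5
          exact h5
        obtain ⟨E, G, hE, hG, hGh, hG1, hGs⟩ := h1 T hT1 ι κ B hB p ρ hρ1 (by
          intro r c
          by_contra hcon
          exact hnP ⟨r, c, hcon⟩)
        have hwr0 : 0 ≤ wr ε T ρ := by unfold wr; positivity
        exact ⟨wr ε T ρ, hwr0, hlt.le, le_rfl, xx_switch θ hτ0 hτ1 hwr0 hlt.le p hE hG hGh hG1 hGs⟩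
      · apply htriv
        have h6 : RR k ε T ≤ (ρ : ℝ) + 1 := by
          have h7 : RR k ε T < (⌊RR k ε T⌋₊ : ℝ) + 1 := Nat.lt_floor_add_one _
          have h8 : ((⌊RR k ε T⌋₊ : ℕ) : ℝ) ≤ (ρ : ℝ) := by exact_mod_cast hge
          linarith
        have h9 : RR k ε T ^ 2 ≤ ((ρ : ℝ) + 1) ^ 2 := pow_le_pow_left₀ hR h6 2
        have h10 : (1 : ℝ) ≤ (T : ℝ) ^ (2 * ε) := Real.one_le_rpow (by linarith) (by positivity)
        unfold wr
        nlinarith [sq_nonneg ((ρ : ℝ) + 1)]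
  refine ⟨w', hw'0, hw'w, hsw, ?_⟩
  rcases Nat.eq_zero_or_pos ρ with h0 | hpos
  · subst h0
    refine ⟨1, X 0, le_rfl, MvPolynomial.isHomogeneous_X _ _, ?_, ?_⟩
    · unfold zq
      rw [MvPolynomial.map_X]
      exact hx
    · rw [Am_wl_X0 θ hτ0, Real.log_exp]
      simpa using Am_rho0 hT4 hT5 hw'r
  · obtain ⟨r, c, hrc⟩ := hρP
    refine ⟨ρ * T, (B.submatrix r c).det, ?_, ?_, hrc, ?_⟩
    · exact Nat.mul_pos hpos (by omega)
    · exact Am_det_hom _ (fun i j => hB.deg _ _)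
    · have hρR' : (ρ : ℝ) ≤ RR k ε T := (Nat.le_floor_iff hR).mp hρR
      exact h2 T hT2 ι κ B hB ρ hpos hρR' r c w' hw'0 hw'r


end Pool.Agent.LT

end
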