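import Mathlib
import Pool.Agent.Lib.MP_f58a57_nt.LK.K001

section

/-!
# MP_f58a57_nt, large transcendence degree, part D analysis (row lt-DD6): Cholesky decomposition

`h` positive definite hermitian: `h = rᴴ r` with `r` lower triangular with positive diagonal, from Mathlib's `LDL` for `h.submatrix Fin.rev Fin.rev`.
-/

open Complex Matrix ComplexOrder

noncomputable section

namespace Pool.Agent.LT

private theorem chol_aux (n : ℕ) (S : Matrix (Fin n) (Fin n) ℂ) (hS : S.PosDef) :
    ∃ (L : Matrix (Fin n) (Fin n) ℂ) (d : Fin n → ℝ), (∀ i l, i < l → L i l = 0) ∧ (∀ i, L i i ≠ 0) ∧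
      (∀ i, 0 < d i) ∧ (∀ a b, ∑ i, L a i * (d i : ℂ) * star (L b i) = S a b) := by
  classical
  have hD : (LDL.diag hS).PosDef := by
    rw [LDL.diag_eq_lowerInv_conj]
    apply hS.mul_mul_conjTranspose_same
    intro v w hvw
    have := LDL.invertibleLowerInv hS
    have h1 : (v ᵥ* LDL.lowerInv hS) ᵥ* (LDL.lowerInv hS)⁻¹ = (w ᵥ* LDL.lowerInv hS) ᵥ* (LDL.lowerInv hS)⁻¹ := by
      have : v ᵥ* LDL.lowerInv hS = w ᵥ* LDL.lowerInv hS := hvw
      rw [this]
    simpa [Matrix.vecMul_vecMul] using h1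
  have hdpos : ∀ i, 0 < LDL.diagEntries hS i := by
    intro i
    have := hD.diag_pos (i := i)
    simpa [LDL.diag] using this
  have hinv := LDL.invertibleLowerInv hS
  have htri0 : (LDL.lowerInv hS).IsLowerTriangular := by
    intro i j hij
    exact LDL.lowerInv_triangular hS hij
  have htri : (LDL.lower hS).IsLowerTriangular := by
    have := blockTriangular_inv_of_blockTriangular (M := LDL.lowerInv hS) htri0
    exact this
  have hdet : (LDL.lower hS).det ≠ 0 := by
    unfold LDL.lower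
    rw [Matrix.det_nonsing_inv]
    have h2 : IsUnit (LDL.lowerInv hS).det := (Matrix.isUnit_iff_isUnit_det _).1 (isUnit_of_invertible _)
    intro h3
    rw [Ring.inverse_eq_inv, inv_eq_zero] at h3
    rw [h3] at h2
    exact not_isUnit_zero h2
  refine ⟨LDL.lower hS, fun i => (LDL.diagEntries hS i).re, ?_, ?_, ?_, ?_⟩
  · intro i l hil
    exact htri hil
  · intro i
    rw [det_of_isLowerTriangular _ htri, Finset.prod_ne_zero_iff] at hdet
    exact hdet i (Finset.mem_univ _)
  · intro i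
    exact (Complex.lt_def.1 (hdpos i)).1
  · intro a b
    have h4 : ∀ i, ((LDL.diagEntries hS i).re : ℂ) = LDL.diagEntries hS i := by
      intro i
      apply Complex.ext
      · simp
      · have := (Complex.lt_def.1 (hdpos i)).2
        simpa using this
    have h5 := congrFun (congrFun (LDL.lower_conj_diag hS) a) b
    rw [← h5]
    rw [Matrix.mul_apply]
    apply Finset.sum_congr rfl
    intro i _
    rw [h4, LDL.diag, Matrix.mul_diagonal, Matrix.conjTranspose_apply]

theorem chol (n : ℕ) (h : Matrix (Fin n) (Fin n) ℂ) (hh : h.PosDef) : ∃ r : Matrix (Fin n) (Fin n) ℂ,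
    (∀ i l, i < l → r i l = 0) ∧ (∀ i, 0 < (r i i).re ∧ (r i i).im = 0) ∧ rᴴ * r = h := by
  obtain ⟨L, d, h1, h2, h3, h4⟩ := chol_aux n (h.submatrix Fin.rev Fin.rev) (hh.submatrix Fin.rev_injective)
  refine ⟨Matrix.of fun i l => (Real.sqrt (d i.rev) : ℂ) * (L i.rev i.rev / (‖L i.rev i.rev‖ : ℂ)) * star (L l.rev i.rev), ?_, ?_, ?_⟩
  · intro i l hil
    rw [Matrix.of_apply]
    rw [h1 l.rev i.rev (Fin.rev_lt_rev.2 hil)]
    simp
  · intro i
    have hn : (‖L i.rev i.rev‖ : ℂ) ≠ 0 := by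
      have := norm_ne_zero_iff.2 (h2 i.rev)
      exact_mod_cast this
    have e1 : (Real.sqrt (d i.rev) : ℂ) * (L i.rev i.rev / (‖L i.rev i.rev‖ : ℂ)) * star (L i.rev i.rev) =
        ((Real.sqrt (d i.rev) * ‖L i.rev i.rev‖ : ℝ) : ℂ) := by
      have h5 : L i.rev i.rev * star (L i.rev i.rev) = (‖L i.rev i.rev‖ : ℂ) ^ 2 := by
        have := Complex.mul_conj' (L i.rev i.rev)
        simpa using this
      push_cast
      calc (Real.sqrt (d i.rev) : ℂ) * (L i.rev i.rev / (‖L i.rev i.rev‖ : ℂ)) * star (L i.rev i.rev)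
          = (Real.sqrt (d i.rev) : ℂ) * (L i.rev i.rev * star (L i.rev i.rev)) / (‖L i.rev i.rev‖ : ℂ) := by ring
        _ = _ := by rw [h5]; field_simp
    show 0 < ((Real.sqrt (d i.rev) : ℂ) * (L i.rev i.rev / (‖L i.rev i.rev‖ : ℂ)) * star (L i.rev i.rev)).re ∧ _
    rw [e1]
    refine ⟨?_, ?_⟩
    · rw [Complex.ofReal_re]
      exact mul_pos (Real.sqrt_pos.2 (h3 _)) (norm_pos_iff.2 (h2 _))
    · show ((Real.sqrt (d i.rev) : ℂ) * (L i.rev i.rev / (‖L i.rev i.rev‖ : ℂ)) * star (L i.rev i.rev)).im = 0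
      rw [e1]
      exact Complex.ofReal_im _
  · ext a b
    rw [Matrix.mul_apply]
    have e2 : h a b = (h.submatrix Fin.rev Fin.rev) a.rev b.rev := by simp
    rw [e2, ← h4]
    rw [← Equiv.sum_comp Fin.revPerm]
    apply Finset.sum_congr rfl
    intro i _
    rw [Matrix.conjTranspose_apply]
    simp only [Matrix.of_apply, Fin.revPerm_apply, Fin.rev_rev]
    have hn : (‖L i i‖ : ℂ) ≠ 0 := by
      have := norm_ne_zero_iff.2 (h2 i)
      exact_mod_cast this
    have h5 : L i i * star (L i i) = (‖L i i‖ : ℂ) ^ 2 := by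
      have := Complex.mul_conj' (L i i)
      simpa using this
    have h6 : (Real.sqrt (d i) : ℂ) * (Real.sqrt (d i) : ℂ) = (d i : ℂ) := by
      rw [← Complex.ofReal_mul, Real.mul_self_sqrt (h3 i).le]
    have h7 : star ((Real.sqrt (d i) : ℂ) * (L i i / (‖L i i‖ : ℂ)) * star (L a.rev i)) =
        (Real.sqrt (d i) : ℂ) * (star (L i i) / (‖L i i‖ : ℂ)) * L a.rev i := by
      simp [Complex.conj_ofReal]
    rw [h7]
    calc (Real.sqrt (d i) : ℂ) * (star (L i i) / (‖L i i‖ : ℂ)) * L a.rev i *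
          ((Real.sqrt (d i) : ℂ) * (L i i / (‖L i i‖ : ℂ)) * star (L b.rev i))
        = L a.rev i * ((Real.sqrt (d i) : ℂ) * (Real.sqrt (d i) : ℂ)) * star (L b.rev i) * (L i i * star (L i i)) / ((‖L i i‖ : ℂ) ^ 2) := by ring
      _ = _ := by rw [h5, h6]; field_simp

end Pool.Agent.LT
end

end

section

/-!
# General analysis: parameter integrals, partial derivatives, Taylor coefficients along lines
-/

open Complex MvPolynomial Matrix

noncomputable section

namespace Pool.Agent.LT

/-! ### row Pa: parameter integrals -/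


/-- Cauchy estimate for the derivative of an entire function of several variables -/
private theorem Pa_bound {E : Type} [NormedAddCommGroup E] [NormedSpace ℂ E] {f : E → ℂ} (hf : Differentiable ℂ f) (x : E) {M : ℝ}
    (hM : 0 ≤ M) (h : ∀ y, dist y x ≤ 1 → ‖f y‖ ≤ M) : ‖fderiv ℂ f x‖ ≤ M := by
  refine ContinuousLinearMap.opNorm_le_bound _ hM (fun v => ?_)
  by_cases hv : v = 0
  · subst hv; simp
  have hv' : 0 < ‖v‖ := norm_pos_iff.2 hv
  have h1 : HasDerivAt (fun τ : ℂ => x + τ • v) v 0 := by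
    have h2 : HasDerivAt (fun τ : ℂ => τ • v) ((1 : ℂ) • v) 0 := (hasDerivAt_id (0 : ℂ)).smul_const v
    rw [one_smul] at h2
    exact h2.const_add x
  have h3 : HasDerivAt (fun τ : ℂ => f (x + τ • v)) (fderiv ℂ f x v) 0 := by
    have h4 : HasFDerivAt f (fderiv ℂ f x) (x + (0 : ℂ) • v) := by
      rw [zero_smul, add_zero]; exact (hf x).hasFDerivAt
    exact h4.comp_hasDerivAt (0 : ℂ) h1
  have hd : Differentiable ℂ (fun τ : ℂ => f (x + τ • v)) := by
    have h5 : Differentiable ℂ (fun τ : ℂ => x + τ • v) := by fun_prop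
    exact hf.comp h5
  have h6 : ‖deriv (fun τ : ℂ => f (x + τ • v)) 0‖ ≤ M / (1 / ‖v‖) := by
    refine Complex.norm_deriv_le_of_forall_mem_sphere_norm_le (by positivity) hd.diffContOnCl ?_
    intro z hz
    apply h
    rw [mem_sphere_zero_iff_norm] at hz
    rw [dist_eq_norm, add_sub_cancel_left, norm_smul, hz]
    rw [one_div, inv_mul_cancel₀ hv'.ne']
  rw [h3.deriv] at h6
  calc ‖fderiv ℂ f x v‖ ≤ M / (1 / ‖v‖) := h6
    _ = M * ‖v‖ := by rw [one_div, div_inv_eq_mul]

/-- PI: a parameter integral of entire functions is entire -/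
theorem PI {E : Type} [NormedAddCommGroup E] [NormedSpace ℂ E] [FiniteDimensional ℂ E] (F : E → ℝ → ℂ)
    (hc : Continuous (Function.uncurry F)) (hd : ∀ t, Differentiable ℂ (fun u => F u t)) (a b : ℝ) :
    Differentiable ℂ (fun u => ∫ t in a..b, F u t) := by
  intro x₀
  have : ProperSpace E := FiniteDimensional.proper ℂ E
  have hK : IsCompact ((Metric.closedBall x₀ 2) ×ˢ (Set.uIcc a b) : Set (E × ℝ)) :=
    (isCompact_closedBall x₀ 2).prod isCompact_uIcc
  obtain ⟨M0, hM0⟩ := hK.exists_bound_of_continuousOn hc.continuousOn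
  set M : ℝ := max M0 0 with hMdef
  have hM : 0 ≤ M := le_max_right _ _
  have hMb : ∀ y ∈ Metric.closedBall x₀ 2, ∀ t ∈ Set.uIcc a b, ‖F y t‖ ≤ M := by
    intro y hy t ht
    exact (hM0 (y, t) ⟨hy, ht⟩).trans (le_max_left _ _)
  have hFc : ∀ x, Continuous (F x) := fun x => hc.comp (by fun_prop : Continuous (fun t : ℝ => (x, t)))
  refine (intervalIntegral.hasFDerivAt_integral_of_dominated_of_fderiv_le (𝕜 := ℂ)
    (F := F) (F' := fun x t => fderiv ℂ (fun u => F u t) x) (bound := fun _ => M)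
    (s := Metric.ball x₀ 1) (Metric.ball_mem_nhds x₀ one_pos) ?_ ?_ ?_ ?_ ?_ ?_).differentiableAt
  · exact Filter.Eventually.of_forall fun x => (hFc x).aestronglyMeasurable
  · exact (hFc x₀).intervalIntegrable a b
  · borelize E
    have hsw : Continuous (Function.uncurry (fun (t : ℝ) (u : E) => F u t)) := hc.comp continuous_swap
    have h1 := measurable_fderiv_with_param ℂ hsw
    have h2 : Measurable (fun t : ℝ => fderiv ℂ (fun u => F u t) x₀) :=
      h1.comp (by fun_prop : Measurable (fun t : ℝ => (t, x₀)))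
    have : ProperSpace (E →L[ℂ] ℂ) := FiniteDimensional.proper ℂ _
    have : SecondCountableTopology (E →L[ℂ] ℂ) := inferInstance
    exact h2.aestronglyMeasurable
  · refine Filter.Eventually.of_forall fun t ht x hx => ?_
    refine Pa_bound (hd t) x hM (fun y hy => hMb y ?_ t (Set.uIoc_subset_uIcc ht))
    rw [Metric.mem_ball] at hx
    rw [Metric.mem_closedBall]
    calc dist y x₀ ≤ dist y x + dist x x₀ := dist_triangle _ _ _
      _ ≤ 2 := by linarith
  · exact intervalIntegrable_const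
  · exact Filter.Eventually.of_forall fun t _ x _ => ((hd t) x).hasFDerivAt


/-! ### row Pb: partial derivatives -/


private theorem Pb_g_diff {n : ℕ} {F : (Fin n → ℂ) → ℂ} (hF : Differentiable ℂ F) (i : Fin n) (u : Fin n → ℂ) :
    Differentiable ℂ (fun t : ℂ => F (u + Pi.single i t)) := by
  refine hF.comp ((differentiable_const u).add ?_)
  rw [differentiable_pi]
  intro j
  by_cases h : j = i
  · subst h
    simp
  · simp [h]

private theorem Pb_deriv {n : ℕ} {F : (Fin n → ℂ) → ℂ} (hF : Differentiable ℂ F) (i : Fin n) (u : Fin n → ℂ) :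
    deriv (fun t : ℂ => F (u + Pi.single i t)) 0 = pd i F u := by
  have h1 : HasDerivAt (fun t : ℂ => u + Pi.single i t) (Pi.single i (1 : ℂ)) 0 := by
    rw [hasDerivAt_pi]
    intro j
    by_cases h : j = i
    · subst h
      simpa using (hasDerivAt_id (0 : ℂ)).const_add (u j)
    · simpa [Pi.single_apply, h] using hasDerivAt_const (0 : ℂ) (u j)
  have h2 : HasFDerivAt F (fderiv ℂ F u) (u + Pi.single i (0 : ℂ)) := by
    simpa using (hF u).hasFDerivAt
  exact (h2.comp_hasDerivAt (0 : ℂ) h1).deriv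

/-- Cauchy's formula for a partial derivative -/
theorem pd_cauchy {n : ℕ} {F : (Fin n → ℂ) → ℂ} (hF : Differentiable ℂ F) (i : Fin n) (u : Fin n → ℂ) {r : ℝ} (hr : 0 < r) :
    pd i F u = (2 * Real.pi * r)⁻¹ * ∫ s in (0 : ℝ)..(2 * Real.pi), F (u + Pi.single i (r * cexp (I * s))) * cexp (-(I * s)) := by
  have hg := Pb_g_diff hF i u
  have hD : deriv (fun t : ℂ => F (u + Pi.single i t)) 0 = (2 * Real.pi * I : ℂ)⁻¹ •
      ∮ z in C(0, r), (z - 0)⁻¹ ^ (1 + 1) • F (u + Pi.single i z) := by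
    have hf : DiffContOnCl ℂ (fun t : ℂ => F (u + Pi.single i t)) (Metric.ball 0 r) := hg.diffContOnCl
    have h0 := hf.circleIntegral_one_div_sub_center_pow_smul hr 1
    have h1 : (∮ z in C(0, r), (z - 0)⁻¹ ^ (1 + 1) • F (u + Pi.single i z)) =
        (2 * Real.pi * I) • deriv (fun t : ℂ => F (u + Pi.single i t)) 0 := by
      simpa using h0
    rw [h1, inv_smul_smul₀]
    simp [Real.pi_ne_zero]
  rw [← Pb_deriv hF i u, hD]
  have hr' : (r : ℂ) ≠ 0 := by exact_mod_cast hr.ne'
  have hpi : (Real.pi : ℂ) ≠ 0 := by exact_mod_cast Real.pi_ne_zero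
  have hI : (I : ℂ) ≠ 0 := I_ne_zero
  have key : (∮ z in C(0, r), (z - 0)⁻¹ ^ (1 + 1) • F (u + Pi.single i z)) =
      ∫ s in (0 : ℝ)..(2 * Real.pi), (I / r) * (F (u + Pi.single i (r * cexp (I * s))) * cexp (-(I * s))) := by
    rw [circleIntegral]
    refine intervalIntegral.integral_congr fun s _ => ?_
    simp only [deriv_circleMap, circleMap, zero_add, sub_zero, smul_eq_mul]
    have h1 : cexp (-(I * s)) = (cexp (s * I))⁻¹ := by
      rw [← Complex.exp_neg]
      congr 1
      ring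
    have h2 : cexp (I * s) = cexp (s * I) := by
      congr 1
      ring
    have h3 : cexp ((s : ℂ) * I) ≠ 0 := Complex.exp_ne_zero _
    rw [h1, h2]
    rw [pow_succ, pow_one]
    field_simp
  rw [key, intervalIntegral.integral_const_mul, smul_eq_mul]
  push_cast
  field_simp

theorem pd_bound {n : ℕ} {F : (Fin n → ℂ) → ℂ} (hF : Differentiable ℂ F) (i : Fin n) (u : Fin n → ℂ) {r M : ℝ} (hr : 0 < r)
    (hM : ∀ t : ℂ, ‖t‖ = r → ‖F (u + Pi.single i t)‖ ≤ M) : ‖pd i F u‖ ≤ M / r := by
  have hg := Pb_g_diff hF i u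
  rw [← Pb_deriv hF i u]
  refine Complex.norm_deriv_le_of_forall_mem_sphere_norm_le hr hg.diffContOnCl fun z hz => hM z ?_
  simpa using hz

/-- joint version: the partial derivative with respect to the second group of variables is entire in all variables -/
theorem pd_diff_param {E : Type} [NormedAddCommGroup E] [NormedSpace ℂ E] [FiniteDimensional ℂ E] {n : ℕ} {F : E → (Fin n → ℂ) → ℂ}
    (hF : Differentiable ℂ (fun q : E × (Fin n → ℂ) => F q.1 q.2)) (i : Fin n) :
    Differentiable ℂ (fun q : E × (Fin n → ℂ) => pd i (F q.1) q.2) := by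
  have hsec : ∀ e : E, Differentiable ℂ (F e) := by
    intro e
    have h : Differentiable ℂ (fun v : Fin n → ℂ => ((e, v) : E × (Fin n → ℂ))) :=
      (differentiable_const e).prodMk differentiable_id
    exact hF.comp h
  have heq : (fun q : E × (Fin n → ℂ) => pd i (F q.1) q.2) = fun q : E × (Fin n → ℂ) =>
      (((2 * Real.pi * (1 : ℝ))⁻¹ : ℝ) : ℂ) * ∫ s in (0 : ℝ)..(2 * Real.pi),
        F q.1 (q.2 + Pi.single i (((1 : ℝ) : ℂ) * cexp (I * s))) * cexp (-(I * s)) := by
    funext q
    exact pd_cauchy (hsec q.1) i q.2 one_pos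
  rw [heq]
  refine Differentiable.const_mul ?_ _
  refine PI (E := E × (Fin n → ℂ)) (fun q s => F q.1 (q.2 + Pi.single i (((1 : ℝ) : ℂ) * cexp (I * s))) * cexp (-(I * s))) ?_ ?_ _ _
  · have h1 : Continuous (fun p : (E × (Fin n → ℂ)) × ℝ =>
        ((p.1.1, p.1.2 + Pi.single i (((1 : ℝ) : ℂ) * cexp (I * p.2))) : E × (Fin n → ℂ))) := by
      refine Continuous.prodMk (continuous_fst.comp continuous_fst) (Continuous.add (continuous_snd.comp continuous_fst) ?_)
      refine continuous_pi fun j => ?_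
      by_cases h : j = i
      · subst h
        simp only [Pi.single_eq_same]
        fun_prop
      · simp only [Pi.single_apply, h, if_false]
        exact continuous_const
    have h2 : Continuous (fun p : (E × (Fin n → ℂ)) × ℝ => cexp (-(I * p.2))) := by fun_prop
    exact (hF.continuous.comp h1).mul h2
  · intro s
    refine Differentiable.mul_const ?_ _
    have h1 : Differentiable ℂ (fun q : E × (Fin n → ℂ) =>
        ((q.1, q.2 + Pi.single i (((1 : ℝ) : ℂ) * cexp (I * s))) : E × (Fin n → ℂ))) :=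
      differentiable_fst.prodMk (differentiable_snd.add_const _)
    exact hF.comp h1

theorem pd_diff {n : ℕ} {F : (Fin n → ℂ) → ℂ} (hF : Differentiable ℂ F) (i : Fin n) : Differentiable ℂ (pd i F) := by
  have h := pd_diff_param (E := ℂ) (F := fun _ => F) (hF.comp differentiable_snd) i
  have h1 : Differentiable ℂ (fun v : Fin n → ℂ => (((0 : ℂ), v) : ℂ × (Fin n → ℂ))) :=
    (differentiable_const 0).prodMk differentiable_id
  exact h.comp h1








/-! ### row Pc: iterated partial derivatives -/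


theorem pdl_diff_param {E : Type} [NormedAddCommGroup E] [NormedSpace ℂ E] [FiniteDimensional ℂ E] {n : ℕ} {F : E → (Fin n → ℂ) → ℂ}
    (hF : Differentiable ℂ (fun q : E × (Fin n → ℂ) => F q.1 q.2)) (w : List (Fin n)) :
    Differentiable ℂ (fun q : E × (Fin n → ℂ) => pdl w (F q.1) q.2) := by
  induction w with
  | nil => exact hF
  | cons i w ih => exact pd_diff_param (F := fun e => pdl w (F e)) ih i

theorem pdl_diff {n : ℕ} {F : (Fin n → ℂ) → ℂ} (hF : Differentiable ℂ F) (w : List (Fin n)) : Differentiable ℂ (pdl w F) := by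
  induction w with
  | nil => exact hF
  | cons i w ih => exact pd_diff ih i

theorem pdl_add {n : ℕ} {F G : (Fin n → ℂ) → ℂ} (hF : Differentiable ℂ F) (hG : Differentiable ℂ G) (w : List (Fin n)) (u : Fin n → ℂ) :
    pdl w (fun v => F v + G v) u = pdl w F u + pdl w G u := by
  induction w generalizing u with
  | nil => rfl
  | cons i w ih =>
    have h : pdl w (fun v => F v + G v) = fun v => pdl w F v + pdl w G v := funext ih
    have hf := pdl_diff hF w u
    have hg := pdl_diff hG w u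
    show pd i (pdl w (fun v => F v + G v)) u = pd i (pdl w F) u + pd i (pdl w G) u
    rw [h]
    unfold pd
    rw [fderiv_fun_add hf hg]
    rfl

theorem pdl_smul {n : ℕ} {F : (Fin n → ℂ) → ℂ} (hF : Differentiable ℂ F) (c : ℂ) (w : List (Fin n)) (u : Fin n → ℂ) :
    pdl w (fun v => c * F v) u = c * pdl w F u := by
  induction w generalizing u with
  | nil => rfl
  | cons i w ih =>
    have h : pdl w (fun v => c * F v) = fun v => c * pdl w F v := funext ih
    have hf := pdl_diff hF w u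
    show pd i (pdl w (fun v => c * F v)) u = c * pd i (pdl w F) u
    rw [h]
    unfold pd
    rw [fderiv_const_mul hf]
    rfl

theorem pdl_sum {n : ℕ} {ι : Type} (s : Finset ι) {F : ι → (Fin n → ℂ) → ℂ} (hF : ∀ i ∈ s, Differentiable ℂ (F i)) (w : List (Fin n)) (u : Fin n → ℂ) :
    pdl w (fun v => ∑ i ∈ s, F i v) u = ∑ i ∈ s, pdl w (F i) u := by
  induction w generalizing u with
  | nil => rfl
  | cons i w ih =>
    have h : pdl w (fun v => ∑ j ∈ s, F j v) = fun v => ∑ j ∈ s, pdl w (F j) v := funext ih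
    have hf : ∀ j ∈ s, DifferentiableAt ℂ (pdl w (F j)) u := fun j hj => pdl_diff (hF j hj) w u
    show pd i (pdl w (fun v => ∑ j ∈ s, F j v)) u = ∑ j ∈ s, pd i (pdl w (F j)) u
    rw [h]
    unfold pd
    rw [fderiv_fun_sum hf]
    simp

/-- translation -/
theorem pdl_shift {n : ℕ} {F : (Fin n → ℂ) → ℂ} (w : List (Fin n)) (u v : Fin n → ℂ) : pdl w (fun x => F (x + v)) u = pdl w F (u + v) := by
  induction w generalizing u with
  | nil => rfl
  | cons i w ih =>
    have h : pdl w (fun x => F (x + v)) = fun x => pdl w F (x + v) := funext ih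
    show pd i (pdl w (fun x => F (x + v))) u = pd i (pdl w F) (u + v)
    rw [h]
    unfold pd
    rw [fderiv_comp_add_right]

theorem Pc_bound_aux {n : ℕ} {F : (Fin n → ℂ) → ℂ} (hF : Differentiable ℂ F) {ρ M : ℝ} (hρ : 0 < ρ) (w : List (Fin n)) (u : Fin n → ℂ)
    (hM : ∀ v : Fin n → ℂ, (∀ i, ‖v i - u i‖ ≤ w.length * ρ) → ‖F v‖ ≤ M) : ‖pdl w F u‖ ≤ M / ρ ^ w.length := by
  induction w generalizing u with
  | nil =>
    have := hM u (fun i => by simp)
    simpa [pdl] using this
  | cons i w ih =>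
    have h := pd_bound (pdl_diff hF w) i u hρ (M := M / ρ ^ w.length) (by
      intro t ht
      refine ih _ (fun v hv => hM v (fun j => ?_))
      have h1 := hv j
      have h2 : v j - u j = (v j - (u + (Pi.single i t : Fin n → ℂ)) j) + (Pi.single i t : Fin n → ℂ) j := by
        rw [Pi.add_apply]; ring
      have h3 : ‖(Pi.single i t : Fin n → ℂ) j‖ ≤ ρ := by
        by_cases hj : j = i
        · subst hj; rw [Pi.single_eq_same, ht]
        · rw [Pi.single_eq_of_ne hj, norm_zero]; exact hρ.le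
      rw [h2, List.length_cons]
      refine (norm_add_le _ _).trans ?_
      push_cast
      linarith)
    have h4 : M / ρ ^ w.length / ρ = M / ρ ^ (i :: w).length := by
      rw [List.length_cons, pow_succ, div_div]
    rw [h4] at h
    exact h

/-- Cauchy estimates: `F` bounded by `M` on the unit polydisc around `u` -/
theorem pdl_bound {n : ℕ} {F : (Fin n → ℂ) → ℂ} (hF : Differentiable ℂ F) (w : List (Fin n)) (u : Fin n → ℂ) {M : ℝ}
    (hM : ∀ v : Fin n → ℂ, (∀ i, ‖v i - u i‖ ≤ 1) → ‖F v‖ ≤ M) : ‖pdl w F u‖ ≤ (w.length : ℝ) ^ w.length * M := by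
  rcases Nat.eq_zero_or_pos w.length with h0 | h0
  · have hw : w = [] := List.eq_nil_of_length_eq_zero h0
    subst hw
    have := hM u (fun i => by simp)
    simpa [pdl] using this
  · have hl : (0 : ℝ) < w.length := by exact_mod_cast h0
    have h := Pc_bound_aux hF (ρ := 1 / w.length) (M := M) (by positivity) w u (by
      intro v hv
      refine hM v (fun i => (hv i).trans ?_)
      rw [mul_one_div, div_self hl.ne'])
    refine h.trans (le_of_eq ?_)
    rw [one_div, inv_pow, div_inv_eq_mul, mul_comm]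














/-! ### row Pd: derivatives under the integral and under the sum -/


private theorem Pd_single_cont {n : ℕ} (i : Fin n) :
    Continuous (fun s : ℝ => (Pi.single i (((1 : ℝ) : ℂ) * cexp (I * s)) : Fin n → ℂ)) := by
  have h : Continuous (fun s : ℝ => ((1 : ℝ) : ℂ) * cexp (I * s)) := by fun_prop
  exact (continuous_single (A := fun _ : Fin n => ℂ) i).comp h

private theorem Pd_step_cont {n : ℕ} (H : (Fin n → ℂ) → ℝ → ℂ) (hc : Continuous (Function.uncurry H))
    (hd : ∀ t, Differentiable ℂ (fun u => H u t)) (i : Fin n) :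
    Continuous (fun q : (Fin n → ℂ) × ℝ => pd i (fun v => H v q.2) q.1) := by
  have he : (fun q : (Fin n → ℂ) × ℝ => pd i (fun v => H v q.2) q.1) = fun q =>
      (((2 * Real.pi * 1)⁻¹ : ℝ) : ℂ) * ∫ s in (0 : ℝ)..(2 * Real.pi),
        H (q.1 + Pi.single i (((1 : ℝ) : ℂ) * cexp (I * s))) q.2 * cexp (-(I * s)) := by
    funext q
    exact pd_cauchy (hd q.2) i q.1 one_pos
  rw [he]
  apply Continuous.mul continuous_const
  apply intervalIntegral.continuous_parametric_intervalIntegral_of_continuous'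
  have h1 : Continuous (fun p : ((Fin n → ℂ) × ℝ) × ℝ =>
      ((p.1.1 + Pi.single i (((1 : ℝ) : ℂ) * cexp (I * p.2)), p.1.2) : (Fin n → ℂ) × ℝ)) :=
    ((continuous_fst.comp continuous_fst).add ((Pd_single_cont i).comp continuous_snd)).prodMk
      (continuous_snd.comp continuous_fst)
  have h2 : Continuous (fun p : ((Fin n → ℂ) × ℝ) × ℝ => cexp (-(I * (p.2 : ℂ)))) := by fun_prop
  exact (hc.comp h1).mul h2

private theorem Pd_step_int {n : ℕ} (H : (Fin n → ℂ) → ℝ → ℂ) (hc : Continuous (Function.uncurry H))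
    (hd : ∀ t, Differentiable ℂ (fun u => H u t)) (a b : ℝ) (i : Fin n) (u : Fin n → ℂ) :
    pd i (fun v => ∫ t in a..b, H v t) u = ∫ t in a..b, pd i (fun v => H v t) u := by
  have he : (fun t : ℝ => pd i (fun v => H v t) u) = fun t =>
      (((2 * Real.pi * 1)⁻¹ : ℝ) : ℂ) * ∫ s in (0 : ℝ)..(2 * Real.pi),
        H (u + Pi.single i (((1 : ℝ) : ℂ) * cexp (I * s))) t * cexp (-(I * s)) := by
    funext t
    exact pd_cauchy (hd t) i u one_pos
  rw [he, pd_cauchy (PI H hc hd a b) i u one_pos, intervalIntegral.integral_const_mul]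
  congr 1
  simp_rw [← intervalIntegral.integral_mul_const]
  apply MeasureTheory.intervalIntegral_intervalIntegral_swap
  have h1 : Continuous (fun p : ℝ × ℝ =>
      ((u + Pi.single i (((1 : ℝ) : ℂ) * cexp (I * p.1)), p.2) : (Fin n → ℂ) × ℝ)) :=
    (continuous_const.add ((Pd_single_cont i).comp continuous_fst)).prodMk continuous_snd
  have h2 : Continuous (fun p : ℝ × ℝ => cexp (-(I * (p.1 : ℂ)))) := by fun_prop
  have h3 : Continuous (fun p : ℝ × ℝ =>
      H (u + Pi.single i (((1 : ℝ) : ℂ) * cexp (I * p.1))) p.2 * cexp (-(I * (p.1 : ℂ)))) :=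
    (hc.comp h1).mul h2
  exact (h3.continuousOn.integrableOn_compact (isCompact_uIcc.prod isCompact_uIcc)).mono_set
    (Set.prod_mono Set.uIoc_subset_uIcc Set.uIoc_subset_uIcc)

/-- joint continuity of the derivatives with a real parameter -/
theorem pdl_cont {n : ℕ} (F : (Fin n → ℂ) → ℝ → ℂ) (hc : Continuous (Function.uncurry F)) (hd : ∀ t, Differentiable ℂ (fun u => F u t))
    (w : List (Fin n)) : Continuous (fun q : (Fin n → ℂ) × ℝ => pdl w (fun v => F v q.2) q.1) := by
  induction w with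
  | nil => exact hc
  | cons i w ih =>
    exact Pd_step_cont (fun u t => pdl w (fun v => F v t) u) ih (fun t => pdl_diff (hd t) w) i

theorem pdl_integral {n : ℕ} (F : (Fin n → ℂ) → ℝ → ℂ) (hc : Continuous (Function.uncurry F)) (hd : ∀ t, Differentiable ℂ (fun u => F u t)) (a b : ℝ)
    (w : List (Fin n)) (u : Fin n → ℂ) :
    pdl w (fun v => ∫ t in a..b, F v t) u = ∫ t in a..b, pdl w (fun v => F v t) u := by
  induction w generalizing u with
  | nil => rfl
  | cons i w ih =>
    have h1 : pdl w (fun v => ∫ t in a..b, F v t) = fun u => ∫ t in a..b, pdl w (fun v => F v t) u := by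
      funext u
      exact ih u
    have h2 : pdl (i :: w) (fun v => ∫ t in a..b, F v t) u = pd i (pdl w (fun v => ∫ t in a..b, F v t)) u := rfl
    rw [h2, h1]
    exact Pd_step_int (fun u t => pdl w (fun v => F v t) u) (pdl_cont F hc hd w)
      (fun t => pdl_diff (hd t) w) a b i u

private theorem Pd_step_sum {n : ℕ} {ι : Type} [Countable ι] {F : ι → (Fin n → ℂ) → ℂ} {G : (Fin n → ℂ) → ℂ} (hF : ∀ i, Differentiable ℂ (F i))
    (hG : Differentiable ℂ G) (hs : ∀ u, HasSum (fun i => F i u) (G u))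
    (hb : ∀ R : ℝ, ∃ b : ι → ℝ, Summable b ∧ ∀ i (u : Fin n → ℂ), (∀ j, ‖u j‖ ≤ R) → ‖F i u‖ ≤ b i) (j : Fin n) (u : Fin n → ℂ) :
    HasSum (fun i => pd j (F i) u) (pd j G u) := by
  obtain ⟨b, hb1, hb2⟩ := hb (‖u‖ + 1)
  have he : (fun i => pd j (F i) u) = fun i =>
      (((2 * Real.pi * 1)⁻¹ : ℝ) : ℂ) * ∫ s in (0 : ℝ)..(2 * Real.pi),
        F i (u + Pi.single j (((1 : ℝ) : ℂ) * cexp (I * s))) * cexp (-(I * s)) := by
    funext i
    exact pd_cauchy (hF i) j u one_pos
  rw [he, pd_cauchy hG j u one_pos]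
  apply HasSum.mul_left
  have h1 : Continuous (fun s : ℝ => (u + Pi.single j (((1 : ℝ) : ℂ) * cexp (I * s)) : Fin n → ℂ)) :=
    continuous_const.add (Pd_single_cont j)
  have h2 : Continuous (fun s : ℝ => cexp (-(I * (s : ℂ)))) := by fun_prop
  have hn1 : ∀ s : ℝ, ‖cexp (I * s)‖ = 1 := fun s => by
    rw [mul_comm]
    exact Complex.norm_exp_ofReal_mul_I s
  have hn2 : ∀ s : ℝ, ‖cexp (-(I * s))‖ = 1 := fun s => by
    rw [Complex.exp_neg, norm_inv, hn1, inv_one]
  apply intervalIntegral.hasSum_integral_of_dominated_convergence (fun i _ => b i)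
  · intro i
    exact (((hF i).continuous.comp h1).mul h2).aestronglyMeasurable
  · intro i
    refine Filter.Eventually.of_forall (fun s _ => ?_)
    rw [norm_mul, hn2, mul_one]
    refine hb2 i _ (fun k => ?_)
    rw [Pi.add_apply]
    refine (norm_add_le _ _).trans (add_le_add (norm_le_pi_norm u k) ?_)
    by_cases hk : k = j
    · subst hk
      rw [Pi.single_eq_same, norm_mul, hn1]
      simp
    · rw [Pi.single_eq_of_ne hk]
      simp
  · exact Filter.Eventually.of_forall (fun s _ => hb1)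
  · exact intervalIntegrable_const
  · refine Filter.Eventually.of_forall (fun s _ => ?_)
    exact (hs _).mul_right _

/-- termwise differentiation of a series which converges absolutely and uniformly on the unit polydisc around each point -/
theorem pdl_hasSum {n : ℕ} {ι : Type} [Countable ι] {F : ι → (Fin n → ℂ) → ℂ} {G : (Fin n → ℂ) → ℂ} (hF : ∀ i, Differentiable ℂ (F i))
    (hG : Differentiable ℂ G) (hs : ∀ u, HasSum (fun i => F i u) (G u))
    (hb : ∀ R : ℝ, ∃ b : ι → ℝ, Summable b ∧ ∀ i (u : Fin n → ℂ), (∀ j, ‖u j‖ ≤ R) → ‖F i u‖ ≤ b i) (w : List (Fin n)) (u : Fin n → ℂ) :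
    HasSum (fun i => pdl w (F i) u) (pdl w G u) := by
  induction w generalizing u with
  | nil => exact hs u
  | cons j w ih =>
    refine Pd_step_sum (F := fun i => pdl w (F i)) (G := pdl w G) (fun i => pdl_diff (hF i) w)
      (pdl_diff hG w) ih ?_ j u
    intro R
    obtain ⟨b, hb1, hb2⟩ := hb (R + 1)
    refine ⟨fun i => (w.length : ℝ) ^ w.length * b i, hb1.mul_left _, fun i u hu => ?_⟩
    refine pdl_bound (hF i) w u (fun v hv => hb2 i v (fun k => ?_))
    have h3 : v k = u k + (v k - u k) := by ring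
    rw [h3]
    exact (norm_add_le _ _).trans (add_le_add (hu k) (hv k))






/-! ### row Pe: Taylor coefficients along lines -/


/-- `cf` is the Taylor coefficient -/
theorem cf_eq_iter {n : ℕ} {G : (Fin n → ℂ) → ℂ} (hG : Differentiable ℂ G) (v : Fin n → ℂ) (d : ℕ) :
    cf G v d = iteratedDeriv d (fun t : ℂ => G (t • v)) 0 / d.factorial := by
  have hf : Differentiable ℂ (fun t : ℂ => G (t • v)) := hG.comp (differentiable_id.smul_const v)
  have h := hf.differentiableOn (s := Metric.closedBall (0 : ℂ) 1)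
    |>.circleIntegral_one_div_sub_center_pow_smul one_pos d
  have h2 : (∮ z in C((0 : ℂ), 1), (1 / (z - 0) ^ (d + 1)) • G (z • v))
      = I * ∫ s in (0 : ℝ)..(2 * Real.pi), G (cexp (I * s) • v) * cexp (-(I * d * s)) := by
    rw [circleIntegral, ← intervalIntegral.integral_const_mul]
    refine intervalIntegral.integral_congr fun s _ => ?_
    have h3 : circleMap (0 : ℂ) 1 s = cexp (I * s) := by
      simp [circleMap, mul_comm]
    have h4 : cexp (-(I * d * s)) = (cexp (I * s) ^ d)⁻¹ := by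
      rw [← Complex.exp_nat_mul, ← Complex.exp_neg]
      ring_nf
    have h5 : cexp (I * s) ≠ 0 := Complex.exp_ne_zero _
    simp only [deriv_circleMap, h3, sub_zero, smul_eq_mul]
    rw [h4]
    field_simp
    ring
  rw [h2] at h
  unfold cf
  have h6 : (∫ s in (0 : ℝ)..(2 * Real.pi), G (cexp (I * s) • v) * cexp (-(I * d * s)))
      = (2 * Real.pi / d.factorial) * iteratedDeriv d (fun t : ℂ => G (t • v)) 0 := by
    have h7 : I * (∫ s in (0 : ℝ)..(2 * Real.pi), G (cexp (I * s) • v) * cexp (-(I * d * s)))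
        = I * ((2 * Real.pi / d.factorial) * iteratedDeriv d (fun t : ℂ => G (t • v)) 0) := by
      rw [h, smul_eq_mul]
      ring
    exact mul_left_cancel₀ I_ne_zero h7
  rw [h6]
  have h8 : (Real.pi : ℂ) ≠ 0 := by exact_mod_cast Real.pi_ne_zero
  push_cast
  field_simp

/-- chain rule along a line -/
private theorem Pe_chain {n : ℕ} {F : (Fin n → ℂ) → ℂ} (hF : Differentiable ℂ F) (v : Fin n → ℂ) (t : ℂ) :
    HasDerivAt (fun t : ℂ => F (t • v)) (∑ i, v i * pd i F (t • v)) t := by
  have h1 : HasDerivAt (fun t : ℂ => t • v) v t := by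
    simpa using (hasDerivAt_id t).smul_const v
  have h2 := (hF (t • v)).hasFDerivAt.comp_hasDerivAt t h1
  have h5 : ∀ L : (Fin n → ℂ) →L[ℂ] ℂ, L v = ∑ i, v i * L (Pi.single i 1) := by
    intro L
    have h4 : v = ∑ i, v i • (Pi.single i 1 : Fin n → ℂ) := by
      ext j
      simp [Finset.sum_apply, Pi.single_apply]
    conv_lhs => rw [h4]
    rw [map_sum]
    refine Finset.sum_congr rfl fun i _ => ?_
    rw [map_smul, smul_eq_mul]
  have h3 : (fderiv ℂ F (t • v)) v = ∑ i, v i * pd i F (t • v) := h5 _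
  rw [← h3]
  exact h2

private theorem Pe_iter {n : ℕ} {G : (Fin n → ℂ) → ℂ} (hG : Differentiable ℂ G) (v : Fin n → ℂ) (d : ℕ) (t : ℂ) :
    iteratedDeriv d (fun t : ℂ => G (t • v)) t = ∑ w : Fin d → Fin n, (∏ i, v (w i)) * pdl (List.ofFn w) G (t • v) := by
  induction d generalizing t with
  | zero => simp [pdl]
  | succ d ih =>
    rw [iteratedDeriv_succ]
    have h1 : iteratedDeriv d (fun t : ℂ => G (t • v))
        = fun t => ∑ w : Fin d → Fin n, (∏ i, v (w i)) * pdl (List.ofFn w) G (t • v) := funext ih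
    rw [h1]
    have h2 : HasDerivAt (fun t : ℂ => ∑ w : Fin d → Fin n, (∏ i, v (w i)) * pdl (List.ofFn w) G (t • v))
        (∑ w : Fin d → Fin n, (∏ i, v (w i)) * ∑ i, v i * pd i (pdl (List.ofFn w) G) (t • v)) t := by
      refine HasDerivAt.fun_sum fun w _ => ?_
      exact (Pe_chain (pdl_diff hG _) v t).const_mul _
    rw [h2.deriv, ← (Fin.consEquiv (fun _ => Fin n)).sum_comp, Fintype.sum_prod_type, Finset.sum_comm]
    refine Finset.sum_congr rfl fun w _ => ?_
    rw [Finset.mul_sum]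
    refine Finset.sum_congr rfl fun i _ => ?_
    simp only [Fin.consEquiv_apply, Fin.prod_univ_succ, Fin.cons_zero, Fin.cons_succ, List.ofFn_succ, pdl]
    ring

/-- `d! cf = ∑_w (∏ v_{w i}) pdl w` over the words of length `d` -/
theorem cf_eq_words {n : ℕ} {G : (Fin n → ℂ) → ℂ} (hG : Differentiable ℂ G) (v : Fin n → ℂ) (d : ℕ) :
    (d.factorial : ℂ) * cf G v d = ∑ w : Fin d → Fin n, (∏ i, v (w i)) * pdl (List.ofFn w) G 0 := by
  rw [cf_eq_iter hG, Pe_iter hG, zero_smul]
  have h : (d.factorial : ℂ) ≠ 0 := by exact_mod_cast d.factorial_ne_zero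
  field_simp





/-- restriction to a line -/
theorem Pf_line {n : ℕ} {G : (Fin n → ℂ) → ℂ} (hG : Differentiable ℂ G) (v : Fin n → ℂ) :
    Differentiable ℂ (fun t : ℂ => G (t • v)) :=
  hG.comp (differentiable_id.smul_const v)

/-- the coefficients of a product -/
theorem cf_mul {n : ℕ} {G H : (Fin n → ℂ) → ℂ} (hG : Differentiable ℂ G) (hH : Differentiable ℂ H) (v : Fin n → ℂ) (d : ℕ) :
    cf (fun z => G z * H z) v d = ∑ x ∈ Finset.HasAntidiagonal.antidiagonal d, cf G v x.1 * cf H v x.2 := by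
  rw [cf_eq_iter (show Differentiable ℂ (fun z => G z * H z) from hG.mul hH) v d]
  have h1 : iteratedDeriv d (fun t : ℂ => G (t • v) * H (t • v)) 0
      = ∑ i ∈ Finset.range (d + 1), (d.choose i : ℂ) * iteratedDeriv i (fun t : ℂ => G (t • v)) 0
          * iteratedDeriv (d - i) (fun t : ℂ => H (t • v)) 0 :=
    iteratedDeriv_fun_mul (Pf_line hG v).contDiff.contDiffAt (Pf_line hH v).contDiff.contDiffAt
  rw [h1, Finset.Nat.sum_antidiagonal_eq_sum_range_succ_mk, Finset.sum_div]
  refine Finset.sum_congr rfl fun i hi => ?_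
  have hid : i ≤ d := Nat.lt_succ_iff.1 (Finset.mem_range.1 hi)
  simp only
  rw [cf_eq_iter hG v i, cf_eq_iter hH v (d - i)]
  have h2 : (d.choose i : ℂ) * i.factorial * (d - i).factorial = d.factorial := by
    exact_mod_cast Nat.choose_mul_factorial_mul_factorial hid
  have hi0 : (i.factorial : ℂ) ≠ 0 := by exact_mod_cast Nat.factorial_ne_zero i
  have hd0 : (d.factorial : ℂ) ≠ 0 := by exact_mod_cast Nat.factorial_ne_zero d
  have hdi0 : ((d - i).factorial : ℂ) ≠ 0 := by exact_mod_cast Nat.factorial_ne_zero (d - i)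
  rw [div_mul_div_comm, div_eq_div_iff hd0 (mul_ne_zero hi0 hdi0), ← h2]
  ring

theorem cf_bound {n : ℕ} {G : (Fin n → ℂ) → ℂ} (hG : Differentiable ℂ G) (v : Fin n → ℂ) (d : ℕ) {r M : ℝ} (hr : 0 < r)
    (hM : ∀ t : ℂ, ‖t‖ = r → ‖G (t • v)‖ ≤ M) : ‖cf G v d‖ ≤ M / r ^ d := by
  rw [cf_eq_iter hG v d, norm_div, Complex.norm_natCast]
  have hd0 : (0 : ℝ) < (d.factorial : ℝ) := by exact_mod_cast Nat.factorial_pos d
  rw [div_le_iff₀ hd0]
  refine (norm_iteratedDeriv_le_of_forall_mem_sphere_norm_le (f := fun t : ℂ => G (t • v)) (c := 0) (C := M) d hr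
    (Pf_line hG v).diffContOnCl ?_).trans (le_of_eq (by ring))
  intro z hz
  exact hM z (by simpa using hz)

/-- Schwarz lemma with small initial coefficients -/
theorem schwarz1 {f : ℂ → ℂ} (hf : Differentiable ℂ f) {r E η : ℝ} (hr : 0 < r) (hE0 : 0 ≤ E) (hη0 : 0 ≤ η) (n : ℕ)
    (hE : ∀ s : ℂ, ‖s‖ ≤ r → ‖f s‖ ≤ E)
    (hη : ∀ d < n, ‖(2 * Real.pi)⁻¹ * ∫ t in (0 : ℝ)..(2 * Real.pi), f (r * cexp (I * t)) * cexp (-(I * d * t))‖ ≤ η) :
    ∀ s : ℂ, ‖s‖ ≤ r / 8 → ‖f s‖ ≤ 2 * η + 2 * E * (1 / 8) ^ n := by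
  intro s hs
  -- the coefficients
  have hG : Differentiable ℂ (fun z : Fin 1 → ℂ => f (r * z 0)) := by
    refine hf.comp ?_
    exact (differentiable_apply (𝕜 := ℂ) (0 : Fin 1)).const_mul (r : ℂ)
  have hcf : ∀ d : ℕ, cf (fun z : Fin 1 → ℂ => f (r * z 0)) (fun _ => 1) d
      = (r : ℂ) ^ d * (iteratedDeriv d f 0 / d.factorial) := by
    intro d
    rw [cf_eq_iter hG]
    have h1 : (fun t : ℂ => f (r * (t • (fun _ : Fin 1 => (1 : ℂ))) 0)) = fun t : ℂ => f (r * t) := by
      funext t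
      simp
    rw [h1, iteratedDeriv_comp_const_mul hf.contDiff]
    simp only [mul_zero]
    ring
  have ha1 : ∀ d < n, ‖iteratedDeriv d f 0 / d.factorial‖ * r ^ d ≤ η := by
    intro d hd
    have h2 := hη d hd
    have h3 : (((2 * Real.pi)⁻¹ : ℝ) : ℂ) * ∫ t in (0 : ℝ)..(2 * Real.pi), f (r * cexp (I * t)) * cexp (-(I * d * t))
        = cf (fun z : Fin 1 → ℂ => f (r * z 0)) (fun _ => 1) d := by
      unfold cf
      simp
    rw [h3, hcf, norm_mul, norm_pow, Complex.norm_real, Real.norm_eq_abs, abs_of_pos hr] at h2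
    rw [mul_comm]
    exact h2
  have ha2 : ∀ d : ℕ, ‖iteratedDeriv d f 0 / d.factorial‖ * r ^ d ≤ E := by
    intro d
    have h2 := norm_iteratedDeriv_le_of_forall_mem_sphere_norm_le (f := f) (c := 0) (C := E) d hr hf.diffContOnCl
      (fun z hz => hE z (by simpa using (mem_sphere_iff_norm.1 hz).le))
    rw [norm_div, Complex.norm_natCast]
    have hd0 : (0 : ℝ) < (d.factorial : ℝ) := by exact_mod_cast Nat.factorial_pos d
    have hrd : (0 : ℝ) < r ^ d := by positivity
    rw [div_mul_eq_mul_div, div_le_iff₀ hd0]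
    rw [le_div_iff₀ hrd] at h2
    linarith
  -- the series
  have hsum := hasSum_taylorSeries_of_entire hf 0 s
  have hb : ∀ d : ℕ, ‖((d.factorial : ℂ)⁻¹ • (s - 0) ^ d • iteratedDeriv d f 0)‖
      ≤ (if d < n then η else E) * (1 / 8) ^ d := by
    intro d
    have h3 : ‖((d.factorial : ℂ)⁻¹ • (s - 0) ^ d • iteratedDeriv d f 0)‖
        = ‖iteratedDeriv d f 0 / d.factorial‖ * ‖s‖ ^ d := by
      rw [sub_zero, smul_eq_mul, smul_eq_mul, ← norm_pow, ← norm_mul]
      congr 1
      ring
    have h4 : ‖s‖ ^ d ≤ r ^ d * (1 / 8) ^ d := by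
      rw [← mul_pow]
      exact pow_le_pow_left₀ (norm_nonneg _) (by linarith) d
    rw [h3]
    calc ‖iteratedDeriv d f 0 / d.factorial‖ * ‖s‖ ^ d
        ≤ ‖iteratedDeriv d f 0 / d.factorial‖ * (r ^ d * (1 / 8) ^ d) :=
          mul_le_mul_of_nonneg_left h4 (norm_nonneg _)
      _ = (‖iteratedDeriv d f 0 / d.factorial‖ * r ^ d) * (1 / 8) ^ d := by ring
      _ ≤ _ := by
          refine mul_le_mul_of_nonneg_right ?_ (by positivity)
          split_ifs with h
          · exact ha1 d h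
          · exact ha2 d
  have hgeo : Summable (fun d : ℕ => (1 / 8 : ℝ) ^ d) := summable_geometric_of_lt_one (by norm_num) (by norm_num)
  have htsum : ∑' d : ℕ, (1 / 8 : ℝ) ^ d = 8 / 7 := by
    rw [tsum_geometric_of_lt_one (by norm_num) (by norm_num)]
    norm_num
  have hbs : Summable (fun d : ℕ => (if d < n then η else E) * (1 / 8 : ℝ) ^ d) := by
    refine Summable.of_nonneg_of_le (fun d => ?_) (fun d => ?_) (hgeo.mul_left (η + E))
    · split_ifs <;> positivity
    · refine mul_le_mul_of_nonneg_right ?_ (by positivity)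
      split_ifs <;> linarith
  have h5 : ‖f s‖ ≤ ∑' d : ℕ, (if d < n then η else E) * (1 / 8 : ℝ) ^ d := by
    rw [← hsum.tsum_eq]
    exact tsum_of_norm_bounded hbs.hasSum hb
  refine h5.trans ?_
  rw [← hbs.sum_add_tsum_nat_add n]
  have h6 : ∑ d ∈ Finset.range n, (if d < n then η else E) * (1 / 8 : ℝ) ^ d ≤ 2 * η := by
    calc ∑ d ∈ Finset.range n, (if d < n then η else E) * (1 / 8 : ℝ) ^ d
        = ∑ d ∈ Finset.range n, η * (1 / 8 : ℝ) ^ d := by
          refine Finset.sum_congr rfl fun d hd => ?_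
          rw [if_pos (Finset.mem_range.1 hd)]
      _ = η * ∑ d ∈ Finset.range n, (1 / 8 : ℝ) ^ d := by rw [Finset.mul_sum]
      _ ≤ η * (8 / 7) := by
          refine mul_le_mul_of_nonneg_left ?_ hη0
          rw [← htsum]
          exact hgeo.sum_le_tsum _ (fun d _ => by positivity)
      _ ≤ 2 * η := by linarith
  have h7 : ∑' d : ℕ, (if d + n < n then η else E) * (1 / 8 : ℝ) ^ (d + n) ≤ 2 * E * (1 / 8) ^ n := by
    have h8 : (fun d : ℕ => (if d + n < n then η else E) * (1 / 8 : ℝ) ^ (d + n))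
        = fun d : ℕ => (E * (1 / 8) ^ n) * (1 / 8 : ℝ) ^ d := by
      funext d
      rw [if_neg (by omega), pow_add]
      ring
    rw [h8, tsum_mul_left, htsum]
    have h9 : 0 ≤ E * (1 / 8 : ℝ) ^ n := by positivity
    linarith
  linarith






end Pool.Agent.LT
end

end

section

/-!
# MP_f58a57_nt, large transcendence degree, part C (row lt-C-D2a)

D.2(a),(c): the rank of P is c+1 and uniqueness. b in R^N with P b = 0 gives Y b = 0 (imaginary part, M real), b = 0; so R^N meets ker P in 0 and dim ker P <= c. (c) b + iyg in ker P: iy v0 = -P b; g^T P b = v0^T b (P^T g = P g = v0 because (M - M^T) g = 0), so v0^T b = -iy nu, b^T P b = -iy b^T v0 = -y^2 nu, imaginary parts b^T Y b = -y^2 Im nu, Im nu = g^T Y g > 0. Do it for P = Lt and for P = L.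
-/

open Complex Matrix MeasureTheory

noncomputable section

namespace Pool.Agent.LT

variable {c : ℕ}

namespace D2a_

/-- the real computation -/
theorem core {n : ℕ} (x Y b g : Fin n → ℝ) (N : Fin n → Fin n → ℝ) (y : ℝ) (hY : ∀ j, 0 < Y j) (hg : g ≠ 0)
    (hN : ∀ j, ∑ k, N j k * g k = ∑ k, N k j * g k)
    (h1 : ∀ j, Y j * b j + y * (x j * g j - ∑ k, N j k * g k) = 0)
    (h2 : ∀ j, x j * b j - (∑ k, N j k * b k) - y * (Y j * g j) = 0) : b = 0 ∧ y = 0 := by
  have e1 : ∑ j, b j * (Y j * b j + y * (x j * g j - ∑ k, N j k * g k)) = 0 :=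
    Finset.sum_eq_zero fun j _ => by rw [h1 j, mul_zero]
  have e2 : ∑ j, g j * (x j * b j - (∑ k, N j k * b k) - y * (Y j * g j)) = 0 :=
    Finset.sum_eq_zero fun j _ => by rw [h2 j, mul_zero]
  have e3 : ∑ j, g j * (∑ k, N j k * b k) = ∑ j, b j * (∑ k, N j k * g k) := by
    calc ∑ j, g j * (∑ k, N j k * b k) = ∑ j, ∑ k, g j * (N j k * b k) := by simp only [Finset.mul_sum]
      _ = ∑ k, ∑ j, g j * (N j k * b k) := Finset.sum_comm
      _ = ∑ k, b k * (∑ j, N j k * g j) := by
          refine Finset.sum_congr rfl fun k _ => ?_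
          rw [Finset.mul_sum]
          exact Finset.sum_congr rfl fun j _ => by ring
      _ = ∑ k, b k * (∑ j, N k j * g j) := by
          refine Finset.sum_congr rfl fun k _ => ?_
          rw [hN k]
  have e4 : ∑ j, (Y j * b j ^ 2 + Y j * (y * g j) ^ 2) = 0 := by
    have a1 : ∑ j, b j * (Y j * b j + y * (x j * g j - ∑ k, N j k * g k)) =
        ∑ j, Y j * b j ^ 2 + y * ∑ j, x j * g j * b j - y * ∑ j, b j * (∑ k, N j k * g k) := by
      rw [Finset.mul_sum, Finset.mul_sum, ← Finset.sum_add_distrib, ← Finset.sum_sub_distrib]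
      exact Finset.sum_congr rfl fun j _ => by ring
    have a2 : ∑ j, g j * (x j * b j - (∑ k, N j k * b k) - y * (Y j * g j)) =
        ∑ j, x j * g j * b j - ∑ j, g j * (∑ k, N j k * b k) - y * ∑ j, Y j * g j ^ 2 := by
      rw [Finset.mul_sum, ← Finset.sum_sub_distrib, ← Finset.sum_sub_distrib]
      exact Finset.sum_congr rfl fun j _ => by ring
    have a3 : ∑ j, (Y j * b j ^ 2 + Y j * (y * g j) ^ 2) = ∑ j, Y j * b j ^ 2 + y ^ 2 * ∑ j, Y j * g j ^ 2 := by
      rw [Finset.mul_sum, ← Finset.sum_add_distrib]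
      exact Finset.sum_congr rfl fun j _ => by ring
    rw [a3]
    rw [a1] at e1
    rw [a2, e3] at e2
    linear_combination e1 - y * e2
  have e5 : ∀ j, Y j * b j ^ 2 + Y j * (y * g j) ^ 2 = 0 := by
    intro j
    refine (Finset.sum_eq_zero_iff_of_nonneg fun i _ => ?_).1 e4 j (Finset.mem_univ j)
    have := (hY i).le
    positivity
  have e6 : ∀ j, b j = 0 ∧ y * g j = 0 := by
    intro j
    have h := e5 j
    have hp := hY j
    have i1 : 0 ≤ Y j * b j ^ 2 := by positivity
    have i2 : 0 ≤ Y j * (y * g j) ^ 2 := by positivity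
    constructor
    · have : Y j * b j ^ 2 = 0 := by linarith
      rcases mul_eq_zero.1 this with h' | h'
      · exact absurd h' hp.ne'
      · exact pow_eq_zero_iff (two_ne_zero) |>.1 h'
    · have : Y j * (y * g j) ^ 2 = 0 := by linarith
      rcases mul_eq_zero.1 this with h' | h'
      · exact absurd h' hp.ne'
      · exact pow_eq_zero_iff (two_ne_zero) |>.1 h'
  refine ⟨funext fun j => (e6 j).1, ?_⟩
  by_contra hy
  apply hg
  funext j
  rcases mul_eq_zero.1 (e6 j).2 with h | h
  · exact absurd h hy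
  · exact h

theorem uniq (z : Fin (2 * c + 1) → ℂ) (im : ∀ j, 0 < (z j).im) (M : Matrix (Fin (2 * c + 1)) (Fin (2 * c + 1)) ℚ)
    (g : Fin (2 * c + 1) → ℤ) (hg : g ≠ 0) (hMg : M *ᵥ (fun j => (g j : ℚ)) = Mᵀ *ᵥ (fun j => (g j : ℚ)))
    (b' : Fin (2 * c + 1) → ℝ) (y : ℝ)
    (h : (Matrix.diagonal z - M.map (fun q : ℚ => (q : ℂ))) *ᵥ (pt g b' y) = 0) : b' = 0 ∧ y = 0 := by
  have hj : ∀ j, z j * ((b' j : ℂ) + I * y * (g j : ℂ)) - ∑ k, (M j k : ℂ) * ((b' k : ℂ) + I * y * (g k : ℂ)) = 0 := by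
    intro j
    have := congrFun h j
    rw [Matrix.sub_mulVec, Pi.sub_apply, Matrix.mulVec_diagonal] at this
    simpa [Matrix.mulVec, dotProduct, pt] using this
  have hs : ∀ j, ∑ k, (M j k : ℂ) * ((b' k : ℂ) + I * y * (g k : ℂ)) =
      ((∑ k, (M j k : ℝ) * b' k : ℝ) : ℂ) + I * ((y * ∑ k, (M j k : ℝ) * (g k : ℝ) : ℝ) : ℂ) := by
    intro j
    push_cast
    rw [Finset.mul_sum, Finset.mul_sum, ← Finset.sum_add_distrib]
    exact Finset.sum_congr rfl fun k _ => by ring
  refine core (fun j => (z j).re) (fun j => (z j).im) b' (fun j => (g j : ℝ)) (fun j k => (M j k : ℝ)) y im ?_ ?_ ?_ ?_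
  · intro h0
    apply hg
    funext j
    have := congrFun h0 j
    simpa using this
  · intro j
    have := congrFun hMg j
    simp only [Matrix.mulVec, dotProduct, Matrix.transpose_apply] at this
    have h' : ((∑ k, M j k * (g k : ℚ) : ℚ) : ℝ) = ((∑ k, M k j * (g k : ℚ) : ℚ) : ℝ) := by rw [this]
    push_cast at h'
    exact h'
  · intro j
    have h0 := hj j
    rw [hs j] at h0
    have := congrArg Complex.im h0
    simp [Complex.add_im, Complex.mul_im, Complex.mul_re] at this
    linarith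
  · intro j
    have h0 := hj j
    rw [hs j] at h0
    have := congrArg Complex.re h0
    simp [Complex.add_re, Complex.mul_im, Complex.mul_re] at this
    linarith

theorem ker_le {n : ℕ} (P : Matrix (Fin n) (Fin n) ℂ) (h : ∀ b : Fin n → ℝ, P *ᵥ (fun j => (b j : ℂ)) = 0 → b = 0) :
    2 * Module.finrank ℂ (LinearMap.ker (Matrix.mulVecLin P)) ≤ n := by
  let K : Submodule ℝ (Fin n → ℂ) := (LinearMap.ker (Matrix.mulVecLin P)).restrictScalars ℝ
  let f : (Fin n → ℝ) →ₗ[ℝ] (Fin n → ℂ) :=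
    { toFun := fun b j => (b j : ℂ)
      map_add' := by intro a b; funext j; simp
      map_smul' := by intro t b; funext j; simp }
  have hf : Function.Injective f := by
    intro a b hab
    funext j
    have := congrFun hab j
    exact Complex.ofReal_injective this
  have hd : Disjoint K (LinearMap.range f) := by
    rw [Submodule.disjoint_def]
    intro x hx hx'
    obtain ⟨b, rfl⟩ := hx'
    have : P *ᵥ (f b) = 0 := by
      have hx2 : f b ∈ LinearMap.ker (Matrix.mulVecLin P) := hx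
      simpa using hx2
    rw [h b this]
    simp
  have h1 := Submodule.finrank_add_finrank_le_of_disjoint hd
  have h2 : Module.finrank ℝ (LinearMap.range f) = n := by
    rw [LinearMap.finrank_range_of_inj hf]
    simp
  have h3 : Module.finrank ℝ (Fin n → ℂ) = 2 * n := by
    rw [finrank_real_of_complex]
    simp
  have h4 : Module.finrank ℝ K = 2 * Module.finrank ℂ (LinearMap.ker (Matrix.mulVecLin P)) :=
    finrank_real_of_complex (LinearMap.ker (Matrix.mulVecLin P))
  rw [h2, h3, h4] at h1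
  omega

theorem hL (D : Dat c) : D.L = D.Ltᵀ := by
  unfold Dat.L Dat.Lt
  rw [Matrix.transpose_sub, Matrix.diagonal_transpose, Matrix.transpose_map]

theorem ge (P : Matrix (Fin (2 * c + 1)) (Fin (2 * c + 1)) ℂ) (h : c ≤ Module.finrank ℂ (LinearMap.ker (Matrix.mulVecLin P))) :
    c ≤ Module.finrank ℂ (LinearMap.ker (Matrix.mulVecLin Pᵀ)) := by
  have h1 := LinearMap.finrank_range_add_finrank_ker (Matrix.mulVecLin P)
  have h2 := LinearMap.finrank_range_add_finrank_ker (Matrix.mulVecLin Pᵀ)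
  have h3 : Pᵀ.rank = P.rank := Matrix.rank_transpose P
  unfold Matrix.rank at h3
  omega

end D2a_

theorem dec_uniq (D : Dat c) (P : Matrix (Fin (2 * c + 1)) (Fin (2 * c + 1)) ℂ) (hP : P = D.Lt ∨ P = D.L) (b' : Fin (2 * c + 1) → ℝ) (y : ℝ)
    (h : P *ᵥ (pt D.g b' y) = 0) : b' = 0 ∧ y = 0 := by
  rcases hP with rfl | rfl
  · exact D2a_.uniq D.z D.im D.M D.g D.hg D.hMg b' y h
  · exact D2a_.uniq D.z D.im D.Mᵀ D.g D.hg (by rw [Matrix.transpose_transpose]; exact D.hMg.symm) b' y h

theorem finrank_ker (D : Dat c) (P : Matrix (Fin (2 * c + 1)) (Fin (2 * c + 1)) ℂ) (hP : P = D.Lt ∨ P = D.L) :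
    Module.finrank ℂ (LinearMap.ker (Matrix.mulVecLin P)) = c := by
  apply le_antisymm
  · have h := D2a_.ker_le P (fun b hb => (dec_uniq D P hP b 0 (by
      have : pt D.g b 0 = fun j => (b j : ℂ) := by
        funext j
        simp [pt]
      rw [this]
      exact hb)).1)
    omega
  · rcases hP with rfl | rfl
    · exact D.rk
    · rw [D2a_.hL]
      exact D2a_.ge D.Lt D.rk

end Pool.Agent.LT
end

end
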