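import Mathlib
import Pool.Agent.Lib.MP_f58a57_nt.LK.K001

section

/-!
# MP_f58a57_nt, large transcendence degree, part C: definitions
-/

open Complex Matrix MeasureTheory

noncomputable section

namespace Pool.Agent.LT

/-- `ℂ^(2c+1)` -/
abbrev VN (c : ℕ) : Type := Fin (2 * c + 1) → ℂ

variable {c : ℕ}

/-- the coordinates `u = pt g (b u) (Y u) + k`, `P k = 0` -/
structure Dec (D : Dat c) (P : Matrix (Fin (2 * c + 1)) (Fin (2 * c + 1)) ℂ) (b : VN c →ₗ[ℝ] (Fin (2 * c + 1) → ℝ))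
    (Y : VN c →ₗ[ℝ] ℝ) : Prop where
  dec : ∀ u, P *ᵥ (u - pt D.g (b u) (Y u)) = 0
  uniq : ∀ (b' : Fin (2 * c + 1) → ℝ) (y : ℝ), P *ᵥ (pt D.g b' y) = 0 → b' = 0 ∧ y = 0

/-- the function on the line in the direction of `g` -/
def fm (D : Dat c) (Φ : VN c → VN c → ℂ) (μ : ℂ) (u s : VN c) (x : ℂ) : ℂ :=
  Φ (u + x • D.gc) s * ee (D.nu * x ^ 2 / 2 + x * (D.v0 ⬝ᵥ u) + μ * x)

/-- the modes -/
def hk (D : Dat c) (Φ : VN c → VN c → ℂ) (μ : ℂ) (κ : ℤ) (u s : VN c) : ℂ :=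
  (D.d : ℂ)⁻¹ * ∫ x in (0 : ℝ)..(D.d : ℝ), fm D Φ μ u s x * ee (-(κ * x / D.d))

/-- the choice of `μ` -/
def Mu (D : Dat c) (C : (Fin (2 * c + 1) → ℤ) → ℂ) (μ : ℂ) : Prop := C D.g * ee (D.nu * (D.d : ℂ) ^ 2 / 2 + μ * D.d) = 1

/-- the functions of `u` with the transformation properties of the mode `κ` -/
structure Mode (D : Dat c) (C : (Fin (2 * c + 1) → ℤ) → ℂ) (μ : ℂ) (κ : ℤ) (h : VN c → ℂ) : Prop where
  sec : Sec D.d D.Lt C h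
  g : ∀ (ξ : ℂ) (u : VN c), h (u + ξ • D.gc) = ee (-(D.nu * ξ ^ 2 / 2) - ξ * (D.v0 ⬝ᵥ u) - (μ - κ / D.d) * ξ) * h u

/-- the space of the functions of `u` with the transformation properties of the mode `κ` -/
def QQ (D : Dat c) (C : (Fin (2 * c + 1) → ℤ) → ℂ) (μ : ℂ) (κ : ℤ) : Submodule ℂ (VN c → ℂ) where
  carrier := {h | Mode D C μ κ h}
  add_mem' := by
    intro a b ha hb
    refine ⟨⟨ha.sec.diff.add hb.sec.diff, fun l u => ?_, fun k hk u => ?_⟩, fun ξ u => ?_⟩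
    · simp only [Pi.add_apply, ha.sec.per, hb.sec.per]; ring
    · simp only [Pi.add_apply, ha.sec.ker k hk, hb.sec.ker k hk]
    · simp only [Pi.add_apply, ha.g, hb.g]; ring
  zero_mem' := by
    refine ⟨⟨differentiable_const 0, fun l u => ?_, fun k hk u => ?_⟩, fun ξ u => ?_⟩ <;> simp
  smul_mem' := by
    intro t a ha
    refine ⟨⟨ha.sec.diff.const_smul t, fun l u => ?_, fun k hk u => ?_⟩, fun ξ u => ?_⟩
    · simp only [Pi.smul_apply, smul_eq_mul, ha.sec.per]; ring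
    · simp only [Pi.smul_apply, ha.sec.ker k hk]
    · simp only [Pi.smul_apply, smul_eq_mul, ha.g]; ring

theorem mem_QQ {D : Dat c} {C : (Fin (2 * c + 1) → ℤ) → ℂ} {μ : ℂ} {κ : ℤ} {h : VN c → ℂ} : h ∈ QQ D C μ κ ↔ Mode D C μ κ h := Iff.rfl

/-- the data of a jump (property (P5)) -/
structure Jump (D : Dat c) (Φ : VN c → VN c → ℂ) (p p' : VN c) (nn : Fin (2 * c + 1) → ℤ) (C5 : ℂ) (m : ℤ) : Prop where
  ne : C5 ≠ 0
  eq : D.L *ᵥ p' + D.Lt *ᵥ p = (fun j => (nn j : ℂ))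
  hm : m = ∑ j, D.g j * nn j
  pos : 1 ≤ m
  jmp : ∀ u s, Φ (u + p) (s + p') = C5 * ee (p ⬝ᵥ (D.L *ᵥ s) + u ⬝ᵥ (D.L *ᵥ p')) * Φ u s

theorem Ker.exists_jump {D : Dat c} {Φ : VN c → VN c → ℂ} {C C' : (Fin (2 * c + 1) → ℤ) → ℂ} (hK : Ker D Φ C C') :
    ∃ (p p' : VN c) (nn : Fin (2 * c + 1) → ℤ) (C5 : ℂ) (m : ℤ), Jump D Φ p p' nn C5 m := by
  obtain ⟨p, p', nn, C5, h1, h2, h3, h4⟩ := hK.jump
  exact ⟨p, p', nn, C5, _, h1, h2, rfl, h3, h4⟩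

/-- the function `F_q` -/
def Fq {T : ℕ} (Φ : VN c → VN c → ℂ) (q : Wd (2 * c + 1) T → ℂ) (u : VN c) : ℂ := ∑ β, q β * pdl β.l (Φ u) 0

/-- the function `g_y` -/
def gy (D : Dat c) (Φ : VN c → VN c → ℂ) (μ : ℂ) (κ m : ℤ) (p : VN c) {j : ℕ} (y : Fin j → ℂ) (s : VN c) : ℂ :=
  ∑ i : Fin j, y i * hk D Φ μ (κ + (i : ℕ) * m * D.d) (((i : ℕ) : ℂ) • p) s

end Pool.Agent.LT
end

end

section

/-!
# MP_f58a57_nt, large transcendence degree, part C (row lt-C-M0)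

Small facts: L g = Lt g = v0, g^T L w = v0^T w etc.
-/

open Complex Matrix MeasureTheory

noncomputable section

namespace Pool.Agent.LT

variable {c : ℕ}

namespace M0_

/-- the complex form of the symmetry of `M` on `g` -/
theorem Mg (D : Dat c) (i : Fin (2 * c + 1)) :
    (D.M.map (fun q : ℚ => (q : ℂ)) *ᵥ D.gc) i = ((D.Mᵀ).map (fun q : ℚ => (q : ℂ)) *ᵥ D.gc) i := by
  have h := congrFun D.hMg i
  have h2 := congrArg (fun q : ℚ => (q : ℂ)) h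
  simp only [Matrix.mulVec, dotProduct, Rat.cast_sum, Rat.cast_mul, Rat.cast_intCast] at h2
  simpa only [Matrix.mulVec, dotProduct, Matrix.map_apply, Dat.gc] using h2

end M0_

theorem L_gc (D : Dat c) : D.L *ᵥ D.gc = D.v0 := by
  unfold Dat.v0 Dat.L Dat.Lt
  rw [Matrix.sub_mulVec, Matrix.sub_mulVec]
  congr 1
  funext i
  exact (M0_.Mg D i).symm

/-- transposes -/
theorem M0_.L_transpose (D : Dat c) : (D.L)ᵀ = D.Lt := by
  unfold Dat.L Dat.Lt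
  rw [Matrix.transpose_sub, Matrix.diagonal_transpose, Matrix.transpose_map, Matrix.transpose_transpose]

/-- `uᵀ L w = wᵀ Lᵀ u` -/
theorem dot_L (D : Dat c) (u w : VN c) : u ⬝ᵥ (D.L *ᵥ w) = w ⬝ᵥ (D.Lt *ᵥ u) := by
  rw [← M0_.L_transpose, Matrix.mulVec_transpose, Matrix.dotProduct_mulVec, dotProduct_comm]

theorem gc_dot_L (D : Dat c) (w : VN c) : D.gc ⬝ᵥ (D.L *ᵥ w) = D.v0 ⬝ᵥ w := by
  rw [dot_L, dotProduct_comm]
  rfl

theorem gc_dot_Lt (D : Dat c) (w : VN c) : D.gc ⬝ᵥ (D.Lt *ᵥ w) = D.v0 ⬝ᵥ w := by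
  rw [← dot_L, L_gc, dotProduct_comm]

theorem ee_add (x y : ℂ) : ee (x + y) = ee x * ee y := by
  unfold ee
  rw [mul_add, Complex.exp_add]

theorem ee_int (m : ℤ) : ee m = 1 := by
  unfold ee
  rw [Complex.exp_eq_one_iff]
  exact ⟨m, by ring⟩

theorem norm_ee (x : ℂ) : ‖ee x‖ = Real.exp (-(2 * Real.pi * x.im)) := by
  unfold ee
  rw [Complex.norm_exp]
  congr 1
  simp

theorem exists_mu {D : Dat c} {C : (Fin (2 * c + 1) → ℤ) → ℂ} (hC : MulOK D.d D.z C) : ∃ μ, Mu D C μ := by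
  obtain ⟨l, hl⟩ := hC
  have hCg : C D.g ≠ 0 := by
    rw [← norm_pos_iff, hl]
    exact Real.exp_pos _
  have hd : (D.d : ℂ) ≠ 0 := by exact_mod_cast D.hd.ne'
  have hpi : (2 * Real.pi * I : ℂ) ≠ 0 := Complex.two_pi_I_ne_zero
  set w : ℂ := C D.g * ee (D.nu * (D.d : ℂ) ^ 2 / 2) with hw
  have hw0 : w ≠ 0 := mul_ne_zero hCg (Complex.exp_ne_zero _)
  refine ⟨Complex.log w⁻¹ / (2 * Real.pi * I) / D.d, ?_⟩
  unfold Mu
  rw [ee_add, ← mul_assoc, ← hw]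
  have h1 : ee (Complex.log w⁻¹ / (2 * Real.pi * I) / D.d * D.d) = w⁻¹ := by
    rw [div_mul_cancel₀ _ hd]
    unfold ee
    rw [mul_div_cancel₀ _ hpi, Complex.exp_log (inv_ne_zero hw0)]
  rw [h1, mul_inv_cancel₀ hw0]

end Pool.Agent.LT
end

end

section

/-!
# MP_f58a57_nt, large transcendence degree, part C (row lt-C-G1)

The general remark (G): u = pt g b y + k with P k = 0; b = b1 + d a with b1 in [0,d]^N, a integral, |a| <= C(1+|u|); F(u) = F(pt g b1 y + lat d a) = C a ee(-(lat d a . P (pt g b1 y))) F(pt g b1 y).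
-/

open Complex Matrix MeasureTheory

noncomputable section

namespace Pool.Agent.LT

variable {c : ℕ}

namespace G1_

theorem norm_ee_le (x : ℂ) : ‖ee x‖ ≤ Real.exp (2 * Real.pi * ‖x‖) := by
  unfold ee
  rw [Complex.norm_exp]
  apply Real.exp_le_exp.2
  refine (Complex.re_le_norm _).trans ?_
  rw [norm_mul, norm_mul, norm_mul]
  simp [abs_of_pos Real.pi_pos]

theorem dot_le {n : ℕ} (a v : Fin n → ℂ) (P : Matrix (Fin n) (Fin n) ℂ) (α β : ℝ) (hα : ∀ j, ‖a j‖ ≤ α) (hβ : ∀ j, ‖v j‖ ≤ β)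
    (hα0 : 0 ≤ α) (hβ0 : 0 ≤ β) :
    ‖a ⬝ᵥ (P *ᵥ v)‖ ≤ (∑ j, ∑ i, ‖P j i‖) * (α * β) := by
  unfold dotProduct mulVec
  refine (norm_sum_le _ _).trans ?_
  rw [Finset.sum_mul]
  refine Finset.sum_le_sum (fun j _ => ?_)
  rw [norm_mul, Finset.sum_mul]
  have h1 : ‖P j ⬝ᵥ v‖ ≤ (∑ i, ‖P j i‖) * β := by
    unfold dotProduct
    refine (norm_sum_le _ _).trans ?_
    rw [Finset.sum_mul]
    refine Finset.sum_le_sum (fun i _ => ?_)
    rw [norm_mul]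
    exact mul_le_mul_of_nonneg_left (hβ i) (norm_nonneg _)
  have h2 : ‖a j‖ * ‖P j ⬝ᵥ v‖ ≤ α * ((∑ i, ‖P j i‖) * β) :=
    mul_le_mul (hα j) h1 (norm_nonneg _) hα0
  refine h2.trans (le_of_eq ?_)
  rw [← Finset.sum_mul]
  ring

theorem nsq_nonneg {n : ℕ} (u : Fin n → ℂ) : 0 ≤ nsq u := by
  unfold nsq
  exact Finset.sum_nonneg (fun i _ => by positivity)

theorem sup_sq_le {n : ℕ} (u : Fin n → ℂ) : ‖u‖ ^ 2 ≤ nsq u := by
  have h : ‖u‖ ≤ Real.sqrt (nsq u) := by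
    rw [pi_norm_le_iff_of_nonneg (Real.sqrt_nonneg _)]
    intro i
    apply Real.le_sqrt_of_sq_le
    unfold nsq
    exact Finset.single_le_sum (f := fun i => ‖u i‖ ^ 2) (fun j _ => by positivity) (Finset.mem_univ i)
  calc ‖u‖ ^ 2 ≤ (Real.sqrt (nsq u)) ^ 2 := pow_le_pow_left₀ (norm_nonneg _) h 2
    _ = nsq u := Real.sq_sqrt (nsq_nonneg u)

end G1_

theorem extend_bound (D : Dat c) (P : Matrix (Fin (2 * c + 1)) (Fin (2 * c + 1)) ℂ)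
    {b : VN c →ₗ[ℝ] (Fin (2 * c + 1) → ℝ)} {Y : VN c →ₗ[ℝ] ℝ} (hd : Dec D P b Y) {Cf : (Fin (2 * c + 1) → ℤ) → ℂ} (hC : MulOK D.d D.z Cf) :
    ∃ A : ℝ, 0 ≤ A ∧ ∀ F : VN c → ℂ, Sec D.d P Cf F → ∀ s y1 : ℝ, 0 ≤ s →
      (∀ (b' : Fin (2 * c + 1) → ℝ) (y : ℝ), (∀ j, 0 ≤ b' j ∧ b' j ≤ D.d) → |y| ≤ y1 → ‖F (pt D.g b' y)‖ ≤ s) →
        ∀ u, |Y u| ≤ y1 → ‖F u‖ ≤ s * Real.exp (A * (1 + nsq u)) := by
  classical
  obtain ⟨l, hl⟩ := hC
  obtain ⟨Cb, hCb0, hCb⟩ : ∃ Cb : ℝ, 0 ≤ Cb ∧ ∀ u, ‖b u‖ ≤ Cb * ‖u‖ :=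
    ⟨‖LinearMap.toContinuousLinearMap b‖, norm_nonneg _, fun u => (LinearMap.toContinuousLinearMap b).le_opNorm u⟩
  obtain ⟨CY, hCY0, hCY⟩ : ∃ CY : ℝ, 0 ≤ CY ∧ ∀ u, ‖Y u‖ ≤ CY * ‖u‖ :=
    ⟨‖LinearMap.toContinuousLinearMap Y‖, norm_nonneg _, fun u => (LinearMap.toContinuousLinearMap Y).le_opNorm u⟩
  have hdpos : (0 : ℝ) < D.d := by exact_mod_cast D.hd
  obtain ⟨G, hG⟩ : ∃ G : ℝ, G = ∑ j, |(D.g j : ℝ)| := ⟨_, rfl⟩
  have hG0 : 0 ≤ G := by rw [hG]; exact Finset.sum_nonneg (fun j _ => abs_nonneg _)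
  have hGj : ∀ j, |(D.g j : ℝ)| ≤ G := fun j => by
    rw [hG]
    exact Finset.single_le_sum (f := fun j => |(D.g j : ℝ)|) (fun j _ => abs_nonneg _) (Finset.mem_univ j)
  obtain ⟨K1, hK1⟩ : ∃ K1 : ℝ, K1 = Cb + D.d := ⟨_, rfl⟩
  obtain ⟨K2, hK2⟩ : ∃ K2 : ℝ, K2 = D.d + CY * G := ⟨_, rfl⟩
  have hK10 : 0 ≤ K1 := by rw [hK1]; positivity
  have hK20 : 0 ≤ K2 := by rw [hK2]; positivity
  obtain ⟨A0, hA0⟩ : ∃ A0 : ℝ, A0 = Real.pi * ∑ j, (D.z j).im * K1 ^ 2 + ∑ j, |l j| * K1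
      + 2 * Real.pi * ((∑ j, ∑ i, ‖P j i‖) * (K1 * K2)) := ⟨_, rfl⟩
  have hA00 : 0 ≤ A0 := by
    have h1 : 0 ≤ ∑ j, (D.z j).im * K1 ^ 2 :=
      Finset.sum_nonneg (fun j _ => mul_nonneg (D.im j).le (by positivity))
    have h2 : 0 ≤ ∑ j, |l j| * K1 := Finset.sum_nonneg (fun j _ => by positivity)
    have h3 : 0 ≤ ∑ j, ∑ i, ‖P j i‖ := Finset.sum_nonneg (fun j _ => Finset.sum_nonneg (fun i _ => norm_nonneg _))
    rw [hA0]
    have := Real.pi_pos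
    positivity
  refine ⟨2 * A0, by positivity, ?_⟩
  intro F hF s y1 hs hbd u hu
  obtain ⟨S, hS⟩ : ∃ S : ℝ, S = ‖u‖ := ⟨_, rfl⟩
  have hS0 : 0 ≤ S := by rw [hS]; exact norm_nonneg _
  obtain ⟨a, ha⟩ : ∃ a : Fin (2 * c + 1) → ℤ, ∀ j, a j = ⌊b u j / D.d⌋ := ⟨fun j => ⌊b u j / D.d⌋, fun j => rfl⟩
  obtain ⟨b1, hb1⟩ : ∃ b1 : Fin (2 * c + 1) → ℝ, ∀ j, b1 j = b u j - D.d * a j := ⟨fun j => b u j - D.d * a j, fun j => rfl⟩
  have hb1r : ∀ j, 0 ≤ b1 j ∧ b1 j ≤ D.d := by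
    intro j
    have h1 := Int.floor_le (b u j / D.d)
    have h2 := (Int.lt_floor_add_one (b u j / D.d)).le
    rw [← ha j] at h1 h2
    rw [le_div_iff₀ hdpos] at h1
    rw [div_le_iff₀ hdpos] at h2
    rw [hb1 j]
    constructor
    · linarith
    · linarith
  have hbu : ∀ j, |b u j| ≤ Cb * S := by
    intro j
    have := (norm_le_pi_norm (b u) j).trans (hCb u)
    rw [hS]
    simpa using this
  have hda : ∀ j, |(D.d : ℝ) * a j| ≤ K1 * (1 + S) := by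
    intro j
    have h1 : (D.d : ℝ) * a j = b u j - b1 j := by rw [hb1 j]; ring
    rw [h1, hK1]
    have h2 : |b u j - b1 j| ≤ |b u j| + |b1 j| := abs_sub _ _
    have h3 : |b1 j| ≤ D.d := by rw [abs_of_nonneg (hb1r j).1]; exact (hb1r j).2
    have h4 := hbu j
    have h5 : (0 : ℝ) ≤ D.d * S := by positivity
    nlinarith
  have hYu : |Y u| ≤ CY * S := by
    have := hCY u
    rw [hS]
    simpa using this
  have hv : ∀ j, ‖pt D.g b1 (Y u) j‖ ≤ K2 * (1 + S) := by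
    intro j
    unfold pt
    refine (norm_add_le _ _).trans ?_
    rw [norm_mul, norm_mul, Complex.norm_I, one_mul, Complex.norm_real, Complex.norm_real, Complex.norm_intCast, Real.norm_eq_abs,
      Real.norm_eq_abs, abs_of_nonneg (hb1r j).1, hK2]
    have h1 := (hb1r j).2
    have h2 : |Y u| * |(D.g j : ℝ)| ≤ CY * S * G := mul_le_mul hYu (hGj j) (abs_nonneg _) (by positivity)
    have h3 : (0 : ℝ) ≤ D.d * S := by positivity
    have h4 : (0 : ℝ) ≤ CY * G := by positivity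
    nlinarith
  -- the value of F
  have hFu : F u = Cf a * ee (-(lat D.d a ⬝ᵥ (P *ᵥ (pt D.g b1 (Y u))))) * F (pt D.g b1 (Y u)) := by
    have h1 : u = pt D.g (b u) (Y u) + (u - pt D.g (b u) (Y u)) := by abel
    have h2 : F u = F (pt D.g (b u) (Y u)) := by
      conv_lhs => rw [h1]
      exact hF.ker _ (hd.dec u) _
    have h3 : pt D.g (b u) (Y u) = pt D.g b1 (Y u) + lat D.d a := by
      funext j
      simp only [pt, lat, Pi.add_apply, hb1 j]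
      push_cast
      ring
    rw [h2, h3, hF.per]
  have hnorm1 : ‖Cf a‖ ≤ Real.exp ((Real.pi * ∑ j, (D.z j).im * K1 ^ 2 + ∑ j, |l j| * K1) * (1 + S) ^ 2) := by
    rw [hl a]
    apply Real.exp_le_exp.2
    have h1 : ∑ j, (D.z j).im * ((D.d : ℝ) * (a j : ℝ)) ^ 2 ≤ (∑ j, (D.z j).im * K1 ^ 2) * (1 + S) ^ 2 := by
      rw [Finset.sum_mul]
      refine Finset.sum_le_sum (fun j _ => ?_)
      have h2 : ((D.d : ℝ) * (a j : ℝ)) ^ 2 ≤ (K1 * (1 + S)) ^ 2 := sq_le_sq' (by linarith [(abs_le.1 (hda j)).1]) (abs_le.1 (hda j)).2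
      rw [mul_assoc]
      refine mul_le_mul_of_nonneg_left (h2.trans (le_of_eq ?_)) (D.im j).le
      ring
    have h2 : ∑ j, l j * ((D.d : ℝ) * (a j : ℝ)) ≤ (∑ j, |l j| * K1) * (1 + S) ^ 2 := by
      rw [Finset.sum_mul]
      refine Finset.sum_le_sum (fun j _ => ?_)
      have h3 : l j * ((D.d : ℝ) * (a j : ℝ)) ≤ |l j| * |(D.d : ℝ) * (a j : ℝ)| := by
        rw [← abs_mul]; exact le_abs_self _
      have h4 : |l j| * |(D.d : ℝ) * (a j : ℝ)| ≤ |l j| * (K1 * (1 + S)) := mul_le_mul_of_nonneg_left (hda j) (abs_nonneg _)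
      have h5 : |l j| * (K1 * (1 + S)) ≤ |l j| * K1 * (1 + S) ^ 2 := by
        have h6 : (1 + S) ≤ (1 + S) ^ 2 := by nlinarith
        have h7 : 0 ≤ |l j| * K1 := by positivity
        nlinarith
      linarith
    have h3 := mul_le_mul_of_nonneg_left h1 Real.pi_pos.le
    calc _ ≤ Real.pi * ((∑ j, (D.z j).im * K1 ^ 2) * (1 + S) ^ 2) + (∑ j, |l j| * K1) * (1 + S) ^ 2 := add_le_add h3 h2
      _ = _ := by ring
  have hnorm2 : ‖ee (-(lat D.d a ⬝ᵥ (P *ᵥ (pt D.g b1 (Y u)))))‖ ≤ Real.exp (2 * Real.pi * ((∑ j, ∑ i, ‖P j i‖) * (K1 * K2)) * (1 + S) ^ 2) := by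
    refine (G1_.norm_ee_le _).trans ?_
    apply Real.exp_le_exp.2
    rw [norm_neg]
    have h1 := G1_.dot_le (lat D.d a) (pt D.g b1 (Y u)) P (K1 * (1 + S)) (K2 * (1 + S)) (fun j => by
      have := hda j
      unfold lat
      rw [norm_mul, Complex.norm_natCast, Complex.norm_intCast]
      rw [abs_mul, abs_of_pos hdpos] at this
      exact this) hv (by positivity) (by positivity)
    have h2 : (∑ j, ∑ i, ‖P j i‖) * (K1 * (1 + S) * (K2 * (1 + S))) = (∑ j, ∑ i, ‖P j i‖) * (K1 * K2) * (1 + S) ^ 2 := by ring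
    rw [h2] at h1
    have h3 := mul_le_mul_of_nonneg_left h1 (by positivity : (0 : ℝ) ≤ 2 * Real.pi)
    refine h3.trans (le_of_eq ?_)
    ring
  have hnorm3 : ‖F (pt D.g b1 (Y u))‖ ≤ s := hbd b1 (Y u) hb1r hu
  rw [hFu, norm_mul, norm_mul]
  have h1 : ‖Cf a‖ * ‖ee (-(lat D.d a ⬝ᵥ (P *ᵥ (pt D.g b1 (Y u)))))‖ ≤ Real.exp (A0 * (1 + S) ^ 2) := by
    refine (mul_le_mul hnorm1 hnorm2 (norm_nonneg _) (Real.exp_pos _).le).trans ?_
    rw [← Real.exp_add]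
    apply Real.exp_le_exp.2
    rw [hA0]
    apply le_of_eq
    ring
  have h2 : Real.exp (A0 * (1 + S) ^ 2) ≤ Real.exp (2 * A0 * (1 + nsq u)) := by
    apply Real.exp_le_exp.2
    have h3 : (1 + S) ^ 2 ≤ 2 * (1 + nsq u) := by
      have h4 := G1_.sup_sq_le u
      rw [← hS] at h4
      nlinarith [sq_nonneg (1 - S)]
    nlinarith
  calc _ ≤ Real.exp (2 * A0 * (1 + nsq u)) * s := mul_le_mul (h1.trans h2) hnorm3 (norm_nonneg _) (Real.exp_pos _).le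
    _ = _ := by ring

end Pool.Agent.LT
end

end
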