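import Mathlib
import Pool.Agent.Lib.MP_f58a57_nt.LK.K001

section

/-!
# MP_f58a57_nt, large transcendence degree: D algebra 1, abstract relation lemmas

`K` is a field of characteristic `0` and `E` a `K`-vector space.
-/

open Module Submodule

noncomputable section

namespace Pool.Agent.LT.DA

section

variable {K : Type*} [Field K] [CharZero K]

/-- `z` satisfies no nontrivial quadratic equation over `ℚ` -/
def nq (z : K) : Prop := ∀ a b c : ℚ, (a : K) * z ^ 2 + b * z + c = 0 → a = 0 ∧ b = 0 ∧ c = 0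

/-- there are no nontrivial bilinear relations between `z` and `w` -/
def rl (z w : K) : Prop := ∀ a b a' b' : ℚ, z * (a + b * w) = a' + b' * w → a = 0 ∧ b = 0

variable {E : Type*} [AddCommGroup E] [Module K E] [Module ℚ E]

/-- the `ℚ`-span of the vectors `v i` and `ζ i • v i` -/
def TT {ι : Type*} (v : ι → E) (ζ : ι → K) : Submodule ℚ E := span ℚ (Set.range v) ⊔ span ℚ (Set.range fun i => ζ i • v i)

variable {ι : Type*} [Fintype ι]

/-- row D1a. Proof: `Submodule.mem_sup`, and `mem_span_range_iff_exists_fun` for both parts; `(p : K) • v = (p : ℚ) • v` (cast smul: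
`Rat.cast_smul_eq_qsmul` or `algebraMap_smul`; `IsScalarTower ℚ K E` is an instance, `IsScalarTower.rat`). -/
theorem mem_TT (v : ι → E) (ζ : ι → K) (x : E) : x ∈ TT v ζ ↔ ∃ p q : ι → ℚ, x = ∑ i, ((p i : K) + (q i : K) * ζ i) • v i := by
  have key : ∀ p q : ι → ℚ, ∑ i, ((p i : K) + (q i : K) * ζ i) • v i = ∑ i, p i • v i + ∑ i, q i • (ζ i • v i) := by
    intro p q
    rw [← Finset.sum_add_distrib]
    apply Finset.sum_congr rfl
    intro i _
    rw [add_smul, mul_smul, Rat.cast_smul_eq_qsmul, Rat.cast_smul_eq_qsmul]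
  unfold TT
  rw [Submodule.mem_sup]
  constructor
  · rintro ⟨y, hy, z, hz, rfl⟩
    rw [Submodule.mem_span_range_iff_exists_fun] at hy hz
    obtain ⟨p, rfl⟩ := hy
    obtain ⟨q, rfl⟩ := hz
    exact ⟨p, q, (key p q).symm⟩
  · rintro ⟨p, q, rfl⟩
    refine ⟨∑ i, p i • v i, ?_, ∑ i, q i • (ζ i • v i), ?_, (key p q).symm⟩
    · rw [Submodule.mem_span_range_iff_exists_fun]
      exact ⟨p, rfl⟩
    · rw [Submodule.mem_span_range_iff_exists_fun]
      exact ⟨q, rfl⟩

/-- row D1a. Proof: the family `Sum.elim v (fun i => ζ i • v i)` is linearly independent over `ℚ`: a relation is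
`∑ (p i + q i ζ i) • v i = 0`, so `p i + q i ζ i = 0` and `p i = q i = 0` by `nq`. Then `finrank_span_eq_card` with
`Set.Sum.elim_range`, `Submodule.span_union`. -/
theorem finrank_TT {v : ι → E} (hv : LinearIndependent K v) {ζ : ι → K} (hζ : ∀ i, nq (ζ i)) : finrank ℚ (TT v ζ) = 2 * Fintype.card ι := by
  have hli : LinearIndependent ℚ (Sum.elim v (fun i => ζ i • v i)) := by
    rw [Fintype.linearIndependent_iff]
    intro g hg
    rw [Fintype.sum_sum_type] at hg
    simp only [Sum.elim_inl, Sum.elim_inr] at hg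
    have h1 : ∑ i, ((g (Sum.inl i) : K) + (g (Sum.inr i) : K) * ζ i) • v i = 0 := by
      rw [← hg, ← Finset.sum_add_distrib]
      apply Finset.sum_congr rfl
      intro i _
      rw [add_smul, mul_smul, Rat.cast_smul_eq_qsmul, Rat.cast_smul_eq_qsmul]
    have h2 := Fintype.linearIndependent_iff.1 hv _ h1
    have h3 : ∀ i, g (Sum.inr i) = 0 ∧ g (Sum.inl i) = 0 := by
      intro i
      have := hζ i 0 (g (Sum.inr i)) (g (Sum.inl i)) (by
        have h4 := h2 i
        rw [Rat.cast_zero, zero_mul, zero_add, add_comm]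
        exact h4)
      exact ⟨this.2.1, this.2.2⟩
    rintro (i | i)
    · exact (h3 i).2
    · exact (h3 i).1
  have hT : TT v ζ = span ℚ (Set.range (Sum.elim v (fun i => ζ i • v i))) := by
    unfold TT
    rw [Set.Sum.elim_range, Submodule.span_union]
  rw [hT, finrank_span_eq_card hli, Fintype.card_sum]
  ring

private theorem D1b_coef {v : ι → E} (hv : LinearIndependent K v) {ζ : ι → K} {z : K} {x : E} (h1 : x ∈ TT v ζ)
    (h2 : z • x ∈ TT v ζ) : ∃ p q p' q' : ι → ℚ, x = ∑ i, ((p i : K) + (q i : K) * ζ i) • v i ∧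
      ∀ i, z * ((p i : K) + (q i : K) * ζ i) = (p' i : K) + (q' i : K) * ζ i := by
  obtain ⟨p, q, hx⟩ := (mem_TT v ζ x).1 h1
  obtain ⟨p', q', hzx⟩ := (mem_TT v ζ _).1 h2
  refine ⟨p, q, p', q', hx, fun i => ?_⟩
  have h3 : ∑ i, (z * ((p i : K) + (q i : K) * ζ i) - ((p' i : K) + (q' i : K) * ζ i)) • v i = 0 := by
    simp only [sub_smul, Finset.sum_sub_distrib]
    rw [← hzx, hx, Finset.smul_sum, sub_eq_zero]
    exact Finset.sum_congr rfl fun i _ => mul_smul _ _ _
  exact sub_eq_zero.1 (Fintype.linearIndependent_iff.1 hv _ h3 i)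

/-- row D1b. Proof: `x = ∑ (p i + q i ζ i) v i`, `z x = ∑ (p' i + q' i ζ i) v i` (mem_TT), so `z (p i + q i ζ i) = p' i + q' i ζ i` for
all `i` by linear independence (`LinearIndependent.eq_of_sum_eq_sum..` or `Fintype.linearIndependent_iff` for the difference), so
`p i = q i = 0` by `rl`. -/
theorem TT_zero {v : ι → E} (hv : LinearIndependent K v) {ζ : ι → K} {z : K} (hz : ∀ i, rl z (ζ i)) {x : E} (h1 : x ∈ TT v ζ)
    (h2 : z • x ∈ TT v ζ) : x = 0 := by
  obtain ⟨p, q, p', q', hx, h3⟩ := D1b_coef hv h1 h2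
  rw [hx]
  refine Finset.sum_eq_zero fun i _ => ?_
  obtain ⟨h4, h5⟩ := hz i _ _ _ _ (h3 i)
  rw [h4, h5]
  simp

/-- row D1b. Proof: as for TT_zero; if `z = ζ i` then `q i ζ i ^ 2 + (p i - q' i) ζ i - p' i = 0` gives `q i = 0` by `nq`. So `x = ∑ p i v i`. -/
theorem TT_span {v : ι → E} (hv : LinearIndependent K v) {ζ : ι → K} {z : K} (hz : ∀ i, z = ζ i ∧ nq z ∨ rl z (ζ i)) {x : E}
    (h1 : x ∈ TT v ζ) (h2 : z • x ∈ TT v ζ) : x ∈ span ℚ (Set.range v) := by
  obtain ⟨p, q, p', q', hx, h3⟩ := D1b_coef hv h1 h2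
  have hq : ∀ i, q i = 0 := by
    intro i
    rcases hz i with ⟨h4, h5⟩ | h4
    · have h6 := h3 i
      rw [← h4] at h6
      refine (h5 (q i) (p i - q' i) (-p' i) ?_).1
      push_cast
      linear_combination h6
    · exact (h4 _ _ _ _ (h3 i)).2
  rw [hx]
  refine sum_mem fun i _ => ?_
  rw [hq i, Rat.cast_zero, zero_mul, add_zero, Rat.cast_smul_eq_qsmul]
  exact smul_mem _ _ (subset_span ⟨i, rfl⟩)

/-- row D1c: from a spanning family one can choose a basis. Proof: `exists_linearIndependent'` (Mathlib, indexed version) and take for `J`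
the range of the injection; or `exists_linearIndepOn_extension` with `Set.univ`. -/
theorem exists_basis_sub {κ : Type*} [Finite κ] (w : κ → E) : ∃ J : Set κ, LinearIndependent K (fun j : J => w j) ∧
    span K (Set.range fun j : J => w j) = span K (Set.range w) := by
  obtain ⟨κ', a, ha, h1, h2⟩ := exists_linearIndependent' K w
  have e : (fun j : Set.range a => w j) ∘ (Equiv.ofInjective a ha) = w ∘ a := by
    funext x
    rfl
  refine ⟨Set.range a, ?_, ?_⟩
  · rw [← linearIndependent_equiv (Equiv.ofInjective a ha), e]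
    exact h2
  · rw [← h1, ← e]
    congr 1
    rw [Set.range_comp, (Equiv.ofInjective a ha).surjective.range_eq, Set.image_univ]

/-- row D1c: LEMMA G0. Proof: `J` from `exists_basis_sub`, `v := fun j : J => w j`: a basis, `Fintype.card J = finrank K E =: e`
(`finrank_eq_card_basis` / `linearIndependent_iff_card_eq_finrank_span`, span = ⊤). `T := TT v (fun j => ζ j) ≤ S := span ℚ (range w)` by `hS`,
`finrank ℚ T = 2 e`. Suppose `finrank ℚ S ≤ 2 e`; then `T = S` (`Submodule.eq_of_le_of_finrank_le`; `S` is finite-dimensional,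
being spanned by a finite set). For every `k` : `w k ∈ T`, `ζ k • w k ∈ T`, so `w k ∈ span ℚ (range v)` by `TT_span` (for `j ∈ J`: if
`ζ k = ζ j` left alternative with `hnq`, else `hrl`). So `S ≤ span ℚ (range v)`, `finrank ℚ S ≤ e` (`finrank_range_le_card`), but
`finrank ℚ S ≥ 2 e > e`. Contradiction. -/
theorem G0 [FiniteDimensional K E] {κ : Type*} [Fintype κ] (w : κ → E) (ζ : κ → K) (hS : ∀ k, ζ k • w k ∈ span ℚ (Set.range w))
    (hspan : span K (Set.range w) = ⊤) (hpos : 0 < finrank K E) (hnq : ∀ k, nq (ζ k)) (hrl : ∀ k l, ζ k = ζ l ∨ rl (ζ k) (ζ l)) :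
    2 * finrank K E + 1 ≤ finrank ℚ (span ℚ (Set.range w)) := by
  classical
  obtain ⟨J, hli, hsp⟩ := exists_basis_sub (K := K) w
  have : Fintype J := Fintype.ofFinite J
  obtain ⟨v, hv⟩ : ∃ v : J → E, v = fun j : J => w j := ⟨_, rfl⟩
  rw [← hv] at hli hsp
  have hcard : finrank K E = Fintype.card J := by
    rw [← finrank_span_eq_card hli, hsp, hspan, finrank_top]
  have hSfd : FiniteDimensional ℚ (span ℚ (Set.range w)) :=
    FiniteDimensional.span_of_finite ℚ (Set.finite_range w)
  have hT : TT v (fun j : J => ζ j) ≤ span ℚ (Set.range w) := by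
    refine sup_le (span_mono ?_) (span_le.mpr ?_)
    · rintro _ ⟨j, rfl⟩
      rw [hv]
      exact ⟨j, rfl⟩
    · rintro _ ⟨j, rfl⟩
      show ζ j • v j ∈ span ℚ (Set.range w)
      rw [hv]
      exact hS j
  have hTd := finrank_TT hli (ζ := fun j : J => ζ j) (fun j => hnq j)
  by_contra hcon
  have hle : finrank ℚ (span ℚ (Set.range w)) ≤ finrank ℚ (TT v (fun j : J => ζ j)) := by
    rw [hTd, ← hcard]
    omega
  have hTS : TT v (fun j : J => ζ j) = span ℚ (Set.range w) := Submodule.eq_of_le_of_finrank_le hT hle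
  have hw : span ℚ (Set.range w) ≤ span ℚ (Set.range v) := by
    refine span_le.mpr ?_
    rintro _ ⟨k, rfl⟩
    refine TT_span hli (ζ := fun j : J => ζ j) (z := ζ k) (fun j => ?_) ?_ ?_
    · rcases hrl k j with h | h
      · exact Or.inl ⟨h, hnq k⟩
      · exact Or.inr h
    · rw [hTS]
      exact subset_span ⟨k, rfl⟩
    · rw [hTS]
      exact hS k
  have hvfd : FiniteDimensional ℚ (span ℚ (Set.range v)) :=
    FiniteDimensional.span_of_finite ℚ (Set.finite_range v)
  have h1 := Submodule.finrank_mono hw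
  have h2 : finrank ℚ (span ℚ (Set.range v)) ≤ Fintype.card J := finrank_range_le_card v
  rw [← hTS, hTd] at h1
  omega

end

theorem li_of_steps {K V : Type*} [Field K] [AddCommGroup V] [Module K V] (x : ℕ → V) (i : ℕ)
    (h : ∀ l < i, x l ∉ span K (Set.range fun m : Fin l => x m)) : LinearIndependent K (fun l : Fin i => x l) := by
  induction i with
  | zero => exact linearIndependent_empty_type
  | succ i ih =>
    rw [linearIndependent_finSucc']
    exact ⟨ih fun l hl => h l (by omega), h i (by omega)⟩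

theorem li_KC (K : Subfield ℂ) {ι : Type*} {n : ℕ} {v : ι → Fin n → K} (h : LinearIndependent K v) :
    LinearIndependent ℂ (fun i j => (v i j : ℂ)) := by
  have i2 : FaithfulSMul K ℂ := inferInstance
  exact (@linearIndependent_algebraMap_comp_iff ι (Fin n) _ K ℂ _ _ _ i2 _ v).mpr h

end Pool.Agent.LT.DA
end

end

section

/-!
# MP_f58a57_nt, large transcendence degree: D algebra 2, annihilators and LEMMA G*
-/

open Module Submodule

noncomputable section

namespace Pool.Agent.LT.DA

/-- `x · q` for a rational vector `q` -/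
def dq {L : Type*} [Field L] [CharZero L] {n : ℕ} (x : Fin n → L) (q : Fin n → ℚ) : L := ∑ j, x j * (q j : L)

/-- the vectors over `L` orthogonal to the rational subspace `Λ` -/
def ann (L : Type*) [Field L] [CharZero L] {n : ℕ} (Λ : Submodule ℚ (Fin n → ℚ)) : Submodule L (Fin n → L) where
  carrier := {x | ∀ q ∈ Λ, dq x q = 0}
  add_mem' := by
    intro x y hx hy q hq
    have h1 := hx q hq
    have h2 := hy q hq
    simp only [dq, Pi.add_apply, add_mul, Finset.sum_add_distrib] at *
    rw [h1, h2, add_zero]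
  zero_mem' := by
    intro q _
    simp [dq]
  smul_mem' := by
    intro a x hx q hq
    have h1 := hx q hq
    simp only [dq, Pi.smul_apply, smul_eq_mul, mul_assoc, ← Finset.mul_sum] at *
    rw [h1, mul_zero]

/-- row D2a. Proof: let `q : Fin λ → Fin n → ℚ` be a basis of `Λ` (`finBasis ℚ Λ`, coerced), `λ = finrank ℚ Λ`. `ann L Λ` is the kernel of the
map `(Fin n → L) → (Fin λ → L)`, `x ↦ (dq x (q t))_t`, i.e. `mulVecLin A` with `A t j = (q t j : L)`. The rows of `A` are linearly
independent over `L` by `linearIndependent_algebraMap_comp_iff` (Mathlib), so `A.rank = λ` (`LinearIndependent.rank_matrix`), and rank-nullity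
(`LinearMap.finrank_range_add_finrank_ker`, `Matrix.rank`). -/
theorem finrank_ann (L : Type*) [Field L] [CharZero L] {n : ℕ} (Λ : Submodule ℚ (Fin n → ℚ)) :
    finrank L (ann L Λ) + finrank ℚ Λ = n := by
  classical
  set r := finrank ℚ Λ with hr
  let q : Basis (Fin r) ℚ Λ := finBasis ℚ Λ
  let A : Matrix (Fin r) (Fin n) L := fun t j => algebraMap ℚ L ((q t : Fin n → ℚ) j)
  have hli : LinearIndependent ℚ (fun t => (q t : Fin n → ℚ)) := by
    have h := q.linearIndependent.map' Λ.subtype (Submodule.ker_subtype Λ)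
    exact h
  have hA : LinearIndependent L A.row := by
    have h := (linearIndependent_algebraMap_comp_iff (S := L) (v := fun t => (q t : Fin n → ℚ))).2 hli
    exact h
  have hrk : A.rank = r := by
    rw [hA.rank_matrix, Fintype.card_fin]
  have hker : LinearMap.ker A.mulVecLin = ann L Λ := by
    ext x
    rw [LinearMap.mem_ker]
    constructor
    · intro h p hp
      -- write p in the basis
      have hsum : (∑ t, q.repr ⟨p, hp⟩ t • (q t : Fin n → ℚ)) = p := by
        have h1 := congrArg Λ.subtype (q.sum_repr ⟨p, hp⟩)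
        rw [map_sum] at h1
        exact h1
      have h2 : ∀ t, ∑ j, x j * (((q t : Fin n → ℚ) j : ℚ) : L) = 0 := by
        intro t
        have h3 := congrFun h t
        rw [Matrix.mulVecLin_apply] at h3
        simp only [Matrix.mulVec, dotProduct, Pi.zero_apply] at h3
        rw [← h3]
        exact Finset.sum_congr rfl fun j _ => by
          rw [mul_comm]
          rfl
      show dq x p = 0
      rw [← hsum]
      simp only [dq, Finset.sum_apply, Pi.smul_apply, smul_eq_mul, Rat.cast_sum, Rat.cast_mul, Finset.mul_sum]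
      rw [Finset.sum_comm]
      refine Finset.sum_eq_zero fun t _ => ?_
      have h4 : ∑ j, x j * ((((q.repr ⟨p, hp⟩) t : ℚ) : L) * (((q t : Fin n → ℚ) j : ℚ) : L)) =
          (((q.repr ⟨p, hp⟩) t : ℚ) : L) * ∑ j, x j * (((q t : Fin n → ℚ) j : ℚ) : L) := by
        rw [Finset.mul_sum]
        exact Finset.sum_congr rfl fun j _ => by ring
      rw [h4, h2 t, mul_zero]
    · intro h
      funext t
      have h1 := h (q t : Fin n → ℚ) (q t).2
      rw [Matrix.mulVecLin_apply]
      simp only [Matrix.mulVec, dotProduct, Pi.zero_apply]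
      rw [← h1]
      exact Finset.sum_congr rfl fun j _ => by
        rw [mul_comm]
        rfl
  have h5 := LinearMap.finrank_range_add_finrank_ker A.mulVecLin
  rw [Module.finrank_fin_fun, hker] at h5
  have h6 : finrank L (LinearMap.range A.mulVecLin) = r := hrk
  omega

/-- the rational vectors orthogonal to `x 0, ..., x (i-1)` -/
def Lam {L : Type*} [Field L] [CharZero L] {n : ℕ} (x : ℕ → Fin n → L) (i : ℕ) : Submodule ℚ (Fin n → ℚ) where
  carrier := {q | ∀ l < i, dq (x l) q = 0}
  add_mem' := by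
    intro p q hp hq l hl
    have h1 := hp l hl
    have h2 := hq l hl
    simp only [dq, Pi.add_apply, Rat.cast_add, mul_add, Finset.sum_add_distrib] at *
    rw [h1, h2, add_zero]
  zero_mem' := by
    intro l _
    simp [dq]
  smul_mem' := by
    intro a q hq l hl
    have h1 := hq l hl
    simp only [dq, Pi.smul_apply, smul_eq_mul, Rat.cast_mul] at *
    have h2 : ∑ j, x l j * ((a : L) * (q j : L)) = a * ∑ j, x l j * (q j : L) := by
      rw [Finset.mul_sum]
      exact Finset.sum_congr rfl fun j _ => by ring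
    rw [h2, h1, mul_zero]

/-- row D2b: LEMMA G*, in the dual form. Proof: `A := ann K Λ`, `a := finrank K (R ⊓ A)`, `r := finrank K R`, `λ := finrank ℚ Λ ≥ 1`,
`E := (Fin n → K) ⧸ (R ⊔ A)`. `finrank K E = n - finrank (R ⊔ A)`, `finrank (R ⊔ A) + a = r + finrank A` (`finrank_sup_add_finrank_inf_eq`),
`finrank A + λ = n` (finrank_ann), so `finrank K E + r = λ + a`.
Case `finrank K E = 0`: `r = λ + a`, so `λ + 2a + 1 ≤ 2 λ + 2 a = 2 r`.
Case `0 < finrank K E`: apply `G0` to `E`, `w j := mk (Pi.single j 1)`, `ζ`: `hspan`: the `Pi.single j 1` span, `mk` is surjective. `hS`: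
`ζ j • w j = ∑ k, (M j k : K) • w k = ∑ k, M j k • w k` in `E` because the difference is `mk` of row `j` of `diagonal ζ - M`, which is in `R`.
So `2 finrank K E + 1 ≤ finrank ℚ S`, `S := span ℚ (range w)`. And `finrank ℚ S ≤ λ`: `S` is the range of `φ : (Fin n → ℚ) →ₗ[ℚ] E`,
`φ q = ∑ j, q j • w j = mk (fun j => (q j : K))`, whose kernel contains `ann ℚ Λ` (if `q ∈ ann ℚ Λ` then the cast of `q` is in `A`), of
dimension `n - λ` (finrank_ann for `L = ℚ`). So `2 (λ + a - r) + 1 ≤ λ`, i.e. `λ + 2 a + 1 ≤ 2 r`. -/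
theorem Gs {K : Type*} [Field K] [CharZero K] {n : ℕ} (ζ : Fin n → K) (M : Matrix (Fin n) (Fin n) ℚ) (hnq : ∀ k, nq (ζ k))
    (hrl : ∀ k l, ζ k = ζ l ∨ rl (ζ k) (ζ l)) (R : Submodule K (Fin n → K))
    (hR : ∀ j, (fun k => (Matrix.diagonal ζ - M.map (fun q : ℚ => (q : K))) j k) ∈ R) (Λ : Submodule ℚ (Fin n → ℚ)) (hΛ : Λ ≠ ⊥) :
    finrank ℚ Λ + 2 * finrank K (R ⊓ ann K Λ : Submodule K (Fin n → K)) + 1 ≤ 2 * finrank K R := by
  classical
  have hfin1 : finrank K ((Fin n → K) ⧸ (R ⊔ ann K Λ)) + finrank K (R ⊔ ann K Λ : Submodule K (Fin n → K)) = n := by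
    have h := Submodule.finrank_quotient_add_finrank (R ⊔ ann K Λ)
    rw [h, Module.finrank_fin_fun]
  have hfin2 := Submodule.finrank_sup_add_finrank_inf_eq R (ann K Λ)
  have hfin3 := finrank_ann K Λ
  have hΛpos : 1 ≤ finrank ℚ Λ := by
    rw [Nat.one_le_iff_ne_zero]
    intro h0
    exact hΛ (Submodule.finrank_eq_zero.1 h0)
  generalize hWdef : R ⊔ ann K Λ = W at hfin1 hfin2
  rcases Nat.eq_zero_or_pos (finrank K ((Fin n → K) ⧸ W)) with h0 | hpos
  · omega
  · obtain ⟨w, hw⟩ : ∃ w : Fin n → ((Fin n → K) ⧸ W), ∀ j, w j = W.mkQ (Pi.single j 1) := ⟨_, fun j => rfl⟩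
    have hmk : ∀ x : Fin n → K, W.mkQ x = ∑ j, x j • w j := by
      intro x
      have h1 : x = ∑ j, x j • (Pi.single j 1 : Fin n → K) := by
        ext i
        simp [Finset.sum_apply, Pi.single_apply]
      conv_lhs => rw [h1]
      rw [map_sum]
      refine Finset.sum_congr rfl fun j _ => ?_
      rw [map_smul, hw]
    have hS : ∀ k, ζ k • w k ∈ span ℚ (Set.range w) := by
      intro k
      have h1 : W.mkQ (fun l => (Matrix.diagonal ζ - M.map (fun q : ℚ => (q : K))) k l) = 0 := by
        rw [Submodule.mkQ_apply, Submodule.Quotient.mk_eq_zero, ← hWdef]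
        exact Submodule.mem_sup_left (hR k)
      rw [hmk] at h1
      have h2 : ∑ l, ((Matrix.diagonal ζ - M.map (fun q : ℚ => (q : K))) k l) • w l
          = ζ k • w k - ∑ l, ((M k l : ℚ) : K) • w l := by
        simp [Matrix.sub_apply, sub_smul, Finset.sum_sub_distrib, Matrix.diagonal_apply, ite_smul]
      rw [h2, sub_eq_zero] at h1
      rw [h1]
      refine sum_mem fun l _ => ?_
      rw [Rat.cast_smul_eq_qsmul]
      exact smul_mem _ _ (subset_span ⟨l, rfl⟩)
    have hspan : span K (Set.range w) = ⊤ := by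
      rw [eq_top_iff]
      rintro x -
      obtain ⟨y, rfl⟩ := W.mkQ_surjective x
      rw [hmk]
      exact sum_mem fun j _ => smul_mem _ _ (subset_span ⟨j, rfl⟩)
    have hG := G0 w ζ hS hspan hpos hnq hrl
    have hker : ann ℚ Λ ≤ LinearMap.ker (Fintype.linearCombination ℚ w) := by
      intro q hq
      have h1 : Fintype.linearCombination ℚ w q = W.mkQ (fun j => (q j : K)) := by
        rw [hmk, Fintype.linearCombination_apply]
        refine Finset.sum_congr rfl fun j _ => ?_
        rw [Rat.cast_smul_eq_qsmul]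
      rw [LinearMap.mem_ker, h1, Submodule.mkQ_apply, Submodule.Quotient.mk_eq_zero, ← hWdef]
      refine Submodule.mem_sup_right ?_
      intro p hp
      have h2 : dq q p = 0 := hq p hp
      have h3 : dq (fun j => (q j : K)) p = ((dq q p : ℚ) : K) := by
        simp [dq]
      rw [h3, h2, Rat.cast_zero]
    have hrn := (Fintype.linearCombination ℚ w).finrank_range_add_finrank_ker
    rw [Fintype.range_linearCombination, Module.finrank_fin_fun] at hrn
    have hann := finrank_ann ℚ Λ
    have hle := Submodule.finrank_mono hker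
    omega

end Pool.Agent.LT.DA
end

end

section

/-!
# MP_f58a57_nt, large transcendence degree, part D analysis (row lt-DD4): the transposed data

`finrank ker (Z - Mᵀ) = finrank ker (Z - M)`: the two matrices are transposes of each other, `Matrix.rank_transpose`, rank-nullity
(`LinearMap.finrank_range_add_finrank_ker`, `Matrix.rank = finrank (range mulVecLin)`).
-/

open Complex Matrix

noncomputable section

namespace Pool.Agent.LT

variable {c : ℕ}

theorem finrank_ker_tr {n : ℕ} (A : Matrix (Fin n) (Fin n) ℂ) :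
    Module.finrank ℂ (LinearMap.ker (Matrix.mulVecLin Aᵀ)) = Module.finrank ℂ (LinearMap.ker (Matrix.mulVecLin A)) := by
  have h1 := LinearMap.finrank_range_add_finrank_ker (Matrix.mulVecLin Aᵀ)
  have h2 := LinearMap.finrank_range_add_finrank_ker (Matrix.mulVecLin A)
  have h3 : Module.finrank ℂ (LinearMap.range (Matrix.mulVecLin Aᵀ)) = Module.finrank ℂ (LinearMap.range (Matrix.mulVecLin A)) :=
    Matrix.rank_transpose A
  omega

/-- the transposed data -/
def Dat.tr (D : Dat c) : Dat c where
  z := D.z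
  im := D.im
  M := D.Mᵀ
  d := D.d
  hd := D.hd
  dM := D.dMᵀ
  hdM := fun i j => D.hdM j i
  g := D.g
  hg := D.hg
  hMg := by rw [Matrix.transpose_transpose]; exact D.hMg.symm
  rk := by
    have h := finrank_ker_tr (Matrix.diagonal D.z - D.M.map (fun q : ℚ => (q : ℂ)))
    rw [Matrix.transpose_sub, Matrix.diagonal_transpose, ← Matrix.transpose_map] at h
    rw [h]
    exact D.rk

theorem Dat.tr_Lt (D : Dat c) : D.tr.Lt = D.L := rfl

end Pool.Agent.LT
end

end
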