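import Mathlib
import Pool.Agent.Lib.MP_f58a57_nt.Defs

section

/-!
# MP_f58a57_nt, large transcendence degree, part D analysis (row lt-DD16): estimates for large `T`

`k ≥ T^(1/2+ε)`, so `k² ≥ T^(1+2ε) ≥ T`. (3): `C3^T = exp (T log C3)`, `T log C3 ≤ k² log C3`, so it is enough that `log C3 + T^(ε/2) c3² ≤ T^ε = (T^(ε/2))²`:
true if `T^(ε/2) ≥ 1 + c3² + log C3`. (1): `|c3| T^(ε/2) ≥ 1`. (2): `T^(ε/2) ≥ |c3|`.
(4): `C := CB + 4 CB (C1 + 1) / c3²`: `C1 ≤ c3² k²/(4 CB)` for `T` large, `C1 (k/C)² ≤ c3² k² / (4 CB)`, `k²/C ≤ c3² k² / (4 CB)`.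
-/

open Complex Matrix

noncomputable section

namespace Pool.Agent.LT

theorem est (c : ℕ) (ε c3 C1 C3 CB T1 : ℝ) (hε : 0 < ε) (hε1 : ε ≤ 1 / 20) (hc3 : c3 ≠ 0) (hC1 : 0 ≤ C1) (hC3 : 1 ≤ C3) (hCB : 1 ≤ CB) :
    ∃ C T0 : ℝ, 1 ≤ C ∧ T1 ≤ T0 ∧ ∀ T : ℕ, T0 ≤ (T : ℝ) → ∀ k : ℝ, (T : ℝ) ^ (1 / 2 + ε) ≤ k → k ≤ (T : ℝ) ^ ((c : ℝ) + 1 - ε) →
      0 < k ∧ (T : ℝ) ^ (1 / 2 + ε / 2) ≤ |c3| * k ∧ |c3| * k ≤ (T : ℝ) ^ ((c : ℝ) + 1 - ε / 2) ∧
      C3 ^ T * Real.exp (-((T : ℝ) ^ ε * k ^ 2)) ≤ Real.exp (-((T : ℝ) ^ (ε / 2) * (|c3| * k) ^ 2)) ∧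
      ∀ y : ℝ, |y| ≤ k / C → |c3 * y| ≤ |c3| * k / CB ∧
        Real.exp (-((|c3| * k) ^ 2 / CB)) * Real.exp (C1 * (1 + y ^ 2)) ≤ Real.exp (-(k ^ 2 / C)) := by
  have hA : 0 < |c3| := abs_pos.mpr hc3
  set A : ℝ := |c3| with hAdef
  have hA2 : 0 < A ^ 2 := by positivity
  have hL : 0 ≤ Real.log C3 := Real.log_nonneg hC3
  have hCB0 : 0 < CB := by linarith
  set C : ℝ := CB + 4 * CB * (C1 + 1) / A ^ 2 with hC
  set S : ℝ := 1 + A + 1 / A + A ^ 2 + Real.log C3 with hS
  have hS1 : 1 ≤ S := by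
    have : 0 < 1 / A := by positivity
    rw [hS]; linarith
  have hCge : CB ≤ C := by
    have : 0 ≤ 4 * CB * (C1 + 1) / A ^ 2 := by positivity
    rw [hC]; linarith
  have hC1' : 1 ≤ C := hCB.trans hCge
  have hC0 : 0 < C := by linarith
  have hCa : 4 * CB * (C1 + 1) / A ^ 2 ≤ C := by rw [hC]; linarith
  refine ⟨C, max T1 (max 1 (max (S ^ (2 / ε)) (4 * CB * C1 / A ^ 2))), hC1', le_max_left _ _, ?_⟩
  intro T hT k hk1 hk2
  have hT1 : (1 : ℝ) ≤ T := le_trans ((le_max_left _ _).trans (le_max_right _ _)) hT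
  have hTS : S ^ (2 / ε) ≤ (T : ℝ) :=
    le_trans ((le_max_left _ _).trans ((le_max_right _ _).trans (le_max_right _ _))) hT
  have hTC : 4 * CB * C1 / A ^ 2 ≤ (T : ℝ) :=
    le_trans ((le_max_right _ _).trans ((le_max_right _ _).trans (le_max_right _ _))) hT
  have hT0 : (0 : ℝ) < T := by linarith
  set X : ℝ := (T : ℝ) with hX
  set s : ℝ := X ^ (ε / 2) with hs
  have hsS : S ≤ s := by
    have h1 : (S ^ (2 / ε)) ^ (ε / 2) ≤ X ^ (ε / 2) :=
      Real.rpow_le_rpow (by positivity) hTS (by linarith)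
    have h2 : (S ^ (2 / ε)) ^ (ε / 2) = S := by
      rw [← Real.rpow_mul (by linarith)]
      have : 2 / ε * (ε / 2) = 1 := by field_simp
      rw [this, Real.rpow_one]
    rw [h2] at h1
    exact h1
  have hs1 : 1 ≤ s := hS1.trans hsS
  have hs0 : 0 < s := by linarith
  have hinv : 0 < 1 / A := by positivity
  have hsA : A ≤ s := by linarith [hsS]
  have hsiA : 1 / A ≤ s := by linarith [hsS]
  have hssq : s * s = X ^ ε := by
    rw [hs, ← Real.rpow_add hT0]; congr 1; ring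
  have hk0 : 0 < k := lt_of_lt_of_le (Real.rpow_pos_of_pos hT0 _) hk1
  have hkX : X ≤ k ^ 2 := by
    have h1 : (X ^ (1 / 2 + ε)) ^ 2 ≤ k ^ 2 := pow_le_pow_left₀ (by positivity) hk1 2
    have h2 : (X ^ (1 / 2 + ε)) ^ 2 = X ^ (1 + 2 * ε) := by
      rw [← Real.rpow_natCast, ← Real.rpow_mul hT0.le]; congr 1; push_cast; ring
    have h3 : X ^ (1 : ℝ) ≤ X ^ (1 + 2 * ε) := Real.rpow_le_rpow_of_exponent_le hT1 (by linarith)
    rw [Real.rpow_one] at h3
    linarith [h2 ▸ h1]
  refine ⟨hk0, ?_, ?_, ?_, ?_⟩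
  · -- (1)
    have h1 : X ^ (1 / 2 + ε) = X ^ (1 / 2 + ε / 2) * s := by
      rw [hs, ← Real.rpow_add hT0]; congr 1; ring
    have h2 : 1 ≤ A * s := by
      have := mul_le_mul_of_nonneg_left hsiA hA.le
      rwa [mul_one_div_cancel hA.ne'] at this
    have h3 : 0 ≤ X ^ (1 / 2 + ε / 2) := by positivity
    calc X ^ (1 / 2 + ε / 2) = X ^ (1 / 2 + ε / 2) * 1 := (mul_one _).symm
      _ ≤ X ^ (1 / 2 + ε / 2) * (A * s) := mul_le_mul_of_nonneg_left h2 h3
      _ = A * X ^ (1 / 2 + ε) := by rw [h1]; ring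
      _ ≤ A * k := mul_le_mul_of_nonneg_left hk1 hA.le
  · -- (2)
    have h1 : X ^ ((c : ℝ) + 1 - ε / 2) = X ^ ((c : ℝ) + 1 - ε) * s := by
      rw [hs, ← Real.rpow_add hT0]; congr 1; ring
    have h3 : 0 ≤ X ^ ((c : ℝ) + 1 - ε) := by positivity
    calc A * k ≤ s * X ^ ((c : ℝ) + 1 - ε) := mul_le_mul hsA hk2 hk0.le hs0.le
      _ = X ^ ((c : ℝ) + 1 - ε / 2) := by rw [h1]; ring
  · -- (3)
    have h1 : C3 ^ T = Real.exp (X * Real.log C3) := by
      rw [hX, Real.exp_nat_mul, Real.exp_log (by linarith)]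
    rw [h1, ← Real.exp_add, Real.exp_le_exp, ← hssq]
    have h2 : X * Real.log C3 ≤ k ^ 2 * Real.log C3 := mul_le_mul_of_nonneg_right hkX hL
    have h3 : Real.log C3 + s * A ^ 2 ≤ s * s := by
      have h4 : s * (1 + A ^ 2 + Real.log C3) ≤ s * s := by
        refine mul_le_mul_of_nonneg_left ?_ hs0.le
        linarith [hsS]
      have h5 : Real.log C3 ≤ s * Real.log C3 := le_mul_of_one_le_left hL hs1
      nlinarith
    have h6 : k ^ 2 * (Real.log C3 + s * A ^ 2) ≤ k ^ 2 * (s * s) := mul_le_mul_of_nonneg_left h3 (by positivity)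
    nlinarith
  · -- (4)
    intro y hy
    constructor
    · rw [abs_mul, ← hAdef]
      calc A * |y| ≤ A * (k / C) := mul_le_mul_of_nonneg_left hy hA.le
        _ ≤ A * (k / CB) := by
            refine mul_le_mul_of_nonneg_left ?_ hA.le
            exact div_le_div_of_nonneg_left hk0.le hCB0 hCge
        _ = A * k / CB := by ring
    · rw [← Real.exp_add, Real.exp_le_exp]
      have hy2 : y ^ 2 ≤ (k / C) ^ 2 := by
        rw [← sq_abs y]
        exact pow_le_pow_left₀ (abs_nonneg y) hy 2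
      have hq : 0 ≤ A ^ 2 * k ^ 2 / (4 * CB) := by positivity
      have e1 : C1 ≤ A ^ 2 * k ^ 2 / (4 * CB) := by
        rw [le_div_iff₀ (by positivity)]
        have h1 : 4 * CB * C1 / A ^ 2 ≤ k ^ 2 := hTC.trans hkX
        rw [div_le_iff₀ hA2] at h1
        linarith
      have e0 : (C1 + 1) * (k ^ 2 / C) ≤ A ^ 2 * k ^ 2 / (4 * CB) := by
        rw [mul_div_assoc', div_le_div_iff₀ hC0 (by positivity)]
        rw [div_le_iff₀ hA2] at hCa
        have hk2' : 0 ≤ k ^ 2 := by positivity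
        calc (C1 + 1) * k ^ 2 * (4 * CB) = (4 * CB * (C1 + 1)) * k ^ 2 := by ring
          _ ≤ (C * A ^ 2) * k ^ 2 := mul_le_mul_of_nonneg_right hCa hk2'
          _ = A ^ 2 * k ^ 2 * C := by ring
      have e2 : C1 * y ^ 2 ≤ C1 * (k ^ 2 / C) := by
        refine mul_le_mul_of_nonneg_left (hy2.trans ?_) hC1
        rw [div_pow]
        refine div_le_div_of_nonneg_left (by positivity) hC0 ?_
        nlinarith
      have e3 : (C1 + 1) * (k ^ 2 / C) = C1 * (k ^ 2 / C) + k ^ 2 / C := by ring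
      have e4 : (A * k) ^ 2 / CB = 4 * (A ^ 2 * k ^ 2 / (4 * CB)) := by
        rw [mul_pow]; field_simp
      rw [e4]
      nlinarith

end Pool.Agent.LT
end

end

section

/-!
# The covering lemma: boxes of large volume contain representatives modulo the integers of a number field
-/

open NumberField

noncomputable section

namespace Pool.Agent.LT


open NumberField.Units NumberField.Units.dirichletUnitTheorem in
open scoped Classical in
/-- units at bounded distance of any vector -/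
theorem Vg_near (L : Type) [Field L] [NumberField L] : ∃ B : ℝ, 0 ≤ B ∧ ∀ x : logSpace L,
    ∃ η : (𝓞 L)ˣ, ∀ w : {w : InfinitePlace L // w ≠ w₀},
      |(w.1.mult : ℝ) * Real.log (w.1 (η : L)) - x w| ≤ B := by
  let b := (basisUnitLattice L).ofZLatticeBasis ℝ (unitLattice L)
  refine ⟨∑ i, ‖b i‖, Finset.sum_nonneg fun i _ => norm_nonneg _, fun x => ?_⟩
  have h1 : (ZSpan.floor b x : logSpace L) ∈ unitLattice L := by
    have h2 := (ZSpan.floor b x).2
    exact (Module.Basis.ofZLatticeBasis_span ℝ (unitLattice L) (basisUnitLattice L)).le h2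
  obtain ⟨η, -, hη⟩ := Submodule.mem_map.mp h1
  refine ⟨η.toMul, fun w => ?_⟩
  have h3 : x - (ZSpan.floor b x : logSpace L) = ZSpan.fract b x := rfl
  have h4 := ZSpan.norm_fract_le b x
  have h5 : ‖(ZSpan.fract b x) w‖ ≤ ‖ZSpan.fract b x‖ := norm_le_pi_norm _ _
  have h6 : (ZSpan.fract b x) w = x w - (w.1.mult : ℝ) * Real.log (w.1 (η.toMul : L)) := by
    rw [← h3, ← hη]
    rfl
  rw [h6, Real.norm_eq_abs] at h5
  rw [abs_sub_comm]
  exact h5.trans h4

open NumberField.Units NumberField.Units.dirichletUnitTheorem in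
open scoped Classical in
/-- units below a vector -/
theorem Vg_main (L : Type) [Field L] [NumberField L] : ∃ C1 : ℝ, 0 < C1 ∧ ∀ t : InfinitePlace L → ℝ, 0 ≤ ∑ v, (v.mult : ℝ) * t v →
    ∃ η : (𝓞 L)ˣ, ∀ v : InfinitePlace L, Real.log (v (η : L)) ≤ t v + C1 := by
  obtain ⟨B, hB, hnear⟩ := Vg_near L
  set N : ℝ := (Fintype.card {w : InfinitePlace L // w ≠ w₀} : ℝ) with hN
  have hN0 : 0 ≤ N := Nat.cast_nonneg _
  refine ⟨N * B + B + 1, by positivity, fun t ht => ?_⟩
  have hmult : ∀ v : InfinitePlace L, (1 : ℝ) ≤ (v.mult : ℝ) := by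
    intro v
    exact_mod_cast Nat.one_le_iff_ne_zero.mpr v.mult_ne_zero
  set s : ℝ := ∑ v : InfinitePlace L, (v.mult : ℝ) with hs
  have hs0 : 0 < s := by
    have h1 : (0 : ℝ) < ((w₀ : InfinitePlace L).mult : ℝ) := lt_of_lt_of_le one_pos (hmult _)
    exact lt_of_lt_of_le h1 (Finset.single_le_sum (f := fun v : InfinitePlace L => (v.mult : ℝ))
      (fun v _ => le_trans zero_le_one (hmult v)) (Finset.mem_univ _))
  set c : ℝ := (∑ v, (v.mult : ℝ) * t v) / s with hc
  have hc0 : 0 ≤ c := div_nonneg ht hs0.le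
  have hsum : ∑ v : InfinitePlace L, (v.mult : ℝ) * (t v - c) = 0 := by
    have h1 : ∀ v : InfinitePlace L, (v.mult : ℝ) * (t v - c) = (v.mult : ℝ) * t v - (v.mult : ℝ) * c := fun v => by ring
    rw [Finset.sum_congr rfl fun v _ => h1 v, Finset.sum_sub_distrib, ← Finset.sum_mul, ← hs, hc]
    field_simp
    ring
  obtain ⟨η, hη⟩ := hnear fun w => (w.1.mult : ℝ) * (t w.1 - c)
  refine ⟨η, fun v => ?_⟩
  have key : ∀ (m a b e : ℝ), 1 ≤ m → m * a ≤ m * b + e → 0 ≤ e → a ≤ b + e := by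
    intro m a b e hm h he
    by_contra hcon
    rw [not_le] at hcon
    have h1 : m * (b + e) < m * a := mul_lt_mul_of_pos_left hcon (by linarith)
    nlinarith
  by_cases hv : v = w₀
  · have h1 := sum_mult_mul_log η
    rw [Fintype.sum_eq_add_sum_subtype_ne _ w₀] at h1 hsum
    have h2 : ∑ w : {w : InfinitePlace L // w ≠ w₀}, ((w.1.mult : ℝ) * (t w.1 - c) - (w.1.mult : ℝ) * Real.log (w.1 (η : L))) ≤
        N * B := by
      refine (Finset.sum_le_card_nsmul _ _ B fun w _ => ?_).trans (le_of_eq ?_)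
      · have h3 := abs_le.mp (hη w)
        linarith [h3.1]
      · rw [nsmul_eq_mul, hN, Finset.card_univ]
    rw [Finset.sum_sub_distrib] at h2
    subst hv
    have h4 : ((w₀ : InfinitePlace L).mult : ℝ) * Real.log (w₀ (η : L)) ≤
        ((w₀ : InfinitePlace L).mult : ℝ) * (t w₀ - c) + N * B := by
      linarith
    have h5 := key _ _ _ _ (hmult _) h4 (by positivity)
    linarith
  · have h3 := (abs_le.mp (hη ⟨v, hv⟩)).2
    have h4 : (v.mult : ℝ) * Real.log (v (η : L)) ≤ (v.mult : ℝ) * (t v - c) + B := by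
      have h5 : (v.mult : ℝ) * Real.log (v (η : L)) - (v.mult : ℝ) * (t v - c) ≤ B := h3
      linarith
    have h5 := key _ _ _ _ (hmult _) h4 hB
    have h6 : 0 ≤ N * B := by positivity
    linarith

/-- row Vg (units): the logarithms of the units are relatively dense in the hyperplane; so there is a unit below any vector of nonnegative sum,
up to a constant -/
theorem unit_below (L : Type) [Field L] [NumberField L] : ∃ C1 : ℝ, 0 < C1 ∧ ∀ t : InfinitePlace L → ℝ, 0 ≤ ∑ v, (v.mult : ℝ) * t v →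
    ∃ η : (𝓞 L)ˣ, ∀ v : InfinitePlace L, Real.log (v (η : L)) ≤ t v + C1 := by
  exact Vg_main L



/-- row Vh (compactness): the integers are relatively dense in `L ⊗ ℝ` -/
theorem int_dense (L : Type) [Field L] [NumberField L] : ∃ R0 : ℝ, 0 < R0 ∧ ∀ X : InfinitePlace L → ℂ, (∀ v, v.IsReal → (X v).im = 0) →
    ∃ l : 𝓞 L, ∀ v : InfinitePlace L, ‖X v - v.embedding (l : L)‖ ≤ R0 := by
  classical
  refine ⟨(∑ i, ‖mixedEmbedding.latticeBasis L i‖) + 1, by positivity, ?_⟩
  intro X hX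
  let x : mixedEmbedding.mixedSpace L := (fun w => (X w.1).re, fun w => X w.1)
  have hf : ‖ZSpan.fract (mixedEmbedding.latticeBasis L) x‖ ≤ ∑ i, ‖mixedEmbedding.latticeBasis L i‖ :=
    ZSpan.norm_fract_le (mixedEmbedding.latticeBasis L) x
  have hm : ((ZSpan.floor (mixedEmbedding.latticeBasis L) x : Submodule.span ℤ (Set.range (mixedEmbedding.latticeBasis L))) :
      mixedEmbedding.mixedSpace L) ∈ mixedEmbedding.integerLattice L :=
    (mixedEmbedding.mem_span_latticeBasis L).1 (ZSpan.floor (mixedEmbedding.latticeBasis L) x).2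
  obtain ⟨l, hl⟩ := hm
  refine ⟨l, ?_⟩
  have hl' : ((ZSpan.floor (mixedEmbedding.latticeBasis L) x : Submodule.span ℤ (Set.range (mixedEmbedding.latticeBasis L))) :
      mixedEmbedding.mixedSpace L) = mixedEmbedding L (l : L) := hl.symm
  rw [ZSpan.fract_apply, hl'] at hf
  intro v
  by_cases hv : v.IsReal
  · have h1 : ‖(x - mixedEmbedding L (l : L)).1 ⟨v, hv⟩‖ ≤ ‖x - mixedEmbedding L (l : L)‖ :=
      (norm_le_pi_norm _ _).trans (norm_fst_le _)
    have h2 : X v - v.embedding (l : L) = (((x - mixedEmbedding L (l : L)).1 ⟨v, hv⟩ : ℝ) : ℂ) := by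
      have h3 : (x - mixedEmbedding L (l : L)).1 ⟨v, hv⟩ = (X v).re - InfinitePlace.embedding_of_isReal hv (l : L) := by
        rw [Prod.fst_sub, Pi.sub_apply, mixedEmbedding.mixedEmbedding_apply_isReal]
      rw [h3, Complex.ofReal_sub, InfinitePlace.embedding_of_isReal_apply]
      congr 1
      apply Complex.ext
      · simp
      · simp [hX v hv]
    rw [h2, Complex.norm_real]
    linarith
  · have hc : v.IsComplex := InfinitePlace.not_isReal_iff_isComplex.1 hv
    have h1 : ‖(x - mixedEmbedding L (l : L)).2 ⟨v, hc⟩‖ ≤ ‖x - mixedEmbedding L (l : L)‖ :=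
      (norm_le_pi_norm _ _).trans (norm_snd_le _)
    have h2 : X v - v.embedding (l : L) = (x - mixedEmbedding L (l : L)).2 ⟨v, hc⟩ := by
      rw [Prod.snd_sub, Pi.sub_apply, mixedEmbedding.mixedEmbedding_apply_isComplex]
    rw [h2]
    linarith



/-- row Vi: the covering lemma -/
theorem cov_places (L : Type) [Field L] [NumberField L] : ∃ C : ℝ, 0 < C ∧ ∀ r : InfinitePlace L → ℝ, (∀ v, 0 < r v) → C ≤ ∏ v, r v ^ v.mult →
    ∀ X : InfinitePlace L → ℂ, (∀ v, v.IsReal → (X v).im = 0) → ∃ l : 𝓞 L, ∀ v : InfinitePlace L, ‖X v - v.embedding (l : L)‖ ≤ r v := by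
  obtain ⟨C1, hC1, hunit⟩ := unit_below L
  obtain ⟨R0, hR0, hint⟩ := int_dense L
  refine ⟨Real.exp (∑ v : InfinitePlace L, (v.mult : ℝ) * (Real.log R0 + C1)), Real.exp_pos _, ?_⟩
  intro r hr hC X hX
  have hprod : 0 < ∏ v, r v ^ v.mult := Finset.prod_pos (fun v _ => pow_pos (hr v) _)
  have hlog : ∑ v : InfinitePlace L, (v.mult : ℝ) * (Real.log R0 + C1) ≤ ∑ v : InfinitePlace L, (v.mult : ℝ) * Real.log (r v) := by
    have h1 := Real.log_le_log (Real.exp_pos _) hC
    rw [Real.log_exp, Real.log_prod (fun v _ => (pow_pos (hr v) _).ne')] at h1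
    refine h1.trans (le_of_eq ?_)
    refine Finset.sum_congr rfl (fun v _ => ?_)
    rw [Real.log_pow]
  obtain ⟨η, hη⟩ := hunit (fun v => Real.log (r v) - Real.log R0 - C1) (by
    have : ∑ v : InfinitePlace L, (v.mult : ℝ) * (Real.log (r v) - Real.log R0 - C1)
        = ∑ v : InfinitePlace L, (v.mult : ℝ) * Real.log (r v) - ∑ v : InfinitePlace L, (v.mult : ℝ) * (Real.log R0 + C1) := by
      rw [← Finset.sum_sub_distrib]
      refine Finset.sum_congr rfl (fun v _ => ?_)
      ring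
    rw [this]
    linarith)
  have hη0 : ((η : 𝓞 L) : L) ≠ 0 := by
    have h1 : (η : 𝓞 L) ≠ 0 := η.ne_zero
    simp
  have hb : ∀ v : InfinitePlace L, v ((η : 𝓞 L) : L) * R0 ≤ r v := by
    intro v
    have h1 := hη v
    have hv : 0 < v ((η : 𝓞 L) : L) := v.pos_iff.mpr hη0
    have h2 : Real.log (v ((η : 𝓞 L) : L)) + Real.log R0 ≤ Real.log (r v) := by linarith
    rw [← Real.log_mul hv.ne' hR0.ne'] at h2
    exact (Real.log_le_log_iff (mul_pos hv hR0) (hr v)).mp h2
  obtain ⟨l0, hl0⟩ := hint (fun v => X v / v.embedding ((η : 𝓞 L) : L)) (by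
    intro v hv
    have h1 : ComplexEmbedding.IsReal v.embedding := InfinitePlace.isReal_iff.mp hv
    have h2 : v.embedding ((η : 𝓞 L) : L) = ((h1.embedding ((η : 𝓞 L) : L) : ℝ) : ℂ) := (h1.coe_embedding_apply _).symm
    have h3 : (X v / v.embedding ((η : 𝓞 L) : L)).im = (X v).im / h1.embedding ((η : 𝓞 L) : L) := by
      rw [h2, Complex.div_ofReal_im]
    rw [h3, hX v hv, zero_div])
  refine ⟨(η : 𝓞 L) * l0, fun v => ?_⟩
  have hne : v.embedding ((η : 𝓞 L) : L) ≠ 0 := by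
    simp
  have h1 : X v - v.embedding (((η : 𝓞 L) * l0 : 𝓞 L) : L)
      = v.embedding ((η : 𝓞 L) : L) * (X v / v.embedding ((η : 𝓞 L) : L) - v.embedding (l0 : L)) := by
    have h2 : (((η : 𝓞 L) * l0 : 𝓞 L) : L) = ((η : 𝓞 L) : L) * (l0 : L) := rfl
    rw [h2, map_mul, mul_sub, mul_div_cancel₀ _ hne]
  rw [h1, norm_mul, InfinitePlace.norm_embedding_eq]
  refine (mul_le_mul_of_nonneg_left (hl0 v) (apply_nonneg v _)).trans (hb v)



theorem Vj_isReal_comp {L : Type} [Field L] (e : L →+* ℝ) : ComplexEmbedding.IsReal ((algebraMap ℝ ℂ).comp e : L →+* ℂ) := by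
  rw [ComplexEmbedding.isReal_iff]
  ext x
  simp [ComplexEmbedding.conjugate_coe_eq]

theorem Vj_notReal {L : Type} [Field L] {f : L →+* ℂ} (h : ∃ x, (f x).im ≠ 0) : ¬ ComplexEmbedding.IsReal f := by
  rintro hr
  obtain ⟨x, hx⟩ := h
  rw [ComplexEmbedding.isReal_iff] at hr
  have h1 := DFunLike.congr_fun hr x
  rw [ComplexEmbedding.conjugate_coe_eq] at h1
  exact hx (Complex.conj_eq_iff_im.mp h1)

/-- the list of the places -/
def Vj_tau {L : Type} [Field L] {p : ℕ} (e0 e1 : L →+* ℝ) (es : Fin p → (L →+* ℂ)) : Option (Option (Fin p)) → InfinitePlace L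
  | none => InfinitePlace.mk ((algebraMap ℝ ℂ).comp e0)
  | some none => InfinitePlace.mk ((algebraMap ℝ ℂ).comp e1)
  | some (some i) => InfinitePlace.mk (es i)

theorem Vj_tau_inj {L : Type} [Field L] {p : ℕ} (e0 e1 : L →+* ℝ) (h01 : e0 ≠ e1)
    (es : Fin p → (L →+* ℂ)) (hinj : Function.Injective es) (hnr : ∀ i, ∃ x, ((es i) x).im ≠ 0)
    (hcj : ∀ i j, (starRingEnd ℂ).comp (es i) ≠ es j) : Function.Injective (Vj_tau e0 e1 es) := by
  have hR0 : InfinitePlace.IsReal (InfinitePlace.mk ((algebraMap ℝ ℂ).comp e0)) := InfinitePlace.isReal_mk_iff.mpr (Vj_isReal_comp e0)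
  have hR1 : InfinitePlace.IsReal (InfinitePlace.mk ((algebraMap ℝ ℂ).comp e1)) := InfinitePlace.isReal_mk_iff.mpr (Vj_isReal_comp e1)
  have hN : ∀ i, ¬ InfinitePlace.IsReal (InfinitePlace.mk (es i)) := fun i h => Vj_notReal (hnr i) (InfinitePlace.isReal_mk_iff.mp h)
  have h01' : InfinitePlace.mk ((algebraMap ℝ ℂ).comp e0) ≠ InfinitePlace.mk ((algebraMap ℝ ℂ).comp e1) := by
    intro h
    rw [InfinitePlace.mk_eq_iff] at h
    have h2 : (algebraMap ℝ ℂ).comp e0 = (algebraMap ℝ ℂ).comp e1 := by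
      rcases h with h | h
      · exact h
      · rw [ComplexEmbedding.isReal_iff.mp (Vj_isReal_comp e0)] at h
        exact h
    refine h01 ?_
    ext x
    have h3 := DFunLike.congr_fun h2 x
    simpa using h3
  intro a b hab
  match a, b, hab with
  | none, none, _ => rfl
  | none, some none, h => exact absurd h h01'
  | none, some (some j), h =>
    exact absurd ((congrArg InfinitePlace.IsReal (show InfinitePlace.mk ((algebraMap ℝ ℂ).comp e0) = InfinitePlace.mk (es j) from h)).mp hR0) (hN j)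
  | some none, none, h => exact absurd h.symm h01'
  | some none, some none, _ => rfl
  | some none, some (some j), h =>
    exact absurd ((congrArg InfinitePlace.IsReal (show InfinitePlace.mk ((algebraMap ℝ ℂ).comp e1) = InfinitePlace.mk (es j) from h)).mp hR1) (hN j)
  | some (some i), none, h =>
    exact absurd ((congrArg InfinitePlace.IsReal (show InfinitePlace.mk ((algebraMap ℝ ℂ).comp e0) = InfinitePlace.mk (es i) from h.symm)).mp hR0) (hN i)
  | some (some i), some none, h =>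
    exact absurd ((congrArg InfinitePlace.IsReal (show InfinitePlace.mk ((algebraMap ℝ ℂ).comp e1) = InfinitePlace.mk (es i) from h.symm)).mp hR1) (hN i)
  | some (some i), some (some j), h =>
    have h' : InfinitePlace.mk (es i) = InfinitePlace.mk (es j) := h
    rw [InfinitePlace.mk_eq_iff] at h'
    rcases h' with h' | h'
    · rw [hinj h']
    · refine absurd ?_ (hcj i j)
      rw [← h']
      ext x
      simp [ComplexEmbedding.conjugate_coe_eq]

theorem Vj_tau_bij (L : Type) [Field L] [NumberField L] (p : ℕ) (hd : Module.finrank ℚ L = 2 * (p + 1)) (e0 e1 : L →+* ℝ) (h01 : e0 ≠ e1)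
    (es : Fin p → (L →+* ℂ)) (hinj : Function.Injective es) (hnr : ∀ i, ∃ x, ((es i) x).im ≠ 0)
    (hcj : ∀ i j, (starRingEnd ℂ).comp (es i) ≠ es j) : Function.Bijective (Vj_tau e0 e1 es) := by
  classical
  have hi := Vj_tau_inj e0 e1 h01 es hinj hnr hcj
  refine ⟨hi, ?_⟩
  have hR0 : InfinitePlace.IsReal (InfinitePlace.mk ((algebraMap ℝ ℂ).comp e0)) := InfinitePlace.isReal_mk_iff.mpr (Vj_isReal_comp e0)
  have hR1 : InfinitePlace.IsReal (InfinitePlace.mk ((algebraMap ℝ ℂ).comp e1)) := InfinitePlace.isReal_mk_iff.mpr (Vj_isReal_comp e1)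
  have hN : ∀ i, ¬ InfinitePlace.IsReal (InfinitePlace.mk (es i)) := fun i h => Vj_notReal (hnr i) (InfinitePlace.isReal_mk_iff.mp h)
  have hsum : ∑ a : Option (Option (Fin p)), (Vj_tau e0 e1 es a).mult = 2 * (p + 1) := by
    rw [Fintype.sum_option, Fintype.sum_option]
    have h0 : (Vj_tau e0 e1 es none).mult = 1 := by
      show InfinitePlace.mult (InfinitePlace.mk ((algebraMap ℝ ℂ).comp e0)) = 1
      rw [InfinitePlace.mult, if_pos hR0]
    have h1 : (Vj_tau e0 e1 es (some none)).mult = 1 := by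
      show InfinitePlace.mult (InfinitePlace.mk ((algebraMap ℝ ℂ).comp e1)) = 1
      rw [InfinitePlace.mult, if_pos hR1]
    have h2 : ∀ i, (Vj_tau e0 e1 es (some (some i))).mult = 2 := by
      intro i
      show InfinitePlace.mult (InfinitePlace.mk (es i)) = 2
      rw [InfinitePlace.mult, if_neg (hN i)]
    rw [h0, h1, Finset.sum_congr rfl (fun i _ => h2 i)]
    simp
    ring
  by_contra hs
  obtain ⟨v, hv⟩ := not_forall.mp hs
  have htot : ∑ w : InfinitePlace L, w.mult = 2 * (p + 1) := by rw [InfinitePlace.sum_mult_eq, hd]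
  have h1 : ∑ w ∈ Finset.univ.image (Vj_tau e0 e1 es), w.mult = 2 * (p + 1) := by
    rw [Finset.sum_image (fun a _ b _ h => hi h), hsum]
  have h2 : ∑ w ∈ Finset.univ.image (Vj_tau e0 e1 es), w.mult < ∑ w : InfinitePlace L, w.mult := by
    refine Finset.sum_lt_sum_of_subset (Finset.subset_univ _) (Finset.mem_univ v) ?_ InfinitePlace.mult_pos (fun _ _ _ => Nat.zero_le _)
    simp only [Finset.mem_image, Finset.mem_univ, true_and]
    exact hv
  omega

/-- row Vj: the covering lemma for a field with two real embeddings `e0`, `e1` and `p` pairs of complex embeddings `es i`, `conj (es i)` -/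
theorem cov_field (L : Type) [Field L] [NumberField L] (p : ℕ) (hd : Module.finrank ℚ L = 2 * (p + 1)) (e0 e1 : L →+* ℝ) (h01 : e0 ≠ e1)
    (es : Fin p → (L →+* ℂ)) (hinj : Function.Injective es) (hnr : ∀ i, ∃ x, ((es i) x).im ≠ 0)
    (hcj : ∀ i j, (starRingEnd ℂ).comp (es i) ≠ es j) :
    ∃ C : ℝ, 0 < C ∧ ∀ r ρ k : ℝ, 0 < r → 0 < ρ → 0 < k → C ≤ r * ρ ^ (2 * p) * k → ∀ (x : ℝ) (w : Fin p → ℂ) (y : ℝ),
      ∃ l : 𝓞 L, |x - e0 (l : L)| ≤ r ∧ (∀ i, ‖w i - es i (l : L)‖ ≤ ρ) ∧ |y - e1 (l : L)| ≤ k := by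
  classical
  obtain ⟨C, hC, hcov⟩ := cov_places L
  refine ⟨C, hC, fun r ρ k hr hρ hk hvol x w y => ?_⟩
  have hbij := Vj_tau_bij L p hd e0 e1 h01 es hinj hnr hcj
  have hR0 : InfinitePlace.IsReal (InfinitePlace.mk ((algebraMap ℝ ℂ).comp e0)) := InfinitePlace.isReal_mk_iff.mpr (Vj_isReal_comp e0)
  have hR1 : InfinitePlace.IsReal (InfinitePlace.mk ((algebraMap ℝ ℂ).comp e1)) := InfinitePlace.isReal_mk_iff.mpr (Vj_isReal_comp e1)
  have hN : ∀ i, ¬ InfinitePlace.IsReal (InfinitePlace.mk (es i)) := fun i h => Vj_notReal (hnr i) (InfinitePlace.isReal_mk_iff.mp h)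
  let σ : Option (Option (Fin p)) ≃ InfinitePlace L := Equiv.ofBijective _ hbij
  have hσ : ∀ a, σ a = Vj_tau e0 e1 es a := fun a => rfl
  let R : Option (Option (Fin p)) → ℝ := fun a => match a with
    | none => r
    | some none => k
    | some (some _) => ρ
  let Y : Option (Option (Fin p)) → ℂ := fun a => match a with
    | none => (x : ℂ)
    | some none => (y : ℂ)
    | some (some i) => if (InfinitePlace.mk (es i)).embedding = es i then w i else (starRingEnd ℂ) (w i)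
  have hRpos : ∀ a, 0 < R a := by
    intro a
    match a with
    | none => exact hr
    | some none => exact hk
    | some (some _) => exact hρ
  have hprod : ∏ v, (R (σ.symm v)) ^ v.mult = r * ρ ^ (2 * p) * k := by
    rw [← Equiv.prod_comp σ]
    simp only [Equiv.symm_apply_apply]
    rw [Fintype.prod_option, Fintype.prod_option]
    have h0 : (σ none).mult = 1 := by
      show InfinitePlace.mult (InfinitePlace.mk ((algebraMap ℝ ℂ).comp e0)) = 1
      rw [InfinitePlace.mult, if_pos hR0]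
    have h1 : (σ (some none)).mult = 1 := by
      show InfinitePlace.mult (InfinitePlace.mk ((algebraMap ℝ ℂ).comp e1)) = 1
      rw [InfinitePlace.mult, if_pos hR1]
    have h2 : ∀ i, (σ (some (some i))).mult = 2 := by
      intro i
      show InfinitePlace.mult (InfinitePlace.mk (es i)) = 2
      rw [InfinitePlace.mult, if_neg (hN i)]
    rw [h0, h1, Finset.prod_congr rfl (fun i _ => by rw [h2 i])]
    show r ^ 1 * (k ^ 1 * ∏ _i : Fin p, ρ ^ 2) = _
    rw [Finset.prod_const, Finset.card_univ, Fintype.card_fin, ← pow_mul]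
    ring
  obtain ⟨l, hl⟩ := hcov (fun v => R (σ.symm v)) (fun v => hRpos _) (by rw [hprod]; exact hvol) (fun v => Y (σ.symm v)) (by
    intro v hv
    obtain ⟨a, rfl⟩ := σ.surjective v
    rw [Equiv.symm_apply_apply]
    match a, hv with
    | none, _ => exact Complex.ofReal_im x
    | some none, _ => exact Complex.ofReal_im y
    | some (some i), hv => exact absurd hv (hN i))
  refine ⟨l, ?_, ?_, ?_⟩
  · have h := hl (σ none)
    simp only [Equiv.symm_apply_apply] at h
    have he : (σ none).embedding = (algebraMap ℝ ℂ).comp e0 := InfinitePlace.embedding_mk_eq_of_isReal (Vj_isReal_comp e0)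
    rw [he] at h
    have h' : ‖(x : ℂ) - ((e0 (l : L) : ℝ) : ℂ)‖ ≤ r := h
    rw [← Complex.ofReal_sub, Complex.norm_real, Real.norm_eq_abs] at h'
    exact h'
  · intro i
    have h := hl (σ (some (some i)))
    simp only [Equiv.symm_apply_apply] at h
    have h' : ‖(if (InfinitePlace.mk (es i)).embedding = es i then w i else (starRingEnd ℂ) (w i)) - (InfinitePlace.mk (es i)).embedding (l : L)‖ ≤ ρ := h
    by_cases hc : (InfinitePlace.mk (es i)).embedding = es i
    · rw [if_pos hc, hc] at h'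
      exact h'
    · rw [if_neg hc] at h'
      have hc2 : (InfinitePlace.mk (es i)).embedding = ComplexEmbedding.conjugate (es i) := by
        rcases InfinitePlace.embedding_mk_eq (es i) with h3 | h3
        · exact absurd h3 hc
        · exact h3
      rw [hc2, ComplexEmbedding.conjugate_coe_eq, ← map_sub, RCLike.norm_conj] at h'
      exact h'
  · have h := hl (σ (some none))
    simp only [Equiv.symm_apply_apply] at h
    have he : (σ (some none)).embedding = (algebraMap ℝ ℂ).comp e1 := InfinitePlace.embedding_mk_eq_of_isReal (Vj_isReal_comp e1)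
    rw [he] at h
    have h' : ‖(y : ℂ) - ((e1 (l : L) : ℝ) : ℂ)‖ ≤ k := h
    rw [← Complex.ofReal_sub, Complex.norm_real, Real.norm_eq_abs] at h'
    exact h'


end Pool.Agent.LT
end

end

section

/-! # A1: basic facts on e2, e4, e6, dl (MP_f58a57_nt) -/

open Complex ModularForm EisensteinSeries Filter
open UpperHalfPlane hiding I
open scoped Topology MatrixGroups

noncomputable section

namespace Pool.Agent.MSD

theorem a1b_qParam (z : ℂ) : Function.Periodic.qParam 1 z = qq z := by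
  simp [Function.Periodic.qParam, qq]

theorem a1b_bern4 : bernoulli 4 = -1 / 30 := by
  rw [bernoulli_eq_bernoulli'_of_ne_one (by norm_num), bernoulli'_four]

theorem a1b_bern6 : bernoulli 6 = 1 / 42 := by
  rw [bernoulli_eq_bernoulli'_of_ne_one (by norm_num)]
  have h5 : bernoulli' 5 = 0 := bernoulli'_eq_zero_of_odd (by decide) (by norm_num)
  rw [bernoulli'_def]
  have h2 : Nat.choose 6 2 = 15 := by decide
  have h4 : Nat.choose 6 4 = 15 := by decide
  have h3 : Nat.choose 6 3 = 20 := by decide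
  norm_num [Finset.sum_range_succ, h2, h3, h4, h5]

/-- A1a. Holomorphy. (Mathlib: `E2_mdifferentiable`, modular forms are holomorphic, `UpperHalfPlane.mdifferentiable_iff`.) -/
theorem e2_diff : DifferentiableOn ℂ e2 {z | 0 < z.im} :=
  UpperHalfPlane.mdifferentiable_iff.mp E2_mdifferentiable

theorem e4_diff : DifferentiableOn ℂ e4 {z | 0 < z.im} :=
  UpperHalfPlane.mdifferentiable_iff.mp (ModularFormClass.holo E₄)

theorem e6_diff : DifferentiableOn ℂ e6 {z | 0 < z.im} :=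
  UpperHalfPlane.mdifferentiable_iff.mp (ModularFormClass.holo E₆)

theorem dl_diff : DifferentiableOn ℂ dl {z | 0 < z.im} :=
  ((e4_diff.pow 3).sub (e6_diff.pow 2)).div_const 1728

/-- A1b. `dl` is Mathlib's discriminant (`ModularForm.discriminant_eq_E₄_cube_sub_E₆_sq`), which has no zero
(`ModularForm.discriminant_ne_zero`). -/
theorem dl_eq (z : ℍ) : dl z = ModularForm.discriminant z := by
  rw [ModularForm.discriminant_eq_E₄_cube_sub_E₆_sq]
  simp [dl, e4, e6, ofComplex_apply]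

theorem dl_ne_zero (z : ℂ) (hz : 0 < z.im) : dl z ≠ 0 := by
  have h := ModularForm.discriminant_ne_zero ⟨z, hz⟩
  rw [← dl_eq] at h
  exact h

/-- A1c. Integer `q`-expansions. `e2 = 1 - 24 Σ σ₁(n) qⁿ` (`E2_eq_tsum_cexp`, `hasSum_qExpansion_E2`),
`e4 = 1 + 240 Σ σ₃(n) qⁿ`, `e6 = 1 - 504 Σ σ₅(n) qⁿ` (`EisensteinSeries.E_qExpansion_coeff`,
`ModularFormClass.hasSum_qExpansion`; `bernoulli 4 = -1/30`, `bernoulli 6 = 1/42`). -/
theorem e2_q : ∃ c : ℕ → ℤ, QExp c e2 ∧ c 0 = 1 := by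
  refine ⟨fun n => if n = 0 then 1 else -24 * (ArithmeticFunction.sigma 1 n : ℤ), ?_, by simp⟩
  intro z hz
  have h := hasSum_qExpansion_E2 (z := ⟨z, hz⟩)
  have he : E2 ⟨z, hz⟩ = e2 z := by
    rw [e2, ofComplex_apply_of_im_pos hz]
  rw [he] at h
  refine h.congr_fun ?_
  intro m
  by_cases hm : m = 0
  · simp [hm, qq]
  · simp [hm, qq]

theorem e4_q : ∃ c : ℕ → ℤ, QExp c e4 ∧ c 0 = 1 := by
  refine ⟨fun n => if n = 0 then 1 else 240 * (ArithmeticFunction.sigma 3 n : ℤ), ?_, by simp⟩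
  intro z hz
  have h := ModularForm.hasSum_qExpansion (f := E₄) one_pos one_mem_strictPeriods_SL ⟨z, hz⟩
  have h2 : ∀ m : ℕ, (qExpansion 1 (E₄ : ℍ → ℂ)).coeff m =
      (((if m = 0 then 1 else 240 * (ArithmeticFunction.sigma 3 m : ℤ)) : ℤ) : ℂ) := by
    intro m
    have := EisensteinSeries.E_qExpansion_coeff (k := 4) (by norm_num) (by decide) m
    rw [this, a1b_bern4]
    by_cases hm : m = 0
    · simp [hm]
    · simp only [hm, if_false]
      push_cast
      norm_num
  have he : E₄ ⟨z, hz⟩ = e4 z := by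
    rw [e4, ofComplex_apply_of_im_pos hz]
  rw [he] at h
  refine h.congr_fun ?_
  intro m
  rw [h2 m, ← a1b_qParam z]

theorem e6_q : ∃ c : ℕ → ℤ, QExp c e6 ∧ c 0 = 1 := by
  refine ⟨fun n => if n = 0 then 1 else -504 * (ArithmeticFunction.sigma 5 n : ℤ), ?_, by simp⟩
  intro z hz
  have h := ModularForm.hasSum_qExpansion (f := E₆) one_pos one_mem_strictPeriods_SL ⟨z, hz⟩
  have h2 : ∀ m : ℕ, (qExpansion 1 (E₆ : ℍ → ℂ)).coeff m =
      (((if m = 0 then 1 else -504 * (ArithmeticFunction.sigma 5 m : ℤ)) : ℤ) : ℂ) := by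
    intro m
    have := EisensteinSeries.E_qExpansion_coeff (k := 6) (by norm_num) (by decide) m
    rw [this, a1b_bern6]
    by_cases hm : m = 0
    · simp [hm]
    · simp only [hm, if_false]
      push_cast
      norm_num
  have he : E₆ ⟨z, hz⟩ = e6 z := by
    rw [e6, ofComplex_apply_of_im_pos hz]
  rw [he] at h
  refine h.congr_fun ?_
  intro m
  rw [h2 m, ← a1b_qParam z]

end Pool.Agent.MSD
end

end
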