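import Mathlib
import Pool.Agent.Lib.MP_f58a57_nt.LK.K008
import Pool.Agent.Lib.MP_f58a57_nt.LK.K009
import Pool.Agent.Lib.MP_f58a57_nt.LK.K010

namespace Pool.Agent.LT.DA
end Pool.Agent.LT.DA

section

/-!
# MP_f58a57_nt, pairs of special points: definitions

Flat functions of one curve with period ratio `τ`: the theta function `th τ`, the numerators `N0, N1, N2`,
`ph = th'/th` and `wp = -ph' - s` (the Weierstrass function of `ℤ + ℤτ` if `s = (π²/3) E₂(τ)`).
-/

open Complex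

noncomputable section

namespace Pool.Agent.MSP

/-- `e^{2πix}` -/
def ee (x : ℂ) : ℂ := cexp (2 * Real.pi * I * x)

/-- the product part of the theta function -/
def thp (τ t : ℂ) : ℂ := ∏' n : ℕ, ((1 - ee ((n + 1) * τ + t)) * (1 - ee ((n + 1) * τ - t)))

/-- `sin(πt) ∏_{n ≥ 1} (1 - pⁿ e^{2πit})(1 - pⁿ e^{-2πit})`, `p = e^{2πiτ}` -/
def th (τ t : ℂ) : ℂ := Complex.sin (Real.pi * t) * thp τ t

/-- the numerators -/
def N0 (τ t : ℂ) : ℂ := th τ t

def N1 (τ t : ℂ) : ℂ := deriv (th τ) t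

def N2 (τ s t : ℂ) : ℂ := deriv (th τ) t ^ 2 - th τ t * deriv (deriv (th τ)) t - s * th τ t ^ 2

/-- `th'/th` -/
def ph (τ t : ℂ) : ℂ := N1 τ t / N0 τ t

/-- `- (th'/th)' - s` -/
def wp (τ s t : ℂ) : ℂ := N2 τ s t / N0 τ t ^ 2

/-- the automorphy factor of `th` for the translation by `m + nτ` -/
def au (τ : ℂ) (m n : ℤ) (t : ℂ) : ℂ :=
  (-1 : ℂ) ^ (m + n) * cexp (-(Real.pi * I * (n : ℂ) ^ 2 * τ) - 2 * Real.pi * I * n * t)

/-- the value of `s` for which `wp` is the Weierstrass function -/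
def sE (τ : ℂ) : ℂ := (Real.pi : ℂ) ^ 2 / 3 * MSD.e2 τ

/-- one curve (flat) -/
structure Cv where
  τ : ℂ
  s : ℂ
  im : 0 < τ.im

/-- parameters of the auxiliary function: degree `L` in the two Weierstrass functions, degrees `d₁, d₂, d₃` in the three
linear coordinates `x₁, x₂, x₃` -/
structure Pr where
  L : ℕ
  d₁ : ℕ
  d₂ : ℕ
  d₃ : ℕ
  a₁ : ℤ
  a₂ : ℤ
  b₁ : ℤ
  b₂ : ℤ

namespace Pr

/-- total degree in the linear coordinates -/
def l (P : Pr) : ℕ := P.d₁ + P.d₂ + P.d₃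

/-- the power of the theta functions that clears the denominators -/
def M (P : Pr) : ℕ := 2 * P.L + P.l

/-- size of the coefficients of the linear coordinates -/
def A (P : Pr) : ℝ := 2 + |(P.a₁ : ℝ)| + |(P.a₂ : ℝ)| + |(P.b₁ : ℝ)| + |(P.b₂ : ℝ)|

/-- index set of the monomials: `(a, b, κ₁, κ₂, κ₃)` -/
def box (P : Pr) : Finset (ℕ × ℕ × ℕ × ℕ × ℕ) :=
  Finset.range (P.L + 1) ×ˢ Finset.range (P.L + 1) ×ˢ Finset.range (P.d₁ + 1) ×ˢ Finset.range (P.d₂ + 1) ×ˢ
    Finset.range (P.d₃ + 1)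

/-- standing assumptions -/
structure Good (P : Pr) : Prop where
  det : P.a₁ * P.b₁ + P.a₂ * P.b₂ = 1
  hL : 1 ≤ P.L
  hl : P.l ≤ P.L
  hA : P.A ^ P.l ≤ Real.exp P.L

end Pr

/-- `y₁ = -ph₁(t)/(2πi)` times `th₁(t) th₂(w)` -/
def Z1 (c₁ c₂ : Cv) (t w : ℂ) : ℂ := -(N1 c₁.τ t * N0 c₂.τ w) / (2 * Real.pi * I)

/-- `y₂ = -ph₂(w)/(2πi)` times `th₁(t) th₂(w)` -/
def Z2 (c₁ c₂ : Cv) (t w : ℂ) : ℂ := -(N0 c₁.τ t * N1 c₂.τ w) / (2 * Real.pi * I)

/-- `y₃ = (w - t) - τ₂ y₂ + τ₁ y₁` times `th₁(t) th₂(w)` -/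
def Z3 (c₁ c₂ : Cv) (t w : ℂ) : ℂ :=
  (w - t) * (N0 c₁.τ t * N0 c₂.τ w) - c₂.τ * Z2 c₁ c₂ t w + c₁.τ * Z1 c₁ c₂ t w

/-- the monomial with index `ν`, with the linear coordinates shifted by `k`, times `(th₁(t) th₂(w))^M` -/
def Gmon (c₁ c₂ : Cv) (P : Pr) (k : Fin 3 → ℂ) (ν : ℕ × ℕ × ℕ × ℕ × ℕ) (t w : ℂ) : ℂ :=
  N2 c₁.τ c₁.s t ^ ν.1 * N0 c₁.τ t ^ (2 * (P.L - ν.1)) *
  (N2 c₂.τ c₂.s w ^ ν.2.1 * N0 c₂.τ w ^ (2 * (P.L - ν.2.1))) *
  ((Z3 c₁ c₂ t w + k 0 * (N0 c₁.τ t * N0 c₂.τ w)) ^ ν.2.2.1 *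
   (P.b₂ * Z1 c₁ c₂ t w - P.b₁ * Z2 c₁ c₂ t w + k 1 * (N0 c₁.τ t * N0 c₂.τ w)) ^ ν.2.2.2.1 *
   (P.a₁ * Z1 c₁ c₂ t w + P.a₂ * Z2 c₁ c₂ t w + k 2 * (N0 c₁.τ t * N0 c₂.τ w)) ^ ν.2.2.2.2) *
  (N0 c₁.τ t * N0 c₂.τ w) ^ (P.l - (ν.2.2.1 + ν.2.2.2.1 + ν.2.2.2.2))

/-- the entire function `(th₁ th₂)^M F`, with shift `k` -/
def Gs (c₁ c₂ : Cv) (P : Pr) (k : Fin 3 → ℂ) (coef : ℕ × ℕ × ℕ × ℕ × ℕ → ℂ) (t w : ℂ) : ℂ :=
  ∑ ν ∈ P.box, coef ν * Gmon c₁ c₂ P k ν t w

/-- the entire function `(th₁ th₂)^M F` -/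
def GG (c₁ c₂ : Cv) (P : Pr) (coef : ℕ × ℕ × ℕ × ℕ × ℕ → ℂ) (t w : ℂ) : ℂ := Gs c₁ c₂ P 0 coef t w

/-- the linear coordinates -/
def xx (c₁ c₂ : Cv) (P : Pr) (i : Fin 3) (t w : ℂ) : ℂ :=
  ![(w - t) + c₂.τ * (ph c₂.τ w / (2 * Real.pi * I)) - c₁.τ * (ph c₁.τ t / (2 * Real.pi * I)),
    -(P.b₂ * (ph c₁.τ t / (2 * Real.pi * I))) + P.b₁ * (ph c₂.τ w / (2 * Real.pi * I)),
    -(P.a₁ * (ph c₁.τ t / (2 * Real.pi * I))) - P.a₂ * (ph c₂.τ w / (2 * Real.pi * I))] i

/-- the auxiliary function -/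
def FF (c₁ c₂ : Cv) (P : Pr) (coef : ℕ × ℕ × ℕ × ℕ × ℕ → ℂ) (t w : ℂ) : ℂ :=
  ∑ ν ∈ P.box, coef ν * (wp c₁.τ c₁.s t ^ ν.1 * wp c₂.τ c₂.s w ^ ν.2.1 *
    (xx c₁ c₂ P 0 t w ^ ν.2.2.1 * xx c₁ c₂ P 1 t w ^ ν.2.2.2.1 * xx c₁ c₂ P 2 t w ^ ν.2.2.2.2))

/-- mixed partial derivatives -/
def dd (r s : ℕ) (G : ℂ → ℂ → ℂ) (t w : ℂ) : ℂ :=
  iteratedDeriv r (fun t' => iteratedDeriv s (G t') w) t

/-- joint analyticity at a point -/
def An2 (G : ℂ → ℂ → ℂ) (t w : ℂ) : Prop := AnalyticAt ℂ (fun p : ℂ × ℂ => G p.1 p.2) (t, w)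

/-- Taylor coefficients along the diagonal: `G(t, t + z) = ∑ gm G m t z^m` -/
def gm (G : ℂ → ℂ → ℂ) (m : ℕ) (t : ℂ) : ℂ := iteratedDeriv m (G t) t / (m.factorial : ℂ)

/-- the length of an integer polynomial -/
def len (p : Polynomial ℤ) : ℝ := ∑ i ∈ p.support, |((p.coeff i : ℤ) : ℝ)|

/-- the length of an integer polynomial in several variables -/
def mlen {σ : Type*} (p : MvPolynomial σ ℤ) : ℝ := ∑ m ∈ p.support, |((p.coeff m : ℤ) : ℝ)|

/-- bounds for the two partial degrees and the length -/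
structure Bd {r s : ℕ} (D l : ℕ) (H : ℝ) (p : MvPolynomial (Fin r ⊕ Fin s) ℤ) : Prop where
  dA : ∀ m ∈ p.support, ∑ i, m (Sum.inl i) ≤ D
  dB : ∀ m ∈ p.support, ∑ j, m (Sum.inr j) ≤ l
  h : mlen p ≤ H

end Pool.Agent.MSP
end

end

section

/-! # T1: the theta product converges and is entire (MP_f58a57_nt, pairs) -/

open Complex Filter Topology

noncomputable section

namespace Pool.Agent.MSP

/-- the deviation of the factor from one -/
def t1_u (τ : ℂ) (n : ℕ) (t : ℂ) : ℂ :=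
  (1 - ee ((n + 1) * τ + t)) * (1 - ee ((n + 1) * τ - t)) - 1

theorem t1_norm_ee (x : ℂ) : ‖ee x‖ = Real.exp (-(2 * Real.pi * x.im)) := by
  rw [ee, Complex.norm_exp]
  congr 1
  have : (2 * (Real.pi : ℂ) * I * x) = ((2 * Real.pi : ℝ) : ℂ) * (I * x) := by push_cast; ring
  rw [this, Complex.re_ofReal_mul]
  simp

theorem t1_fact (τ : ℂ) (n : ℕ) (t : ℂ) :
    (1 - ee ((n + 1) * τ + t)) * (1 - ee ((n + 1) * τ - t)) = 1 + t1_u τ n t := by
  rw [t1_u]; ring

theorem t1_bound {τ : ℂ} (hτ : 0 < τ.im) {R : ℝ} {t : ℂ} (ht : |t.im| ≤ R) (n : ℕ) :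
    ‖t1_u τ n t‖ ≤ (3 * Real.exp (2 * (2 * Real.pi * R))) * Real.exp (-(2 * Real.pi * τ.im)) ^ (n + 1) := by
  have hpi := Real.pi_pos
  set r := Real.exp (-(2 * Real.pi * τ.im)) with hr
  set E := Real.exp (2 * Real.pi * R) with hE
  have hR : 0 ≤ R := (abs_nonneg _).trans ht
  have hr0 : 0 < r := Real.exp_pos _
  have hr1 : r ≤ 1 := by
    rw [hr]
    apply Real.exp_le_one_iff.2
    have : 0 ≤ 2 * Real.pi * τ.im := by positivity
    linarith
  have hE1 : 1 ≤ E := Real.one_le_exp (by positivity)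
  have hEE : Real.exp (2 * (2 * Real.pi * R)) = E ^ 2 := by
    rw [hE, ← Real.exp_nat_mul]
    congr 1
  have key : ∀ s : ℂ, |s.im| ≤ R → ‖ee ((n + 1) * τ + s)‖ ≤ r ^ (n + 1) * E := by
    intro s hs
    rw [t1_norm_ee, hr, hE, ← Real.exp_nat_mul, ← Real.exp_add]
    apply Real.exp_le_exp.2
    have h1 : (((n : ℂ) + 1) * τ + s).im = (n + 1) * τ.im + s.im := by
      simp
    rw [h1]
    have h2 := neg_abs_le s.im
    push_cast
    nlinarith
  have h1 := key t ht
  have h2 : ‖ee ((n + 1) * τ - t)‖ ≤ r ^ (n + 1) * E := by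
    rw [sub_eq_add_neg]
    exact key (-t) (by simpa using ht)
  have h3 : t1_u τ n t = -ee ((n + 1) * τ + t) + (-ee ((n + 1) * τ - t)) +
      ee ((n + 1) * τ + t) * ee ((n + 1) * τ - t) := by
    rw [t1_u]; ring
  have hp0 : 0 ≤ r ^ (n + 1) := by positivity
  have hp1 : r ^ (n + 1) ≤ 1 := pow_le_one₀ hr0.le hr1
  rw [h3, hEE]
  refine (norm_add₃_le).trans ?_
  rw [norm_neg, norm_neg, norm_mul]
  have h4 : ‖ee ((n + 1) * τ + t)‖ * ‖ee ((n + 1) * τ - t)‖ ≤ (r ^ (n + 1) * E) * (r ^ (n + 1) * E) :=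
    mul_le_mul h1 h2 (norm_nonneg _) (by positivity)
  have h5 : (r ^ (n + 1) * E) * (r ^ (n + 1) * E) ≤ r ^ (n + 1) * E ^ 2 := by
    have : (r ^ (n + 1) * E) * (r ^ (n + 1) * E) = r ^ (n + 1) * (r ^ (n + 1) * E ^ 2) := by ring
    rw [this]
    apply mul_le_mul_of_nonneg_left _ hp0
    have hE2 : 0 ≤ E ^ 2 := by positivity
    nlinarith
  have h6 : r ^ (n + 1) * E ≤ r ^ (n + 1) * E ^ 2 := by
    apply mul_le_mul_of_nonneg_left _ hp0
    nlinarith
  linarith

theorem t1_summable_geom {τ : ℂ} (hτ : 0 < τ.im) (C : ℝ) :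
    Summable fun n : ℕ => C * Real.exp (-(2 * Real.pi * τ.im)) ^ (n + 1) := by
  have hpi := Real.pi_pos
  have hr1 : Real.exp (-(2 * Real.pi * τ.im)) < 1 := by
    rw [Real.exp_lt_one_iff]
    have : 0 < 2 * Real.pi * τ.im := by positivity
    linarith
  exact (((summable_nat_add_iff 1).2
    (summable_geometric_of_lt_one (Real.exp_pos _).le hr1))).mul_left C

theorem t1_summable {τ : ℂ} (hτ : 0 < τ.im) (t : ℂ) : Summable fun n : ℕ => ‖t1_u τ n t‖ :=
  Summable.of_nonneg_of_le (fun _ => norm_nonneg _) (fun n => t1_bound hτ le_rfl n)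
    (t1_summable_geom hτ _)

/-- T1a. PROOF. The factors are `1 + u_n` with `|u_n| ≤ C |p|^{n+1}`, `|p| = |ee τ| < 1` (for fixed `t`), so summable;
`multipliable_one_add_of_summable` or the like. -/
theorem thp_multipliable (τ : ℂ) (hτ : 0 < τ.im) (t : ℂ) :
    Multipliable (fun n : ℕ => (1 - ee ((n + 1) * τ + t)) * (1 - ee ((n + 1) * τ - t))) := by
  simp_rw [t1_fact]
  exact Complex.multipliable_one_add_of_summable (t1_summable hτ t).of_norm

/-- T1b. The product of nonzero factors is nonzero. PROOF. `tprod_one_add_ne_zero_of_summable` (see the proof of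
`ModularForm.eta_tprod_ne_zero` in Mathlib). -/
theorem thp_ne_zero (τ : ℂ) (hτ : 0 < τ.im) (t : ℂ)
    (h : ∀ n : ℕ, ee ((n + 1) * τ + t) ≠ 1 ∧ ee ((n + 1) * τ - t) ≠ 1) : thp τ t ≠ 0 := by
  unfold thp
  simp_rw [t1_fact]
  refine tprod_one_add_ne_zero_of_summable (f := fun n => t1_u τ n t) ?_ (t1_summable hτ t)
  intro n
  rw [← t1_fact]
  exact mul_ne_zero (sub_ne_zero.2 (h n).1.symm) (sub_ne_zero.2 (h n).2.symm)

theorem t1_u_differentiable (τ : ℂ) (n : ℕ) : Differentiable ℂ (t1_u τ n) := by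
  unfold t1_u ee
  fun_prop

/-- T1c. PROOF. The product converges locally uniformly in `t` (on bounded sets `|u_n(t)| ≤ C |p|^{n+1}`); Mathlib's
`Summable.hasProdLocallyUniformlyOn_...`, cf. `ModularForm.multipliableLocallyUniformlyOn_eta`,
`differentiableOn_tprod...`. -/
theorem thp_differentiable (τ : ℂ) (hτ : 0 < τ.im) : Differentiable ℂ (thp τ) := by
  intro t
  set R : ℝ := |t.im| + 1 with hR
  have hK : IsOpen {s : ℂ | |s.im| < R} :=
    isOpen_lt (continuous_abs.comp Complex.continuous_im) continuous_const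
  have h1 := Summable.hasProdLocallyUniformlyOn_nat_one_add (f := fun n s => t1_u τ n s) hK
    (t1_summable_geom hτ (3 * Real.exp (2 * (2 * Real.pi * R))))
    (Eventually.of_forall fun n s hs => t1_bound hτ (le_of_lt hs) n)
    (fun n => (t1_u_differentiable τ n).continuous.continuousOn)
  have h2 : DifferentiableOn ℂ (fun s => ∏' n : ℕ, (1 + t1_u τ n s)) {s : ℂ | |s.im| < R} := by
    refine h1.differentiableOn (Eventually.of_forall fun s => ?_) hK
    have h3 : Differentiable ℂ (fun x => ∏ i ∈ s, (1 + t1_u τ i x)) := by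
      have h4 : ∀ i ∈ s, Differentiable ℂ (fun x => 1 + t1_u τ i x) :=
        fun i _ => (t1_u_differentiable τ i).const_add 1
      exact Differentiable.fun_finsetProd h4
    exact h3.differentiableOn
  have h5 : thp τ = fun s => ∏' n : ℕ, (1 + t1_u τ n s) := by
    funext s
    unfold thp
    simp_rw [t1_fact]
  rw [h5]
  exact h2.differentiableAt (hK.mem_nhds (by simp [hR]))

theorem th_differentiable (τ : ℂ) (hτ : 0 < τ.im) : Differentiable ℂ (th τ) := by
  unfold th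
  exact (Complex.differentiable_sin.comp (differentiable_id.const_mul _)).mul (thp_differentiable τ hτ)

end Pool.Agent.MSP
end

end

section

/-! # T2: functional equations of the theta function (MP_f58a57_nt, pairs) -/

open Complex Filter Topology

noncomputable section

namespace Pool.Agent.MSP

/-- T2a. `sin` is odd, the two factors of each term of `thp` are exchanged. -/
theorem th_neg (τ t : ℂ) : th τ (-t) = -th τ t := by
  have h : thp τ (-t) = thp τ t := by
    unfold thp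
    refine tprod_congr fun n => ?_
    rw [mul_comm, sub_neg_eq_add, ← sub_eq_add_neg]
  unfold th
  rw [h, mul_neg, Complex.sin_neg, neg_mul]

theorem t2_ee_add (x y : ℂ) : ee (x + y) = ee x * ee y := by
  unfold ee
  rw [← Complex.exp_add]
  ring_nf

theorem t2_ee_one : ee 1 = 1 := by
  unfold ee
  rw [mul_one]
  exact Complex.exp_two_pi_mul_I

theorem t2_ee_add_one (x : ℂ) : ee (x + 1) = ee x := by
  rw [t2_ee_add, t2_ee_one, mul_one]

theorem t2_ee_sub_one (x : ℂ) : ee (x - 1) = ee x := by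
  have h := t2_ee_add_one (x - 1)
  rw [sub_add_cancel] at h
  exact h.symm

/-- T2b. `ee (x + 1) = ee x`, `sin(π(t+1)) = -sin(πt)`. -/
theorem th_add_one (τ t : ℂ) : th τ (t + 1) = -th τ t := by
  have h : thp τ (t + 1) = thp τ t := by
    unfold thp
    refine tprod_congr fun n => ?_
    rw [← add_assoc, t2_ee_add_one, ← sub_sub, t2_ee_sub_one]
  unfold th
  rw [h, mul_add, mul_one, Complex.sin_add_pi, neg_mul]

theorem t2_norm_ee (x : ℂ) : ‖ee x‖ = Real.exp (-(2 * Real.pi * x.im)) := by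
  unfold ee
  rw [Complex.norm_exp]
  congr 1
  simp

theorem t2_mul (τ : ℂ) (hτ : 0 < τ.im) (t : ℂ) :
    Multipliable (fun n : ℕ => 1 - ee ((n + 1) * τ + t)) := by
  have h : Summable (fun n : ℕ => ‖-ee ((n + 1) * τ + t)‖) := by
    have h0 : (fun n : ℕ => ‖-ee ((n + 1) * τ + t)‖) =
        fun n : ℕ => Real.exp (-(2 * Real.pi * (τ.im + t.im))) * Real.exp (-(2 * Real.pi * τ.im)) ^ n := by
      funext n
      rw [norm_neg, t2_norm_ee, ← Real.exp_nat_mul, ← Real.exp_add]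
      congr 1
      simp
      ring
    rw [h0]
    refine Summable.mul_left _ (summable_geometric_of_lt_one (Real.exp_pos _).le ?_)
    rw [Real.exp_lt_one_iff]
    have := Real.pi_pos
    have : 0 < 2 * Real.pi * τ.im := by positivity
    linarith
  have h1 := multipliable_one_add_of_summable h
  refine h1.congr ?_
  intro n
  ring

theorem t2_A (τ : ℂ) (hτ : 0 < τ.im) (t : ℂ) :
    ∏' n : ℕ, (1 - ee ((n + 1) * τ + t)) = (1 - ee (t + τ)) * ∏' n : ℕ, (1 - ee ((n + 1) * τ + (t + τ))) := by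
  have e : ∀ n : ℕ, (1 - ee (((n + 1 : ℕ) + 1) * τ + t)) = (1 - ee ((n + 1) * τ + (t + τ))) := by
    intro n
    congr 2
    push_cast
    ring
  have h := tprod_eq_zero_mul' (f := fun n : ℕ => 1 - ee ((n + 1) * τ + t))
    ((t2_mul τ hτ (t + τ)).congr fun n => (e n).symm)
  rw [h]
  congr 1
  · simp only [Nat.cast_zero, zero_add, one_mul]
    rw [add_comm]
  · exact tprod_congr e

theorem t2_B (τ : ℂ) (hτ : 0 < τ.im) (t : ℂ) :
    ∏' n : ℕ, (1 - ee ((n + 1) * τ - (t + τ))) = (1 - ee (-t)) * ∏' n : ℕ, (1 - ee ((n + 1) * τ - t)) := by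
  have h := t2_A τ hτ (-(t + τ))
  have e1 : ∀ n : ℕ, (1 - ee ((n + 1) * τ - (t + τ))) = (1 - ee ((n + 1) * τ + -(t + τ))) := by
    intro n
    rw [sub_eq_add_neg ((n + 1) * τ)]
  have e2 : ∀ n : ℕ, (1 - ee ((n + 1) * τ + (-(t + τ) + τ))) = (1 - ee ((n + 1) * τ - t)) := by
    intro n
    congr 2
    ring
  rw [tprod_congr e1, h, tprod_congr e2]
  congr 3
  ring

theorem t2_thp (τ : ℂ) (hτ : 0 < τ.im) (t : ℂ) :
    thp τ t = (∏' n : ℕ, (1 - ee ((n + 1) * τ + t))) * ∏' n : ℕ, (1 - ee ((n + 1) * τ - t)) := by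
  unfold thp
  refine Multipliable.tprod_mul (t2_mul τ hτ t) ?_
  exact (t2_mul τ hτ (-t)).congr fun n => by rw [← sub_eq_add_neg]

theorem t2_sin (x : ℂ) :
    Complex.sin (Real.pi * x) = I / 2 * cexp (-(Real.pi * I * x)) * (1 - ee x) := by
  have h : ee x = cexp (Real.pi * I * x) * cexp (Real.pi * I * x) := by
    unfold ee
    rw [← Complex.exp_add]
    ring_nf
  have h2 : cexp (-(Real.pi * I * x)) * cexp (Real.pi * I * x) = 1 := by
    rw [← Complex.exp_add, neg_add_cancel, Complex.exp_zero]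
  rw [h, Complex.sin]
  have e1 : -((Real.pi : ℂ) * x) * I = -(Real.pi * I * x) := by ring
  have e2 : ((Real.pi : ℂ) * x) * I = Real.pi * I * x := by ring
  rw [e1, e2]
  linear_combination (I / 2 * cexp (Real.pi * I * x)) * h2

theorem t2_sin' (x : ℂ) :
    Complex.sin (Real.pi * x) = -(I / 2) * cexp (Real.pi * I * x) * (1 - ee (-x)) := by
  have h := t2_sin (-x)
  rw [mul_neg, Complex.sin_neg] at h
  have e : -((Real.pi : ℂ) * I * -x) = Real.pi * I * x := by ring
  rw [e] at h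
  linear_combination -h

/-- T2c. PROOF. Let `p = ee τ`, `z = ee t`, `A(z) = ∏_{n≥0} (1 - p^{n+1} z)`, `B(z) = ∏_{n≥0} (1 - p^{n+1}/z)`, `thp τ t = A(z) B(z)`
(`Multipliable.tprod_mul`). `A(z) = (1 - pz) A(pz)` and `B(pz) = (1 - 1/z) B(z)` (split off the first factor,
`Multipliable.tprod_eq_zero_mul`; both products converge by the same estimate as T1a). Hence
`(1 - pz) thp τ (t+τ) = (1 - 1/z) thp τ t`. And `sin(πx) = (I/2) e^{-iπx} (1 - ee x)`, so
`th τ (t+τ) = (I/2) e^{-iπt-iπτ} (1 - pz) thp τ (t+τ) = (I/2) e^{-iπt-iπτ}(1 - 1/z) thp τ t = -e^{-iπτ} z⁻¹ sin(πt) thp τ t`. -/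
theorem th_add_tau (τ : ℂ) (hτ : 0 < τ.im) (t : ℂ) :
    th τ (t + τ) = -cexp (-(Real.pi * I * τ) - 2 * Real.pi * I * t) * th τ t := by
  have hA := t2_A τ hτ t
  have hB := t2_B τ hτ t
  have hs := t2_sin (t + τ)
  have hs' := t2_sin' t
  unfold th
  rw [t2_thp τ hτ (t + τ), t2_thp τ hτ t, hB, hA, hs, hs']
  have e : cexp (-(Real.pi * I * (t + τ))) =
      cexp (-(Real.pi * I * τ) - 2 * Real.pi * I * t) * cexp (Real.pi * I * t) := by
    rw [← Complex.exp_add]
    ring_nf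
  rw [e]
  ring

end Pool.Agent.MSP
end

end

section

/-!
# MP_f58a57_nt, large transcendence degree, version 2: the fields `K`, `M = K K̄`, `L = M ∩ ℝ`
-/

open Complex Module Submodule

noncomputable section

namespace Pool.Agent.LT.VA

/-- row Fa. `M` is stable under complex conjugation and nonreal, `L` is its real subfield: `M = L ⊕ L w` with `w` purely imaginary.
Proof: `x ∈ M` nonreal, `w := x - conj x ∈ M`, `w ≠ 0`, `w.re = 0`. For `u ∈ M`: `a := (u + conj u)/2`, `b := (u - conj u)/(2 w)` are real and in `M`. -/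
theorem exists_w (M L : Subfield ℂ) (hc : ∀ x ∈ M, (starRingEnd ℂ) x ∈ M) (hL : ∀ x : ℂ, x ∈ L ↔ x ∈ M ∧ x.im = 0)
    (hnr : ∃ x ∈ M, x.im ≠ 0) : ∃ w ∈ M, w.re = 0 ∧ w ≠ 0 ∧ w ^ 2 ∈ L ∧ ∀ u ∈ M, ∃ a ∈ L, ∃ b ∈ L, u = a + b * w := by
  obtain ⟨x, hx, hxi⟩ := hnr
  have hw : x - (starRingEnd ℂ) x ∈ M := M.sub_mem hx (hc x hx)
  have hre : (x - (starRingEnd ℂ) x).re = 0 := by simp
  have him : (x - (starRingEnd ℂ) x).im = 2 * x.im := by simp; ring
  have him0 : (x - (starRingEnd ℂ) x).im ≠ 0 := by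
    rw [him]; exact mul_ne_zero two_ne_zero hxi
  generalize hw2 : x - (starRingEnd ℂ) x = w at hw hre him him0
  have hw0 : w ≠ 0 := by
    rintro rfl
    exact him0 rfl
  have h2 : (2 : ℂ) ∈ M := by
    have h1 : (1 : ℂ) ∈ M := M.one_mem
    have h3 := M.add_mem h1 h1
    rwa [one_add_one_eq_two] at h3
  refine ⟨w, hw, hre, hw0, ?_, ?_⟩
  · rw [hL]
    refine ⟨M.pow_mem hw 2, ?_⟩
    rw [pow_two, Complex.mul_im, hre]
    ring
  · intro u hu
    refine ⟨(u + (starRingEnd ℂ) u) / 2, ?_, (u - (starRingEnd ℂ) u) / 2 / w, ?_, ?_⟩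
    · rw [hL]
      refine ⟨M.div_mem (M.add_mem hu (hc u hu)) h2, ?_⟩
      have h3 : (u + (starRingEnd ℂ) u) / 2 = ((u.re : ℝ) : ℂ) := by
        apply Complex.ext
        · simp
        · simp
      rw [h3]
      exact Complex.ofReal_im _
    · rw [hL]
      refine ⟨M.div_mem (M.div_mem (M.sub_mem hu (hc u hu)) h2) hw, ?_⟩
      have h3 : (u - (starRingEnd ℂ) u) / 2 / w = (((u.im / w.im : ℝ)) : ℂ) := by
        rw [div_eq_iff hw0]
        apply Complex.ext
        · rw [Complex.mul_re, hre]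
          simp
        · rw [Complex.mul_im, hre, Complex.ofReal_re, Complex.ofReal_im, div_mul_cancel₀ _ him0]
          simp
      rw [h3]
      exact Complex.ofReal_im _
    · rw [div_mul_cancel₀ _ hw0]
      ring

/-- row Fa. Proof: with `w` of `exists_w` the map `L × L → M`, `(a, b) ↦ a + b w` is a bijective `ℚ`-linear map (injective: compare real and
imaginary parts); `finrank_prod`. -/
theorem finrank_real (M L : Subfield ℂ) (hc : ∀ x ∈ M, (starRingEnd ℂ) x ∈ M) (hL : ∀ x : ℂ, x ∈ L ↔ x ∈ M ∧ x.im = 0)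
    (hnr : ∃ x ∈ M, x.im ≠ 0) (hfin : FiniteDimensional ℚ M) : finrank ℚ M = 2 * finrank ℚ L := by
  obtain ⟨w, hwM, hwre, hw0, -, hw⟩ := exists_w M L hc hL hnr
  have hLM : L ≤ M := fun x hx => ((hL x).1 hx).1
  have hwim : w.im ≠ 0 := by
    intro h
    exact hw0 (Complex.ext hwre h)
  let ψ : L × L →+ M :=
    { toFun := fun q => ⟨(q.1 : ℂ) + (q.2 : ℂ) * w, M.add_mem (hLM q.1.2) (M.mul_mem (hLM q.2.2) hwM)⟩
      map_zero' := by
        apply Subtype.ext
        simp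
      map_add' := by
        intro q r
        apply Subtype.ext
        simp
        ring }
  let φ : L × L →ₗ[ℚ] M := ψ.toRatLinearMap
  have hφ : ∀ q : L × L, ((φ q : M) : ℂ) = (q.1 : ℂ) + (q.2 : ℂ) * w := fun q => rfl
  have hinj : Function.Injective φ := by
    intro q r hqr
    have h1 : (q.1 : ℂ) + (q.2 : ℂ) * w = (r.1 : ℂ) + (r.2 : ℂ) * w := by
      rw [← hφ q, ← hφ r, hqr]
    have hq1 := ((hL _).1 q.1.2).2
    have hq2 := ((hL _).1 q.2.2).2
    have hr1 := ((hL _).1 r.1.2).2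
    have hr2 := ((hL _).1 r.2.2).2
    have hre := congrArg Complex.re h1
    have him := congrArg Complex.im h1
    rw [Complex.add_re, Complex.add_re, Complex.mul_re, Complex.mul_re, hwre, hq2, hr2] at hre
    rw [Complex.add_im, Complex.add_im, Complex.mul_im, Complex.mul_im, hwre, hq1, hr1, hq2, hr2] at him
    simp only [mul_zero, zero_mul, sub_zero, add_zero, zero_add] at hre him
    have him2 := mul_right_cancel₀ hwim him
    apply Prod.ext
    · apply Subtype.ext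
      exact Complex.ext hre (hq1.trans hr1.symm)
    · apply Subtype.ext
      exact Complex.ext him2 (hq2.trans hr2.symm)
  have hsurj : Function.Surjective φ := by
    intro u
    obtain ⟨a, ha, b, hb, hab⟩ := hw u u.2
    refine ⟨(⟨a, ha⟩, ⟨b, hb⟩), ?_⟩
    apply Subtype.ext
    rw [hφ]
    exact hab.symm
  have : FiniteDimensional ℚ L := by
    have hi : Function.Injective ((Subfield.inclusion hLM).toAddMonoidHom.toRatLinearMap) := by
      intro a b hab
      exact (Subfield.inclusion hLM).injective hab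
    exact FiniteDimensional.of_injective _ hi
  have h1 := LinearEquiv.finrank_eq (LinearEquiv.ofBijective φ ⟨hinj, hsurj⟩)
  rw [Module.finrank_prod] at h1
  rw [← h1]
  ring

/-- row Fb. The imaginary parts of the elements of `M`. Proof: `W := range` of the `ℚ`-linear map `Im : M → ℝ`; its kernel is `L` (as a subspace of `M`,
isomorphic to `L`), so `finrank W = finrank M - finrank L = finrank L`. -/
theorem exists_W (M L : Subfield ℂ) (hc : ∀ x ∈ M, (starRingEnd ℂ) x ∈ M) (hL : ∀ x : ℂ, x ∈ L ↔ x ∈ M ∧ x.im = 0)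
    (hnr : ∃ x ∈ M, x.im ≠ 0) (hfin : FiniteDimensional ℚ M) :
    ∃ W : Submodule ℚ ℝ, finrank ℚ W = finrank ℚ L ∧ FiniteDimensional ℚ W ∧ ∀ x : ℂ, x ∈ M → x.im ∈ W := by
  have := hfin
  let φ : M →ₗ[ℚ] ℝ :=
    { toFun := fun x => (x : ℂ).im
      map_add' := fun x y => by
        change ((x : ℂ) + (y : ℂ)).im = _
        exact Complex.add_im _ _
      map_smul' := fun q x => by
        have h1 : ((q • x : M) : ℂ) = (q : ℂ) * (x : ℂ) := by
          rw [Rat.smul_def]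
          push_cast
          rfl
        have h2 : ((q : ℂ) * (x : ℂ)).im = (q : ℝ) * (x : ℂ).im := by
          have h3 : (q : ℂ) = ((q : ℝ) : ℂ) := by push_cast; rfl
          rw [h3, Complex.im_ofReal_mul]
        change ((q • x : M) : ℂ).im = _
        rw [h1, h2, RingHom.id_apply, Rat.smul_def] }
  have hφ : ∀ x : M, φ x = (x : ℂ).im := fun _ => rfl
  have hker : finrank ℚ (LinearMap.ker φ) = finrank ℚ L := by
    let e : LinearMap.ker φ ≃ₗ[ℚ] L :=
      { toFun := fun x => ⟨((x : M) : ℂ), (hL _).2 ⟨(x : M).2, x.2⟩⟩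
        map_add' := fun x y => rfl
        map_smul' := fun q x => by
          apply Subtype.ext
          change (((q • (x : M)) : M) : ℂ) = _
          rw [RingHom.id_apply, Rat.smul_def, Rat.smul_def]
          push_cast
          rfl
        invFun := fun y => ⟨⟨(y : ℂ), ((hL _).1 y.2).1⟩, ((hL _).1 y.2).2⟩
        left_inv := fun x => rfl
        right_inv := fun y => rfl }
    exact e.finrank_eq
  have hrk := LinearMap.finrank_range_add_finrank_ker φ
  rw [hker, finrank_real M L hc hL hnr hfin] at hrk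
  refine ⟨LinearMap.range φ, by omega, inferInstance, fun x hx => ⟨⟨x, hx⟩, rfl⟩⟩

/-- row Fc. Two embeddings of `M` which agree on `L` are equal or differ by the complex conjugation of `M`. Proof: `w` of `exists_w`: `(g w)² = g (w²) = h (w²) = (h w)²`,
so `g w = ± h w`, and `u = a + b w`, `conj u = a - b w` (`a`, `b` real, `w` purely imaginary). -/
theorem ext_L (M L : Subfield ℂ) (hc : ∀ x ∈ M, (starRingEnd ℂ) x ∈ M) (hL : ∀ x : ℂ, x ∈ L ↔ x ∈ M ∧ x.im = 0)
    (hnr : ∃ x ∈ M, x.im ≠ 0) (g h : M →+* ℂ) (hgh : ∀ x : M, (x : ℂ) ∈ L → g x = h x) :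
    (∀ x : M, g x = h x) ∨ (∀ x : M, g x = h ⟨(starRingEnd ℂ) x, hc x x.2⟩) := by
  obtain ⟨w, hwM, hwre, hw0, hw2, hdec⟩ := exists_w M L hc hL hnr
  have hLM : ∀ x : ℂ, x ∈ L → x ∈ M := fun x hx => ((hL x).1 hx).1
  have hLr : ∀ x : ℂ, x ∈ L → (starRingEnd ℂ) x = x := fun x hx =>
    Complex.conj_eq_iff_im.2 ((hL x).1 hx).2
  have hwc : (starRingEnd ℂ) w = -w := by
    apply Complex.ext
    · simp [hwre]
    · simp
  have hsq : g ⟨w, hwM⟩ ^ 2 = h ⟨w, hwM⟩ ^ 2 := by
    rw [← map_pow, ← map_pow]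
    apply hgh
    exact hw2
  have key : ∀ x : M, ∃ a b : M, (a : ℂ) ∈ L ∧ (b : ℂ) ∈ L ∧ x = a + b * ⟨w, hwM⟩ := by
    intro x
    obtain ⟨a, ha, b, hb, hx⟩ := hdec x x.2
    exact ⟨⟨a, hLM a ha⟩, ⟨b, hLM b hb⟩, ha, hb, Subtype.ext hx⟩
  rcases sq_eq_sq_iff_eq_or_eq_neg.1 hsq with h1 | h1
  · left
    intro x
    obtain ⟨a, b, ha, hb, hx⟩ := key x
    rw [hx, map_add, map_add, map_mul, map_mul, h1, hgh a ha, hgh b hb]
  · right
    intro x
    obtain ⟨a, b, ha, hb, hx⟩ := key x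
    have hcx : (⟨(starRingEnd ℂ) x, hc x x.2⟩ : M) = a - b * ⟨w, hwM⟩ := by
      apply Subtype.ext
      change (starRingEnd ℂ) (x : ℂ) = (a : ℂ) - (b : ℂ) * w
      have hx' : (x : ℂ) = (a : ℂ) + (b : ℂ) * w := congrArg Subtype.val hx
      rw [hx', map_add, map_mul, hLr _ ha, hLr _ hb, hwc]
      ring
    rw [hcx, map_sub, map_mul, ← hgh a ha, ← hgh b hb, hx, map_add, map_mul, h1]
    ring

/-- row Fd. The embeddings of `M` over `K`; the first one is the inclusion. Proof: `K ≤ M` makes `M` a `K`-algebra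
(`(Subfield.inclusion hKM).toAlgebra`; `ℂ` is a `K`-algebra by the instance), `IsScalarTower ℚ K M` (`IsScalarTower.rat` or of_algebraMap_eq), `finrank K M = p + 1` by
`finrank_mul_finrank ℚ K M`. `AlgHom.card K M ℂ` (separable as `CharZero`, `IsAlgClosed ℂ`): `Fintype.card (M →ₐ[K] ℂ) = p + 1`; an equivalence `Fin (p+1) ≃ (M →ₐ[K] ℂ)`
sending `0` to the inclusion (compose with `Equiv.swap`), and `AlgHom.toRingHom`. -/
theorem exists_emb (K M : Subfield ℂ) (hKM : K ≤ M) (p : ℕ) (hK : 0 < finrank ℚ K) (hd : finrank ℚ M = finrank ℚ K * (p + 1)) :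
    ∃ e : Fin (p + 1) → (M →+* ℂ), Function.Injective e ∧ (∀ x : M, e 0 x = x) ∧ ∀ j (x : M), (x : ℂ) ∈ K → e j x = x := by
  let algKM : Algebra K M := (Subfield.inclusion hKM).toAlgebra
  have : IsScalarTower ℚ K M := IsScalarTower.rat
  have hmul : finrank ℚ K * finrank K M = finrank ℚ M := Module.finrank_mul_finrank ℚ K M
  have hfr : finrank K M = p + 1 := by
    rw [hd] at hmul
    exact Nat.eq_of_mul_eq_mul_left hK hmul
  have : FiniteDimensional K M := Module.finite_of_finrank_pos (by rw [hfr]; omega)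
  have : Algebra.IsSeparable K M := inferInstance
  have hcard : Fintype.card (M →ₐ[K] ℂ) = p + 1 := by
    rw [AlgHom.card K M ℂ, hfr]
  let ι : M →ₐ[K] ℂ :=
    { M.subtype with
      commutes' := fun x => rfl }
  let eq : (M →ₐ[K] ℂ) ≃ Fin (p + 1) := Fintype.equivFinOfCardEq hcard
  refine ⟨fun j => ((eq.symm (Equiv.swap 0 (eq ι) j) : M →ₐ[K] ℂ) : M →+* ℂ), ?_, ?_, ?_⟩
  · intro i j hij
    have h1 := AlgHom.coe_ringHom_injective hij
    exact (Equiv.swap 0 (eq ι)).injective (eq.symm.injective h1)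
  · intro x
    have h1 : eq.symm (Equiv.swap 0 (eq ι) 0) = ι := by
      rw [Equiv.swap_apply_left, Equiv.symm_apply_apply]
    simp only [h1]
    rfl
  · intro j x hx
    have h1 := (eq.symm (Equiv.swap 0 (eq ι) j)).commutes ⟨(x : ℂ), hx⟩
    exact h1

/-- row Fe. An embedding of `K K̄` which is the identity on `K` and on `K̄` is the identity. Proof: the `x : M` with `g x = x` are a subfield
(`RingHom.eqLocusField g M.subtype`), its image in `ℂ` (`Subfield.map M.subtype`) contains `K` and `K̄`, so it contains `M = K ⊔ K̄`. -/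
theorem id_of (K M : Subfield ℂ) (hM : M = K ⊔ K.map (starRingEnd ℂ)) (g : M →+* ℂ) (h1 : ∀ x : M, (x : ℂ) ∈ K → g x = x)
    (h2 : ∀ x : M, (starRingEnd ℂ) (x : ℂ) ∈ K → g x = x) (x : M) : g x = x := by
  have key : M ≤ (RingHom.eqLocusField g M.subtype).map M.subtype := by
    conv_lhs => rw [hM]
    rw [sup_le_iff]
    constructor
    · intro y hy
      have hyM : y ∈ M := by rw [hM]; exact (le_sup_left : K ≤ _) hy
      exact ⟨⟨y, hyM⟩, h1 ⟨y, hyM⟩ hy, rfl⟩
    · intro y hy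
      have hyM : y ∈ M := by rw [hM]; exact (le_sup_right : K.map (starRingEnd ℂ) ≤ _) hy
      refine ⟨⟨y, hyM⟩, h2 ⟨y, hyM⟩ ?_, rfl⟩
      obtain ⟨z, hz, rfl⟩ := hy
      show (starRingEnd ℂ) ((starRingEnd ℂ) z) ∈ K
      rw [Complex.conj_conj]
      exact hz
  obtain ⟨y, hy, hyx⟩ := key x.2
  have : y = x := Subtype.ext hyx
  rw [this] at hy
  exact hy

/-- row Fe. `K K̄` is stable under conjugation. Proof: `M.map conj = K.map conj ⊔ (K.map conj).map conj = M` (`Subfield.map_sup`, `Subfield.map_map`). -/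
theorem cj_stable (K M : Subfield ℂ) (hM : M = K ⊔ K.map (starRingEnd ℂ)) (x : ℂ) (hx : x ∈ M) : (starRingEnd ℂ) x ∈ M := by
  have key : M ≤ M.comap (starRingEnd ℂ) := by
    conv_lhs => rw [hM]
    rw [sup_le_iff]
    constructor
    · intro y hy
      show (starRingEnd ℂ) y ∈ M
      rw [hM]
      exact (le_sup_right : K.map (starRingEnd ℂ) ≤ _) ⟨y, hy, rfl⟩
    · rintro y ⟨z, hz, rfl⟩
      show (starRingEnd ℂ) ((starRingEnd ℂ) z) ∈ M
      rw [Complex.conj_conj, hM]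
      exact (le_sup_left : K ≤ _) hz
  exact key hx

/-- the field data: `M = K K̄`, `L` its real subfield, `e j` the embeddings of `M` over `K`, `s` the remaining (real) embedding of `L` -/
structure FD (K : Subfield ℂ) (p : ℕ) where
  M : Subfield ℂ
  L : Subfield ℂ
  LM : L ≤ M
  e : Fin (p + 1) → (M →+* ℂ)
  s : L →+* ℝ

/-- the restriction of `e j` to `L` -/
def FD.f {K : Subfield ℂ} {p : ℕ} (F : FD K p) (j : Fin (p + 1)) : F.L →+* ℂ := (F.e j).comp (Subfield.inclusion F.LM)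

/-- the properties of the field data -/
structure FDP {K : Subfield ℂ} {p : ℕ} (F : FD K p) : Prop where
  hKM : K ≤ F.M
  cj : ∀ x ∈ F.M, (starRingEnd ℂ) x ∈ F.M
  hL : ∀ x : ℂ, x ∈ F.L ↔ x ∈ F.M ∧ x.im = 0
  dM : finrank ℚ F.M = 4 * (p + 1)
  dL : finrank ℚ F.L = 2 * (p + 1)
  hW : ∃ W : Submodule ℚ ℝ, finrank ℚ W = 2 * (p + 1) ∧ FiniteDimensional ℚ W ∧ ∀ x : ℂ, x ∈ F.M → x.im ∈ W
  e0 : ∀ x : F.M, F.e 0 x = x
  eK : ∀ j (x : F.M), (x : ℂ) ∈ K → F.e j x = x
  inj : Function.Injective F.f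
  nr : ∀ j, j ≠ 0 → ∃ x : F.L, (F.f j x).im ≠ 0
  cjne : ∀ i j, (i ≠ 0 ∨ j ≠ 0) → (starRingEnd ℂ).comp (F.f i) ≠ F.f j
  sne : ∀ j, Complex.ofRealHom.comp F.s ≠ F.f j
  all : ∀ g : F.L →+* ℂ, (∃ j, g = F.f j) ∨ (∃ j, g = (starRingEnd ℂ).comp (F.f j)) ∨ g = Complex.ofRealHom.comp F.s

/-- row Ff. (F1) The restrictions to `L`, part 1. Proof: if `e i`, `e j` agree on `L` then by `ext_L` `e i = e j` or `e i x = e j (conj x)`; the latter on `K` (nonreal):
for `x ∈ K` nonreal... `e i x = x` and `e j (conj x) = x` for all `x ∈ K`, so `e j` maps `K̄` to `K`; hmm: `conj x ∈ K̄`, `e j (conj x) = x`: since `e j` is the identity on `K` and injective,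
`conj x = x` whenever ... (`e j x = x = e j (conj x)` gives `x = conj x`), contradiction for nonreal `x ∈ K`. -/
theorem F1_inj (K M L : Subfield ℂ) (hKM : K ≤ M) (hK : ∃ x ∈ K, x.im ≠ 0) (hc : ∀ x ∈ M, (starRingEnd ℂ) x ∈ M) (hL : ∀ x : ℂ, x ∈ L ↔ x ∈ M ∧ x.im = 0)
    (g h : M →+* ℂ) (hg : ∀ x : M, (x : ℂ) ∈ K → g x = x) (hh : ∀ x : M, (x : ℂ) ∈ K → h x = x)
    (hgh : ∀ x : M, (x : ℂ) ∈ L → g x = h x) : g = h := by
  obtain ⟨x0, hx0, hx0i⟩ := hK
  rcases ext_L M L hc hL ⟨x0, hKM hx0, hx0i⟩ g h hgh with H | H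
  · exact RingHom.ext H
  · exfalso
    have h1 := ((hh ⟨x0, hKM hx0⟩ hx0).trans (hg ⟨x0, hKM hx0⟩ hx0).symm).trans (H ⟨x0, hKM hx0⟩)
    have h2 := h.injective h1
    have h3 : x0 = (starRingEnd ℂ) x0 := congrArg Subtype.val h2
    exact hx0i (Complex.conj_eq_iff_im.mp h3.symm)

/-- row Ff. (F1), part 2. If `conj ∘ g` and `h` agree on `L`, `g`, `h` embeddings of `M = K K̄` over `K`, then both are the inclusion. Proof: `ext_L` for `conj ∘ g` and `h`: either
`conj (g x) = h x` for all `x ∈ M`, on nonreal `x ∈ K`: `conj x = x`, false; or `conj (g x) = h (conj x)` for all `x`; for `x ∈ K`: `h (conj x) = conj x`, so `h` is the identity on `K` and `K̄`,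
`h = id` by `id_of`, and then `conj (g x) = conj x`. -/
theorem F1_cj (K M L : Subfield ℂ) (hM : M = K ⊔ K.map (starRingEnd ℂ)) (hK : ∃ x ∈ K, x.im ≠ 0) (hL : ∀ x : ℂ, x ∈ L ↔ x ∈ M ∧ x.im = 0)
    (g h : M →+* ℂ) (hg : ∀ x : M, (x : ℂ) ∈ K → g x = x) (hh : ∀ x : M, (x : ℂ) ∈ K → h x = x)
    (hgh : ∀ x : M, (x : ℂ) ∈ L → (starRingEnd ℂ) (g x) = h x) : (∀ x : M, g x = x) ∧ ∀ x : M, h x = x := by
  obtain ⟨x0, hx0, hx0i⟩ := hK
  have hKM : K ≤ M := by rw [hM]; exact le_sup_left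
  have hc : ∀ x ∈ M, (starRingEnd ℂ) x ∈ M := fun x hx => cj_stable K M hM x hx
  rcases ext_L M L hc hL ⟨x0, hKM hx0, hx0i⟩ ((starRingEnd ℂ).comp g) h hgh with H | H
  · exfalso
    have h1 := H ⟨x0, hKM hx0⟩
    rw [RingHom.comp_apply, hg ⟨x0, hKM hx0⟩ hx0, hh ⟨x0, hKM hx0⟩ hx0] at h1
    exact hx0i (Complex.conj_eq_iff_im.mp h1)
  · have hid : ∀ x : M, h x = x := by
      refine id_of K M hM h hh ?_
      intro y hy
      have h1 := H ⟨(starRingEnd ℂ) y, hc y y.2⟩
      rw [RingHom.comp_apply, hg ⟨(starRingEnd ℂ) y, hc y y.2⟩ hy] at h1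
      have h2 : (⟨(starRingEnd ℂ) ((starRingEnd ℂ) (y : ℂ)), hc _ (hc y y.2)⟩ : M) = y :=
        Subtype.ext (Complex.conj_conj _)
      have h3 : (starRingEnd ℂ) ((starRingEnd ℂ) (y : ℂ)) = h y := h1.trans (congrArg h h2)
      rw [Complex.conj_conj] at h3
      exact h3.symm
    refine ⟨?_, hid⟩
    intro x
    have h1 := H x
    rw [RingHom.comp_apply, hid] at h1
    exact (starRingEnd ℂ).injective h1

/-- row Fg. Counting: the last embedding. `L` has `2 (p + 1)` embeddings, `f j` (`j ≤ p`) and their conjugates are `2 p + 1` of them, the remaining one is real.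
Proof: `NumberField.Embeddings.card` (or `AlgHom.card ℚ L ℂ` with `RingHom.equivRatAlgHom`): `Fintype.card (L →+* ℂ) = 2 (p+1)`. `T := image f univ ∪ image (conj ∘ f) univ`:
the intersection of the two images is `{f 0}` (`h0`, `hcj`), so `card T = 2 p + 1` (`Finset.card_union_add_card_inter`). So the complement of `T` has exactly one element `g`
(`Finset.card_eq_one`), `conj ∘ g` is in the complement as well, so `conj ∘ g = g`, `g x` is real for all `x`, `s x := (g x).re` (a ring homomorphism). -/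
theorem exists_s (L : Subfield ℂ) (p : ℕ) (hfin : FiniteDimensional ℚ L) (hd : finrank ℚ L = 2 * (p + 1)) (f : Fin (p + 1) → (L →+* ℂ)) (hinj : Function.Injective f)
    (h0 : (starRingEnd ℂ).comp (f 0) = f 0) (hcj : ∀ i j, (i ≠ 0 ∨ j ≠ 0) → (starRingEnd ℂ).comp (f i) ≠ f j) :
    ∃ s : L →+* ℝ, (∀ j, Complex.ofRealHom.comp s ≠ f j) ∧
      ∀ g : L →+* ℂ, (∃ j, g = f j) ∨ (∃ j, g = (starRingEnd ℂ).comp (f j)) ∨ g = Complex.ofRealHom.comp s := by
  classical
  haveI : NumberField L := { to_charZero := inferInstance, to_finiteDimensional := hfin }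
  have hcard : Fintype.card (L →+* ℂ) = 2 * (p + 1) := by
    rw [NumberField.Embeddings.card L ℂ, hd]
  have hcc : ∀ g : L →+* ℂ, (starRingEnd ℂ).comp ((starRingEnd ℂ).comp g) = g := by
    intro g
    ext x
    simp
  set A : Finset (L →+* ℂ) := Finset.univ.image f with hA
  set B : Finset (L →+* ℂ) := Finset.univ.image (fun j => (starRingEnd ℂ).comp (f j)) with hB
  have hAc : A.card = p + 1 := by
    rw [hA, Finset.card_image_of_injective _ hinj, Finset.card_univ, Fintype.card_fin]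
  have hBinj : Function.Injective (fun j => (starRingEnd ℂ).comp (f j)) := by
    intro i j hij
    apply hinj
    have := congrArg (fun g => (starRingEnd ℂ).comp g) hij
    simp only [hcc] at this
    exact this
  have hBc : B.card = p + 1 := by
    rw [hB, Finset.card_image_of_injective _ hBinj, Finset.card_univ, Fintype.card_fin]
  have hAB : A ∩ B = {f 0} := by
    ext g
    simp only [Finset.mem_inter, Finset.mem_singleton, hA, hB, Finset.mem_image, Finset.mem_univ, true_and]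
    constructor
    · rintro ⟨⟨i, rfl⟩, j, hj⟩
      by_cases h : j ≠ 0 ∨ i ≠ 0
      · exact absurd hj (hcj j i h)
      · push Not at h
        rw [h.2]
    · rintro rfl
      exact ⟨⟨0, rfl⟩, 0, h0⟩
  have hU := Finset.card_union_add_card_inter A B
  rw [hAB, Finset.card_singleton, hAc, hBc] at hU
  have hT : (A ∪ B)ᶜ.card = 1 := by
    rw [Finset.card_compl, hcard]
    omega
  obtain ⟨g, hg⟩ := Finset.card_eq_one.1 hT
  have hmem : ∀ h : L →+* ℂ, h ∉ A ∪ B ↔ h = g := by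
    intro h
    rw [← Finset.mem_compl, hg, Finset.mem_singleton]
  have hgn : g ∉ A ∪ B := (hmem g).2 rfl
  have hgA : ∀ j, g ≠ f j := by
    intro j hj
    apply hgn
    rw [Finset.mem_union]
    left
    rw [hA, Finset.mem_image]
    exact ⟨j, Finset.mem_univ _, hj.symm⟩
  have hgB : ∀ j, g ≠ (starRingEnd ℂ).comp (f j) := by
    intro j hj
    apply hgn
    rw [Finset.mem_union]
    right
    rw [hB, Finset.mem_image]
    exact ⟨j, Finset.mem_univ _, hj.symm⟩
  have hgc : (starRingEnd ℂ).comp g = g := by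
    rw [← hmem]
    intro h
    rw [Finset.mem_union] at h
    rcases h with h | h
    · rw [hA, Finset.mem_image] at h
      obtain ⟨j, -, hj⟩ := h
      apply hgB j
      rw [hj, hcc]
    · rw [hB, Finset.mem_image] at h
      obtain ⟨j, -, hj⟩ := h
      apply hgA j
      have := congrArg (fun g => (starRingEnd ℂ).comp g) hj
      simp only [hcc] at this
      exact this.symm
  have hre : ∀ x, ((g x).re : ℂ) = g x := by
    intro x
    have := congrArg (fun k : L →+* ℂ => k x) hgc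
    exact Complex.conj_eq_iff_re.1 this
  let s : L →+* ℝ :=
    { toFun := fun x => (g x).re
      map_one' := by simp
      map_zero' := by simp
      map_add' := by intro x y; simp
      map_mul' := by
        intro x y
        have : ((g (x * y)).re : ℂ) = (((g x).re * (g y).re : ℝ) : ℂ) := by
          rw [hre, Complex.ofReal_mul, hre, hre, map_mul]
        exact_mod_cast this }
  have hs : Complex.ofRealHom.comp s = g := by
    ext x
    exact hre x
  refine ⟨s, fun j => ?_, fun h => ?_⟩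
  · rw [hs]
    exact hgA j
  · rw [hs]
    by_cases hh : h ∈ A ∪ B
    · rw [Finset.mem_union] at hh
      rcases hh with hh | hh
      · rw [hA, Finset.mem_image] at hh
        obtain ⟨j, -, hj⟩ := hh
        exact Or.inl ⟨j, hj.symm⟩
      · rw [hB, Finset.mem_image] at hh
        obtain ⟨j, -, hj⟩ := hh
        exact Or.inr (Or.inl ⟨j, hj.symm⟩)
    · exact Or.inr (Or.inr ((hmem h).1 hh))

/-- the real subfield of a subfield of `ℂ` -/
def realSub (M : Subfield ℂ) : Subfield ℂ := M ⊓ Complex.ofRealHom.fieldRange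

theorem mem_realSub (M : Subfield ℂ) (x : ℂ) : x ∈ realSub M ↔ x ∈ M ∧ x.im = 0 := by
  rw [realSub, Subfield.mem_inf]
  constructor
  · rintro ⟨h1, y, rfl⟩
    exact ⟨h1, Complex.ofReal_im y⟩
  · rintro ⟨h1, h2⟩
    exact ⟨h1, x.re, Complex.ext rfl h2.symm⟩

/-- row Fh. The field data exist. Proof: `M := K ⊔ K.map conj`, `L := realSub M`, `e` from `exists_emb` (`hK.dim`, `hK.rel`), `FD` with `s` from `exists_s` for `f j := (e j).comp (inclusion)`;
`inj` from `F1_inj` and injectivity of `e`, `cjne` from `F1_cj` (it gives `e i = e 0`, `e j = e 0`), `nr`: if `f j` is real-valued then `conj ∘ f j = f j`, excluded by `cjne` for `j ≠ 0`;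
`dL` from `finrank_real`, `hW` from `exists_W`. -/
theorem exists_FD (K : Subfield ℂ) (p : ℕ) (hK : QG K p) : ∃ F : FD K p, FDP F := by
  obtain ⟨M, hM⟩ : ∃ M : Subfield ℂ, M = K ⊔ K.map (starRingEnd ℂ) := ⟨_, rfl⟩
  have hKM : K ≤ M := by rw [hM]; exact le_sup_left
  have hcj : ∀ x ∈ M, (starRingEnd ℂ) x ∈ M := fun x hx => cj_stable K M hM x hx
  have hL := mem_realSub M
  have hLM : realSub M ≤ M := inf_le_left
  have hdM : finrank ℚ M = 4 * (p + 1) := by rw [hM]; exact hK.rel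
  have hnrM : ∃ x ∈ M, x.im ≠ 0 := by
    obtain ⟨x, hx, hx2⟩ := hK.nr
    exact ⟨x, hKM hx, hx2⟩
  have hfinM : FiniteDimensional ℚ M := FiniteDimensional.of_finrank_pos (by rw [hdM]; positivity)
  have hdL : finrank ℚ (realSub M) = 2 * (p + 1) := by
    have h1 := finrank_real M (realSub M) hcj hL hnrM hfinM
    rw [hdM] at h1
    omega
  have hfinL : FiniteDimensional ℚ (realSub M) := FiniteDimensional.of_finrank_pos (by rw [hdL]; positivity)
  obtain ⟨e, einj, e0, eK⟩ := exists_emb K M hKM p (by rw [hK.dim]; norm_num) (by rw [hdM, hK.dim])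
  obtain ⟨W, hW1, hW2, hW3⟩ := exists_W M (realSub M) hcj hL hnrM hfinM
  have key : ∀ (j : Fin (p + 1)) (x : M) (hx : (x : ℂ) ∈ realSub M),
      ((e j).comp (Subfield.inclusion hLM)) ⟨(x : ℂ), hx⟩ = e j x := by
    intro j x hx
    rfl
  have hinj : Function.Injective (fun j : Fin (p + 1) => (e j).comp (Subfield.inclusion hLM)) := by
    intro i j hij
    apply einj
    refine F1_inj K M (realSub M) hKM hK.nr hcj hL (e i) (e j) (eK i) (eK j) ?_
    intro x hx
    have h1 := congrArg (fun g : (realSub M) →+* ℂ => g ⟨(x : ℂ), hx⟩) hij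
    exact h1
  have h0 : (starRingEnd ℂ).comp ((e 0).comp (Subfield.inclusion hLM)) = (e 0).comp (Subfield.inclusion hLM) := by
    ext x
    have h1 : ((e 0).comp (Subfield.inclusion hLM)) x = (x : ℂ) := e0 _
    rw [RingHom.comp_apply, h1]
    exact Complex.conj_eq_iff_im.2 ((hL x).1 x.2).2
  have hcjne : ∀ i j : Fin (p + 1), (i ≠ 0 ∨ j ≠ 0) →
      (starRingEnd ℂ).comp ((e i).comp (Subfield.inclusion hLM)) ≠ (e j).comp (Subfield.inclusion hLM) := by
    intro i j hij heq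
    have h1 := F1_cj K M (realSub M) hM hK.nr hL (e i) (e j) (eK i) (eK j) (by
      intro x hx
      have h2 := congrArg (fun g : (realSub M) →+* ℂ => g ⟨(x : ℂ), hx⟩) heq
      exact h2)
    have h3 : e i = e 0 := RingHom.ext (fun x => by rw [h1.1 x, e0 x])
    have h4 : e j = e 0 := RingHom.ext (fun x => by rw [h1.2 x, e0 x])
    rcases hij with h | h
    · exact h (einj h3)
    · exact h (einj h4)
  obtain ⟨s, hs1, hs2⟩ := exists_s (realSub M) p hfinL hdL (fun j => (e j).comp (Subfield.inclusion hLM)) hinj h0 hcjne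
  refine ⟨⟨M, realSub M, hLM, e, s⟩, ?_⟩
  refine
    { hKM := hKM
      cj := hcj
      hL := hL
      dM := hdM
      dL := hdL
      hW := ⟨W, by rw [hW1, hdL], hW2, hW3⟩
      e0 := e0
      eK := eK
      inj := hinj
      nr := ?_
      cjne := hcjne
      sne := hs1
      all := hs2 }
  intro j hj
  by_contra hne
  push Not at hne
  refine hcjne j j (Or.inl hj) ?_
  ext x
  exact Complex.conj_eq_iff_im.2 (hne x)

variable {K : Subfield ℂ} {p : ℕ}

/-- row Fi. Every `ℚ`-linear map `L → ℂ` is a combination of the embeddings. Proof: the embeddings `L →+* ℂ` (as a family indexed by the finite type `L →+* ℂ`) are linearly independent over `ℂ` as maps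
`L → ℂ` (`linearIndependent_monoidHom`), so also as elements of `L →ₗ[ℚ] ℂ` (`RingHom.toRatAlgHom`/`AlgHom.toLinearMap`, `LinearIndependent.of_comp` with the forgetful `ℂ`-linear map), there are
`2 (p+1) = finrank ℚ L = finrank ℂ (L →ₗ[ℚ] ℂ)` (`Module.finrank_linearMap_self`) of them, so they span (`LinearIndependent.span_eq_top_of_card_eq_finrank'`); use `all`. (Coefficients: sum over all
embeddings; rewrite the sum of `c_g g x` by induction over the finset/span: the set of maps of the required form is a submodule containing each embedding.) -/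
theorem span_emb (F : FD K p) (hF : FDP F) (u : F.L →ₗ[ℚ] ℂ) : ∃ (a b : Fin (p + 1) → ℂ) (c : ℂ), ∀ x : F.L,
    u x = ∑ j, a j * F.f j x + ∑ j, b j * (starRingEnd ℂ) (F.f j x) + c * (F.s x : ℂ) := by
  have hpos : 0 < finrank ℚ F.L := by rw [hF.dL]; positivity
  have hfd : FiniteDimensional ℚ F.L := Module.finite_of_finrank_pos hpos
  have hnf : NumberField F.L := { to_charZero := inferInstance, to_finiteDimensional := hfd }
  have hli : LinearIndependent ℂ (fun g : F.L →+* ℂ => (g.toRatAlgHom.toLinearMap : F.L →ₗ[ℚ] ℂ)) := by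
    rw [Fintype.linearIndependent_iff]
    intro c hc g
    have h1 := (linearIndependent_monoidHom F.L ℂ).comp (fun g : F.L →+* ℂ => (g : F.L →* ℂ))
      (fun g h hgh => RingHom.ext fun x => by
        have := DFunLike.congr_fun hgh x
        simpa using this)
    rw [Fintype.linearIndependent_iff] at h1
    refine h1 c ?_ g
    funext x
    have h2 := congrArg (fun v : F.L →ₗ[ℚ] ℂ => v x) hc
    simpa [Finset.sum_apply, LinearMap.sum_apply] using h2
  have hspan := hli.span_eq_top_of_card_eq_finrank' (by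
    rw [Module.finrank_linearMap_self, NumberField.Embeddings.card])
  have hu : u ∈ Submodule.span ℂ (Set.range (fun g : F.L →+* ℂ => (g.toRatAlgHom.toLinearMap : F.L →ₗ[ℚ] ℂ))) := by
    rw [hspan]; exact Submodule.mem_top
  induction hu using Submodule.span_induction with
  | mem v hv =>
    obtain ⟨g, rfl⟩ := hv
    rcases hF.all g with ⟨j, rfl⟩ | ⟨j, rfl⟩ | rfl
    · refine ⟨Pi.single j 1, 0, 0, fun x => ?_⟩
      simp [Pi.single_apply]
    · refine ⟨0, Pi.single j 1, 0, fun x => ?_⟩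
      simp [Pi.single_apply]
    · refine ⟨0, 0, 1, fun x => ?_⟩
      simp
  | zero => exact ⟨0, 0, 0, fun x => by simp⟩
  | add v w _ _ hv hw =>
    obtain ⟨a, b, c, h1⟩ := hv
    obtain ⟨a', b', c', h2⟩ := hw
    refine ⟨a + a', b + b', c + c', fun x => ?_⟩
    rw [LinearMap.add_apply, h1, h2]
    simp only [Pi.add_apply, add_mul, Finset.sum_add_distrib]
    ring
  | smul t v _ hv =>
    obtain ⟨a, b, c, h1⟩ := hv
    refine ⟨t • a, t • b, t * c, fun x => ?_⟩
    rw [LinearMap.smul_apply, h1]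
    simp only [Pi.smul_apply, smul_eq_mul, mul_add, Finset.mul_sum, mul_assoc]

/-- row Fi. The real version. Proof: `span_emb` for `x ↦ (φ x : ℂ)`, take real parts: `Re (b conj y) = Re (conj b y)`; `c := Re c`, `a j := a j + conj (b j)`. -/
theorem span_emb_real (F : FD K p) (hF : FDP F) (φ : F.L →ₗ[ℚ] ℝ) : ∃ (c : ℝ) (a : Fin (p + 1) → ℂ), ∀ x : F.L,
    φ x = c * F.s x + (∑ j, a j * F.f j x).re := by
  obtain ⟨a, b, c, h⟩ := span_emb F hF ((Complex.ofRealCLM.toLinearMap.restrictScalars ℚ).comp φ)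
  refine ⟨c.re, fun j => a j + (starRingEnd ℂ) (b j), fun x => ?_⟩
  have h1 := congrArg Complex.re (h x)
  have h2 : ∀ j, (b j * (starRingEnd ℂ) (F.f j x)).re = ((starRingEnd ℂ) (b j) * F.f j x).re := fun j => by
    simp only [Complex.mul_re, Complex.conj_re, Complex.conj_im]
    ring
  have h3 : (c * (F.s x : ℂ)).re = c.re * F.s x := by simp
  have h4 : (((Complex.ofRealCLM.toLinearMap.restrictScalars ℚ).comp φ) x : ℂ).re = φ x := by
    simp
  rw [h4, Complex.add_re, Complex.add_re, h3, Complex.re_sum, Complex.re_sum] at h1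
  rw [h1, Complex.re_sum]
  simp only [add_mul, Complex.add_re, Finset.sum_add_distrib]
  rw [Finset.sum_congr rfl (fun j _ => h2 j)]
  ring

/-- row Fi. Dedekind for the `f j`. Proof: `linearIndependent_monoidHom` and `inj`. -/
theorem indep_emb (F : FD K p) (hF : FDP F) (b : Fin (p + 1) → ℂ) (h : ∀ x : F.L, ∑ j, b j * F.f j x = 0) : b = 0 := by
  have h1 := (linearIndependent_monoidHom F.L ℂ).comp (fun j : Fin (p + 1) => (F.f j : F.L →* ℂ))
    (fun i j hij => hF.inj (RingHom.ext fun x => by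
      have := DFunLike.congr_fun hij x
      simpa using this))
  rw [Fintype.linearIndependent_iff] at h1
  funext j
  refine h1 b ?_ j
  funext x
  simpa [Finset.sum_apply] using h x

/-- row Fj, helper: a combination of embeddings different from `s` -/
theorem Fj_sum (F : FD K p) (hF : FDP F) (c : (F.L →ₐ[ℚ] ℂ) → ℂ) (S : Finset (F.L →ₐ[ℚ] ℂ))
    (hS : ∀ σ ∈ S, (σ : F.L →+* ℂ) ≠ Complex.ofRealHom.comp F.s) : ∃ a b : Fin (p + 1) → ℂ, ∀ x : F.L,
    ∑ σ ∈ S, c σ * σ x = ∑ j, a j * F.f j x + ∑ j, b j * (starRingEnd ℂ) (F.f j x) := by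
  classical
  induction S using Finset.induction_on with
  | empty => exact ⟨0, 0, fun x => by simp⟩
  | insert σ S hσ ih =>
    obtain ⟨a, b, hab⟩ := ih (fun τ hτ => hS τ (Finset.mem_insert_of_mem hτ))
    rcases hF.all (σ : F.L →+* ℂ) with ⟨j, hj⟩ | ⟨j, hj⟩ | h
    · refine ⟨a + Pi.single j (c σ), b, fun x => ?_⟩
      have hx : σ x = F.f j x := by
        rw [← hj]; rfl
      rw [Finset.sum_insert hσ, hab x, hx]
      simp only [Pi.add_apply, add_mul, Finset.sum_add_distrib, Pi.single_apply, ite_mul, zero_mul, Finset.sum_ite_eq', Finset.mem_univ, if_true]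
      ring
    · refine ⟨a, b + Pi.single j (c σ), fun x => ?_⟩
      have hx : σ x = (starRingEnd ℂ) (F.f j x) := by
        have : (σ : F.L →+* ℂ) x = ((starRingEnd ℂ).comp (F.f j)) x := by rw [hj]
        exact this
      rw [Finset.sum_insert hσ, hab x, hx]
      simp only [Pi.add_apply, add_mul, Finset.sum_add_distrib, Pi.single_apply, ite_mul, zero_mul, Finset.sum_ite_eq', Finset.mem_univ, if_true]
      ring
    · exact absurd h (hS σ (Finset.mem_insert_self _ _))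

/-- row Fj. On a proper `ℚ`-subspace the embedding `s` is a combination of the others. Proof: a proper subspace `X` has `μ ≠ 0` in `L` with `Tr (μ x) = 0` for all `x ∈ X` (the trace form is
nondegenerate: `traceForm_nondegenerate ℚ L`; a nonzero functional killing `X`, `Submodule.exists_le_ker_of_lt_top`, is `x ↦ Tr (μ x)`: `LinearMap.BilinForm.toDual` / `BilinForm.dualBasis`), and
`trace_eq_sum_embeddings ℂ`: `0 = ∑_g g μ * g x` over all embeddings `g : L →ₐ[ℚ] ℂ`; the term of `s` has the nonzero coefficient `s μ` and all other terms are multiples of `f j x` or `conj (f j x)`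
(by `all`, and `s ≠ f j`, `s ≠ conj f j` so that `s` occurs only once). -/
theorem s_of_proper (F : FD K p) (hF : FDP F) (X : Submodule ℚ F.L) (hX : X ≠ ⊤) : ∃ a b : Fin (p + 1) → ℂ, ∀ x ∈ X,
    (F.s x : ℂ) = ∑ j, a j * F.f j x + ∑ j, b j * (starRingEnd ℂ) (F.f j x) := by
  classical
  have hfd : FiniteDimensional ℚ F.L := by
    apply FiniteDimensional.of_finrank_pos
    rw [hF.dL]; positivity
  obtain ⟨φ, hφ0, hφ⟩ := Submodule.exists_le_ker_of_lt_top X (lt_top_iff_ne_top.2 hX)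
  have hnd : (Algebra.traceForm ℚ F.L).Nondegenerate := traceForm_nondegenerate ℚ F.L
  obtain ⟨μ, hμ⟩ : ∃ μ : F.L, ∀ x, φ x = Algebra.trace ℚ F.L (μ * x) := by
    refine ⟨(LinearMap.BilinForm.toDual (Algebra.traceForm ℚ F.L) hnd).symm φ, fun x => ?_⟩
    have h := (LinearMap.BilinForm.toDual (Algebra.traceForm ℚ F.L) hnd).apply_symm_apply φ
    have h2 := congrArg (fun ψ => ψ x) h
    simp only [LinearMap.BilinForm.toDual_def, Algebra.traceForm_apply] at h2
    exact h2.symm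
  have hμ0 : μ ≠ 0 := by
    rintro rfl
    apply hφ0
    ext x
    rw [hμ x]; simp
  obtain ⟨σs, hσs⟩ : ∃ σs : F.L →ₐ[ℚ] ℂ, (σs : F.L →+* ℂ) = Complex.ofRealHom.comp F.s :=
    ⟨RingHom.toRatAlgHom (Complex.ofRealHom.comp F.s), by ext x; rfl⟩
  have hs : ∀ x, σs x = (F.s x : ℂ) := by
    intro x
    have : (σs : F.L →+* ℂ) x = (Complex.ofRealHom.comp F.s) x := by rw [hσs]
    exact this
  have hsμ : σs μ ≠ 0 := by
    rw [Ne, map_eq_zero]; exact hμ0
  obtain ⟨a, b, hab⟩ := Fj_sum F hF (fun σ => -(σs μ)⁻¹ * σ μ) (Finset.univ.erase σs) (by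
    intro σ hσ h
    apply (Finset.mem_erase.1 hσ).1
    rw [← hσs] at h
    exact AlgHom.coe_ringHom_injective h)
  refine ⟨a, b, fun x hx => ?_⟩
  rw [← hab x]
  have h0 : ∑ σ : F.L →ₐ[ℚ] ℂ, σ μ * σ x = 0 := by
    have h1 := trace_eq_sum_embeddings (K := ℚ) (L := F.L) ℂ (x := μ * x)
    rw [← hμ x, LinearMap.mem_ker.1 (hφ hx), map_zero] at h1
    rw [h1]
    apply Finset.sum_congr rfl
    intro σ _
    rw [map_mul]
  rw [← Finset.add_sum_erase _ _ (Finset.mem_univ σs)] at h0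
  have h2 : ∑ σ ∈ Finset.univ.erase σs, -(σs μ)⁻¹ * σ μ * σ x = -(σs μ)⁻¹ * ∑ σ ∈ Finset.univ.erase σs, σ μ * σ x := by
    rw [Finset.mul_sum]
    apply Finset.sum_congr rfl
    intro σ _
    ring
  rw [h2, ← hs x]
  have h3 : ∑ σ ∈ Finset.univ.erase σs, σ μ * σ x = -(σs μ * σs x) := by
    linear_combination h0
  rw [h3]
  field_simp

theorem Fk_nf (F : FD K p) (hF : FDP F) : NumberField F.L where
  to_charZero := inferInstance
  to_finiteDimensional := FiniteDimensional.of_finrank_pos (by rw [hF.dL]; omega)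

/-- the real embedding of `L` -/
def Fk_e0 (F : FD K p) (hF : FDP F) : F.L →+* ℝ where
  toFun x := (x : ℂ).re
  map_one' := by simp
  map_mul' x y := by
    have hx := ((hF.hL x).1 x.2).2
    have hy := ((hF.hL y).1 y.2).2
    simp [Complex.mul_re, hx, hy]
  map_zero' := by simp
  map_add' x y := by simp

theorem Fk_e0_coe (F : FD K p) (hF : FDP F) (x : F.L) : ((Fk_e0 F hF x : ℝ) : ℂ) = (x : ℂ) := by
  have hx := ((hF.hL x).1 x.2).2
  exact Complex.ext rfl (by rw [Complex.ofReal_im]; exact hx.symm)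

/-- row Fk. The covering lemma for `L`. Proof: `cov_field F.L p` with `e0 x := (x : ℂ).re` (a ring homomorphism, as `L` is real), `e1 := s`, `es i := f i.succ`; `NumberField F.L` from `dL`
(`finrank > 0`). `l : 𝓞 L`, integral over `ℤ` (`RingOfIntegers.isIntegral_coe`). -/
theorem cov_L (F : FD K p) (hF : FDP F) : ∃ C : ℝ, 0 < C ∧ ∀ r ρ k : ℝ, 0 < r → 0 < ρ → 0 < k → C ≤ r * ρ ^ (2 * p) * k → ∀ (x : ℝ) (w : Fin p → ℂ) (y : ℝ),
    ∃ l : F.L, IsIntegral ℤ l ∧ |x - (l : ℂ).re| ≤ r ∧ (∀ i : Fin p, ‖w i - F.f i.succ l‖ ≤ ρ) ∧ |y - F.s l| ≤ k := by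
  have hnf := Fk_nf F hF
  obtain ⟨C, hC, h⟩ := cov_field F.L p hF.dL (Fk_e0 F hF) F.s (by
      intro he
      apply hF.sne 0
      apply RingHom.ext
      intro x
      rw [← he, RingHom.comp_apply, FD.f, RingHom.comp_apply, hF.e0]
      exact Fk_e0_coe F hF x) (fun i => F.f i.succ) (fun i j hij => Fin.succ_injective _ (hF.inj hij)) (fun i => hF.nr _ (Fin.succ_ne_zero i))
      (fun i j => hF.cjne _ _ (Or.inl (Fin.succ_ne_zero i)))
  refine ⟨C, hC, fun r ρ k hr hρ hk h1 x w y => ?_⟩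
  obtain ⟨l, h2, h3, h4⟩ := h r ρ k hr hρ hk h1 x w y
  exact ⟨l, NumberField.RingOfIntegers.isIntegral_coe l, h2, h3, h4⟩

/-- row Fl. The integers of `L` form a finitely generated group. Proof: `NumberField.RingOfIntegers.basis` (`ℤ`-basis of `𝓞 L`); `b i := (basis i : L)`. -/
theorem int_gen (F : FD K p) (hF : FDP F) : ∃ (N : ℕ) (b : Fin N → F.L), ∀ l : F.L, IsIntegral ℤ l → ∃ a : Fin N → ℤ, l = ∑ i, (a i : F.L) * b i := by
  have hnf := Fk_nf F hF
  let b := Module.finBasis ℤ (NumberField.RingOfIntegers F.L)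
  refine ⟨_, fun i => ((b i : NumberField.RingOfIntegers F.L) : F.L), fun l hl => ?_⟩
  obtain ⟨u, hu⟩ : ∃ u : NumberField.RingOfIntegers F.L, (u : F.L) = l := ⟨⟨l, hl⟩, rfl⟩
  refine ⟨fun i => b.repr u i, ?_⟩
  have h1 := b.sum_repr u
  have h2 := congrArg (fun v : NumberField.RingOfIntegers F.L => (v : F.L)) h1
  simp only [map_sum, zsmul_eq_mul, map_mul, map_intCast] at h2
  rw [← hu, ← h2]

end Pool.Agent.LT.VA
end

end

section

/-! # T3: zeros of the theta function (MP_f58a57_nt, pairs) -/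

open Complex Filter Topology

noncomputable section

namespace Pool.Agent.MSP

theorem t3_ee_eq_one (x : ℂ) : ee x = 1 ↔ ∃ k : ℤ, x = k := by
  unfold ee
  rw [Complex.exp_eq_one_iff]
  have hpi : (2 * Real.pi * I : ℂ) ≠ 0 := by
    simp [Real.pi_ne_zero, Complex.I_ne_zero]
  constructor
  · rintro ⟨k, hk⟩
    refine ⟨k, mul_left_cancel₀ hpi ?_⟩
    rw [hk]; ring
  · rintro ⟨k, rfl⟩
    exact ⟨k, by ring⟩

theorem t3_shift (τ : ℂ) (hτ : 0 < τ.im) (t : ℂ) (n : ℤ) : th τ (t + n * τ) = 0 ↔ th τ t = 0 := by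
  induction n using Int.induction_on with
  | zero => simp
  | succ n ih =>
    have h1 : t + ((n + 1 : ℤ) : ℂ) * τ = (t + (n : ℤ) * τ) + τ := by push_cast; ring
    rw [h1, th_add_tau τ hτ, ← ih, mul_eq_zero, neg_eq_zero]
    simp [Complex.exp_ne_zero]
  | pred n ih =>
    have h1 : t + ((-n : ℤ) : ℂ) * τ = (t + ((-n - 1 : ℤ) : ℂ) * τ) + τ := by push_cast; ring
    rw [h1, th_add_tau τ hτ, mul_eq_zero, neg_eq_zero] at ih
    simpa [Complex.exp_ne_zero] using ih

/-- T3a. PROOF. ← : `sin(πm) = 0` and the functional equations T2 (or: some factor of the product is zero; `th` vanishes at `m`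
and then at `m + nτ` by induction with `th_add_tau`, also backwards). → : if `th τ t = 0` then `sin(πt) = 0` (so `t ∈ ℤ`,
`Complex.sin_eq_zero_iff`) or `thp τ t = 0`, so by `thp_ne_zero` `ee(±t + (n+1)τ) = 1` for some `n`, so
`±t + (n+1)τ ∈ ℤ` (`Complex.exp_eq_one_iff`). -/
theorem th_eq_zero_iff (τ : ℂ) (hτ : 0 < τ.im) (t : ℂ) : th τ t = 0 ↔ ∃ m n : ℤ, t = m + n * τ := by
  have hpi : (Real.pi : ℂ) ≠ 0 := Complex.ofReal_ne_zero.2 Real.pi_ne_zero
  constructor
  · intro h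
    have h0 : Complex.sin (Real.pi * t) * thp τ t = 0 := h
    rcases mul_eq_zero.1 h0 with h1 | h1
    · obtain ⟨k, hk⟩ := Complex.sin_eq_zero_iff.1 h1
      refine ⟨k, 0, ?_⟩
      have h2 : t = k := mul_left_cancel₀ hpi (by rw [hk]; ring)
      rw [h2]; simp
    · by_contra hcon
      push Not at hcon
      refine thp_ne_zero τ hτ t ?_ h1
      intro n
      constructor
      · intro h2
        obtain ⟨k, hk⟩ := (t3_ee_eq_one _).1 h2
        refine hcon k (-(n + 1)) ?_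
        push_cast
        linear_combination hk
      · intro h2
        obtain ⟨k, hk⟩ := (t3_ee_eq_one _).1 h2
        refine hcon (-k) (n + 1) ?_
        push_cast
        linear_combination -hk
  · rintro ⟨m, n, rfl⟩
    rw [t3_shift τ hτ]
    unfold th
    rw [Complex.sin_eq_zero_iff.2 ⟨m, by ring⟩, zero_mul]

/-- T3b. `th' (0) = π thp τ 0 ≠ 0`. -/
theorem deriv_th_zero_ne (τ : ℂ) (hτ : 0 < τ.im) : deriv (th τ) 0 ≠ 0 := by
  have h1 : HasDerivAt (fun t : ℂ => Complex.sin (Real.pi * t))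
      (Complex.cos (Real.pi * 0) * (Real.pi * 1)) 0 :=
    (Complex.hasDerivAt_sin _).comp (0 : ℂ) ((hasDerivAt_id (0 : ℂ)).const_mul (Real.pi : ℂ))
  have h2 : HasDerivAt (thp τ) (deriv (thp τ) 0) 0 := (thp_differentiable τ hτ 0).hasDerivAt
  have h3 : HasDerivAt (th τ) _ 0 := h1.mul h2
  rw [h3.deriv]
  simp only [mul_zero, Complex.cos_zero, Complex.sin_zero, mul_one, one_mul, zero_mul, add_zero]
  refine mul_ne_zero (Complex.ofReal_ne_zero.2 Real.pi_ne_zero) (thp_ne_zero τ hτ 0 ?_)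
  intro n
  have key : ∀ k : ℤ, ((n : ℂ) + 1) * τ ≠ k := by
    intro k hk
    have him := congrArg Complex.im hk
    have h4 : (((n : ℂ) + 1) * τ).im = ((n : ℝ) + 1) * τ.im := by
      simp [Complex.mul_im]
    rw [h4] at him
    simp only [Complex.intCast_im] at him
    have h5 : (0 : ℝ) < ((n : ℝ) + 1) * τ.im := by positivity
    linarith
  constructor
  · intro h4
    obtain ⟨k, hk⟩ := (t3_ee_eq_one _).1 h4
    exact key k (by rw [← hk]; ring)
  · intro h4
    obtain ⟨k, hk⟩ := (t3_ee_eq_one _).1 h4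
    exact key k (by rw [← hk]; ring)

/-- T3c. real non-integers are not zeros. -/
theorem th_real_ne (τ : ℂ) (hτ : 0 < τ.im) (x : ℝ) (hx : ∀ m : ℤ, x ≠ m) : th τ x ≠ 0 := by
  rw [Ne, th_eq_zero_iff τ hτ]
  rintro ⟨m, n, h⟩
  have him := congrArg Complex.im h
  simp at him
  have hn : (n : ℝ) = 0 := by
    rcases him with h' | h'
    · exact_mod_cast h'
    · exact absurd h' hτ.ne'
  have hn' : n = 0 := by exact_mod_cast hn
  subst hn'
  apply hx m
  have hre := congrArg Complex.re h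
  simpa using hre

end Pool.Agent.MSP
end

end

section

/-!
# MP_f58a57_nt, large transcendence degree, version 2: linear algebra of the flag with blocks of length `p + 1`
-/

open Complex Matrix Module Submodule

noncomputable section

namespace Pool.Agent.LT.VA

open Pool.Agent.LT.DA

/-! ### Abstract lemmas -/

/-- row Ga. Two complex subspaces `A`, `conj A` of `X →ₗ[ℚ] ℂ` with `2 dim A ≤ dim X` and a nonzero real element in `A` do not span. Proof: real dimensions (`finrank ℝ = 2 finrank ℂ`):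
the real-linear map `A × A → (X →ₗ[ℚ] ℂ)`, `(a, b) ↦ a + conj ∘ b` is surjective (`hspan`), its kernel contains `(g, -g)` and `(I g, I g)`, which are independent over `ℝ`;
`finrank ℂ (X →ₗ[ℚ] ℂ) = finrank ℚ X` (`Module.finrank_linearMap_self`). So `2 h ≤ 4 dim A - 2 ≤ 2 h - 2`. -/
theorem no_conj {X : Type*} [AddCommGroup X] [Module ℚ X] [FiniteDimensional ℚ X] (A : Submodule ℂ (X →ₗ[ℚ] ℂ)) (hA : 2 * finrank ℂ A ≤ finrank ℚ X)
    (g : X →ₗ[ℚ] ℂ) (hgA : g ∈ A) (hg0 : g ≠ 0) (hgr : ∀ x, (g x).im = 0)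
    (hspan : ∀ u : X →ₗ[ℚ] ℂ, ∃ a ∈ A, ∃ b ∈ A, ∀ x, u x = a x + (starRingEnd ℂ) (b x)) : False := by
  classical
  set cj : ℂ →ₗ[ℚ] ℂ := (starRingEnd ℂ).toAddMonoidHom.toRatLinearMap with hcj
  have hcjx : ∀ z : ℂ, cj z = (starRingEnd ℂ) z := fun z => rfl
  have hdim : finrank ℂ (X →ₗ[ℚ] ℂ) = finrank ℚ X := Module.finrank_linearMap_self ℚ ℂ X
  set b := Module.finBasis ℂ A with hb
  set v : Fin (finrank ℂ A) → (X →ₗ[ℚ] ℂ) := fun i => cj.comp (b i : X →ₗ[ℚ] ℂ) with hv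
  set S : Submodule ℂ (X →ₗ[ℚ] ℂ) := Submodule.span ℂ (Set.range v) with hS
  have hScard : finrank ℂ S ≤ finrank ℂ A := by
    have h := finrank_range_le_card (R := ℂ) v
    simpa [Set.finrank, hS] using h
  have hmem : ∀ a ∈ A, cj.comp a ∈ S := by
    intro a ha
    have h1 : (⟨a, ha⟩ : A) = ∑ i, b.repr ⟨a, ha⟩ i • b i := (b.sum_repr ⟨a, ha⟩).symm
    have h2 : a = ∑ i, b.repr ⟨a, ha⟩ i • (b i : X →ₗ[ℚ] ℂ) := by
      have h3 := congrArg A.subtype h1
      rw [map_sum] at h3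
      simpa only [map_smul, Submodule.subtype_apply] using h3
    have h4 : cj.comp a = ∑ i, (starRingEnd ℂ) (b.repr ⟨a, ha⟩ i) • v i := by
      ext x
      have h5 := LinearMap.congr_fun h2 x
      simp only [LinearMap.comp_apply, hcjx]
      rw [h5]
      simp only [LinearMap.sum_apply, LinearMap.smul_apply, smul_eq_mul, map_sum, map_mul, hv,
        LinearMap.comp_apply, hcjx]
    rw [h4]
    exact Submodule.sum_mem _ fun i _ => S.smul_mem _ (Submodule.subset_span ⟨i, rfl⟩)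
  have htop : A ⊔ S = ⊤ := by
    rw [eq_top_iff]
    intro u _
    obtain ⟨a, ha, c, hc, hu⟩ := hspan u
    have h1 : u = a + cj.comp c := by
      ext x
      rw [hu x]
      rfl
    rw [h1]
    exact Submodule.add_mem_sup ha (hmem c hc)
  have hgS : g ∈ S := by
    have h1 : cj.comp g = g := by
      ext x
      simp only [LinearMap.comp_apply, hcjx]
      exact Complex.conj_eq_iff_im.2 (hgr x)
    have h2 := hmem g hgA
    rwa [h1] at h2
  have hinf : 1 ≤ finrank ℂ (A ⊓ S : Submodule ℂ (X →ₗ[ℚ] ℂ)) := by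
    have hne : (A ⊓ S : Submodule ℂ (X →ₗ[ℚ] ℂ)) ≠ ⊥ := by
      intro h
      have h1 : g ∈ (A ⊓ S : Submodule ℂ (X →ₗ[ℚ] ℂ)) := ⟨hgA, hgS⟩
      rw [h, Submodule.mem_bot] at h1
      exact hg0 h1
    exact Submodule.one_le_finrank_iff.2 hne
  have hsum := Submodule.finrank_sup_add_finrank_inf_eq A S
  rw [htop, finrank_top, hdim] at hsum
  omega

/-- the functionals on `X` induced by `RC` through `ψ : Λ → X` -/
def AX {n : ℕ} (RC : Submodule ℂ (Fin n → ℂ)) (Λ : Submodule ℚ (Fin n → ℚ)) {X : Type*} [AddCommGroup X] [Module ℚ X] (ψ : Λ →ₗ[ℚ] X) : Submodule ℂ (X →ₗ[ℚ] ℂ) where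
  carrier := {g | ∃ b ∈ RC, ∀ q : Λ, dq b (q : Fin n → ℚ) = g (ψ q)}
  add_mem' := by
    rintro g g' ⟨b, hb, h⟩ ⟨b', hb', h'⟩
    refine ⟨b + b', RC.add_mem hb hb', fun q => ?_⟩
    have e : dq (b + b') (q : Fin n → ℚ) = dq b q + dq b' q := by
      simp only [dq, Pi.add_apply, add_mul, Finset.sum_add_distrib]
    rw [e, h, h', LinearMap.add_apply]
  zero_mem' := ⟨0, RC.zero_mem, fun q => by simp [dq]⟩
  smul_mem' := by
    rintro a g ⟨b, hb, h⟩
    refine ⟨a • b, RC.smul_mem a hb, fun q => ?_⟩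
    have e : dq (a • b) (q : Fin n → ℚ) = a * dq b q := by
      simp only [dq, Pi.smul_apply, smul_eq_mul, Finset.mul_sum, mul_assoc]
    rw [e, h, LinearMap.smul_apply, smul_eq_mul]

theorem Gb_dq_sum {n : ℕ} {κ : Type*} (s : Finset κ) (g : κ → ℂ) (v : κ → Fin n → ℂ) (q : Fin n → ℚ) :
    dq (∑ k ∈ s, g k • v k) q = ∑ k ∈ s, g k * dq (v k) q := by
  simp only [dq, Finset.sum_apply, Pi.smul_apply, smul_eq_mul, Finset.sum_mul, Finset.mul_sum]
  rw [Finset.sum_comm]
  refine Finset.sum_congr rfl fun k _ => Finset.sum_congr rfl fun j _ => ?_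
  ring

theorem Gb_dq_add {n : ℕ} (v w : Fin n → ℂ) (q : Fin n → ℚ) : dq (v + w) q = dq v q + dq w q := by
  simp only [dq, Pi.add_apply, add_mul, Finset.sum_add_distrib]

/-- row Gb. The dimension of `AX`. Proof: `a := finrank (AX RC Λ ψ)`, a basis `g_1, ..., g_a`, lifts `b_1, ..., b_a ∈ RC` with `b_j · q = g_j (ψ q)` on `Λ`. `Λ' := {q ∈ Λ | ψ q = 0}` (the image of `ker ψ` in `Fin n → ℚ`)
has dimension `finrank Λ - finrank X > 0`. The `i + a` vectors `x_l`, `b_j` are in `RC ⊓ ann ℂ Λ'` and independent (a relation gives `∑ c_j g_j (ψ q) = 0` on `Λ`, so `∑ c_j g_j = 0` by surjectivity of `ψ`,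
`c = 0`). `hG Λ'`: `finrank Λ' + 2 (i + a) + 1 ≤ 2 (c + 1)`, i.e. `2 a ≤ 2 c + 1 - 2 i - finrank Λ + finrank X = finrank X`. -/
theorem finrank_AX {n c i : ℕ} (RC : Submodule ℂ (Fin n → ℂ)) (hRC : finrank ℂ RC = c + 1)
    (hG : ∀ Λ : Submodule ℚ (Fin n → ℚ), Λ ≠ ⊥ → finrank ℚ Λ + 2 * finrank ℂ (RC ⊓ ann ℂ Λ : Submodule ℂ (Fin n → ℂ)) + 1 ≤ 2 * finrank ℂ RC)
    (Λ : Submodule ℚ (Fin n → ℚ)) (hdim : finrank ℚ Λ + 2 * i = 2 * c + 1) (x : Fin i → Fin n → ℂ) (hx : LinearIndependent ℂ x)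
    (hxR : ∀ l, x l ∈ RC ⊓ ann ℂ Λ) {X : Type*} [AddCommGroup X] [Module ℚ X] [FiniteDimensional ℚ X] (ψ : Λ →ₗ[ℚ] X) (hψ : Function.Surjective ψ)
    (hlt : finrank ℚ X < finrank ℚ Λ) : 2 * finrank ℂ (AX RC Λ ψ) ≤ finrank ℚ X := by
  rcases Nat.eq_zero_or_pos (finrank ℂ (AX RC Λ ψ)) with h0 | hpos
  · rw [h0]
    exact Nat.zero_le _
  have : Module.Finite ℂ (AX RC Λ ψ) := Module.finite_of_finrank_pos hpos
  obtain ⟨a, ha⟩ : ∃ a, a = finrank ℂ (AX RC Λ ψ) := ⟨_, rfl⟩
  have g : Basis (Fin a) ℂ (AX RC Λ ψ) := finBasisOfFinrankEq ℂ _ ha.symm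
  have hb : ∀ j, ∃ b ∈ RC, ∀ q : Λ, dq b (q : Fin n → ℚ) = (g j : X →ₗ[ℚ] ℂ) (ψ q) := fun j => (g j).2
  choose b hbR hbq using hb
  -- the kernel
  obtain ⟨Λ', hΛ'⟩ : ∃ Λ' : Submodule ℚ (Fin n → ℚ), Λ' = (LinearMap.ker ψ).map Λ.subtype := ⟨_, rfl⟩
  have hfr : finrank ℚ Λ' + finrank ℚ X = finrank ℚ Λ := by
    have h1 : finrank ℚ Λ' = finrank ℚ (LinearMap.ker ψ) := by
      rw [hΛ']
      exact (LinearEquiv.finrank_eq (Submodule.equivMapOfInjective Λ.subtype Λ.subtype_injective (LinearMap.ker ψ))).symm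
    have h2 := LinearMap.finrank_range_add_finrank_ker ψ
    rw [LinearMap.range_eq_top.2 hψ, finrank_top] at h2
    omega
  have hne : Λ' ≠ ⊥ := by
    intro h
    rw [h, finrank_bot] at hfr
    omega
  have hmem : ∀ q ∈ Λ', ∃ k : Λ, ψ k = 0 ∧ (k : Fin n → ℚ) = q := by
    intro q hq
    rw [hΛ', Submodule.mem_map] at hq
    obtain ⟨k, hk, hkq⟩ := hq
    exact ⟨k, LinearMap.mem_ker.1 hk, hkq⟩
  have hGL := hG Λ' hne
  rw [hRC] at hGL
  -- the family
  have hxA : ∀ l, x l ∈ RC ⊓ ann ℂ Λ' := by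
    intro l
    refine ⟨(hxR l).1, fun q hq => ?_⟩
    obtain ⟨k, _, rfl⟩ := hmem q hq
    exact (hxR l).2 k k.2
  have hbA : ∀ j, b j ∈ RC ⊓ ann ℂ Λ' := by
    intro j
    refine ⟨hbR j, fun q hq => ?_⟩
    obtain ⟨k, hk, rfl⟩ := hmem q hq
    rw [hbq j k, hk, map_zero]
  have hli : LinearIndependent ℂ (Sum.elim x b) := by
    rw [Fintype.linearIndependent_iff]
    intro gg hgg
    rw [Fintype.sum_sum_type] at hgg
    simp only [Sum.elim_inl, Sum.elim_inr] at hgg
    have h1 : ∀ q : Λ, ∑ j, gg (Sum.inr j) * (g j : X →ₗ[ℚ] ℂ) (ψ q) = 0 := by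
      intro q
      have h2 := congrArg (fun v => dq v (q : Fin n → ℚ)) hgg
      simp only [Gb_dq_add, Gb_dq_sum] at h2
      have h3 : ∑ l, gg (Sum.inl l) * dq (x l) (q : Fin n → ℚ) = 0 :=
        Finset.sum_eq_zero fun l _ => by rw [(hxR l).2 q q.2, mul_zero]
      have h4 : dq (0 : Fin n → ℂ) (q : Fin n → ℚ) = 0 := by simp [dq]
      rw [h3, h4, zero_add] at h2
      rw [← h2]
      exact Finset.sum_congr rfl fun j _ => by rw [hbq j q]
    have h5 : ∑ j, gg (Sum.inr j) • (g j) = 0 := by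
      apply Subtype.ext
      apply LinearMap.ext
      intro y
      obtain ⟨q, rfl⟩ := hψ y
      have h6 := h1 q
      rw [Submodule.coe_sum, LinearMap.sum_apply, Submodule.coe_zero, LinearMap.zero_apply, ← h6]
      rfl
    have h6 : ∀ j, gg (Sum.inr j) = 0 := Fintype.linearIndependent_iff.1 g.linearIndependent _ h5
    have h7 : ∑ l, gg (Sum.inl l) • x l = 0 := by
      have h8 : ∑ j, gg (Sum.inr j) • b j = 0 :=
        Finset.sum_eq_zero fun j _ => by rw [h6 j, zero_smul]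
      rw [h8, add_zero] at hgg
      exact hgg
    have h9 := Fintype.linearIndependent_iff.1 hx _ h7
    rintro (l | j)
    · exact h9 l
    · exact h6 j
  have hle : i + a ≤ finrank ℂ (RC ⊓ ann ℂ Λ' : Submodule ℂ (Fin n → ℂ)) := by
    have h1 : Submodule.span ℂ (Set.range (Sum.elim x b)) ≤ RC ⊓ ann ℂ Λ' := by
      rw [Submodule.span_le]
      rintro _ ⟨s, rfl⟩
      rcases s with l | j
      · exact hxA l
      · exact hbA j
    have h2 := finrank_span_eq_card hli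
    have h3 := Submodule.finrank_mono h1
    rw [h2, Fintype.card_sum, Fintype.card_fin, Fintype.card_fin] at h3
    exact h3
  rw [← ha]
  omega

variable {K : Subfield ℂ} {p : ℕ}

theorem Gc_add_left {L : Type*} [Field L] [CharZero L] {n : ℕ} (x y : Fin n → L) (q : Fin n → ℚ) :
    dq (x + y) q = dq x q + dq y q := by
  simp only [dq, Pi.add_apply, add_mul, Finset.sum_add_distrib]

theorem Gc_add_right {L : Type*} [Field L] [CharZero L] {n : ℕ} (x : Fin n → L) (p q : Fin n → ℚ) :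
    dq x (p + q) = dq x p + dq x q := by
  simp only [dq, Pi.add_apply, Rat.cast_add, mul_add, Finset.sum_add_distrib]

theorem Gc_smul_left {L : Type*} [Field L] [CharZero L] {n : ℕ} (r : ℚ) (x : Fin n → L) (q : Fin n → ℚ) :
    dq (r • x) q = (r : L) * dq x q := by
  simp only [dq, Pi.smul_apply, Rat.smul_def]
  rw [Finset.mul_sum]
  exact Finset.sum_congr rfl fun j _ => by ring

theorem Gc_smul_right {L : Type*} [Field L] [CharZero L] {n : ℕ} (r : ℚ) (x : Fin n → L) (q : Fin n → ℚ) :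
    dq x (r • q) = (r : L) * dq x q := by
  simp only [dq, Pi.smul_apply, smul_eq_mul, Rat.cast_mul]
  rw [Finset.mul_sum]
  exact Finset.sum_congr rfl fun j _ => by ring

/-- row Gc (F2): a new functional, real on `Λ` and not zero on `Λ`. Proof: as `DA.exists_real` (D3): `W` from `hF.hW`, `q t` (`t < λ`) a basis of `Λ`, `Φ : R →ₗ[ℚ] (Fin λ → W)`, `y ↦ (Im (dq y (q t)))_t`.
`finrank ℚ R = 4 (p+1) finrank R`, so `finrank ℚ (ker Φ) ≥ 4 (p+1) finrank R - 2 (p+1) λ ≥ (p+1)(4 i + 2)`, and `X := R ⊓ ann F.M Λ` has `finrank ℚ X = 4 (p+1) finrank X ≤ 4 (p+1) i`. So there is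
`y ∈ ker Φ`, `y ∉ ann`. -/
theorem exists_realG (F : FD K p) (hF : FDP F) {n : ℕ} (R : Submodule F.M (Fin n → F.M)) (Λ : Submodule ℚ (Fin n → ℚ)) (i : ℕ)
    (hdim : 2 * i + finrank ℚ Λ + 1 ≤ 2 * finrank F.M R) (hann : finrank F.M (R ⊓ ann F.M Λ : Submodule F.M (Fin n → F.M)) ≤ i) :
    ∃ y ∈ R, (∀ q ∈ Λ, ((dq y q : F.M) : ℂ).im = 0) ∧ ∃ q ∈ Λ, dq y q ≠ 0 := by
  classical
  obtain ⟨W, hW, hWf, hKW⟩ := hF.hW
  have hMf : FiniteDimensional ℚ F.M := FiniteDimensional.of_finrank_pos (by rw [hF.dM]; omega)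
  have hRf : FiniteDimensional ℚ R := Module.Finite.trans F.M R
  set lam := finrank ℚ Λ with hlam
  let q : Basis (Fin lam) ℚ Λ := Module.finBasis ℚ Λ
  let Φ : R →ₗ[ℚ] (Fin lam → W) :=
    { toFun := fun y t => ⟨((dq (y : Fin n → F.M) (q t : Fin n → ℚ) : F.M) : ℂ).im,
        hKW _ (SetLike.coe_mem _)⟩
      map_add' := by
        intro y y'
        funext t
        apply Subtype.ext
        show ((dq ((y : Fin n → F.M) + (y' : Fin n → F.M)) (q t : Fin n → ℚ) : F.M) : ℂ).im =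
          ((dq (y : Fin n → F.M) (q t : Fin n → ℚ) : F.M) : ℂ).im +
          ((dq (y' : Fin n → F.M) (q t : Fin n → ℚ) : F.M) : ℂ).im
        rw [Gc_add_left]
        simp
      map_smul' := by
        intro r y
        funext t
        apply Subtype.ext
        show ((dq (r • (y : Fin n → F.M)) (q t : Fin n → ℚ) : F.M) : ℂ).im =
          r • ((dq (y : Fin n → F.M) (q t : Fin n → ℚ) : F.M) : ℂ).im
        rw [Gc_smul_left, Rat.smul_def]
        have : (((r : F.M) : F.M) : ℂ) = ((r : ℝ) : ℂ) := by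
          push_cast
          rfl
        rw [Subfield.coe_mul, this, Complex.im_ofReal_mul] }
  have hrn := LinearMap.finrank_range_add_finrank_ker Φ
  have hR4 : 4 * (p + 1) * finrank F.M R = finrank ℚ R := by
    rw [← hF.dM]
    exact Module.finrank_mul_finrank ℚ F.M R
  have hcod : finrank ℚ (Fin lam → W) = lam * (2 * (p + 1)) := by
    rw [Module.finrank_pi_fintype, hW]
    simp
  have hrange : finrank ℚ (LinearMap.range Φ) ≤ lam * (2 * (p + 1)) := by
    rw [← hcod]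
    exact Submodule.finrank_le _
  set X : Submodule F.M (Fin n → F.M) := R ⊓ ann F.M Λ with hX
  have hX4 : 4 * (p + 1) * finrank F.M X = finrank ℚ X := by
    rw [← hF.dM]
    exact Module.finrank_mul_finrank ℚ F.M X
  have hXf : FiniteDimensional ℚ X := Module.Finite.trans F.M X
  have hex : ∃ y : R, Φ y = 0 ∧ (y : Fin n → F.M) ∉ X := by
    by_contra hno
    push Not at hno
    let g : LinearMap.ker Φ →ₗ[ℚ] X :=
      { toFun := fun y => ⟨((y : R) : Fin n → F.M), hno y y.2⟩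
        map_add' := by
          intro y y'
          rfl
        map_smul' := by
          intro r y
          rfl }
    have hg : Function.Injective g := by
      intro y y' hyy
      have h1 : (((y : R) : Fin n → F.M)) = (((y' : R) : Fin n → F.M)) :=
        congrArg (fun w : X => (w : Fin n → F.M)) hyy
      exact Subtype.ext (Subtype.ext h1)
    have h1 := LinearMap.finrank_le_finrank_of_injective hg
    have h2 : 2 * (p + 1) * (2 * i + lam + 1) ≤ 2 * (p + 1) * (2 * finrank F.M R) :=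
      Nat.mul_le_mul_left _ hdim
    have h3 : 4 * (p + 1) * finrank F.M X ≤ 4 * (p + 1) * i := Nat.mul_le_mul_left _ hann
    nlinarith
  obtain ⟨y, hy0, hyX⟩ := hex
  have hreal : ∀ q ∈ Λ, ((dq (y : Fin n → F.M) q : F.M) : ℂ).im = 0 := by
    let ψ : Λ →ₗ[ℚ] ℝ :=
      { toFun := fun p => ((dq (y : Fin n → F.M) (p : Fin n → ℚ) : F.M) : ℂ).im
        map_add' := by
          intro p p'
          show ((dq (y : Fin n → F.M) ((p : Fin n → ℚ) + (p' : Fin n → ℚ)) : F.M) : ℂ).im = _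
          rw [Gc_add_right]
          simp
        map_smul' := by
          intro r p
          show ((dq (y : Fin n → F.M) (r • (p : Fin n → ℚ)) : F.M) : ℂ).im =
            r • ((dq (y : Fin n → F.M) (p : Fin n → ℚ) : F.M) : ℂ).im
          rw [Gc_smul_right, Rat.smul_def]
          have : (((r : F.M) : F.M) : ℂ) = ((r : ℝ) : ℂ) := by
            push_cast
            rfl
          rw [Subfield.coe_mul, this, Complex.im_ofReal_mul] }
    have hψ : ψ = 0 := by
      refine q.ext fun t => ?_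
      have h1 : Φ y t = 0 := by rw [hy0]; rfl
      exact congrArg Subtype.val h1
    intro p hp
    have h2 : ψ ⟨p, hp⟩ = 0 := by rw [hψ]; rfl
    exact h2
  refine ⟨y, y.2, hreal, ?_⟩
  by_contra hno
  push Not at hno
  exact hyX ⟨y.2, fun q hq => hno q hq⟩

end Pool.Agent.LT.VA
end

end
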