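import Mathlib
import Pool.Agent.Lib.MP_f58a57_nt.LK.K002
import Pool.Agent.Lib.MP_f58a57_nt.LK.K006
import Pool.Agent.Lib.MP_f58a57_nt.LK.K007
import Pool.Agent.Lib.MP_f58a57_nt.LK.K011

namespace Pool.Agent.LT.D2b_
end Pool.Agent.LT.D2b_

section

/-!
# MP_f58a57_nt, large transcendence degree, part C (row lt-C-D2b)

D.2(c): the real-linear map (b,y) -> class of pt g b y in C^N / ker P is injective between spaces of real dimension 2c+2, so bijective; b, Y = its inverse composed with the projection.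
-/

open Complex Matrix MeasureTheory

noncomputable section

namespace Pool.Agent.LT

variable {c : ℕ}

namespace D2b_

/-- the point map as a real linear map -/
private def ptL {n : ℕ} (g : Fin n → ℤ) : ((Fin n → ℝ) × ℝ) →ₗ[ℝ] (Fin n → ℂ) where
  toFun q := pt g q.1 q.2
  map_add' a b := by
    funext j
    simp only [pt, Prod.fst_add, Prod.snd_add, Pi.add_apply, Complex.ofReal_add]
    ring
  map_smul' t a := by
    funext j
    simp only [pt, Prod.smul_fst, Prod.smul_snd, Pi.smul_apply, smul_eq_mul, Complex.ofReal_mul,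
      RingHom.id_apply, Complex.real_smul]
    ring

private theorem ptL_apply {n : ℕ} (g : Fin n → ℤ) (b : Fin n → ℝ) (y : ℝ) : ptL g (b, y) = pt g b y := rfl

end D2b_

open D2b_

theorem exists_dec (D : Dat c) (P : Matrix (Fin (2 * c + 1)) (Fin (2 * c + 1)) ℂ) (hP : P = D.Lt ∨ P = D.L) :
    ∃ (b : VN c →ₗ[ℝ] (Fin (2 * c + 1) → ℝ)) (Y : VN c →ₗ[ℝ] ℝ), Dec D P b Y := by
  classical
  have huniq := dec_uniq D P hP
  have hker := finrank_ker D P hP
  -- range of `P` over `ℂ`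
  have hrn := LinearMap.finrank_range_add_finrank_ker (Matrix.mulVecLin P)
  have hN : Module.finrank ℂ (Fin (2 * c + 1) → ℂ) = 2 * c + 1 := by simp
  rw [hker, hN] at hrn
  have hr : Module.finrank ℂ (LinearMap.range (Matrix.mulVecLin P)) = c + 1 := by omega
  -- the real linear map
  let PR : VN c →ₗ[ℝ] LinearMap.range (Matrix.mulVecLin P) :=
    ((Matrix.mulVecLin P).rangeRestrict).restrictScalars ℝ
  let f : ((Fin (2 * c + 1) → ℝ) × ℝ) →ₗ[ℝ] LinearMap.range (Matrix.mulVecLin P) := PR ∘ₗ ptL D.g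
  have hfinj : Function.Injective f := by
    rw [← LinearMap.ker_eq_bot, LinearMap.ker_eq_bot']
    rintro ⟨b', y⟩ h
    have h1 : P *ᵥ (pt D.g b' y) = 0 := by
      have := congrArg Subtype.val h
      simpa [f, PR, ptL_apply] using this
    obtain ⟨h2, h3⟩ := huniq b' y h1
    rw [h2, h3]; rfl
  have hdim : Module.finrank ℝ ((Fin (2 * c + 1) → ℝ) × ℝ) = Module.finrank ℝ (LinearMap.range (Matrix.mulVecLin P)) := by
    rw [Module.finrank_prod, ← Module.finrank_mul_finrank ℝ ℂ (LinearMap.range (Matrix.mulVecLin P)), hr,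
      Complex.finrank_real_complex]
    simp
    omega
  let e := LinearEquiv.ofInjectiveOfFinrankEq f hfinj hdim
  let q : VN c →ₗ[ℝ] ((Fin (2 * c + 1) → ℝ) × ℝ) := e.symm.toLinearMap ∘ₗ PR
  refine ⟨LinearMap.fst ℝ _ _ ∘ₗ q, LinearMap.snd ℝ _ _ ∘ₗ q, ⟨fun u => ?_, huniq⟩⟩
  have h1 : f (q u) = PR u := by
    have : e (q u) = PR u := by
      show e (e.symm (PR u)) = PR u
      exact e.apply_symm_apply _
    exact this
  have h2 : P *ᵥ (pt D.g (q u).1 (q u).2) = P *ᵥ u := by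
    exact congrArg Subtype.val h1
  show P *ᵥ (u - pt D.g (q u).1 (q u).2) = 0
  rw [Matrix.mulVec_sub, h2, sub_self]

theorem Dec.Y_pt {D : Dat c} {P : Matrix (Fin (2 * c + 1)) (Fin (2 * c + 1)) ℂ} {b : VN c →ₗ[ℝ] (Fin (2 * c + 1) → ℝ)} {Y : VN c →ₗ[ℝ] ℝ}
    (h : Dec D P b Y) (b' : Fin (2 * c + 1) → ℝ) (y : ℝ) : Y (pt D.g b' y) = y := by
  have h1 := h.dec (pt D.g b' y)
  have h2 : pt D.g b' y - pt D.g (b (pt D.g b' y)) (Y (pt D.g b' y)) =
      pt D.g (b' - b (pt D.g b' y)) (y - Y (pt D.g b' y)) := by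
    rw [← ptL_apply, ← ptL_apply, ← ptL_apply, ← map_sub]
    rfl
  rw [h2] at h1
  have h3 := (h.uniq _ _ h1).2
  linarith

theorem Dec.Y_g {D : Dat c} {P : Matrix (Fin (2 * c + 1)) (Fin (2 * c + 1)) ℂ} {b : VN c →ₗ[ℝ] (Fin (2 * c + 1) → ℝ)} {Y : VN c →ₗ[ℝ] ℝ}
    (h : Dec D P b Y) (x : ℝ) : Y ((x : ℂ) • D.gc) = 0 := by
  have h1 : (x : ℂ) • D.gc = pt D.g (fun j => x * (D.g j : ℝ)) 0 := by
    funext j
    simp [pt, Dat.gc]
  rw [h1, h.Y_pt]

end Pool.Agent.LT
end

end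

section

/-! # T6: behaviour of `wp` at the origin (MP_f58a57_nt, pairs) -/

open Complex Filter Topology

noncomputable section

namespace Pool.Agent.MSP

theorem t6_norm_ee (x : ℂ) : ‖ee x‖ = Real.exp (-(2 * Real.pi * x.im)) := by
  unfold ee
  rw [Complex.norm_exp]
  congr 1
  simp

/-- the bound for the terms -/
def t6_r (τ : ℂ) (n : ℕ) : ℝ := Real.exp (-(Real.pi * τ.im)) ^ (2 * n + 1)

theorem t6_r_pos (τ : ℂ) (n : ℕ) : 0 < t6_r τ n := by
  unfold t6_r
  positivity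

theorem t6_rho_lt (τ : ℂ) (hτ : 0 < τ.im) : Real.exp (-(Real.pi * τ.im)) < 1 := by
  rw [Real.exp_lt_one_iff]
  have := mul_pos Real.pi_pos hτ
  linarith

theorem t6_r_le (τ : ℂ) (hτ : 0 < τ.im) (n : ℕ) : t6_r τ n ≤ Real.exp (-(Real.pi * τ.im)) := by
  unfold t6_r
  calc Real.exp (-(Real.pi * τ.im)) ^ (2 * n + 1) ≤ Real.exp (-(Real.pi * τ.im)) ^ 1 :=
        pow_le_pow_of_le_one (Real.exp_pos _).le (t6_rho_lt τ hτ).le (by omega)
    _ = _ := pow_one _

theorem t6_r_summable (τ : ℂ) (hτ : 0 < τ.im) : Summable (t6_r τ) := by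
  have h1 := t6_rho_lt τ hτ
  have h0 := (Real.exp_pos (-(Real.pi * τ.im))).le
  have h2 : Summable (fun n : ℕ => Real.exp (-(Real.pi * τ.im)) *
      (Real.exp (-(Real.pi * τ.im)) ^ 2) ^ n) := by
    refine (summable_geometric_of_lt_one (by positivity) ?_).mul_left _
    exact pow_lt_one₀ h0 h1 (by norm_num)
  refine h2.congr fun n => ?_
  unfold t6_r
  rw [← pow_mul, pow_succ, mul_comm]

theorem t6_bound_add (τ : ℂ) {t : ℂ} (ht : ‖t‖ < τ.im / 2) (n : ℕ) :
    ‖ee ((n + 1) * τ + t)‖ ≤ t6_r τ n := by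
  rw [t6_norm_ee]
  unfold t6_r
  rw [← Real.exp_nat_mul, Real.exp_le_exp]
  have h1 := Complex.abs_im_le_norm t
  have h2 := abs_le.1 h1
  have h3 : (((n : ℂ) + 1) * τ + t).im = ((n : ℝ) + 1) * τ.im + t.im := by
    simp
  rw [h3]
  have h4 : ((n : ℝ) + 1 / 2) * τ.im ≤ ((n : ℝ) + 1) * τ.im + t.im := by nlinarith
  have h5 := mul_le_mul_of_nonneg_left h4 (mul_pos two_pos Real.pi_pos).le
  push_cast
  nlinarith

theorem t6_bound_sub (τ : ℂ) {t : ℂ} (ht : ‖t‖ < τ.im / 2) (n : ℕ) :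
    ‖ee ((n + 1) * τ - t)‖ ≤ t6_r τ n := by
  have := t6_bound_add τ (t := -t) (by rwa [norm_neg]) n
  rwa [← sub_eq_add_neg] at this

theorem t6_one_sub_ne {τ : ℂ} (hτ : 0 < τ.im) {n : ℕ} {x : ℂ} (hx : ‖x‖ ≤ t6_r τ n) :
    1 - x ≠ 0 := by
  intro h
  have h1 : x = 1 := (sub_eq_zero.1 h).symm
  rw [h1, norm_one] at hx
  exact absurd (hx.trans (t6_r_le τ hτ n)) (not_le.2 (t6_rho_lt τ hτ))

theorem t6_one_sub_norm {τ : ℂ} (hτ : 0 < τ.im) {n : ℕ} {x : ℂ} (hx : ‖x‖ ≤ t6_r τ n) :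
    1 - Real.exp (-(Real.pi * τ.im)) ≤ ‖1 - x‖ := by
  have h1 : ‖(1 : ℂ)‖ - ‖x‖ ≤ ‖1 - x‖ := norm_sub_norm_le _ _
  rw [norm_one] at h1
  have h2 := hx.trans (t6_r_le τ hτ n)
  linarith

theorem t6_hasDerivAt_add (τ t : ℂ) (n : ℕ) :
    HasDerivAt (fun t : ℂ => ee ((n + 1) * τ + t))
      (2 * Real.pi * I * ee ((n + 1) * τ + t)) t := by
  unfold ee
  have h1 : HasDerivAt (fun t : ℂ => 2 * Real.pi * I * (((n : ℂ) + 1) * τ + t))
      (2 * Real.pi * I * 1) t := ((hasDerivAt_id t).const_add _).const_mul _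
  have h2 := h1.cexp
  refine h2.congr_deriv ?_
  ring

theorem t6_hasDerivAt_sub (τ t : ℂ) (n : ℕ) :
    HasDerivAt (fun t : ℂ => ee ((n + 1) * τ - t))
      (-(2 * Real.pi * I * ee ((n + 1) * τ - t))) t := by
  unfold ee
  have h1 : HasDerivAt (fun t : ℂ => 2 * Real.pi * I * (((n : ℂ) + 1) * τ - t))
      (2 * Real.pi * I * (-1)) t := ((hasDerivAt_id t).const_sub _).const_mul _
  have h2 := h1.cexp
  refine h2.congr_deriv ?_
  ring

/-- the factors -/
def t6_f (τ : ℂ) (n : ℕ) (t : ℂ) : ℂ := (1 - ee ((n + 1) * τ + t)) * (1 - ee ((n + 1) * τ - t))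

/-- the logarithmic derivatives of the factors -/
def t6_L (τ : ℂ) (n : ℕ) (t : ℂ) : ℂ :=
  -(2 * Real.pi * I * (ee ((n + 1) * τ + t) / (1 - ee ((n + 1) * τ + t)))) +
    2 * Real.pi * I * (ee ((n + 1) * τ - t) / (1 - ee ((n + 1) * τ - t)))

/-- their derivatives -/
def t6_L' (τ : ℂ) (n : ℕ) (t : ℂ) : ℂ :=
  4 * Real.pi ^ 2 * (ee ((n + 1) * τ + t) / (1 - ee ((n + 1) * τ + t)) ^ 2) +
    4 * Real.pi ^ 2 * (ee ((n + 1) * τ - t) / (1 - ee ((n + 1) * τ - t)) ^ 2)

theorem t6_f_differentiable (τ : ℂ) (n : ℕ) : Differentiable ℂ (t6_f τ n) := by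
  intro t
  exact (((t6_hasDerivAt_add τ t n).const_sub 1).mul
    ((t6_hasDerivAt_sub τ t n).const_sub 1)).differentiableAt

theorem t6_logDeriv_f {τ : ℂ} (hτ : 0 < τ.im) {t : ℂ} (ht : ‖t‖ < τ.im / 2) (n : ℕ) :
    logDeriv (t6_f τ n) t = t6_L τ n t := by
  have hA := t6_one_sub_ne hτ (t6_bound_add τ ht n)
  have hB := t6_one_sub_ne hτ (t6_bound_sub τ ht n)
  have h := ((t6_hasDerivAt_add τ t n).const_sub 1).mul ((t6_hasDerivAt_sub τ t n).const_sub 1)
  rw [logDeriv_apply]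
  have h1 : deriv (t6_f τ n) t = -(2 * Real.pi * I * ee ((n + 1) * τ + t)) *
      (1 - ee ((n + 1) * τ - t)) + (1 - ee ((n + 1) * τ + t)) *
        -(-(2 * Real.pi * I * ee ((n + 1) * τ - t))) := h.deriv
  rw [h1]
  unfold t6_f t6_L
  field_simp

theorem t6_hasDerivAt_L {τ : ℂ} (hτ : 0 < τ.im) {t : ℂ} (ht : ‖t‖ < τ.im / 2) (n : ℕ) :
    HasDerivAt (t6_L τ n) (t6_L' τ n t) t := by
  have hA := t6_one_sub_ne hτ (t6_bound_add τ ht n)
  have hB := t6_one_sub_ne hτ (t6_bound_sub τ ht n)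
  have hI : (I : ℂ) ^ 2 = -1 := I_sq
  have h1 := ((t6_hasDerivAt_add τ t n).div ((t6_hasDerivAt_add τ t n).const_sub 1) hA).const_mul
    (2 * Real.pi * I)
  have h2 := ((t6_hasDerivAt_sub τ t n).div ((t6_hasDerivAt_sub τ t n).const_sub 1) hB).const_mul
    (2 * Real.pi * I)
  refine (h1.neg.add h2).congr_deriv ?_
  unfold t6_L'
  field_simp
  ring_nf
  simp only [hI]
  ring

theorem t6_L_bound {τ : ℂ} (hτ : 0 < τ.im) {t : ℂ} (ht : ‖t‖ < τ.im / 2) (n : ℕ) :
    ‖t6_L τ n t‖ ≤ 4 * Real.pi / (1 - Real.exp (-(Real.pi * τ.im))) * t6_r τ n := by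
  have h1 := t6_rho_lt τ hτ
  have key : ∀ x : ℂ, ‖x‖ ≤ t6_r τ n → ‖2 * Real.pi * I * (x / (1 - x))‖ ≤
      2 * Real.pi / (1 - Real.exp (-(Real.pi * τ.im))) * t6_r τ n := by
    intro x hx
    have h2 := t6_one_sub_norm hτ hx
    have h3 : 0 < 1 - Real.exp (-(Real.pi * τ.im)) := by linarith
    have h4 : ‖(2 * Real.pi * I * (x / (1 - x)) : ℂ)‖ = 2 * Real.pi * (‖x‖ / ‖1 - x‖) := by
      rw [norm_mul, norm_mul, norm_mul, norm_div, Complex.norm_I, Complex.norm_real,
        Complex.norm_ofNat, Real.norm_of_nonneg Real.pi_pos.le]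
      ring
    rw [h4]
    calc 2 * Real.pi * (‖x‖ / ‖1 - x‖) ≤
          2 * Real.pi * (t6_r τ n / (1 - Real.exp (-(Real.pi * τ.im)))) := by
          refine mul_le_mul_of_nonneg_left ?_ (by positivity)
          exact div_le_div₀ (t6_r_pos τ n).le hx h3 h2
      _ = _ := by ring
  unfold t6_L
  refine (norm_add_le _ _).trans ?_
  rw [norm_neg]
  have e1 := key _ (t6_bound_add τ ht n)
  have e2 := key _ (t6_bound_sub τ ht n)
  refine (add_le_add e1 e2).trans (le_of_eq ?_)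
  ring

theorem t6_L'_bound {τ : ℂ} (hτ : 0 < τ.im) {t : ℂ} (ht : ‖t‖ < τ.im / 2) (n : ℕ) :
    ‖t6_L' τ n t‖ ≤ 8 * Real.pi ^ 2 / (1 - Real.exp (-(Real.pi * τ.im))) ^ 2 * t6_r τ n := by
  have h1 := t6_rho_lt τ hτ
  have key : ∀ x : ℂ, ‖x‖ ≤ t6_r τ n → ‖4 * (Real.pi : ℂ) ^ 2 * (x / (1 - x) ^ 2)‖ ≤
      4 * Real.pi ^ 2 / (1 - Real.exp (-(Real.pi * τ.im))) ^ 2 * t6_r τ n := by
    intro x hx
    have h2 := t6_one_sub_norm hτ hx
    have h3 : 0 < 1 - Real.exp (-(Real.pi * τ.im)) := by linarith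
    have h4 : ‖(4 * (Real.pi : ℂ) ^ 2 * (x / (1 - x) ^ 2) : ℂ)‖ =
        4 * Real.pi ^ 2 * (‖x‖ / ‖1 - x‖ ^ 2) := by
      rw [norm_mul, norm_mul, norm_div, norm_pow, norm_pow, Complex.norm_real,
        Complex.norm_ofNat, Real.norm_of_nonneg Real.pi_pos.le]
    rw [h4]
    calc 4 * Real.pi ^ 2 * (‖x‖ / ‖1 - x‖ ^ 2) ≤
          4 * Real.pi ^ 2 * (t6_r τ n / (1 - Real.exp (-(Real.pi * τ.im))) ^ 2) := by
          refine mul_le_mul_of_nonneg_left ?_ (by positivity)
          exact div_le_div₀ (t6_r_pos τ n).le hx (by positivity)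
            (pow_le_pow_left₀ h3.le h2 2)
      _ = _ := by ring
  unfold t6_L'
  refine (norm_add_le _ _).trans ?_
  have e1 := key _ (t6_bound_add τ ht n)
  have e2 := key _ (t6_bound_sub τ ht n)
  refine (add_le_add e1 e2).trans (le_of_eq ?_)
  ring

theorem t6_multipliable (τ : ℂ) (hτ : 0 < τ.im) :
    MultipliableLocallyUniformlyOn (t6_f τ) (Metric.ball (0 : ℂ) (τ.im / 2)) := by
  have h : MultipliableLocallyUniformlyOn (fun n t => 1 + (t6_f τ n t - 1))
      (Metric.ball (0 : ℂ) (τ.im / 2)) := by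
    refine Summable.multipliableLocallyUniformlyOn_nat_one_add Metric.isOpen_ball
      ((t6_r_summable τ hτ).mul_left 3) (Eventually.of_forall fun n t ht => ?_) (fun n => ?_)
    · rw [mem_ball_zero_iff] at ht
      have hA := t6_bound_add τ ht n
      have hB := t6_bound_sub τ ht n
      have hr1 : t6_r τ n ≤ 1 := (t6_r_le τ hτ n).trans (t6_rho_lt τ hτ).le
      have e : t6_f τ n t - 1 = -ee ((n + 1) * τ + t) + (-ee ((n + 1) * τ - t)) +
          ee ((n + 1) * τ + t) * ee ((n + 1) * τ - t) := by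
        unfold t6_f
        ring
      rw [e]
      refine (norm_add₃_le).trans ?_
      rw [norm_neg, norm_neg, norm_mul]
      have h3 : ‖ee ((n + 1) * τ + t)‖ * ‖ee ((n + 1) * τ - t)‖ ≤ 1 * t6_r τ n :=
        mul_le_mul (hA.trans hr1) hB (norm_nonneg _) zero_le_one
      linarith
    · exact ((t6_f_differentiable τ n).continuous.sub continuous_const).continuousOn
  have e : (fun n t => 1 + (t6_f τ n t - 1)) = t6_f τ := by
    funext n t
    ring
  rwa [e] at h

theorem t6_logDeriv_thp {τ : ℂ} (hτ : 0 < τ.im) {t : ℂ} (ht : ‖t‖ < τ.im / 2) :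
    logDeriv (thp τ) t = ∑' n, t6_L τ n t := by
  have h := logDeriv_tprod_eq_tsum (f := t6_f τ) (s := Metric.ball (0 : ℂ) (τ.im / 2))
    Metric.isOpen_ball (x := t) (mem_ball_zero_iff.2 ht)
    (fun n => mul_ne_zero (t6_one_sub_ne hτ (t6_bound_add τ ht n))
      (t6_one_sub_ne hτ (t6_bound_sub τ ht n)))
    (fun n => (t6_f_differentiable τ n).differentiableOn) ?_ (t6_multipliable τ hτ) ?_
  · rw [tsum_congr (fun n => t6_logDeriv_f hτ ht n)] at h
    exact h
  · refine Summable.congr ?_ (fun n => (t6_logDeriv_f hτ ht n).symm)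
    exact Summable.of_norm_bounded ((t6_r_summable τ hτ).mul_left _) (t6_L_bound hτ ht)
  · refine thp_ne_zero τ hτ t fun n => ⟨?_, ?_⟩
    · exact fun h0 => t6_one_sub_ne hτ (t6_bound_add τ ht n) (by rw [h0, sub_self])
    · exact fun h0 => t6_one_sub_ne hτ (t6_bound_sub τ ht n) (by rw [h0, sub_self])

/-- T6a. `(log thp)''(0)`. PROOF. `thp τ` is a locally uniformly convergent product, `logDeriv (thp τ) t = ∑_n [-2πi a_n z/(1 - a_n z) +
2πi a_n z⁻¹/(1 - a_n z⁻¹)]`, `a_n = ee((n+1)τ)`, `z = ee t` (Mathlib: `logDeriv_tprod_eq_tsum`), near `t = 0` (where `thp ≠ 0`). The sum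
converges locally uniformly; differentiate termwise at `t = 0` (`hasDerivAt_tsum...` or
`TendstoLocallyUniformlyOn.deriv`): each term contributes `2 · 4π² a_n/(1 - a_n)²`. -/
theorem deriv_logDeriv_thp (τ : ℂ) (hτ : 0 < τ.im) :
    deriv (logDeriv (thp τ)) 0 = 8 * Real.pi ^ 2 * ∑' n : ℕ, ee ((n + 1) * τ) / (1 - ee ((n + 1) * τ)) ^ 2 := by
  have h0 : ‖(0 : ℂ)‖ < τ.im / 2 := by
    rw [norm_zero]
    linarith
  have hev : logDeriv (thp τ) =ᶠ[𝓝 0] fun t => ∑' n, t6_L τ n t := by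
    filter_upwards [Metric.ball_mem_nhds (0 : ℂ) (show 0 < τ.im / 2 by linarith)] with t ht
    exact t6_logDeriv_thp hτ (mem_ball_zero_iff.1 ht)
  rw [hev.deriv_eq]
  have hd := hasDerivAt_tsum_of_isPreconnected (g := t6_L τ) (g' := t6_L' τ)
    ((t6_r_summable τ hτ).mul_left (8 * Real.pi ^ 2 / (1 - Real.exp (-(Real.pi * τ.im))) ^ 2))
    (t := Metric.ball (0 : ℂ) (τ.im / 2)) Metric.isOpen_ball
    (convex_ball _ _).isPreconnected
    (fun n y hy => t6_hasDerivAt_L hτ (mem_ball_zero_iff.1 hy) n)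
    (fun n y hy => t6_L'_bound hτ (mem_ball_zero_iff.1 hy) n)
    (y₀ := 0) (mem_ball_zero_iff.2 h0)
    (Summable.of_norm_bounded ((t6_r_summable τ hτ).mul_left _) (t6_L_bound hτ h0))
    (y := 0) (mem_ball_zero_iff.2 h0)
  rw [hd.deriv, ← tsum_mul_left]
  refine tsum_congr fun n => ?_
  unfold t6_L'
  rw [add_zero, sub_zero]
  ring

/-- T6b. PROOF. Mathlib: `EisensteinSeries.E2` has the `q`-expansion `1 - 24 ∑ σ₁(n) qⁿ` (see
`Mathlib/NumberTheory/ModularForms/EisensteinSeries/E2`, and `logDeriv_eta_eq_E2` with its proof: `E2 = 1 - 24 ∑ (n+1) q^{n+1}/(1-q^{n+1})`);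
`∑_n a_n/(1-a_n)² = ∑_n ∑_m m q^{nm} = ∑ σ₁(k) q^k` (`tsum_sigma_eqn`-like lemmas in Mathlib, or Fubini
`Summable.tsum_comm`). -/
theorem sE_eq (τ : ℂ) (hτ : 0 < τ.im) :
    sE τ = Real.pi ^ 2 / 3 - 8 * Real.pi ^ 2 * ∑' n : ℕ, ee ((n + 1) * τ) / (1 - ee ((n + 1) * τ)) ^ 2 := by
  have hq : ‖ee τ‖ < 1 := by
    rw [t6_norm_ee, Real.exp_lt_one_iff]
    have := mul_pos (mul_pos two_pos Real.pi_pos) hτ
    linarith
  have hpow : ∀ n : ℕ, ee ((n + 1) * τ) = ee τ ^ (n + 1) := by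
    intro n
    unfold ee
    rw [← Complex.exp_nat_mul]
    congr 1
    push_cast
    ring
  have h1 : MSD.e2 τ = 1 - 24 * ∑' n : ℕ+, (ArithmeticFunction.sigma 1 (n : ℕ) : ℂ) * ee τ ^ (n : ℕ) := by
    unfold MSD.e2
    rw [UpperHalfPlane.ofComplex_apply_of_im_pos hτ, EisensteinSeries.E2_eq_tsum_cexp]
    rfl
  have h2 := tsum_prod_pow_eq_tsum_sigma 1 hq
  have h3 : ∀ d : ℕ+, ∑' c : ℕ+, ((c : ℕ) : ℂ) ^ 1 * ee τ ^ ((d : ℕ) * (c : ℕ)) =
      ee τ ^ (d : ℕ) / (1 - ee τ ^ (d : ℕ)) ^ 2 := by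
    intro d
    have hd : ‖ee τ ^ (d : ℕ)‖ < 1 := by
      rw [norm_pow]
      exact pow_lt_one₀ (norm_nonneg _) hq d.ne_zero
    rw [← tsum_coe_mul_geometric_of_norm_lt_one hd,
      ← tsum_zero_pnat_eq_tsum_nat (hasSum_coe_mul_geometric_of_norm_lt_one hd).summable]
    rw [Nat.cast_zero, zero_mul, zero_add]
    refine tsum_congr fun c => ?_
    rw [pow_one, pow_mul]
  have h4 : ∑' n : ℕ, ee ((n + 1) * τ) / (1 - ee ((n + 1) * τ)) ^ 2 =
      ∑' n : ℕ+, (ArithmeticFunction.sigma 1 (n : ℕ) : ℂ) * ee τ ^ (n : ℕ) := by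
    rw [← h2, tsum_congr h3, tsum_pnat_eq_tsum_succ (f := fun n : ℕ => ee τ ^ n / (1 - ee τ ^ n) ^ 2)]
    refine tsum_congr fun n => ?_
    rw [hpow]
  unfold sE
  rw [h1, h4]
  ring

end Pool.Agent.MSP
end

end

section

/-! # T6c: behaviour of `wp` at the origin (MP_f58a57_nt, pairs) -/

open Complex Filter Topology

noncomputable section

namespace Pool.Agent.MSP

private lemma t6c_sin_bound (x : ℂ) (hx : ‖x‖ ≤ 1) :
    ‖Complex.sin x - (x - x ^ 3 / 6)‖ ≤ ‖x‖ ^ 4 := by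
  have h1 := Complex.exp_bound (x := -x * I) (by simpa using hx) (n := 4) (by norm_num)
  have h2 := Complex.exp_bound (x := x * I) (by simpa using hx) (n := 4) (by norm_num)
  have e1 : ‖-x * I‖ = ‖x‖ := by simp
  have e2 : ‖x * I‖ = ‖x‖ := by simp
  rw [e1] at h1
  rw [e2] at h2
  have hI3 : (I : ℂ) ^ 3 = -I := by rw [pow_succ, I_sq]; ring
  have hI4 : (I : ℂ) ^ 4 = 1 := by
    rw [show (4 : ℕ) = 2 * 2 by rfl, pow_mul, I_sq]; norm_num
  have key : Complex.sin x - (x - x ^ 3 / 6) =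
      ((cexp (-x * I) - ∑ m ∈ Finset.range 4, (-x * I) ^ m / (m.factorial : ℂ)) -
        (cexp (x * I) - ∑ m ∈ Finset.range 4, (x * I) ^ m / (m.factorial : ℂ))) * I / 2 := by
    rw [Complex.sin]
    simp only [Finset.sum_range_succ, Finset.sum_range_zero, Nat.factorial]
    push_cast
    ring_nf
    rw [hI4, I_sq]
    ring
  rw [key, norm_div, norm_mul, norm_I, mul_one, Complex.norm_two]
  have h3 := norm_sub_le (cexp (-x * I) - ∑ m ∈ Finset.range 4, (-x * I) ^ m / (m.factorial : ℂ))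
    (cexp (x * I) - ∑ m ∈ Finset.range 4, (x * I) ^ m / (m.factorial : ℂ))
  have h4 : ‖x‖ ^ 4 * (((Nat.succ 4 : ℕ) : ℝ) * (((Nat.factorial 4 : ℕ) : ℝ) * ((4 : ℕ) : ℝ))⁻¹)
      ≤ ‖x‖ ^ 4 := by
    have : (((Nat.succ 4 : ℕ) : ℝ) * (((Nat.factorial 4 : ℕ) : ℝ) * ((4 : ℕ) : ℝ))⁻¹) ≤ 1 := by
      norm_num [Nat.factorial]
    calc _ ≤ ‖x‖ ^ 4 * 1 := mul_le_mul_of_nonneg_left this (by positivity)
      _ = _ := mul_one _
  have h5 := h1.trans h4
  have h6 := h2.trans h4
  linarith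

/-- `(x - sin x) / x³ → 1/6` -/
private lemma t6c_cubic : Tendsto (fun x : ℂ => (x - Complex.sin x) / x ^ 3) (𝓝[≠] 0) (𝓝 (1 / 6)) := by
  rw [tendsto_iff_norm_sub_tendsto_zero]
  have hz : Tendsto (fun x : ℂ => ‖x‖) (𝓝[≠] 0) (𝓝 0) := by
    have : Tendsto (fun x : ℂ => ‖x‖) (𝓝 0) (𝓝 ‖(0 : ℂ)‖) := continuous_norm.tendsto 0
    rw [norm_zero] at this
    exact this.mono_left nhdsWithin_le_nhds
  refine squeeze_zero' (Eventually.of_forall fun x => norm_nonneg _) ?_ hz
  have hev : ∀ᶠ x : ℂ in 𝓝[≠] 0, ‖x‖ ≤ 1 := by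
    have := hz.eventually (gt_mem_nhds (zero_lt_one))
    filter_upwards [this] with x hx using hx.le
  filter_upwards [hev, self_mem_nhdsWithin] with x hx hx0
  have hx0' : x ≠ 0 := hx0
  have hxn : 0 < ‖x‖ := norm_pos_iff.mpr hx0'
  have : (x - Complex.sin x) / x ^ 3 - 1 / 6 = -(Complex.sin x - (x - x ^ 3 / 6)) / x ^ 3 := by
    field_simp
    ring
  rw [this, norm_div, norm_neg, norm_pow, div_le_iff₀ (by positivity)]
  calc _ ≤ ‖x‖ ^ 4 := t6c_sin_bound x hx
    _ = ‖x‖ * ‖x‖ ^ 3 := by ring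

/-- `sin x / x → 1` -/
private lemma t6c_sinc : Tendsto (fun x : ℂ => Complex.sin x / x) (𝓝[≠] 0) (𝓝 1) := by
  have h : Tendsto (fun x : ℂ => 1 - x ^ 2 * ((x - Complex.sin x) / x ^ 3)) (𝓝[≠] 0)
      (𝓝 (1 - 0 ^ 2 * (1 / 6))) := by
    have hx : Tendsto (fun x : ℂ => x ^ 2) (𝓝[≠] 0) (𝓝 (0 ^ 2)) :=
      ((continuous_pow 2).tendsto (0 : ℂ)).mono_left nhdsWithin_le_nhds
    exact tendsto_const_nhds.sub (hx.mul t6c_cubic)
  have h' : (1 : ℂ) - 0 ^ 2 * (1 / 6) = 1 := by ring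
  rw [h'] at h
  refine h.congr' ?_
  filter_upwards [self_mem_nhdsWithin] with x hx0
  have hx0' : x ≠ 0 := hx0
  field_simp
  ring

/-- `1/sin² x - 1/x² → 1/3` -/
private lemma t6c_csc : Tendsto (fun x : ℂ => 1 / Complex.sin x ^ 2 - 1 / x ^ 2) (𝓝[≠] 0)
    (𝓝 (1 / 3)) := by
  have h1 : Tendsto (fun x : ℂ => ((x - Complex.sin x) / x ^ 3) * (1 + Complex.sin x / x) /
      (Complex.sin x / x) ^ 2) (𝓝[≠] 0) (𝓝 ((1 / 6) * (1 + 1) / 1 ^ 2)) :=
    (t6c_cubic.mul (tendsto_const_nhds.add t6c_sinc)).div (t6c_sinc.pow 2) (by norm_num)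
  have h2 : (1 / 6 : ℂ) * (1 + 1) / 1 ^ 2 = 1 / 3 := by norm_num
  rw [h2] at h1
  refine h1.congr' ?_
  have hne : ∀ᶠ x : ℂ in 𝓝[≠] 0, Complex.sin x / x ≠ 0 :=
    t6c_sinc.eventually_ne one_ne_zero
  filter_upwards [self_mem_nhdsWithin, hne] with x hx0 hs
  have hx0' : x ≠ 0 := hx0
  have hs' : Complex.sin x ≠ 0 := fun h => hs (by rw [h, zero_div])
  field_simp
  ring

private lemma t6c_ee_ne_one (τ : ℂ) (hτ : 0 < τ.im) (n : ℕ) : ee ((n + 1) * τ) ≠ 1 := by
  intro h
  have h1 : ‖ee ((n + 1) * τ)‖ = 1 := by rw [h, norm_one]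
  rw [ee, Complex.norm_exp] at h1
  have h2 : (2 * Real.pi * I * ((n + 1) * τ) : ℂ).re = -(2 * Real.pi * (n + 1) * τ.im) := by
    simp
    ring
  rw [h2, Real.exp_eq_one_iff] at h1
  have : 0 < 2 * Real.pi * (n + 1) * τ.im := by positivity
  linarith

private lemma t6c_g0 (τ : ℂ) (hτ : 0 < τ.im) : thp τ 0 ≠ 0 := by
  apply thp_ne_zero τ hτ 0
  intro n
  rw [add_zero, sub_zero]
  exact ⟨t6c_ee_ne_one τ hτ n, t6c_ee_ne_one τ hτ n⟩

private lemma t6c_formula (τ s : ℂ) (hτ : 0 < τ.im) (t : ℂ) (hS : Complex.sin (Real.pi * t) ≠ 0)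
    (hg : thp τ t ≠ 0) : wp τ s t = Real.pi ^ 2 / Complex.sin (Real.pi * t) ^ 2 -
      deriv (logDeriv (thp τ)) t - s := by
  have hd : Differentiable ℂ (thp τ) := thp_differentiable τ hτ
  have hd2 : Differentiable ℂ (deriv (thp τ)) := fun z => (hd.analyticAt z).deriv.differentiableAt
  have hsin : ∀ z : ℂ, HasDerivAt (fun z : ℂ => Complex.sin (Real.pi * z))
      (Real.pi * Complex.cos (Real.pi * z)) z := by
    intro z
    have h1 : HasDerivAt (fun z : ℂ => (Real.pi : ℂ) * z) Real.pi z := by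
      simpa using (hasDerivAt_id z).const_mul (Real.pi : ℂ)
    have := (Complex.hasDerivAt_sin (Real.pi * z)).comp z h1
    rw [mul_comm] at this
    exact this
  have hcos : ∀ z : ℂ, HasDerivAt (fun z : ℂ => Real.pi * Complex.cos (Real.pi * z))
      (-(Real.pi ^ 2 * Complex.sin (Real.pi * z))) z := by
    intro z
    have h1 : HasDerivAt (fun z : ℂ => (Real.pi : ℂ) * z) Real.pi z := by
      simpa using (hasDerivAt_id z).const_mul (Real.pi : ℂ)
    have h2 := ((Complex.hasDerivAt_cos (Real.pi * z)).comp z h1).const_mul (Real.pi : ℂ)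
    have h3 : (Real.pi : ℂ) * (-Complex.sin (Real.pi * z) * Real.pi) =
        -(Real.pi ^ 2 * Complex.sin (Real.pi * z)) := by ring
    rw [h3] at h2
    exact h2
  have h1 : ∀ z, HasDerivAt (th τ) (Real.pi * Complex.cos (Real.pi * z) * thp τ z +
      Complex.sin (Real.pi * z) * deriv (thp τ) z) z := fun z =>
    (hsin z).mul (hd z).hasDerivAt
  have h1' : deriv (th τ) = fun z => Real.pi * Complex.cos (Real.pi * z) * thp τ z +
      Complex.sin (Real.pi * z) * deriv (thp τ) z := funext fun z => (h1 z).deriv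
  have h2 : deriv (deriv (th τ)) t = (-(Real.pi ^ 2 * Complex.sin (Real.pi * t)) * thp τ t +
      Real.pi * Complex.cos (Real.pi * t) * deriv (thp τ) t) +
      (Real.pi * Complex.cos (Real.pi * t) * deriv (thp τ) t +
        Complex.sin (Real.pi * t) * deriv (deriv (thp τ)) t) := by
    rw [h1']
    exact (((hcos t).mul (hd t).hasDerivAt).add ((hsin t).mul (hd2 t).hasDerivAt)).deriv
  have h3 : deriv (logDeriv (thp τ)) t =
      (deriv (deriv (thp τ)) t * thp τ t - deriv (thp τ) t * deriv (thp τ) t) / thp τ t ^ 2 :=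
    ((hd2 t).hasDerivAt.div (hd t).hasDerivAt hg).deriv
  rw [wp, N2, N0, h3, h2, h1']
  have hcs := Complex.sin_sq_add_cos_sq (Real.pi * t)
  have hth : th τ t = Complex.sin (Real.pi * t) * thp τ t := rfl
  rw [hth]
  field_simp
  linear_combination (Real.pi ^ 2 * thp τ t ^ 2) * hcs

/-- T6c. PROOF. For `t ≠ 0` near `0`: `th = sin(πt) thp`, so `th'/th = π cot(πt) + thp'/thp` and
`wp τ s t = -(th'/th)' - s = π²/sin²(πt) - (thp'/thp)'(t) - s` (as `N2/N0² = -(N1/N0)' - s`). `π²/sin²(πt) - 1/t² → π²/3`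
(Taylor), `(thp'/thp)'` is continuous at `0` (analytic) with value T6a, and T6b: the limit is `0`. -/
theorem wp_lim (τ : ℂ) (hτ : 0 < τ.im) :
    Tendsto (fun t : ℂ => wp τ (sE τ) t - 1 / t ^ 2) (𝓝[≠] 0) (𝓝 0) := by
  have hd : Differentiable ℂ (thp τ) := thp_differentiable τ hτ
  have hg0 := t6c_g0 τ hτ
  have hpi : (Real.pi : ℂ) ≠ 0 := by exact_mod_cast Real.pi_ne_zero
  -- continuity of the second logarithmic derivative
  have hcont : Tendsto (fun t => deriv (logDeriv (thp τ)) t) (𝓝[≠] 0)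
      (𝓝 (deriv (logDeriv (thp τ)) 0)) := by
    have ha : AnalyticAt ℂ (logDeriv (thp τ)) 0 := (hd.analyticAt 0).deriv.div (hd.analyticAt 0) hg0
    exact (ha.deriv.continuousAt.tendsto).mono_left nhdsWithin_le_nhds
  -- the scaled cosecant
  have hscale : Tendsto (fun t : ℂ => (Real.pi : ℂ) * t) (𝓝[≠] 0) (𝓝[≠] 0) := by
    rw [tendsto_nhdsWithin_iff]
    refine ⟨?_, ?_⟩
    · have : Tendsto (fun t : ℂ => (Real.pi : ℂ) * t) (𝓝 0) (𝓝 ((Real.pi : ℂ) * 0)) :=
        (continuous_const.mul continuous_id).tendsto 0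
      rw [mul_zero] at this
      exact this.mono_left nhdsWithin_le_nhds
    · filter_upwards [self_mem_nhdsWithin] with t ht
      exact mul_ne_zero hpi ht
  have hcsc := (t6c_csc.comp hscale).const_mul ((Real.pi : ℂ) ^ 2)
  have htot := (hcsc.sub hcont).sub (tendsto_const_nhds (x := sE τ))
  have hval : (Real.pi : ℂ) ^ 2 * (1 / 3) - deriv (logDeriv (thp τ)) 0 - sE τ = 0 := by
    rw [deriv_logDeriv_thp τ hτ, sE_eq τ hτ]
    ring
  rw [hval] at htot
  refine htot.congr' ?_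
  have hgne : ∀ᶠ t : ℂ in 𝓝[≠] 0, thp τ t ≠ 0 :=
    (hd.continuous.continuousAt.eventually_ne hg0).filter_mono nhdsWithin_le_nhds
  have hsne : ∀ᶠ t : ℂ in 𝓝[≠] 0, Complex.sin (Real.pi * t) ≠ 0 := by
    have h1 := hscale.eventually (t6c_sinc.eventually_ne one_ne_zero)
    filter_upwards [h1] with t ht h0
    exact ht (by rw [h0, zero_div])
  filter_upwards [self_mem_nhdsWithin, hgne, hsne] with t ht hg hS
  have ht' : t ≠ 0 := ht
  rw [t6c_formula τ (sE τ) hτ t hS hg]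
  simp only [Function.comp_apply]
  field_simp
  ring

end Pool.Agent.MSP
end

end

section

/-!
# Part A, rows An-Au: the lower bound and the end
-/

open Complex MvPolynomial Matrix

noncomputable section

namespace Pool.Agent.LT

variable {m c : ℕ}


/-- the evaluation used in `p0` -/
def An0_ev (θ : Fin m → ℂ) : PQ m →ₐ[ℚ] Polynomial ℂ :=
  MvPolynomial.aeval (Fin.cons Polynomial.X (fun i : Fin m => Polynomial.C (θ i) * Polynomial.X) :
    Fin (m + 1) → Polynomial ℂ)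

theorem An0_mem (θ : Fin m → ℂ) (f : PQ m) : f ∈ p0 θ ↔ An0_ev θ f = 0 := Iff.rfl

theorem An0_cons (θ : Fin m → ℂ) (j : Fin (m + 1)) :
    (Fin.cons Polynomial.X (fun i : Fin m => Polynomial.C (θ i) * Polynomial.X) :
      Fin (m + 1) → Polynomial ℂ) j =
    Polynomial.C ((Fin.cons 1 θ : Fin (m + 1) → ℂ) j) * Polynomial.X := by
  refine Fin.cases ?_ (fun i => ?_) j
  · rw [Fin.cons_zero, Fin.cons_zero, Polynomial.C_1, one_mul]
  · rw [Fin.cons_succ, Fin.cons_succ]

theorem An0_hom (θ : Fin m → ℂ) {L : ℕ} {f : PQ m} (hf : f.IsHomogeneous L) :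
    An0_ev θ f = Polynomial.C (MvPolynomial.aeval (Fin.cons 1 θ : Fin (m + 1) → ℂ) f) *
      Polynomial.X ^ L := by
  unfold An0_ev
  rw [MvPolynomial.aeval_def, MvPolynomial.aeval_def, MvPolynomial.eval₂_eq',
    MvPolynomial.eval₂_eq', map_sum, Finset.sum_mul]
  refine Finset.sum_congr rfl fun d hd => ?_
  have h1 : (∏ i, (Fin.cons Polynomial.X (fun i : Fin m => Polynomial.C (θ i) * Polynomial.X) :
      Fin (m + 1) → Polynomial ℂ) i ^ d i) =
      Polynomial.C (∏ i, (Fin.cons 1 θ : Fin (m + 1) → ℂ) i ^ d i) * Polynomial.X ^ L := by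
    have h2 : ∀ i, (Fin.cons Polynomial.X (fun i : Fin m => Polynomial.C (θ i) * Polynomial.X) :
      Fin (m + 1) → Polynomial ℂ) i ^ d i =
      Polynomial.C ((Fin.cons 1 θ : Fin (m + 1) → ℂ) i ^ d i) * Polynomial.X ^ d i := by
      intro i
      rw [An0_cons, mul_pow, Polynomial.C_pow]
    rw [Finset.prod_congr rfl fun i _ => h2 i, Finset.prod_mul_distrib, Finset.prod_pow_eq_pow_sum,
      map_prod]
    congr 2
    have h3 : d.degree = L := by
      by_contra hne
      exact (MvPolynomial.mem_support_iff.1 hd) (hf.coeff_eq_zero hne)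
    rw [← h3, Finsupp.degree_eq_sum]
  rw [h1, Polynomial.C_mul, mul_assoc]
  rfl

theorem An0_coeff (θ : Fin m → ℂ) (f : PQ m) (n : ℕ) :
    (An0_ev θ f).coeff n =
      MvPolynomial.aeval (Fin.cons 1 θ : Fin (m + 1) → ℂ) (homogeneousComponent n f) := by
  conv_lhs => rw [← sum_homogeneousComponent f]
  rw [map_sum, Polynomial.finsetSum_coeff]
  have h1 : ∀ i, (An0_ev θ (homogeneousComponent i f)).coeff n =
      if n = i then MvPolynomial.aeval (Fin.cons 1 θ : Fin (m + 1) → ℂ)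
        (homogeneousComponent i f) else 0 := by
    intro i
    rw [An0_hom θ (homogeneousComponent_isHomogeneous i f), Polynomial.coeff_C_mul_X_pow]
  rw [Finset.sum_congr rfl fun i _ => h1 i, Finset.sum_ite_eq]
  by_cases hn : n ∈ Finset.range (f.totalDegree + 1)
  · rw [if_pos hn]
  · rw [if_neg hn]
    have h2 : homogeneousComponent n f = 0 := by
      apply homogeneousComponent_eq_zero
      rw [Finset.mem_range] at hn
      omega
    rw [h2, map_zero]

/-- `p0` is a homogeneous prime ideal -/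
theorem p0_hi (θ : Fin m → ℂ) : HI (p0 θ) := by
  intro f hf n
  rw [An0_mem] at hf ⊢
  rw [An0_hom θ (homogeneousComponent_isHomogeneous n f), ← An0_coeff, hf, Polynomial.coeff_zero,
    Polynomial.C_0, zero_mul]

theorem p0_prime (θ : Fin m → ℂ) : (p0 θ).IsPrime :=
  RingHom.ker_isPrime (An0_ev θ)

theorem mem_p0 (θ : Fin m → ℂ) {L : ℕ} {f : PQ m} (hf : f.IsHomogeneous L) :
    f ∈ p0 θ ↔ MvPolynomial.aeval (Fin.cons 1 θ : Fin (m + 1) → ℂ) f = 0 := by
  rw [An0_mem, An0_hom θ hf]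
  constructor
  · intro h
    rcases mul_eq_zero.1 h with h1 | h1
    · exact Polynomial.C_eq_zero.1 h1
    · exact absurd h1 (pow_ne_zero _ Polynomial.X_ne_zero)
  · intro h
    rw [h, Polynomial.C_0, zero_mul]







/-- row An: a transcendence basis among the coordinates -/
theorem trbasis (θ : Fin m → ℂ) : ∃ (k : ℕ) (I : Fin k → Fin m), Function.Injective I ∧
    (Algebra.trdeg ℚ (Algebra.adjoin ℚ (Set.range θ)) = k) ∧ AlgebraicIndependent ℚ (fun i => θ (I i)) ∧
    ∀ j, IsAlgebraic (IntermediateField.adjoin ℚ (Set.range fun i => θ (I i))) (θ j) := by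
  classical
  let θ' : Fin m → Algebra.adjoin ℚ (Set.range θ) := fun j => ⟨θ j, Algebra.subset_adjoin ⟨j, rfl⟩⟩
  have htop : Algebra.adjoin ℚ (Set.range θ') = ⊤ := by
    rw [← Algebra.adjoin_adjoin_coe_preimage (R := ℚ) (s := Set.range θ)]
    congr 1
    ext x
    constructor
    · rintro ⟨j, rfl⟩; exact ⟨j, rfl⟩
    · rintro ⟨j, hj⟩; exact ⟨j, Subtype.ext hj⟩
  have halg : Algebra.IsAlgebraic (Algebra.adjoin ℚ (Set.range θ')) (Algebra.adjoin ℚ (Set.range θ)) := by
    refine ⟨fun a => ?_⟩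
    have ha : a ∈ Algebra.adjoin ℚ (Set.range θ') := by rw [htop]; trivial
    exact isAlgebraic_algebraMap (⟨a, ha⟩ : Algebra.adjoin ℚ (Set.range θ'))
  obtain ⟨t, hts, hb⟩ := exists_isTranscendenceBasis_subset (R := ℚ) (Set.range θ')
  have hfin : Finite t := (Set.finite_range θ').subset hts
  have hpre : ∀ x : t, ∃ j, θ' j = (x : Algebra.adjoin ℚ (Set.range θ)) := fun x => hts x.2
  choose pre hpre using hpre
  let e : t ≃ Fin (Nat.card t) := Finite.equivFin t
  have hI : ∀ i, θ' (pre (e.symm i)) = ((e.symm i : t) : Algebra.adjoin ℚ (Set.range θ)) := fun i => hpre _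
  have hb' : IsTranscendenceBasis ℚ (fun i => θ' (pre (e.symm i))) := by
    have h1 : (fun i => θ' (pre (e.symm i))) = (Subtype.val : t → Algebra.adjoin ℚ (Set.range θ)) ∘ e.symm := funext hI
    rw [h1]
    exact (isTranscendenceBasis_equiv e.symm).mpr hb
  refine ⟨Nat.card t, fun i => pre (e.symm i), ?_, ?_, ?_, ?_⟩
  · intro i j hij
    have h1 := hI i
    have h2 := hI j
    have h3 : ((e.symm i : t) : Algebra.adjoin ℚ (Set.range θ)) = (e.symm j : t) := by
      rw [← h1, ← h2]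
      exact congrArg θ' hij
    exact e.symm.injective (Subtype.ext h3)
  · have := hb'.lift_cardinalMk_eq_trdeg
    simpa using this.symm
  · exact hb'.1.map' (f := (Algebra.adjoin ℚ (Set.range θ)).val) Subtype.val_injective
  · intro j
    have h1 : IsAlgebraic (Algebra.adjoin ℚ (Set.range fun i => θ' (pre (e.symm i)))) (θ' j) := hb'.isAlgebraic.isAlgebraic _
    let K := IntermediateField.adjoin ℚ (Set.range fun i => θ (pre (e.symm i)))
    have hle : ∀ x : Algebra.adjoin ℚ (Set.range fun i => θ' (pre (e.symm i))), ((x : Algebra.adjoin ℚ (Set.range θ)) : ℂ) ∈ K := by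
      intro x
      have h2 : Algebra.adjoin ℚ (Set.range fun i => θ' (pre (e.symm i))) ≤ K.toSubalgebra.comap (Algebra.adjoin ℚ (Set.range θ)).val := by
        refine Algebra.adjoin_le ?_
        rintro _ ⟨i, rfl⟩
        exact IntermediateField.subset_adjoin ℚ _ ⟨i, rfl⟩
      exact h2 x.2
    let f : Algebra.adjoin ℚ (Set.range fun i => θ' (pre (e.symm i))) →+* K :=
      { toFun := fun x => ⟨((x : Algebra.adjoin ℚ (Set.range θ)) : ℂ), hle x⟩
        map_one' := rfl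
        map_zero' := rfl
        map_add' := fun _ _ => rfl
        map_mul' := fun _ _ => rfl }
    have hf : Function.Injective f := by
      intro x y hxy
      have := congrArg (Subtype.val) hxy
      exact Subtype.ext (Subtype.ext this)
    exact IsAlgebraic.ringHom_of_comp_eq f ((Algebra.adjoin ℚ (Set.range θ)).val : _ →+* ℂ) h1 hf rfl



/-- elements of the field generated by `x` are quotients of integer polynomials in `x` -/
theorem Ao_frac {k : ℕ} (x : Fin k → ℂ) (y : ℂ) (hy : y ∈ IntermediateField.adjoin ℚ (Set.range x)) :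
    ∃ p q : MvPolynomial (Fin k) ℤ, aeval x q ≠ 0 ∧ aeval x p = aeval x q * y := by
  induction hy using IntermediateField.adjoin_induction with
  | mem y hy =>
    obtain ⟨i, rfl⟩ := hy
    exact ⟨X i, 1, by simp, by simp⟩
  | algebraMap c =>
    refine ⟨C c.num, C (c.den : ℤ), ?_, ?_⟩
    · simp
    · have h : (c.num : ℚ) = c.den * c := by
        rw [mul_comm]; exact (Rat.mul_den_eq_num c).symm
      have h' : ((c.num : ℚ) : ℂ) = ((c.den * c : ℚ) : ℂ) := by rw [← h]
      rw [Rat.cast_mul, Rat.cast_natCast, Rat.cast_intCast] at h'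
      rw [aeval_C, aeval_C]
      simpa using h'
  | add y z _ _ h1 h2 =>
    obtain ⟨p1, q1, a1, b1⟩ := h1
    obtain ⟨p2, q2, a2, b2⟩ := h2
    refine ⟨p1 * q2 + p2 * q1, q1 * q2, ?_, ?_⟩
    · rw [map_mul]; exact mul_ne_zero a1 a2
    · rw [map_add, map_mul, map_mul, map_mul, b1, b2]; ring
  | inv y _ h =>
    obtain ⟨p, q, a, b⟩ := h
    by_cases hy : y = 0
    · exact ⟨0, 1, by simp, by simp [hy]⟩
    · refine ⟨q, p, ?_, ?_⟩
      · rw [b]; exact mul_ne_zero a hy
      · rw [b]; field_simp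
  | mul y z _ _ h1 h2 =>
    obtain ⟨p1, q1, a1, b1⟩ := h1
    obtain ⟨p2, q2, a2, b2⟩ := h2
    refine ⟨p1 * p2, q1 * q2, ?_, ?_⟩
    · rw [map_mul]; exact mul_ne_zero a1 a2
    · rw [map_mul, map_mul, b1, b2]; ring

theorem Ao_den {k : ℕ} (x : Fin k → ℂ) {ι : Type} [Fintype ι] (y : ι → ℂ)
    (hy : ∀ i, y i ∈ IntermediateField.adjoin ℚ (Set.range x)) :
    ∃ (q : MvPolynomial (Fin k) ℤ) (p : ι → MvPolynomial (Fin k) ℤ), aeval x q ≠ 0 ∧ ∀ i, aeval x (p i) = aeval x q * y i := by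
  classical
  choose p q hq h using fun i => Ao_frac x (y i) (hy i)
  refine ⟨∏ i, q i, fun i => p i * ∏ j ∈ Finset.univ.erase i, q j, ?_, ?_⟩
  · rw [map_prod]; exact Finset.prod_ne_zero_iff.mpr fun i _ => hq i
  · intro i
    rw [map_mul, h, ← Finset.mul_prod_erase Finset.univ q (Finset.mem_univ i), map_mul]; ring

/-- the size of an integer polynomial -/
def Ao_sz {k : ℕ} (p : MvPolynomial (Fin k) ℤ) : ℝ := lC (MvPolynomial.map (Int.castRingHom ℂ) p)

theorem Ao_sz_nonneg {k : ℕ} (p : MvPolynomial (Fin k) ℤ) : 0 ≤ Ao_sz p :=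
  Finset.sum_nonneg fun _ _ => norm_nonneg _

theorem Ao_sz_coeff {k : ℕ} (p : MvPolynomial (Fin k) ℤ) (α : Fin k →₀ ℕ) : |((p.coeff α : ℤ) : ℝ)| ≤ Ao_sz p := by
  by_cases h : p.coeff α = 0
  · rw [h]; simpa using Ao_sz_nonneg p
  · have h2 : α ∈ (MvPolynomial.map (Int.castRingHom ℂ) p).support := by
      rw [MvPolynomial.mem_support_iff, MvPolynomial.coeff_map]; simpa using h
    have h3 := Finset.single_le_sum (f := fun d => ‖(MvPolynomial.map (Int.castRingHom ℂ) p).coeff d‖) (fun _ _ => norm_nonneg _) h2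
    have h4 : ‖(MvPolynomial.map (Int.castRingHom ℂ) p).coeff α‖ = |((p.coeff α : ℤ) : ℝ)| := by
      rw [MvPolynomial.coeff_map]; simp
    rw [← h4]; exact h3

theorem Ao_sz_mul {k : ℕ} (p q : MvPolynomial (Fin k) ℤ) : Ao_sz (p * q) ≤ Ao_sz p * Ao_sz q := by
  unfold Ao_sz; rw [map_mul]; exact lC_mul_le _ _

theorem Ao_sz_sum {k : ℕ} {ι : Type} (s : Finset ι) (p : ι → MvPolynomial (Fin k) ℤ) : Ao_sz (∑ i ∈ s, p i) ≤ ∑ i ∈ s, Ao_sz (p i) := by
  classical
  induction s using Finset.induction_on with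
  | empty => simp [Ao_sz, lC]
  | insert i s hi ih =>
    rw [Finset.sum_insert hi, Finset.sum_insert hi]
    refine le_trans ?_ (add_le_add_right ih _)
    unfold Ao_sz; rw [map_add]; exact lC_add_le _ _

theorem Ao_sz_one {k : ℕ} : Ao_sz (1 : MvPolynomial (Fin k) ℤ) ≤ 1 := by
  unfold Ao_sz lC
  rw [map_one, MvPolynomial.support_one]
  simp

theorem Ao_sz_zero {k : ℕ} : Ao_sz (0 : MvPolynomial (Fin k) ℤ) = 0 := by
  simp [Ao_sz, lC]

/-- row Ao: integer functionals -/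
theorem intFun (θ : Fin m → ℂ) {k : ℕ} (I : Fin k → Fin m) (hI : AlgebraicIndependent ℚ (fun i => θ (I i)))
    (ha : ∀ j, IsAlgebraic (IntermediateField.adjoin ℚ (Set.range fun i => θ (I i))) (θ j)) :
    ∃ C : ℝ, 0 < C ∧ ∀ L : ℕ, ∃ (q : ℕ) (a : Fin q → (Fin (m + 1) →₀ ℕ) → ℤ), (q : ℝ) ≤ C * ((L : ℝ) + 1) ^ k ∧
      (∀ i d, |(a i d : ℝ)| ≤ Real.exp (C * (L + 1))) ∧
      ∀ f : PQ m, f.IsHomogeneous L → (f ∈ p0 θ ↔ ∀ i, ∑ d ∈ f.support, (a i d : ℚ) * f.coeff d = 0) := by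
  classical
  set x : Fin k → ℂ := fun i => θ (I i) with hx
  set K := IntermediateField.adjoin ℚ (Set.range x) with hK
  set L1 : IntermediateField K ℂ := IntermediateField.adjoin K (Set.range θ) with hL1
  have : FiniteDimensional K L1 := by
    apply IntermediateField.finiteDimensional_adjoin
    rintro y ⟨j, rfl⟩
    exact (ha j).isIntegral
  obtain ⟨n, b⟩ : ∃ n : ℕ, Nonempty (Module.Basis (Fin n) K L1) := ⟨_, ⟨Module.finBasis K L1⟩⟩
  obtain ⟨b⟩ := b
  have htm : ∀ j, θ j ∈ L1 := fun j => IntermediateField.subset_adjoin K _ ⟨j, rfl⟩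
  set t : Fin (m + 1) → L1 := Fin.cons 1 (fun j => ⟨θ j, htm j⟩) with ht
  have htc : ∀ j, (t j : ℂ) = (Fin.cons 1 θ : Fin (m + 1) → ℂ) j := by
    intro j
    refine Fin.cases ?_ ?_ j
    · simp [ht]
    · intro i; simp [ht]
  set φ := Algebra.leftMulMatrix b with hφ
  have hφi : Function.Injective φ := Algebra.leftMulMatrix_injective b
  -- the matrices of the monomials
  set W : (Fin (m + 1) →₀ ℕ) → Matrix (Fin n) (Fin n) K := fun d => φ (∏ j, t j ^ d j) with hW
  -- common denominator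
  obtain ⟨Δ, P, hΔ, hP⟩ := Ao_den x (ι := Fin (m + 1) × Fin n × Fin n) (fun u => ((φ (t u.1) u.2.1 u.2.2 : K) : ℂ))
    (fun u => (φ (t u.1) u.2.1 u.2.2).2)
  -- bounds
  obtain ⟨δ, hδ⟩ : ∃ δ : ℕ, ∀ u, (P u).totalDegree ≤ δ :=
    ⟨Finset.univ.sup fun u => (P u).totalDegree, fun u => Finset.le_sup (f := fun u => (P u).totalDegree) (Finset.mem_univ u)⟩
  obtain ⟨H, hH⟩ : ∃ H : ℝ, ∀ u, Ao_sz (P u) ≤ H :=
    ⟨∑ u, Ao_sz (P u), fun u => Finset.single_le_sum (f := fun u => Ao_sz (P u)) (fun _ _ => Ao_sz_nonneg _) (Finset.mem_univ u)⟩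
  set B : ℝ := max 1 (n * H) with hB
  have hB1 : 1 ≤ B := le_max_left _ _
  have hBn : n * H ≤ B := le_max_right _ _
  -- the integer matrices
  have key : ∀ L : ℕ, ∀ d : Fin (m + 1) →₀ ℕ, d.degree = L → ∃ N : Fin n → Fin n → MvPolynomial (Fin k) ℤ,
      (∀ r s, aeval x (N r s) = (aeval x Δ) ^ L * ((W d r s : K) : ℂ)) ∧ (∀ r s, (N r s).totalDegree ≤ δ * L) ∧
        ∀ r s, Ao_sz (N r s) ≤ B ^ L := by
    intro L
    induction L with
    | zero =>
      intro d hd
      have hd0 : d = 0 := (Finsupp.degree_eq_zero_iff d).mp hd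
      subst hd0
      refine ⟨fun r s => if r = s then 1 else 0, ?_, ?_, ?_⟩
      · intro r s
        have h1 : W 0 = 1 := by simp [hW]
        rw [h1, Matrix.one_apply]
        beta_reduce
        split_ifs <;> simp
      · intro r s
        beta_reduce
        split_ifs <;> simp
      · intro r s
        beta_reduce
        split_ifs
        · simpa using Ao_sz_one
        · rw [Ao_sz_zero]; simp
    | succ L ih =>
      intro d hd
      obtain ⟨j, hj⟩ : ∃ j, d j ≠ 0 := by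
        by_contra hcon
        push Not at hcon
        have : d = 0 := Finsupp.ext hcon
        rw [this] at hd; simp at hd
      set d' := d - Finsupp.single j 1 with hd'
      have hdd : d = d' + Finsupp.single j 1 := by
        rw [hd', tsub_add_cancel_of_le]
        rw [Finsupp.single_le_iff]; omega
      have hdeg : d'.degree = L := by
        have := congrArg Finsupp.degree hdd
        rw [map_add, Finsupp.degree_single, hd] at this; omega
      obtain ⟨N, h1, h2, h3⟩ := ih d' hdeg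
      have hWd : W d = W d' * φ (t j) := by
        rw [hW]; simp only
        rw [← map_mul]; congr 1
        have : ∀ i, t i ^ d i = t i ^ d' i * t i ^ (Finsupp.single j 1 : Fin (m + 1) →₀ ℕ) i := by
          intro i; rw [← pow_add]; congr 1; rw [hdd]; rfl
        rw [Finset.prod_congr rfl fun i _ => this i, Finset.prod_mul_distrib]; congr 1
        rw [Finset.prod_eq_single j]
        · simp
        · intro i _ hij; rw [Finsupp.single_eq_of_ne hij]; simp
        · simp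
      refine ⟨fun r s => ∑ u, N r u * P (j, u, s), ?_, ?_, ?_⟩
      · intro r s
        rw [map_sum, hWd, Matrix.mul_apply]
        have : ((∑ u, W d' r u * φ (t j) u s : K) : ℂ) = ∑ u, ((W d' r u : K) : ℂ) * ((φ (t j) u s : K) : ℂ) := by
          push_cast; rfl
        rw [this, Finset.mul_sum]
        refine Finset.sum_congr rfl fun u _ => ?_
        rw [map_mul, h1, hP]; ring
      · intro r s
        refine MvPolynomial.totalDegree_finsetSum_le fun u _ => ?_
        refine (MvPolynomial.totalDegree_mul _ _).trans ?_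
        have := h2 r u
        have := hδ (j, u, s)
        rw [Nat.mul_succ]; omega
      · intro r s
        refine (Ao_sz_sum _ _).trans ?_
        have hH0 : 0 ≤ H := (Ao_sz_nonneg _).trans (hH (j, r, s))
        have : ∀ u ∈ (Finset.univ : Finset (Fin n)), Ao_sz (N r u * P (j, u, s)) ≤ B ^ L * H := by
          intro u _
          refine (Ao_sz_mul _ _).trans ?_
          exact mul_le_mul (h3 r u) (hH _) (Ao_sz_nonneg _) (by positivity)
        refine (Finset.sum_le_sum this).trans ?_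
        rw [Finset.sum_const, Finset.card_univ, Fintype.card_fin, nsmul_eq_mul, pow_succ]
        calc (n : ℝ) * (B ^ L * H) = B ^ L * (n * H) := by ring
          _ ≤ B ^ L * B := mul_le_mul_of_nonneg_left hBn (by positivity)
  choose N hN1 hN2 hN3 using key
  set lB := Real.log B with hlB
  have hlB0 : 0 ≤ lB := Real.log_nonneg hB1
  refine ⟨max (lB + 1) ((n : ℝ) * n * (δ + 1) ^ k + 1), by positivity, ?_⟩
  intro L
  let e := Fintype.equivFin (Fin n × Fin n × (Fin k → Fin (δ * L + 1)))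
  let al : (Fin k → Fin (δ * L + 1)) → (Fin k →₀ ℕ) := fun α => Finsupp.equivFunOnFinite.symm fun i => (α i : ℕ)
  refine ⟨Fintype.card (Fin n × Fin n × (Fin k → Fin (δ * L + 1))), fun i d => if h : d.degree = L then
    (N L d h (e.symm i).1 (e.symm i).2.1).coeff (al (e.symm i).2.2) else 0, ?_, ?_, ?_⟩
  · simp only [Fintype.card_prod, Fintype.card_fin, Fintype.card_fun]
    push_cast
    have h1 : ((δ : ℝ) * L + 1) ^ k ≤ ((δ + 1) * (L + 1)) ^ k := by
      apply pow_le_pow_left₀ (by positivity)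
      nlinarith [show (0:ℝ) ≤ δ from Nat.cast_nonneg _, show (0:ℝ) ≤ L from Nat.cast_nonneg _]
    rw [mul_pow] at h1
    calc (n : ℝ) * (n * (δ * L + 1) ^ k) ≤ n * (n * ((δ + 1) ^ k * (L + 1) ^ k)) := by gcongr
      _ = ((n : ℝ) * n * (δ + 1) ^ k) * (L + 1) ^ k := by ring
      _ ≤ _ := by
        gcongr
        exact le_trans (by linarith) (le_max_right _ _)
  · intro i d
    beta_reduce
    split_ifs with h
    · refine (Ao_sz_coeff _ _).trans ((hN3 L d h _ _).trans ?_)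
      have hB0 : 0 < B := by linarith
      rw [← Real.exp_log hB0, ← Real.exp_nat_mul]
      apply Real.exp_le_exp.mpr
      have : (lB : ℝ) ≤ max (lB + 1) ((n : ℝ) * n * (δ + 1) ^ k + 1) := le_trans (by linarith) (le_max_left _ _)
      calc (L : ℝ) * Real.log B ≤ (L + 1) * Real.log B := by
            apply mul_le_mul_of_nonneg_right (by linarith) hlB0
        _ = lB * (L + 1) := by rw [hlB]; ring
        _ ≤ _ := mul_le_mul_of_nonneg_right this (by positivity)
    · simp; positivity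
  · intro f hf
    have hdeg : ∀ d ∈ f.support, d.degree = L := by
      intro d hd
      have := hf (MvPolynomial.mem_support_iff.mp hd)
      rw [Finsupp.degree_eq_weight_one (R := ℕ)]
      exact this
    -- the element of `L1`
    set el : L1 := ∑ d ∈ f.support, ((f.coeff d : ℚ) : K) • ∏ j, t j ^ d j with hel
    have helc : (el : ℂ) = MvPolynomial.aeval (Fin.cons 1 θ : Fin (m + 1) → ℂ) f := by
      rw [MvPolynomial.aeval_def, MvPolynomial.eval₂_eq', hel]
      push_cast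
      refine Finset.sum_congr rfl fun d _ => ?_
      rw [Algebra.smul_def]
      push_cast
      congr 1
      refine Finset.prod_congr rfl fun j _ => ?_
      rw [htc]
    have hφel : ∀ r s, ((φ el r s : K) : ℂ) = ∑ d ∈ f.support, ((f.coeff d : ℚ) : ℂ) * ((W d r s : K) : ℂ) := by
      intro r s
      rw [hel, map_sum, Matrix.sum_apply]
      push_cast
      refine Finset.sum_congr rfl fun d _ => ?_
      rw [map_smul, Matrix.smul_apply]
      simp [hW]
    have hpoly : ∀ r s, (∃ F : MvPolynomial (Fin k) ℚ, F = ∑ d ∈ f.support, if h : d.degree = L then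
        C (f.coeff d) * MvPolynomial.map (Int.castRingHom ℚ) (N L d h r s) else 0) := fun r s => ⟨_, rfl⟩
    choose F hF using hpoly
    have hFe : ∀ r s, aeval x (F r s) = (aeval x Δ) ^ L * ((φ el r s : K) : ℂ) := by
      intro r s
      rw [hF, hφel, map_sum, Finset.mul_sum]
      refine Finset.sum_congr rfl fun d hd => ?_
      rw [dif_pos (hdeg d hd), map_mul, aeval_C]
      have h1 := hN1 L d (hdeg d hd) r s
      have h2 : aeval x (MvPolynomial.map (Int.castRingHom ℚ) (N L d (hdeg d hd) r s)) = aeval x (N L d (hdeg d hd) r s) := by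
        rw [MvPolynomial.aeval_def, MvPolynomial.aeval_def, MvPolynomial.eval₂_map]
        congr 1
      rw [h2, h1]
      simp
      ring
    have hFc : ∀ r s α, (F r s).coeff α = ∑ d ∈ f.support, if h : d.degree = L then
        f.coeff d * (((N L d h r s).coeff α : ℤ) : ℚ) else 0 := by
      intro r s α
      rw [hF, MvPolynomial.coeff_sum]
      refine Finset.sum_congr rfl fun d hd => ?_
      rw [dif_pos (hdeg d hd), dif_pos (hdeg d hd), MvPolynomial.coeff_C_mul, MvPolynomial.coeff_map]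
      simp
    rw [mem_p0 θ hf, ← helc]
    have e1 : (el : ℂ) = 0 ↔ ∀ r s, F r s = 0 := by
      constructor
      · intro h r s
        have h0 : el = 0 := by exact_mod_cast h
        have : aeval x (F r s) = 0 := by rw [hFe, h0]; simp
        exact (injective_iff_map_eq_zero _).mp hI _ this
      · intro h
        have : φ el = 0 := by
          ext r s
          have h1 := hFe r s
          rw [h r s, map_zero] at h1
          have h2 := (mul_eq_zero.mp h1.symm).resolve_left (pow_ne_zero _ hΔ)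
          simpa using h2
        have : el = 0 := hφi (by rw [this, map_zero])
        rw [this]; simp
    rw [e1]
    constructor
    · intro h i
      have h1 := hFc (e.symm i).1 (e.symm i).2.1 (al (e.symm i).2.2)
      rw [h, MvPolynomial.coeff_zero] at h1
      rw [h1]
      refine Finset.sum_congr rfl fun d hd => ?_
      beta_reduce
      rw [dif_pos (hdeg d hd), dif_pos (hdeg d hd)]; ring
    · intro h r s
      ext α
      rw [MvPolynomial.coeff_zero, hFc]
      by_cases hα : ∀ i, α i < δ * L + 1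
      · have h1 := h (e (r, s, fun i => ⟨α i, hα i⟩))
        simp only [Equiv.symm_apply_apply] at h1
        have h2 : al (fun i => ⟨α i, hα i⟩) = α := by ext i; simp [al]
        rw [h2] at h1
        rw [← h1]
        refine Finset.sum_congr rfl fun d hd => ?_
        rw [dif_pos (hdeg d hd), dif_pos (hdeg d hd)]; ring
      · push Not at hα
        obtain ⟨i, hi⟩ := hα
        refine Finset.sum_eq_zero fun d hd => ?_
        rw [dif_pos (hdeg d hd)]
        have : (N L d (hdeg d hd) r s).coeff α = 0 := by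
          by_contra hne
          have h1 := MvPolynomial.le_totalDegree (MvPolynomial.mem_support_iff.mpr hne)
          have h2 := hN2 L d (hdeg d hd) r s
          have h3 : α i ≤ α.degree := Finsupp.le_degree i α
          have h4 : α.sum (fun _ e => e) = α.degree := rfl
          rw [h4] at h1
          omega
        rw [this]; simp



end Pool.Agent.LT
end

end
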