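import Mathlib
import Pool.Agent.Lib.MP_f58a57_nt.LK.K002
import Pool.Agent.Lib.MP_f58a57_nt.LK.K008

section

/-!
# MP_f58a57_nt, large transcendence degree, version 2: `p = 0` if and only if `K` contains a real quadratic field
-/

open Module Complex

noncomputable section

namespace Pool.Agent.LT.QGf

theorem sqrt_irr {Δ : ℕ} (hΔ : ¬ IsSquare Δ) {a b : ℚ} (h : (a : ℝ) + b * Real.sqrt Δ = 0) : a = 0 ∧ b = 0 := by
  have hirr : Irrational (Real.sqrt Δ) := irrational_sqrt_natCast_iff.mpr hΔ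
  have hb : b = 0 := by
    by_contra hb
    apply hirr
    refine ⟨-a / b, ?_⟩
    have hb' : (b : ℝ) ≠ 0 := by exact_mod_cast hb
    push_cast
    field_simp
    linarith
  subst hb
  simp only [Rat.cast_zero, zero_mul, add_zero] at h
  exact ⟨by exact_mod_cast h, rfl⟩

/-- a nonreal quartic field which contains a real quadratic field -/
theorem of_QF {K : Subfield ℂ} (hK : QF K) : QG K 0 := by
  obtain ⟨Δ, hΔ, hr⟩ := hK.rq
  obtain ⟨θ, hθ, hθi⟩ := hK.nr
  have hfK : FiniteDimensional ℚ K := FiniteDimensional.of_finrank_pos (by rw [hK.dim]; omega)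
  set r : ℂ := ((Real.sqrt Δ : ℝ) : ℂ) with hrd
  let v : Fin 4 → K := ![1, ⟨r, hr⟩, ⟨θ, hθ⟩, ⟨r, hr⟩ * ⟨θ, hθ⟩]
  have hli : LinearIndependent ℚ v := by
    rw [Fintype.linearIndependent_iff]
    intro g hg
    have h1 : (g 0 : ℂ) + g 1 * r + g 2 * θ + g 3 * (r * θ) = 0 := by
      have h2 := congrArg (fun t : K => (t : ℂ)) hg
      simp only [Fin.sum_univ_four, v] at h2
      simpa [Rat.smul_def] using h2
    have h3 : (g 2 : ℝ) + g 3 * Real.sqrt Δ = 0 := by
      have h4 := congrArg Complex.im h1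
      simp only [hrd, Complex.add_im, Complex.mul_im, Complex.ratCast_im, Complex.ratCast_re, Complex.ofReal_im, Complex.ofReal_re,
        Complex.zero_im, mul_zero, zero_mul, add_zero, zero_add, Complex.mul_re, sub_zero] at h4
      have h5 : ((g 2 : ℝ) + g 3 * Real.sqrt Δ) * θ.im = 0 := by linear_combination h4
      exact (mul_eq_zero.mp h5).resolve_right hθi
    obtain ⟨h5, h6⟩ := sqrt_irr hΔ h3
    have h7 : (g 0 : ℝ) + g 1 * Real.sqrt Δ = 0 := by
      have h4 := congrArg Complex.re h1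
      rw [h5, h6] at h4
      simpa [hrd] using h4
    obtain ⟨h8, h9⟩ := sqrt_irr hΔ h7
    intro i
    fin_cases i
    · exact h8
    · exact h9
    · exact h5
    · exact h6
  have hspan : Submodule.span ℚ (Set.range v) = ⊤ := hli.span_eq_top_of_card_eq_finrank' (by rw [hK.dim]; rfl)
  have hrep : ∀ x ∈ K, ∃ a b c d : ℚ, x = a + b * r + (c + d * r) * θ := by
    intro x hx
    have h1 : (⟨x, hx⟩ : K) ∈ Submodule.span ℚ (Set.range v) := by rw [hspan]; exact Submodule.mem_top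
    rw [Submodule.mem_span_range_iff_exists_fun] at h1
    obtain ⟨g, hg⟩ := h1
    refine ⟨g 0, g 1, g 2, g 3, ?_⟩
    have h2 := congrArg (fun t : K => (t : ℂ)) hg
    simp only [Fin.sum_univ_four, v] at h2
    have h3 : (g 0 : ℂ) + g 1 * r + g 2 * θ + g 3 * (r * θ) = x := by simpa [Rat.smul_def] using h2
    rw [← h3]
    ring
  have hrr : (starRingEnd ℂ) r = r := Complex.conj_ofReal _
  have hθc : (starRingEnd ℂ) θ ∈ K := by
    obtain ⟨a, b, c, d, h⟩ := hrep (θ ^ 2) (pow_mem hθ 2)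
    have h1 := congrArg (starRingEnd ℂ) h
    simp only [map_add, map_mul, map_pow, map_ratCast, hrr] at h1
    have hne : θ - (starRingEnd ℂ) θ ≠ 0 := by
      intro h2
      exact hθi (Complex.conj_eq_iff_im.mp (sub_eq_zero.mp h2).symm)
    have h2 : (starRingEnd ℂ) θ = c + d * r - θ := by
      apply mul_left_cancel₀ hne
      linear_combination h - h1
    rw [h2]
    exact sub_mem (add_mem (SubfieldClass.ratCast_mem K c) (mul_mem (SubfieldClass.ratCast_mem K d) hr)) hθ
  have hle : K.map (starRingEnd ℂ) ≤ K := by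
    rintro _ ⟨x, hx, rfl⟩
    obtain ⟨a, b, c, d, rfl⟩ := hrep x hx
    simp only [map_add, map_mul, map_ratCast, hrr]
    exact add_mem (add_mem (SubfieldClass.ratCast_mem K a) (mul_mem (SubfieldClass.ratCast_mem K b) hr))
      (mul_mem (add_mem (SubfieldClass.ratCast_mem K c) (mul_mem (SubfieldClass.ratCast_mem K d) hr)) hθc)
  refine ⟨hK.dim, hK.nr, ?_⟩
  rw [sup_eq_left.mpr hle, hK.dim]

/-- a subfield as a `ℚ`-space -/
def sm (S : Subfield ℂ) : Submodule ℚ ℂ where
  carrier := S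
  add_mem' := fun ha hb => S.add_mem ha hb
  zero_mem' := S.zero_mem
  smul_mem' := by
    intro q x hx
    rw [Rat.smul_def]
    exact mul_mem (SubfieldClass.ratCast_mem S q) hx

theorem conj_mem {K : Subfield ℂ} (hK : QG K 0) {x : ℂ} (hx : x ∈ K) : (starRingEnd ℂ) x ∈ K := by
  have h1 : sm K ≤ sm (K ⊔ K.map (starRingEnd ℂ)) := (le_sup_left : K ≤ K ⊔ K.map (starRingEnd ℂ))
  have h2 : finrank ℚ (sm K) = 4 := hK.dim
  have h3 : finrank ℚ (sm (K ⊔ K.map (starRingEnd ℂ))) = 4 := hK.rel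
  have : FiniteDimensional ℚ (sm (K ⊔ K.map (starRingEnd ℂ))) := FiniteDimensional.of_finrank_pos (by omega)
  have h4 := Submodule.eq_of_le_of_finrank_eq h1 (by rw [h2, h3])
  have h5 : (starRingEnd ℂ) x ∈ sm (K ⊔ K.map (starRingEnd ℂ)) :=
    (le_sup_right : K.map (starRingEnd ℂ) ≤ K ⊔ K.map (starRingEnd ℂ)) ⟨x, hx, rfl⟩
  rw [← h4] at h5
  exact h5

/-- the real elements of `K` -/
def Fr (K : Subfield ℂ) : Submodule ℚ K where
  carrier := {x | (x : ℂ).im = 0}
  add_mem' := by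
    intro a b ha hb
    show ((a + b : K) : ℂ).im = 0
    have ha' : (a : ℂ).im = 0 := ha
    have hb' : (b : ℂ).im = 0 := hb
    simp [ha', hb']
  zero_mem' := by simp
  smul_mem' := by
    intro q x hx
    have hx' : (x : ℂ).im = 0 := hx
    show ((q • x : K) : ℂ).im = 0
    have : ((q • x : K) : ℂ) = (q : ℂ) * x := by
      rw [← Rat.smul_def]
      rfl
    rw [this]
    simp [hx']

theorem finrank_Fr {K : Subfield ℂ} (hK : QG K 0) : finrank ℚ (Fr K) = 2 := by
  obtain ⟨θ, hθ, hθi⟩ := hK.nr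
  have hfK : FiniteDimensional ℚ K := FiniteDimensional.of_finrank_pos (by rw [hK.dim]; omega)
  set w : K := ⟨θ, hθ⟩ - ⟨(starRingEnd ℂ) θ, conj_mem hK hθ⟩ with hw
  have hwc : (w : ℂ) = θ - (starRingEnd ℂ) θ := rfl
  have hwr : (w : ℂ).re = 0 := by rw [hwc]; simp
  have hwi : (w : ℂ).im ≠ 0 := by
    rw [hwc, Complex.sub_im, Complex.conj_im, sub_neg_eq_add, ← two_mul]
    exact mul_ne_zero two_ne_zero hθi
  have hw0 : (w : ℂ) ≠ 0 := fun h => hwi (by rw [h]; rfl)
  let L : (Fr K × Fr K) →ₗ[ℚ] K := (Fr K).subtype.coprod ((LinearMap.mulLeft ℚ w).comp (Fr K).subtype)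
  have hL : ∀ a b, L (a, b) = (a : K) + w * (b : K) := fun a b => rfl
  have hinj : Function.Injective L := by
    rw [← LinearMap.ker_eq_bot, LinearMap.ker_eq_bot']
    rintro ⟨a, b⟩ h
    rw [hL] at h
    have h1 := congrArg (fun t : K => (t : ℂ)) h
    have ha : ((a : K) : ℂ).im = 0 := a.2
    have hb : ((b : K) : ℂ).im = 0 := b.2
    have h2 : ((a : K) : ℂ) + (w : ℂ) * ((b : K) : ℂ) = 0 := h1
    have h3 := congrArg Complex.re h2
    have h4 := congrArg Complex.im h2
    simp only [Complex.add_re, Complex.mul_re, Complex.add_im, Complex.mul_im, hwr, ha, hb, zero_mul, mul_zero, sub_zero, add_zero,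
      zero_add, Complex.zero_re, Complex.zero_im] at h3 h4
    have h5 : ((b : K) : ℂ).re = 0 := (mul_eq_zero.mp h4).resolve_left hwi
    have ha0 : (a : K) = 0 := Subtype.ext (Complex.ext h3 ha)
    have hb0 : (b : K) = 0 := Subtype.ext (Complex.ext h5 hb)
    rw [Prod.mk_eq_zero]
    exact ⟨Subtype.ext ha0, Subtype.ext hb0⟩
  have hsurj : Function.Surjective L := by
    intro x
    have hxc : (starRingEnd ℂ) (x : ℂ) ∈ K := conj_mem hK x.2
    set y : K := ⟨_, hxc⟩ with hy
    have hyc : (y : ℂ) = (starRingEnd ℂ) (x : ℂ) := rfl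
    have h1 : (((x + y) / 2 : K) : ℂ).im = 0 := by
      have : (((x + y) / 2 : K) : ℂ) = (((x : ℂ).re : ℝ) : ℂ) := by
        show ((x : ℂ) + (y : ℂ)) / (2 : ℂ) = _
        rw [hyc, Complex.add_conj]
        push_cast
        ring
      rw [this, Complex.ofReal_im]
    have hwI : (w : ℂ) = (((w : ℂ).im : ℝ) : ℂ) * Complex.I := by
      apply Complex.ext
      · simp [hwr]
      · simp
    obtain ⟨u, hu⟩ : ∃ u : ℝ, u = (w : ℂ).im := ⟨_, rfl⟩
    rw [← hu] at hwI hwi
    have h2 : (((x - y) / (2 * w) : K) : ℂ).im = 0 := by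
      have : (((x - y) / (2 * w) : K) : ℂ) = (((x : ℂ).im / u : ℝ) : ℂ) := by
        show ((x : ℂ) - (y : ℂ)) / ((2 : ℂ) * (w : ℂ)) = _
        rw [hyc, Complex.sub_conj, hwI]
        have h3 : ((u : ℝ) : ℂ) ≠ 0 := by exact_mod_cast hwi
        have h4 := Complex.I_ne_zero
        push_cast
        field_simp
      rw [this, Complex.ofReal_im]
    refine ⟨(⟨(x + y) / 2, h1⟩, ⟨(x - y) / (2 * w), h2⟩), ?_⟩
    rw [hL]
    have hw1 : w ≠ 0 := fun h => hw0 (by rw [h]; rfl)
    show (x + y) / 2 + w * ((x - y) / (2 * w)) = x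
    field_simp
    ring
  have h6 := (LinearEquiv.ofBijective L ⟨hinj, hsurj⟩).finrank_eq
  rw [Module.finrank_prod, hK.dim] at h6
  omega

/-- the converse -/
theorem to_QF {K : Subfield ℂ} (hK : QG K 0) : QF K := by
  refine ⟨hK.dim, hK.nr, ?_⟩
  have hfK : FiniteDimensional ℚ K := FiniteDimensional.of_finrank_pos (by rw [hK.dim]; omega)
  have hF := finrank_Fr hK
  obtain ⟨r, hrF, hr⟩ : ∃ r ∈ Fr K, r ∉ Submodule.span ℚ {(1 : K)} := by
    by_contra hcon
    push Not at hcon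
    have h1 : Fr K ≤ Submodule.span ℚ {(1 : K)} := hcon
    have h2 := Submodule.finrank_mono h1
    have h3 := finrank_span_le_card (R := ℚ) ({(1 : K)} : Set K)
    simp at h3
    omega
  have hrat : ∀ q : ℚ, r ≠ (q : K) := by
    intro q hq
    apply hr
    rw [Submodule.mem_span_singleton]
    exact ⟨q, by rw [hq, Rat.smul_def, mul_one]⟩
  have h1F : (1 : K) ∈ Fr K := by
    show ((1 : K) : ℂ).im = 0
    simp
  have hri : (r : ℂ).im = 0 := hrF
  have h2F : r ^ 2 ∈ Fr K := by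
    show ((r ^ 2 : K) : ℂ).im = 0
    push_cast
    rw [pow_two, Complex.mul_im, hri]
    ring
  -- the relation
  obtain ⟨a, b, hab⟩ : ∃ a b : ℚ, r ^ 2 = (a : K) + b * r := by
    let v : Fin 2 → Fr K := ![⟨1, h1F⟩, ⟨r, hrF⟩]
    have hli : LinearIndependent ℚ v := by
      rw [LinearIndependent.pair_iff]
      intro s t hst
      have h3 : (s : K) + t * r = 0 := by
        have h4 := congrArg (fun x : Fr K => (x : K)) hst
        simpa [Rat.smul_def] using h4
      have ht : t = 0 := by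
        by_contra ht
        apply hrat (-s / t)
        have ht' : (t : K) ≠ 0 := by exact_mod_cast ht
        push_cast
        field_simp
        linear_combination h3
      subst ht
      simp only [Rat.cast_zero, zero_mul, add_zero] at h3
      exact ⟨by exact_mod_cast h3, rfl⟩
    have hspan : Submodule.span ℚ (Set.range v) = ⊤ := hli.span_eq_top_of_card_eq_finrank' (by rw [hF]; rfl)
    have h1 : (⟨r ^ 2, h2F⟩ : Fr K) ∈ Submodule.span ℚ (Set.range v) := by rw [hspan]; exact Submodule.mem_top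
    rw [Submodule.mem_span_range_iff_exists_fun] at h1
    obtain ⟨g, hg⟩ := h1
    refine ⟨g 0, g 1, ?_⟩
    have h2 := congrArg (fun t : Fr K => (t : K)) hg
    simp only [Fin.sum_univ_two, v] at h2
    have h3 : (g 0 : K) + g 1 * r = r ^ 2 := by simpa [Rat.smul_def] using h2
    exact h3.symm
  set D : ℚ := b ^ 2 + 4 * a with hD
  have hs : (2 * r - b) ^ 2 = (D : K) := by
    rw [hD]
    push_cast
    linear_combination 4 * hab
  -- the real number
  set t : ℝ := (r : ℂ).re with ht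
  have hrt : (r : ℂ) = (t : ℂ) := Complex.ext (by simp [ht]) (by simp [hri])
  have hsr : (2 * t - b) ^ 2 = (D : ℝ) := by
    have h1 := congrArg (fun x : K => (x : ℂ)) hs
    have h2 : (2 * (t : ℂ) - b) ^ 2 = (D : ℂ) := by
      rw [← hrt]
      have h3 : ((((2 : K) * r - b) ^ 2 : K) : ℂ) = ((2 : ℂ) * (r : ℂ) - b) ^ 2 := by
        push_cast
        rfl
      have h4 : (((D : K)) : ℂ) = (D : ℂ) := by push_cast; rfl
      exact h3.symm.trans (h1.trans h4)
    exact_mod_cast h2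
  have hD0 : 0 ≤ D := by
    have : (0 : ℝ) ≤ (D : ℝ) := by rw [← hsr]; positivity
    exact_mod_cast this
  have hDq : (D : ℝ) = D.num / D.den := by exact_mod_cast (Rat.num_div_den D).symm
  have hden : (0 : ℝ) < D.den := by exact_mod_cast D.den_pos
  have hnum0 : 0 ≤ D.num := Rat.num_nonneg.mpr hD0
  obtain ⟨N, hN⟩ : ∃ N : ℕ, D.num = N := ⟨D.num.toNat, (Int.toNat_of_nonneg hnum0).symm⟩
  have hΔ : ((N * D.den : ℕ) : ℝ) = (D.den * (2 * t - b)) ^ 2 := by
    rw [mul_pow, hsr, hDq, hN]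
    push_cast
    field_simp
  refine ⟨N * D.den, ?_, ?_⟩
  · rintro ⟨m, hm⟩
    have h1 : (D.den * (2 * t - b)) ^ 2 = (m : ℝ) ^ 2 := by
      rw [← hΔ, hm]
      push_cast
      ring
    rcases sq_eq_sq_iff_eq_or_eq_neg.mp h1 with h2 | h2
    · apply hrat ((m / D.den + b) / 2)
      apply Subtype.ext
      have h4 : ((((m / D.den + b) / 2 : ℚ) : K) : ℂ) = (((((m : ℝ) / D.den + b) / 2 : ℝ)) : ℂ) := by
        rw [show ((((m / D.den + b) / 2 : ℚ) : K) : ℂ) = (((m / D.den + b) / 2 : ℚ) : ℂ) by push_cast; rfl]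
        push_cast
        rfl
      rw [hrt, h4]
      have h3 : t = ((m : ℝ) / D.den + b) / 2 := by
        field_simp
        linarith
      rw [← h3]
    · apply hrat ((-m / D.den + b) / 2)
      apply Subtype.ext
      have h4 : ((((-m / D.den + b) / 2 : ℚ) : K) : ℂ) = (((-(m : ℝ) / D.den + b) / 2 : ℝ) : ℂ) := by
        rw [show ((((-m / D.den + b) / 2 : ℚ) : K) : ℂ) = (((-m / D.den + b) / 2 : ℚ) : ℂ) by push_cast; rfl]
        push_cast
        rfl
      rw [hrt, h4]
      have h3 : t = (-(m : ℝ) / D.den + b) / 2 := by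
        field_simp
        linarith
      rw [← h3]
  · rw [hΔ, Real.sqrt_sq_eq_abs]
    have hmem : ((D.den * (2 * t - b) : ℝ) : ℂ) ∈ K := by
      push_cast
      rw [← hrt]
      exact mul_mem (natCast_mem K _) (sub_mem (mul_mem (by exact_mod_cast natCast_mem K 2) r.2) (SubfieldClass.ratCast_mem K b))
    rcases abs_choice (D.den * (2 * t - b)) with h | h
    · rw [h]
      exact hmem
    · rw [h, Complex.ofReal_neg]
      exact neg_mem hmem

/-- `p = 0` if and only if `K` contains a real quadratic field -/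
theorem QG_zero_iff (K : Subfield ℂ) : QG K 0 ↔ QF K := ⟨to_QF, of_QF⟩

end Pool.Agent.LT.QGf
end

end

section

open Complex MvPolynomial Matrix
noncomputable section
namespace Pool.Agent.LT
variable {m c : ℕ}

theorem Ap_lift0 {F E B D : Type} [Field F] [Field E] [CommRing B] [CommRing D] [Algebra F E] [Algebra.IsSeparable F E]
    (gF : F →+* B) (f : E →+* D) (π : B →+* D) (hπ : Function.Surjective π) (hk : IsNilpotent (RingHom.ker π))
    (h : ∀ x, π (gF x) = f (algebraMap F E x)) : ∃ Ψ : E →+* B, (∀ x, π (Ψ x) = f x) ∧ ∀ x, Ψ (algebraMap F E x) = gF x := by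
  let : Algebra F B := gF.toAlgebra
  let : Algebra F D := (f.comp (algebraMap F E)).toAlgebra
  have : Algebra.FormallyEtale F E := Algebra.FormallyEtale.of_isSeparable F E
  let f' : E →ₐ[F] D := { f with commutes' := fun r => rfl }
  let π' : B →ₐ[F] D := { π with commutes' := fun r => h r }
  let Ψ : E →ₐ[F] B := Algebra.FormallySmooth.liftOfSurjective f' π' hπ hk
  refine ⟨Ψ, fun x => ?_, fun x => ?_⟩
  · exact Algebra.FormallySmooth.liftOfSurjective_apply f' π' hπ hk x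
  · exact Ψ.commutes x

/-- the truncated polynomial ring -/
abbrev Ap_B (k s : ℕ) : Type := MvPolynomial (Fin k) ℂ ⧸ (idealOfVars (Fin k) ℂ) ^ s

theorem Ap_const {k s : ℕ} (hs : s ≠ 0) : ∀ p ∈ (idealOfVars (Fin k) ℂ) ^ s, (constantCoeff : MvPolynomial (Fin k) ℂ →+* ℂ) p = 0 := by
  intro p hp
  rw [mem_pow_idealOfVars_iff'] at hp
  exact hp 0 (by simp; omega)

/-- the constant term -/
def Ap_pi {k s : ℕ} (hs : s ≠ 0) : Ap_B k s →+* ℂ := Ideal.Quotient.lift _ constantCoeff (Ap_const hs)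

theorem Ap_mem_vars {k : ℕ} (p : MvPolynomial (Fin k) ℂ) (h : constantCoeff p = 0) : p ∈ idealOfVars (Fin k) ℂ := by
  have := (mem_pow_idealOfVars_iff' (σ := Fin k) (R := ℂ) 1 p).2 (by
    intro x hx
    have : x = 0 := by
      have : x.degree = 0 := by omega
      exact (Finsupp.degree_eq_zero_iff x).1 this
    rw [this]; exact h)
  simpa using this

theorem Ap_isUnit {k s : ℕ} (hs : s ≠ 0) (b : Ap_B k s) (hb : Ap_pi hs b ≠ 0) : IsUnit b := by
  obtain ⟨p, rfl⟩ := Ideal.Quotient.mk_surjective b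
  have hp : constantCoeff p ≠ 0 := hb
  rw [Ideal.Quotient.isUnit_mk_pow_iff_isUnit_mk _ hs]
  have : Ideal.Quotient.mk (idealOfVars (Fin k) ℂ) p = Ideal.Quotient.mk (idealOfVars (Fin k) ℂ) (C (constantCoeff p)) := by
    rw [Ideal.Quotient.eq]
    refine Ap_mem_vars _ ?_
    simp
  rw [this]
  refine IsUnit.map _ ?_
  exact (IsUnit.mk0 _ hp).map C

theorem Ap_ker {k s : ℕ} (hs : s ≠ 0) (b : Ap_B k s) (hb : Ap_pi hs b = 0) : b ∈ (idealOfVars (Fin k) ℂ).map (Ideal.Quotient.mk ((idealOfVars (Fin k) ℂ) ^ s)) := by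
  obtain ⟨p, rfl⟩ := Ideal.Quotient.mk_surjective b
  exact Ideal.mem_map_of_mem _ (Ap_mem_vars _ hb)

theorem Ap_nil {k s : ℕ} : ((idealOfVars (Fin k) ℂ).map (Ideal.Quotient.mk ((idealOfVars (Fin k) ℂ) ^ s))) ^ s = ⊥ := by
  rw [← Ideal.map_pow, Ideal.map_quotient_self]

theorem Ap_kernil {k s : ℕ} (hs : s ≠ 0) : IsNilpotent (RingHom.ker (Ap_pi (k := k) hs)) := by
  refine ⟨s, ?_⟩
  refine le_antisymm ?_ bot_le
  change RingHom.ker (Ap_pi hs) ^ s ≤ ⊥
  rw [← Ap_nil (k := k) (s := s)]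
  refine Ideal.pow_right_mono ?_ s
  intro b hb
  exact Ap_ker hs b hb

theorem Ap_surj {k s : ℕ} (hs : s ≠ 0) : Function.Surjective (Ap_pi (k := k) hs) := by
  intro x
  exact ⟨Ideal.Quotient.mk _ (C x), by simp [Ap_pi]⟩

open scoped IntermediateField.algebraAdjoinAdjoin in
/-- the map on the purely transcendental field -/
theorem Ap_gF (θ : Fin m → ℂ) {k : ℕ} (I : Fin k → Fin m) (hI : AlgebraicIndependent ℚ (fun i => θ (I i))) {s : ℕ} (hs : s ≠ 0) :
    ∃ gF : (IntermediateField.adjoin ℚ (Set.range fun i => θ (I i))) →+* Ap_B k s,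
      (∀ x, Ap_pi hs (gF x) = x) ∧ ∀ i, ∀ h, gF ⟨θ (I i), h⟩ = Ideal.Quotient.mk _ (C (θ (I i)) + X i) := by
  let g1 : MvPolynomial (Fin k) ℚ →ₐ[ℚ] Ap_B k s := aeval (fun i => Ideal.Quotient.mk _ (C (θ (I i)) + X i))
  let g0 : Algebra.adjoin ℚ (Set.range fun i => θ (I i)) →+* Ap_B k s := (g1.toRingHom).comp hI.repr.toRingHom
  have hg1 : ∀ p, Ap_pi hs (g1 p) = aeval (fun i => θ (I i)) p := by
    intro p
    have : ((Ap_pi hs).comp g1.toRingHom) = (aeval (fun i => θ (I i)) : MvPolynomial (Fin k) ℚ →ₐ[ℚ] ℂ).toRingHom := by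
      refine MvPolynomial.ringHom_ext (fun r => ?_) (fun i => ?_)
      · simp
      · simp [g1, Ap_pi]
    exact RingHom.congr_fun this p
  have hg0 : ∀ y, Ap_pi hs (g0 y) = (y : ℂ) := by
    intro y
    change Ap_pi hs (g1 (hI.repr y)) = y
    rw [hg1, hI.aeval_repr]
  have hu : ∀ y : nonZeroDivisors (Algebra.adjoin ℚ (Set.range fun i => θ (I i))), IsUnit (g0 y) := by
    intro y
    refine Ap_isUnit hs _ ?_
    rw [hg0]
    have := nonZeroDivisors.coe_ne_zero y
    exact fun h => this (Subtype.ext h)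
  let gF : (IntermediateField.adjoin ℚ (Set.range fun i => θ (I i))) →+* Ap_B k s := IsLocalization.lift (M := nonZeroDivisors (Algebra.adjoin ℚ (Set.range fun i => θ (I i)))) hu
  refine ⟨gF, ?_, ?_⟩
  · intro x
    have : (Ap_pi hs).comp gF = algebraMap (IntermediateField.adjoin ℚ (Set.range fun i => θ (I i))) ℂ := by
      refine IsLocalization.ringHom_ext (nonZeroDivisors (Algebra.adjoin ℚ (Set.range fun i => θ (I i)))) ?_
      ext y
      simp only [RingHom.comp_apply, gF, IsLocalization.lift_eq, hg0]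
      rfl
    exact RingHom.congr_fun this x
  · intro i h
    have h1 : (⟨θ (I i), h⟩ : IntermediateField.adjoin ℚ (Set.range fun i => θ (I i))) =
        algebraMap (Algebra.adjoin ℚ (Set.range fun i => θ (I i))) _ ⟨θ (I i), Algebra.subset_adjoin ⟨i, rfl⟩⟩ := rfl
    rw [h1]
    simp only [gF, IsLocalization.lift_eq]
    change g1 (hI.repr _) = _
    have h2 : hI.repr ⟨θ (I i), Algebra.subset_adjoin ⟨i, rfl⟩⟩ = X i := by
      have hinj := algebraicIndependent_iff_injective_aeval.1 hI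
      apply hinj
      rw [hI.aeval_repr, aeval_X]
    rw [h2]
    simp [g1]

theorem Ap_lift (θ : Fin m → ℂ) {k : ℕ} (I : Fin k → Fin m) (hI : AlgebraicIndependent ℚ (fun i => θ (I i)))
    (ha : ∀ j, IsAlgebraic (IntermediateField.adjoin ℚ (Set.range fun i => θ (I i))) (θ j)) {s : ℕ} (hs : s ≠ 0) :
    ∃ (E : Subfield ℂ) (Ψ : E →+* Ap_B k s) (hE : ∀ j, θ j ∈ E), (∀ x : E, Ap_pi hs (Ψ x) = x) ∧
      ∀ i, Ψ ⟨θ (I i), hE (I i)⟩ = Ideal.Quotient.mk _ (C (θ (I i)) + X i) := by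
  obtain ⟨gF, hg1, hg2⟩ := Ap_gF θ I hI hs
  let F := IntermediateField.adjoin ℚ (Set.range fun i => θ (I i))
  let E := algebraicClosure F ℂ
  have hsep : Algebra.IsSeparable F E := inferInstance
  obtain ⟨Ψ, h1, h2⟩ := Ap_lift0 (F := F) (E := E) gF (algebraMap E ℂ) (Ap_pi hs) (Ap_surj hs) (Ap_kernil hs) (fun x => by rw [hg1]; rfl)
  have hE : ∀ j, θ j ∈ E := fun j => by
    rw [mem_algebraicClosure_iff]; exact ha j
  refine ⟨E.toSubfield, Ψ, hE, fun x => h1 x, fun i => ?_⟩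
  have hF : θ (I i) ∈ F := IntermediateField.subset_adjoin _ _ ⟨i, rfl⟩
  have h3 := h2 ⟨θ (I i), hF⟩
  rw [hg2] at h3
  exact h3

/-- row Ap: jets.  The functionals `lam β` kill `p_0`, see only the coefficients of order `< s` of `φ f`, and are dual to the forms
`x_0^a ∏ (x_{I i} - θ x_0)^{β i}`. -/
theorem jets (θ : Fin m → ℂ) {k : ℕ} (I : Fin k → Fin m) (hI : AlgebraicIndependent ℚ (fun i => θ (I i)))
    (ha : ∀ j, IsAlgebraic (IntermediateField.adjoin ℚ (Set.range fun i => θ (I i))) (θ j)) (s : ℕ) :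
    ∃ lam : (Fin k →₀ ℕ) → PC m →ₗ[ℂ] ℂ,
      (∀ β, β.degree < s → ∀ f ∈ JC (p0 θ), lam β f = 0) ∧
      (∀ β, β.degree < s → ∀ L : ℕ, ∀ f : PC m, f.IsHomogeneous L → (∀ d, (phi θ f).coeff d ≠ 0 → s ≤ L - d 0) → lam β f = 0) ∧
      (∀ β β', β.degree < s → β'.degree < s → ∀ a : ℕ,
        lam β (X 0 ^ a * ∏ i, (X (I i).succ - C (θ (I i)) * X 0) ^ (β' i)) = if β = β' then 1 else 0) := by
  by_cases hs : s = 0
  · subst hs
    exact ⟨fun _ => 0, fun β h => absurd h (by omega), fun β h => absurd h (by omega), fun β _ h => absurd h (by omega)⟩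
  obtain ⟨E, Ψ, hE, h1, h2⟩ := Ap_lift θ I hI ha hs
  let mk : MvPolynomial (Fin k) ℂ →ₐ[ℂ] Ap_B k s := Ideal.Quotient.mkₐ ℂ _
  have hmks : Function.Surjective mk.toLinearMap := Ideal.Quotient.mkₐ_surjective ℂ _
  obtain ⟨σ, hσ⟩ := LinearMap.exists_rightInverse_of_surjective mk.toLinearMap (LinearMap.range_eq_top.2 hmks)
  have hσ' : ∀ b, mk (σ b) = b := fun b => LinearMap.congr_fun hσ b
  have hcoef : ∀ β : Fin k →₀ ℕ, β.degree < s → ∀ p, (σ (mk p)).coeff β = p.coeff β := by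
    intro β hβ p
    have : σ (mk p) - p ∈ (idealOfVars (Fin k) ℂ) ^ s := by
      rw [← Ideal.Quotient.eq]
      exact hσ' (mk p)
    rw [mem_pow_idealOfVars_iff'] at this
    have := this β hβ
    rw [coeff_sub, sub_eq_zero] at this
    exact this
  let u : Fin m → Ap_B k s := fun j => Ψ ⟨θ j, hE j⟩
  let ev : PC m →ₐ[ℂ] Ap_B k s := aeval (Fin.cons 1 u : Fin (m + 1) → Ap_B k s)
  have hev0 : ev (X 0) = 1 := by simp [ev]
  have hevs : ∀ j : Fin m, ev (X j.succ) = u j := fun j => by simp [ev]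
  have huI : ∀ i, u (I i) = mk (C (θ (I i)) + X i) := fun i => h2 i
  refine ⟨fun β => (MvPolynomial.lcoeff ℂ β).comp (σ.comp ev.toLinearMap), ?_, ?_, ?_⟩
  · intro β hβ f hf
    suffices h : ev f = 0 by
      simp [h]
    have hle : JC (p0 θ) ≤ RingHom.ker ev.toRingHom := by
      rw [JC, Ideal.map_le_iff_le_comap]
      intro g hg
      rw [Ideal.mem_comap, RingHom.mem_ker]
      have hg0 : MvPolynomial.aeval (Fin.cons 1 θ : Fin (m + 1) → ℂ) g = 0 := by
        have h3 : (MvPolynomial.aeval (Fin.cons Polynomial.X (fun i : Fin m => Polynomial.C (θ i) * Polynomial.X) : Fin (m + 1) → Polynomial ℂ) :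
          PQ m →ₐ[ℚ] Polynomial ℂ) g = 0 := hg
        have h4 : ((Polynomial.evalRingHom (1 : ℂ)).comp (MvPolynomial.aeval (Fin.cons Polynomial.X (fun i : Fin m => Polynomial.C (θ i) * Polynomial.X) : Fin (m + 1) → Polynomial ℂ) :
          PQ m →ₐ[ℚ] Polynomial ℂ).toRingHom) = (MvPolynomial.aeval (Fin.cons 1 θ : Fin (m + 1) → ℂ) : PQ m →ₐ[ℚ] ℂ).toRingHom := by
          refine MvPolynomial.ringHom_ext (fun r => ?_) (fun i => ?_)
          · simp
          · refine Fin.cases ?_ (fun j => ?_) i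
            · simp
            · simp
        have h5 := RingHom.congr_fun h4 g
        rw [RingHom.comp_apply] at h5
        have h6 : (MvPolynomial.aeval (Fin.cons 1 θ : Fin (m + 1) → ℂ) : PQ m →ₐ[ℚ] ℂ) g = Polynomial.evalRingHom (1 : ℂ) 0 := by
          rw [← h3]; exact h5.symm
        simpa using h6
      let e : PQ m →ₐ[ℚ] E := MvPolynomial.aeval (Fin.cons 1 (fun j => ⟨θ j, hE j⟩) : Fin (m + 1) → E)
      have h7 : (algebraMap E ℂ).comp e.toRingHom = (MvPolynomial.aeval (Fin.cons 1 θ : Fin (m + 1) → ℂ) : PQ m →ₐ[ℚ] ℂ).toRingHom := by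
        refine MvPolynomial.ringHom_ext (fun r => ?_) (fun i => ?_)
        · simp [e]
        · refine Fin.cases ?_ (fun j => ?_) i
          · simp [e]
          · simp [e]; rfl
      have h8 : e g = 0 := by
        have h9 := RingHom.congr_fun h7 g
        have h10 : algebraMap E ℂ (e g) = 0 := by
          rw [← hg0]; exact h9
        exact (map_eq_zero (algebraMap E ℂ)).1 h10
      have h11 : ev.toRingHom.comp (MvPolynomial.map (algebraMap ℚ ℂ)) = Ψ.comp e.toRingHom := by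
        refine MvPolynomial.ringHom_ext (fun r => ?_) (fun i => ?_)
        · have h14 : (algebraMap ℂ (Ap_B k s)).comp (algebraMap ℚ ℂ) = Ψ.comp (algebraMap ℚ E) := Subsingleton.elim _ _
          have h15 := RingHom.congr_fun h14 r
          simp only [RingHom.comp_apply] at h15
          simp only [RingHom.comp_apply, map_C]
          change ev (C (algebraMap ℚ ℂ r)) = Ψ (e (C r))
          rw [← algebraMap_eq, AlgHom.commutes, ← algebraMap_eq, AlgHom.commutes]
          exact h15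
        · refine Fin.cases ?_ (fun j => ?_) i
          · simp [e, ev]
          · simp [e, ev, u]
      have h12 := RingHom.congr_fun h11 g
      have h13 : ev.toRingHom (MvPolynomial.map (algebraMap ℚ ℂ) g) = Ψ (e g) := h12
      rw [h13, h8, map_zero]
    exact hle hf
  · intro β hβ L f hf h
    suffices h : ev f = 0 by
      simp [h]
    have hev : ∀ g : PC m, ev (phi (-θ) g) = aeval (Fin.cons 1 (fun j => u j - algebraMap ℂ _ (θ j)) : Fin (m + 1) → Ap_B k s) g := by
      intro g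
      have : ev.comp (phi (-θ)) = aeval (Fin.cons 1 (fun j => u j - algebraMap ℂ _ (θ j)) : Fin (m + 1) → Ap_B k s) := by
        refine MvPolynomial.algHom_ext (fun i => ?_)
        refine Fin.cases ?_ (fun j => ?_) i
        · simp [phi, ev]
        · simp only [phi, ev, AlgHom.comp_apply, aeval_X, Fin.cons_succ, map_add, map_mul, Fin.cons_zero, Pi.neg_apply, map_neg, algHom_C, mul_one]
          ring
      exact AlgHom.congr_fun this g
    rw [← phi_neg' θ f, hev, aeval_def, eval₂_eq]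
    refine Finset.sum_eq_zero (fun d hd => ?_)
    have hd' : (phi θ f).coeff d ≠ 0 := by simpa using hd
    have h3 := h d hd'
    have h4 : d.degree = L := by
      have := (phi_hom θ hf) hd'
      rw [Finsupp.degree_eq_weight_one]
      exact this
    have h5 : ∏ i ∈ d.support, (Fin.cons 1 (fun j => u j - algebraMap ℂ _ (θ j)) : Fin (m + 1) → Ap_B k s) i ^ d i = 0 := by
      have h6 : ∏ i ∈ d.support, (Fin.cons 1 (fun j => u j - algebraMap ℂ _ (θ j)) : Fin (m + 1) → Ap_B k s) i ^ d i =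
          ∏ j : Fin m, (u j - algebraMap ℂ _ (θ j)) ^ d j.succ := by
        rw [Finset.prod_subset (Finset.subset_univ _)]
        · rw [Fin.prod_univ_succ]; simp
        · intro i _ hi
          simp only [Finsupp.mem_support_iff, not_not] at hi
          rw [hi, pow_zero]
      rw [h6]
      have h7 : ∏ j : Fin m, (u j - algebraMap ℂ _ (θ j)) ^ d j.succ ∈
          ∏ j : Fin m, ((idealOfVars (Fin k) ℂ).map (Ideal.Quotient.mk ((idealOfVars (Fin k) ℂ) ^ s))) ^ (d j.succ) := by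
        refine Ideal.prod_mem_prod (fun j _ => Ideal.pow_mem_pow ?_ _)
        refine Ap_ker hs _ ?_
        rw [map_sub, h1]
        have : Ap_pi hs (algebraMap ℂ (Ap_B k s) (θ j)) = θ j := by
          change Ap_pi hs (Ideal.Quotient.mk _ (C (θ j))) = _
          simp [Ap_pi]
        rw [this]
        simp
      have h8 : s ≤ ∑ j : Fin m, d j.succ := by
        have : d.degree = d 0 + ∑ j : Fin m, d j.succ := by
          rw [Finsupp.degree_eq_sum, Fin.sum_univ_succ]
        omega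
      rw [Finset.prod_pow_eq_pow_sum] at h7
      have h9 := Ideal.pow_le_pow_right h8 h7
      rw [Ap_nil] at h9
      simpa using h9
    rw [h5, mul_zero]
  · intro β β' hβ hβ' a
    have h3 : ev (X 0 ^ a * ∏ i, (X (I i).succ - C (θ (I i)) * X 0) ^ (β' i)) = mk (monomial β' 1) := by
      rw [map_mul, map_pow, hev0, one_pow, one_mul, map_prod]
      rw [show (monomial β' (1 : ℂ)) = ∏ i, (X i : MvPolynomial (Fin k) ℂ) ^ β' i by
        rw [monomial_eq, Finsupp.prod_fintype]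
        · simp
        · intro i; exact pow_zero _]
      rw [map_prod]
      refine Finset.prod_congr rfl (fun i _ => ?_)
      rw [map_pow, map_pow, map_sub, map_mul, hev0, hevs, huI, map_add, mul_one]
      congr 1
      have : ev (C (θ (I i))) = mk (C (θ (I i))) := by
        rw [← algebraMap_eq, AlgHom.commutes, ← algebraMap_eq, AlgHom.commutes]
      rw [this]
      ring
    change (σ (ev _)).coeff β = _
    rw [h3, hcoef β hβ, coeff_monomial]
    simp only [eq_comm]



/-- the coefficient vector of a functional -/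
def Aq_vec {ι : Type} [Fintype ι] [DecidableEq ι] :
    Module.Dual ℂ (ι → ℂ) →ₗ[ℂ] EuclideanSpace ℂ ι where
  toFun f := WithLp.toLp 2 (fun i => f (Pi.single i 1))
  map_add' _ _ := rfl
  map_smul' _ _ := rfl

theorem Aq_vec_apply {ι : Type} [Fintype ι] [DecidableEq ι] (f : Module.Dual ℂ (ι → ℂ))
    (i : ι) : (Aq_vec f) i = f (Pi.single i 1) := rfl

/-- the pairing -/
def Aq_pair {ι : Type} [Fintype ι] (v : EuclideanSpace ℂ ι) (x : ι → ℂ) : ℂ :=
  ∑ i, v i * x i

theorem Aq_eval {ι : Type} [Fintype ι] [DecidableEq ι] (f : Module.Dual ℂ (ι → ℂ))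
    (x : ι → ℂ) : f x = Aq_pair (Aq_vec f) x := by
  conv_lhs => rw [← Finset.univ_sum_single x, map_sum]
  unfold Aq_pair
  refine Finset.sum_congr rfl fun i _ => ?_
  rw [Aq_vec_apply]
  have h1 : (Pi.single i (x i) : ι → ℂ) = x i • Pi.single i (1 : ℂ) := by
    rw [← Pi.single_smul, smul_eq_mul, mul_one]
  rw [h1, map_smul, smul_eq_mul, mul_comm]

theorem Aq_inj {ι : Type} [Fintype ι] [DecidableEq ι] :
    Function.Injective (Aq_vec (ι := ι)) := by
  intro f g h
  refine LinearMap.ext fun x => ?_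
  rw [Aq_eval, Aq_eval, h]

theorem Aq_pair_sum {ι κ : Type} [Fintype ι] [Fintype κ] (c : κ → ℂ)
    (b : κ → EuclideanSpace ℂ ι) (x : ι → ℂ) :
    Aq_pair (∑ l, c l • b l) x = ∑ l, c l * Aq_pair (b l) x := by
  unfold Aq_pair
  simp only [Finset.mul_sum]
  rw [Finset.sum_comm]
  refine Finset.sum_congr rfl fun i _ => ?_
  rw [WithLp.ofLp_sum, Finset.sum_apply, Finset.sum_mul]
  refine Finset.sum_congr rfl fun l _ => ?_
  rw [WithLp.ofLp_smul, Pi.smul_apply, smul_eq_mul, mul_assoc]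

theorem Aq_norm_le {ι : Type} [Fintype ι] (v : EuclideanSpace ℂ ι) {Q : ℝ} (hQ : 0 ≤ Q)
    (h : ∀ i, ‖v i‖ ≤ Q) : ‖v‖ ≤ Q * Fintype.card ι := by
  rw [EuclideanSpace.norm_eq]
  have h1 : (0 : ℝ) ≤ Q * Fintype.card ι := by positivity
  rw [Real.sqrt_le_left h1]
  have h2 : ∑ i, ‖v i‖ ^ 2 ≤ ∑ _i : ι, Q ^ 2 := by
    refine Finset.sum_le_sum fun i _ => ?_
    exact pow_le_pow_left₀ (norm_nonneg _) (h i) 2
  refine h2.trans ?_
  rw [Finset.sum_const, Finset.card_univ, nsmul_eq_mul, mul_pow, mul_comm]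
  refine mul_le_mul_of_nonneg_left ?_ (by positivity)
  rcases Nat.eq_zero_or_pos (Fintype.card ι) with h0 | h0
  · rw [h0]; norm_num
  · have : (1 : ℝ) ≤ Fintype.card ι := by exact_mod_cast h0
    nlinarith

theorem Aq_pair_le {ι : Type} [Fintype ι] (v : EuclideanSpace ℂ ι) (hv : ‖v‖ ≤ 1)
    (W : ι → ℝ) (hW : ∀ i, 1 ≤ W i) (x : ι → ℂ) : ‖Aq_pair v x‖ ≤ ∑ i, W i * ‖x i‖ := by
  unfold Aq_pair
  refine (norm_sum_le _ _).trans (Finset.sum_le_sum fun i _ => ?_)
  rw [norm_mul]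
  exact mul_le_mul_of_nonneg_right (((PiLp.norm_apply_le v i).trans hv).trans (hW i))
    (norm_nonneg _)

theorem Aq_pair_le_low {ι : Type} [Fintype ι] (v : EuclideanSpace ℂ ι) (hv : ‖v‖ ≤ 1)
    (W : ι → ℝ) (hW : ∀ i, 1 ≤ W i) (low : Set ι) {a : ℝ} (hlow : ∀ i ∈ low, Real.exp a ≤ W i)
    (h0 : ∀ i, i ∉ low → v i = 0) (x : ι → ℂ) :
    ‖Aq_pair v x‖ ≤ Real.exp (-a) * ∑ i, W i * ‖x i‖ := by
  unfold Aq_pair
  rw [Finset.mul_sum]
  refine (norm_sum_le _ _).trans (Finset.sum_le_sum fun i _ => ?_)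
  rw [norm_mul, ← mul_assoc]
  refine mul_le_mul_of_nonneg_right ?_ (norm_nonneg _)
  by_cases hi : i ∈ low
  · refine ((PiLp.norm_apply_le v i).trans hv).trans ?_
    rw [Real.exp_neg, inv_mul_eq_div, le_div_iff₀ (Real.exp_pos a), one_mul]
    exact hlow i hi
  · rw [h0 i hi, norm_zero]
    have := hW i
    positivity

theorem Aq_prod {r n0 : ℕ} (h : n0 ≤ r) (e : ℝ) :
    ∏ l : Fin r, (if (l : ℕ) < n0 then e else 1) = e ^ n0 := by
  rw [Finset.prod_ite, Finset.prod_const_one, mul_one, Finset.prod_const]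
  congr 1
  have h1 : (Finset.univ.filter fun l : Fin r => (l : ℕ) < n0) =
      Finset.univ.map ⟨Fin.castLE h, Fin.castLE_injective h⟩ := by
    ext l
    simp only [Finset.mem_filter, Finset.mem_univ, true_and, Finset.mem_map,
      Function.Embedding.coeFn_mk]
    constructor
    · intro hl
      exact ⟨⟨l, hl⟩, rfl⟩
    · rintro ⟨j, rfl⟩
      exact j.2
  rw [h1, Finset.card_map, Finset.card_univ, Fintype.card_fin]

theorem Aq_det {r n0 : ℕ} (h : n0 ≤ r) (N : Matrix (Fin r) (Fin r) ℂ) (w : Fin r → ℝ)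
    (e : ℝ) (hN : ∀ l j, ‖N l j‖ ≤ (if (l : ℕ) < n0 then e else 1) * w j) :
    ‖N.det‖ ≤ r.factorial * (e ^ n0 * ∏ j, w j) := by
  rw [Matrix.det_apply]
  refine (norm_sum_le _ _).trans ?_
  have h1 : ∀ σ ∈ (Finset.univ : Finset (Equiv.Perm (Fin r))),
      ‖Equiv.Perm.sign σ • ∏ i, N (σ i) i‖ ≤ e ^ n0 * ∏ j, w j := by
    intro σ _
    have h2 : ‖Equiv.Perm.sign σ • ∏ i, N (σ i) i‖ = ∏ i, ‖N (σ i) i‖ := by
      rcases Int.units_eq_one_or (Equiv.Perm.sign σ) with h3 | h3
      · rw [h3, one_smul, norm_prod]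
      · rw [h3, Units.neg_smul, one_smul, norm_neg, norm_prod]
    rw [h2]
    refine (Finset.prod_le_prod (fun i _ => norm_nonneg _) fun i _ => hN (σ i) i).trans ?_
    rw [Finset.prod_mul_distrib,
      Equiv.prod_comp σ (fun l : Fin r => if (l : ℕ) < n0 then e else 1), Aq_prod h]
  refine (Finset.sum_le_card_nsmul _ _ _ h1).trans ?_
  rw [Finset.card_univ, Fintype.card_perm, Fintype.card_fin, nsmul_eq_mul]

end Pool.Agent.LT
end

end
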