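import Mathlib
import Pool.Agent.Lib.MP_f58a57_nt.LK.K012
import Pool.Agent.Lib.MP_f58a57_nt.LK.K013

section

open Complex MvPolynomial Matrix
noncomputable section
namespace Pool.Agent.LT
variable {m c : ℕ}

/-- row Aq: linear algebra.  `W` weights, `low` the coordinates with weight at least `e^a`; `ψ` functionals with coefficients at most `Q`,
a basis of the functionals killing `S`; `lam` independent functionals killing `S` and the coordinates outside `low`. -/
theorem det_bound {ι : Type} [Fintype ι] [DecidableEq ι] (S : Submodule ℂ (ι → ℂ)) (W : ι → ℝ) (hW : ∀ i, 1 ≤ W i) (low : Set ι) {a : ℝ} (ha : 0 ≤ a)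
    (hlow : ∀ i ∈ low, Real.exp a ≤ W i) {r n0 : ℕ} (hr : r = Module.finrank ℂ ((ι → ℂ) ⧸ S)) (ψ : Fin r → ((ι → ℂ) →ₗ[ℂ] ℂ))
    (hψ : ∀ i, ∀ x ∈ S, ψ i x = 0) {Q : ℝ} (hQ : 1 ≤ Q) (hψQ : ∀ i j, ‖ψ i (Pi.single j 1)‖ ≤ Q)
    (lam : Fin n0 → ((ι → ℂ) →ₗ[ℂ] ℂ)) (hlS : ∀ i, ∀ x ∈ S, lam i x = 0) (hlow' : ∀ i, ∀ j, j ∉ low → lam i (Pi.single j 1) = 0)
    (hli : LinearIndependent ℂ lam) (g : Fin r → (ι → ℂ)) :
    ‖(Matrix.of fun i j => ψ i (g j)).det‖ ≤ ((r.factorial : ℝ) ^ 2 * (Q * Fintype.card ι) ^ r) * Real.exp (-(a * n0)) * ∏ j, ∑ i, W i * ‖g j i‖ := by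
  classical
  -- the space of the functionals killing `S`
  let V : Submodule ℂ (EuclideanSpace ℂ ι) := (Submodule.dualAnnihilator S).map Aq_vec
  have hVr : Module.finrank ℂ V = r := by
    have h1 := (Submodule.equivMapOfInjective Aq_vec Aq_inj (Submodule.dualAnnihilator S)).finrank_eq
    have h2 := (Submodule.dualQuotEquivDualAnnihilator S).finrank_eq
    rw [Subspace.dual_finrank_eq] at h2
    exact (h1.symm.trans h2.symm).trans hr.symm
  have hmem : ∀ f : Module.Dual ℂ (ι → ℂ), (∀ x ∈ S, f x = 0) → Aq_vec f ∈ V := by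
    intro f hf
    exact ⟨f, (Submodule.mem_dualAnnihilator f).2 hf, rfl⟩
  -- the subspace of the functionals `lam`
  have hli' : LinearIndependent ℂ (fun i => Aq_vec (lam i)) :=
    hli.map' Aq_vec (LinearMap.ker_eq_bot.2 Aq_inj)
  let U : Submodule ℂ (EuclideanSpace ℂ ι) := Submodule.span ℂ (Set.range fun i => Aq_vec (lam i))
  have hUn : Module.finrank ℂ U = n0 := by
    rw [finrank_span_eq_card hli', Fintype.card_fin]
  have hUV : U ≤ V := by
    refine Submodule.span_le.2 ?_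
    rintro _ ⟨i, rfl⟩
    exact hmem _ (hlS i)
  have hn : n0 ≤ r := by
    rw [← hUn, ← hVr]
    exact Submodule.finrank_mono hUV
  have hUlow : ∀ v ∈ U, ∀ i, i ∉ low → v i = 0 := by
    intro v hv i hi
    induction hv using Submodule.span_induction with
    | mem x hx =>
      obtain ⟨j, rfl⟩ := hx
      exact hlow' j i hi
    | zero => rfl
    | add x y _ _ hx hy =>
      show x i + y i = 0
      rw [hx, hy, add_zero]
    | smul c x _ hx =>
      show c * x i = 0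
      rw [hx, mul_zero]
  let u := (stdOrthonormalBasis ℂ U).reindex (finCongr hUn)
  let v : Fin r → V := fun i => if h : (i : ℕ) < n0 then ⟨u ⟨i, h⟩, hUV (u ⟨i, h⟩).2⟩ else 0
  let s : Set (Fin r) := {i | (i : ℕ) < n0}
  have hvs : Orthonormal ℂ (s.domRestrict v) := by
    have h1 : Orthonormal ℂ (fun i : s => ((s.domRestrict v i : V) : EuclideanSpace ℂ ι)) := by
      have h2 : (fun i : s => ((s.domRestrict v i : V) : EuclideanSpace ℂ ι)) =
          fun i : s => ((u ⟨(i : Fin r), i.2⟩ : U) : EuclideanSpace ℂ ι) := by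
        funext i
        have hi : ((i : Fin r) : ℕ) < n0 := i.2
        show ((v i : V) : EuclideanSpace ℂ ι) = _
        simp only [v]
        rw [dif_pos hi]
      rw [h2]
      have h3 : Orthonormal ℂ (fun i : s => u ⟨(i : Fin r), i.2⟩) := by
        refine u.orthonormal.comp (fun i : s => (⟨(i : Fin r), i.2⟩ : Fin n0)) ?_
        intro i j hij
        have := congrArg Fin.val hij
        exact Subtype.ext (Fin.ext this)
      exact (U.subtypeₗᵢ.orthonormal_comp_iff).2 h3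
    have h4 : Orthonormal ℂ (V.subtypeₗᵢ ∘ s.domRestrict v) := h1
    exact V.subtypeₗᵢ.orthonormal_comp_iff.1 h4
  obtain ⟨b, hb⟩ := hvs.exists_orthonormalBasis_extension_of_card_eq
    (by rw [hVr, Fintype.card_fin])
  -- factorization of the matrix
  let A : Matrix (Fin r) (Fin r) ℂ := Matrix.of fun i l =>
    b.repr ⟨Aq_vec (ψ i), hmem _ (hψ i)⟩ l
  let N : Matrix (Fin r) (Fin r) ℂ := Matrix.of fun l j => Aq_pair (b l : EuclideanSpace ℂ ι) (g j)
  have hfac : (Matrix.of fun i j => ψ i (g j)) = A * N := by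
    ext i j
    rw [Matrix.mul_apply, Matrix.of_apply]
    have h1 := b.sum_repr ⟨Aq_vec (ψ i), hmem _ (hψ i)⟩
    have h2 := congrArg (fun t : V => (t : EuclideanSpace ℂ ι)) h1
    simp only [Submodule.coe_sum, Submodule.coe_smul] at h2
    rw [Aq_eval, ← h2, Aq_pair_sum]
    rfl
  have hb1 : ∀ l, ‖(b l : EuclideanSpace ℂ ι)‖ ≤ 1 := fun l => (b.norm_eq_one l).le
  have hA : ∀ i l, ‖A i l‖ ≤ Q * Fintype.card ι := by
    intro i l
    have h1 : ‖A i l‖ ≤ ‖(⟨Aq_vec (ψ i), hmem _ (hψ i)⟩ : V)‖ := by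
      rw [← b.repr.norm_map]
      exact PiLp.norm_apply_le _ l
    refine h1.trans ?_
    exact Aq_norm_le (Aq_vec (ψ i)) (by linarith) (hψQ i)
  have hdA : ‖A.det‖ ≤ r.factorial * (Q * Fintype.card ι) ^ r := by
    have h1 := Matrix.det_le (A := A) (abv := (NormedField.toAbsoluteValue ℂ)) (x := Q * Fintype.card ι) hA
    rw [Fintype.card_fin, nsmul_eq_mul] at h1
    exact h1
  have hw0 : ∀ j, 0 ≤ ∑ i, W i * ‖g j i‖ := by
    intro j
    refine Finset.sum_nonneg fun i _ => ?_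
    have := hW i
    positivity
  have hdN : ‖N.det‖ ≤ r.factorial * (Real.exp (-a) ^ n0 * ∏ j, ∑ i, W i * ‖g j i‖) := by
    refine Aq_det hn N _ _ ?_
    intro l j
    by_cases hl : (l : ℕ) < n0
    · rw [if_pos hl]
      refine Aq_pair_le_low _ (hb1 l) W hW low hlow ?_ _
      have h2 : (b l : EuclideanSpace ℂ ι) ∈ U := by
        rw [hb l hl]
        simp only [v]
        rw [dif_pos hl]
        exact (u ⟨l, hl⟩).2
      exact hUlow _ h2
    · rw [if_neg hl, one_mul]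
      exact Aq_pair_le _ (hb1 l) W hW _
  rw [hfac, Matrix.det_mul, norm_mul]
  refine (mul_le_mul hdA hdN (norm_nonneg _) (by positivity)).trans ?_
  rw [← Real.exp_nat_mul]
  have h3 : (n0 : ℝ) * -a = -(a * n0) := by ring
  rw [h3]
  apply le_of_eq
  ring



def Ar1_DL (m L : ℕ) : Finset (Fin (m + 1) →₀ ℕ) := Finset.finsuppAntidiag Finset.univ L

theorem Ar1_mem {L : ℕ} {d : Fin (m + 1) →₀ ℕ} : d ∈ Ar1_DL m L ↔ d.degree = L := by
  unfold Ar1_DL
  rw [Finset.mem_finsuppAntidiag, Finsupp.degree_eq_sum]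
  exact ⟨fun h => h.1, fun h => ⟨h, Finset.subset_univ _⟩⟩

def Ar1_Phi {R : Type} [CommRing R] (L : ℕ) (b : (Fin (m + 1) →₀ ℕ) → R) :
    MvPolynomial (Fin (m + 1)) R →ₗ[R] R := ∑ d ∈ Ar1_DL m L, b d • MvPolynomial.lcoeff R d

theorem Ar1_Phi_apply {R : Type} [CommRing R] (L : ℕ) (b : (Fin (m + 1) →₀ ℕ) → R)
    (f : MvPolynomial (Fin (m + 1)) R) : Ar1_Phi L b f = ∑ d ∈ Ar1_DL m L, b d * f.coeff d := by
  unfold Ar1_Phi
  rw [LinearMap.sum_apply]
  rfl

theorem Ar1_Phi_hom {R : Type} [CommRing R] (L : ℕ) (b : (Fin (m + 1) →₀ ℕ) → R)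
    {f : MvPolynomial (Fin (m + 1)) R} (hf : f.IsHomogeneous L) :
    Ar1_Phi L b f = ∑ d ∈ f.support, b d * f.coeff d := by
  rw [Ar1_Phi_apply]
  symm
  apply Finset.sum_subset
  · intro d hd
    rw [Ar1_mem]
    by_contra hne
    exact (MvPolynomial.mem_support_iff.1 hd) (hf.coeff_eq_zero hne)
  · intro d _ hd
    rw [MvPolynomial.notMem_support_iff.1 hd, mul_zero]

theorem Ar1_Phi_comp {R : Type} [CommRing R] (L : ℕ) (b : (Fin (m + 1) →₀ ℕ) → R)
    (f : MvPolynomial (Fin (m + 1)) R) :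
    Ar1_Phi L b (MvPolynomial.homogeneousComponent L f) = Ar1_Phi L b f := by
  rw [Ar1_Phi_apply, Ar1_Phi_apply]
  apply Finset.sum_congr rfl
  intro d hd
  rw [MvPolynomial.coeff_homogeneousComponent, if_pos (Ar1_mem.1 hd)]

/-- choice of coordinates -/
theorem Ar1_rows {q r : ℕ} (S : Submodule ℚ (Fin q → ℚ)) (hr : Module.finrank ℚ S = r) :
    ∃ e : Fin r → Fin q, ∀ v ∈ S, (∀ i, v (e i) = 0) → v = 0 := by
  subst hr
  obtain ⟨κ, a, ha, hspan, hind⟩ := exists_linearIndependent' ℚ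
    (fun i : Fin q => ((LinearMap.proj i : (Fin q → ℚ) →ₗ[ℚ] ℚ).comp S.subtype : Module.Dual ℚ S))
  have : Finite κ := Finite.of_injective a ha
  have : Fintype κ := Fintype.ofFinite κ
  have hinj : ∀ v ∈ S, (∀ i, v (a i) = 0) → v = 0 := by
    intro v hv h0
    funext i
    have h1 : ((LinearMap.proj i : (Fin q → ℚ) →ₗ[ℚ] ℚ).comp S.subtype : Module.Dual ℚ S) ∈
        Submodule.span ℚ (Set.range ((fun i : Fin q => ((LinearMap.proj i : (Fin q → ℚ) →ₗ[ℚ] ℚ).comp S.subtype :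
          Module.Dual ℚ S)) ∘ a)) := by
      rw [hspan]
      exact Submodule.subset_span ⟨i, rfl⟩
    have h2 : ∀ φ ∈ Submodule.span ℚ (Set.range ((fun i : Fin q => ((LinearMap.proj i : (Fin q → ℚ) →ₗ[ℚ] ℚ).comp
        S.subtype : Module.Dual ℚ S)) ∘ a)), φ ⟨v, hv⟩ = 0 := by
      intro φ hφ
      induction hφ using Submodule.span_induction with
      | mem x hx =>
        obtain ⟨j, rfl⟩ := hx
        exact h0 j
      | zero => rfl
      | add x y _ _ hx hy => rw [LinearMap.add_apply, hx, hy, add_zero]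
      | smul c x _ hx => rw [LinearMap.smul_apply, hx, smul_zero]
    exact h2 _ h1
  have hcard1 : Fintype.card κ ≤ Module.finrank ℚ S := by
    have := hind.fintype_card_le_finrank
    rwa [Subspace.dual_finrank_eq] at this
  have hcard2 : Module.finrank ℚ S ≤ Fintype.card κ := by
    have hl : Function.Injective (((LinearMap.pi fun j : κ => (LinearMap.proj (a j) : (Fin q → ℚ) →ₗ[ℚ] ℚ))).comp
        S.subtype : S →ₗ[ℚ] (κ → ℚ)) := by
      rw [← LinearMap.ker_eq_bot, LinearMap.ker_eq_bot']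
      rintro ⟨v, hv⟩ h
      have h1 : ∀ j, v (a j) = 0 := fun j => congrFun h j
      exact Subtype.ext (hinj v hv h1)
    have := LinearMap.finrank_le_finrank_of_injective hl
    rwa [Module.finrank_fintype_fun_eq_card] at this
  have hcard : Fintype.card κ = Module.finrank ℚ S := le_antisymm hcard1 hcard2
  let ee : Fin (Module.finrank ℚ S) ≃ κ := (Fintype.equivFinOfCardEq hcard).symm
  refine ⟨fun i => a (ee i), fun v hv h => hinj v hv (fun j => ?_)⟩
  have := h (ee.symm j)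
  simpa using this

/-- the functionals vanish on the complexified ideal -/
theorem Ar1_JC {J : Ideal (PQ m)} (hJ : HI J) (L : ℕ) (a : (Fin (m + 1) →₀ ℕ) → ℤ)
    (h : ∀ g ∈ J, g.IsHomogeneous L → ∑ d ∈ g.support, (a d : ℚ) * g.coeff d = 0) :
    ∀ f ∈ JC J, Ar1_Phi L (fun d => (a d : ℂ)) f = 0 := by
  have h1 : ∀ g ∈ J, Ar1_Phi L (fun d => (a d : ℚ)) g = 0 := by
    intro g hg
    rw [← Ar1_Phi_comp, Ar1_Phi_hom L _ (MvPolynomial.homogeneousComponent_isHomogeneous L g)]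
    exact h _ (hJ g hg L) (MvPolynomial.homogeneousComponent_isHomogeneous L g)
  have h2 : ∀ g ∈ J, Ar1_Phi L (fun d => (a d : ℂ)) (MvPolynomial.map (algebraMap ℚ ℂ) g) = 0 := by
    intro g hg
    have h3 : Ar1_Phi L (fun d => (a d : ℂ)) (MvPolynomial.map (algebraMap ℚ ℂ) g) =
        algebraMap ℚ ℂ (Ar1_Phi L (fun d => (a d : ℚ)) g) := by
      rw [Ar1_Phi_apply, Ar1_Phi_apply, map_sum]
      apply Finset.sum_congr rfl
      intro d _
      rw [MvPolynomial.coeff_map, map_mul]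
      simp
    rw [h3, h1 g hg, map_zero]
  intro f hf
  have key : ∀ f ∈ JC J, ∀ c : PC m, Ar1_Phi L (fun d => (a d : ℂ)) (c * f) = 0 := by
    intro f hf
    unfold JC Ideal.map at hf
    induction hf using Submodule.span_induction with
    | mem x hx =>
      obtain ⟨g, hg, rfl⟩ := hx
      intro c
      induction c using MvPolynomial.induction_on' with
      | monomial u z =>
        have h3 : (MvPolynomial.monomial u z : PC m) * MvPolynomial.map (algebraMap ℚ ℂ) g =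
            z • MvPolynomial.map (algebraMap ℚ ℂ) (MvPolynomial.monomial u 1 * g) := by
          rw [map_mul, MvPolynomial.map_monomial, map_one, ← smul_mul_assoc, MvPolynomial.smul_monomial,
            smul_eq_mul, mul_one]
        have h4 : Ar1_Phi L (fun d => (a d : ℂ)) ((MvPolynomial.monomial u z : PC m) *
            MvPolynomial.map (algebraMap ℚ ℂ) g) = 0 := by
          rw [h3, map_smul, h2 _ (J.mul_mem_left _ hg), smul_zero]
        exact h4
      | add p q hp hq => rw [add_mul, map_add, hp, hq, add_zero]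
    | zero => intro c; rw [mul_zero, map_zero]
    | add x y _ _ hx hy => intro c; rw [mul_add, map_add, hx, hy, add_zero]
    | smul b x _ hx => intro c; rw [smul_eq_mul, ← mul_assoc]; exact hx _
  have := key f hf 1
  rwa [one_mul] at this

/-- row Ar1: a basis of integer functionals (from `intFun`) -/
theorem funBasis (θ : Fin m → ℂ) {k : ℕ} (I : Fin k → Fin m) (hI : AlgebraicIndependent ℚ (fun i => θ (I i)))
    (ha : ∀ j, IsAlgebraic (IntermediateField.adjoin ℚ (Set.range fun i => θ (I i))) (θ j)) :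
    ∃ C : ℝ, 0 < C ∧ ∀ L : ℕ, (rJ (p0 θ) L : ℝ) ≤ C * ((L : ℝ) + 1) ^ k ∧ ∃ a : Fin (rJ (p0 θ) L) → (Fin (m + 1) →₀ ℕ) → ℤ,
      (∀ i d, |(a i d : ℝ)| ≤ Real.exp (C * (L + 1))) ∧
      (∀ f ∈ JC (p0 θ), f.IsHomogeneous L → ∀ i, ∑ d ∈ f.support, (a i d : ℂ) * f.coeff d = 0) ∧
      ∀ f : Fin (rJ (p0 θ) L) → PZ m, IsBas (p0 θ) L f → (Matrix.of fun i j => ∑ d ∈ (f j).support, a i d * (f j).coeff d).det ≠ 0 := by
  obtain ⟨C, hC, hmain⟩ := intFun θ I hI ha
  refine ⟨C, hC, fun L => ?_⟩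
  obtain ⟨q, a, hq, hab, hker⟩ := hmain L
  -- the linear maps
  let V : Submodule ℚ (PQ m) := MvPolynomial.homogeneousSubmodule (Fin (m + 1)) ℚ L
  let π : V →ₗ[ℚ] (PQ m ⧸ p0 θ) := (Ideal.Quotient.mkₐ ℚ (p0 θ)).toLinearMap.comp V.subtype
  let Φ : V →ₗ[ℚ] (Fin q → ℚ) := (LinearMap.pi fun i => Ar1_Phi L (fun d => (a i d : ℚ))).comp V.subtype
  have hΦ : ∀ (f : PQ m) (hf : f.IsHomogeneous L) (i : Fin q), Φ ⟨f, hf⟩ i = ∑ d ∈ f.support, (a i d : ℚ) * f.coeff d := by
    intro f hf i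
    exact Ar1_Phi_hom L _ hf
  have hkerΦ : LinearMap.ker Φ = LinearMap.ker π := by
    ext ⟨f, hf⟩
    rw [LinearMap.mem_ker, LinearMap.mem_ker]
    have h1 : π ⟨f, hf⟩ = 0 ↔ f ∈ p0 θ := Ideal.Quotient.eq_zero_iff_mem
    rw [h1, hker f hf]
    constructor
    · intro h i
      rw [← hΦ f hf i, h]
      rfl
    · intro h
      funext i
      rw [hΦ f hf i]
      exact h i
  have hrange : LinearMap.range π = qd (p0 θ) L := by
    unfold qd
    rw [LinearMap.range_comp, Submodule.range_subtype]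
  have hfr : Module.finrank ℚ (LinearMap.range Φ) = rJ (p0 θ) L := by
    unfold rJ
    rw [← hrange]
    have e1 : (V ⧸ LinearMap.ker Φ) ≃ₗ[ℚ] LinearMap.range Φ := Φ.quotKerEquivRange
    have e2 : (V ⧸ LinearMap.ker π) ≃ₗ[ℚ] LinearMap.range π := π.quotKerEquivRange
    rw [← e1.finrank_eq, ← e2.finrank_eq, hkerΦ]
  obtain ⟨e0, he0⟩ := Ar1_rows (LinearMap.range Φ) hfr
  refine ⟨?_, fun i => a (e0 i), fun i d => hab (e0 i) d, fun f hf hh i => ?_, fun f hf hdet => ?_⟩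
  · refine le_trans ?_ hq
    have h1 : Module.finrank ℚ (LinearMap.range Φ) ≤ Module.finrank ℚ (Fin q → ℚ) :=
      Submodule.finrank_le _
    rw [Module.finrank_fin_fun, hfr] at h1
    exact_mod_cast h1
  · have h1 := Ar1_JC (p0_hi θ) L (a (e0 i)) (fun g hg hgh => ((hker g hgh).1 hg) (e0 i)) f hf
    rw [Ar1_Phi_hom L _ hh] at h1
    exact h1
  · -- the determinant
    have hdet' : ((Matrix.of fun i j => ∑ d ∈ (f j).support, a (e0 i) d * (f j).coeff d).map
        (Int.cast : ℤ → ℚ)).det = 0 := by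
      have h1 := (Int.castRingHom ℚ).map_det (Matrix.of fun i j => ∑ d ∈ (f j).support, a (e0 i) d * (f j).coeff d)
      rw [hdet, map_zero] at h1
      exact h1.symm
    obtain ⟨v, hv0, hv⟩ := Matrix.exists_mulVec_eq_zero_iff.2 hdet'
    -- the corresponding form
    have hzh : ∀ j, (zq (f j)).IsHomogeneous L := fun j => (hf.hom j).map _
    have hent : ∀ i j, (((∑ d ∈ (f j).support, a (e0 i) d * (f j).coeff d : ℤ)) : ℚ) =
        Φ ⟨zq (f j), hzh j⟩ (e0 i) := by
      intro i j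
      have h1 : Φ ⟨zq (f j), hzh j⟩ (e0 i) = Ar1_Phi L (fun d => (a (e0 i) d : ℚ)) (zq (f j)) := rfl
      rw [h1, ← Ar1_Phi_hom L (fun d => a (e0 i) d) (hf.hom j), Ar1_Phi_apply, Ar1_Phi_apply]
      push_cast
      apply Finset.sum_congr rfl
      intro d _
      unfold zq
      rw [MvPolynomial.coeff_map]
      rfl
    have hsum : (∑ j, v j • Φ ⟨zq (f j), hzh j⟩) = 0 := by
      have hmem : (∑ j, v j • Φ ⟨zq (f j), hzh j⟩) ∈ LinearMap.range Φ :=
        Submodule.sum_mem _ (fun j _ => Submodule.smul_mem _ _ ⟨_, rfl⟩)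
      refine he0 _ hmem (fun i => ?_)
      have h1 := congrFun hv i
      rw [Matrix.mulVec, dotProduct, Pi.zero_apply] at h1
      rw [Finset.sum_apply, ← h1]
      apply Finset.sum_congr rfl
      intro j _
      rw [Pi.smul_apply, smul_eq_mul, mul_comm, ← hent i j]
      rfl
    have hker0 : (∑ j, v j • (⟨zq (f j), hzh j⟩ : V)) ∈ LinearMap.ker π := by
      rw [← hkerΦ, LinearMap.mem_ker, map_sum, ← hsum]
      apply Finset.sum_congr rfl
      intro j _
      rw [map_smul]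
    rw [LinearMap.mem_ker, map_sum] at hker0
    have hli := Fintype.linearIndependent_iff.1 hf.ind v (by
      rw [← hker0]
      apply Finset.sum_congr rfl
      intro j _
      rw [map_smul]
      rfl)
    exact hv0 (funext hli)



/-- the exponents of degree `L` -/
def Ar2_F (m L : ℕ) : Finset (Fin (m + 1) →₀ ℕ) := Finset.finsuppAntidiag Finset.univ L

lemma Ar2_memF {L : ℕ} {d : Fin (m + 1) →₀ ℕ} : d ∈ Ar2_F m L ↔ d.degree = L := by
  unfold Ar2_F
  rw [Finset.mem_finsuppAntidiag, Finsupp.degree_eq_sum]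
  exact ⟨fun h => h.1, fun h => ⟨h, Finset.subset_univ _⟩⟩

lemma Ar2_cardF (m L : ℕ) : (Ar2_F m L).card ≤ (L + 1) ^ (m + 1) := by
  have h1 : Fintype.card (Fin (m + 1) → Fin (L + 1)) = (L + 1) ^ (m + 1) := by simp
  rw [← h1, ← Finset.card_univ]
  refine Finset.card_le_card_of_injOn (fun d => fun i => (Fin.ofNat (L + 1) (d i))) (fun _ _ => Finset.mem_univ _) ?_
  intro d hd e he hde
  have hd' := Ar2_memF.mp hd
  have he' := Ar2_memF.mp he
  rw [Finsupp.degree_eq_sum] at hd' he'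
  ext i
  have h2 := congrArg Fin.val (congrFun hde i)
  have h3 : d i ≤ L := hd' ▸ Finset.single_le_sum (f := fun i => d i) (fun _ _ => Nat.zero_le _) (Finset.mem_univ i)
  have h4 : e i ≤ L := he' ▸ Finset.single_le_sum (f := fun i => e i) (fun _ _ => Nat.zero_le _) (Finset.mem_univ i)
  change d i % (L + 1) = e i % (L + 1) at h2
  rw [Nat.mod_eq_of_lt (by omega), Nat.mod_eq_of_lt (by omega)] at h2
  exact h2

/-- vectors as forms -/
def Ar2_toP (m L : ℕ) : (Ar2_F m L → ℂ) →ₗ[ℂ] PC m :=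
  ∑ d : Ar2_F m L, (MvPolynomial.monomial d.1).comp (LinearMap.proj d)

lemma Ar2_toP_apply (L : ℕ) (v : Ar2_F m L → ℂ) : Ar2_toP m L v = ∑ d : Ar2_F m L, MvPolynomial.monomial d.1 (v d) := by
  unfold Ar2_toP
  rw [LinearMap.sum_apply]
  rfl

lemma Ar2_coeff_toP (L : ℕ) (v : Ar2_F m L → ℂ) (d : Ar2_F m L) : (Ar2_toP m L v).coeff d.1 = v d := by
  rw [Ar2_toP_apply, MvPolynomial.coeff_sum, Finset.sum_eq_single d]
  · rw [MvPolynomial.coeff_monomial, if_pos rfl]
  · intro e _ he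
    rw [MvPolynomial.coeff_monomial, if_neg]
    intro h
    exact he (Subtype.ext h)
  · intro h
    exact absurd (Finset.mem_univ _) h

lemma Ar2_hom_toP (L : ℕ) (v : Ar2_F m L → ℂ) : (Ar2_toP m L v).IsHomogeneous L := by
  rw [Ar2_toP_apply]
  refine MvPolynomial.IsHomogeneous.sum _ _ _ fun d _ => ?_
  exact MvPolynomial.isHomogeneous_monomial _ (Ar2_memF.mp d.2)

lemma Ar2_toP_eq {L : ℕ} {f : PC m} (hf : f.IsHomogeneous L) : Ar2_toP m L (fun d => f.coeff d.1) = f := by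
  ext e
  by_cases he : e ∈ Ar2_F m L
  · exact Ar2_coeff_toP L _ ⟨e, he⟩
  · have h1 : e.degree ≠ L := fun h => he (Ar2_memF.mpr h)
    rw [hf.coeff_eq_zero h1, (Ar2_hom_toP L _).coeff_eq_zero h1]

/-- vectors as forms, through `φ` -/
def Ar2_Psi (θ : Fin m → ℂ) (L : ℕ) : (Ar2_F m L → ℂ) →ₗ[ℂ] PC m := (phi (-θ)).toLinearMap ∘ₗ Ar2_toP m L

/-- coordinates -/
def Ar2_co (θ : Fin m → ℂ) (L : ℕ) : PC m →ₗ[ℂ] (Ar2_F m L → ℂ) :=
  LinearMap.pi fun d => (MvPolynomial.lcoeff ℂ d.1) ∘ₗ (phi θ).toLinearMap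

lemma Ar2_co_apply (θ : Fin m → ℂ) (L : ℕ) (f : PC m) (d : Ar2_F m L) : Ar2_co θ L f d = (phi θ f).coeff d.1 := rfl

lemma Ar2_Psi_apply (θ : Fin m → ℂ) (L : ℕ) (v : Ar2_F m L → ℂ) : Ar2_Psi θ L v = phi (-θ) (Ar2_toP m L v) := rfl

end Pool.Agent.LT
end

end

section

open Complex MvPolynomial Matrix
noncomputable section
namespace Pool.Agent.LT
variable {m c : ℕ}

lemma Ar2_Psi_hom (θ : Fin m → ℂ) (L : ℕ) (v : Ar2_F m L → ℂ) : (Ar2_Psi θ L v).IsHomogeneous L :=
  phi_hom (-θ) (Ar2_hom_toP L v)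

lemma Ar2_Psi_co (θ : Fin m → ℂ) {L : ℕ} {f : PC m} (hf : f.IsHomogeneous L) : Ar2_Psi θ L (Ar2_co θ L f) = f := by
  rw [Ar2_Psi_apply]
  have h1 : Ar2_toP m L (Ar2_co θ L f) = phi θ f := Ar2_toP_eq (phi_hom θ hf)
  rw [h1, phi_neg']

lemma Ar2_phi_Psi (θ : Fin m → ℂ) (L : ℕ) (v : Ar2_F m L → ℂ) : phi θ (Ar2_Psi θ L v) = Ar2_toP m L v := by
  rw [Ar2_Psi_apply]
  exact phi_neg θ _

lemma Ar2_co_Psi (θ : Fin m → ℂ) (L : ℕ) (v : Ar2_F m L → ℂ) : Ar2_co θ L (Ar2_Psi θ L v) = v := by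
  funext d
  rw [Ar2_co_apply, Ar2_phi_Psi, Ar2_coeff_toP]

/-- the weighted length in coordinates -/
lemma Ar2_wl (θ : Fin m → ℂ) (w τ : ℝ) {L : ℕ} {f : PC m} (hf : f.IsHomogeneous L) :
    ∑ d : Ar2_F m L, wt w τ L d.1 * ‖Ar2_co θ L f d‖ = wl θ w τ L f := by
  have h1 : ∑ d : Ar2_F m L, wt w τ L d.1 * ‖Ar2_co θ L f d‖ = ∑ d ∈ Ar2_F m L, ‖(phi θ f).coeff d‖ * wt w τ L d := by
    rw [← Finset.sum_coe_sort (Ar2_F m L)]
    exact Finset.sum_congr rfl fun d _ => by rw [Ar2_co_apply, mul_comm]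
  rw [h1]
  unfold wl
  symm
  refine Finset.sum_subset ?_ ?_
  · intro d hd
    rw [Ar2_memF]
    by_contra hne
    exact (MvPolynomial.mem_support_iff.mp hd) ((phi_hom θ hf).coeff_eq_zero hne)
  · intro d _ hd
    rw [MvPolynomial.notMem_support_iff.mp hd, norm_zero, zero_mul]

/-- the functionals -/
def Ar2_Lam (L : ℕ) (a : (Fin (m + 1) →₀ ℕ) → ℤ) : PC m →ₗ[ℂ] ℂ :=
  ∑ d ∈ Ar2_F m L, (a d : ℂ) • MvPolynomial.lcoeff ℂ d

lemma Ar2_Lam_apply (L : ℕ) (a : (Fin (m + 1) →₀ ℕ) → ℤ) (f : PC m) :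
    Ar2_Lam L a f = ∑ d ∈ Ar2_F m L, (a d : ℂ) * f.coeff d := by
  unfold Ar2_Lam
  rw [LinearMap.sum_apply]
  rfl

lemma Ar2_Lam_supp (L : ℕ) (a : (Fin (m + 1) →₀ ℕ) → ℤ) {f : PC m} (hf : f.IsHomogeneous L) :
    Ar2_Lam L a f = ∑ d ∈ f.support, (a d : ℂ) * f.coeff d := by
  rw [Ar2_Lam_apply]
  symm
  refine Finset.sum_subset ?_ ?_
  · intro d hd
    rw [Ar2_memF]
    by_contra hne
    exact (MvPolynomial.mem_support_iff.mp hd) (hf.coeff_eq_zero hne)
  · intro d _ hd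
    rw [MvPolynomial.notMem_support_iff.mp hd, mul_zero]

lemma Ar2_Lam_zc (L : ℕ) (a : (Fin (m + 1) →₀ ℕ) → ℤ) {f : PZ m} (hf : f.IsHomogeneous L) :
    Ar2_Lam L a (zc f) = ((∑ d ∈ f.support, a d * f.coeff d : ℤ) : ℂ) := by
  rw [Ar2_Lam_apply]
  have h1 : ∑ d ∈ f.support, a d * f.coeff d = ∑ d ∈ Ar2_F m L, a d * f.coeff d := by
    refine Finset.sum_subset ?_ ?_
    · intro d hd
      rw [Ar2_memF]
      by_contra hne
      exact (MvPolynomial.mem_support_iff.mp hd) (hf.coeff_eq_zero hne)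
    · intro d _ hd
      rw [MvPolynomial.notMem_support_iff.mp hd, mul_zero]
  rw [h1, Int.cast_sum]
  refine Finset.sum_congr rfl fun d _ => ?_
  unfold zc
  rw [MvPolynomial.coeff_map, Int.cast_mul]
  rfl

lemma Ar2_zc_hom {L : ℕ} {f : PZ m} (hf : f.IsHomogeneous L) : (zc f).IsHomogeneous L := hf.map _

lemma Ar2_zc_qc (f : PZ m) : zc f = qc (zq f) := by
  unfold zc qc zq
  rw [MvPolynomial.map_map]
  congr 1

/-- every form is a combination of the basis and of an element of the ideal -/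
lemma Ar2_span {J : Ideal (PQ m)} {L r : ℕ} {f : Fin r → PZ m} (hB : IsBas J L f) {h : PC m} (hh : h.IsHomogeneous L) :
    h ∈ Submodule.span ℂ (Set.range fun j => zc (f j)) ⊔ (JC J).restrictScalars ℂ := by
  set T := Submodule.span ℂ (Set.range fun j => zc (f j)) ⊔ (JC J).restrictScalars ℂ with hT
  have hmon : ∀ d : Fin (m + 1) →₀ ℕ, d.degree = L → MvPolynomial.monomial d (1 : ℂ) ∈ T := by
    intro d hd
    have h1 : Ideal.Quotient.mkₐ ℚ J (MvPolynomial.monomial d (1 : ℚ)) ∈ qd J L := by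
      refine Submodule.mem_map.mpr ⟨_, ?_, rfl⟩
      rw [MvPolynomial.mem_homogeneousSubmodule]
      exact MvPolynomial.isHomogeneous_monomial _ hd
    rw [← hB.span, Submodule.mem_span_range_iff_exists_fun] at h1
    obtain ⟨q, hq⟩ := h1
    have h2 : MvPolynomial.monomial d (1 : ℚ) - ∑ i, q i • zq (f i) ∈ J := by
      rw [← Ideal.Quotient.eq_zero_iff_mem, map_sub, sub_eq_zero]
      have h3 : (Ideal.Quotient.mk J) (∑ i, q i • zq (f i)) = ∑ i, q i • Ideal.Quotient.mkₐ ℚ J (zq (f i)) := by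
        rw [map_sum]
        refine Finset.sum_congr rfl fun i _ => ?_
        exact map_smul (Ideal.Quotient.mkₐ ℚ J) (q i) (zq (f i))
      rw [h3, hq]
      rfl
    have h4 : qc (MvPolynomial.monomial d (1 : ℚ) - ∑ i, q i • zq (f i)) ∈ JC J := Ideal.mem_map_of_mem _ h2
    have h5 : MvPolynomial.monomial d (1 : ℂ) = (∑ i, (q i : ℂ) • zc (f i)) + qc (MvPolynomial.monomial d (1 : ℚ) - ∑ i, q i • zq (f i)) := by
      have h6 : qc (MvPolynomial.monomial d (1 : ℚ)) = MvPolynomial.monomial d (1 : ℂ) := by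
        unfold qc
        rw [MvPolynomial.map_monomial, map_one]
      have h7 : qc (∑ i, q i • zq (f i)) = ∑ i, (q i : ℂ) • zc (f i) := by
        have h8 : qc (∑ i, q i • zq (f i)) = ∑ i, qc (q i • zq (f i)) := by
          unfold qc
          rw [map_sum]
        rw [h8]
        refine Finset.sum_congr rfl fun i _ => ?_
        rw [Ar2_zc_qc]
        unfold qc
        rw [MvPolynomial.smul_eq_C_mul, map_mul, MvPolynomial.map_C, MvPolynomial.smul_eq_C_mul]
        rfl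
      have h9 : qc (MvPolynomial.monomial d (1 : ℚ) - ∑ i, q i • zq (f i)) =
          qc (MvPolynomial.monomial d (1 : ℚ)) - qc (∑ i, q i • zq (f i)) := by
        unfold qc
        rw [map_sub]
      rw [h9, h6, h7]
      ring
    rw [h5]
    refine T.add_mem ?_ ?_
    · refine (le_sup_left : Submodule.span ℂ (Set.range fun j => zc (f j)) ≤ T) ?_
      exact Submodule.sum_mem _ fun i _ => Submodule.smul_mem _ _ (Submodule.subset_span ⟨i, rfl⟩)
    · exact (le_sup_right : (JC J).restrictScalars ℂ ≤ T) h4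
  rw [h.as_sum]
  refine Submodule.sum_mem _ fun d hd => ?_
  have hdeg : d.degree = L := by
    by_contra hne
    exact (MvPolynomial.mem_support_iff.mp hd) (hh.coeff_eq_zero hne)
  have h1 : MvPolynomial.monomial d (h.coeff d) = h.coeff d • MvPolynomial.monomial d (1 : ℂ) := by
    rw [MvPolynomial.smul_monomial, smul_eq_mul, mul_one]
  rw [h1]
  exact T.smul_mem _ (hmon d hdeg)

/-- elements of the span of a family indexed by `j' < j` -/
lemma Ar2_coef {r : ℕ} {V : Type} [AddCommGroup V] [Module ℂ V] (f : Fin r → V) (j : Fin r) {t : V}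
    (ht : t ∈ Submodule.span ℂ (f '' {l | l < j})) : ∃ u : Fin r → ℂ, (∀ l, ¬ l < j → u l = 0) ∧ t = ∑ l, u l • f l := by
  classical
  induction ht using Submodule.span_induction with
  | mem x hx =>
    obtain ⟨l, hl, rfl⟩ := hx
    refine ⟨Pi.single l 1, ?_, ?_⟩
    · intro l' hl'
      rw [Pi.single_apply, if_neg]
      rintro rfl
      exact hl' hl
    · rw [Finset.sum_eq_single l]
      · rw [Pi.single_eq_same, one_smul]
      · intro b _ hb
        rw [Pi.single_eq_of_ne hb, zero_smul]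
      · intro h
        exact absurd (Finset.mem_univ _) h
  | zero => exact ⟨0, fun _ _ => rfl, by simp⟩
  | add x y _ _ hx hy =>
    obtain ⟨u, hu, rfl⟩ := hx
    obtain ⟨v, hv, rfl⟩ := hy
    refine ⟨u + v, fun l hl => ?_, ?_⟩
    · rw [Pi.add_apply, hu l hl, hv l hl, add_zero]
    · rw [← Finset.sum_add_distrib]
      exact Finset.sum_congr rfl fun l _ => by rw [Pi.add_apply, add_smul]
  | smul c x _ hx =>
    obtain ⟨u, hu, rfl⟩ := hx
    refine ⟨c • u, fun l hl => ?_, ?_⟩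
    · rw [Pi.smul_apply, hu l hl, smul_zero]
    · rw [Finset.smul_sum]
      exact Finset.sum_congr rfl fun l _ => by rw [Pi.smul_apply, smul_eq_mul, mul_smul]

/-- the determinant does not change -/
lemma Ar2_det {J : Ideal (PQ m)} {L r : ℕ} {f : Fin r → PZ m} {g : Fin r → PC m} (hf : ∀ i, (f i).IsHomogeneous L)
    (hM : IsMod J L f g) (Λ : Fin r → PC m →ₗ[ℂ] ℂ) (hΛ : ∀ i, ∀ h ∈ JC J, h.IsHomogeneous L → Λ i h = 0) :
    (Matrix.of fun i j => Λ i (g j)).det = (Matrix.of fun i j => Λ i (zc (f j))).det := by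
  classical
  have h1 : ∀ j, ∃ u : Fin r → ℂ, (∀ l, ¬ l < j → u l = 0) ∧ ∀ i, Λ i (g j) = Λ i (zc (f j)) + ∑ l, u l * Λ i (zc (f l)) := by
    intro j
    obtain ⟨t, ht, h, hh, e⟩ := Submodule.mem_sup.mp (hM.mem j)
    obtain ⟨u, hu, rfl⟩ := Ar2_coef (fun l => zc (f l)) j ht
    refine ⟨u, hu, fun i => ?_⟩
    have hhom : h.IsHomogeneous L := by
      have h2 : h = g j - zc (f j) - ∑ l, u l • zc (f l) := by
        rw [← e]; ring
      rw [h2]
      refine ((hM.hom j).sub (Ar2_zc_hom (hf j))).sub ?_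
      refine MvPolynomial.IsHomogeneous.sum _ _ _ fun l _ => ?_
      rw [MvPolynomial.smul_eq_C_mul]
      have h3 := (MvPolynomial.isHomogeneous_C (Fin (m + 1)) (u l)).mul (Ar2_zc_hom (hf l))
      rwa [zero_add] at h3
    have h4 : g j = zc (f j) + ((∑ l, u l • zc (f l)) + h) := by
      rw [e]; ring
    rw [h4, map_add, map_add, hΛ i h hh hhom, add_zero, map_sum]
    congr 1
    exact Finset.sum_congr rfl fun l _ => by rw [map_smul, smul_eq_mul]
  choose u hu hg using h1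
  have h2 : (Matrix.of fun i j => Λ i (g j)) = (Matrix.of fun i j => Λ i (zc (f j))) * (1 + Matrix.of fun l j => u j l) := by
    ext i j
    rw [Matrix.mul_add, Matrix.mul_one, Matrix.add_apply, Matrix.mul_apply]
    show Λ i (g j) = Λ i (zc (f j)) + ∑ l, Λ i (zc (f l)) * u j l
    rw [hg j i]
    congr 1
    exact Finset.sum_congr rfl fun l _ => mul_comm _ _
  rw [h2, Matrix.det_mul]
  have h3 : (1 + Matrix.of fun l j => u j l : Matrix (Fin r) (Fin r) ℂ).det = 1 := by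
    rw [Matrix.det_of_isUpperTriangular]
    · refine Finset.prod_eq_one fun i _ => ?_
      rw [Matrix.add_apply, Matrix.one_apply_eq, Matrix.of_apply, hu i i (lt_irrefl _), add_zero]
    · intro i j hij
      have hij' : j < i := hij
      rw [Matrix.add_apply, Matrix.one_apply_ne hij'.ne', Matrix.of_apply, hu j i (not_lt.mpr hij'.le), add_zero]
  rw [h3, mul_one]

/-- number of exponents -/
lemma Ar2_card (k s : ℕ) (hs : 1 ≤ s) : ∃ B : Finset (Fin k →₀ ℕ), (∀ β ∈ B, β.degree < s) ∧ s ^ k ≤ k.factorial * B.card := by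
  classical
  set A : Finset (Fin (k + 1) →₀ ℕ) := Finset.finsuppAntidiag Finset.univ (s - 1) with hA
  have hmem : ∀ β ∈ A, β 0 + (β.tail).degree = s - 1 := by
    intro β hβ
    rw [hA, Finset.mem_finsuppAntidiag] at hβ
    rw [← hβ.1, Fin.sum_univ_succ, Finsupp.degree_eq_sum]
    rfl
  refine ⟨A.image fun β => β.tail, ?_, ?_⟩
  · intro γ hγ
    obtain ⟨β, hβ, rfl⟩ := Finset.mem_image.mp hγ
    have := hmem β hβ
    omega
  · have hinj : Set.InjOn (fun β : Fin (k + 1) →₀ ℕ => β.tail) A := by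
      intro β hβ γ hγ h
      have h1 := hmem β hβ
      have h2 := hmem γ hγ
      have h3 : β.tail = γ.tail := h
      rw [h3] at h1
      have h4 : β 0 = γ 0 := by omega
      rw [← Finsupp.cons_tail β, ← Finsupp.cons_tail γ, h3, h4]
    rw [Finset.card_image_of_injOn hinj, hA, Finset.card_finsuppAntidiag_nat_eq_choose, Finset.card_univ, Fintype.card_fin]
    have h1 : (k + 1 + (s - 1) - 1).choose (s - 1) = (s + k - 1).choose k := by
      have h2 : k + 1 + (s - 1) - 1 = s + k - 1 := by omega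
      rw [h2]
      refine (Nat.choose_symm_of_eq_add ?_)
      omega
    rw [h1, ← Nat.ascFactorial_eq_factorial_mul_choose']
    exact Nat.pow_succ_le_ascFactorial s k

/-- the forms dual to the jets -/
lemma Ar2_form_hom (θ : Fin m → ℂ) {k : ℕ} (I : Fin k → Fin m) {L : ℕ} (β : Fin k →₀ ℕ) (h : β.degree ≤ L) :
    (X 0 ^ (L - β.degree) * ∏ i, (X (I i).succ - C (θ (I i)) * X 0) ^ (β i) : PC m).IsHomogeneous L := by
  have h1 : ∀ i, (X (I i).succ - C (θ (I i)) * X 0 : PC m).IsHomogeneous 1 := by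
    intro i
    refine (MvPolynomial.isHomogeneous_X _ _).sub ?_
    have := (MvPolynomial.isHomogeneous_C (Fin (m + 1)) (θ (I i))).mul (MvPolynomial.isHomogeneous_X ℂ (0 : Fin (m + 1)))
    rwa [zero_add] at this
  have h2 : (∏ i, (X (I i).succ - C (θ (I i)) * X 0) ^ (β i) : PC m).IsHomogeneous (∑ i, β i) := by
    refine MvPolynomial.IsHomogeneous.prod _ _ _ fun i _ => ?_
    have := (h1 i).pow (β i)
    rwa [one_mul] at this
  have h3 : (X 0 ^ (L - β.degree) : PC m).IsHomogeneous (L - β.degree) := by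
    have := (MvPolynomial.isHomogeneous_X ℂ (0 : Fin (m + 1))).pow (L - β.degree)
    rwa [one_mul] at this
  have h4 := h3.mul h2
  have h5 : L - β.degree + ∑ i, β i = L := by
    rw [← Finsupp.degree_eq_sum]
    omega
  rwa [h5] at h4

lemma Ar2_lC_monomial (d : Fin (m + 1) →₀ ℕ) : lC (MvPolynomial.monomial d (1 : ℂ)) ≤ 1 := by
  unfold lC
  refine (Finset.sum_le_sum_of_subset_of_nonneg (MvPolynomial.support_monomial_subset) fun _ _ _ => norm_nonneg _).trans ?_
  rw [Finset.sum_singleton, MvPolynomial.coeff_monomial, if_pos rfl, norm_one]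

/-- the values on the unit vectors -/
lemma Ar2_unit (θ : Fin m → ℂ) {Θ : ℝ} (hΘ : ∀ i, ‖θ i‖ ≤ Θ) (hΘ0 : 0 ≤ Θ) {L : ℕ} (a : (Fin (m + 1) →₀ ℕ) → ℤ) {E : ℝ}
    (hE : ∀ d, |(a d : ℝ)| ≤ E) (hE0 : 0 ≤ E) (j : Ar2_F m L) :
    ‖Ar2_Lam L a (Ar2_Psi θ L (Pi.single j 1))‖ ≤ E * (1 + Θ) ^ L := by
  classical
  have h1 : Ar2_toP m L (Pi.single j 1) = MvPolynomial.monomial j.1 (1 : ℂ) := by
    rw [Ar2_toP_apply, Finset.sum_eq_single j]
    · rw [Pi.single_eq_same]
    · intro b _ hb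
      rw [Pi.single_eq_of_ne hb, map_zero]
    · intro h
      exact absurd (Finset.mem_univ _) h
  have hhom : (MvPolynomial.monomial j.1 (1 : ℂ)).IsHomogeneous L := MvPolynomial.isHomogeneous_monomial _ (Ar2_memF.mp j.2)
  rw [Ar2_Psi_apply, h1, Ar2_Lam_supp L a (phi_hom (-θ) hhom)]
  have h2 : lC (phi (-θ) (MvPolynomial.monomial j.1 (1 : ℂ))) ≤ (1 + Θ) ^ L * 1 := by
    refine (lC_phi_le (-θ) (fun i => ?_) hΘ0 hhom).trans ?_
    · rw [Pi.neg_apply, norm_neg]; exact hΘ i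
    · exact mul_le_mul_of_nonneg_left (Ar2_lC_monomial _) (by positivity)
  refine (norm_sum_le _ _).trans ?_
  calc ∑ d ∈ (phi (-θ) (MvPolynomial.monomial j.1 (1 : ℂ))).support, ‖(a d : ℂ) * (phi (-θ) (MvPolynomial.monomial j.1 (1 : ℂ))).coeff d‖
      ≤ ∑ d ∈ (phi (-θ) (MvPolynomial.monomial j.1 (1 : ℂ))).support, E * ‖(phi (-θ) (MvPolynomial.monomial j.1 (1 : ℂ))).coeff d‖ := by
        refine Finset.sum_le_sum fun d _ => ?_
        rw [norm_mul, Complex.norm_intCast]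
        exact mul_le_mul_of_nonneg_right (hE d) (norm_nonneg _)
    _ = E * lC (phi (-θ) (MvPolynomial.monomial j.1 (1 : ℂ))) := by
        unfold lC
        rw [Finset.mul_sum]
    _ ≤ E * (1 + Θ) ^ L := by
        refine mul_le_mul_of_nonneg_left ?_ hE0
        rwa [mul_one] at h2

/-- the main estimate -/
lemma Ar2_main (θ : Fin m → ℂ) {k : ℕ} (I : Fin k → Fin m) (hI : AlgebraicIndependent ℚ (fun i => θ (I i)))
    (ha : ∀ j, IsAlgebraic (IntermediateField.adjoin ℚ (Set.range fun i => θ (I i))) (θ j)) {Θ : ℝ} (hΘ : ∀ i, ‖θ i‖ ≤ Θ)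
    (hΘ0 : 0 ≤ Θ) {E : ℝ} (hE0 : 1 ≤ E) {L : ℕ} (a : Fin (rJ (p0 θ) L) → (Fin (m + 1) →₀ ℕ) → ℤ) (haE : ∀ i d, |(a i d : ℝ)| ≤ E)
    (hk : ∀ f ∈ JC (p0 θ), f.IsHomogeneous L → ∀ i, ∑ d ∈ f.support, (a i d : ℂ) * f.coeff d = 0)
    (hdet : ∀ f : Fin (rJ (p0 θ) L) → PZ m, IsBas (p0 θ) L f → (Matrix.of fun i j => ∑ d ∈ (f j).support, a i d * (f j).coeff d).det ≠ 0)
    {w τ : ℝ} (hw : 0 ≤ w) (hτ0 : 0 ≤ τ) (hτ : τ ≤ 1) (f : Fin (rJ (p0 θ) L) → PZ m) (g : Fin (rJ (p0 θ) L) → PC m) (hB : IsBas (p0 θ) L f)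
    (hM : IsMod (p0 θ) L f g) (B : Finset (Fin k →₀ ℕ)) (hBs : ∀ β ∈ B, β.degree < ⌈τ * L / 2⌉₊) :
    1 ≤ (((rJ (p0 θ) L).factorial : ℝ) ^ 2 * ((E * (1 + Θ) ^ L) * (Ar2_F m L).card) ^ (rJ (p0 θ) L)) *
      Real.exp (-(w * τ * L / 2 * B.card)) * ∏ j, wl θ w τ L (g j) := by
  classical
  set s := ⌈τ * L / 2⌉₊ with hs
  have hsL : s ≤ L := by
    rw [hs, Nat.ceil_le]
    have : (0 : ℝ) ≤ L := Nat.cast_nonneg L
    nlinarith
  obtain ⟨lam, hl1, hl2, hl3⟩ := jets θ I hI ha s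
  set S : Submodule ℂ (Ar2_F m L → ℂ) := ((JC (p0 θ)).restrictScalars ℂ).comap (Ar2_Psi θ L) with hS
  have hmemS : ∀ x, x ∈ S ↔ Ar2_Psi θ L x ∈ JC (p0 θ) := fun x => Iff.rfl
  set ψ : Fin (rJ (p0 θ) L) → ((Ar2_F m L → ℂ) →ₗ[ℂ] ℂ) := fun i => Ar2_Lam L (a i) ∘ₗ Ar2_Psi θ L with hψ
  have hψS : ∀ i, ∀ x ∈ S, ψ i x = 0 := by
    intro i x hx
    show Ar2_Lam L (a i) (Ar2_Psi θ L x) = 0
    rw [Ar2_Lam_supp L (a i) (Ar2_Psi_hom θ L x)]
    exact hk _ ((hmemS x).mp hx) (Ar2_Psi_hom θ L x) i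
  have hψco : ∀ i (h : PC m), h.IsHomogeneous L → ψ i (Ar2_co θ L h) = Ar2_Lam L (a i) h := by
    intro i h hh
    show Ar2_Lam L (a i) (Ar2_Psi θ L (Ar2_co θ L h)) = _
    rw [Ar2_Psi_co θ hh]
  -- the determinant of the functionals on the basis
  have hdet1 : (Matrix.of fun i j => Ar2_Lam L (a i) (zc (f j))).det =
      (((Matrix.of fun i j => ∑ d ∈ (f j).support, a i d * (f j).coeff d).det : ℤ) : ℂ) := by
    have h1 : (Matrix.of fun i j => Ar2_Lam L (a i) (zc (f j))) =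
        (Matrix.of fun i j => ∑ d ∈ (f j).support, a i d * (f j).coeff d).map (Int.castRingHom ℂ) := by
      ext i j
      exact Ar2_Lam_zc L (a i) (hB.hom j)
    rw [h1]
    exact (RingHom.map_det (Int.castRingHom ℂ) _).symm
  have hdet2 : 1 ≤ ‖(Matrix.of fun i j => Ar2_Lam L (a i) (zc (f j))).det‖ := by
    rw [hdet1, Complex.norm_intCast]
    have h1 := Int.one_le_abs (hdet f hB)
    exact_mod_cast h1
  have hne : (Matrix.of fun i j => Ar2_Lam L (a i) (zc (f j))).det ≠ 0 := by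
    intro h0
    rw [h0, norm_zero] at hdet2
    exact absurd hdet2 (by norm_num)
  -- the dimension
  have hfin : rJ (p0 θ) L = Module.finrank ℂ ((Ar2_F m L → ℂ) ⧸ S) := by
    have hli : LinearIndependent ℂ fun j => S.mkQ (Ar2_co θ L (zc (f j))) := by
      rw [Fintype.linearIndependent_iff]
      intro c hc
      have h1 : ∑ j, c j • Ar2_co θ L (zc (f j)) ∈ S := by
        rw [← Submodule.Quotient.mk_eq_zero, ← Submodule.mkQ_apply, map_sum, ← hc]
        exact Finset.sum_congr rfl fun j _ => by rw [map_smul]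
      have h2 : (Matrix.of fun i j => Ar2_Lam L (a i) (zc (f j))) *ᵥ c = 0 := by
        funext i
        have h3 := hψS i _ h1
        rw [map_sum] at h3
        rw [Pi.zero_apply, ← h3]
        show ∑ j, Ar2_Lam L (a i) (zc (f j)) * c j = _
        refine Finset.sum_congr rfl fun j _ => ?_
        rw [map_smul, hψco i _ (Ar2_zc_hom (hB.hom j)), smul_eq_mul, mul_comm]
      have h4 := Matrix.eq_zero_of_mulVec_eq_zero hne h2
      exact fun j => congrFun h4 j
    have hsp : ⊤ ≤ Submodule.span ℂ (Set.range fun j => S.mkQ (Ar2_co θ L (zc (f j)))) := by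
      rintro x -
      obtain ⟨v, rfl⟩ := S.mkQ_surjective x
      obtain ⟨t, ht, h, hh, e⟩ := Submodule.mem_sup.mp (Ar2_span hB (Ar2_Psi_hom θ L v))
      rw [Submodule.mem_span_range_iff_exists_fun] at ht
      obtain ⟨u, rfl⟩ := ht
      have hth : (∑ l, u l • zc (f l)).IsHomogeneous L := by
        refine MvPolynomial.IsHomogeneous.sum _ _ _ fun l _ => ?_
        rw [MvPolynomial.smul_eq_C_mul]
        have h3 := (MvPolynomial.isHomogeneous_C (Fin (m + 1)) (u l)).mul (Ar2_zc_hom (hB.hom l))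
        rwa [zero_add] at h3
      have hhom : h.IsHomogeneous L := by
        have h2 : h = Ar2_Psi θ L v - ∑ l, u l • zc (f l) := by rw [← e]; ring
        rw [h2]
        exact (Ar2_Psi_hom θ L v).sub hth
      have h5 : v = (∑ l, u l • Ar2_co θ L (zc (f l))) + Ar2_co θ L h := by
        have h6 := congrArg (Ar2_co θ L) e
        rw [map_add, map_sum, Ar2_co_Psi] at h6
        rw [← h6]
        congr 1
        exact Finset.sum_congr rfl fun l _ => by rw [map_smul]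
      have h7 : Ar2_co θ L h ∈ S := by
        rw [hmemS, Ar2_Psi_co θ hhom]
        exact hh
      have h8 : S.mkQ v = ∑ l, u l • S.mkQ (Ar2_co θ L (zc (f l))) := by
        rw [h5, map_add, map_sum]
        have h9 : S.mkQ (Ar2_co θ L h) = 0 := by
          rw [Submodule.mkQ_apply, Submodule.Quotient.mk_eq_zero]
          exact h7
        rw [h9, add_zero]
        exact Finset.sum_congr rfl fun l _ => by rw [map_smul]
      rw [h8]
      exact Submodule.sum_mem _ fun l _ => Submodule.smul_mem _ _ (Submodule.subset_span ⟨l, rfl⟩)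
    have h1 := Module.finrank_eq_card_basis (Module.Basis.mk hli hsp)
    rw [Fintype.card_fin] at h1
    exact h1.symm
  -- the functionals of the jets
  set e : Fin B.card ≃ B := B.equivFin.symm with he
  set lm : Fin B.card → ((Ar2_F m L → ℂ) →ₗ[ℂ] ℂ) := fun i => lam (e i).1 ∘ₗ Ar2_Psi θ L with hlm
  have hlS : ∀ i, ∀ x ∈ S, lm i x = 0 := by
    intro i x hx
    exact hl1 _ (hBs _ (e i).2) _ ((hmemS x).mp hx)
  set low : Set (Ar2_F m L) := {d | L - d.1 0 < s} with hlow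
  have hlow' : ∀ i, ∀ j, j ∉ low → lm i (Pi.single j 1) = 0 := by
    intro i j hj
    refine hl2 _ (hBs _ (e i).2) L _ (Ar2_Psi_hom θ L _) ?_
    intro d hd
    rw [Ar2_phi_Psi] at hd
    have hjs : s ≤ L - j.1 0 := not_lt.mp hj
    by_cases hdF : d ∈ Ar2_F m L
    · have h1 := Ar2_coeff_toP L (Pi.single j (1 : ℂ)) ⟨d, hdF⟩
      rw [show (⟨d, hdF⟩ : Ar2_F m L).1 = d from rfl] at h1
      rw [h1] at hd
      by_cases hdj : (⟨d, hdF⟩ : Ar2_F m L) = j
      · rw [← hdj] at hjs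
        exact hjs
      · exact absurd (Pi.single_eq_of_ne hdj 1) hd
    · have h1 : d.degree ≠ L := fun h => hdF (Ar2_memF.mpr h)
      exact absurd ((Ar2_hom_toP L _).coeff_eq_zero h1) hd
  have hli : LinearIndependent ℂ lm := by
    rw [Fintype.linearIndependent_iff]
    intro c hc i
    have hdeg : (e i).1.degree < s := hBs _ (e i).2
    set F : PC m := X 0 ^ (L - (e i).1.degree) * ∏ l, (X (I l).succ - C (θ (I l)) * X 0) ^ ((e i).1 l) with hF
    have hFh : F.IsHomogeneous L := Ar2_form_hom θ I (e i).1 (by omega)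
    have h1 := LinearMap.congr_fun hc (Ar2_co θ L F)
    rw [LinearMap.sum_apply, LinearMap.zero_apply, Finset.sum_eq_single i] at h1
    · rw [LinearMap.smul_apply, smul_eq_mul] at h1
      have h2 : lm i (Ar2_co θ L F) = 1 := by
        show lam (e i).1 (Ar2_Psi θ L (Ar2_co θ L F)) = 1
        rw [Ar2_Psi_co θ hFh, hF, hl3 _ _ hdeg hdeg, if_pos rfl]
      rwa [h2, mul_one] at h1
    · intro j _ hj
      have h2 : lm j (Ar2_co θ L F) = 0 := by
        show lam (e j).1 (Ar2_Psi θ L (Ar2_co θ L F)) = 0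
        rw [Ar2_Psi_co θ hFh, hF, hl3 _ _ (hBs _ (e j).2) hdeg, if_neg]
        intro h
        exact hj (e.injective (Subtype.ext h))
      rw [LinearMap.smul_apply, h2, smul_zero]
    · intro h
      exact absurd (Finset.mem_univ _) h
  have hQ1 : (1 : ℝ) ≤ E * (1 + Θ) ^ L := by
    have h1 : (1 : ℝ) ≤ (1 + Θ) ^ L := one_le_pow₀ (by linarith)
    nlinarith
  have key := det_bound S (fun d : Ar2_F m L => wt w τ L d.1) (fun d => by
      show 1 ≤ Real.exp _
      rw [Real.one_le_exp_iff]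
      exact mul_nonneg hw (le_max_left _ _)) low (a := w * τ * L / 2) (by positivity) (by
      intro d hd
      show Real.exp _ ≤ Real.exp _
      rw [Real.exp_le_exp]
      have h1 : (L : ℕ) - d.1 0 < s := hd
      have hd0 : d.1 0 ≤ L := by
        have h2 := Ar2_memF.mp d.2
        rw [Finsupp.degree_eq_sum] at h2
        have h3 := Finset.single_le_sum (f := fun i => d.1 i) (fun _ _ => Nat.zero_le _) (Finset.mem_univ (0 : Fin (m + 1)))
        exact h3.trans h2.le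
      have h2 : ((L - d.1 0 : ℕ) : ℝ) < τ * L / 2 := by
        rw [hs] at h1
        exact Nat.lt_ceil.mp h1
      rw [Nat.cast_sub hd0] at h2
      have h3 : τ * L / 2 ≤ max 0 (τ * L - ((L : ℝ) - (d.1 0 : ℕ))) := by
        refine le_trans ?_ (le_max_right _ _)
        linarith
      calc w * τ * L / 2 = w * (τ * L / 2) := by ring
        _ ≤ _ := mul_le_mul_of_nonneg_left h3 hw) (r := rJ (p0 θ) L) (n0 := B.card) hfin ψ hψS (Q := E * (1 + Θ) ^ L) hQ1
      (fun i j => Ar2_unit θ hΘ hΘ0 (a i) (haE i) (by linarith) j) lm hlS hlow' hli (fun j => Ar2_co θ L (g j))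
  have h1 : (Matrix.of fun i j => ψ i (Ar2_co θ L (g j))).det = (Matrix.of fun i j => Ar2_Lam L (a i) (zc (f j))).det := by
    rw [← Ar2_det hB.hom hM (fun i => Ar2_Lam L (a i)) (fun i h hh hhom => by
      rw [Ar2_Lam_supp L (a i) hhom]
      exact hk h hh hhom i)]
    congr 1
    ext i j
    exact hψco i _ (hM.hom j)
  rw [h1] at key
  refine hdet2.trans (key.trans (le_of_eq ?_))
  rw [Fintype.card_coe]
  congr 1
  exact Finset.prod_congr rfl fun j _ => Ar2_wl θ w τ (hM.hom j)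

end Pool.Agent.LT
end

end
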