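import Mathlib
import Pool.Agent.Lib.MP_f58a57_nt.LK.K005
import Pool.Agent.Lib.MP_f58a57_nt.LK.K014

open Complex MvPolynomial Matrix
noncomputable section
namespace Pool.Agent.LT
variable {m c : ℕ}

/-- row Ar2: the lower bound for admissible numbers, from `funBasis`, `jets`, `det_bound` -/
theorem lowerBd (θ : Fin m → ℂ) {k : ℕ} (I : Fin k → Fin m) (hinj : Function.Injective I) (hI : AlgebraicIndependent ℚ (fun i => θ (I i)))
    (ha : ∀ j, IsAlgebraic (IntermediateField.adjoin ℚ (Set.range fun i => θ (I i))) (θ j)) :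
    ∃ C : ℝ, 0 < C ∧ (∀ L : ℕ, (rJ (p0 θ) L : ℝ) ≤ C * ((L : ℝ) + 1) ^ k) ∧
      ∀ (w τ : ℝ), 0 ≤ w → 0 ≤ τ → τ ≤ 1 → ∀ (L : ℕ) (x : ℝ), Adm θ w τ (p0 θ) L x →
        w * (τ * L / 2) ^ (k + 1) / (k.factorial : ℝ) - C * ((L : ℝ) + 1) ^ (k + 1) ≤ x := by
  classical
  obtain ⟨C1, hC1, H⟩ := funBasis θ I hI ha
  set Θ : ℝ := ∑ i, ‖θ i‖ with hΘdef
  have hΘ0 : 0 ≤ Θ := Finset.sum_nonneg fun _ _ => norm_nonneg _
  have hΘ : ∀ i, ‖θ i‖ ≤ Θ := fun i => Finset.single_le_sum (f := fun i => ‖θ i‖) (fun _ _ => norm_nonneg _) (Finset.mem_univ i)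
  set K : ℝ := 3 * C1 + 2 * k + Θ + m + 1 with hK
  have hK0 : 0 ≤ K := by positivity
  refine ⟨C1 * (K + 1), by positivity, ?_, ?_⟩
  · intro L
    refine (H L).1.trans ?_
    have h1 : (0 : ℝ) ≤ ((L : ℝ) + 1) ^ k := by positivity
    nlinarith [mul_nonneg (mul_nonneg hC1.le hK0) h1]
  · intro w τ hw hτ0 hτ L x hx
    obtain ⟨r', f, g, hB, hM, hprod⟩ := hx
    obtain rfl := hB.card
    obtain ⟨hrL, a, ha1, ha2, ha3⟩ := H L
    have hL0 : (0 : ℝ) ≤ L := Nat.cast_nonneg L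
    set P : ℝ := (L : ℝ) + 1 with hP
    have hP1 : 1 ≤ P := by rw [hP]; linarith
    -- the exponents
    obtain ⟨B, hBs, hBc⟩ : ∃ B : Finset (Fin k →₀ ℕ), (∀ β ∈ B, β.degree < ⌈τ * L / 2⌉₊) ∧
        w * (τ * L / 2) ^ (k + 1) / (k.factorial : ℝ) ≤ w * τ * L / 2 * B.card := by
      have hk0 : (0 : ℝ) < k.factorial := by exact_mod_cast Nat.factorial_pos k
      rcases Nat.eq_zero_or_pos ⌈τ * L / 2⌉₊ with h0 | h0
      · refine ⟨∅, fun β hβ => absurd hβ (Finset.notMem_empty _), ?_⟩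
        have h1 : τ * L / 2 ≤ 0 := Nat.ceil_eq_zero.mp h0
        have h2 : τ * L / 2 = 0 := le_antisymm h1 (by positivity)
        rw [h2, Finset.card_empty]
        simp
      · obtain ⟨B, hB1, hB2⟩ := Ar2_card k _ h0
        refine ⟨B, hB1, ?_⟩
        have h1 : (τ * L / 2) ^ k ≤ (⌈τ * L / 2⌉₊ : ℝ) ^ k := pow_le_pow_left₀ (by positivity) (Nat.le_ceil _) k
        have h2 : ((⌈τ * L / 2⌉₊ : ℝ)) ^ k ≤ k.factorial * B.card := by exact_mod_cast hB2
        rw [div_le_iff₀ hk0, pow_succ]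
        have h3 : w * ((τ * L / 2) ^ k * (τ * L / 2)) ≤ w * ((k.factorial * B.card) * (τ * L / 2)) := by
          refine mul_le_mul_of_nonneg_left ?_ hw
          exact mul_le_mul_of_nonneg_right (h1.trans h2) (by positivity)
        calc w * ((τ * L / 2) ^ k * (τ * L / 2)) ≤ w * ((k.factorial * B.card) * (τ * L / 2)) := h3
          _ = _ := by ring
    have hE1 : 1 ≤ Real.exp (C1 * P) := by
      rw [Real.one_le_exp_iff]; positivity
    have key := Ar2_main θ I hI ha hΘ hΘ0 hE1 a ha1 ha2 ha3 hw hτ0 hτ f g hB hM B hBs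
    have hwl0 : 0 ≤ ∏ j, wl θ w τ L (g j) := Finset.prod_nonneg fun j _ => wl_nonneg θ w τ L (g j)
    set r := rJ (p0 θ) L with hr
    have hr0 : (0 : ℝ) ≤ r := Nat.cast_nonneg r
    -- bounds by exponentials
    have hPexp : P ≤ Real.exp P := by linarith [Real.add_one_le_exp P]
    have b1 : (r : ℝ) ≤ Real.exp ((C1 + k) * P) := by
      calc (r : ℝ) ≤ C1 * P ^ k := hrL
        _ ≤ Real.exp (C1 * P) * Real.exp P ^ k := by
            refine mul_le_mul ?_ (pow_le_pow_left₀ (by positivity) hPexp k) (by positivity) (Real.exp_pos _).le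
            have : C1 ≤ C1 * P := by nlinarith
            linarith [Real.add_one_le_exp (C1 * P)]
        _ = Real.exp ((C1 + k) * P) := by
            rw [← Real.exp_nat_mul, ← Real.exp_add]; congr 1; ring
    have b2 : ((r.factorial : ℕ) : ℝ) ≤ Real.exp ((C1 + k) * P * r) := by
      calc ((r.factorial : ℕ) : ℝ) ≤ (r : ℝ) ^ r := by exact_mod_cast Nat.factorial_le_pow r
        _ ≤ Real.exp ((C1 + k) * P) ^ r := pow_le_pow_left₀ hr0 b1 r
        _ = Real.exp ((C1 + k) * P * r) := by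
            rw [← Real.exp_nat_mul]; congr 1; ring
    have b3 : ((Ar2_F m L).card : ℝ) ≤ Real.exp ((m + 1) * P) := by
      calc ((Ar2_F m L).card : ℝ) ≤ P ^ (m + 1) := by
            rw [hP]; exact_mod_cast Ar2_cardF m L
        _ ≤ Real.exp P ^ (m + 1) := pow_le_pow_left₀ (by positivity) hPexp _
        _ = Real.exp ((m + 1) * P) := by
            rw [← Real.exp_nat_mul]; push_cast; ring_nf
    have b4 : (1 + Θ) ^ L ≤ Real.exp (Θ * P) := by
      calc (1 + Θ) ^ L ≤ Real.exp Θ ^ L := pow_le_pow_left₀ (by positivity) (by linarith [Real.add_one_le_exp Θ]) L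
        _ = Real.exp (Θ * L) := by rw [← Real.exp_nat_mul]; congr 1; ring
        _ ≤ Real.exp (Θ * P) := by
            rw [Real.exp_le_exp, hP]; nlinarith
    have b5 : (Real.exp (C1 * P) * (1 + Θ) ^ L) * (Ar2_F m L).card ≤ Real.exp ((C1 + Θ + (m + 1)) * P) := by
      calc (Real.exp (C1 * P) * (1 + Θ) ^ L) * (Ar2_F m L).card
          ≤ (Real.exp (C1 * P) * Real.exp (Θ * P)) * Real.exp ((m + 1) * P) := by
            refine mul_le_mul (mul_le_mul_of_nonneg_left b4 (Real.exp_pos _).le) b3 (Nat.cast_nonneg _) (by positivity)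
        _ = _ := by
            rw [← Real.exp_add, ← Real.exp_add]; congr 1; ring
    have b6 : (((r.factorial : ℕ) : ℝ) ^ 2 * ((Real.exp (C1 * P) * (1 + Θ) ^ L) * (Ar2_F m L).card) ^ r) ≤ Real.exp (K * P * r) := by
      calc (((r.factorial : ℕ) : ℝ) ^ 2 * ((Real.exp (C1 * P) * (1 + Θ) ^ L) * (Ar2_F m L).card) ^ r)
          ≤ Real.exp ((C1 + k) * P * r) ^ 2 * Real.exp ((C1 + Θ + (m + 1)) * P) ^ r := by
            refine mul_le_mul (pow_le_pow_left₀ (Nat.cast_nonneg _) b2 2) (pow_le_pow_left₀ (by positivity) b5 r) (by positivity) (by positivity)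
        _ = Real.exp (K * P * r) := by
            rw [← Real.exp_nat_mul, ← Real.exp_nat_mul, ← Real.exp_add, hK]; congr 1; push_cast; ring
    have b7 : K * P * r ≤ C1 * K * P ^ (k + 1) := by
      calc K * P * r ≤ K * P * (C1 * P ^ k) := mul_le_mul_of_nonneg_left hrL (by positivity)
        _ = C1 * K * P ^ (k + 1) := by rw [pow_succ]; ring
    have h1 : 1 ≤ Real.exp (C1 * K * P ^ (k + 1)) * Real.exp (-(w * τ * L / 2 * B.card)) * Real.exp x := by
      refine key.trans ?_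
      refine mul_le_mul ?_ hprod hwl0 (by positivity)
      refine mul_le_mul_of_nonneg_right ?_ (Real.exp_pos _).le
      exact b6.trans (Real.exp_le_exp.mpr b7)
    rw [← Real.exp_add, ← Real.exp_add, Real.one_le_exp_iff] at h1
    have h2 : 0 ≤ C1 * P ^ (k + 1) := by positivity
    nlinarith [hBc]



theorem As1_hs1 (k : ℕ) {t : ℝ} (ht0 : 0 ≤ t) (ht1 : t < 1) :
    HasSum (fun n : ℕ => (((n + k).choose k : ℕ) : ℝ) * t ^ n) (1 / (1 - t) ^ (k + 1)) := by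
  have hn : ‖t‖ < 1 := by rw [Real.norm_eq_abs, abs_of_nonneg ht0]; exact ht1
  exact hasSum_choose_mul_geometric_of_norm_lt_one k hn

theorem As1_hs2 (k : ℕ) {t : ℝ} (ht0 : 0 ≤ t) (ht1 : t < 1) :
    HasSum (fun n : ℕ => ((n.choose k : ℕ) : ℝ) * t ^ n) (t ^ k / (1 - t) ^ (k + 1)) := by
  have h1 := (As1_hs1 k ht0 ht1).mul_left (t ^ k)
  have h2 : HasSum (fun n : ℕ => (((n + k).choose k : ℕ) : ℝ) * t ^ (n + k)) (t ^ k * (1 / (1 - t) ^ (k + 1))) := by
    refine h1.congr_fun ?_ |> fun h => h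
    intro n
    rw [pow_add]
    ring
  have h3 := (hasSum_nat_add_iff (f := fun n : ℕ => ((n.choose k : ℕ) : ℝ) * t ^ n) k).mp h2
  have h4 : ∑ i ∈ Finset.range k, ((i.choose k : ℕ) : ℝ) * t ^ i = 0 := by
    refine Finset.sum_eq_zero fun i hi => ?_
    rw [Nat.choose_eq_zero_of_lt (Finset.mem_range.mp hi)]
    simp
  rw [h4, add_zero, mul_one_div] at h3
  exact h3

theorem As1_up (k L : ℕ) : ((L : ℝ) + 1) ^ k ≤ (k.factorial : ℝ) * (((L + k).choose k : ℕ) : ℝ) := by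
  have h1 : (L + 1) ^ k ≤ (L + 1).ascFactorial k := Nat.pow_succ_le_ascFactorial _ _
  rw [Nat.ascFactorial_eq_factorial_mul_choose] at h1
  exact_mod_cast h1

theorem As1_low (k L : ℕ) : (k.factorial : ℝ) * ((L.choose k : ℕ) : ℝ) ≤ (L : ℝ) ^ k := by
  have h1 : L.descFactorial k ≤ L ^ k := Nat.descFactorial_le_pow _ _
  rw [Nat.descFactorial_eq_factorial_mul_choose] at h1
  exact_mod_cast h1

/-- row As1: real analysis -/
theorem real_asym (k : ℕ) : ∃ C : ℝ, 0 < C ∧ ∀ (a b K C' : ℝ), 0 ≤ a → 0 ≤ b → 0 ≤ K →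
    (∀ t : ℝ, 0 ≤ t → t < 1 → ∀ N : ℕ, ∑ L ∈ Finset.range N, (a * (L : ℝ) ^ (k + 1) - b * ((L : ℝ) + 1) ^ (k + 1)) * t ^ L ≤ K / (1 - t) ^ (k + 2) + C') →
      a ≤ C * (b + K) := by
  refine ⟨1, one_pos, ?_⟩
  intro a b K C' ha hb hK h
  have hF : (1 : ℝ) ≤ ((k + 1).factorial : ℝ) := by exact_mod_cast Nat.one_le_iff_ne_zero.mpr (Nat.factorial_ne_zero _)
  set F : ℝ := ((k + 1).factorial : ℝ) with hFd
  have key : ∀ t ∈ Set.Ico (0 : ℝ) 1, a * F * t ^ (k + 1) - b * F - K - C' * (1 - t) ^ (k + 2) ≤ 0 := by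
    intro t ht
    obtain ⟨ht0, ht1⟩ := ht
    have hs1 := (As1_hs2 (k + 1) ht0 ht1).mul_left (a * F)
    have hs2 := (As1_hs1 (k + 1) ht0 ht1).mul_left (b * F)
    have hs := hs1.sub hs2
    have hlim := hs.tendsto_sum_nat
    have hle : ∀ N : ℕ, ∑ L ∈ Finset.range N, (a * F * (((L.choose (k + 1) : ℕ) : ℝ) * t ^ L) - b * F * ((((L + (k + 1)).choose (k + 1) : ℕ) : ℝ) * t ^ L))
        ≤ K / (1 - t) ^ (k + 2) + C' := by
      intro N
      refine le_trans (Finset.sum_le_sum fun L _ => ?_) (h t ht0 ht1 N)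
      have h1 := As1_up (k + 1) L
      have h2 := As1_low (k + 1) L
      have htL : 0 ≤ t ^ L := pow_nonneg ht0 L
      have e1 : a * (F * ((L.choose (k + 1) : ℕ) : ℝ)) ≤ a * (L : ℝ) ^ (k + 1) := mul_le_mul_of_nonneg_left h2 ha
      have e2 : b * ((L : ℝ) + 1) ^ (k + 1) ≤ b * (F * (((L + (k + 1)).choose (k + 1) : ℕ) : ℝ)) := mul_le_mul_of_nonneg_left h1 hb
      have e3 : (a * (F * ((L.choose (k + 1) : ℕ) : ℝ)) - b * (F * (((L + (k + 1)).choose (k + 1) : ℕ) : ℝ))) * t ^ L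
          ≤ (a * (L : ℝ) ^ (k + 1) - b * ((L : ℝ) + 1) ^ (k + 1)) * t ^ L := mul_le_mul_of_nonneg_right (by linarith) htL
      refine le_trans (le_of_eq ?_) e3
      ring
    have hlim2 := le_of_tendsto' hlim hle
    have hpos : 0 < (1 - t) ^ (k + 2) := pow_pos (by linarith) _
    have h5 := mul_le_mul_of_nonneg_right hlim2 hpos.le
    have h6 : (a * F * (t ^ (k + 1) / (1 - t) ^ (k + 1 + 1)) - b * F * (1 / (1 - t) ^ (k + 1 + 1))) * (1 - t) ^ (k + 2) = a * F * t ^ (k + 1) - b * F := by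
      have : (1 - t) ^ (k + 1 + 1) ≠ 0 := hpos.ne'
      field_simp
    have h7 : (K / (1 - t) ^ (k + 2) + C') * (1 - t) ^ (k + 2) = K + C' * (1 - t) ^ (k + 2) := by
      have : (1 - t) ^ (k + 2) ≠ 0 := hpos.ne'
      field_simp
    rw [h6, h7] at h5
    linarith
  have hcl : IsClosed {t : ℝ | a * F * t ^ (k + 1) - b * F - K - C' * (1 - t) ^ (k + 2) ≤ 0} :=
    isClosed_le (by fun_prop) (by fun_prop)
  have h1 : (1 : ℝ) ∈ closure (Set.Ico (0 : ℝ) 1) := by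
    rw [closure_Ico (by norm_num)]
    exact ⟨by norm_num, le_refl _⟩
  have h2 := hcl.closure_subset_iff.mpr key h1
  have h3 : a * F * 1 ^ (k + 1) - b * F - K - C' * (1 - 1) ^ (k + 2) ≤ 0 := h2
  have h4 : (1 - 1 : ℝ) ^ (k + 2) = 0 := by simp
  rw [h4, one_pow] at h3
  have h5 : (a - b) * F ≤ K := by linarith
  by_cases hab : a ≤ b
  · linarith
  · have : (a - b) * 1 ≤ (a - b) * F := mul_le_mul_of_nonneg_left hF (by linarith)
    linarith

/-- growth of order `k+1` from `r(L) ≤ C (L+1)^k` -/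
theorem gr_of_le {J : Ideal (PQ m)} {k : ℕ} {C : ℝ} (h : ∀ L : ℕ, (rJ J L : ℝ) ≤ C * ((L : ℝ) + 1) ^ k) :
    ∀ t : ℝ, 0 ≤ t → t < 1 → (1 - t) ^ (k + 1) * PP J t ≤ C * k.factorial := by
  intro t ht0 ht1
  have hC : 0 ≤ C := by
    have h0 := h 0
    have h1 : (0 : ℝ) ≤ (rJ J 0 : ℝ) := Nat.cast_nonneg _
    simp at h0
    linarith
  have hs := (As1_hs1 k ht0 ht1).mul_left (C * k.factorial)
  have hle : ∀ L : ℕ, (rJ J L : ℝ) * t ^ L ≤ C * k.factorial * ((((L + k).choose k : ℕ) : ℝ) * t ^ L) := by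
    intro L
    have h1 := h L
    have h2 := mul_le_mul_of_nonneg_left (As1_up k L) hC
    have h3 := mul_le_mul_of_nonneg_right (h1.trans h2) (pow_nonneg ht0 L)
    refine h3.trans (le_of_eq ?_)
    ring
  have hsum : Summable fun L : ℕ => (rJ J L : ℝ) * t ^ L :=
    Summable.of_nonneg_of_le (fun L => mul_nonneg (Nat.cast_nonneg _) (pow_nonneg ht0 L)) hle hs.summable
  have hP : PP J t ≤ C * k.factorial * (1 / (1 - t) ^ (k + 1)) := by
    unfold PP
    rw [← hs.tsum_eq]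
    exact hsum.tsum_le_tsum hle hs.summable
  have hpos : 0 < (1 - t) ^ (k + 1) := pow_pos (by linarith) _
  have h5 := mul_le_mul_of_nonneg_left hP hpos.le
  refine h5.trans (le_of_eq ?_)
  have : (1 - t) ^ (k + 1) ≠ 0 := hpos.ne'
  field_simp





/-- row As2: the contradiction -/
theorem asym (θ : Fin m → ℂ) {k : ℕ} (I : Fin k → Fin m) (hinj : Function.Injective I) (hI : AlgebraicIndependent ℚ (fun i => θ (I i)))
    (ha : ∀ j, IsAlgebraic (IntermediateField.adjoin ℚ (Set.range fun i => θ (I i))) (θ j)) :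
    ∃ C : ℝ, 0 < C ∧ ∀ (τ kp w0 : ℝ), 0 ≤ τ → τ ≤ 1 → 0 ≤ kp → 0 ≤ w0 → Slope θ τ kp w0 (k + 1) → w0 * τ ^ (k + 1) ≤ C * (kp + 1) := by
  obtain ⟨C1, hC1, hr, hlow⟩ := lowerBd θ I hinj hI ha
  obtain ⟨C2, hC2, has⟩ := real_asym k
  have hkf : (0 : ℝ) < (k.factorial : ℝ) := by exact_mod_cast Nat.factorial_pos k
  refine ⟨C2 * (C1 + ((k : ℝ) + 1) * C1 * k.factorial + 1) * (2 ^ (k + 1) * k.factorial), by positivity, ?_⟩
  intro τ kp w0 hτ0 hτ1 hkp hw0 hS
  obtain ⟨C', hC'⟩ := hS w0 hw0 le_rfl (p0 θ) (p0_hi θ) ⟨C1 * k.factorial, gr_of_le hr⟩ 1 one_pos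
  -- the lower bound for chi
  have hchi : ∀ L : ℕ, w0 * (τ / 2) ^ (k + 1) / (k.factorial : ℝ) * (L : ℝ) ^ (k + 1) - C1 * ((L : ℝ) + 1) ^ (k + 1) ≤ chi θ w0 τ (p0 θ) L := by
    intro L
    refine le_of_forall_pos_le_add fun η hη => ?_
    have h1 := hlow w0 τ hw0 hτ0 hτ1 L _ (chi_adm θ hw0 hτ0 (p0 θ) L hη)
    have h2 : w0 * (τ / 2) ^ (k + 1) / (k.factorial : ℝ) * (L : ℝ) ^ (k + 1) = w0 * (τ * L / 2) ^ (k + 1) / (k.factorial : ℝ) := by
      rw [div_mul_eq_mul_div, mul_assoc, ← mul_pow]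
      congr 3
      ring
    rw [h2]
    exact h1
  have hmain : w0 * (τ / 2) ^ (k + 1) / (k.factorial : ℝ) ≤ C2 * (C1 + (kp * ((k : ℝ) + 1) * C1 * k.factorial + 1)) := by
    refine has _ C1 _ C' (by positivity) hC1.le (by positivity) ?_
    intro t ht0 ht1 N
    have h1t : (0 : ℝ) < 1 - t := by linarith
    have hsum1 : ∑ L ∈ Finset.range N, (w0 * (τ / 2) ^ (k + 1) / (k.factorial : ℝ) * (L : ℝ) ^ (k + 1) - C1 * ((L : ℝ) + 1) ^ (k + 1)) * t ^ L
        ≤ ∑ L ∈ Finset.range N, chi θ w0 τ (p0 θ) L * t ^ L :=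
      Finset.sum_le_sum fun L _ => mul_le_mul_of_nonneg_right (hchi L) (pow_nonneg ht0 L)
    have hsum2 : ∑ L ∈ Finset.range N, chi θ w0 τ (p0 θ) L * t ^ L ≤ XX θ w0 τ (p0 θ) t :=
      (xx_summable θ hw0 hτ0 (p0 θ) ht0 ht1).sum_le_tsum _ fun L _ => mul_nonneg (chi_nonneg _ _ _ _ _) (pow_nonneg ht0 L)
    have hpp : PP (p0 θ) t ≤ C1 * k.factorial / (1 - t) ^ (k + 1) := by
      rw [le_div_iff₀ (by positivity)]
      calc PP (p0 θ) t * (1 - t) ^ (k + 1) = (1 - t) ^ (k + 1) * PP (p0 θ) t := by ring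
        _ ≤ C1 * k.factorial := gr_of_le hr t ht0 ht1
    have h3 : kp * ((k + 1 : ℕ) : ℝ) * PP (p0 θ) t / (1 - t) ≤ kp * ((k : ℝ) + 1) * C1 * k.factorial / (1 - t) ^ (k + 2) := by
      have e1 : kp * ((k : ℝ) + 1) * C1 * k.factorial / (1 - t) ^ (k + 2) = kp * ((k + 1 : ℕ) : ℝ) * (C1 * k.factorial / (1 - t) ^ (k + 1)) / (1 - t) := by
        push_cast
        field_simp
        ring
      rw [e1]
      gcongr
    have h4 := hC' t ht0 ht1
    have e2 : (kp * ((k : ℝ) + 1) * C1 * k.factorial + 1) / (1 - t) ^ (k + 2) = kp * ((k : ℝ) + 1) * C1 * k.factorial / (1 - t) ^ (k + 2) + 1 / (1 - t) ^ (k + 1 + 1) := by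
      rw [add_div]
    rw [e2]
    linarith
  have h5 : w0 * τ ^ (k + 1) = w0 * (τ / 2) ^ (k + 1) / (k.factorial : ℝ) * (2 ^ (k + 1) * k.factorial) := by
    rw [div_pow]
    field_simp
  rw [h5]
  have h6 : C2 * (C1 + (kp * ((k : ℝ) + 1) * C1 * k.factorial + 1)) ≤ C2 * (C1 + ((k : ℝ) + 1) * C1 * k.factorial + 1) * (kp + 1) := by
    have h7 : 0 ≤ C2 * (C1 * kp + ((k : ℝ) + 1) * C1 * k.factorial + kp) := by positivity
    nlinarith [h7]
  calc w0 * (τ / 2) ^ (k + 1) / (k.factorial : ℝ) * (2 ^ (k + 1) * k.factorial)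
      ≤ C2 * (C1 + (kp * ((k : ℝ) + 1) * C1 * k.factorial + 1)) * (2 ^ (k + 1) * k.factorial) :=
        mul_le_mul_of_nonneg_right hmain (by positivity)
    _ ≤ (C2 * (C1 + ((k : ℝ) + 1) * C1 * k.factorial + 1) * (kp + 1)) * (2 ^ (k + 1) * k.factorial) :=
        mul_le_mul_of_nonneg_right h6 (by positivity)
    _ = C2 * (C1 + ((k : ℝ) + 1) * C1 * k.factorial + 1) * (2 ^ (k + 1) * k.factorial) * (kp + 1) := by ring



/-- the homogenized exponent -/
def At_e (T : ℕ) (d : Fin m →₀ ℕ) : Fin (m + 1) →₀ ℕ := Finsupp.cons (T - d.degree) d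

theorem At_inj (T : ℕ) : Function.Injective (At_e (m := m) T) := by
  intro d d' h
  have := congrArg Finsupp.tail h
  simpa [At_e, Finsupp.tail_cons] using this

theorem At_deg (T : ℕ) {d : Fin m →₀ ℕ} (hd : d.degree ≤ T) : (At_e T d).degree = T := by
  have h1 : (At_e T d).degree = (T - d.degree) + d.degree := by
    rw [At_e, Finsupp.degree_eq_sum, Finsupp.degree_eq_sum, Fin.sum_univ_succ]
    simp
  rw [h1]; omega

/-- homogenization to degree `T` -/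
def At_h (T : ℕ) (f : MvPolynomial (Fin m) ℤ) : PZ m := ∑ d ∈ f.support, monomial (At_e T d) (f.coeff d)

theorem At_coeff (T : ℕ) (f : MvPolynomial (Fin m) ℤ) (d : Fin m →₀ ℕ) : (At_h T f).coeff (At_e T d) = f.coeff d := by
  classical
  rw [At_h, coeff_sum]
  simp only [coeff_monomial]
  by_cases hd : d ∈ f.support
  · rw [Finset.sum_eq_single d]
    · simp
    · intro b _ hb
      rw [if_neg]
      exact fun h => hb (At_inj T h)
    · exact fun h => absurd hd h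
  · rw [notMem_support_iff.1 hd]
    refine Finset.sum_eq_zero fun b hb => ?_
    rw [if_neg]
    intro h
    rw [At_inj T h] at hb
    exact hd hb

theorem At_supp (T : ℕ) (f : MvPolynomial (Fin m) ℤ) : (At_h T f).support = f.support.image (At_e T) := by
  classical
  ext x
  constructor
  · intro hx
    rw [mem_support_iff, At_h, coeff_sum] at hx
    obtain ⟨d, hd, hne⟩ := Finset.exists_ne_zero_of_sum_ne_zero hx
    rw [coeff_monomial] at hne
    split_ifs at hne with h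
    · exact Finset.mem_image.2 ⟨d, hd, h⟩
    · exact absurd rfl hne
  · intro hx
    obtain ⟨d, hd, rfl⟩ := Finset.mem_image.1 hx
    rw [mem_support_iff, At_coeff]
    exact mem_support_iff.1 hd

theorem At_len (T : ℕ) (f : MvPolynomial (Fin m) ℤ) : len (At_h T f) = len f := by
  classical
  rw [len, At_supp, Finset.sum_image fun a _ b _ h => At_inj T h, len]
  refine Finset.sum_congr rfl fun d _ => ?_
  rw [At_coeff]

theorem At_hom (T : ℕ) {f : MvPolynomial (Fin m) ℤ} (hf : f.totalDegree ≤ T) : (At_h T f).IsHomogeneous T := by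
  refine IsHomogeneous.sum _ _ _ fun d hd => isHomogeneous_monomial _ (At_deg T ?_)
  refine le_trans ?_ hf
  have := le_totalDegree hd
  exact this

theorem At_ev (T : ℕ) (θ : Fin m → ℂ) (f : MvPolynomial (Fin m) ℤ) :
    MvPolynomial.aeval (Fin.cons 1 θ : Fin (m + 1) → ℂ) (At_h T f) = MvPolynomial.aeval θ f := by
  conv_rhs => rw [f.as_sum]
  rw [At_h, map_sum, map_sum]
  refine Finset.sum_congr rfl fun d _ => ?_
  rw [aeval_monomial, aeval_monomial, Finsupp.prod_fintype _ _ (fun _ => pow_zero _), Finsupp.prod_fintype _ _ (fun _ => pow_zero _),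
    Fin.prod_univ_succ]
  simp [At_e]

/-- row At: homogenization -/
theorem homog (k : ℕ) (θ : Fin m → ℂ) (ε c0 : ℝ) (T : ℕ) {ι κ : Type} [Fintype ι] [Fintype κ] (B : Matrix ι κ (MvPolynomial (Fin m) ℤ))
    (h : BadMat k θ ε c0 T B) : ∃ B' : Matrix ι κ (PZ m), HMat k θ ε c0 T B' := by
  have hev : evM (Fin.cons 1 θ : Fin (m + 1) → ℂ) (B.map (At_h T)) = evM θ B := by
    ext a b
    simp only [evM, Matrix.map_apply]
    exact At_ev T θ (B a b)
  refine ⟨B.map (At_h T), ⟨fun a b => At_hom T (h.deg a b), fun a b => ?_, h.cardr, h.cardc, ?_, ?_⟩⟩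
  · rw [Matrix.map_apply, At_len]; exact h.len a b
  · rw [hev]; exact h.ub
  · rw [hev]; exact h.lb



theorem Au_RR_mono {k' k : ℕ} (h : k' ≤ k) {ε T : ℝ} (hε : 0 < ε) (hT : 1 ≤ T) : RR k' ε T ≤ RR k ε T := by
  unfold RR
  apply Real.rpow_le_rpow_of_exponent_le hT
  have : (k' : ℝ) ≤ k := by exact_mod_cast h
  nlinarith

/-- row Au: the criterion -/
theorem thmA : ThmA := by
  intro m k θ htr ε c0 hε hε1 hc
  obtain ⟨k', I, hinj, hk', hI, ha⟩ := trbasis θ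
  have hkk : k' ≤ k := by
    rw [hk'] at htr
    exact_mod_cast htr
  obtain ⟨C, hC, hasym⟩ := asym θ I hinj hI ha
  obtain ⟨T1, hT1⟩ := matL m k' θ hε hε1 hc
  have htend : Filter.Tendsto (fun T : ℕ => (T : ℝ) ^ (30 * ε)) Filter.atTop Filter.atTop :=
    (tendsto_rpow_atTop (by positivity)).comp tendsto_natCast_atTop_atTop
  obtain ⟨T2, hT2⟩ := Filter.eventually_atTop.mp (htend.eventually_gt_atTop (2 * C))
  refine ⟨max (max T1 T2) 1, fun T hT ι κ _ _ B hB => ?_⟩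
  have hTa : T1 ≤ T := (le_max_left _ _).trans ((le_max_left _ _).trans hT)
  have hTb : T2 ≤ T := (le_max_right _ _).trans ((le_max_left _ _).trans hT)
  have hTc : 1 ≤ T := (le_max_right _ _).trans hT
  have hT' : (1 : ℝ) ≤ T := by exact_mod_cast hTc
  have hT0 : (0 : ℝ) < T := by linarith
  obtain ⟨B', hB'⟩ := homog k θ ε c0 T B hB
  have hR := Au_RR_mono hkk hε hT'
  have hmono : HMat k' θ ε c0 T B' :=
    { deg := hB'.deg
      len := hB'.len
      cardr := hB'.cardr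
      cardc := hB'.cardc
      ub := fun j h1 h2 => hB'.ub j h1 (h2.trans hR)
      lb := fun j h1 h2 => hB'.lb j h1 (h2.trans hR) }
  have hM := hT1 T hTa ι κ B' hmono
  have hτ0 : 0 ≤ tau ε T := Real.rpow_nonneg hT0.le _
  have hτ1 : tau ε T ≤ 1 := Real.rpow_le_one_of_one_le_of_nonpos hT' (by linarith)
  have hk0 : 0 ≤ kap ε T := Real.rpow_nonneg hT0.le _
  have hs := slope_all θ hτ0 hτ1 hk0 hM (k' + 1)
  have h := hasym (tau ε T) (kap ε T) (RR k' ε T ^ 2) hτ0 hτ1 hk0 (by positivity) hs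
  have e1 : RR k' ε T ^ 2 * tau ε T ^ (k' + 1) =
      (T : ℝ) ^ (20 * ((k' : ℝ) + 2) * ε - 4 * ((k' : ℝ) + 1) * ε) := by
    unfold RR tau
    rw [← Real.rpow_natCast, ← Real.rpow_natCast, ← Real.rpow_mul hT0.le, ← Real.rpow_mul hT0.le,
      ← Real.rpow_add hT0]
    congr 1
    push_cast
    ring
  rw [e1] at h
  have h2 : (T : ℝ) ^ (30 * ε) * (T : ℝ) ^ (2 * ε) ≤
      (T : ℝ) ^ (20 * ((k' : ℝ) + 2) * ε - 4 * ((k' : ℝ) + 1) * ε) := by
    rw [← Real.rpow_add hT0]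
    apply Real.rpow_le_rpow_of_exponent_le hT'
    have : (0 : ℝ) ≤ k' := Nat.cast_nonneg _
    nlinarith [mul_nonneg this hε.le]
  have h3 : kap ε T + 1 ≤ 2 * (T : ℝ) ^ (2 * ε) := by
    unfold kap
    have : 1 ≤ (T : ℝ) ^ (2 * ε) := Real.one_le_rpow hT' (by positivity)
    linarith
  have h4 : 0 < (T : ℝ) ^ (2 * ε) := Real.rpow_pos_of_pos hT0 _
  have h5 := hT2 T hTb
  have h6 : (T : ℝ) ^ (30 * ε) * (T : ℝ) ^ (2 * ε) ≤ (2 * C) * (T : ℝ) ^ (2 * ε) := by
    calc _ ≤ _ := h2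
      _ ≤ C * (kap ε T + 1) := h
      _ ≤ C * (2 * (T : ℝ) ^ (2 * ε)) := mul_le_mul_of_nonneg_left h3 hC.le
      _ = _ := by ring
  have h7 := le_of_mul_le_mul_right h6 h4
  linarith


end Pool.Agent.LT

end
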