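import Mathlib
import Pool.Agent.Lib.MP_f58a57_nt.LK.K007
import Pool.Agent.Lib.MP_f58a57_nt.LK.K008
import Pool.Agent.Lib.MP_f58a57_nt.LK.K009
import Pool.Agent.Lib.MP_f58a57_nt.LK.K010

namespace Pool.Agent.LT.R10_
end Pool.Agent.LT.R10_

section

/-! # A0e: closure properties of modular forms (MP_f58a57_nt) -/

open Complex ModularForm EisensteinSeries Filter
open UpperHalfPlane hiding I
open scoped Topology MatrixGroups

noncomputable section

namespace Pool.Agent.MSD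

/-- A0e. Closure properties of `IsMF`. -/
theorem IsMF.add {k : ℕ} {f g : ℂ → ℂ} (hf : IsMF k f) (hg : IsMF k g) : IsMF k (fun z => f z + g z) := by
  obtain ⟨C, hC⟩ := hf.bdd
  obtain ⟨D, hD⟩ := hg.bdd
  refine ⟨hf.diff.add hg.diff, ?_, ?_, ⟨C + D, ?_⟩⟩
  · intro z hz
    simp only [hf.per z hz, hg.per z hz]
  · intro z hz
    simp only [hf.inv z hz, hg.inv z hz]
    ring
  · intro z hz
    exact (norm_add_le _ _).trans (add_le_add (hC z hz) (hD z hz))

theorem IsMF.const_mul {k : ℕ} {f : ℂ → ℂ} (hf : IsMF k f) (c : ℂ) : IsMF k (fun z => c * f z) := by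
  obtain ⟨C, hC⟩ := hf.bdd
  refine ⟨hf.diff.const_mul c, ?_, ?_, ⟨‖c‖ * C, ?_⟩⟩
  · intro z hz
    simp only [hf.per z hz]
  · intro z hz
    simp only [hf.inv z hz]
    ring
  · intro z hz
    rw [norm_mul]
    exact mul_le_mul_of_nonneg_left (hC z hz) (norm_nonneg c)

theorem IsMF.mul {k l : ℕ} {f g : ℂ → ℂ} (hf : IsMF k f) (hg : IsMF l g) :
    IsMF (k + l) (fun z => f z * g z) := by
  obtain ⟨C, hC⟩ := hf.bdd
  obtain ⟨D, hD⟩ := hg.bdd
  refine ⟨hf.diff.mul hg.diff, ?_, ?_, ⟨C * D, ?_⟩⟩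
  · intro z hz
    simp only [hf.per z hz, hg.per z hz]
  · intro z hz
    simp only [hf.inv z hz, hg.inv z hz, pow_add]
    ring
  · intro z hz
    rw [norm_mul]
    exact mul_le_mul (hC z hz) (hD z hz) (norm_nonneg _) ((norm_nonneg _).trans (hC z hz))

theorem IsMF.pow {k : ℕ} {f : ℂ → ℂ} (hf : IsMF k f) (n : ℕ) : IsMF (k * n) (fun z => f z ^ n) := by
  induction n with
  | zero =>
    refine ⟨?_, ?_, ?_, ⟨1, ?_⟩⟩
    · simp only [pow_zero]
      exact differentiableOn_const 1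
    · intro z hz
      simp
    · intro z hz
      simp
    · intro z hz
      simp
  | succ n ih =>
    have h := ih.mul hf
    have e1 : k * n + k = k * (n + 1) := by ring
    rw [e1] at h
    have e2 : (fun z => f z ^ n * f z) = fun z => f z ^ (n + 1) := by
      funext z
      rw [pow_succ]
    rw [e2] at h
    exact h

end Pool.Agent.MSD
end

end

section

/-! # A0: elementary rules for q-expansions and modular forms (MP_f58a57_nt) -/

open Complex ModularForm EisensteinSeries Filter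
open UpperHalfPlane hiding I
open scoped Topology MatrixGroups

noncomputable section

namespace Pool.Agent.MSD

theorem A0Q_norm_qq (z : ℂ) : ‖qq z‖ = Real.exp (-(2 * Real.pi * z.im)) := by
  unfold qq
  rw [Complex.norm_exp]
  congr 1
  simp [Complex.mul_re, Complex.mul_im]

/-- A0a. `qq` has absolute value less than one on the upper half plane, is periodic, ... -/
theorem norm_qq_lt_one (z : ℂ) (hz : 0 < z.im) : ‖qq z‖ < 1 := by
  rw [A0Q_norm_qq, Real.exp_lt_one_iff]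
  have := Real.pi_pos
  have h : 0 < 2 * Real.pi * z.im := by positivity
  linarith

theorem A0Q_exists_qq (q : ℂ) (h0 : q ≠ 0) (h1 : ‖q‖ < 1) : ∃ z : ℂ, 0 < z.im ∧ qq z = q := by
  have hpi : (Real.pi : ℂ) ≠ 0 := Complex.ofReal_ne_zero.2 Real.pi_ne_zero
  refine ⟨Complex.log q / (2 * Real.pi * I), ?_, ?_⟩
  · have h2 : Complex.log q / (2 * Real.pi * I) = -(Complex.log q * I) * ((1 / (2 * Real.pi) : ℝ) : ℂ) := by
      push_cast
      field_simp
      rw [Complex.I_sq]
      ring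
    rw [h2, Complex.im_mul_ofReal]
    simp only [Complex.neg_im, Complex.mul_im, Complex.I_im, Complex.I_re, mul_one, mul_zero,
      add_zero, Complex.log_re]
    have h3 : Real.log ‖q‖ < 0 := Real.log_neg (norm_pos_iff.2 h0) h1
    have := Real.pi_pos
    have h4 : 0 < 1 / (2 * Real.pi) := by positivity
    exact mul_pos (by linarith) h4
  · unfold qq
    rw [mul_div_cancel₀]
    · exact Complex.exp_log h0
    · simp [hpi, Complex.I_ne_zero]

/-- A0b. The `q`-expansion is unique (identity theorem for power series at `q → 0`). -/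
theorem QExp.unique {c c' : ℕ → ℤ} {f : ℂ → ℂ} (h : QExp c f) (h' : QExp c' f) : c = c' := by
  classical
  set d : ℕ → ℂ := fun n => (c n : ℂ) - c' n with hd
  set p : FormalMultilinearSeries ℂ ℂ ℂ := FormalMultilinearSeries.ofScalars ℂ d with hp
  have hcoeff : ∀ n, p.coeff n = d n := by
    intro n
    rw [hp, FormalMultilinearSeries.coeff_ofScalars]
  set g : ℂ → ℂ := fun q => if q = 0 then d 0 else 0 with hg
  have key : ∀ q : ℂ, q ≠ 0 → ‖q‖ < 1 → HasSum (fun n => d n * q ^ n) 0 := by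
    intro q hq0 hq1
    obtain ⟨z, hz, rfl⟩ := A0Q_exists_qq q hq0 hq1
    have h1 := (h z hz).sub (h' z hz)
    rw [sub_self] at h1
    refine h1.congr_fun ?_
    intro n
    simp only [hd]
    ring
  have hps : HasFPowerSeriesAt g p 0 := by
    rw [hasFPowerSeriesAt_iff]
    have hev : ∀ᶠ z : ℂ in 𝓝 0, ‖z‖ < 1 := by
      have : Metric.ball (0 : ℂ) 1 ∈ 𝓝 (0 : ℂ) := Metric.ball_mem_nhds _ one_pos
      filter_upwards [this] with z hz
      simpa using hz
    filter_upwards [hev] with z hz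
    by_cases hz0 : z = 0
    · subst hz0
      have h2 : g (0 + 0) = d 0 := by simp [hg]
      rw [h2]
      have h3 := hasSum_single (f := fun n => (0 : ℂ) ^ n • p.coeff n) 0 (by
        intro n hn
        simp [hn])
      simpa [hcoeff] using h3
    · have h2 : g (0 + z) = 0 := by simp [hg, hz0]
      rw [h2]
      refine (key z hz0 hz).congr_fun ?_
      intro n
      rw [hcoeff, smul_eq_mul, mul_comm]
  have hg0 : g = 0 := by
    have hc := hps.continuousAt
    have hd0 : d 0 = 0 := by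
      have h4 : Tendsto g (𝓝[≠] 0) (𝓝 (g 0)) := hc.tendsto.mono_left nhdsWithin_le_nhds
      have h5 : Tendsto g (𝓝[≠] 0) (𝓝 0) := by
        refine tendsto_const_nhds.congr' ?_
        filter_upwards [self_mem_nhdsWithin] with z hz
        have hz' : z ≠ 0 := hz
        simp [hg, hz']
      have h6 := tendsto_nhds_unique h4 h5
      simpa [hg] using h6
    funext q
    simp [hg, hd0]
  rw [hg0] at hps
  have hp0 := hps.eq_zero
  funext n
  have h7 := hcoeff n
  rw [hp0] at h7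
  have h8 : d n = 0 := by
    rw [← h7]
    simp [FormalMultilinearSeries.coeff]
  have h9 : (c n : ℂ) = c' n := sub_eq_zero.1 h8
  exact_mod_cast h9

/-- A0c. Sums and Cauchy products of `q`-expansions. -/
theorem QExp.add {c c' : ℕ → ℤ} {f g : ℂ → ℂ} (h : QExp c f) (h' : QExp c' g) :
    QExp (fun n => c n + c' n) (fun z => f z + g z) := by
  intro z hz
  refine ((h z hz).add (h' z hz)).congr_fun ?_
  intro n
  push_cast
  ring

theorem QExp.const_mul {c : ℕ → ℤ} {f : ℂ → ℂ} (h : QExp c f) (m : ℤ) :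
    QExp (fun n => m * c n) (fun z => m * f z) := by
  intro z hz
  refine ((h z hz).mul_left (m : ℂ)).congr_fun ?_
  intro n
  push_cast
  ring

theorem QExp.mul {c c' : ℕ → ℤ} {f g : ℂ → ℂ} (h : QExp c f) (h' : QExp c' g) :
    QExp (fun n => ∑ p ∈ Finset.HasAntidiagonal.antidiagonal n, c p.1 * c' p.2) (fun z => f z * g z) := by
  intro z hz
  have h1 := (h z hz).summable.norm
  have h2 := (h' z hz).summable.norm
  have h3 := (summable_norm_sum_mul_antidiagonal_of_summable_norm h1 h2).of_norm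
  have h4 := tsum_mul_tsum_eq_tsum_sum_antidiagonal_of_summable_norm h1 h2
  have h5 := h3.hasSum
  rw [← h4, (h z hz).tsum_eq, (h' z hz).tsum_eq] at h5
  refine h5.congr_fun ?_
  intro n
  push_cast
  rw [Finset.sum_mul]
  refine Finset.sum_congr rfl ?_
  rintro ⟨i, j⟩ hij
  rw [Finset.HasAntidiagonal.mem_antidiagonal] at hij
  simp only at hij ⊢
  rw [← hij, pow_add]
  ring

theorem A0Q_norm_le (z : ℂ) (hz : 1 ≤ z.im) : ‖qq z‖ ≤ ‖qq I‖ := by
  rw [A0Q_norm_qq, A0Q_norm_qq, Real.exp_le_exp]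
  have := Real.pi_pos
  simp only [Complex.I_im]
  nlinarith

/-- A0d. A `q`-expansion gives boundedness for `Im z ≥ 1`, and the limit `c 0` at `i∞`. -/
theorem QExp.bdd {c : ℕ → ℤ} {f : ℂ → ℂ} (h : QExp c f) : ∃ C : ℝ, ∀ z : ℂ, 1 ≤ z.im → ‖f z‖ ≤ C := by
  have h1 := (h I (by simp)).summable.norm
  refine ⟨∑' n, ‖(c n : ℂ) * qq I ^ n‖, ?_⟩
  intro z hz
  have hz0 : 0 < z.im := by linarith
  have h2 := (h z hz0).summable.norm
  rw [← (h z hz0).tsum_eq]
  refine (norm_tsum_le_tsum_norm h2).trans ?_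
  refine h2.tsum_le_tsum (fun n => ?_) h1
  rw [norm_mul, norm_mul, norm_pow, norm_pow]
  exact mul_le_mul_of_nonneg_left (pow_le_pow_left₀ (norm_nonneg _) (A0Q_norm_le z hz) n)
    (norm_nonneg _)

theorem QExp.tendsto {c : ℕ → ℤ} {f : ℂ → ℂ} (h : QExp c f) :
    Tendsto (fun y : ℝ => f (I * y)) atTop (𝓝 (c 0 : ℂ)) := by
  have h1 := (h I (by simp)).summable.norm
  have h2 : Tendsto (fun y : ℝ => ∑' n, (c n : ℂ) * qq (I * y) ^ n) atTop
      (𝓝 (∑' n, if n = 0 then (c 0 : ℂ) else 0)) := by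
    refine tendsto_tsum_of_dominated_convergence h1 ?_ ?_
    · intro n
      by_cases hn : n = 0
      · subst hn
        simp
      · simp only [hn, if_false]
        have h3 : Tendsto (fun y : ℝ => qq (I * y)) atTop (𝓝 0) := by
          rw [tendsto_zero_iff_norm_tendsto_zero]
          have h4 : (fun y : ℝ => ‖qq (I * y)‖) = fun y : ℝ => Real.exp (-(2 * Real.pi * y)) := by
            funext y
            rw [A0Q_norm_qq]
            simp
          rw [h4]
          refine Real.tendsto_exp_atBot.comp ?_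
          rw [tendsto_neg_atBot_iff]
          exact tendsto_id.const_mul_atTop (by positivity)
        have h5 := (h3.pow n).const_mul (c n : ℂ)
        rw [zero_pow hn, mul_zero] at h5
        exact h5
    · filter_upwards [eventually_ge_atTop (1 : ℝ)] with y hy n
      rw [norm_mul, norm_mul, norm_pow, norm_pow]
      refine mul_le_mul_of_nonneg_left (pow_le_pow_left₀ (norm_nonneg _) (A0Q_norm_le _ ?_) n)
        (norm_nonneg _)
      simpa using hy
  rw [tsum_ite_eq] at h2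
  refine h2.congr' ?_
  filter_upwards [eventually_gt_atTop (0 : ℝ)] with y hy
  exact (h (I * y) (by simpa using hy)).tsum_eq

end Pool.Agent.MSD
end

end

section

/-! # A2: modular transformation laws (MP_f58a57_nt) -/

open Complex ModularForm EisensteinSeries Filter
open UpperHalfPlane hiding I
open scoped Topology MatrixGroups

noncomputable section

namespace Pool.Agent.MSD

/-- the matrix and the point -/
theorem a2t_setup (a b c d : ℤ) (h : a * d - b * c = 1) (z : ℂ) (hz : 0 < z.im) :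
    ∃ (γ : SL(2, ℤ)) (τ : ℍ), ofComplex z = τ ∧ (τ : ℂ) = z ∧
      ofComplex ((a * z + b) / (c * z + d)) = γ • τ ∧ denom γ τ = c * z + d ∧ γ 1 0 = c := by
  let γ : SL(2, ℤ) := ⟨!![a, b; c, d], by rw [Matrix.det_fin_two_of]; exact h⟩
  let τ : ℍ := ⟨z, hz⟩
  have h1 : ((γ • τ : ℍ) : ℂ) = (a * z + b) / (c * z + d) := by
    rw [coe_specialLinearGroup_apply]
    simp [γ, τ]
  refine ⟨γ, τ, ofComplex_apply_of_im_pos hz, rfl, ?_, ?_, rfl⟩
  · rw [← h1]
    exact ofComplex_apply (γ • τ)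
  · rw [ModularGroup.denom_apply]
    simp [γ, τ]

/-- A2a. The transformation laws under `(a b; c d) ∈ SL₂(ℤ)`. For `e4`, `e6` from the slash invariance of Mathlib's `E₄`, `E₆`
(`SlashInvariantForm.slash_action_eqn''` or similar), for `e2` from `EisensteinSeries.E2_slash_action` and `riemannZeta_two`. -/
theorem e4_transform (a b c d : ℤ) (h : a * d - b * c = 1) (z : ℂ) (hz : 0 < z.im) :
    e4 ((a * z + b) / (c * z + d)) = (c * z + d) ^ 4 * e4 z := by
  obtain ⟨γ, τ, h1, h2, h3, h4, h5⟩ := a2t_setup a b c d h z hz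
  have h6 := SlashInvariantForm.slash_action_eqn'' (Γ := 𝒮ℒ) E₄
    (γ := (γ : GL (Fin 2) ℝ)) (MonoidHom.mem_range.mpr ⟨γ, rfl⟩) τ
  unfold e4
  rw [h3, h1]
  rw [← h4]
  exact_mod_cast h6

theorem e6_transform (a b c d : ℤ) (h : a * d - b * c = 1) (z : ℂ) (hz : 0 < z.im) :
    e6 ((a * z + b) / (c * z + d)) = (c * z + d) ^ 6 * e6 z := by
  obtain ⟨γ, τ, h1, h2, h3, h4, h5⟩ := a2t_setup a b c d h z hz
  have h6 := SlashInvariantForm.slash_action_eqn'' (Γ := 𝒮ℒ) E₆
    (γ := (γ : GL (Fin 2) ℝ)) (MonoidHom.mem_range.mpr ⟨γ, rfl⟩) τ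
  unfold e6
  rw [h3, h1]
  rw [← h4]
  exact_mod_cast h6

theorem e2_transform (a b c d : ℤ) (h : a * d - b * c = 1) (z : ℂ) (hz : 0 < z.im) :
    e2 ((a * z + b) / (c * z + d)) = (c * z + d) ^ 2 * e2 z - 6 * I * c / Real.pi * (c * z + d) := by
  obtain ⟨γ, τ, h1, h2, h3, h4, h5⟩ := a2t_setup a b c d h z hz
  have h6 := congrFun (E2_slash_action γ) τ
  have h7 : denom γ τ ≠ 0 := denom_ne_zero γ τ
  have hpi : (Real.pi : ℂ) ≠ 0 := by exact_mod_cast Real.pi_ne_zero
  rw [SL_slash_apply] at h6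
  simp only [Pi.sub_apply, Pi.smul_apply, D2, riemannZeta_two, smul_eq_mul, h5] at h6
  unfold e2
  rw [h3, h1]
  rw [h4] at h6 h7
  have h8 : ((c : ℂ) * z + d) ^ (-2 : ℤ) = ((c * z + d) ^ 2)⁻¹ := by
    rw [zpow_neg]; norm_cast
  rw [h8, ← div_eq_mul_inv, div_eq_iff (pow_ne_zero 2 h7)] at h6
  rw [h6]
  field_simp

end Pool.Agent.MSD
end

end

section

/-!
# MP_f58a57_nt, large transcendence degree, part C (row lt-C-V1)

One variable: for an entire function of real period d the integral over [w, w+d] does not depend on w in C (the derivative in w is f(w+d) - f(w) = 0).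
-/

open Complex Matrix MeasureTheory

noncomputable section

namespace Pool.Agent.LT

variable {c : ℕ}

theorem per_shift {f : ℂ → ℂ} (hf : Differentiable ℂ f) {d : ℝ} (hp : ∀ x : ℂ, f (x + d) = f x) (w : ℂ) :
    ∫ x in (0 : ℝ)..d, f (x + w) = ∫ x in (0 : ℝ)..d, f x := by
  have h1 := Complex.integral_boundary_rect_eq_zero_of_differentiableOn f 0 ((d : ℂ) + (w.im : ℂ) * I)
    hf.differentiableOn
  have e1 : ((d : ℂ) + (w.im : ℂ) * I).re = d := by simp
  have e2 : ((d : ℂ) + (w.im : ℂ) * I).im = w.im := by simp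
  rw [e1, e2] at h1
  have h2 : (∫ y in (0 : ℂ).im..w.im, f ((d : ℂ) + (y : ℂ) * I)) =
      ∫ y in (0 : ℂ).im..w.im, f (((0 : ℂ).re : ℂ) + (y : ℂ) * I) := by
    refine intervalIntegral.integral_congr ?_
    intro y _
    have h3 := hp (((0 : ℂ).re : ℂ) + (y : ℂ) * I)
    show f ((d : ℂ) + (y : ℂ) * I) = f (((0 : ℂ).re : ℂ) + (y : ℂ) * I)
    rw [← h3]
    congr 1
    simp
    ring
  rw [h2] at h1
  have h4 : (∫ x in (0 : ℝ)..d, f ((x : ℂ) + (w.im : ℂ) * I)) = ∫ x in (0 : ℝ)..d, f x := by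
    have h5 : (∫ x in (0 : ℂ).re..d, f ((x : ℂ) + ((0 : ℂ).im : ℂ) * I)) = ∫ x in (0 : ℝ)..d, f x := by
      simp
    have h6 : (∫ x in (0 : ℂ).re..d, f ((x : ℂ) + (w.im : ℂ) * I)) =
        ∫ x in (0 : ℝ)..d, f ((x : ℂ) + (w.im : ℂ) * I) := by
      simp
    rw [h5, h6] at h1
    have h7 : (∫ x in (0 : ℝ)..d, f x) - (∫ x in (0 : ℝ)..d, f ((x : ℂ) + (w.im : ℂ) * I)) = 0 := by
      rw [← h1]
      ring
    exact (sub_eq_zero.1 h7).symm
  rw [← h4]
  have hg : Function.Periodic (fun x : ℝ => f ((x : ℂ) + (w.im : ℂ) * I)) d := by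
    intro x
    show f (((x + d : ℝ) : ℂ) + (w.im : ℂ) * I) = f ((x : ℂ) + (w.im : ℂ) * I)
    rw [← hp ((x : ℂ) + (w.im : ℂ) * I)]
    congr 1
    push_cast
    ring
  have h8 := hg.intervalIntegral_add_eq w.re 0
  rw [zero_add] at h8
  rw [← h8]
  have h9 := intervalIntegral.integral_comp_add_right (a := 0) (b := d)
    (fun x : ℝ => f ((x : ℂ) + (w.im : ℂ) * I)) w.re
  rw [zero_add, add_comm d w.re] at h9
  rw [← h9]
  refine intervalIntegral.integral_congr ?_
  intro x _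
  show f ((x : ℂ) + w) = f (((x + w.re : ℝ) : ℂ) + (w.im : ℂ) * I)
  congr 1
  push_cast
  rw [add_assoc, Complex.re_add_im]

end Pool.Agent.LT
end

end

section

/-!
# MP_f58a57_nt, large transcendence degree, part C (row lt-C-V2)

One variable: Fourier series at 0 of a smooth function of period d (Mathlib: hasSum_fourier_series_apply_of_summable on AddCircle d).
-/

open Complex Matrix MeasureTheory

noncomputable section

namespace Pool.Agent.LT

variable {c : ℕ}

theorem fourier_zero {f : ℂ → ℂ} (hf : Differentiable ℂ f) {d : ℝ} (hd : 0 < d) (hp : ∀ x : ℂ, f (x + d) = f x)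
    (hs : Summable (fun κ : ℤ => (d : ℂ)⁻¹ * ∫ x in (0 : ℝ)..d, f x * ee (-(κ * x / d)))) :
    HasSum (fun κ : ℤ => (d : ℂ)⁻¹ * ∫ x in (0 : ℝ)..d, f x * ee (-(κ * x / d))) (f 0) := by
  have : Fact (0 < d) := ⟨hd⟩
  have hper : Function.Periodic (fun x : ℝ => f (x : ℂ)) d := by
    intro x
    change f ((x + d : ℝ) : ℂ) = f x
    rw [Complex.ofReal_add]
    exact hp x
  have hcont : Continuous (fun x : ℝ => f (x : ℂ)) := hf.continuous.comp Complex.continuous_ofReal
  let F : C(AddCircle d, ℂ) := ⟨hper.lift, continuous_coinduced_dom.mpr hcont⟩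
  have hF : ∀ x : ℝ, F (x : AddCircle d) = f x := fun x => rfl
  have hco : ∀ κ : ℤ, fourierCoeff F κ = (d : ℂ)⁻¹ * ∫ x in (0 : ℝ)..d, f x * ee (-(κ * x / d)) := by
    intro κ
    rw [fourierCoeff_eq_intervalIntegral _ κ 0, zero_add, Complex.real_smul]
    congr 1
    · push_cast
      rw [one_div]
    · apply intervalIntegral.integral_congr
      intro x _
      change (fourier (-κ) (x : AddCircle d)) • F (x : AddCircle d) = f x * ee (-(κ * x / d))
      rw [hF, fourier_coe_apply, smul_eq_mul, mul_comm]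
      unfold ee
      congr 2
      push_cast
      ring
  have hs' : Summable (fourierCoeff F) := by
    have : (fourierCoeff F : ℤ → ℂ) = fun κ : ℤ => (d : ℂ)⁻¹ * ∫ x in (0 : ℝ)..d, f x * ee (-(κ * x / d)) :=
      funext hco
    rw [this]
    exact hs
  have h := has_pointwise_sum_fourier_series_of_summable hs' ((0 : ℝ) : AddCircle d)
  rw [hF, Complex.ofReal_zero] at h
  have he : (fun κ : ℤ => fourierCoeff F κ • (fourier κ) ((0 : ℝ) : AddCircle d)) =
      fun κ : ℤ => (d : ℂ)⁻¹ * ∫ x in (0 : ℝ)..d, f x * ee (-(κ * x / d)) := by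
    funext κ
    rw [hco, fourier_coe_apply, Complex.ofReal_zero, mul_zero, zero_div, Complex.exp_zero,
      smul_eq_mul, mul_one]
  rw [he] at h
  exact h

end Pool.Agent.LT
end

end

section

/-! # A1d: the q-expansion of the discriminant (MP_f58a57_nt) -/

open Complex ModularForm EisensteinSeries Filter
open UpperHalfPlane hiding I
open scoped Topology MatrixGroups

noncomputable section

namespace Pool.Agent.MSD

theorem a1d_of (z : ℂ) (hz : 0 < z.im) : ((ofComplex z : ℍ) : ℂ) = z := by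
  rw [ofComplex_apply_of_im_pos hz]

/-- the `q`-series of `σ_k` -/
def a1dS (k : ℕ) (z : ℂ) : ℂ := ∑' n : ℕ, (ArithmeticFunction.sigma k n : ℂ) * qq z ^ n

theorem a1d_summable (k : ℕ) (z : ℂ) (hz : 0 < z.im) :
    Summable fun n : ℕ => (ArithmeticFunction.sigma k n : ℂ) * qq z ^ n := by
  have h := EisensteinSeries.summable_sigma_mul_cexp_pow (k := k + 1) (by omega) (ofComplex z)
  rw [a1d_of z hz] at h
  simpa [qq] using h

theorem a1d_qexp (k : ℕ) : QExp (fun n => (ArithmeticFunction.sigma k n : ℤ)) (a1dS k) := by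
  intro z hz
  have h := (a1d_summable k z hz).hasSum
  simpa [a1dS] using h

theorem a1d_pnat (k : ℕ) (z : ℂ) (hz : 0 < z.im) :
    ∑' n : ℕ+, (ArithmeticFunction.sigma k n : ℂ) * cexp (2 * Real.pi * I * z) ^ (n : ℤ) = a1dS k z := by
  have h1 : ∀ n : ℕ+, (ArithmeticFunction.sigma k n : ℂ) * cexp (2 * Real.pi * I * z) ^ (n : ℤ)
      = (fun m : ℕ => (ArithmeticFunction.sigma k m : ℂ) * qq z ^ m) n := by
    intro n
    simp [qq, zpow_natCast]
  simp_rw [h1]
  rw [tsum_pnat_eq_tsum_succ (f := fun m : ℕ => (ArithmeticFunction.sigma k m : ℂ) * qq z ^ m)]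
  rw [a1dS, (a1d_summable k z hz).tsum_eq_zero_add]
  simp

theorem a1d_e4 (z : ℂ) (hz : 0 < z.im) : e4 z = 1 + 240 * a1dS 3 z := by
  have h := EisensteinSeries.q_expansion_bernoulli (k := 4) (by norm_num) ⟨2, rfl⟩ (ofComplex z)
  rw [a1d_of z hz] at h
  have h2 := a1d_pnat 3 z hz
  simp only [show (4 - 1 : ℕ) = 3 from rfl] at h
  rw [h2] at h
  rw [e4]
  refine h.trans ?_
  rw [show bernoulli 4 = -1 / 30 by decide +kernel]
  push_cast
  ring

theorem a1d_e6 (z : ℂ) (hz : 0 < z.im) : e6 z = 1 - 504 * a1dS 5 z := by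
  have h := EisensteinSeries.q_expansion_bernoulli (k := 6) (by norm_num) ⟨3, rfl⟩ (ofComplex z)
  rw [a1d_of z hz] at h
  have h2 := a1d_pnat 5 z hz
  simp only [show (6 - 1 : ℕ) = 5 from rfl] at h
  rw [h2] at h
  rw [e6]
  refine h.trans ?_
  rw [show bernoulli 6 = 1 / 42 by decide +kernel]
  push_cast
  ring

theorem a1d_dvd (n : ℕ) : (12 : ℤ) ∣ 5 * (ArithmeticFunction.sigma 3 n : ℤ) + 7 * (ArithmeticFunction.sigma 5 n : ℤ) := by
  have h : (5 * (ArithmeticFunction.sigma 3 n : ℤ) + 7 * (ArithmeticFunction.sigma 5 n : ℤ))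
      = ∑ d ∈ n.divisors, (5 * (d : ℤ) ^ 3 + 7 * (d : ℤ) ^ 5) := by
    rw [ArithmeticFunction.sigma_apply, ArithmeticFunction.sigma_apply]
    push_cast
    rw [Finset.sum_add_distrib, Finset.mul_sum, Finset.mul_sum]
  rw [h]
  refine Finset.dvd_sum fun d _ => ?_
  have h3 : ∀ x : ZMod 12, 5 * x ^ 3 + 7 * x ^ 5 = 0 := by decide
  have h4 := h3 (d : ZMod 12)
  refine (ZMod.intCast_zmod_eq_zero_iff_dvd _ 12).1 ?_
  push_cast
  exact h4

theorem a1d_congr {c : ℕ → ℤ} {f g : ℂ → ℂ} (h : QExp c f) (hfg : ∀ z : ℂ, 0 < z.im → g z = f z) :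
    QExp c g := by
  intro z hz
  rw [hfg z hz]
  exact h z hz

/-- A1d. `dl = (e4³ - e6²)/1728`: with `e4 = 1 + 240 A`, `e6 = 1 - 504 B`:
`e4³ - e6² = 144 (5A + 7B) + 1728 (100 A² + 8000 A³ - 147 B²)` and `12 ∣ 5σ₃(n) + 7σ₅(n)` because `12 ∣ d³(5 + 7d²)`.
(Cauchy products of the three `q`-expansions; `c 1 = 1`.) -/
theorem dl_q : ∃ c : ℕ → ℤ, QExp c dl ∧ c 0 = 0 ∧ c 1 = 1 := by
  set a : ℕ → ℤ := fun n => (ArithmeticFunction.sigma 3 n : ℤ) with ha
  set b : ℕ → ℤ := fun n => (ArithmeticFunction.sigma 5 n : ℤ) with hb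
  have hA : QExp a (a1dS 3) := a1d_qexp 3
  have hB : QExp b (a1dS 5) := a1d_qexp 5
  choose d hd using fun n => a1d_dvd n
  have hD : QExp d (fun z => (5 * a1dS 3 z + 7 * a1dS 5 z) / 12) := by
    intro z hz
    have h1 := (((hA.const_mul 5).add (hB.const_mul 7)) z hz).div_const 12
    have h2 : ∀ n, ((5 * a n + 7 * b n : ℤ) : ℂ) * qq z ^ n / 12 = (d n : ℂ) * qq z ^ n := by
      intro n
      have h3 : (5 * a n + 7 * b n : ℤ) = 12 * d n := hd n
      rw [h3]
      push_cast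
      ring
    simp only [h2] at h1
    simpa using h1
  have hAA := hA.mul hA
  have hAAA := hAA.mul hA
  have hBB := hB.mul hB
  have hall := ((hD.add (hAA.const_mul 100)).add (hAAA.const_mul 8000)).add (hBB.const_mul (-147))
  have h0 := hd 0
  have hd0 : d 0 = 0 := by simp at h0; exact h0
  have h1 := hd 1
  have hd1 : d 1 = 1 := by simp at h1; omega
  refine ⟨_, a1d_congr hall ?_, ?_, ?_⟩
  · intro z hz
    rw [dl, a1d_e4 z hz, a1d_e6 z hz]
    push_cast
    ring
  · simp [ha, hb, hd0]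
  · simp [ha, hb, hd1, Finset.Nat.antidiagonal_succ]

end Pool.Agent.MSD
end

end

section

/-!
# MP_f58a57_nt, large transcendence degree: D algebra 4, existence of the matrix `M` (D.1)
-/

open Module Submodule Complex Matrix

noncomputable section

namespace Pool.Agent.LT.DA

section

variable {K : Type*} [Field K] [CharZero K]

/-- the vectors `e_0, ..., e_{c-1}, (1, ..., 1)` of `K^c` -/
def w0 (K : Type*) [Field K] (c : ℕ) : Fin (c + 1) → Fin c → K := fun i => if h : (i : ℕ) < c then Pi.single ⟨i, h⟩ 1 else fun _ => 1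

private theorem D4a_castSucc (c : ℕ) (i : Fin c) : w0 K c i.castSucc = Pi.single i 1 := by
  unfold w0
  have h : ((i.castSucc : Fin (c + 1)) : ℕ) < c := by simp
  rw [dif_pos h]
  rfl

private theorem D4a_last (c : ℕ) : w0 K c (Fin.last c) = fun _ => 1 := by
  unfold w0
  rw [dif_neg (by simp)]

private theorem D4a_sum (c : ℕ) (a : Fin (c + 1) → K) (i : Fin c) :
    (∑ l, a l • w0 K c l) i = a i.castSucc + a (Fin.last c) := by
  rw [Fin.sum_univ_castSucc, Pi.add_apply, Finset.sum_apply, Pi.smul_apply, D4a_last, smul_eq_mul, mul_one]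
  congr 1
  rw [Finset.sum_eq_single i]
  · rw [Pi.smul_apply, D4a_castSucc, Pi.single_eq_same, smul_eq_mul, mul_one]
  · intro j _ hj
    rw [Pi.smul_apply, D4a_castSucc, Pi.single_eq_of_ne (Ne.symm hj), smul_zero]
  · intro h
    exact absurd (Finset.mem_univ i) h

private theorem D4a_zero (c : ℕ) (a : Fin (c + 1) → K) (h : ∑ l, a l • w0 K c l = 0) (i0 : Fin (c + 1)) (h0 : a i0 = 0) :
    ∀ l, a l = 0 := by
  have h1 : ∀ i : Fin c, a i.castSucc + a (Fin.last c) = 0 := fun i => by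
    rw [← D4a_sum, h]
    rfl
  have h2 : a (Fin.last c) = 0 := by
    revert h0
    refine Fin.lastCases (fun h => h) (fun i h => ?_) i0
    have := h1 i
    rw [h, zero_add] at this
    exact this
  intro l
  refine Fin.lastCases h2 (fun i => ?_) l
  have := h1 i
  rw [h2, add_zero] at this
  exact this

/-- row D4a: at most `c` of the vectors `w0` are linearly independent. Proof: some index `i0 : Fin (c+1)` is not in `s`. If `i0 = last`: the vectors are distinct unit vectors.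
Otherwise look at the coordinate `i0` of a relation `∑ a_l w_l = 0`: only the last vector contributes, so its coefficient is `0`, then all the
others are `0`. (Use `linearIndependent_iff'` or show that `∑_{l} a_l w_l = 0` over all `l : Fin (c+1)` with `a_{i0} = 0` forces `a = 0`.) -/
theorem w0_li (c : ℕ) (s : Finset (Fin (c + 1))) (hs : s.card ≤ c) : LinearIndependent K (fun i : s => w0 K c i) := by
  classical
  rw [Fintype.linearIndependent_iff]
  intro g hg
  have hex : ∃ i0, i0 ∉ s := by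
    by_contra hcon
    push Not at hcon
    have h1 : s = Finset.univ := Finset.eq_univ_iff_forall.2 hcon
    rw [h1, Finset.card_univ, Fintype.card_fin] at hs
    omega
  obtain ⟨i0, hi0⟩ := hex
  have h2 : ∑ l, (if h : l ∈ s then g ⟨l, h⟩ else 0) • w0 K c l = 0 := by
    rw [← hg, ← Finset.sum_subset (Finset.subset_univ s) (fun l _ hl => by rw [dif_neg hl, zero_smul]),
      ← Finset.sum_coe_sort s]
    refine Finset.sum_congr rfl fun i _ => ?_
    rw [dif_pos i.2]
  have h3 := D4a_zero c (fun l => if h : l ∈ s then g ⟨l, h⟩ else 0) h2 i0 (dif_neg hi0)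
  intro i
  have h4 := h3 i
  simp only [i.2, dif_pos] at h4
  exact h4

/-- row D4a -/
theorem w0_span (c : ℕ) : span K (Set.range (w0 K c)) = ⊤ := by
  rw [eq_top_iff, ← (Pi.basisFun K (Fin c)).span_eq]
  apply span_mono
  rintro _ ⟨i, rfl⟩
  refine ⟨i.castSucc, ?_⟩
  rw [D4a_castSucc, Pi.basisFun_apply]

/-- the basis of `S` -/
private def D4b_b {c : ℕ} (z : Fin (c + 1) → K) : (Fin c ⊕ Fin c) ⊕ Unit → Fin c → K
  | Sum.inl (Sum.inl i) => Pi.single i 1
  | Sum.inl (Sum.inr i) => z i.castSucc • Pi.single i 1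
  | Sum.inr _ => fun _ => z (Fin.last c)

private theorem D4b_span {c : ℕ} (z : Fin (c + 1) → K) : span ℚ (Set.range (D4b_b z)) = TT (w0 K c) z := by
  apply le_antisymm
  · rw [span_le]
    rintro _ ⟨x, rfl⟩
    match x with
    | Sum.inl (Sum.inl i) =>
      refine mem_sup_left (subset_span ⟨i.castSucc, ?_⟩)
      exact D4a_castSucc c i
    | Sum.inl (Sum.inr i) =>
      refine mem_sup_right (subset_span ⟨i.castSucc, ?_⟩)
      change z i.castSucc • w0 K c i.castSucc = z i.castSucc • Pi.single i 1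
      rw [D4a_castSucc]
    | Sum.inr _ =>
      refine mem_sup_right (subset_span ⟨Fin.last c, ?_⟩)
      change z (Fin.last c) • w0 K c (Fin.last c) = fun _ => z (Fin.last c)
      rw [D4a_last]
      funext j
      simp
  · refine sup_le (span_le.2 ?_) (span_le.2 ?_)
    · rintro _ ⟨i, rfl⟩
      refine Fin.lastCases ?_ (fun i => ?_) i
      · have h1 : w0 K c (Fin.last c) = ∑ i : Fin c, D4b_b z (Sum.inl (Sum.inl i)) := by
          rw [D4a_last]
          funext j
          rw [Finset.sum_apply]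
          change (1 : K) = ∑ i : Fin c, (Pi.single i 1 : Fin c → K) j
          rw [Finset.sum_eq_single j]
          · rw [Pi.single_eq_same]
          · intro i _ hi
            rw [Pi.single_eq_of_ne (Ne.symm hi)]
          · intro h
            exact absurd (Finset.mem_univ j) h
        rw [h1]
        exact Submodule.sum_mem _ fun i _ => subset_span ⟨_, rfl⟩
      · refine subset_span ⟨Sum.inl (Sum.inl i), ?_⟩
        exact (D4a_castSucc c i).symm
    · rintro _ ⟨i, rfl⟩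
      refine Fin.lastCases ?_ (fun i => ?_) i
      · refine subset_span ⟨Sum.inr (), ?_⟩
        change (fun _ => z (Fin.last c)) = z (Fin.last c) • w0 K c (Fin.last c)
        rw [D4a_last]
        funext j
        simp
      · refine subset_span ⟨Sum.inl (Sum.inr i), ?_⟩
        change z i.castSucc • Pi.single i 1 = z i.castSucc • w0 K c i.castSucc
        rw [D4a_castSucc]

private theorem D4b_li {c : ℕ} (hc : 1 ≤ c) (z : Fin (c + 1) → K) (hnq : ∀ i, nq (z i)) (hrl : ∀ i j, i ≠ j → rl (z i) (z j)) :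
    LinearIndependent ℚ (D4b_b z) := by
  rw [Fintype.linearIndependent_iff]
  intro g hg
  rw [Fintype.sum_sum_type, Fintype.sum_sum_type] at hg
  have h1 : ∀ i : Fin c, (g (Sum.inl (Sum.inl i)) : K) + (g (Sum.inl (Sum.inr i)) : K) * z i.castSucc +
      (g (Sum.inr ()) : K) * z (Fin.last c) = 0 := by
    intro i
    have h2 := congrFun hg i
    rw [Pi.add_apply, Pi.add_apply, Finset.sum_apply, Finset.sum_apply, Finset.sum_apply,
      Finset.sum_eq_single i, Finset.sum_eq_single i] at h2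
    · simp only [D4b_b, Pi.smul_apply, Pi.single_eq_same, Finset.univ_unique, Finset.sum_singleton,
        Pi.zero_apply, smul_eq_mul, mul_one, Rat.smul_def] at h2
      exact h2
    · intro j _ hj
      simp only [D4b_b, Pi.smul_apply, Pi.single_eq_of_ne (Ne.symm hj), smul_zero]
    · intro h
      exact absurd (Finset.mem_univ i) h
    · intro j _ hj
      simp only [D4b_b, Pi.smul_apply, Pi.single_eq_of_ne (Ne.symm hj), smul_zero]
    · intro h
      exact absurd (Finset.mem_univ i) h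
  have hs : g (Sum.inr ()) = 0 := by
    have hne : Fin.last c ≠ (⟨0, hc⟩ : Fin c).castSucc := by
      intro h
      have := congrArg Fin.val h
      simp at this
      omega
    refine (hrl _ _ hne (g (Sum.inr ())) 0 (-(g (Sum.inl (Sum.inl ⟨0, hc⟩)))) (-(g (Sum.inl (Sum.inr ⟨0, hc⟩)))) ?_).1
    have h2 := h1 ⟨0, hc⟩
    push_cast
    linear_combination h2
  have h3 : ∀ i : Fin c, g (Sum.inl (Sum.inr i)) = 0 ∧ g (Sum.inl (Sum.inl i)) = 0 := by
    intro i
    refine (hnq i.castSucc 0 (g (Sum.inl (Sum.inr i))) (g (Sum.inl (Sum.inl i))) ?_).2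
    have h2 := h1 i
    rw [hs] at h2
    push_cast at h2 ⊢
    linear_combination h2
  intro i
  match i with
  | Sum.inl (Sum.inl i) => exact (h3 i).2
  | Sum.inl (Sum.inr i) => exact (h3 i).1
  | Sum.inr _ => exact hs

/-- row D4b: the dimension of `S`. Proof: `S` is the `ℚ`-span of the `2c+1` vectors `e_i`, `z_i e_i` (`i < c`), `z_c (1,..,1)` (since `(1,..,1) = ∑ e_i`), and these are
linearly independent over `ℚ`: if `∑ (p_i + q_i z_i) e_i + s z_c (1,..,1) = 0` then `p_i + q_i z_i + s z_c = 0` for all `i < c`; take `i = 0` (c ≥ 1): `z_c (s + 0 z_0) = - p_0 - q_0 z_0`,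
so `s = 0` by `rl (z c) (z 0)`, then `p_i = q_i = 0` by `nq`. -/
theorem finrank_S {c : ℕ} (hc : 1 ≤ c) (z : Fin (c + 1) → K) (hnq : ∀ i, nq (z i)) (hrl : ∀ i j, i ≠ j → rl (z i) (z j)) :
    finrank ℚ (TT (w0 K c) z) = 2 * c + 1 := by
  rw [← D4b_span, finrank_span_eq_card (D4b_li hc z hnq hrl), Fintype.card_sum, Fintype.card_sum, Fintype.card_fin,
    Fintype.card_unit]
  omega

/-- row D4c: CLAIM A. Proof: `E := (Fin c → K) ⧸ U`, `c' := finrank K E = c - u ≥ 1`, `u = finrank K U`. `w' i := mk (w0 i)` spans `E` (w0_span). `J` from `exists_basis_sub`: `|J| = c'`.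
`S := TT (w0 K c) z`, `S' := S.map mk` (over `ℚ`) `= TT w' z`, `T := TT (w' on J) (z on J) ≤ S'`, `finrank T = 2 c'`. If `S' = T`: for `l ∉ J`, `w' l` and `z l • w' l` are in `T`,
so `w' l = 0` by `TT_zero` (`rl (z l) (z j)`, `l ≠ j`), so `w0 l ∈ U` for all `l ∉ J`; there are `c + 1 - c' = u + 1 ≤ c` such `l`, and the `w0 l` are independent
(w0_li), so `u ≥ u + 1`. Contradiction. So `finrank S' ≥ 2 c' + 1`, and `finrank (S ⊓ U) = finrank S - finrank S' ≤ 2 c + 1 - (2 c' + 1) = 2 u` (rank-nullity for `mk` restricted to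
`S`; its kernel is `S ⊓ U`; finrank_S). -/
theorem claimA {c : ℕ} (hc : 1 ≤ c) (z : Fin (c + 1) → K) (hnq : ∀ i, nq (z i)) (hrl : ∀ i j, i ≠ j → rl (z i) (z j))
    (U : Submodule K (Fin c → K)) (hU : U ≠ ⊤) :
    finrank ℚ (TT (w0 K c) z ⊓ U.restrictScalars ℚ : Submodule ℚ (Fin c → K)) ≤ 2 * finrank K U := by
  classical
  -- the quotient and its dimension
  have hdimE : finrank K ((Fin c → K) ⧸ U) + finrank K U = c := by
    have := Submodule.finrank_quotient_add_finrank U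
    rwa [Module.finrank_fin_fun] at this
  have hUlt : finrank K U < c := by
    have := Submodule.finrank_lt hU
    rwa [Module.finrank_fin_fun] at this
  set w' : Fin (c + 1) → (Fin c → K) ⧸ U := fun i => U.mkQ (w0 K c i) with hw'
  have hspan : span K (Set.range w') = ⊤ := by
    have h1 : Set.range w' = U.mkQ '' (Set.range (w0 K c)) := by
      rw [← Set.range_comp]
      rfl
    rw [h1, Submodule.span_image, w0_span, Submodule.map_top, Submodule.range_mkQ]
  obtain ⟨J, hJ1, hJ2⟩ := exists_basis_sub (K := K) w'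
  have hcardJ : Fintype.card J = finrank K ((Fin c → K) ⧸ U) := by
    have h1 := finrank_span_eq_card hJ1
    rw [hJ2, hspan, finrank_top] at h1
    exact h1.symm
  -- the spaces over `ℚ`
  set f : (Fin c → K) →ₗ[ℚ] ((Fin c → K) ⧸ U) := (U.mkQ).restrictScalars ℚ with hf
  set S : Submodule ℚ (Fin c → K) := TT (w0 K c) z with hS
  have hSfin : FiniteDimensional ℚ S := by
    apply FiniteDimensional.of_finrank_pos
    rw [hS, finrank_S hc z hnq hrl]
    omega
  have hSmap : S.map f = TT w' z := by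
    rw [hS]
    unfold TT
    rw [Submodule.map_sup, Submodule.map_span, Submodule.map_span, ← Set.range_comp,
      ← Set.range_comp]
    rfl
  have hker : LinearMap.ker f = U.restrictScalars ℚ := by
    ext x
    simp [hf]
  have hrn : finrank ℚ (TT w' z) + finrank ℚ (S ⊓ U.restrictScalars ℚ : Submodule ℚ (Fin c → K)) =
      2 * c + 1 := by
    have h1 := LinearMap.finrank_range_add_finrank_ker (f.domRestrict S)
    have h2 : LinearMap.range (f.domRestrict S) = TT w' z := by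
      rw [← hSmap, LinearMap.range_domRestrict]
    have h3 : (LinearMap.ker (f.domRestrict S)).map S.subtype = S ⊓ U.restrictScalars ℚ := by
      rw [← hker, LinearMap.ker_domRestrict, Submodule.map_comap_subtype]
    have h4 := Submodule.finrank_map_subtype_eq S (LinearMap.ker (f.domRestrict S))
    rw [h3] at h4
    rw [h2, ← h4] at h1
    rw [h1, hS, finrank_S hc z hnq hrl]
  -- the subspace `T`
  set v : J → (Fin c → K) ⧸ U := fun j => w' j with hv
  have hTle : TT v (fun j : J => z j) ≤ TT w' z := by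
    unfold TT
    refine sup_le_sup (Submodule.span_mono ?_) (Submodule.span_mono ?_)
    · rintro _ ⟨j, rfl⟩
      exact ⟨j, rfl⟩
    · rintro _ ⟨j, rfl⟩
      exact ⟨j, rfl⟩
  have hTdim : finrank ℚ (TT v (fun j : J => z j)) = 2 * Fintype.card J :=
    finrank_TT hJ1 (fun j => hnq j)
  have hS'fin : FiniteDimensional ℚ (TT w' z) := by
    rw [← hSmap]
    infer_instance
  have hkey : 2 * Fintype.card J + 1 ≤ finrank ℚ (TT w' z) := by
    by_contra hcon
    have hle : finrank ℚ (TT w' z) ≤ finrank ℚ (TT v (fun j : J => z j)) := by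
      rw [hTdim]
      omega
    have heq := Submodule.eq_of_le_of_finrank_le hTle hle
    have hzero : ∀ l : Fin (c + 1), l ∉ J → w0 K c l ∈ U := by
      intro l hl
      have h1 : w' l ∈ TT v (fun j : J => z j) := by
        rw [heq]
        exact Submodule.mem_sup_left (Submodule.subset_span ⟨l, rfl⟩)
      have h2 : z l • w' l ∈ TT v (fun j : J => z j) := by
        rw [heq]
        exact Submodule.mem_sup_right (Submodule.subset_span ⟨l, rfl⟩)
      have h3 := TT_zero hJ1 (z := z l) (ζ := fun j : J => z j) (fun j => hrl l j (by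
        rintro rfl
        exact hl j.2)) h1 h2
      rw [hw'] at h3
      simpa using h3
    set s : Finset (Fin (c + 1)) := Finset.univ.filter (fun l => l ∉ J) with hs
    have hscard : s.card = finrank K U + 1 := by
      have h1 : s.card + (Finset.univ.filter (fun l : Fin (c + 1) => l ∈ J)).card = c + 1 := by
        have := Finset.card_filter_add_card_filter_not (s := (Finset.univ : Finset (Fin (c + 1))))
          (fun l : Fin (c + 1) => l ∈ J)
        rw [Finset.card_univ, Fintype.card_fin] at this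
        rw [hs]
        omega
      have h2 : (Finset.univ.filter (fun l : Fin (c + 1) => l ∈ J)).card = Fintype.card J := by
        rw [Fintype.card_subtype]
      omega
    have hli := w0_li (K := K) c s (by omega)
    have h5 := finrank_span_eq_card hli
    have h6 : span K (Set.range fun i : s => w0 K c i) ≤ U := by
      rw [Submodule.span_le]
      rintro _ ⟨i, rfl⟩
      refine hzero i ?_
      exact (Finset.mem_filter.1 i.2).2
    have h7 := Submodule.finrank_mono h6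
    rw [h5, Fintype.card_coe] at h7
    omega
  omega

/-- the vectors `v` with `v, z v ∈ S` -/
def PP {E : Type*} [AddCommGroup E] [Module K E] [Module ℚ E] (S : Submodule ℚ E) (z : K) : Submodule ℚ E :=
  S ⊓ S.comap (LinearMap.restrictScalars ℚ (LinearMap.lsmul K E z))

/-- row D4d. Proof: `dim_ℚ (Fin c → K) = 4 c`. Let `m := (z • ·) : (Fin c → K) →ₗ[ℚ] (Fin c → K)`, a bijection (`z ≠ 0`). `PP S z = S ⊓ comap m S`,
`finrank (comap m S) = 2 c + 1`, so `finrank (PP S z) ≥ 2 (2c+1) - 4c = 2` (`finrank_sup_add_finrank_inf_eq`). The map `PP S z → S ⧸ H` (or: `PP S z ⊓ comap m H`), `v ↦ z v`,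
has one-dimensional target, so `finrank (PP S z ⊓ comap m H) ≥ 1`: take `v ≠ 0` in it; `v ∈ PP S z ≤ H`, `z v ∈ H`. (Dimension count without quotients: `comap m H` has dimension `2c`,
and `PP S z + comap m H ≤ comap m S` of dimension `2c+1`, so the intersection has dimension `≥ 2 + 2c - (2c+1) = 1`.)
Statement: if `[K : ℚ] = 4`, a `(2c+1)`-dimensional `S ≤ K^c` and a subspace `H ≤ S` of dimension `2c` containing `PP S z` : there is
`v ≠ 0` with `v, z v ∈ H` -/
theorem exists_in_H (h4 : finrank ℚ K = 4) {c : ℕ} (S H : Submodule ℚ (Fin c → K)) (hS : finrank ℚ S = 2 * c + 1)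
    (hHS : H ≤ S) (hH : finrank ℚ H = 2 * c) (z : K) (hz : z ≠ 0) (hP : PP S z ≤ H) : ∃ v ≠ 0, v ∈ H ∧ z • v ∈ H := by
  classical
  have hfK : FiniteDimensional ℚ K := FiniteDimensional.of_finrank_pos (by omega)
  have hfV : FiniteDimensional ℚ (Fin c → K) := inferInstance
  have hV : finrank ℚ (Fin c → K) = 4 * c := by
    rw [Module.finrank_pi_fintype, Finset.sum_const, Finset.card_univ, Fintype.card_fin, h4, smul_eq_mul]
    ring
  generalize hm : (LinearMap.restrictScalars ℚ (LinearMap.lsmul K (Fin c → K) z)) = m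
  have hmv : ∀ v, m v = z • v := by
    intro v
    rw [← hm]
    rfl
  have hinj : Function.Injective m := by
    intro v w hvw
    rw [hmv, hmv] at hvw
    exact smul_right_injective _ hz hvw
  have hcm : ∀ T : Submodule ℚ (Fin c → K), finrank ℚ (T.comap m) = finrank ℚ T := by
    intro T
    have hsurj : Function.Surjective m := LinearMap.surjective_of_injective hinj
    have h1 : (T.comap m).map m = T := Submodule.map_comap_eq_of_surjective hsurj T
    have h2 := LinearMap.finrank_range_of_inj (f := m.domRestrict (T.comap m))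
      (by
        intro x y hxy
        exact Subtype.ext (hinj hxy))
    rw [← h2, LinearMap.range_domRestrict, h1]
  have hA := hcm S
  have hB := hcm H
  have hPdef : PP S z = S ⊓ S.comap m := by
    rw [PP, hm]
  have h1 := Submodule.finrank_sup_add_finrank_inf_eq S (S.comap m)
  have h2 : finrank ℚ (S ⊔ S.comap m : Submodule ℚ (Fin c → K)) ≤ 4 * c := by
    rw [← hV]
    exact Submodule.finrank_le _
  have h3 := Submodule.finrank_sup_add_finrank_inf_eq (PP S z) (H.comap m)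
  have h5 : PP S z ⊔ H.comap m ≤ S.comap m := by
    refine sup_le ?_ (Submodule.comap_mono hHS)
    rw [hPdef]
    exact inf_le_right
  have h6 := Submodule.finrank_mono h5
  rw [← hPdef] at h1
  have h7 : 0 < finrank ℚ (PP S z ⊓ H.comap m : Submodule ℚ (Fin c → K)) := by omega
  have h8 : (PP S z ⊓ H.comap m : Submodule ℚ (Fin c → K)) ≠ ⊥ := by
    intro h0
    rw [h0, finrank_bot] at h7
    exact lt_irrefl _ h7
  obtain ⟨v, hv, hv0⟩ := Submodule.exists_mem_ne_zero_of_ne_bot h8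
  refine ⟨v, hv0, hP hv.1, ?_⟩
  have h9 : m v ∈ H := hv.2
  rwa [hmv] at h9

/-- row D4f: a basis adapted to `⨆ PP S (z i) = S`. Proof: `S` is spanned by the set `⋃ i, PP S (z i)` (`Submodule.iSup_eq_span`), so it has a basis contained in this set
(`exists_linearIndependent`, applied to the set; the chosen subset `b` is linearly independent and spans `S`, hence it has `N` elements: `finrank_span_set_eq_card`,
reindex by `Fin N`). Choose `idx j` with `w j ∈ PP S (z (idx j))`; then `z (idx j) • w j ∈ S = span ℚ (range w)`, so it is `∑ k, M j k • w k`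
(`mem_span_range_iff_exists_fun`). -/
theorem exists_adapted {E : Type*} [AddCommGroup E] [Module K E] [Module ℚ E] {m N : ℕ} (S : Submodule ℚ E) (hS : finrank ℚ S = N)
    (hfin : FiniteDimensional ℚ S) (z : Fin m → K) (h : ⨆ i, PP S (z i) = S) :
    ∃ (idx : Fin N → Fin m) (w : Fin N → E) (M : Matrix (Fin N) (Fin N) ℚ), span ℚ (Set.range w) = S ∧
      ∀ j, z (idx j) • w j = ∑ k, (M j k) • w k := by
  classical
  have hspan : span ℚ (⋃ i, (PP S (z i) : Set E)) = S := by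
    rw [← Submodule.iSup_eq_span]
    exact h
  obtain ⟨b, hb1, hb2, hb3⟩ := exists_linearIndependent ℚ (⋃ i, (PP S (z i) : Set E))
  have hbS : span ℚ b = S := hb2.trans hspan
  let B : Basis b ℚ (span ℚ (Set.range ((↑) : b → E))) := Basis.span hb3
  have hfin' : Module.Finite ℚ (span ℚ (Set.range ((↑) : b → E))) := by
    rw [Subtype.range_coe, hbS]
    exact hfin
  have : Finite b := Module.Finite.finite_basis B
  have := Fintype.ofFinite b
  have hcard : Fintype.card b = N := by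
    rw [← hS, ← finrank_eq_card_basis B, Subtype.range_coe, hbS]
  let e : Fin N ≃ b := (Fintype.equivFinOfCardEq hcard).symm
  have hw : ∀ j : Fin N, ∃ i, (e j : E) ∈ PP S (z i) := by
    intro j
    have := hb1 (e j).2
    rwa [Set.mem_iUnion] at this
  choose idx hidx using hw
  have hrange : Set.range (fun j => (e j : E)) = b := by
    ext y
    constructor
    · rintro ⟨j, rfl⟩
      exact (e j).2
    · intro hy
      exact ⟨e.symm ⟨y, hy⟩, by simp⟩
  have hspanw : span ℚ (Set.range (fun j => (e j : E))) = S := by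
    rw [hrange]
    exact hbS
  have hM : ∀ j, ∃ c : Fin N → ℚ, ∑ k, c k • (e k : E) = z (idx j) • (e j : E) := by
    intro j
    have h2 : z (idx j) • (e j : E) ∈ S := (hidx j).2
    rw [← hspanw] at h2
    exact (Submodule.mem_span_range_iff_exists_fun ℚ).1 h2
  choose M hM using hM
  exact ⟨idx, fun j => e j, Matrix.of M, hspanw, fun j => (hM j).symm⟩

end

theorem D4h_den {ι : Type*} [Fintype ι] (f : ι → ℚ) :
    ∃ (d : ℕ) (g : ι → ℤ), 0 < d ∧ ∀ i, ((g i : ℤ) : ℚ) = d * f i := by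
  classical
  refine ⟨∏ i, (f i).den, fun i => (∏ j ∈ Finset.univ.erase i, ((f j).den : ℤ)) * (f i).num, ?_, ?_⟩
  · exact Finset.prod_pos fun i _ => (f i).den_pos
  · intro i
    have h1 : (∏ j, ((f j).den : ℚ)) = (∏ j ∈ Finset.univ.erase i, ((f j).den : ℚ)) * ((f i).den : ℚ) := by
      rw [Finset.prod_erase_mul _ _ (Finset.mem_univ i)]
    have h2 : ((f i).den : ℚ) * f i = (f i).num := Rat.den_mul_eq_num (f i)
    push_cast
    rw [h1, mul_assoc, h2]

/-- row D4h: the vector `g`. Proof: `A := M - Mᵀ` satisfies `Aᵀ = -A`, so `det A = det Aᵀ = det (-A) = (-1)^n det A = - det A` (n odd) and `det A = 0`; there is `v ≠ 0` over `ℚ` with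
`A v = 0` (`Matrix.exists_mulVec_eq_zero_iff`); multiply by a common denominator of the entries (as in exists_d). -/
theorem exists_g {n c : ℕ} (hn : n = 2 * c + 1) (M : Matrix (Fin n) (Fin n) ℚ) :
    ∃ g : Fin n → ℤ, g ≠ 0 ∧ M *ᵥ (fun j => (g j : ℚ)) = Mᵀ *ᵥ (fun j => (g j : ℚ)) := by
  obtain ⟨v, hv0, hv⟩ : ∃ v : Fin n → ℚ, v ≠ 0 ∧ (M - Mᵀ) *ᵥ v = 0 := by
    rw [Matrix.exists_mulVec_eq_zero_iff]
    have h1 : (M - Mᵀ).det = (-(M - Mᵀ)).det := by
      rw [← Matrix.det_transpose]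
      congr 1
      rw [Matrix.transpose_sub, Matrix.transpose_transpose, neg_sub]
    rw [Matrix.det_neg, Fintype.card_fin] at h1
    have h2 : ((-1 : ℚ)) ^ n = -1 := by
      rw [hn, pow_succ, pow_mul]
      norm_num
    rw [h2] at h1
    linarith
  obtain ⟨d, g, hd, hg⟩ := D4h_den v
  have hgv : (fun j => (g j : ℚ)) = (d : ℚ) • v := by
    funext j
    rw [hg j, Pi.smul_apply, smul_eq_mul]
  have hdq : (d : ℚ) ≠ 0 := by exact_mod_cast hd.ne'
  refine ⟨g, ?_, ?_⟩
  · rintro rfl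
    apply hv0
    have h3 : (d : ℚ) • v = 0 := by
      rw [← hgv]
      funext j
      simp
    exact (smul_eq_zero.1 h3).resolve_left hdq
  · rw [hgv, Matrix.mulVec_smul, Matrix.mulVec_smul]
    rw [Matrix.sub_mulVec, sub_eq_zero] at hv
    rw [hv]

/-- row D4h: the common denominator. Proof: `d := ∏ i, ∏ j, (M i j).den`. -/
theorem exists_d {n : ℕ} (M : Matrix (Fin n) (Fin n) ℚ) :
    ∃ (d : ℕ) (dM : Matrix (Fin n) (Fin n) ℤ), 0 < d ∧ ∀ i j, ((dM i j : ℤ) : ℚ) = d * M i j := by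
  obtain ⟨d, g, hd, hg⟩ := D4h_den (fun q : Fin n × Fin n => M q.1 q.2)
  exact ⟨d, Matrix.of fun i j => g (i, j), hd, fun i j => hg (i, j)⟩

/-- row D4i: no relations between inequivalent points. Proof: let `z (a + b w) = a' + b' w`. If `a + b w ≠ 0` then `z = (b' w + a') / (b w + a)`; if `b' a - a' b ≠ 0` this is
`GEq w z`; otherwise the vectors `(b', a')` and `(b, a)` are proportional and `z` is rational, against `NQ z`. So `a + b w = 0`: but then also `a' + b' w = 0`; if `b ≠ 0`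
then `w` is rational: `hw` (NQ w) gives `a = b = 0`. -/
theorem rl_of (K : Subfield ℂ) {z w : K} (hz : NQ (z : ℂ)) (hw : NQ (w : ℂ)) (h : ¬ GEq (w : ℂ) (z : ℂ)) : rl z w := by
  intro a b a' b' h1
  have h2 : (z : ℂ) * ((a : ℂ) + (b : ℂ) * (w : ℂ)) = (a' : ℂ) + (b' : ℂ) * (w : ℂ) := by
    have h2' := congrArg (fun x : K => (x : ℂ)) h1
    push_cast at h2'
    exact h2'
  by_cases h3 : (a : ℂ) + (b : ℂ) * (w : ℂ) = 0
  · have h4 := hw 0 b a (by
      push_cast
      linear_combination h3)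
    exact ⟨h4.2.2, h4.2.1⟩
  · by_cases h4 : b' * a - a' * b = 0
    · have h5 : (b' : ℂ) * a - a' * b = 0 := by exact_mod_cast h4
      have h6 : (a : ℂ) * z - a' = 0 := by
        have h7 : ((a : ℂ) * z - a') * ((a : ℂ) + (b : ℂ) * (w : ℂ)) = 0 := by
          linear_combination (a : ℂ) * h2 + (w : ℂ) * h5
        exact (mul_eq_zero.1 h7).resolve_right h3
      have h8 : (b : ℂ) * z - b' = 0 := by
        have h9 : ((b : ℂ) * z - b') * ((a : ℂ) + (b : ℂ) * (w : ℂ)) = 0 := by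
          linear_combination (b : ℂ) * h2 - h5
        exact (mul_eq_zero.1 h9).resolve_right h3
      have h10 := hz 0 a (-a') (by
        push_cast
        linear_combination h6)
      have h11 := hz 0 b (-b') (by
        push_cast
        linear_combination h8)
      exact ⟨h10.2.1, h11.2.1⟩
    · exfalso
      refine h ⟨b', a', b, a, h4, ?_, ?_⟩
      · intro h5
        exact h3 (by linear_combination h5)
      · have h6 : (b : ℂ) * (w : ℂ) + a ≠ 0 := fun h5 => h3 (by linear_combination h5)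
        rw [eq_div_iff h6]
        linear_combination h2

/-- row D4i -/
theorem nq_of (K : Subfield ℂ) {z : K} (hz : NQ (z : ℂ)) : nq z := by
  intro a b c h
  refine hz a b c ?_
  have h2 := congrArg (fun x : K => (x : ℂ)) h
  push_cast at h2
  exact h2

end Pool.Agent.LT.DA
end

end

section

/-!
# MP_f58a57_nt, large transcendence degree, part D (analysis): definitions
-/

open Complex Matrix

noncomputable section

namespace Pool.Agent.LT

variable {c : ℕ}

/-- the covering property of two pairs of numbers -/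
def COV2 (a0 b0 a1 b1 : ℂ) : Prop :=
  a0.im = 0 ∧ b0.im = 0 ∧ ∃ C : ℝ, 0 < C ∧ ∀ r k : ℝ, 0 < r → 0 < k → C ≤ r * k → C * r ≤ k → ∀ x y : ℝ, ∃ m n : ℤ,
    |x - (m * a0.re + n * b0.re)| ≤ r ∧ |y - (m * a1.im + n * b1.im)| ≤ k

/-- the lattice `d ℤ^n` as a homomorphism -/
def latHom {n : ℕ} (d : ℕ) : (Fin n → ℤ) →+ (Fin n → ℂ) where
  toFun := lat d
  map_zero' := by ext j; simp [lat]
  map_add' := by intro a b; ext j; simp [lat]; ring

/-- the image of the lattice `d ℤ^N` under `ζ` -/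
def Gam (d : ℕ) (ζ : VN c →ₗ[ℂ] Vc c) : AddSubgroup (Vc c) := (ζ.toAddMonoidHom.comp (latHom d)).range

theorem mem_Gam {d : ℕ} {ζ : VN c →ₗ[ℂ] Vc c} {γ : Vc c} : γ ∈ Gam d ζ ↔ ∃ a : Fin (2 * c + 1) → ℤ, ζ (lat d a) = γ := Iff.rfl

/-! ### real symmetric forms on complex spaces -/

/-- a real symmetric bilinear form -/
structure RB {V : Type} [AddCommGroup V] [Module ℂ V] (R : V → V → ℝ) : Prop where
  symm : ∀ u v, R u v = R v u
  add : ∀ u u' v, R (u + u') v = R u v + R u' v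
  smul : ∀ (t : ℝ) u v, R ((t : ℂ) • u) v = t * R u v

/-- the hermitian part -/
def Hf {V : Type} [AddCommGroup V] [Module ℂ V] (R : V → V → ℝ) (u v : V) : ℂ :=
  (((R u v + R (I • u) (I • v) : ℝ) : ℂ) + I * ((R u (I • v) - R (I • u) v : ℝ) : ℂ)) / 2

/-- the symmetric part -/
def Sf {V : Type} [AddCommGroup V] [Module ℂ V] (R : V → V → ℝ) (u v : V) : ℂ :=
  (((R u v - R (I • u) (I • v) : ℝ) : ℂ) - I * ((R (I • u) v + R u (I • v) : ℝ) : ℂ)) / 2

/-- the complex linear form with real part `f` -/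
def Cl {V : Type} [AddCommGroup V] [Module ℂ V] (f : V → ℝ) (u : V) : ℂ := (f u : ℂ) - I * (f (I • u) : ℂ)

/-! ### the form of the sections -/

/-- the constant `γ` -/
def gam0 (D : Dat c) : ℝ := 1 + 2 * ∑ j, ‖D.v0 j‖ ^ 2 / (D.z j).im

/-- the real symmetric form `R` of D.4 -/
def Rf (D : Dat c) (b : VN c →ₗ[ℝ] (Fin (2 * c + 1) → ℝ)) (Y : VN c →ₗ[ℝ] ℝ) (u v : VN c) : ℝ :=
  ∑ j, (D.z j).im * (b u j * b v j) + Y u * ∑ j, (D.v0 j).re * b v j + Y v * ∑ j, (D.v0 j).re * b u j + gam0 D * (Y u * Y v)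

/-- the real linear form `λ` of D.4 -/
def lamf (b : VN c →ₗ[ℝ] (Fin (2 * c + 1) → ℝ)) (l : Fin (2 * c + 1) → ℝ) (u : VN c) : ℝ := ∑ j, l j * b u j

/-- the quadratic polynomial `q(u) = -π S(u,u) - ℓ(u)` -/
def qf (D : Dat c) (b : VN c →ₗ[ℝ] (Fin (2 * c + 1) → ℝ)) (Y : VN c →ₗ[ℝ] ℝ) (l : Fin (2 * c + 1) → ℝ) (u : VN c) : ℂ :=
  -(Real.pi : ℂ) * Sf (Rf D b Y) u u - Cl (lamf b l) u

/-- the coordinates `ζ` of the normal form: `ζ_i = ∑_{l ≤ i} r_{il} x_l`, `r_ii > 0` -/
structure Zt (P : Matrix (Fin (2 * c + 1)) (Fin (2 * c + 1)) ℂ) (x : Fin (c + 1) → Fin (2 * c + 1) → ℂ) (H : VN c → VN c → ℂ)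
    (ζ : VN c →ₗ[ℂ] Vc c) (sec : Vc c →ₗ[ℂ] VN c) (r : Fin (c + 1) → Fin (c + 1) → ℂ) : Prop where
  hsec : ∀ z, ζ (sec z) = z
  ker : ∀ u, ζ u = 0 ↔ P *ᵥ u = 0
  hh : ∀ u v, H u v = herm (ζ u) (ζ v)
  coord : ∀ i u, ζ u i = ∑ l, r i l * (x l ⬝ᵥ u)
  tri : ∀ i l, i < l → r i l = 0
  diag : ∀ i, 0 < (r i i).re ∧ (r i i).im = 0

/-- the normal form of the sections: everything the analysis needs -/
structure NF (D : Dat c) (b : VN c →ₗ[ℝ] (Fin (2 * c + 1) → ℝ)) (Y : VN c →ₗ[ℝ] ℝ) (l : Fin (2 * c + 1) → ℝ) (ζ : VN c →ₗ[ℂ] Vc c)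
    (sec : Vc c →ₗ[ℂ] VN c) (q : VN c → ℂ) (c3 C : ℝ) : Prop where
  dec : Dec D D.Lt b Y
  hsec : ∀ z, ζ (sec z) = z
  ker : ∀ u, ζ u = 0 ↔ D.Lt *ᵥ u = 0
  tow : Tow c (Gam D.d ζ)
  diff : Differentiable ℂ q
  qker : ∀ k, D.Lt *ᵥ k = 0 → ∀ u, q (u + k) = q u
  trans : ∀ a : Fin (2 * c + 1) → ℤ, ∃ κ : ℂ,
    κ.re = Real.pi * nsq (ζ (lat D.d a)) -
      (Real.pi * ∑ j, (D.z j).im * ((D.d : ℝ) * (a j : ℝ)) ^ 2 + ∑ j, l j * ((D.d : ℝ) * (a j : ℝ))) ∧
    ∀ u, q (u + lat D.d a) = q u + 2 * Real.pi * I * (lat D.d a ⬝ᵥ (D.Lt *ᵥ u)) + 2 * Real.pi * herm (ζ u) (ζ (lat D.d a)) + κ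
  c3ne : c3 ≠ 0
  im0 : ∀ (b' : Fin (2 * c + 1) → ℝ) (y : ℝ), (ζ (pt D.g b' y) 0).im = c3 * y
  C0 : 0 ≤ C
  bd : ∀ (b' : Fin (2 * c + 1) → ℝ) (y : ℝ), (∀ j, 0 ≤ b' j ∧ b' j ≤ D.d) →
    |(q (pt D.g b' y)).re - Real.pi * nsq (ζ (pt D.g b' y))| ≤ C * (1 + y ^ 2)

/-- the multiplier with a given linear form -/
def MulL {n : ℕ} (d : ℕ) (z : Fin n → ℂ) (l : Fin n → ℝ) (C : (Fin n → ℤ) → ℂ) : Prop :=
  ∀ a : Fin n → ℤ, ‖C a‖ = Real.exp (Real.pi * ∑ j, (z j).im * ((d : ℝ) * (a j : ℝ)) ^ 2 + ∑ j, l j * ((d : ℝ) * (a j : ℝ)))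

/-- the function `G(z) = F(sec z) exp(q(sec z))` -/
def Gf (sec : Vc c →ₗ[ℂ] VN c) (q : VN c → ℂ) (F : VN c → ℂ) (z : Vc c) : ℂ := F (sec z) * cexp (q (sec z))

end Pool.Agent.LT
end

end

section

/-!
# MP_f58a57_nt, large transcendence degree, part D analysis (row lt-DD1): covering with a Pell unit

Proof. `Pell.exists_pos_of_not_isSquare` gives a unit `η = p + q √Δ > 1`, `p² - Δ q² = 1`, `η' = p - q √Δ = 1/η`.
(1) Covering radius: for all real `w w'` there are `m n` with `|w - (m + n √Δ)| ≤ ρ`, `|w' - (m - n √Δ)| ≤ ρ`, `ρ = (1 + √Δ)/2`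
    (`m = round ((w + w')/2)`, `n = round ((w - w')/(2 √Δ))`).
(2) Multiplication by `η^t` (`t` natural) maps `X = m + n √Δ`, `X' = m - n √Δ` to `η^t X`, `η^(-t) X'` and is a bijection of the pairs; so if
    `η^t r ≥ ρ` and `η^(-t) k ≥ ρ` the claim holds: apply (1) to `w = η^t x`, `w' = η^(-t) x'` and multiply the result by `η^(-t)`, that is by `(p - q √Δ)^t`.
(3) `t` := the least natural number with `η^t r ≥ ρ`.  `t = 0`: `k ≥ C r ≥ ρ` (take `C ≥ 1`).  `t ≥ 1`: `η^(t-1) r < ρ`, so `η^(-t) k > r k / (ρ η) ≥ ρ` if `C ≥ ρ² η`.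
-/

open Complex Matrix

noncomputable section

namespace Pool.Agent.LT

/-- covering radius -/
private theorem DD1_cov {s : ℝ} (hs : 0 < s) (w w' : ℝ) : ∃ m n : ℤ,
    |w - (m + n * s)| ≤ (1 + s) / 2 ∧ |w' - (m - n * s)| ≤ (1 + s) / 2 := by
  refine ⟨round ((w + w') / 2), round ((w - w') / (2 * s)), ?_, ?_⟩
  · have h1 := abs_sub_round ((w + w') / 2)
    have h2 := abs_sub_round ((w - w') / (2 * s))
    have e : w - (round ((w + w') / 2) + round ((w - w') / (2 * s)) * s) =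
        ((w + w') / 2 - round ((w + w') / 2)) + s * ((w - w') / (2 * s) - round ((w - w') / (2 * s))) := by
      field_simp
      ring
    rw [e]
    refine (abs_add_le _ _).trans ?_
    rw [abs_mul, abs_of_pos hs]
    have h3 := mul_le_mul_of_nonneg_left h2 hs.le
    linarith
  · have h1 := abs_sub_round ((w + w') / 2)
    have h2 := abs_sub_round ((w - w') / (2 * s))
    have e : w' - (round ((w + w') / 2) - round ((w - w') / (2 * s)) * s) =
        ((w + w') / 2 - round ((w + w') / 2)) - s * ((w - w') / (2 * s) - round ((w - w') / (2 * s))) := by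
      field_simp
      ring
    rw [e]
    refine (abs_sub _ _).trans ?_
    rw [abs_mul, abs_of_pos hs]
    have h3 := mul_le_mul_of_nonneg_left h2 hs.le
    linarith

/-- multiplication by the unit -/
private theorem DD1_mul {s D : ℝ} (hs : s ^ 2 = D) (p q : ℤ) (hD : ∃ d : ℤ, D = d) (t : ℕ) : ∀ m n : ℤ, ∃ m' n' : ℤ,
    ((m : ℝ) + n * s) * ((p : ℝ) - q * s) ^ t = m' + n' * s ∧ ((m : ℝ) - n * s) * ((p : ℝ) + q * s) ^ t = m' - n' * s := by
  obtain ⟨d, hd⟩ := hD
  induction t with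
  | zero => exact fun m n => ⟨m, n, by simp, by simp⟩
  | succ t ih =>
    intro m n
    obtain ⟨m', n', h1, h2⟩ := ih m n
    refine ⟨m' * p - d * n' * q, n' * p - m' * q, ?_, ?_⟩
    · rw [pow_succ, ← mul_assoc, h1]
      push_cast
      rw [← hd, ← hs]
      ring
    · rw [pow_succ, ← mul_assoc, h2]
      push_cast
      rw [← hd, ← hs]
      ring

theorem pell_cover (Δ : ℕ) (hΔ : ¬ IsSquare Δ) : ∃ C : ℝ, 0 < C ∧ ∀ r k : ℝ, 0 < r → 0 < k → C ≤ r * k → C * r ≤ k → ∀ x x' : ℝ, ∃ m n : ℤ,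
    |x - (m + n * Real.sqrt Δ)| ≤ r ∧ |x' - (m - n * Real.sqrt Δ)| ≤ k := by
  have hΔ0 : 0 < Δ := by
    rcases Nat.eq_zero_or_pos Δ with h | h
    · exact absurd (by rw [h]; exact IsSquare.zero) hΔ
    · exact h
  obtain ⟨s, hs⟩ : ∃ s : ℝ, s = Real.sqrt Δ := ⟨_, rfl⟩
  have hs0 : 0 < s := by
    rw [hs]
    exact Real.sqrt_pos.2 (by exact_mod_cast hΔ0)
  have hs2 : s ^ 2 = (Δ : ℝ) := by
    rw [hs]
    exact Real.sq_sqrt (by positivity)
  have hsq : ¬ IsSquare (Δ : ℤ) := by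
    rw [Int.isSquare_natCast_iff]
    exact hΔ
  obtain ⟨a, ha1, ha2⟩ := Pell.Solution₁.exists_pos_of_not_isSquare (by exact_mod_cast hΔ0) hsq
  obtain ⟨p, hp⟩ : ∃ p : ℤ, p = a.x := ⟨_, rfl⟩
  obtain ⟨q, hq⟩ : ∃ q : ℤ, q = a.y := ⟨_, rfl⟩
  have hprop : (p : ℝ) ^ 2 - Δ * (q : ℝ) ^ 2 = 1 := by
    have := a.prop
    rw [← hp, ← hq] at this
    exact_mod_cast this
  rw [← hp] at ha1
  rw [← hq] at ha2
  have hp1 : (1 : ℝ) < p := by exact_mod_cast ha1
  have hq1 : (0 : ℝ) < q := by exact_mod_cast ha2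
  obtain ⟨η, hη⟩ : ∃ η : ℝ, η = p + q * s := ⟨_, rfl⟩
  obtain ⟨η', hη'⟩ : ∃ η' : ℝ, η' = p - q * s := ⟨_, rfl⟩
  have hηη : η * η' = 1 := by
    rw [hη, hη']
    have : ((p : ℝ) + q * s) * (p - q * s) = (p : ℝ) ^ 2 - s ^ 2 * (q : ℝ) ^ 2 := by ring
    rw [this, hs2, hprop]
  have hη1 : 1 < η := by
    rw [hη]
    have := mul_pos hq1 hs0
    linarith
  have hη0 : 0 < η := by linarith
  have hη'0 : 0 < η' := by
    by_contra h
    have := mul_nonneg hη0.le (neg_nonneg.2 (not_lt.1 h))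
    linarith
  obtain ⟨ρ, hρ⟩ : ∃ ρ : ℝ, ρ = (1 + s) / 2 := ⟨_, rfl⟩
  have hρ0 : 0 < ρ := by rw [hρ]; positivity
  have hpow : ∀ t : ℕ, η ^ t * η' ^ t = 1 := by
    intro t
    rw [← mul_pow, hηη, one_pow]
  refine ⟨max 1 (ρ ^ 2 * η), lt_of_lt_of_le one_pos (le_max_left _ _), ?_⟩
  intro r k hr hk hC1 hC2 x x'
  -- the main step
  have main : ∀ t : ℕ, ρ ≤ η ^ t * r → ρ ≤ η' ^ t * k → ∃ m n : ℤ,
      |x - (m + n * s)| ≤ r ∧ |x' - (m - n * s)| ≤ k := by
    intro t h1 h2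
    have hpt : 0 < η ^ t := pow_pos hη0 t
    have hpt' : 0 < η' ^ t := pow_pos hη'0 t
    obtain ⟨m, n, h3, h4⟩ := DD1_cov hs0 (η ^ t * x) (η' ^ t * x')
    rw [← hρ] at h3 h4
    obtain ⟨m', n', h5, h6⟩ := DD1_mul hs2 p q ⟨Δ, by simp⟩ t m n
    rw [← hη'] at h5
    rw [← hη] at h6
    refine ⟨m', n', ?_, ?_⟩
    · have e : x - (m' + n' * s) = η' ^ t * (η ^ t * x - (m + n * s)) := by
        rw [← h5]
        have := hpow t
        linear_combination (-x) * this
      rw [e, abs_mul, abs_of_pos hpt']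
      calc η' ^ t * |η ^ t * x - (m + n * s)| ≤ η' ^ t * (η ^ t * r) :=
            mul_le_mul_of_nonneg_left (h3.trans h1) hpt'.le
        _ = r := by
            have := hpow t
            linear_combination r * this
    · have e : x' - (m' - n' * s) = η ^ t * (η' ^ t * x' - (m - n * s)) := by
        rw [← h6]
        have := hpow t
        linear_combination (-x') * this
      rw [e, abs_mul, abs_of_pos hpt]
      calc η ^ t * |η' ^ t * x' - (m - n * s)| ≤ η ^ t * (η' ^ t * k) :=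
            mul_le_mul_of_nonneg_left (h4.trans h2) hpt.le
        _ = k := by
            have := hpow t
            linear_combination k * this
  rw [← hs]
  -- the exponent
  have hex : ∃ t : ℕ, ρ ≤ η ^ t * r := by
    obtain ⟨t, ht⟩ := pow_unbounded_of_one_lt (ρ / r) hη1
    refine ⟨t, ?_⟩
    rw [div_lt_iff₀ hr] at ht
    exact ht.le
  classical
  obtain ⟨t, ht⟩ : ∃ t : ℕ, t = Nat.find hex := ⟨_, rfl⟩
  have ht1 : ρ ≤ η ^ t * r := by
    rw [ht]
    exact Nat.find_spec hex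
  refine main t ht1 ?_
  rcases Nat.eq_zero_or_pos t with h0 | h0
  · rw [h0, pow_zero, one_mul] at ht1 ⊢
    have h1 : 1 * r ≤ max 1 (ρ ^ 2 * η) * r := mul_le_mul_of_nonneg_right (le_max_left _ _) hr.le
    linarith
  · have h1 : ¬ ρ ≤ η ^ (t - 1) * r := by
      apply Nat.find_min hex
      omega
    rw [not_le] at h1
    have h2 : η ^ t * r < ρ * η := by
      have e : η ^ t = η ^ (t - 1) * η := by
        rw [← pow_succ]
        congr 1
        omega
      rw [e]
      calc η ^ (t - 1) * η * r = (η ^ (t - 1) * r) * η := by ring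
        _ < ρ * η := mul_lt_mul_of_pos_right h1 hη0
    have hpt : 0 < η ^ t := pow_pos hη0 t
    have hpt' : 0 < η' ^ t := pow_pos hη'0 t
    have h3 : ρ ^ 2 * η ≤ r * k := (le_max_right _ _).trans hC1
    -- ρ * (ρ η) ≤ r k = (η ^ t r) (η' ^ t k) < (ρ η) (η' ^ t k)
    have h4 : r * k = (η ^ t * r) * (η' ^ t * k) := by
      have := hpow t
      linear_combination (-(r * k)) * this
    have h5 : (η ^ t * r) * (η' ^ t * k) ≤ (ρ * η) * (η' ^ t * k) :=
      mul_le_mul_of_nonneg_right h2.le (mul_pos hpt' hk).le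
    have h6 : (ρ * η) * ρ ≤ (ρ * η) * (η' ^ t * k) := by
      calc (ρ * η) * ρ = ρ ^ 2 * η := by ring
        _ ≤ r * k := h3
        _ ≤ _ := by rw [h4]; exact h5
    exact le_of_mul_le_mul_left h6 (mul_pos hρ0 hη0)

end Pool.Agent.LT
end

end

section

/-!
# MP_f58a57_nt, large transcendence degree, part D analysis (row lt-DD3): a tower from a flag of pairs

Proof by induction on `c` (all `Γ`). `c = 0`: `last` gives the nonzero real number. `c + 1`: `Γ₁ := {γ | Fin.cons 0 γ ∈ Γ}` (comap of the additive map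
`γ ↦ Fin.cons 0 γ`). The hypotheses for `Γ₁`: a vector `a ∈ Γ` with `a 0 = 0` is `Fin.cons 0 (Fin.tail a)`. `COV` for the pair of the step `i = 0`.
-/

open Complex Matrix

noncomputable section

namespace Pool.Agent.LT

/-- the additive map `γ ↦ Fin.cons 0 γ` -/
private def consHom (c : ℕ) : Vc c →+ Vc (c + 1) where
  toFun := fun γ => Fin.cons 0 γ
  map_zero' := by
    funext i
    refine Fin.cases ?_ (fun j => ?_) i <;> simp
  map_add' := by
    intro a b
    funext i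
    refine Fin.cases ?_ (fun j => ?_) i <;> simp

theorem tow_of : ∀ (c : ℕ) (Γ : AddSubgroup (Vc c)),
    (∀ (i : ℕ) (hi : i + 1 < c + 1), ∃ a ∈ Γ, ∃ b ∈ Γ, (∀ l : Fin (c + 1), (l : ℕ) < i → a l = 0 ∧ b l = 0) ∧
      COV2 (a ⟨i, by omega⟩) (b ⟨i, by omega⟩) (a ⟨i + 1, hi⟩) (b ⟨i + 1, hi⟩)) →
    (∃ a ∈ Γ, (∀ l : Fin (c + 1), (l : ℕ) < c → a l = 0) ∧ a (Fin.last c) ≠ 0 ∧ (a (Fin.last c)).im = 0) → Tow c Γ := by
  intro c
  induction c with
  | zero =>
    intro Γ _ hl
    obtain ⟨a, ha, _, h1, h2⟩ := hl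
    exact ⟨a, ha, h1, h2⟩
  | succ c ih =>
    intro Γ hp hl
    have hcons : ∀ a : Vc (c + 1), a 0 = 0 → a ∈ Γ → Fin.tail a ∈ Γ.comap (consHom c) := by
      intro a h0 ha
      rw [AddSubgroup.mem_comap]
      have : consHom c (Fin.tail a) = a := by
        show (Fin.cons 0 (Fin.tail a) : Vc (c + 1)) = a
        rw [← h0]
        exact Fin.cons_self_tail a
      rw [this]
      exact ha
    refine ⟨Γ.comap (consHom c), ih _ ?_ ?_, fun γ hγ => hγ, ?_⟩
    · intro i hi
      obtain ⟨a, ha, b, hb, hz, hcov⟩ := hp (i + 1) (by omega)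
      have h0 := hz 0 (by simp)
      refine ⟨Fin.tail a, hcons a h0.1 ha, Fin.tail b, hcons b h0.2 hb, fun l hl => ?_, hcov⟩
      exact hz l.succ (by simpa using hl)
    · obtain ⟨a, ha, hz, h1, h2⟩ := hl
      refine ⟨Fin.tail a, hcons a (hz 0 (by simp)) ha, fun l hl => ?_, h1, h2⟩
      exact hz l.succ (by simpa using hl)
    · obtain ⟨a, ha, b, hb, _, hcov⟩ := hp 0 (by omega)
      exact ⟨a, ha, b, hb, hcov⟩

end Pool.Agent.LT
end

end

section

/-!
# MP_f58a57_nt, large transcendence degree, part D analysis (row lt-DD8): the real form `R`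

`b`, `Y` are the coordinates `u = pt g (b u) (Y u) + k`, `P k = 0` (`P = D.Lt`). Uniqueness: `u - pt g b' y ∈ ker P` implies `b u = b'`, `Y u = y`
(apply `uniq` to the difference; `pt g` is real-linear in `(b', y)`). Note `Y (I • u)` is NOT related to `Y u`. `D.v0 = D.Lt *ᵥ D.gc`, `D.M` rational so
`Im (a ⬝ᵥ (D.Lt *ᵥ rv b')) = ∑ a_j (z_j).im b'_j` for real `a`, `b'`; `a ⬝ᵥ (D.Lt *ᵥ (I y g)) = I y (a ⬝ᵥ v0)` has imaginary part `y ∑ a_j (v0_j).re`.
-/

open Complex Matrix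

noncomputable section

namespace Pool.Agent.LT

variable {c : ℕ} {D : Dat c} {b : VN c →ₗ[ℝ] (Fin (2 * c + 1) → ℝ)} {Y : VN c →ₗ[ℝ] ℝ}

private theorem R8_pt_sub (g : Fin (2 * c + 1) → ℤ) (b1 b2 : Fin (2 * c + 1) → ℝ) (y1 y2 : ℝ) :
    pt g b1 y1 - pt g b2 y2 = pt g (b1 - b2) (y1 - y2) := by
  funext j
  simp only [pt, Pi.sub_apply]
  push_cast
  ring

private theorem R8_unique (h : Dec D D.Lt b Y) (b' : Fin (2 * c + 1) → ℝ) (y : ℝ) :
    b (pt D.g b' y) = b' ∧ Y (pt D.g b' y) = y := by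
  have h1 := h.dec (pt D.g b' y)
  rw [R8_pt_sub] at h1
  obtain ⟨h2, h3⟩ := h.uniq _ _ h1
  exact ⟨(sub_eq_zero.1 h2).symm, (sub_eq_zero.1 h3).symm⟩

theorem Dec.b_pt (h : Dec D D.Lt b Y) (b' : Fin (2 * c + 1) → ℝ) (y : ℝ) : b (pt D.g b' y) = b' :=
  (R8_unique h b' y).1

theorem Dec.Y_pt' (h : Dec D D.Lt b Y) (b' : Fin (2 * c + 1) → ℝ) (y : ℝ) : Y (pt D.g b' y) = y :=
  (R8_unique h b' y).2

theorem Dec.ker0 (h : Dec D D.Lt b Y) {k : VN c} (hk : D.Lt *ᵥ k = 0) : b k = 0 ∧ Y k = 0 := by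
  have h1 := h.dec k
  rw [Matrix.mulVec_sub, hk, zero_sub, neg_eq_zero] at h1
  exact h.uniq _ _ h1

theorem Dec.ker_of (h : Dec D D.Lt b Y) {k : VN c} (h1 : b k = 0) (h2 : Y k = 0) : D.Lt *ᵥ k = 0 := by
  have h3 := h.dec k
  rw [h1, h2] at h3
  have h4 : pt D.g (0 : Fin (2 * c + 1) → ℝ) 0 = 0 := by
    funext j
    simp [pt]
  rwa [h4, sub_zero] at h3

private theorem R8_rv (g : Fin (2 * c + 1) → ℤ) (a : Fin (2 * c + 1) → ℝ) : rv a = pt g a 0 := by
  funext j
  simp [rv, pt]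

theorem Dec.b_rv (h : Dec D D.Lt b Y) (a : Fin (2 * c + 1) → ℝ) : b (rv a) = a ∧ Y (rv a) = 0 := by
  rw [R8_rv D.g a]
  exact R8_unique h a 0

theorem Rf_RB : RB (Rf D b Y) := by
  have hs : ∀ (t : ℝ) (u : VN c), (t : ℂ) • u = t • u := by
    intro t u
    funext j
    simp
  refine ⟨?_, ?_, ?_⟩
  · intro u v
    unfold Rf
    have h1 : ∑ j, (D.z j).im * (b u j * b v j) = ∑ j, (D.z j).im * (b v j * b u j) :=
      Finset.sum_congr rfl fun j _ => by ring
    rw [h1]
    ring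
  · intro u u' v
    unfold Rf
    simp only [map_add, Pi.add_apply, mul_add, add_mul, Finset.sum_add_distrib]
    ring
  · intro t u v
    unfold Rf
    rw [hs]
    simp only [map_smul, Pi.smul_apply, smul_eq_mul]
    have h1 : ∑ j, (D.z j).im * (t * b u j * b v j) = t * ∑ j, (D.z j).im * (b u j * b v j) := by
      rw [Finset.mul_sum]
      exact Finset.sum_congr rfl fun j _ => by ring
    have h2 : ∑ j, (D.v0 j).re * (t * b u j) = t * ∑ j, (D.v0 j).re * b u j := by
      rw [Finset.mul_sum]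
      exact Finset.sum_congr rfl fun j _ => by ring
    rw [h1, h2]
    ring

theorem Rf_ker (h : Dec D D.Lt b Y) {k : VN c} (hk : D.Lt *ᵥ k = 0) (v : VN c) : Rf D b Y k v = 0 := by
  obtain ⟨h1, h2⟩ := h.ker0 hk
  unfold Rf
  rw [h1, h2]
  simp

/-- the key property of `R` -/
theorem Rf_real (h : Dec D D.Lt b Y) (u : VN c) (a : Fin (2 * c + 1) → ℝ) : Rf D b Y u (rv a) = (rv a ⬝ᵥ (D.Lt *ᵥ u)).im := by
  obtain ⟨h1, h2⟩ := h.b_rv a
  have h3 : D.Lt *ᵥ u = D.Lt *ᵥ (pt D.g (b u) (Y u)) := by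
    have h4 := h.dec u
    rw [Matrix.mulVec_sub, sub_eq_zero] at h4
    exact h4
  have h5 : pt D.g (b u) (Y u) = rv (b u) + (I * (Y u : ℂ)) • D.gc := by
    funext j
    simp [pt, rv, Dat.gc]
  rw [h3, h5, Matrix.mulVec_add, Matrix.mulVec_smul, dotProduct_add, dotProduct_smul]
  have h6 : D.Lt *ᵥ D.gc = D.v0 := rfl
  rw [h6]
  have h7 : (rv a ⬝ᵥ (D.Lt *ᵥ rv (b u))).im = ∑ j, (D.z j).im * (b u j * a j) := by
    have h8 : D.Lt *ᵥ rv (b u) = (fun j => D.z j * (b u j : ℂ)) - (fun j => ((∑ l, (D.M j l : ℝ) * b u l : ℝ) : ℂ)) := by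
      unfold Dat.Lt
      rw [Matrix.sub_mulVec]
      congr 1
      · funext j
        rw [Matrix.mulVec_diagonal]
        rfl
      · funext j
        simp only [Matrix.mulVec, dotProduct, Matrix.map_apply, rv]
        push_cast
        rfl
    rw [h8, dotProduct_sub]
    simp only [dotProduct, rv, Complex.sub_im, Complex.im_sum]
    have h9 : ∑ j, ((a j : ℂ) * ((∑ l, (D.M j l : ℝ) * b u l : ℝ) : ℂ)).im = 0 :=
      Finset.sum_eq_zero fun j _ => by
        rw [← Complex.ofReal_mul]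
        exact Complex.ofReal_im _
    rw [h9, sub_zero]
    refine Finset.sum_congr rfl fun j _ => ?_
    simp only [Complex.mul_im, Complex.ofReal_re, Complex.ofReal_im, Complex.mul_re]
    ring
  have h10 : ((I * (Y u : ℂ)) • (rv a ⬝ᵥ D.v0)).im = Y u * ∑ j, (D.v0 j).re * a j := by
    have h11 : (rv a ⬝ᵥ D.v0).re = ∑ j, (D.v0 j).re * a j := by
      simp only [dotProduct, rv, Complex.re_sum]
      refine Finset.sum_congr rfl fun j _ => ?_
      simp only [Complex.mul_re, Complex.ofReal_re, Complex.ofReal_im]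
      ring
    rw [smul_eq_mul, ← h11]
    simp only [Complex.mul_im, Complex.mul_re, Complex.I_re, Complex.I_im, Complex.ofReal_re, Complex.ofReal_im]
    ring
  rw [Complex.add_im, h7, h10]
  unfold Rf
  rw [h1, h2]
  simp

end Pool.Agent.LT
end

end

section

/-!
# MP_f58a57_nt, large transcendence degree, part D analysis (row lt-DD2): the covering lemma

Proof (D.4, COV LEMMA). Put `D = √Δ`, `σ = b1.im - D a1.im ≠ 0`, `α = a1.im`. With `X = m + n D` we have `m a0.re + n b0.re = s X`,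
`m a1.im + n b1.im = α X + n σ`. So it is enough to have `|x/s - X| ≤ r/|s|` and `|y' - n| ≤ k/(2|σ|)` with `y' = (y - α x/s)/σ`, provided `|α| r/|s| ≤ k/2`
(take `C ≥ 2|α|/|s|`). With `X' = m - n D`, `n = (X - X')/(2D)`: `|y' - n| ≤ (|x/s - X| + |x'' - X'|)/(2D)` with `x'' = x/s - 2 D y'`. Apply `pell_cover` with
`r' = min (r/|s|) (D k/(2|σ|))` - or directly `r' = r/|s|`, using `C` large so that `r/|s| ≤ D k/(2|σ|)` - and `k' = D k/(2|σ|)`.
-/

open Complex Matrix

noncomputable section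

namespace Pool.Agent.LT

theorem cov2_of (Δ : ℕ) (hΔ : ¬ IsSquare Δ) (s : ℝ) (hs : s ≠ 0) (a0 b0 a1 b1 : ℂ) (ha0 : a0 = s) (hb0 : b0 = s * ((Real.sqrt Δ : ℝ) : ℂ))
    (h : (b1 - ((Real.sqrt Δ : ℝ) : ℂ) * a1).im ≠ 0) : COV2 a0 b0 a1 b1 := by
  obtain ⟨C0, hC0, hcov⟩ := pell_cover Δ hΔ
  set D : ℝ := Real.sqrt Δ with hD
  have hΔ0 : 0 < Δ := by
    rcases Nat.eq_zero_or_pos Δ with h0 | h0
    · exact absurd ⟨0, by rw [h0]⟩ hΔ
    · exact h0
  have hDpos : 0 < D := Real.sqrt_pos.2 (by exact_mod_cast hΔ0)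
  obtain ⟨σ, hσ⟩ : ∃ σ : ℝ, b1.im = σ + D * a1.im := ⟨b1.im - D * a1.im, by ring⟩
  have hσ0 : σ ≠ 0 := by
    intro h0
    apply h
    simp only [Complex.sub_im, Complex.mul_im, Complex.ofReal_re, Complex.ofReal_im, zero_mul, add_zero]
    rw [hσ, h0]
    ring
  have hS : 0 < |s| := abs_pos.2 hs
  have hG : 0 < |σ| := abs_pos.2 hσ0
  refine ⟨by rw [ha0]; simp, by rw [hb0]; simp, ?_⟩
  have hre0 : a0.re = s := by rw [ha0]; simp
  have hre1 : b0.re = s * D := by rw [hb0]; simp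
  refine ⟨C0 * |s| * |σ| / D + C0 * |σ| / (|s| * D) + 2 * (|σ| / (2 * D) + |a1.im|) / |s| + 1, by positivity, ?_⟩
  intro r k hr hk h1 h2 x y
  have hrk : 0 < r * k := mul_pos hr hk
  have p1 : 0 ≤ C0 * |s| * |σ| / D := by positivity
  have p2 : 0 ≤ C0 * |σ| / (|s| * D) := by positivity
  have p3 : 0 ≤ 2 * (|σ| / (2 * D) + |a1.im|) / |s| := by positivity
  have q1 : C0 * |s| * |σ| / D ≤ r * k := by linarith
  have q2 : C0 * |σ| / (|s| * D) * r ≤ k := by
    refine le_trans (mul_le_mul_of_nonneg_right ?_ hr.le) h2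
    linarith
  have q3 : 2 * (|σ| / (2 * D) + |a1.im|) / |s| * r ≤ k := by
    refine le_trans (mul_le_mul_of_nonneg_right ?_ hr.le) h2
    linarith
  obtain ⟨m, n, hm, hn⟩ := hcov (r / |s|) (D * k / |σ|) (by positivity) (by positivity) (by
      have e : r / |s| * (D * k / |σ|) = r * k * (D / (|s| * |σ|)) := by
        field_simp
      rw [e]
      calc C0 = C0 * |s| * |σ| / D * (D / (|s| * |σ|)) := by field_simp
        _ ≤ r * k * (D / (|s| * |σ|)) := mul_le_mul_of_nonneg_right q1 (by positivity)) (by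
      have e : C0 * (r / |s|) = C0 * |σ| / (|s| * D) * r * (D / |σ|) := by
        field_simp
      rw [e]
      calc C0 * |σ| / (|s| * D) * r * (D / |σ|) ≤ k * (D / |σ|) := mul_le_mul_of_nonneg_right q2 (by positivity)
        _ = D * k / |σ| := by ring) (x / s) (x / s - 2 * D * ((y - a1.im * (x / s)) / σ))
  refine ⟨m, n, ?_, ?_⟩
  · rw [hre0, hre1]
    have e : x - (m * s + n * (s * D)) = s * (x / s - (m + n * D)) := by
      field_simp
    rw [e, abs_mul]
    calc |s| * |x / s - (m + n * D)| ≤ |s| * (r / |s|) := mul_le_mul_of_nonneg_left hm hS.le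
      _ = r := by field_simp
  · rw [hσ]
    have e : y - (m * a1.im + n * (σ + D * a1.im)) =
        σ / (2 * D) * (x / s - (m + n * D)) - σ / (2 * D) * (x / s - 2 * D * ((y - a1.im * (x / s)) / σ) - (m - n * D))
          + a1.im * (x / s - (m + n * D)) := by
      field_simp
      ring
    rw [e]
    have t1 : |σ / (2 * D) * (x / s - (m + n * D))| ≤ |σ| / (2 * D) * (r / |s|) := by
      rw [abs_mul, abs_div, abs_of_pos (by positivity : (0 : ℝ) < 2 * D)]
      exact mul_le_mul_of_nonneg_left hm (by positivity)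
    have t2 : |σ / (2 * D) * (x / s - 2 * D * ((y - a1.im * (x / s)) / σ) - (m - n * D))| ≤ |σ| / (2 * D) * (D * k / |σ|) := by
      rw [abs_mul, abs_div, abs_of_pos (by positivity : (0 : ℝ) < 2 * D)]
      exact mul_le_mul_of_nonneg_left hn (by positivity)
    have t3 : |a1.im * (x / s - (m + n * D))| ≤ |a1.im| * (r / |s|) := by
      rw [abs_mul]
      exact mul_le_mul_of_nonneg_left hm (abs_nonneg _)
    have u2 : |σ| / (2 * D) * (D * k / |σ|) = k / 2 := by
      field_simp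
    have u1 : |σ| / (2 * D) * (r / |s|) + |a1.im| * (r / |s|) = 2 * (|σ| / (2 * D) + |a1.im|) / |s| * r / 2 := by
      field_simp
    have v1 := abs_add_le (σ / (2 * D) * (x / s - (m + n * D)) -
      σ / (2 * D) * (x / s - 2 * D * ((y - a1.im * (x / s)) / σ) - (m - n * D))) (a1.im * (x / s - (m + n * D)))
    have v2 := abs_sub (σ / (2 * D) * (x / s - (m + n * D)))
      (σ / (2 * D) * (x / s - 2 * D * ((y - a1.im * (x / s)) / σ) - (m - n * D)))
    rw [u2] at t2
    linarith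

end Pool.Agent.LT
end

end

section

/-!
# MP_f58a57_nt, large transcendence degree, part D analysis (row lt-DD10): the tower of the sections

`tow_of` for `Γ = Gam D.d ζ`. For the step `i` take `a, b : Fin N → ℤ`, `q` of `FlagD.step` and the vectors `ζ (lat d a)`, `ζ (lat d b)`
(`lat d a = d • zv a`, `x l ⬝ᵥ lat d a = d (x l ⬝ᵥ zv a)`). By `coord`, `tri` and `x l ⬝ᵥ zv a = 0` for `l < i`:
`ζ_m (lat d a) = 0` for `m < i`, `ζ_i (lat d a) = d r_ii q` (real, nonzero: `diag`), `ζ_i (lat d b) = d r_ii q √Δ`,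
`ζ_{i+1} (lat d a) = d (r_{i+1,i+1} x_{i+1}(a) + r_{i+1,i} q)`, `ζ_{i+1} (lat d b) = d (r_{i+1,i+1} x_{i+1}(b) + r_{i+1,i} q √Δ)`, so
`ζ_{i+1}(lat d b) - √Δ ζ_{i+1}(lat d a) = d r_{i+1,i+1} (x_{i+1}(b) - √Δ x_{i+1}(a))` has nonzero imaginary part; `cov2_of` with `s = d r_ii.re q`.
Last step: `FlagD.last`.
-/

open Complex Matrix

noncomputable section

namespace Pool.Agent.LT

variable {c : ℕ}

namespace R10_

theorem dot_lat {n : ℕ} (x : Fin n → ℂ) (d : ℕ) (a : Fin n → ℤ) : x ⬝ᵥ lat d a = (d : ℂ) * (x ⬝ᵥ zv a) := by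
  unfold dotProduct lat zv
  rw [Finset.mul_sum]
  exact Finset.sum_congr rfl fun j _ => by ring

variable {P : Matrix (Fin (2 * c + 1)) (Fin (2 * c + 1)) ℂ} {x : Fin (c + 1) → Fin (2 * c + 1) → ℂ} {H : VN c → VN c → ℂ}
    {ζ : VN c →ₗ[ℂ] Vc c} {sec : Vc c →ₗ[ℂ] VN c} {r : Fin (c + 1) → Fin (c + 1) → ℂ}

theorem zlt (hz : Zt P x H ζ sec r) {i : ℕ} {u : VN c} (hu : ∀ l : Fin (c + 1), (l : ℕ) < i → x l ⬝ᵥ u = 0) (m : Fin (c + 1)) (hm : (m : ℕ) < i) :
    ζ u m = 0 := by
  rw [hz.coord]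
  refine Finset.sum_eq_zero fun l _ => ?_
  rcases lt_or_ge m l with h | h
  · rw [hz.tri m l h, zero_mul]
  · rw [hu l (lt_of_le_of_lt h hm), mul_zero]

theorem zeq (hz : Zt P x H ζ sec r) {i : Fin (c + 1)} {u : VN c} (hu : ∀ l : Fin (c + 1), (l : ℕ) < i → x l ⬝ᵥ u = 0) :
    ζ u i = r i i * (x i ⬝ᵥ u) := by
  rw [hz.coord]
  refine Finset.sum_eq_single i (fun l _ hl => ?_) (fun h => absurd (Finset.mem_univ _) h)
  rcases lt_or_gt_of_ne hl with h | h
  · rw [hu l h, mul_zero]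
  · rw [hz.tri i l h, zero_mul]

theorem zsucc (hz : Zt P x H ζ sec r) {i j : Fin (c + 1)} (hij : (j : ℕ) = i + 1) {u : VN c} (hu : ∀ l : Fin (c + 1), (l : ℕ) < i → x l ⬝ᵥ u = 0) :
    ζ u j = r j j * (x j ⬝ᵥ u) + r j i * (x i ⬝ᵥ u) := by
  rw [hz.coord]
  have hne : j ≠ i := by
    intro h; rw [h] at hij; omega
  rw [← Finset.sum_subset (Finset.subset_univ ({j, i} : Finset (Fin (c + 1)))) (fun l _ hl => ?_), Finset.sum_pair hne]
  simp only [Finset.mem_insert, Finset.mem_singleton, not_or] at hl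
  rcases lt_or_ge (l : ℕ) i with h | h
  · rw [hu l h, mul_zero]
  · have h1 : (l : ℕ) ≠ i := fun h' => hl.2 (Fin.ext h')
    have h2 : (l : ℕ) ≠ j := fun h' => hl.1 (Fin.ext h')
    have h3 : j < l := by
      rw [Fin.lt_def]; omega
    rw [hz.tri j l h3, zero_mul]

theorem re_eq {w : ℂ} (h : w.im = 0) : w = (w.re : ℂ) := by
  apply Complex.ext <;> simp [h]

end R10_

open R10_

theorem tow_Gam (D : Dat c) {Δ : ℕ} (hΔ : ¬ IsSquare Δ) {x : Fin (c + 1) → Fin (2 * c + 1) → ℂ} (hx : FlagD Δ D.Lt x) {H : VN c → VN c → ℂ}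
    {ζ : VN c →ₗ[ℂ] Vc c} {sec : Vc c →ₗ[ℂ] VN c} {r : Fin (c + 1) → Fin (c + 1) → ℂ} (hz : Zt D.Lt x H ζ sec r) : Tow c (Gam D.d ζ) := by
  have hdne : (D.d : ℝ) ≠ 0 := by exact_mod_cast D.hd.ne'
  refine tow_of c _ (fun i hi => ?_) ?_
  · obtain ⟨a, b, q, hq, hl, ha, hb, him⟩ := hx.step i hi
    have hqne : (q : ℝ) ≠ 0 := by exact_mod_cast hq.ne'
    have hua : ∀ l : Fin (c + 1), (l : ℕ) < i → x l ⬝ᵥ lat D.d a = 0 := fun l h => by rw [dot_lat, (hl l h).1, mul_zero]
    have hub : ∀ l : Fin (c + 1), (l : ℕ) < i → x l ⬝ᵥ lat D.d b = 0 := fun l h => by rw [dot_lat, (hl l h).2, mul_zero]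
    refine ⟨ζ (lat D.d a), ⟨a, rfl⟩, ζ (lat D.d b), ⟨b, rfl⟩, fun l h => ⟨zlt hz hua l h, zlt hz hub l h⟩, ?_⟩
    set i0 : Fin (c + 1) := ⟨i, by omega⟩ with hi0
    set i1 : Fin (c + 1) := ⟨i + 1, hi⟩ with hi1
    have hr0 := re_eq (hz.diag i0).2
    have hr1 := re_eq (hz.diag i1).2
    have hp0 := (hz.diag i0).1
    have hp1 := (hz.diag i1).1
    have ea : ζ (lat D.d a) i0 = r i0 i0 * ((D.d : ℂ) * q) := by
      rw [zeq hz (i := i0) hua, dot_lat, ha]
    have eb : ζ (lat D.d b) i0 = r i0 i0 * ((D.d : ℂ) * (q * ((Real.sqrt Δ : ℝ) : ℂ))) := by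
      rw [zeq hz (i := i0) hub, dot_lat, hb]
    have ea1 : ζ (lat D.d a) i1 = r i1 i1 * ((D.d : ℂ) * (x i1 ⬝ᵥ zv a)) + r i1 i0 * ((D.d : ℂ) * q) := by
      rw [zsucc hz (i := i0) (j := i1) rfl hua, dot_lat, dot_lat, ha]
    have eb1 : ζ (lat D.d b) i1 = r i1 i1 * ((D.d : ℂ) * (x i1 ⬝ᵥ zv b)) + r i1 i0 * ((D.d : ℂ) * (q * ((Real.sqrt Δ : ℝ) : ℂ))) := by
      rw [zsucc hz (i := i0) (j := i1) rfl hub, dot_lat, dot_lat, hb]
    refine cov2_of Δ hΔ ((r i0 i0).re * (D.d * q)) ?_ _ _ _ _ ?_ ?_ ?_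
    · exact mul_ne_zero hp0.ne' (mul_ne_zero hdne hqne)
    · rw [ea, hr0]; push_cast; simp
    · rw [eb, hr0]; push_cast; simp; ring
    · have e : ζ (lat D.d b) i1 - ((Real.sqrt Δ : ℝ) : ℂ) * ζ (lat D.d a) i1 =
          (((r i1 i1).re * D.d : ℝ) : ℂ) * (x i1 ⬝ᵥ zv b - ((Real.sqrt Δ : ℝ) : ℂ) * (x i1 ⬝ᵥ zv a)) := by
        rw [ea1, eb1]
        have : (((r i1 i1).re * D.d : ℝ) : ℂ) = r i1 i1 * D.d := by
          conv_rhs => rw [hr1]
          push_cast; rfl
        rw [this]; ring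
      rw [e, Complex.im_ofReal_mul]
      exact mul_ne_zero (mul_ne_zero hp1.ne' hdne) him
  · obtain ⟨a, hl, hne, him⟩ := hx.last
    have hua : ∀ l : Fin (c + 1), (l : ℕ) < c → x l ⬝ᵥ lat D.d a = 0 := fun l h => by rw [dot_lat, hl l h, mul_zero]
    have hr0 := re_eq (hz.diag (Fin.last c)).2
    have hp0 := (hz.diag (Fin.last c)).1
    have ea : ζ (lat D.d a) (Fin.last c) = r (Fin.last c) (Fin.last c) * ((D.d : ℂ) * (x (Fin.last c) ⬝ᵥ zv a)) := by
      rw [zeq hz (i := Fin.last c) (by simpa using hua), dot_lat]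
    refine ⟨ζ (lat D.d a), ⟨a, rfl⟩, fun l h => zlt hz hua l h, ?_, ?_⟩
    · rw [ea]
      refine mul_ne_zero ?_ (mul_ne_zero (by exact_mod_cast D.hd.ne') hne)
      intro h0; rw [h0] at hp0; simp at hp0
    · rw [ea, hr0, re_eq him]
      simp

/-- the imaginary part of the first coordinate.  `x_0` is real on real vectors, so `Im ζ_0 (b' + i y g) = y r_00 x_0(g)`; `x_0 (g) ≠ 0`: otherwise `x_0` is real on all
`pt g b' y`, hence (with `Dec`, `ker`) on `ℂ^N`, hence zero (`x_0 (I u) = I x_0 (u)`), contradicting `FlagD.li`. -/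
theorem im_zeta (D : Dat c) {Δ : ℕ} {x : Fin (c + 1) → Fin (2 * c + 1) → ℂ} (hx : FlagD Δ D.Lt x) {H : VN c → VN c → ℂ}
    {ζ : VN c →ₗ[ℂ] Vc c} {sec : Vc c →ₗ[ℂ] VN c} {r : Fin (c + 1) → Fin (c + 1) → ℂ} (hz : Zt D.Lt x H ζ sec r)
    {b : VN c →ₗ[ℝ] (Fin (2 * c + 1) → ℝ)} {Y : VN c →ₗ[ℝ] ℝ} (hd : Dec D D.Lt b Y) :
    ∃ c3 : ℝ, c3 ≠ 0 ∧ ∀ (b' : Fin (2 * c + 1) → ℝ) (y : ℝ), (ζ (pt D.g b' y) 0).im = c3 * y := by
  set G : ℝ := (x 0 ⬝ᵥ rv (fun j => (D.g j : ℝ))).re with hG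
  have hGc : x 0 ⬝ᵥ rv (fun j => (D.g j : ℝ)) = (G : ℂ) := re_eq (hx.real0 _)
  have hpt : ∀ (b' : Fin (2 * c + 1) → ℝ) (y : ℝ), x 0 ⬝ᵥ pt D.g b' y = x 0 ⬝ᵥ rv b' + I * y * G := by
    intro b' y
    have e : pt D.g b' y = rv b' + (I * y) • rv (fun j => (D.g j : ℝ)) := by
      funext j; simp [pt, rv]
    rw [e, dotProduct_add, dotProduct_smul, hGc, smul_eq_mul]
  have him : ∀ (b' : Fin (2 * c + 1) → ℝ) (y : ℝ), (x 0 ⬝ᵥ pt D.g b' y).im = y * G := by
    intro b' y
    rw [hpt, Complex.add_im, hx.real0]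
    simp
  have hG0 : G ≠ 0 := by
    intro h0
    have hall : ∀ u : VN c, (x 0 ⬝ᵥ u).im = 0 := by
      intro u
      have hk := (hx.ker _).1 (hd.dec u) 0
      rw [dotProduct_sub, sub_eq_zero] at hk
      rw [hk, him, h0, mul_zero]
    have hz0 : ∀ u : VN c, x 0 ⬝ᵥ u = 0 := by
      intro u
      have h1 := hall u
      have h2 := hall (I • u)
      rw [dotProduct_smul, smul_eq_mul] at h2
      simp at h2
      exact Complex.ext h2 h1
    have hx0 : x 0 = 0 := by
      funext j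
      have := hz0 (Pi.single j 1)
      rw [dotProduct_single, mul_one] at this
      exact this
    exact hx.li.ne_zero 0 hx0
  have hp0 := (hz.diag 0).1
  refine ⟨(r 0 0).re * G, mul_ne_zero hp0.ne' hG0, fun b' y => ?_⟩
  have e0 : ζ (pt D.g b' y) 0 = r 0 0 * (x 0 ⬝ᵥ pt D.g b' y) := zeq hz (i := 0) fun l h => absurd h (by simp)
  rw [e0, Complex.mul_im, (hz.diag 0).2, him]
  ring

end Pool.Agent.LT
end

end
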