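import Mathlib
import Pool.Agent.Lib.MP_f58a57_nt.LK.K006
import Pool.Agent.Lib.MP_f58a57_nt.LK.K011
import Pool.Agent.Lib.MP_f58a57_nt.LK.K016

namespace Pool.Agent.LT.B3_
end Pool.Agent.LT.B3_
namespace Pool.Agent.LT.M1_
end Pool.Agent.LT.M1_

section

/-!
# MP_f58a57_nt, large transcendence degree, part C: lemmas on partial derivatives
-/

open Complex Matrix MeasureTheory Topology

noncomputable section

namespace Pool.Agent.LT

theorem pdlC_sum {n : ℕ} {ι : Type} (s : Finset ι) (a : ι → ℂ) (F : ι → (Fin n → ℂ) → ℂ) (hF : ∀ i ∈ s, Differentiable ℂ (F i))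
    (w : List (Fin n)) (u : Fin n → ℂ) : pdl w (fun u => ∑ i ∈ s, a i * F i u) u = ∑ i ∈ s, a i * pdl w (F i) u := by
  rw [pdl_sum s (F := fun i u => a i * F i u) (fun i hi => (hF i hi).const_mul (a i))]
  exact Finset.sum_congr rfl fun i hi => pdl_smul (hF i hi) (a i) w u

theorem pdlC_bound {n : ℕ} {F : (Fin n → ℂ) → ℂ} (hF : Differentiable ℂ F) {M : ℝ} (h : ∀ v : Fin n → ℂ, (∀ i, ‖v i‖ ≤ 1) → ‖F v‖ ≤ M)
    (w : List (Fin n)) : ‖pdl w F 0‖ ≤ (w.length : ℝ) ^ w.length * M :=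
  pdl_bound hF w 0 fun v hv => h v fun i => by simpa using hv i

theorem pdl_int {n : ℕ} (G : ℝ → (Fin n → ℂ) → ℂ) (hc : Continuous (fun q : ℝ × (Fin n → ℂ) => G q.1 q.2))
    (hG : ∀ x, Differentiable ℂ (G x)) (a b : ℝ) (w : List (Fin n)) :
    Differentiable ℂ (fun u => ∫ x in a..b, G x u) ∧ Continuous (fun q : ℝ × (Fin n → ℂ) => pdl w (G q.1) q.2) ∧
      ∀ u, pdl w (fun u => ∫ x in a..b, G x u) u = ∫ x in a..b, pdl w (G x) u := by
  have hc' : Continuous (Function.uncurry (fun (u : Fin n → ℂ) (t : ℝ) => G t u)) := by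
    have := hc.comp (continuous_swap (X := Fin n → ℂ) (Y := ℝ))
    exact this
  refine ⟨PI (fun u t => G t u) hc' hG a b, ?_, fun u => pdl_integral (fun u t => G t u) hc' hG a b w u⟩
  exact (pdl_cont (fun u t => G t u) hc' hG w).comp (continuous_swap (X := ℝ) (Y := Fin n → ℂ))

theorem pdl_param {n : ℕ} (Φ : (Fin n → ℂ) → (Fin n → ℂ) → ℂ) (h : Differentiable ℂ (fun q : (Fin n → ℂ) × (Fin n → ℂ) => Φ q.1 q.2))
    (w : List (Fin n)) : Differentiable ℂ (fun q : (Fin n → ℂ) × (Fin n → ℂ) => pdl w (Φ q.1) q.2) :=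
  pdl_diff_param h w

theorem pdl_schwarz {n : ℕ} {F : (Fin n → ℂ) → ℂ} (hF : Differentiable ℂ F) (T : ℕ) (h : ∀ w : List (Fin n), w.length < T → pdl w F 0 = 0)
    (v : Fin n → ℂ) {M : ℝ} (hM : ∀ t : ℂ, ‖t‖ ≤ 2 → ‖F (t • v)‖ ≤ M) : ‖F v‖ ≤ M / 2 ^ T := by
  set f : ℂ → ℂ := fun t => F (t • v) with hf
  have hfd : Differentiable ℂ f := hF.comp (differentiable_id.smul_const v)
  have hcf : ∀ d < T, cf F v d = 0 := fun d hd => by
    have h1 := cf_eq_words hF v d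
    have h2 : ∀ w : Fin d → Fin n, pdl (List.ofFn w) F 0 = 0 := fun w => h _ (by simpa using hd)
    rw [Finset.sum_eq_zero (fun w _ => by rw [h2 w, mul_zero])] at h1
    exact (mul_eq_zero.1 h1).resolve_left (by exact_mod_cast d.factorial_ne_zero)
  have hit : ∀ d < T, iteratedDeriv d f 0 = 0 := fun d hd => by
    have h1 := cf_eq_iter hF v d
    rw [hcf d hd] at h1
    have h2 : (d.factorial : ℂ) ≠ 0 := by exact_mod_cast d.factorial_ne_zero
    exact (div_eq_zero_iff.1 h1.symm).resolve_right h2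
  rcases Nat.eq_zero_or_pos T with hT | hT
  · subst hT
    simpa using hM 1 (by norm_num)
  have hf0 : f 0 = 0 := by simpa using hit 0 hT
  have han : AnalyticAt ℂ f 0 := hfd.analyticAt 0
  have hord : (T : ℕ∞) ≤ analyticOrderAt f 0 := (natCast_le_analyticOrderAt_iff_iteratedDeriv_eq_zero han).2 hit
  obtain ⟨g, hg, hfg⟩ := (natCast_le_analyticOrderAt han).1 hord
  have hlo : (f · - f 0) =o[𝓝 0] (fun w : ℂ => ‖w - 0‖ ^ (T - 1)) := by
    have h1 : (fun w : ℂ => w ^ T * g w) =O[𝓝 0] (fun w : ℂ => ‖w‖ ^ T) := by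
      have h2 : (fun w : ℂ => g w) =O[𝓝 0] (fun _ : ℂ => (1 : ℝ)) := hg.continuousAt.isBigO_one ℝ
      have h3 : (fun w : ℂ => w ^ T) =O[𝓝 0] (fun w : ℂ => ‖w‖ ^ T) :=
        Asymptotics.isBigO_of_le _ fun w => by simp
      simpa using h3.mul h2
    have h4 : (fun w : ℂ => ‖w‖ ^ T) =o[𝓝 0] (fun w : ℂ => ‖w - 0‖ ^ (T - 1)) := by
      have h5 : (fun w : ℂ => ‖w‖ ^ T) = fun w : ℂ => ‖w‖ * ‖w‖ ^ (T - 1) := by
        funext w
        rw [← pow_succ', Nat.sub_add_cancel hT]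
      rw [h5]
      have h6 : (fun w : ℂ => ‖w‖) =o[𝓝 0] (fun _ : ℂ => (1 : ℝ)) := by
        rw [Asymptotics.isLittleO_one_iff]
        simpa using (continuous_norm.tendsto (0 : ℂ))
      simpa using h6.mul_isBigO (Asymptotics.isBigO_refl (fun w : ℂ => ‖w‖ ^ (T - 1)) (𝓝 0))
    have h7 : (f · - f 0) =ᶠ[𝓝 0] fun w : ℂ => w ^ T * g w := by
      filter_upwards [hfg] with w hw
      rw [hf0, sub_zero, hw]
      simp
    exact (h7.trans_isBigO h1).trans_isLittleO h4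
  have hmaps : Set.MapsTo f (Metric.ball 0 2) (Metric.closedBall (f 0) M) := fun t ht => by
    rw [hf0, mem_closedBall_zero_iff]
    exact hM t (by simpa using (mem_ball_zero_iff.1 ht).le)
  have hfin := Complex.dist_le_mul_div_pow_of_mapsTo_ball_of_isLittleO (z := (1 : ℂ)) hfd.differentiableOn hmaps hlo
    (by rw [mem_ball_zero_iff]; norm_num)
  rw [hf0, dist_zero_right, Nat.sub_add_cancel hT, dist_zero_right, norm_one] at hfin
  have h8 : f 1 = F v := by simp [hf]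
  rw [h8] at hfin
  calc ‖F v‖ ≤ M * (1 / 2) ^ T := hfin
    _ = M / 2 ^ T := by rw [one_div, inv_pow, div_eq_mul_inv]

end Pool.Agent.LT
end

end

section

/-!
# MP_f58a57_nt, large transcendence degree, part C (row lt-C-V3)

Fourier coefficients of a finite trigonometric sum.
-/

open Complex Matrix MeasureTheory

noncomputable section

namespace Pool.Agent.LT

variable {c : ℕ}

private lemma V3_aux {d : ℝ} (hd : 0 < d) (n : ℤ) (hn : n ≠ 0) :
    ∫ x in (0 : ℝ)..d, exp ((2 * Real.pi * I * n / d) * (x : ℂ)) = 0 := by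
  have hd' : (d : ℂ) ≠ 0 := by exact_mod_cast hd.ne'
  have hn' : (n : ℂ) ≠ 0 := by exact_mod_cast hn
  have h0 : (2 * Real.pi * I * n / d : ℂ) ≠ 0 := by
    have := Complex.two_pi_I_ne_zero
    exact div_ne_zero (mul_ne_zero this hn') hd'
  rw [integral_exp_mul_complex h0]
  have h1 : (2 * Real.pi * I * n / d : ℂ) * (d : ℂ) = n * (2 * Real.pi * I) := by
    field_simp
  rw [h1, Complex.exp_int_mul_two_pi_mul_I]
  simp

theorem fourier_fin {d : ℝ} (hd : 0 < d) {j : ℕ} (a : Fin j → ℂ) (κ : Fin j → ℤ) (hκ : Function.Injective κ) (i : Fin j) :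
    (d : ℂ)⁻¹ * ∫ x in (0 : ℝ)..d, (∑ l, a l * ee (κ l * x / d)) * ee (-(κ i * x / d)) = a i := by
  have hd' : (d : ℂ) ≠ 0 := by exact_mod_cast hd.ne'
  have h1 : ∀ x : ℝ, (∑ l, a l * ee (κ l * x / d)) * ee (-(κ i * x / d)) =
      ∑ l, a l * exp ((2 * Real.pi * I * ((κ l - κ i : ℤ) : ℂ) / d) * (x : ℂ)) := by
    intro x
    rw [Finset.sum_mul]
    refine Finset.sum_congr rfl fun l _ => ?_
    rw [ee, ee, mul_assoc, ← Complex.exp_add]
    congr 2
    push_cast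
    ring
  simp_rw [h1]
  rw [intervalIntegral.integral_finsetSum]
  · rw [Finset.sum_eq_single i]
    · simp only [sub_self, Int.cast_zero, mul_zero, zero_div, zero_mul, Complex.exp_zero, mul_one,
        intervalIntegral.integral_const, sub_zero, Complex.real_smul]
      field_simp
    · intro l _ hl
      rw [intervalIntegral.integral_const_mul, V3_aux hd _ (sub_ne_zero.mpr (fun h => hl (hκ h))), mul_zero]
    · intro h; exact absurd (Finset.mem_univ i) h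
  · intro l _
    apply Continuous.intervalIntegrable
    fun_prop

end Pool.Agent.LT
end

end

section

/-!
# MP_f58a57_nt, large transcendence degree, part C (row lt-C-M1)

Periodicity and the transformation properties of f_(u,s)(x) (see C.1 of the paper).
-/

open Complex Matrix MeasureTheory

noncomputable section

namespace Pool.Agent.LT

variable {c : ℕ}

namespace M1_

theorem lat_gc (D : Dat c) : lat D.d D.g = (D.d : ℂ) • D.gc := by
  funext j
  simp [lat, Dat.gc]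

theorem v0_gc (D : Dat c) : D.v0 ⬝ᵥ D.gc = D.nu := by
  rw [dotProduct_comm]; rfl

theorem ee_diff : Differentiable ℂ ee := by
  unfold ee
  fun_prop

theorem dot_diff (v : VN c) : Differentiable ℂ (fun u : VN c => v ⬝ᵥ u) := by
  unfold dotProduct
  fun_prop

end M1_

open M1_

theorem fm_diff {D : Dat c} {Φ : VN c → VN c → ℂ} {C C' : (Fin (2 * c + 1) → ℤ) → ℂ} (hK : Ker D Φ C C') (μ : ℂ) :
    Differentiable ℂ (fun q : ℂ × VN c × VN c => fm D Φ μ q.2.1 q.2.2 q.1) := by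
  have h1 : Differentiable ℂ (fun q : ℂ × VN c × VN c => ((q.2.1 + q.1 • D.gc, q.2.2) : VN c × VN c)) := by
    fun_prop
  have h2 : Differentiable ℂ (fun q : ℂ × VN c × VN c => Φ (q.2.1 + q.1 • D.gc) q.2.2) := hK.diff.comp h1
  have h3 : Differentiable ℂ (fun q : ℂ × VN c × VN c => D.v0 ⬝ᵥ q.2.1) :=
    (dot_diff D.v0).comp (differentiable_fst.comp differentiable_snd)
  have h4 : Differentiable ℂ (fun q : ℂ × VN c × VN c => D.nu * q.1 ^ 2 / 2 + q.1 * (D.v0 ⬝ᵥ q.2.1) + μ * q.1) := by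
    fun_prop
  unfold fm
  exact h2.mul (ee_diff.comp h4)

theorem fm_per {D : Dat c} {Φ : VN c → VN c → ℂ} {C C' : (Fin (2 * c + 1) → ℤ) → ℂ} (hK : Ker D Φ C C') {μ : ℂ} (hμ : Mu D C μ)
    (u s : VN c) (x : ℂ) : fm D Φ μ u s (x + (D.d : ℝ)) = fm D Φ μ u s x := by
  have h1 : u + (x + ((D.d : ℝ) : ℂ)) • D.gc = (u + x • D.gc) + lat D.d D.g := by
    rw [lat_gc, add_smul, ← add_assoc]; simp
  have h2 := (hK.secu s).per D.g (u + x • D.gc)
  unfold fm
  rw [h1, h2, lat_gc, smul_dotProduct, gc_dot_Lt, dotProduct_add, dotProduct_smul, v0_gc]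
  have h3 : ee (-((D.d : ℂ) • (D.v0 ⬝ᵥ u + x • D.nu))) *
      ee (D.nu * (x + ((D.d : ℝ) : ℂ)) ^ 2 / 2 + (x + ((D.d : ℝ) : ℂ)) * (D.v0 ⬝ᵥ u) + μ * (x + ((D.d : ℝ) : ℂ))) =
      ee (D.nu * (D.d : ℂ) ^ 2 / 2 + μ * D.d) * ee (D.nu * x ^ 2 / 2 + x * (D.v0 ⬝ᵥ u) + μ * x) := by
    rw [← ee_add, ← ee_add]
    congr 1
    simp only [smul_eq_mul]
    push_cast
    ring
  have h4 : C D.g * ee (D.nu * (D.d : ℂ) ^ 2 / 2 + μ * D.d) = 1 := hμ
  calc _ = C D.g * Φ (u + x • D.gc) s * (ee (-((D.d : ℂ) • (D.v0 ⬝ᵥ u + x • D.nu))) *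
      ee (D.nu * (x + ((D.d : ℝ) : ℂ)) ^ 2 / 2 + (x + ((D.d : ℝ) : ℂ)) * (D.v0 ⬝ᵥ u) + μ * (x + ((D.d : ℝ) : ℂ)))) := by ring
    _ = (C D.g * ee (D.nu * (D.d : ℂ) ^ 2 / 2 + μ * D.d)) *
        (Φ (u + x • D.gc) s * ee (D.nu * x ^ 2 / 2 + x * (D.v0 ⬝ᵥ u) + μ * x)) := by rw [h3]; ring
    _ = _ := by rw [h4, one_mul]

theorem fm_lat {D : Dat c} {Φ : VN c → VN c → ℂ} {C C' : (Fin (2 * c + 1) → ℤ) → ℂ} (hK : Ker D Φ C C') (μ : ℂ)
    (u s : VN c) (a : Fin (2 * c + 1) → ℤ) (x : ℂ) :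
    fm D Φ μ (u + lat D.d a) s x = C a * ee (-(lat D.d a ⬝ᵥ (D.Lt *ᵥ u))) * fm D Φ μ u s x := by
  have h1 : u + lat D.d a + x • D.gc = (u + x • D.gc) + lat D.d a := by abel
  have h2 := (hK.secu s).per a (u + x • D.gc)
  have h5 : D.Lt *ᵥ D.gc = D.v0 := rfl
  unfold fm
  rw [h1, h2, mulVec_add, mulVec_smul, h5, dotProduct_add, dotProduct_smul, dotProduct_add]
  have h3 : ee (-(lat D.d a ⬝ᵥ (D.Lt *ᵥ u) + x • (lat D.d a ⬝ᵥ D.v0))) *
      ee (D.nu * x ^ 2 / 2 + x * (D.v0 ⬝ᵥ u + D.v0 ⬝ᵥ lat D.d a) + μ * x) =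
      ee (-(lat D.d a ⬝ᵥ (D.Lt *ᵥ u))) * ee (D.nu * x ^ 2 / 2 + x * (D.v0 ⬝ᵥ u) + μ * x) := by
    rw [← ee_add, ← ee_add]
    congr 1
    rw [dotProduct_comm D.v0 (lat D.d a)]
    simp only [smul_eq_mul]
    ring
  calc _ = C a * Φ (u + x • D.gc) s * (ee (-(lat D.d a ⬝ᵥ (D.Lt *ᵥ u) + x • (lat D.d a ⬝ᵥ D.v0))) *
      ee (D.nu * x ^ 2 / 2 + x * (D.v0 ⬝ᵥ u + D.v0 ⬝ᵥ lat D.d a) + μ * x)) := by ring
    _ = _ := by rw [h3]; ring

theorem fm_ker {D : Dat c} {Φ : VN c → VN c → ℂ} {C C' : (Fin (2 * c + 1) → ℤ) → ℂ} (hK : Ker D Φ C C') (μ : ℂ)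
    (u s k : VN c) (hk : D.Lt *ᵥ k = 0) (x : ℂ) : fm D Φ μ (u + k) s x = fm D Φ μ u s x := by
  have h1 : u + k + x • D.gc = (u + x • D.gc) + k := by abel
  have h2 := (hK.secu s).ker k hk (u + x • D.gc)
  have h3 : D.v0 ⬝ᵥ k = 0 := by
    rw [← gc_dot_Lt, hk, dotProduct_zero]
  unfold fm
  rw [h1, h2, dotProduct_add, h3, add_zero]

theorem fm_gu {D : Dat c} {Φ : VN c → VN c → ℂ} {C C' : (Fin (2 * c + 1) → ℤ) → ℂ} (hK : Ker D Φ C C') (μ : ℂ)
    (u s : VN c) (ξ x : ℂ) :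
    fm D Φ μ (u + ξ • D.gc) s x = ee (-(D.nu * ξ ^ 2 / 2) - ξ * (D.v0 ⬝ᵥ u) - μ * ξ) * fm D Φ μ u s (x + ξ) := by
  have h1 : u + ξ • D.gc + x • D.gc = u + (x + ξ) • D.gc := by rw [add_smul]; abel
  unfold fm
  rw [h1, dotProduct_add, dotProduct_smul, v0_gc]
  have h3 : ee (D.nu * x ^ 2 / 2 + x * (D.v0 ⬝ᵥ u + ξ • D.nu) + μ * x) =
      ee (-(D.nu * ξ ^ 2 / 2) - ξ * (D.v0 ⬝ᵥ u) - μ * ξ) *
      ee (D.nu * (x + ξ) ^ 2 / 2 + (x + ξ) * (D.v0 ⬝ᵥ u) + μ * (x + ξ)) := by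
    rw [← ee_add]
    congr 1
    simp only [smul_eq_mul]
    ring
  rw [h3]
  ring

end Pool.Agent.LT
end

end

section

/-!
# MP_f58a57_nt, large transcendence degree, part C (row lt-C-M2)

Transformation properties of f_(u,s)(x) in s and for the jump (see C.1 of the paper; (C4): use (P4) = Ker.sh with x = -xi at the point (u + (x+xi) g, s)).
-/

open Complex Matrix MeasureTheory

noncomputable section

namespace Pool.Agent.LT

variable {c : ℕ}

theorem fm_lat' {D : Dat c} {Φ : VN c → VN c → ℂ} {C C' : (Fin (2 * c + 1) → ℤ) → ℂ} (hK : Ker D Φ C C') (μ : ℂ)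
    (u s : VN c) (a : Fin (2 * c + 1) → ℤ) (x : ℂ) :
    fm D Φ μ u (s + lat D.d a) x = C' a * ee (-(lat D.d a ⬝ᵥ (D.L *ᵥ s))) * fm D Φ μ u s x := by
  have h := (hK.secs (u + x • D.gc)).per a s
  simp only [fm]
  rw [h]
  ring

theorem fm_ker' {D : Dat c} {Φ : VN c → VN c → ℂ} {C C' : (Fin (2 * c + 1) → ℤ) → ℂ} (hK : Ker D Φ C C') (μ : ℂ)
    (u s k : VN c) (hk : D.L *ᵥ k = 0) (x : ℂ) : fm D Φ μ u (s + k) x = fm D Φ μ u s x := by
  have h := (hK.secs (u + x • D.gc)).ker k hk s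
  simp only [fm]
  rw [h]

theorem fm_gs {D : Dat c} {Φ : VN c → VN c → ℂ} {C C' : (Fin (2 * c + 1) → ℤ) → ℂ} (hK : Ker D Φ C C') (μ : ℂ)
    (u s : VN c) (ξ x : ℂ) :
    fm D Φ μ u (s + ξ • D.gc) x = ee (-(D.nu * ξ ^ 2 / 2) - ξ * (D.v0 ⬝ᵥ s) - μ * ξ) * fm D Φ μ u s (x + ξ) := by
  have h := hK.sh (-ξ) (u + (x + ξ) • D.gc) s
  have e1 : u + (x + ξ) • D.gc + (-ξ) • D.gc = u + x • D.gc := by
    rw [add_assoc, ← add_smul]
    congr 2
    ring
  have e2 : s - (-ξ) • D.gc = s + ξ • D.gc := by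
    rw [neg_smul, sub_neg_eq_add]
  rw [e1, e2] at h
  have hν : D.v0 ⬝ᵥ D.gc = D.nu := dotProduct_comm _ _
  have e3 : D.v0 ⬝ᵥ (s - (u + (x + ξ) • D.gc)) =
      D.v0 ⬝ᵥ s - (D.v0 ⬝ᵥ u + (x + ξ) * D.nu) := by
    rw [dotProduct_sub, dotProduct_add, dotProduct_smul, hν, smul_eq_mul]
  rw [e3] at h
  simp only [fm]
  rw [h]
  have e4 : ee (-ξ * (D.v0 ⬝ᵥ s - (D.v0 ⬝ᵥ u + (x + ξ) * D.nu)) - (-ξ) ^ 2 * D.nu) *
      ee (D.nu * x ^ 2 / 2 + x * (D.v0 ⬝ᵥ u) + μ * x) =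
      ee (-(D.nu * ξ ^ 2 / 2) - ξ * (D.v0 ⬝ᵥ s) - μ * ξ) *
        ee (D.nu * (x + ξ) ^ 2 / 2 + (x + ξ) * (D.v0 ⬝ᵥ u) + μ * (x + ξ)) := by
    rw [← ee_add, ← ee_add]
    congr 1
    ring
  calc _ = (ee (-ξ * (D.v0 ⬝ᵥ s - (D.v0 ⬝ᵥ u + (x + ξ) * D.nu)) - (-ξ) ^ 2 * D.nu) *
      ee (D.nu * x ^ 2 / 2 + x * (D.v0 ⬝ᵥ u) + μ * x)) * Φ (u + (x + ξ) • D.gc) s := by ring
    _ = _ := by
      rw [e4]
      ring

theorem fm_jump {D : Dat c} {Φ : VN c → VN c → ℂ} {p p' : VN c} {nn : Fin (2 * c + 1) → ℤ} {C5 : ℂ} {m : ℤ} (hJ : Jump D Φ p p' nn C5 m) (μ : ℂ)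
    (u s : VN c) (x : ℂ) :
    fm D Φ μ (u + p) (s + p') x = C5 * ee (p ⬝ᵥ (D.L *ᵥ s) + u ⬝ᵥ (D.L *ᵥ p')) * (ee (m * x) * fm D Φ μ u s x) := by
  have h := hJ.jmp (u + x • D.gc) s
  have e1 : u + x • D.gc + p = u + p + x • D.gc := by
    rw [add_right_comm]
  rw [e1] at h
  have e2 : (u + x • D.gc) ⬝ᵥ (D.L *ᵥ p') = u ⬝ᵥ (D.L *ᵥ p') + x * (D.v0 ⬝ᵥ p') := by
    rw [add_dotProduct, smul_dotProduct, gc_dot_L, smul_eq_mul]
  have hm : D.v0 ⬝ᵥ p' + D.v0 ⬝ᵥ p = (m : ℂ) := by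
    have h1 : D.gc ⬝ᵥ (D.L *ᵥ p' + D.Lt *ᵥ p) = D.gc ⬝ᵥ (fun j => (nn j : ℂ)) := by
      rw [hJ.eq]
    rw [dotProduct_add, gc_dot_L, gc_dot_Lt] at h1
    rw [h1, hJ.hm]
    simp [dotProduct, Dat.gc]
  rw [e2] at h
  simp only [fm]
  rw [h, dotProduct_add]
  have e4 : ee (p ⬝ᵥ (D.L *ᵥ s) + (u ⬝ᵥ (D.L *ᵥ p') + x * (D.v0 ⬝ᵥ p'))) *
      ee (D.nu * x ^ 2 / 2 + x * (D.v0 ⬝ᵥ u + D.v0 ⬝ᵥ p) + μ * x) =
      ee (p ⬝ᵥ (D.L *ᵥ s) + u ⬝ᵥ (D.L *ᵥ p')) * (ee (m * x) *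
        ee (D.nu * x ^ 2 / 2 + x * (D.v0 ⬝ᵥ u) + μ * x)) := by
    rw [← ee_add, ← ee_add, ← ee_add, ← hm]
    congr 1
    ring
  calc _ = C5 * (ee (p ⬝ᵥ (D.L *ᵥ s) + (u ⬝ᵥ (D.L *ᵥ p') + x * (D.v0 ⬝ᵥ p'))) *
      ee (D.nu * x ^ 2 / 2 + x * (D.v0 ⬝ᵥ u + D.v0 ⬝ᵥ p) + μ * x)) * Φ (u + x • D.gc) s := by ring
    _ = _ := by
      rw [e4]
      ring

end Pool.Agent.LT
end

end

section

/-!
# MP_f58a57_nt, large transcendence degree, part E: definitions

The kernel `Ph` built from the odd theta function of the library (base point `1/2`), the variables `Va`, their values `vv`, the derivations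
`Du`, `Ds` and the operators `nabU`, `nabS` on integer polynomials.
-/

open Complex MvPolynomial Matrix

noncomputable section

namespace Pool.Agent.LT

/-- THEOREM E -/
def ThmE : Prop :=
  ∀ (c : ℕ) (D : Dat c), (∀ j, NQ (D.z j)) → (∀ j, deriv MSD.jj (D.z j) ≠ 0) →
    ∃ (Φ : (Fin (2 * c + 1) → ℂ) → (Fin (2 * c + 1) → ℂ) → ℂ) (C C' : (Fin (2 * c + 1) → ℤ) → ℂ), Ker D Φ C C' ∧
      ∃ (m : ℕ) (θ : Fin m → ℂ) (lam : ℂ) (CE : ℝ), lam ≠ 0 ∧
        Algebra.trdeg ℚ (Algebra.adjoin ℚ (Set.range θ)) ≤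
          Algebra.trdeg ℚ (IntermediateField.adjoin ℚ
            (⋃ j, {D.z j, MSD.jj (D.z j), deriv MSD.jj (D.z j), deriv (deriv MSD.jj) (D.z j)} : Set ℂ)) ∧
        ∀ T : ℕ, 2 ≤ T → ∃ P : Matrix (Wd (2 * c + 1) T) (Wd (2 * c + 1) T) (MvPolynomial (Fin m) ℤ),
          (∀ w w', ((P w w').totalDegree : ℝ) ≤ CE * T) ∧ (∀ w w', len (P w w') ≤ Real.exp (CE * T * Real.log T)) ∧
            ∀ w w', aeval θ (P w w') = lam ^ ((w.1 : ℕ) + (w'.1 : ℕ)) * mix Φ w.l w'.l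

end Pool.Agent.LT

namespace Pool.Agent.LT.KE

/-! ### The kernel -/

/-- the theta function with base point `1/2`, normalised -/
def th1 (z x : ℂ) : ℂ := MSP.th z (1 / 2 + x) / MSP.th z (1 / 2)

variable {c : ℕ} (D : Dat c)

/-- the arguments of the theta functions -/
def xa (u s : Fin (2 * c + 1) → ℂ) : Fin (2 * c + 1) → ℂ := D.L *ᵥ s + D.Lt *ᵥ u

/-- the kernel -/
def Ph (u s : Fin (2 * c + 1) → ℂ) : ℂ := ee (u ⬝ᵥ (D.L *ᵥ s)) * ∏ j, th1 (D.z j) (xa D u s j)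

/-- the multiplier in `u` -/
def Cu (a : Fin (2 * c + 1) → ℤ) : ℂ :=
  ∏ j, ((-1 : ℂ) ^ ((D.dM *ᵥ a) j) * cexp (-(Real.pi * I * ((D.d : ℂ) * (a j : ℂ)) ^ 2 * D.z j)))

/-- the multiplier in `s` -/
def Cs (a : Fin (2 * c + 1) → ℤ) : ℂ :=
  ∏ j, ((-1 : ℂ) ^ ((D.dMᵀ *ᵥ a) j) * cexp (-(Real.pi * I * ((D.d : ℂ) * (a j : ℂ)) ^ 2 * D.z j)))

/-! ### Variables and their values -/

/-- the variables -/
inductive Va (N : ℕ) : Type
  | z (j : Fin N)
  | i
  | X (j : Fin N)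
  | Y (j : Fin N)
  | g (j : Fin N)
  | k (j : Fin N)
  | p (j : Fin N)
  | U (l : Fin N)
  | S (l : Fin N)
  deriving DecidableEq, Fintype

/-- `ω = √π` -/
def om : ℂ := ((Real.sqrt Real.pi : ℝ) : ℂ)

/-- the values of the variables at a point -/
def vv {N : ℕ} (z x u s : Fin N → ℂ) : Va N → ℂ
  | .z j => z j
  | .i => I
  | .X j => MSP.wp (z j) (MSP.sE (z j)) (1 / 2 + x j) / om ^ 2
  | .Y j => deriv (MSP.wp (z j) (MSP.sE (z j))) (1 / 2 + x j) / om ^ 3
  | .g j => 2 / 3 * Real.pi ^ 4 * MSD.e4 (z j) / om ^ 4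
  | .k j => MSP.sE (z j) / om ^ 2
  | .p j => MSP.ph (z j) (1 / 2 + x j) / om
  | .U l => om * u l
  | .S l => om * s l

/-- the values at `(u, s)` -/
def ev (u s : Fin (2 * c + 1) → ℂ) : Va (2 * c + 1) → ℂ := vv D.z (xa D u s) u s

/-- the regular points -/
def Reg {N : ℕ} (z x : Fin N → ℂ) : Prop := ∀ j, MSP.th (z j) (1 / 2 + x j) ≠ 0

/-! ### Derivations -/

/-- the derivation with `X' = a Y`, `Y' = a (6 X² - g)`, `ψ' = - a (X + k)`, `U' = b`, `S' = b'` -/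
def dV {N : ℕ} (a b b' : Fin N → MvPolynomial (Va N) ℤ) : Derivation ℤ (MvPolynomial (Va N) ℤ) (MvPolynomial (Va N) ℤ) :=
  MvPolynomial.mkDerivation ℤ (fun v => match v with
    | .z _ => 0
    | .i => 0
    | .X j => a j * MvPolynomial.X (Va.Y j)
    | .Y j => a j * (6 * MvPolynomial.X (Va.X j) ^ 2 - MvPolynomial.X (Va.g j))
    | .g _ => 0
    | .k _ => 0
    | .p j => -(a j * (MvPolynomial.X (Va.X j) + MvPolynomial.X (Va.k j)))
    | .U l => b l
    | .S l => b' l)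

/-- the entries of `d Lᵀ` -/
def cLt (j l : Fin (2 * c + 1)) : MvPolynomial (Va (2 * c + 1)) ℤ :=
  (if j = l then MvPolynomial.C (D.d : ℤ) * MvPolynomial.X (Va.z j) else 0) - MvPolynomial.C (D.dM j l)

/-- the entries of `d L` -/
def cL (j l : Fin (2 * c + 1)) : MvPolynomial (Va (2 * c + 1)) ℤ :=
  (if j = l then MvPolynomial.C (D.d : ℤ) * MvPolynomial.X (Va.z j) else 0) - MvPolynomial.C (D.dM l j)

/-- the basis vector `d e_l` -/
def dl (l l' : Fin (2 * c + 1)) : MvPolynomial (Va (2 * c + 1)) ℤ := if l' = l then MvPolynomial.C (D.d : ℤ) else 0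

def Du (l : Fin (2 * c + 1)) : Derivation ℤ (MvPolynomial (Va (2 * c + 1)) ℤ) (MvPolynomial (Va (2 * c + 1)) ℤ) :=
  dV (fun j => cLt D j l) (dl D l) 0

def Ds (l : Fin (2 * c + 1)) : Derivation ℤ (MvPolynomial (Va (2 * c + 1)) ℤ) (MvPolynomial (Va (2 * c + 1)) ℤ) :=
  dV (fun j => cL D j l) 0 (dl D l)

def AU (l : Fin (2 * c + 1)) : MvPolynomial (Va (2 * c + 1)) ℤ :=
  2 * MvPolynomial.X Va.i * ∑ k, cL D l k * MvPolynomial.X (Va.S k) + ∑ j, cLt D j l * MvPolynomial.X (Va.p j)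

def AS (l : Fin (2 * c + 1)) : MvPolynomial (Va (2 * c + 1)) ℤ :=
  2 * MvPolynomial.X Va.i * ∑ k, cLt D l k * MvPolynomial.X (Va.U k) + ∑ j, cL D j l * MvPolynomial.X (Va.p j)

def nabU (l : Fin (2 * c + 1)) (R : MvPolynomial (Va (2 * c + 1)) ℤ) : MvPolynomial (Va (2 * c + 1)) ℤ := Du D l R + AU D l * R

def nabS (l : Fin (2 * c + 1)) (R : MvPolynomial (Va (2 * c + 1)) ℤ) : MvPolynomial (Va (2 * c + 1)) ℤ := Ds D l R + AS D l * R

/-- the iterated operators -/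
def nabW {κ M : Type} (f : κ → M → M) : List κ → M → M
  | [], R => R
  | i :: w, R => f i (nabW f w R)

/-- the polynomials of the entries -/
def PP (w w' : List (Fin (2 * c + 1))) : MvPolynomial (Va (2 * c + 1)) ℤ := nabW (nabU D) w (nabW (nabS D) w' 1)

end Pool.Agent.LT.KE
end

end

section

/-! # A3b: small weights and division by the discriminant (MP_f58a57_nt) -/

open Complex ModularForm EisensteinSeries Filter
open UpperHalfPlane hiding I
open scoped Topology MatrixGroups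

noncomputable section

namespace Pool.Agent.MSD

theorem a3w_of (z : ℂ) (hz : 0 < z.im) : ((ofComplex z : ℍ) : ℂ) = z := by
  rw [ofComplex_apply_of_im_pos hz]

theorem a3w_val {k : ℤ} {f : ℂ → ℂ} {F : ModularForm 𝒮ℒ k} (hF : ∀ z : ℍ, F z = f z)
    (z : ℂ) (hz : 0 < z.im) : f z = F (ofComplex z) := by
  rw [hF, a3w_of z hz]

/-- A3b. Modular forms of weight zero are constant, there are none of weight 2 and of odd weight. -/
theorem IsMF.weight_zero {f : ℂ → ℂ} (hf : IsMF 0 f) : ∃ c : ℂ, ∀ z : ℂ, 0 < z.im → f z = c := by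
  obtain ⟨F, hF⟩ := hf.exists_form
  obtain ⟨c, hc⟩   := ModularFormClass.levelOne_weight_zero_const (ModularForm.mcast (by norm_num : ((0 : ℕ) : ℤ) = 0) F)
  refine ⟨c, fun z hz => ?_⟩
  rw [a3w_val hF z hz]
  have h := congrFun hc (ofComplex z)
  exact h

theorem IsMF.weight_two {f : ℂ → ℂ} (hf : IsMF 2 f) : ∀ z : ℂ, 0 < z.im → f z = 0 := by
  obtain ⟨F, hF⟩ := hf.exists_form
  intro z hz
  have h := rank_zero_iff_forall_zero.mp ModularForm.levelOne_weight_two_rank_zero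
    (ModularForm.mcast (by norm_num : ((2 : ℕ) : ℤ) = 2) F)
  rw [a3w_val hF z hz]
  have h2 := congrArg (fun G : ModularForm 𝒮ℒ 2 => G (ofComplex z)) h
  exact h2

theorem IsMF.weight_odd {k : ℕ} (hk : Odd k) {f : ℂ → ℂ} (hf : IsMF k f) : ∀ z : ℂ, 0 < z.im → f z = 0 := by
  obtain ⟨F, hF⟩ := hf.exists_form
  intro z hz
  have h := ModularForm.levelOne_odd_weight_eq_zero (k := (k : ℤ)) (by exact_mod_cast hk) F
  rw [a3w_val hF z hz, h]
  rfl

theorem a3w_coeff {k : ℤ} (F : ModularForm 𝒮ℒ k)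
    (h0 : Tendsto (fun y : ℝ => F (ofComplex (I * y))) atTop (𝓝 0)) :
    (qExpansion 1 F).coeff 0 = 0 := by
  have han := ModularFormClass.analyticAt_cuspFunction_zero F one_pos one_mem_strictPeriods_SL
  have h1 : Tendsto F atImInfty (𝓝 (cuspFunction 1 F 0)) := by
    have h2 := han.continuousAt.tendsto.comp (qParam_tendsto_atImInfty one_pos)
    refine h2.congr fun τ => ?_
    exact SlashInvariantFormClass.eq_cuspFunction F τ one_mem_strictPeriods_SL one_ne_zero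
  have h4 : Tendsto (fun y : ℝ => ofComplex (I * y)) atTop atImInfty := by
    refine tendsto_comap_im_ofComplex.comp (tendsto_comap_iff.2 ?_)
    refine tendsto_id.congr fun y => ?_
    simp
  have h5 := tendsto_nhds_unique h0 (h1.comp h4)
  simp [qExpansion_coeff, ← h5]

theorem a3w_isMF {k : ℕ} (G : ModularForm 𝒮ℒ k) : IsMF k (fun z => G (ofComplex z)) where
  diff := UpperHalfPlane.mdifferentiable_iff.mp G.holo'
  per z hz := by
    have h := SlashInvariantFormClass.periodic_comp_ofComplex G one_mem_strictPeriods_SL z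
    simpa using h
  inv z hz := by
    have hz' : 0 < (-1 / z).im := by
      rw [neg_div, Complex.neg_im, one_div, Complex.inv_im]
      rw [neg_div, neg_neg]
      exact div_pos hz (Complex.normSq_pos.mpr (by rintro rfl; simp at hz))
    have h6 := SlashInvariantForm.slash_action_eqn'' (Γ := 𝒮ℒ) G
      (γ := (ModularGroup.S : GL (Fin 2) ℝ)) (MonoidHom.mem_range.mpr ⟨ModularGroup.S, rfl⟩) (ofComplex z)
    have h7 : ((ModularGroup.S : GL (Fin 2) ℝ) • (ofComplex z) : ℍ) = ofComplex (-1 / z) := by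
      apply UpperHalfPlane.ext
      rw [a3w_of _ hz']
      have h8 : (((ModularGroup.S : SL(2, ℤ)) • (ofComplex z) : ℍ) : ℂ) = -1 / z := by
        rw [coe_specialLinearGroup_apply]
        simp [ModularGroup.S, a3w_of z hz]
      exact h8
    have h9 : denom (ModularGroup.S : GL (Fin 2) ℝ) (ofComplex z) = z := by
      have h10 := ModularGroup.denom_apply ModularGroup.S (ofComplex z)
      refine h10.trans ?_
      simp [ModularGroup.S, a3w_of z hz]
    rw [h7, h9] at h6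
    exact_mod_cast h6
  bdd := by
    have hs : ∀ τ : ℍ, HasSum (fun m : ℕ ↦ (qExpansion 1 G).coeff m • Function.Periodic.qParam 1 τ ^ m) (G τ) := by
      intro τ
      exact UpperHalfPlane.hasSum_qExpansion one_pos
        (SlashInvariantFormClass.periodic_comp_ofComplex G one_mem_strictPeriods_SL)
        (ModularFormClass.holo G) (ModularFormClass.bdd_at_infty G) τ
    have h1 := (hs UpperHalfPlane.I).summable.norm
    refine ⟨∑' m, ‖(qExpansion 1 G).coeff m • Function.Periodic.qParam 1 (UpperHalfPlane.I : ℍ) ^ m‖, ?_⟩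
    intro z hz
    have hz0 : 0 < z.im := lt_of_lt_of_le one_pos hz
    have h2 := hs (ofComplex z)
    rw [← h2.tsum_eq]
    have h3 : ∀ m : ℕ, ‖(qExpansion 1 G).coeff m • Function.Periodic.qParam 1 (ofComplex z : ℍ) ^ m‖
        ≤ ‖(qExpansion 1 G).coeff m • Function.Periodic.qParam 1 (UpperHalfPlane.I : ℍ) ^ m‖ := by
      intro m
      rw [norm_smul, norm_smul, norm_pow, norm_pow]
      gcongr
      rw [Function.Periodic.norm_qParam, Function.Periodic.norm_qParam, a3w_of z hz0]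
      apply Real.exp_le_exp.mpr
      simp only [UpperHalfPlane.I, UpperHalfPlane.coe_mk, Complex.I_im]
      have := Real.pi_pos
      nlinarith
    exact (norm_tsum_le_tsum_norm h2.summable.norm).trans
      (h2.summable.norm.tsum_le_tsum h3 h1)

/-- A3c. Division by `dl`: if `f → 0` at `i∞` then `f = dl * g` with `g` of weight `k - 12`; if `k < 12` then `f = 0`.
(`CuspForm.divDiscriminant`, `CuspForm.rank_eq_zero_of_weight_lt_twelve`.) -/
theorem IsMF.div_dl {k : ℕ} {f : ℂ → ℂ} (hf : IsMF k f) (h0 : Tendsto (fun y : ℝ => f (I * y)) atTop (𝓝 0)) :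
    (∀ z : ℂ, 0 < z.im → f z = 0) ∨ (12 ≤ k ∧ ∃ g : ℂ → ℂ, IsMF (k - 12) g ∧ ∀ z : ℂ, 0 < z.im → f z = dl z * g z) := by
  obtain ⟨F, hF⟩ := hf.exists_form
  have h1 : Tendsto (fun y : ℝ => F (ofComplex (I * y))) atTop (𝓝 0) := by
    refine h0.congr' ?_
    filter_upwards [eventually_gt_atTop 0] with y hy
    exact a3w_val hF (I * y) (by simpa using hy)
  have hc := a3w_coeff F h1
  rcases lt_or_ge k 12 with hk | hk
  · left
    intro z hz
    have h2 := rank_zero_iff_forall_zero.mp (CuspForm.rank_eq_zero_of_weight_lt_twelve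
      (k := (k : ℤ)) (by exact_mod_cast hk)) (ModularForm.toCuspForm F hc)
    rw [a3w_val hF z hz, ← ModularForm.toCuspForm_apply F hc, h2]
    rfl
  · right
    refine ⟨hk, ?_⟩
    let G : ModularForm 𝒮ℒ ((k - 12 : ℕ) : ℤ) :=
      ModularForm.mcast (by push_cast [hk]; ring) (CuspForm.discriminantEquiv (ModularForm.toCuspForm F hc))
    refine ⟨fun z => G (ofComplex z), a3w_isMF G, fun z hz => ?_⟩
    have h3 : G (ofComplex z) = (CuspForm.discriminantEquiv (ModularForm.toCuspForm F hc)) (ofComplex z) := rfl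
    change f z = dl z * G (ofComplex z)
    rw [h3]
    have h4 := ModularForm.discriminant_mul_discriminantEquiv_apply (ModularForm.toCuspForm F hc) (ofComplex z)
    have h5 : dl z = ModularForm.discriminant (ofComplex z) := by
      rw [← dl_eq, a3w_of z hz]
    rw [h5, h4, ModularForm.toCuspForm_apply, a3w_val hF z hz]

end Pool.Agent.MSD
end

end

section

/-! # T4: translation by lattice vectors (MP_f58a57_nt, pairs) -/

open Complex Filter Topology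

noncomputable section

namespace Pool.Agent.MSP

theorem au_ne (τ : ℂ) (m n : ℤ) (t : ℂ) : au τ m n t ≠ 0 := by
  unfold au
  refine mul_ne_zero (zpow_ne_zero _ (by norm_num)) (Complex.exp_ne_zero _)

theorem T4_int (τ : ℂ) (m : ℤ) (t : ℂ) : th τ (t + m) = (-1 : ℂ) ^ m * th τ t := by
  induction m using Int.induction_on with
  | zero => simp
  | succ m ih =>
    have e : t + ((((m : ℤ) + 1 : ℤ)) : ℂ) = (t + ((m : ℤ) : ℂ)) + 1 := by push_cast; ring
    rw [e, th_add_one, ih, zpow_add_one₀ (by norm_num)]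
    ring
  | pred m ih =>
    have e : t + ((-(m : ℤ) : ℤ) : ℂ) = (t + ((-(m : ℤ) - 1 : ℤ) : ℂ)) + 1 := by push_cast; ring
    rw [e, th_add_one] at ih
    rw [zpow_sub_one₀ (by norm_num)]
    linear_combination -ih

theorem T4_tau (τ : ℂ) (hτ : 0 < τ.im) (n : ℤ) (t : ℂ) :
    th τ (t + n * τ) =
      (-1 : ℂ) ^ n * cexp (-(Real.pi * I * (n : ℂ) ^ 2 * τ) - 2 * Real.pi * I * n * t) * th τ t := by
  induction n using Int.induction_on with
  | zero => simp
  | succ n ih =>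
    have e : t + ((((n : ℤ) + 1 : ℤ)) : ℂ) * τ = (t + ((n : ℤ) : ℂ) * τ) + τ := by push_cast; ring
    have e2 : -(Real.pi * I * ((((n : ℤ) + 1 : ℤ)) : ℂ) ^ 2 * τ)
        - 2 * Real.pi * I * ((((n : ℤ) + 1 : ℤ)) : ℂ) * t =
        (-(Real.pi * I * τ) - 2 * Real.pi * I * (t + ((n : ℤ) : ℂ) * τ)) +
        (-(Real.pi * I * ((n : ℤ) : ℂ) ^ 2 * τ) - 2 * Real.pi * I * ((n : ℤ) : ℂ) * t) := by
      push_cast; ring
    rw [e, th_add_tau τ hτ, ih, zpow_add_one₀ (by norm_num), e2, Complex.exp_add]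
    ring
  | pred n ih =>
    have e : t + ((-(n : ℤ) : ℤ) : ℂ) * τ = (t + ((-(n : ℤ) - 1 : ℤ) : ℂ) * τ) + τ := by
      push_cast; ring
    have e2 : -(Real.pi * I * ((-(n : ℤ) - 1 : ℤ) : ℂ) ^ 2 * τ)
        - 2 * Real.pi * I * ((-(n : ℤ) - 1 : ℤ) : ℂ) * t =
        -(-(Real.pi * I * τ) - 2 * Real.pi * I * (t + ((-(n : ℤ) - 1 : ℤ) : ℂ) * τ)) +
        (-(Real.pi * I * ((-(n : ℤ) : ℤ) : ℂ) ^ 2 * τ) - 2 * Real.pi * I * ((-(n : ℤ) : ℤ) : ℂ) * t)
          := by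
      push_cast; ring
    rw [e, th_add_tau τ hτ] at ih
    rw [zpow_sub_one₀ (by norm_num), e2, Complex.exp_add, Complex.exp_neg]
    generalize cexp (-(Real.pi * I * ((-(n : ℤ) : ℤ) : ℂ) ^ 2 * τ)
      - 2 * Real.pi * I * ((-(n : ℤ) : ℤ) : ℂ) * t) = B at ih ⊢
    have h0 : cexp (-(Real.pi * I * τ) - 2 * Real.pi * I * (t + ((-(n : ℤ) - 1 : ℤ) : ℂ) * τ)) ≠ 0 :=
      Complex.exp_ne_zero _
    generalize cexp (-(Real.pi * I * τ) - 2 * Real.pi * I * (t + ((-(n : ℤ) - 1 : ℤ) : ℂ) * τ)) = A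
      at ih h0 ⊢
    generalize th τ (t + ((-(n : ℤ) - 1 : ℤ) : ℂ) * τ) = X at ih ⊢
    have h1 : X = (-1 : ℂ)⁻¹ * A⁻¹ * (-A * X) := by
      field_simp
      try ring
    rw [h1, ih]
    ring

/-- T4a. PROOF. Induction on `m` and `n` (`Int.induction_on`, both directions) from `th_add_one`, `th_add_tau`. -/
theorem N0_shift (τ : ℂ) (hτ : 0 < τ.im) (m n : ℤ) (t : ℂ) :
    N0 τ (t + m + n * τ) = au τ m n t * N0 τ t := by
  unfold N0 au
  rw [T4_tau τ hτ, T4_int, zpow_add₀ (by norm_num)]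
  have e : -(Real.pi * I * (n : ℂ) ^ 2 * τ) - 2 * Real.pi * I * n * (t + m) =
      (-(Real.pi * I * (n : ℂ) ^ 2 * τ) - 2 * Real.pi * I * n * t) +
        ((-(n * m) : ℤ) : ℂ) * (2 * Real.pi * I) := by
    push_cast; ring
  rw [e, Complex.exp_add, Complex.exp_int_mul_two_pi_mul_I]
  ring

theorem T4_au_deriv (τ : ℂ) (m n : ℤ) (t : ℂ) :
    HasDerivAt (au τ m n) (-(2 * Real.pi * I * n) * au τ m n t) t := by
  have h1 : HasDerivAt (fun t : ℂ => -(Real.pi * I * (n : ℂ) ^ 2 * τ) - 2 * Real.pi * I * n * t)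
      (0 - 2 * Real.pi * I * n * 1) t :=
    (hasDerivAt_const t _).sub ((hasDerivAt_id t).const_mul _)
  have h2 := (h1.cexp).const_mul ((-1 : ℂ) ^ (m + n))
  refine h2.congr_deriv ?_
  unfold au
  ring

theorem T4_th_deriv (τ : ℂ) (hτ : 0 < τ.im) (t : ℂ) : HasDerivAt (th τ) (N1 τ t) t :=
  (th_differentiable τ hτ t).hasDerivAt

theorem T4_N1_deriv (τ : ℂ) (hτ : 0 < τ.im) (t : ℂ) :
    HasDerivAt (N1 τ) (deriv (deriv (th τ)) t) t := by
  have h : Differentiable ℂ (deriv (th τ)) := (th_differentiable τ hτ).deriv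
  exact (h t).hasDerivAt

/-- T4b. PROOF. Differentiate T4a: `au' = -2πi n au`, `(d/dt) N0 τ (t+m+nτ) = N1 τ (t+m+nτ)`. -/
theorem N1_shift (τ : ℂ) (hτ : 0 < τ.im) (m n : ℤ) (t : ℂ) :
    N1 τ (t + m + n * τ) = au τ m n t * (N1 τ t - 2 * Real.pi * I * n * N0 τ t) := by
  have h1 : HasDerivAt (fun t : ℂ => th τ (t + m + n * τ)) (N1 τ (t + m + n * τ)) t := by
    have h := (T4_th_deriv τ hτ (t + m + n * τ)).comp t
      (((hasDerivAt_id' t).add_const (m : ℂ)).add_const ((n : ℂ) * τ))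
    exact h.congr_deriv (mul_one _)
  have h2 : HasDerivAt (fun t : ℂ => au τ m n t * th τ t)
      (-(2 * Real.pi * I * n) * au τ m n t * th τ t + au τ m n t * N1 τ t) t :=
    (T4_au_deriv τ m n t).mul (T4_th_deriv τ hτ t)
  have h3 : (fun t : ℂ => th τ (t + m + n * τ)) = fun t : ℂ => au τ m n t * th τ t := by
    funext x
    exact N0_shift τ hτ m n x
  rw [h3] at h1
  rw [h1.unique h2]
  unfold N0
  ring

theorem T4_N1'_shift (τ : ℂ) (hτ : 0 < τ.im) (m n : ℤ) (t : ℂ) :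
    deriv (deriv (th τ)) (t + m + n * τ) = au τ m n t * (deriv (deriv (th τ)) t
      - 2 * (2 * Real.pi * I * n) * N1 τ t + (2 * Real.pi * I * n) ^ 2 * N0 τ t) := by
  have h1 : HasDerivAt (fun t : ℂ => N1 τ (t + m + n * τ))
      (deriv (deriv (th τ)) (t + m + n * τ)) t := by
    have h := (T4_N1_deriv τ hτ (t + m + n * τ)).comp t
      (((hasDerivAt_id' t).add_const (m : ℂ)).add_const ((n : ℂ) * τ))
    exact h.congr_deriv (mul_one _)
  have h2 : HasDerivAt (fun t : ℂ => au τ m n t * (N1 τ t - 2 * Real.pi * I * n * N0 τ t))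
      (-(2 * Real.pi * I * n) * au τ m n t * (N1 τ t - 2 * Real.pi * I * n * N0 τ t) +
        au τ m n t * (deriv (deriv (th τ)) t - 2 * Real.pi * I * n * N1 τ t)) t :=
    (T4_au_deriv τ m n t).mul ((T4_N1_deriv τ hτ t).sub ((T4_th_deriv τ hτ t).const_mul _))
  have h3 : (fun t : ℂ => N1 τ (t + m + n * τ)) =
      fun t : ℂ => au τ m n t * (N1 τ t - 2 * Real.pi * I * n * N0 τ t) := by
    funext x
    exact N1_shift τ hτ m n x
  rw [h3] at h1
  rw [h1.unique h2]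
  ring

/-- T4c. PROOF. Differentiate once more: `th''(t+m+nτ) = au (th'' - 4πi n th' - 4π² n² th)` (`(2πi n)² = -4π²n²`); then
`(th' - c th)² - th (th'' - 2c th' + c² th) = th'² - th th''`, `c = 2πi n`. -/
theorem N2_shift (τ s : ℂ) (hτ : 0 < τ.im) (m n : ℤ) (t : ℂ) :
    N2 τ s (t + m + n * τ) = au τ m n t ^ 2 * N2 τ s t := by
  have h0 := N0_shift τ hτ m n t
  have h1 := N1_shift τ hτ m n t
  have h2 := T4_N1'_shift τ hτ m n t
  have e : ∀ x, N2 τ s x = N1 τ x ^ 2 - N0 τ x * deriv (deriv (th τ)) x - s * N0 τ x ^ 2 :=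
    fun x => rfl
  rw [e, e, h0, h1, h2]
  ring

/-- T4d. `|au|` : exact value. `|(-1)^{m+n}| = 1`, `Re(-πi n² τ - 2πi n t) = π n² Im τ + 2π n Im t`. -/
theorem norm_au (τ : ℂ) (m n : ℤ) (t : ℂ) :
    ‖au τ m n t‖ = Real.exp (Real.pi * (n : ℝ) ^ 2 * τ.im + 2 * Real.pi * n * t.im) := by
  unfold au
  rw [norm_mul, norm_zpow, norm_neg, norm_one, one_zpow, one_mul, Complex.norm_exp]
  congr 1
  have e1 : ((n : ℂ) ^ 2) = (((n : ℝ) ^ 2 : ℝ) : ℂ) := by push_cast; rfl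
  have e2 : (n : ℂ) = ((n : ℝ) : ℂ) := by push_cast; rfl
  rw [e1, e2]
  simp only [Complex.sub_re, Complex.neg_re, Complex.mul_re, Complex.mul_im, Complex.I_re,
    Complex.I_im, Complex.ofReal_re, Complex.ofReal_im, Complex.re_ofNat, Complex.im_ofNat]
  ring

end Pool.Agent.MSP
end

end

section

/-!
# MP_f58a57_nt, large transcendence degree, part C (row lt-C-B1)

F_q is a section in u; its derivatives at 0 are (B q)_alpha.
-/

open Complex Matrix MeasureTheory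

noncomputable section

namespace Pool.Agent.LT

variable {c : ℕ}

namespace B1_

theorem pdl_const_mul {n : ℕ} (a : ℂ) (F : (Fin n → ℂ) → ℂ) (hF : Differentiable ℂ F)
    (w : List (Fin n)) (u : Fin n → ℂ) : pdl w (fun u => a * F u) u = a * pdl w F u := by
  have h := pdlC_sum ({0} : Finset (Fin 1)) (fun _ => a) (fun _ => F) (fun _ _ => hF) w u
  simpa only [Finset.sum_singleton] using h

theorem diff_snd {c : ℕ} {D : Dat c} {Φ : VN c → VN c → ℂ} {C C' : (Fin (2 * c + 1) → ℤ) → ℂ}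
    (hK : Ker D Φ C C') (u : VN c) : Differentiable ℂ (Φ u) :=
  hK.diff.comp ((differentiable_const u).prodMk differentiable_id)

theorem diff_fst {c : ℕ} {D : Dat c} {Φ : VN c → VN c → ℂ} {C C' : (Fin (2 * c + 1) → ℤ) → ℂ}
    (hK : Ker D Φ C C') (w : List (Fin (2 * c + 1))) :
    Differentiable ℂ (fun u : VN c => pdl w (Φ u) 0) :=
  (pdl_param Φ hK.diff w).comp (differentiable_id.prodMk (differentiable_const 0))

end B1_

theorem Fq_sec {D : Dat c} {Φ : VN c → VN c → ℂ} {C C' : (Fin (2 * c + 1) → ℤ) → ℂ} (hK : Ker D Φ C C') {T : ℕ} (q : Wd (2 * c + 1) T → ℂ) :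
    Sec D.d D.Lt C (Fq Φ q) := by
  refine ⟨?_, fun a u => ?_, fun k hk u => ?_⟩
  · have h : Differentiable ℂ (fun u : VN c => ∑ β, q β * pdl β.l (Φ u) 0) :=
      Differentiable.fun_sum fun β _ => (B1_.diff_fst hK β.l).const_mul (q β)
    exact h
  · have h : Φ (u + lat D.d a) = fun s => (C a * ee (-(lat D.d a ⬝ᵥ (D.Lt *ᵥ u)))) * Φ u s := by
      funext s
      exact (hK.secu s).per a u
    unfold Fq
    rw [h, Finset.mul_sum]
    refine Finset.sum_congr rfl fun β _ => ?_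
    rw [B1_.pdl_const_mul _ _ (B1_.diff_snd hK u)]
    ring
  · have h : Φ (u + k) = Φ u := by
      funext s
      exact (hK.secu s).ker k hk u
    unfold Fq
    rw [h]

theorem Fq_pdl {D : Dat c} {Φ : VN c → VN c → ℂ} {C C' : (Fin (2 * c + 1) → ℤ) → ℂ} (hK : Ker D Φ C C') {T : ℕ} (q : Wd (2 * c + 1) T → ℂ)
    (α : Wd (2 * c + 1) T) : pdl α.l (Fq Φ q) 0 = (BM Φ T *ᵥ q) α := by
  have h := pdlC_sum (Finset.univ : Finset (Wd (2 * c + 1) T)) q
    (fun β u => pdl β.l (Φ u) 0) (fun β _ => B1_.diff_fst hK β.l) α.l 0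
  have h2 : Fq Φ q = fun u => ∑ β, q β * pdl β.l (Φ u) 0 := rfl
  rw [h2, h]
  simp only [Matrix.mulVec, dotProduct, BM, mix]
  exact Finset.sum_congr rfl fun β _ => mul_comm _ _

/-- every list of length `< T` is a word -/
theorem exists_wd {n T : ℕ} (w : List (Fin n)) (hw : w.length < T) : ∃ α : Wd n T, α.l = w :=
  ⟨⟨⟨w.length, hw⟩, fun i => w.get i⟩, List.ofFn_get w⟩

end Pool.Agent.LT
end

end

section

/-!
# MP_f58a57_nt, large transcendence degree, part C (row lt-C-M3)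

hk: independence of the shift w of the line of integration.
-/

open Complex Matrix MeasureTheory

noncomputable section

namespace Pool.Agent.LT

variable {c : ℕ}

theorem hk_shift {D : Dat c} {Φ : VN c → VN c → ℂ} {C C' : (Fin (2 * c + 1) → ℤ) → ℂ} (hK : Ker D Φ C C') {μ : ℂ} (hμ : Mu D C μ) (κ : ℤ)
    (u s : VN c) (w : ℂ) :
    hk D Φ μ κ u s = (D.d : ℂ)⁻¹ * ∫ x in (0 : ℝ)..(D.d : ℝ), fm D Φ μ u s (x + w) * ee (-(κ * (x + w) / D.d)) := by
  have hd : (D.d : ℂ) ≠ 0 := by exact_mod_cast D.hd.ne'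
  have hf : Differentiable ℂ (fun x : ℂ => fm D Φ μ u s x * ee (-(κ * x / D.d))) := by
    have h1 : Differentiable ℂ (fun x : ℂ => fm D Φ μ u s x) := by
      have h2 := fm_diff hK μ
      have h3 : Differentiable ℂ (fun x : ℂ => ((x, u, s) : ℂ × VN c × VN c)) :=
        differentiable_id.prodMk (differentiable_const (u, s))
      exact h2.comp h3
    refine h1.mul ?_
    unfold ee
    exact Differentiable.cexp (Differentiable.const_mul
      (((differentiable_const (κ : ℂ)).mul differentiable_id).div_const _).neg _)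
  have hp : ∀ x : ℂ, fm D Φ μ u s (x + ((D.d : ℝ) : ℂ)) * ee (-(κ * (x + ((D.d : ℝ) : ℂ)) / D.d)) =
      fm D Φ μ u s x * ee (-(κ * x / D.d)) := by
    intro x
    have h1 := fm_per hK hμ u s x
    rw [h1]
    congr 1
    have h2 : (-(κ * (x + ((D.d : ℝ) : ℂ)) / D.d) : ℂ) = -(κ * x / D.d) + ((-κ : ℤ) : ℂ) := by
      push_cast
      field_simp
      ring
    rw [h2, ee_add, ee_int, mul_one]
  have h := per_shift hf hp w
  unfold hk
  rw [← h]

end Pool.Agent.LT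
end

end

section

/-! # T5: growth of the numerators (MP_f58a57_nt, pairs) -/

open Complex Filter Topology

noncomputable section

namespace Pool.Agent.MSP

theorem t5_cont_deriv (τ : ℂ) (hτ : 0 < τ.im) : Differentiable ℂ (deriv (th τ)) := by
  intro z
  have h := (th_differentiable τ hτ).analyticAt z
  exact h.deriv.differentiableAt

theorem t5_cont0 (τ : ℂ) (hτ : 0 < τ.im) : Continuous (N0 τ) :=
  (th_differentiable τ hτ).continuous

theorem t5_cont1 (τ : ℂ) (hτ : 0 < τ.im) : Continuous (N1 τ) :=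
  (t5_cont_deriv τ hτ).continuous

theorem t5_cont2 (τ s : ℂ) (hτ : 0 < τ.im) : Continuous (N2 τ s) := by
  have h0 : Continuous (th τ) := (th_differentiable τ hτ).continuous
  have h1 : Continuous (deriv (th τ)) := (t5_cont_deriv τ hτ).continuous
  have h2 : Continuous (deriv (deriv (th τ))) := by
    have : Differentiable ℂ (deriv (deriv (th τ))) := by
      intro z
      have h := (th_differentiable τ hτ).analyticAt z
      exact h.deriv.deriv.differentiableAt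
    exact this.continuous
  unfold N2
  exact ((h1.pow 2).sub (h0.mul h2)).sub (continuous_const.mul (h0.pow 2))

/-- Reduction to a compact set. -/
theorem t5_reduce (τ : ℂ) (hτ : 0 < τ.im) (t : ℂ) : ∃ (m n : ℤ) (t₀ : ℂ),
    t = t₀ + m + n * τ ∧ t₀ ∈ (Set.Icc (0 : ℝ) 1 ×ℂ Set.Icc (0 : ℝ) τ.im) ∧
      (n : ℝ) ^ 2 ≤ (2 / τ.im ^ 2 + 2) * (1 + t.im ^ 2) := by
  set n : ℤ := ⌊t.im / τ.im⌋ with hn
  set m : ℤ := ⌊(t - n * τ).re⌋ with hm
  refine ⟨m, n, t - n * τ - m, by ring, ?_, ?_⟩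
  · have h1 := Int.floor_le (t.im / τ.im)
    have h2 := Int.lt_floor_add_one (t.im / τ.im)
    rw [← hn] at h1 h2
    rw [le_div_iff₀ hτ] at h1
    rw [div_lt_iff₀ hτ] at h2
    have h3 := Int.floor_le (t - n * τ).re
    have h4 := Int.lt_floor_add_one (t - n * τ).re
    rw [← hm] at h3 h4
    rw [Complex.mem_reProdIm]
    constructor
    · have e : (t - n * τ - m).re = (t - n * τ).re - m := by simp
      rw [e]
      constructor
      · linarith
      · linarith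
    · have e : (t - n * τ - m).im = t.im - n * τ.im := by simp
      rw [e]
      constructor
      · linarith
      · nlinarith
  · have h1 := Int.floor_le (t.im / τ.im)
    have h2 := Int.lt_floor_add_one (t.im / τ.im)
    rw [← hn] at h1 h2
    set x := t.im / τ.im with hx
    have h3 : (n : ℝ) ^ 2 ≤ 2 * x ^ 2 + 2 := by
      have : |(n : ℝ)| ≤ |x| + 1 := by
        rw [abs_le]
        constructor
        · have := neg_abs_le x
          linarith
        · have := le_abs_self x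
          linarith
      have h4 : (n : ℝ) ^ 2 ≤ (|x| + 1) ^ 2 := by
        rw [← sq_abs (n : ℝ)]
        exact pow_le_pow_left₀ (abs_nonneg _) this 2
      have h5 : |x| ^ 2 = x ^ 2 := sq_abs x
      nlinarith [sq_nonneg (|x| - 1)]
    have h4 : x ^ 2 = t.im ^ 2 / τ.im ^ 2 := by rw [hx, div_pow]
    have h5 : (2 / τ.im ^ 2 + 2) * (1 + t.im ^ 2)
        = 2 * (t.im ^ 2 / τ.im ^ 2) + 2 + (2 / τ.im ^ 2 + 2 * t.im ^ 2) := by ring
    rw [h5, ← h4]
    have : 0 ≤ 2 / τ.im ^ 2 + 2 * t.im ^ 2 := by positivity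
    linarith

/-- T5. PROOF. Given `t` choose integers `m, n` with `t = t₀ + m + nτ`, `0 ≤ Im t₀ ≤ Im τ`, `0 ≤ Re t₀ ≤ 1`
(`n = ⌊Im t/Im τ⌋`, then `m`). `t₀` is in a compact set where the three continuous functions `N0, N1, N2` (`th` is entire by T1, so
its derivatives are continuous) are bounded by a constant `B`. By T4 the value at `t` is at most
`‖au‖ (1 + 2π|n|) B` (resp. `‖au‖² B`), and `|n| ≤ |Im t|/Im τ + 1`, `‖au‖ = exp(π n² Im τ + 2π n Im t₀) ≤ exp(C(1 + (Im t)²))`. -/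
theorem growth (τ s : ℂ) (hτ : 0 < τ.im) : ∃ C : ℝ, 0 < C ∧ ∀ t : ℂ,
    ‖N0 τ t‖ ≤ Real.exp (C * (1 + t.im ^ 2)) ∧ ‖N1 τ t‖ ≤ Real.exp (C * (1 + t.im ^ 2)) ∧
      ‖N2 τ s t‖ ≤ Real.exp (C * (1 + t.im ^ 2)) := by
  have hK : IsCompact (Set.Icc (0 : ℝ) 1 ×ℂ Set.Icc (0 : ℝ) τ.im) := isCompact_Icc.reProdIm isCompact_Icc
  obtain ⟨B0, hB0⟩ := hK.exists_bound_of_continuousOn (t5_cont0 τ hτ).continuousOn
  obtain ⟨B1, hB1⟩ := hK.exists_bound_of_continuousOn (t5_cont1 τ hτ).continuousOn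
  obtain ⟨B2, hB2⟩ := hK.exists_bound_of_continuousOn (t5_cont2 τ s hτ).continuousOn
  set B : ℝ := max (max B0 B1) (max B2 1) with hB
  have hB1' : 1 ≤ B := (le_max_right _ _).trans (le_max_right _ _)
  have hb0 : B0 ≤ B := (le_max_left _ _).trans (le_max_left _ _)
  have hb1 : B1 ≤ B := (le_max_right _ _).trans (le_max_left _ _)
  have hb2 : B2 ≤ B := (le_max_left _ _).trans (le_max_right _ _)
  set A : ℝ := 2 / τ.im ^ 2 + 2 with hA
  have hA0 : 0 < A := by positivity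
  have hpi := Real.pi_pos
  refine ⟨6 * Real.pi * τ.im * A + 2 * Real.pi * A + B, by positivity, fun t => ?_⟩
  obtain ⟨m, n, t₀, ht, ht₀, hn2⟩ := t5_reduce τ hτ t
  have h0 := hB0 t₀ ht₀
  have h1 := hB1 t₀ ht₀
  have h2 := hB2 t₀ ht₀
  rw [Complex.mem_reProdIm] at ht₀
  obtain ⟨-, him0, him1⟩ := ht₀
  set V : ℝ := 1 + t.im ^ 2 with hV
  have hV1 : 1 ≤ V := by have := sq_nonneg t.im; linarith
  have hnn : |(n : ℝ)| ≤ (n : ℝ) ^ 2 := by
    have : |n| ≤ n ^ 2 := by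
      rw [← sq_abs n]
      rcases eq_or_ne n 0 with h | h
      · simp [h]
      · have : 1 ≤ |n| := Int.one_le_abs h
        nlinarith
    exact_mod_cast this
  -- the automorphy factor
  have hau : ‖au τ m n t₀‖ ≤ Real.exp (3 * Real.pi * τ.im * A * V) := by
    rw [norm_au τ m n t₀]
    apply Real.exp_le_exp.2
    have a1 : (n : ℝ) * t₀.im ≤ (n : ℝ) ^ 2 * τ.im := by
      calc (n : ℝ) * t₀.im ≤ |(n : ℝ)| * t₀.im := mul_le_mul_of_nonneg_right (le_abs_self _) him0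
        _ ≤ |(n : ℝ)| * τ.im := mul_le_mul_of_nonneg_left him1 (abs_nonneg _)
        _ ≤ (n : ℝ) ^ 2 * τ.im := mul_le_mul_of_nonneg_right hnn hτ.le
    calc Real.pi * (n : ℝ) ^ 2 * τ.im + 2 * Real.pi * n * t₀.im
        = Real.pi * ((n : ℝ) ^ 2 * τ.im) + 2 * Real.pi * (n * t₀.im) := by ring
      _ ≤ Real.pi * ((n : ℝ) ^ 2 * τ.im) + 2 * Real.pi * ((n : ℝ) ^ 2 * τ.im) := by
          have := mul_le_mul_of_nonneg_left a1 (by positivity : 0 ≤ 2 * Real.pi)
          linarith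
      _ = 3 * Real.pi * τ.im * (n : ℝ) ^ 2 := by ring
      _ ≤ 3 * Real.pi * τ.im * (A * V) := mul_le_mul_of_nonneg_left hn2 (by positivity)
      _ = 3 * Real.pi * τ.im * A * V := by ring
  have hBexp : B ≤ Real.exp (B * V) := by
    calc B ≤ B * V := by nlinarith
      _ ≤ B * V + 1 := by linarith
      _ ≤ Real.exp (B * V) := Real.add_one_le_exp _
  have hBpos : 0 < B := by linarith
  have hnexp : 1 + 2 * Real.pi * |(n : ℝ)| ≤ Real.exp (2 * Real.pi * A * V) := by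
    calc 1 + 2 * Real.pi * |(n : ℝ)| ≤ 1 + 2 * Real.pi * (A * V) := by
          have := mul_le_mul_of_nonneg_left (hnn.trans hn2) (by positivity : 0 ≤ 2 * Real.pi)
          linarith
      _ = 2 * Real.pi * A * V + 1 := by ring
      _ ≤ Real.exp (2 * Real.pi * A * V) := Real.add_one_le_exp _
  have hp1 : 0 ≤ Real.pi * τ.im * A * V := by positivity
  have hp2 : 0 ≤ Real.pi * A * V := by positivity
  refine ⟨?_, ?_, ?_⟩
  · rw [ht, N0_shift τ hτ m n t₀, norm_mul]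
    calc ‖au τ m n t₀‖ * ‖N0 τ t₀‖ ≤ Real.exp (3 * Real.pi * τ.im * A * V) * Real.exp (B * V) :=
          mul_le_mul hau ((h0.trans hb0).trans hBexp) (norm_nonneg _) (Real.exp_pos _).le
      _ ≤ Real.exp ((6 * Real.pi * τ.im * A + 2 * Real.pi * A + B) * V) := by
          rw [← Real.exp_add]
          apply Real.exp_le_exp.2
          nlinarith
  · rw [ht, N1_shift τ hτ m n t₀, norm_mul]
    have hsub : ‖N1 τ t₀ - 2 * Real.pi * I * n * N0 τ t₀‖
        ≤ Real.exp (2 * Real.pi * A * V) * Real.exp (B * V) := by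
      calc ‖N1 τ t₀ - 2 * Real.pi * I * n * N0 τ t₀‖
          ≤ ‖N1 τ t₀‖ + ‖2 * Real.pi * I * n * N0 τ t₀‖ := norm_sub_le _ _
        _ ≤ B + 2 * Real.pi * |(n : ℝ)| * B := by
            have e : ‖(2 * Real.pi * I * n * N0 τ t₀ : ℂ)‖ = 2 * Real.pi * |(n : ℝ)| * ‖N0 τ t₀‖ := by
              simp only [norm_mul, Complex.norm_I, Complex.norm_real, Complex.norm_intCast,
                Complex.norm_ofNat, Real.norm_eq_abs, abs_of_pos hpi, mul_one]
            rw [e]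
            have := mul_le_mul_of_nonneg_left (h0.trans hb0)
              (by positivity : 0 ≤ 2 * Real.pi * |(n : ℝ)|)
            linarith [h1.trans hb1]
        _ = (1 + 2 * Real.pi * |(n : ℝ)|) * B := by ring
        _ ≤ Real.exp (2 * Real.pi * A * V) * Real.exp (B * V) :=
            mul_le_mul hnexp hBexp hBpos.le (Real.exp_pos _).le
    calc ‖au τ m n t₀‖ * ‖N1 τ t₀ - 2 * Real.pi * I * n * N0 τ t₀‖
        ≤ Real.exp (3 * Real.pi * τ.im * A * V)
          * (Real.exp (2 * Real.pi * A * V) * Real.exp (B * V)) :=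
          mul_le_mul hau hsub (norm_nonneg _) (Real.exp_pos _).le
      _ ≤ Real.exp ((6 * Real.pi * τ.im * A + 2 * Real.pi * A + B) * V) := by
          rw [← Real.exp_add, ← Real.exp_add]
          apply Real.exp_le_exp.2
          nlinarith
  · rw [ht, N2_shift τ s hτ m n t₀, norm_mul, norm_pow]
    calc ‖au τ m n t₀‖ ^ 2 * ‖N2 τ s t₀‖
        ≤ Real.exp (3 * Real.pi * τ.im * A * V) ^ 2 * Real.exp (B * V) :=
          mul_le_mul (pow_le_pow_left₀ (norm_nonneg _) hau 2) ((h2.trans hb2).trans hBexp)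
            (norm_nonneg _) (by positivity)
      _ ≤ Real.exp ((6 * Real.pi * τ.im * A + 2 * Real.pi * A + B) * V) := by
          rw [← Real.exp_nat_mul, ← Real.exp_add]
          apply Real.exp_le_exp.2
          push_cast
          nlinarith

end Pool.Agent.MSP
end

end

section

/-! # A2b: e4, e6, dl are modular forms (MP_f58a57_nt) -/

open Complex ModularForm EisensteinSeries Filter
open UpperHalfPlane hiding I
open scoped Topology MatrixGroups

noncomputable section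

namespace Pool.Agent.MSD

/-- A2b. `e4`, `e6`, `dl` are modular forms in the elementary sense. -/
theorem isMF_e4 : IsMF 4 e4 := by
  obtain ⟨c, hc, -⟩ := e4_q
  refine ⟨e4_diff, ?_, ?_, hc.bdd⟩
  · intro z hz
    have h := e4_transform 1 1 0 1 (by norm_num) z hz
    simpa using h
  · intro z hz
    have h := e4_transform 0 (-1) 1 0 (by norm_num) z hz
    simpa using h

theorem isMF_e6 : IsMF 6 e6 := by
  obtain ⟨c, hc, -⟩ := e6_q
  refine ⟨e6_diff, ?_, ?_, hc.bdd⟩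
  · intro z hz
    have h := e6_transform 1 1 0 1 (by norm_num) z hz
    simpa using h
  · intro z hz
    have h := e6_transform 0 (-1) 1 0 (by norm_num) z hz
    simpa using h

theorem isMF_dl : IsMF 12 dl := by
  obtain ⟨c, hc, -⟩ := dl_q
  refine ⟨dl_diff, ?_, ?_, hc.bdd⟩
  · intro z hz
    unfold dl
    rw [isMF_e4.per z hz, isMF_e6.per z hz]
  · intro z hz
    unfold dl
    rw [isMF_e4.inv z hz, isMF_e6.inv z hz]
    ring

end Pool.Agent.MSD
end

end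

section

/-!
# MP_f58a57_nt, large transcendence degree, part C (row lt-C-B2)

Growth of F_q: at most (number of words) T^T exp(A(1+|u|^2)) for coefficients of absolute value <= 1; number of words <= T (2c+1)^T.
-/

open Complex Matrix MeasureTheory

noncomputable section

namespace Pool.Agent.LT

variable {c : ℕ}

namespace B2_

/-- the number of words -/
theorem card_wd (n T : ℕ) (hn : 1 ≤ n) : (Fintype.card (Wd n T) : ℝ) ≤ T * (n : ℝ) ^ T := by
  have h1 : Fintype.card (Wd n T) = ∑ d : Fin T, n ^ (d : ℕ) := by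
    unfold Wd
    rw [Fintype.card_sigma]
    refine Finset.sum_congr rfl fun d _ => ?_
    simp
  rw [h1]
  push_cast
  have h2 : ∀ d ∈ (Finset.univ : Finset (Fin T)), (n : ℝ) ^ (d : ℕ) ≤ (n : ℝ) ^ T := by
    intro d _
    exact pow_le_pow_right₀ (by exact_mod_cast hn) (le_of_lt d.2)
  refine (Finset.sum_le_card_nsmul _ _ _ h2).trans ?_
  simp

/-- the elementary inequality -/
theorem elem (n T : ℕ) (hn : 1 ≤ n) (hT : 2 ≤ T) :
    ((T : ℝ) * (n : ℝ) ^ T) * (T : ℝ) ^ T ≤ Real.exp ((2 + 2 * (n : ℝ)) * (T * Real.log T)) := by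
  have hT0 : (0 : ℝ) < T := by positivity
  have hn0 : (0 : ℝ) < n := by exact_mod_cast hn
  have hT2 : (2 : ℝ) ≤ T := by exact_mod_cast hT
  have hlog : 1 / 2 ≤ Real.log T := by
    have h1 : Real.log 2 ≤ Real.log T := Real.log_le_log (by norm_num) hT2
    have h2 := Real.log_two_gt_d9
    linarith
  have hlogn : Real.log n ≤ n := by
    have := Real.log_le_sub_one_of_pos hn0
    linarith
  have e1 : ((T : ℝ) * (n : ℝ) ^ T) * (T : ℝ) ^ T = Real.exp (Real.log T + T * Real.log n + T * Real.log T) := by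
    rw [Real.exp_add, Real.exp_add, Real.exp_log hT0, mul_comm (T : ℝ) (Real.log n), mul_comm (T : ℝ) (Real.log T), Real.exp_mul,
      Real.exp_mul, Real.exp_log hn0, Real.exp_log hT0, Real.rpow_natCast, Real.rpow_natCast]
  rw [e1]
  apply Real.exp_le_exp.mpr
  have a1 : Real.log T ≤ T * Real.log T := by nlinarith
  have a2 : T * Real.log n ≤ 2 * n * (T * Real.log T) := by
    have : (T : ℝ) * Real.log n ≤ T * n := mul_le_mul_of_nonneg_left hlogn hT0.le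
    have h3 : (T : ℝ) * n ≤ 2 * n * (T * Real.log T) := by
      have h4 : 1 ≤ 2 * Real.log T := by linarith
      have h5 : 0 ≤ (T : ℝ) * n := by positivity
      nlinarith
    linarith
  nlinarith

end B2_

theorem Fq_bound {D : Dat c} {Φ : VN c → VN c → ℂ} {C C' : (Fin (2 * c + 1) → ℤ) → ℂ} (hK : Ker D Φ C C') :
    ∃ A : ℝ, 0 ≤ A ∧ ∀ T : ℕ, 2 ≤ T → ∀ q : Wd (2 * c + 1) T → ℂ, (∀ β, ‖q β‖ ≤ 1) → ∀ u, ‖Fq Φ q u‖ ≤ Real.exp (A * (T * Real.log T) + A * (1 + nsq u)) := by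
  obtain ⟨A0, hA0⟩ := hK.grow
  set A1 : ℝ := max A0 0 with hA1d
  have hA1 : 0 ≤ A1 := le_max_right _ _
  have hA01 : A0 ≤ A1 := le_max_left _ _
  set n : ℕ := 2 * c + 1 with hn
  have hn1 : 1 ≤ n := by omega
  have hnR : (0 : ℝ) ≤ n := by positivity
  refine ⟨(2 + 2 * (n : ℝ)) + A1 * (1 + n), by positivity, ?_⟩
  intro T hT q hq u
  have hT2 : (2 : ℝ) ≤ T := by exact_mod_cast hT
  have hlogT : 0 ≤ Real.log T := Real.log_nonneg (by linarith)
  have hnsq : ∀ v : VN c, 0 ≤ nsq v := fun v => by unfold nsq; positivity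
  have hdiff : Differentiable ℂ (Φ u) := (hK.secs u).diff
  have hM : ∀ v : VN c, (∀ i, ‖v i‖ ≤ 1) → ‖Φ u v‖ ≤ Real.exp (A1 * (1 + nsq u + n)) := by
    intro v hv
    refine (hA0 u v).trans (Real.exp_le_exp.mpr ?_)
    have h1 : nsq v ≤ n := by
      unfold nsq
      have : ∀ i ∈ (Finset.univ : Finset (Fin (2 * c + 1))), ‖v i‖ ^ 2 ≤ (1 : ℝ) := by
        intro i _
        have h0 := norm_nonneg (v i)
        have h1 := hv i
        nlinarith
      refine (Finset.sum_le_card_nsmul _ _ _ this).trans ?_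
      simp [hn]
    have h2 := hnsq u
    have h3 := hnsq v
    have h4 : A0 * (1 + nsq u + nsq v) ≤ A1 * (1 + nsq u + nsq v) := mul_le_mul_of_nonneg_right hA01 (by linarith)
    have h5 : A1 * (1 + nsq u + nsq v) ≤ A1 * (1 + nsq u + n) := mul_le_mul_of_nonneg_left (by linarith) hA1
    linarith
  have hβ : ∀ β : Wd (2 * c + 1) T, ‖pdl β.l (Φ u) 0‖ ≤ (T : ℝ) ^ T * Real.exp (A1 * (1 + nsq u + n)) := by
    intro β
    have h1 := pdlC_bound hdiff hM β.l
    refine h1.trans (mul_le_mul_of_nonneg_right ?_ (Real.exp_nonneg _))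
    have h2 : β.l.length = (β.1 : ℕ) := by unfold Wd.l; simp
    rw [h2]
    have h3 : ((β.1 : ℕ) : ℝ) ≤ T := by exact_mod_cast le_of_lt β.1.2
    calc (((β.1 : ℕ) : ℝ)) ^ (β.1 : ℕ) ≤ (T : ℝ) ^ (β.1 : ℕ) := pow_le_pow_left₀ (by positivity) h3 _
      _ ≤ (T : ℝ) ^ T := pow_le_pow_right₀ (by linarith) (le_of_lt β.1.2)
  have hsum : ‖Fq Φ q u‖ ≤ Fintype.card (Wd (2 * c + 1) T) * ((T : ℝ) ^ T * Real.exp (A1 * (1 + nsq u + n))) := by
    unfold Fq
    refine (norm_sum_le _ _).trans ?_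
    have : ∀ β ∈ (Finset.univ : Finset (Wd (2 * c + 1) T)), ‖q β * pdl β.l (Φ u) 0‖ ≤ (T : ℝ) ^ T * Real.exp (A1 * (1 + nsq u + n)) := by
      intro β _
      rw [norm_mul]
      calc ‖q β‖ * ‖pdl β.l (Φ u) 0‖ ≤ 1 * ‖pdl β.l (Φ u) 0‖ := mul_le_mul_of_nonneg_right (hq β) (norm_nonneg _)
        _ = ‖pdl β.l (Φ u) 0‖ := one_mul _
        _ ≤ _ := hβ β
    refine (Finset.sum_le_card_nsmul _ _ _ this).trans ?_
    rw [nsmul_eq_mul, Finset.card_univ]
  have hcard := B2_.card_wd n T hn1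
  have helem := B2_.elem n T hn1 hT
  have hfin : ‖Fq Φ q u‖ ≤ Real.exp ((2 + 2 * (n : ℝ)) * (T * Real.log T)) * Real.exp (A1 * (1 + nsq u + n)) := by
    refine hsum.trans ?_
    rw [← mul_assoc]
    refine mul_le_mul_of_nonneg_right ?_ (Real.exp_nonneg _)
    refine le_trans ?_ helem
    exact mul_le_mul_of_nonneg_right hcard (by positivity)
  refine hfin.trans ?_
  rw [← Real.exp_add]
  apply Real.exp_le_exp.mpr
  have h2 := hnsq u
  have hTT : 0 ≤ (T : ℝ) * Real.log T := by positivity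
  have e1 : 0 ≤ A1 * (1 + (n : ℝ)) * (T * Real.log T) := by positivity
  have e2 : 0 ≤ (2 + 2 * (n : ℝ)) * (1 + nsq u) := by positivity
  have e3 : A1 * (1 + nsq u + n) ≤ A1 * (1 + n) * (1 + nsq u) := by
    have : 0 ≤ A1 * ((n : ℝ) * nsq u) := by positivity
    nlinarith
  nlinarith

end Pool.Agent.LT
end

end

section

/-!
# MP_f58a57_nt, large transcendence degree, part C (row lt-C-M4)

(C1): take w = -i delta kappa in hk_shift (delta small), |ee(-(kappa w / d))| = exp(-2 pi delta kappa^2 / d), |fm(x+w)| <= exp(A(1+|u|^2+|s|^2+delta^2 kappa^2)).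
-/

open Complex Matrix MeasureTheory

noncomputable section

namespace Pool.Agent.LT

namespace M4_

theorem norm_ee (x : ℂ) : ‖ee x‖ = Real.exp (-(2 * Real.pi * x.im)) := by
  unfold ee
  rw [Complex.norm_exp]
  congr 1
  simp [Complex.mul_re, Complex.mul_im]

theorem norm_ee_le (x : ℂ) : ‖ee x‖ ≤ Real.exp (2 * Real.pi * ‖x‖) := by
  rw [norm_ee]
  apply Real.exp_le_exp.2
  have h1 : -x.im ≤ ‖x‖ := (neg_le_abs x.im).trans (Complex.abs_im_le_norm x)
  have h2 : 0 < 2 * Real.pi := by positivity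
  nlinarith

theorem nsq_nonneg {n : ℕ} (z : Fin n → ℂ) : 0 ≤ nsq z := by
  unfold nsq
  positivity

theorem nsq_add_smul {n : ℕ} (u g : Fin n → ℂ) (y : ℂ) :
    nsq (u + y • g) ≤ 2 * nsq u + 2 * ‖y‖ ^ 2 * nsq g := by
  unfold nsq
  rw [Finset.mul_sum, Finset.mul_sum, ← Finset.sum_add_distrib]
  apply Finset.sum_le_sum
  intro i _
  have h1 : ‖(u + y • g) i‖ ≤ ‖u i‖ + ‖y‖ * ‖g i‖ := by
    rw [Pi.add_apply, Pi.smul_apply, smul_eq_mul, ← norm_mul]
    exact norm_add_le _ _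
  have h2 : ‖(u + y • g) i‖ ^ 2 ≤ (‖u i‖ + ‖y‖ * ‖g i‖) ^ 2 := pow_le_pow_left₀ (norm_nonneg _) h1 2
  nlinarith [sq_nonneg (‖u i‖ - ‖y‖ * ‖g i‖)]

theorem dot_le {n : ℕ} (v u : Fin n → ℂ) (y : ℂ) :
    ‖y * (v ⬝ᵥ u)‖ ≤ (‖y‖ ^ 2 * nsq v + nsq u) / 2 := by
  have h1 : y * (v ⬝ᵥ u) = ∑ i, y * (v i * u i) := by
    rw [dotProduct, Finset.mul_sum]
  rw [h1]
  refine (norm_sum_le _ _).trans ?_
  unfold nsq
  rw [Finset.mul_sum, ← Finset.sum_add_distrib, Finset.sum_div]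
  apply Finset.sum_le_sum
  intro i _
  rw [norm_mul, norm_mul]
  nlinarith [sq_nonneg (‖y‖ * ‖v i‖ - ‖u i‖)]

variable {c : ℕ}

theorem fm_bound {D : Dat c} {Φ : VN c → VN c → ℂ} {C C' : (Fin (2 * c + 1) → ℤ) → ℂ}
    (hK : Ker D Φ C C') (μ : ℂ) :
    ∃ A1 B : ℝ, 0 ≤ A1 ∧ 0 < B ∧ ∀ (u s : VN c) (y : ℂ),
      ‖fm D Φ μ u s y‖ ≤ Real.exp (A1 * (1 + nsq u + nsq s) + B * ‖y‖ ^ 2) := by
  obtain ⟨A0, hA0⟩ := hK.grow
  have hG := nsq_nonneg D.gc
  have hV := nsq_nonneg D.v0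
  have hpi := Real.pi_pos
  refine ⟨2 * |A0| + Real.pi + Real.pi * ‖μ‖ ^ 2,
    2 * |A0| * nsq D.gc + Real.pi * ‖D.nu‖ + Real.pi * nsq D.v0 + Real.pi, by positivity,
    by positivity, ?_⟩
  intro u s y
  have hu := nsq_nonneg u
  have hs := nsq_nonneg s
  unfold fm
  rw [norm_mul]
  have h1 : ‖Φ (u + y • D.gc) s‖ ≤
      Real.exp (|A0| * (1 + (2 * nsq u + 2 * ‖y‖ ^ 2 * nsq D.gc) + nsq s)) := by
    refine (hA0 _ _).trans (Real.exp_le_exp.2 ?_)
    have h2 := nsq_add_smul u D.gc y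
    have h3 := nsq_nonneg (u + y • D.gc)
    calc A0 * (1 + nsq (u + y • D.gc) + nsq s) ≤ |A0| * (1 + nsq (u + y • D.gc) + nsq s) :=
          mul_le_mul_of_nonneg_right (le_abs_self A0) (by linarith)
      _ ≤ _ := mul_le_mul_of_nonneg_left (by linarith) (abs_nonneg A0)
  have h2 : ‖ee (D.nu * y ^ 2 / 2 + y * (D.v0 ⬝ᵥ u) + μ * y)‖ ≤
      Real.exp (2 * Real.pi * (‖D.nu‖ * ‖y‖ ^ 2 / 2 + (‖y‖ ^ 2 * nsq D.v0 + nsq u) / 2 +
        (‖μ‖ ^ 2 + ‖y‖ ^ 2) / 2)) := by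
    refine (norm_ee_le _).trans (Real.exp_le_exp.2 ?_)
    apply mul_le_mul_of_nonneg_left _ (by positivity)
    have h3 : ‖D.nu * y ^ 2 / 2‖ = ‖D.nu‖ * ‖y‖ ^ 2 / 2 := by
      rw [norm_div, norm_mul, norm_pow]
      norm_num
    have h4 := dot_le D.v0 u y
    have h5 : ‖μ * y‖ ≤ (‖μ‖ ^ 2 + ‖y‖ ^ 2) / 2 := by
      rw [norm_mul]
      nlinarith [sq_nonneg (‖μ‖ - ‖y‖)]
    have h6 := norm_add_le (D.nu * y ^ 2 / 2 + y * (D.v0 ⬝ᵥ u)) (μ * y)
    have h7 := norm_add_le (D.nu * y ^ 2 / 2) (y * (D.v0 ⬝ᵥ u))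
    linarith
  refine (mul_le_mul h1 h2 (norm_nonneg _) (Real.exp_nonneg _)).trans ?_
  rw [← Real.exp_add]
  apply Real.exp_le_exp.2
  have hA : 0 ≤ |A0| := abs_nonneg A0
  have e1 : 0 ≤ |A0| * nsq s := mul_nonneg hA hs
  have e2 : 0 ≤ Real.pi * nsq s := mul_nonneg hpi.le hs
  have e3 : 0 ≤ Real.pi * ‖μ‖ ^ 2 * (nsq u + nsq s) := by positivity
  have e4 : 0 ≤ |A0| * (1 + nsq s) := by positivity
  nlinarith

end M4_

variable {c : ℕ}

theorem hk_bound {D : Dat c} {Φ : VN c → VN c → ℂ} {C C' : (Fin (2 * c + 1) → ℤ) → ℂ} (hK : Ker D Φ C C') {μ : ℂ} (hμ : Mu D C μ) :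
    ∃ A c1 : ℝ, 0 ≤ A ∧ 0 < c1 ∧ ∀ (κ : ℤ) (u s : VN c), ‖hk D Φ μ κ u s‖ ≤ Real.exp (A * (1 + nsq u + nsq s) - c1 * (κ : ℝ) ^ 2) := by
  obtain ⟨A1, B, hA1, hB, hf⟩ := M4_.fm_bound hK μ
  have hpi := Real.pi_pos
  have hd : (0 : ℝ) < (D.d : ℝ) := by exact_mod_cast D.hd
  set δ : ℝ := Real.pi / (D.d * B) with hδ
  have hδ0 : 0 < δ := by positivity
  refine ⟨A1 + B * (D.d : ℝ) ^ 2, Real.pi * δ / D.d, by positivity, by positivity, ?_⟩
  intro κ u s
  have hu := M4_.nsq_nonneg u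
  have hs := M4_.nsq_nonneg s
  set w : ℂ := -(I * (δ * κ : ℝ)) with hw
  rw [hk_shift hK hμ κ u s w]
  set bound : ℝ := Real.exp (A1 * (1 + nsq u + nsq s) + B * ((D.d : ℝ) ^ 2 + (δ * κ) ^ 2) -
    2 * Real.pi * δ * (κ : ℝ) ^ 2 / D.d) with hbound
  have hint : ‖∫ x in (0 : ℝ)..(D.d : ℝ), fm D Φ μ u s (x + w) * ee (-(κ * (x + w) / D.d))‖ ≤
      bound * |(D.d : ℝ) - 0| := by
    apply intervalIntegral.norm_integral_le_of_norm_le_const
    intro x hx
    rw [Set.uIoc_of_le hd.le] at hx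
    rw [norm_mul]
    have hre : ((x : ℂ) + w).re = x := by
      simp [hw]
    have him : ((x : ℂ) + w).im = -(δ * κ) := by
      simp [hw]
    have hnorm : ‖(x : ℂ) + w‖ ^ 2 = x ^ 2 + (δ * κ) ^ 2 := by
      rw [Complex.sq_norm, Complex.normSq_apply, hre, him]
      ring
    have h1 := hf u s ((x : ℂ) + w)
    have h2 : ‖(x : ℂ) + w‖ ^ 2 ≤ (D.d : ℝ) ^ 2 + (δ * κ) ^ 2 := by
      rw [hnorm]
      have : x ^ 2 ≤ (D.d : ℝ) ^ 2 := pow_le_pow_left₀ hx.1.le hx.2 2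
      linarith
    have h3 : ‖fm D Φ μ u s (x + w)‖ ≤
        Real.exp (A1 * (1 + nsq u + nsq s) + B * ((D.d : ℝ) ^ 2 + (δ * κ) ^ 2)) := by
      refine h1.trans (Real.exp_le_exp.2 ?_)
      have := mul_le_mul_of_nonneg_left h2 hB.le
      linarith
    have h4 : ‖ee (-(κ * (x + w) / D.d))‖ = Real.exp (-(2 * Real.pi * δ * (κ : ℝ) ^ 2 / D.d)) := by
      rw [M4_.norm_ee]
      congr 1
      have h5 : (-((κ : ℂ) * (x + w) / D.d)).im = δ * (κ : ℝ) ^ 2 / D.d := by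
        have h6 : (-((κ : ℂ) * (x + w) / D.d)) = ((-(κ : ℝ) / D.d : ℝ) : ℂ) * (x + w) := by
          push_cast
          ring
        rw [h6, Complex.im_ofReal_mul, him]
        ring
      rw [h5]
      ring
    rw [h4]
    calc ‖fm D Φ μ u s (x + w)‖ * Real.exp (-(2 * Real.pi * δ * (κ : ℝ) ^ 2 / D.d))
        ≤ Real.exp (A1 * (1 + nsq u + nsq s) + B * ((D.d : ℝ) ^ 2 + (δ * κ) ^ 2)) *
          Real.exp (-(2 * Real.pi * δ * (κ : ℝ) ^ 2 / D.d)) :=
          mul_le_mul_of_nonneg_right h3 (Real.exp_nonneg _)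
      _ = bound := by
          rw [hbound, ← Real.exp_add]
          congr 1
  rw [norm_mul, norm_inv, Complex.norm_natCast]
  have h7 : |(D.d : ℝ) - 0| = D.d := by
    rw [sub_zero, abs_of_pos hd]
  rw [h7] at hint
  calc (D.d : ℝ)⁻¹ * ‖∫ x in (0 : ℝ)..(D.d : ℝ), fm D Φ μ u s (x + w) * ee (-(κ * (x + w) / D.d))‖
      ≤ (D.d : ℝ)⁻¹ * (bound * D.d) := mul_le_mul_of_nonneg_left hint (by positivity)
    _ = bound := by field_simp
    _ ≤ _ := by
        rw [hbound]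
        apply Real.exp_le_exp.2
        have h8 : B * δ = Real.pi / D.d := by
          rw [hδ]
          field_simp
        have h9 : B * (δ * κ) ^ 2 = Real.pi * δ / D.d * (κ : ℝ) ^ 2 := by
          calc B * (δ * κ) ^ 2 = (B * δ) * δ * (κ : ℝ) ^ 2 := by ring
            _ = _ := by rw [h8]; ring
        have h10 : 0 ≤ B * (D.d : ℝ) ^ 2 * (nsq u + nsq s) := by positivity
        have h11 : 2 * Real.pi * δ * (κ : ℝ) ^ 2 / D.d = 2 * (Real.pi * δ / D.d * (κ : ℝ) ^ 2) := by ring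
        rw [mul_add B, h9, h11]
        nlinarith

end Pool.Agent.LT
end

end

section

/-!
# MP_f58a57_nt, large transcendence degree, part C (row lt-C-M6)

hk is jointly entire (parametric integral), and the derivatives in s can be taken under the integral.
-/

open Complex Matrix MeasureTheory

noncomputable section

namespace Pool.Agent.LT

variable {c : ℕ}

namespace M6_

theorem pdl_mul_const {n : ℕ} (F : (Fin n → ℂ) → ℂ) (a : ℂ) (w : List (Fin n)) :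
    pdl w (fun s => F s * a) = fun s => pdl w F s * a := by
  induction w with
  | nil => rfl
  | cons i w ih =>
    funext s
    show pd i (pdl w (fun s => F s * a)) s = pd i (pdl w F) s * a
    rw [ih]
    unfold pd
    have h : (fun s => pdl w F s * a) = a • (pdl w F) := by
      funext t; simp [mul_comm]
    rw [h, fderiv_const_smul_field]
    simp [mul_comm]

theorem ee_cont : Continuous ee := by
  unfold ee; fun_prop

theorem joint {D : Dat c} {Φ : VN c → VN c → ℂ} {C C' : (Fin (2 * c + 1) → ℤ) → ℂ} (hK : Ker D Φ C C') (μ : ℂ) (κ : ℤ) :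
    Continuous (fun q : ℝ × VN c × VN c => fm D Φ μ q.2.1 q.2.2 (q.1 : ℂ) * ee (-(κ * (q.1 : ℂ) / D.d))) := by
  have h := (fm_diff hK μ).continuous
  have h1 : Continuous (fun q : ℝ × VN c × VN c => (((q.1 : ℂ), q.2.1, q.2.2) : ℂ × VN c × VN c)) := by fun_prop
  have h2 := h.comp h1
  refine Continuous.mul h2 ?_
  exact ee_cont.comp (by fun_prop)

end M6_

theorem hk_diff {D : Dat c} {Φ : VN c → VN c → ℂ} {C C' : (Fin (2 * c + 1) → ℤ) → ℂ} (hK : Ker D Φ C C') (μ : ℂ) (κ : ℤ) :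
    Differentiable ℂ (fun q : VN c × VN c => hk D Φ μ κ q.1 q.2) := by
  have key := (pdl_int (n := (2 * c + 1) + (2 * c + 1))
    (fun (x : ℝ) (v : Fin ((2 * c + 1) + (2 * c + 1)) → ℂ) =>
      fm D Φ μ (fun i => v (Fin.castAdd _ i)) (fun i => v (Fin.natAdd _ i)) (x : ℂ) * ee (-(κ * (x : ℂ) / D.d)))
    ?_ ?_ 0 (D.d : ℝ) []).1
  · have hA : Differentiable ℂ (fun q : VN c × VN c => (Fin.append q.1 q.2 : Fin ((2 * c + 1) + (2 * c + 1)) → ℂ)) := by
      rw [differentiable_pi]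
      intro i
      refine Fin.addCases (fun j => ?_) (fun j => ?_) i
      · simp only [Fin.append_left]; fun_prop
      · simp only [Fin.append_right]; fun_prop
    have h2 := (key.comp hA).const_mul ((D.d : ℂ)⁻¹)
    have h3 : (fun q : VN c × VN c => hk D Φ μ κ q.1 q.2) = (fun y => (D.d : ℂ)⁻¹ *
        ((fun u : Fin ((2 * c + 1) + (2 * c + 1)) → ℂ => ∫ (x : ℝ) in (0 : ℝ)..(D.d : ℝ),
          fm D Φ μ (fun i => u (Fin.castAdd (2 * c + 1) i)) (fun i => u (Fin.natAdd (2 * c + 1) i)) (x : ℂ) *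
            ee (-(κ * (x : ℂ) / D.d))) ∘ fun q : VN c × VN c => Fin.append q.1 q.2) y) := by
      funext q
      simp only [Function.comp, hk, Fin.append_left, Fin.append_right]
    rw [h3]
    exact h2
  · have h := M6_.joint hK μ κ
    have h1 : Continuous (fun q : ℝ × (Fin ((2 * c + 1) + (2 * c + 1)) → ℂ) =>
        ((q.1, (fun i => q.2 (Fin.castAdd _ i)), (fun i => q.2 (Fin.natAdd _ i))) : ℝ × VN c × VN c)) := by fun_prop
    exact h.comp h1
  · intro x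
    have h := fm_diff hK μ
    have h1 : Differentiable ℂ (fun v : (Fin ((2 * c + 1) + (2 * c + 1)) → ℂ) =>
        (((x : ℂ), (fun i => v (Fin.castAdd _ i)), (fun i => v (Fin.natAdd _ i))) : ℂ × VN c × VN c)) := by fun_prop
    exact (h.comp h1).mul_const _

theorem hk_pdl {D : Dat c} {Φ : VN c → VN c → ℂ} {C C' : (Fin (2 * c + 1) → ℤ) → ℂ} (hK : Ker D Φ C C') (μ : ℂ) (κ : ℤ) (u s : VN c)
    (w : List (Fin (2 * c + 1))) :
    pdl w (hk D Φ μ κ u) s = (D.d : ℂ)⁻¹ * ∫ x in (0 : ℝ)..(D.d : ℝ),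
      pdl w (Φ (u + (x : ℂ) • D.gc)) s * ee (D.nu * x ^ 2 / 2 + x * (D.v0 ⬝ᵥ u) + μ * x) * ee (-(κ * x / D.d)) := by
  have key := (pdl_int (n := 2 * c + 1)
    (fun (x : ℝ) (v : Fin (2 * c + 1) → ℂ) => fm D Φ μ u v (x : ℂ) * ee (-(κ * (x : ℂ) / D.d)))
    ?_ ?_ 0 (D.d : ℝ) w).2.2 s
  · have h0 : hk D Φ μ κ u = fun v => (∫ x in (0 : ℝ)..(D.d : ℝ), fm D Φ μ u v (x : ℂ) * ee (-(κ * (x : ℂ) / D.d))) * (D.d : ℂ)⁻¹ := by
      funext v; simp only [hk]; rw [mul_comm]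
    rw [h0, M6_.pdl_mul_const]
    beta_reduce
    rw [key, mul_comm]
    congr 1
    refine intervalIntegral.integral_congr (fun x _ => ?_)
    show pdl w (fun v => fm D Φ μ u v (x : ℂ) * ee (-(κ * (x : ℂ) / D.d))) s = _
    have h1 : (fun v => fm D Φ μ u v (x : ℂ) * ee (-(κ * (x : ℂ) / D.d))) =
        fun v => Φ (u + (x : ℂ) • D.gc) v * (ee (D.nu * x ^ 2 / 2 + x * (D.v0 ⬝ᵥ u) + μ * x) * ee (-(κ * (x : ℂ) / D.d))) := by
      funext v; simp only [fm]; ring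
    rw [h1, M6_.pdl_mul_const]
    beta_reduce
    ring
  · have h := M6_.joint hK μ κ
    have h1 : Continuous (fun q : ℝ × (Fin (2 * c + 1) → ℂ) => ((q.1, u, q.2) : ℝ × VN c × VN c)) := by fun_prop
    exact h.comp h1
  · intro x
    have h := fm_diff hK μ
    have h1 : Differentiable ℂ (fun v : (Fin (2 * c + 1) → ℂ) => (((x : ℂ), u, v) : ℂ × VN c × VN c)) := by fun_prop
    exact (h.comp h1).mul_const _

end Pool.Agent.LT
end

end

section

/-! # A6: Ramanujan differential equations (MP_f58a57_nt) -/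

open Complex ModularForm EisensteinSeries Filter
open UpperHalfPlane hiding I
open scoped Topology MatrixGroups

noncomputable section

namespace Pool.Agent.MSD

theorem A6_open : IsOpen {z : ℂ | 0 < z.im} := isOpen_lt continuous_const Complex.continuous_im

theorem A6_norm_qq (z : ℂ) : ‖qq z‖ = Real.exp (-(2 * Real.pi * z.im)) := by
  unfold qq
  rw [Complex.norm_exp]
  congr 1
  simp

/-- a `q`-expansion tends to its constant term exponentially fast -/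
theorem A6_decay {c : ℕ → ℤ} {f : ℂ → ℂ} (h : QExp c f) :
    ∃ K : ℝ, 0 ≤ K ∧ ∀ z : ℂ, 1 / 2 ≤ z.im →
      ‖f z - c 0‖ ≤ K * Real.exp (-(2 * Real.pi * (z.im - 1 / 2))) := by
  have h0 := (h (I / 2) (by simp)).summable.norm
  have him : (I / 2 : ℂ).im = 1 / 2 := by simp
  refine ⟨∑' n, ‖(c n : ℂ) * qq (I / 2) ^ n‖, tsum_nonneg fun n => norm_nonneg _, fun z hz => ?_⟩
  have hpi := Real.pi_pos
  have h1 := h z (by linarith)
  have h2 : HasSum (fun n => (c (n + 1) : ℂ) * qq z ^ (n + 1)) (f z - c 0) := by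
    have := (hasSum_nat_add_iff' 1).2 h1
    simpa using this
  have h3 : ∀ n, ‖(c (n + 1) : ℂ) * qq z ^ (n + 1)‖ ≤
      ‖(c (n + 1) : ℂ) * qq (I / 2) ^ (n + 1)‖ * Real.exp (-(2 * Real.pi * (z.im - 1 / 2))) := by
    intro n
    rw [norm_mul, norm_mul, norm_pow, norm_pow, A6_norm_qq, A6_norm_qq, him]
    refine (mul_le_mul_of_nonneg_left ?_ (norm_nonneg (c (n + 1) : ℂ))).trans_eq
      (mul_assoc _ _ _).symm
    rw [← Real.exp_nat_mul, ← Real.exp_nat_mul, ← Real.exp_add, Real.exp_le_exp]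
    have hn : (0 : ℝ) ≤ n := Nat.cast_nonneg n
    push_cast
    have : (0 : ℝ) ≤ (n : ℝ) * (2 * Real.pi * (z.im - 1 / 2)) := by
      apply mul_nonneg hn
      apply mul_nonneg (by positivity)
      linarith
    nlinarith
  have h4 : Summable (fun n => ‖(c (n + 1) : ℂ) * qq (I / 2) ^ (n + 1)‖) :=
    (summable_nat_add_iff 1).2 h0
  have h5 : Summable (fun n => ‖(c (n + 1) : ℂ) * qq (I / 2) ^ (n + 1)‖ *
      Real.exp (-(2 * Real.pi * (z.im - 1 / 2)))) := h4.mul_right _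
  rw [← h2.tsum_eq]
  calc ‖∑' n, (c (n + 1) : ℂ) * qq z ^ (n + 1)‖
      ≤ ∑' n, ‖(c (n + 1) : ℂ) * qq (I / 2) ^ (n + 1)‖ *
        Real.exp (-(2 * Real.pi * (z.im - 1 / 2))) := tsum_of_norm_bounded h5.hasSum h3
    _ = (∑' n, ‖(c (n + 1) : ℂ) * qq (I / 2) ^ (n + 1)‖) *
        Real.exp (-(2 * Real.pi * (z.im - 1 / 2))) := tsum_mul_right
    _ ≤ _ := by
      refine mul_le_mul_of_nonneg_right ?_ (Real.exp_pos _).le
      have h6 := h0.sum_add_tsum_nat_add 1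
      have h7 : 0 ≤ ∑ i ∈ Finset.range 1, ‖(c i : ℂ) * qq (I / 2) ^ i‖ :=
        Finset.sum_nonneg fun i _ => norm_nonneg _
      linarith

/-- the derivative of a `q`-expansion decays exponentially -/
theorem A6_deriv_decay {c : ℕ → ℤ} {f : ℂ → ℂ} (h : QExp c f)
    (hd : DifferentiableOn ℂ f {z | 0 < z.im}) :
    ∃ K : ℝ, 0 ≤ K ∧ ∀ z : ℂ, 1 ≤ z.im →
      ‖deriv f z‖ ≤ K * Real.exp (-(2 * Real.pi * (z.im - 1))) := by
  obtain ⟨K, hK, hb⟩ := A6_decay h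
  refine ⟨K * 2, by positivity, fun z hz => ?_⟩
  have hpi := Real.pi_pos
  have him : ∀ w : ℂ, ‖w - z‖ ≤ 1 / 2 → z.im - 1 / 2 ≤ w.im := by
    intro w hw
    have h1 : |(w - z).im| ≤ ‖w - z‖ := Complex.abs_im_le_norm _
    have h2 := abs_le.1 (h1.trans hw)
    rw [Complex.sub_im] at h2
    linarith [h2.1]
  have h1 : DiffContOnCl ℂ (fun w => f w - c 0) (Metric.ball z (1 / 2)) := by
    have h2 : DifferentiableOn ℂ (fun w => f w - c 0) (Metric.closedBall z (1 / 2)) := by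
      refine (hd.mono ?_).sub_const _
      intro w hw
      rw [Metric.mem_closedBall, dist_eq_norm] at hw
      have := him w hw
      show 0 < w.im
      linarith
    refine ⟨h2.mono Metric.ball_subset_closedBall, ?_⟩
    exact h2.continuousOn.mono Metric.closure_ball_subset_closedBall
  have h3 : deriv f z = deriv (fun w => f w - c 0) z := by
    rw [deriv_sub_const_fun]
  rw [h3]
  have h4 := Complex.norm_deriv_le_of_forall_mem_sphere_norm_le (c := z) (R := 1 / 2)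
    (C := K * Real.exp (-(2 * Real.pi * (z.im - 1)))) (by norm_num) h1 (by
      intro w hw
      rw [mem_sphere_iff_norm] at hw
      have h5 := him w hw.le
      refine (hb w (by linarith)).trans ?_
      refine mul_le_mul_of_nonneg_left ?_ hK
      rw [Real.exp_le_exp]
      nlinarith)
  refine h4.trans (le_of_eq ?_)
  ring

/-- the Serre derivative -/
theorem A6_serre {k : ℕ} {f : ℂ → ℂ} {c : ℕ → ℤ} (hf : IsMF k f) (hq : QExp c f) :
    IsMF (k + 2) (fun z => (2 * Real.pi * I)⁻¹ * deriv f z - (k : ℂ) / 12 * (e2 z * f z)) ∧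
    Tendsto (fun y : ℝ => (2 * Real.pi * I)⁻¹ * deriv f (I * y) -
      (k : ℂ) / 12 * (e2 (I * y) * f (I * y))) atTop (𝓝 (-((k : ℂ) / 12) * c 0)) := by
  obtain ⟨c2, hc2, hc20⟩ := e2_q
  obtain ⟨K, hK, hder⟩ := A6_deriv_decay hq hf.diff
  have hpi := Real.pi_pos
  have hpiC : (Real.pi : ℂ) ≠ 0 := by exact_mod_cast Real.pi_ne_zero
  have hderf : ∀ z : ℂ, 0 < z.im → HasDerivAt f (deriv f z) z := fun z hz =>
    (hf.diff.differentiableAt (A6_open.mem_nhds hz)).hasDerivAt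
  have he2per : ∀ z : ℂ, 0 < z.im → e2 (z + 1) = e2 z := by
    intro z hz
    have := e2_transform 1 1 0 1 (by norm_num) z hz
    simpa using this
  have he2inv : ∀ z : ℂ, 0 < z.im → e2 (-1 / z) = z ^ 2 * e2 z - 6 * I / Real.pi * z := by
    intro z hz
    have := e2_transform 0 (-1) 1 0 (by norm_num) z hz
    simpa using this
  constructor
  · refine ⟨?_, ?_, ?_, ?_⟩
    · refine DifferentiableOn.sub ?_ ?_
      · exact (hf.diff.deriv A6_open).const_mul _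
      · exact (e2_diff.mul hf.diff).const_mul _
    · intro z hz
      have h1 : HasDerivAt f (deriv f (z + 1)) (z + 1) := hderf (z + 1) (by simp [hz])
      have h2 : HasDerivAt (fun w => f (w + 1)) (deriv f (z + 1)) z := h1.comp_add_const z 1
      have h3 : (fun w => f (w + 1)) =ᶠ[𝓝 z] f := by
        filter_upwards [A6_open.mem_nhds hz] with w hw
        exact hf.per w hw
      have h4 : deriv f (z + 1) = deriv f z := (h2.congr_of_eventuallyEq h3.symm).unique (hderf z hz)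
      show (2 * Real.pi * I)⁻¹ * deriv f (z + 1) - (k : ℂ) / 12 * (e2 (z + 1) * f (z + 1)) = _
      rw [h4, he2per z hz, hf.per z hz]
    · intro z hz
      have hz0 : z ≠ 0 := by
        rintro rfl
        simp at hz
      have him : 0 < (-1 / z).im := by
        rw [show (-1 : ℂ) / z = -z⁻¹ by field_simp, Complex.neg_im, Complex.inv_im]
        have : 0 < Complex.normSq z := Complex.normSq_pos.2 hz0
        have h5 : -(-z.im / Complex.normSq z) = z.im / Complex.normSq z := by ring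
        rw [h5]
        positivity
      have h1 : HasDerivAt (fun w : ℂ => -1 / w) (1 / z ^ 2) z := by
        have := (hasDerivAt_inv hz0).neg
        refine (this.congr_deriv ?_).congr_of_eventuallyEq (Eventually.of_forall fun w => ?_)
        · field_simp
        · show -1 / w = -w⁻¹
          field_simp
      have h2 : HasDerivAt (fun w => f (-1 / w)) (deriv f (-1 / z) * (1 / z ^ 2)) z :=
        (hderf _ him).comp z h1
      have h3 : HasDerivAt (fun w => w ^ k * f w) ((k : ℂ) * z ^ (k - 1) * f z + z ^ k * deriv f z) z := by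
        have := (hasDerivAt_pow k z).mul (hderf z hz)
        exact this
      have h4 : (fun w => f (-1 / w)) =ᶠ[𝓝 z] (fun w => w ^ k * f w) := by
        filter_upwards [A6_open.mem_nhds hz] with w hw
        exact hf.inv w hw
      have h5 : deriv f (-1 / z) * (1 / z ^ 2) = (k : ℂ) * z ^ (k - 1) * f z + z ^ k * deriv f z :=
        h2.unique (h3.congr_of_eventuallyEq h4)
      have h6 : deriv f (-1 / z) = (k : ℂ) * z ^ (k + 1) * f z + z ^ (k + 2) * deriv f z := by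
        have h7 : deriv f (-1 / z) = (deriv f (-1 / z) * (1 / z ^ 2)) * z ^ 2 := by field_simp
        rw [h7, h5]
        rcases Nat.eq_zero_or_pos k with rfl | hk
        · simp; ring
        · obtain ⟨m, rfl⟩ : ∃ m, k = m + 1 := ⟨k - 1, by omega⟩
          simp only [Nat.add_sub_cancel]
          ring
      show (2 * Real.pi * I)⁻¹ * deriv f (-1 / z) - (k : ℂ) / 12 * (e2 (-1 / z) * f (-1 / z)) = _
      rw [h6, he2inv z hz, hf.inv z hz]
      have hI : (I : ℂ) ≠ 0 := Complex.I_ne_zero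
      have h8 : (2 * (Real.pi : ℂ) * I)⁻¹ = -I / (2 * Real.pi) := by
        rw [inv_eq_iff_eq_inv, eq_comm, inv_div, div_eq_iff (by simpa using hI)]
        ring_nf
        rw [Complex.I_sq]
        ring
      rw [h8]
      field_simp
      ring
    · obtain ⟨C1, hC1⟩ := hc2.bdd
      obtain ⟨C2, hC2⟩ := hq.bdd
      refine ⟨‖(2 * Real.pi * I : ℂ)⁻¹‖ * K + ‖(k : ℂ) / 12‖ * (C1 * C2), fun z hz => ?_⟩
      have h1 : ‖deriv f z‖ ≤ K := by
        refine (hder z hz).trans ?_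
        have : Real.exp (-(2 * Real.pi * (z.im - 1))) ≤ 1 := by
          rw [Real.exp_le_one_iff]
          have : 0 ≤ 2 * Real.pi * (z.im - 1) := mul_nonneg (by positivity) (by linarith)
          linarith
        nlinarith
      refine (norm_sub_le _ _).trans ?_
      rw [norm_mul, norm_mul, norm_mul (e2 z)]
      have h2 := hC1 z hz
      have h3 := hC2 z hz
      have h4 : ‖e2 z‖ * ‖f z‖ ≤ C1 * C2 := mul_le_mul h2 h3 (norm_nonneg _) ((norm_nonneg _).trans h2)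
      gcongr
  · have h1 : Tendsto (fun y : ℝ => deriv f (I * y)) atTop (𝓝 0) := by
      rw [tendsto_zero_iff_norm_tendsto_zero]
      have h2 : Tendsto (fun y : ℝ => K * Real.exp (-(2 * Real.pi * (y - 1)))) atTop (𝓝 (K * 0)) := by
        refine Tendsto.const_mul K ?_
        refine Real.tendsto_exp_atBot.comp ?_
        refine tendsto_neg_atTop_atBot.comp ?_
        refine Tendsto.const_mul_atTop (by positivity) ?_
        exact tendsto_atTop_add_const_right _ (-1) tendsto_id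
      rw [mul_zero] at h2
      refine squeeze_zero' (Eventually.of_forall fun y => norm_nonneg _) ?_ h2
      filter_upwards [eventually_ge_atTop (1 : ℝ)] with y hy
      have h3 := hder (I * y) (by simpa using hy)
      simpa using h3
    have h2 := ((h1.const_mul ((2 * Real.pi * I : ℂ)⁻¹)).sub
      ((hc2.tendsto.mul hq.tendsto).const_mul ((k : ℂ) / 12)))
    rw [hc20] at h2
    convert h2 using 2
    push_cast
    ring

/-- A6. PROOF. The Serre derivative `(2πi)⁻¹ e4' - e2 e4/3` is a modular form of weight 6 (Mathlib: `serreDerivative_slash_equivariant`; or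
differentiate the transformation laws of A2 under `z ↦ z + 1`, `z ↦ -1/z`), holomorphic and bounded, with value `-1/3` at `i∞`; add `e6/3`: it
tends to 0 at `i∞`, so it vanishes by `IsMF.div_dl` (`6 < 12`). Same for `e6` (weight 8, add `e4²/2`). -/
theorem deriv_e4 (z : ℂ) (hz : 0 < z.im) :
    HasDerivAt e4 (2 * Real.pi * I * ((e2 z * e4 z - e6 z) / 3)) z := by
  obtain ⟨c, hc, hc0⟩ := e4_q
  obtain ⟨c6, hc6, hc60⟩ := e6_q
  obtain ⟨h1, h2⟩ := A6_serre isMF_e4 hc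
  have h3 := h1.add (isMF_e6.const_mul (1 / 3))
  have h4 : Tendsto (fun y : ℝ => (2 * Real.pi * I)⁻¹ * deriv e4 (I * y) -
      ((4 : ℕ) : ℂ) / 12 * (e2 (I * y) * e4 (I * y)) + 1 / 3 * e6 (I * y)) atTop (𝓝 0) := by
    have := h2.add (hc6.tendsto.const_mul (1 / 3))
    rw [hc0, hc60] at this
    convert this using 2
    push_cast
    ring
  have h5 : ∀ z : ℂ, 0 < z.im → (2 * Real.pi * I)⁻¹ * deriv e4 z -
      ((4 : ℕ) : ℂ) / 12 * (e2 z * e4 z) + 1 / 3 * e6 z = 0 := by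
    rcases h3.div_dl h4 with h | ⟨h, _⟩
    · exact h
    · omega
  have h6 := h5 z hz
  have h7 : deriv e4 z = 2 * Real.pi * I * ((e2 z * e4 z - e6 z) / 3) := by
    have hI : (2 * Real.pi * I : ℂ) ≠ 0 := by
      have := Real.pi_ne_zero
      simp [Complex.I_ne_zero, this]
    have h8 : deriv e4 z = (2 * Real.pi * I) * ((2 * Real.pi * I)⁻¹ * deriv e4 z) := by
      rw [← mul_assoc, mul_inv_cancel₀ hI, one_mul]
    rw [h8]
    congr 1
    push_cast at h6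
    linear_combination h6
  rw [← h7]
  exact (e4_diff.differentiableAt (A6_open.mem_nhds hz)).hasDerivAt

theorem deriv_e6 (z : ℂ) (hz : 0 < z.im) :
    HasDerivAt e6 (2 * Real.pi * I * ((e2 z * e6 z - e4 z ^ 2) / 2)) z := by
  obtain ⟨c, hc, hc0⟩ := e6_q
  obtain ⟨c4, hc4, hc40⟩ := e4_q
  obtain ⟨h1, h2⟩ := A6_serre isMF_e6 hc
  have h3 := h1.add ((isMF_e4.pow 2).const_mul (1 / 2))
  have h4 : Tendsto (fun y : ℝ => (2 * Real.pi * I)⁻¹ * deriv e6 (I * y) -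
      ((6 : ℕ) : ℂ) / 12 * (e2 (I * y) * e6 (I * y)) + 1 / 2 * e4 (I * y) ^ 2) atTop (𝓝 0) := by
    have := h2.add ((hc4.tendsto.pow 2).const_mul (1 / 2))
    rw [hc0, hc40] at this
    convert this using 2
    push_cast
    ring
  have h5 : ∀ z : ℂ, 0 < z.im → (2 * Real.pi * I)⁻¹ * deriv e6 z -
      ((6 : ℕ) : ℂ) / 12 * (e2 z * e6 z) + 1 / 2 * e4 z ^ 2 = 0 := by
    rcases h3.div_dl h4 with h | ⟨h, _⟩
    · exact h
    · omega
  have h6 := h5 z hz
  have h7 : deriv e6 z = 2 * Real.pi * I * ((e2 z * e6 z - e4 z ^ 2) / 2) := by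
    have hI : (2 * Real.pi * I : ℂ) ≠ 0 := by
      have := Real.pi_ne_zero
      simp [Complex.I_ne_zero, this]
    have h8 : deriv e6 z = (2 * Real.pi * I) * ((2 * Real.pi * I)⁻¹ * deriv e6 z) := by
      rw [← mul_assoc, mul_inv_cancel₀ hI, one_mul]
    rw [h8]
    congr 1
    push_cast at h6
    linear_combination h6
  rw [← h7]
  exact (e6_diff.differentiableAt (A6_open.mem_nhds hz)).hasDerivAt

end Pool.Agent.MSD
end

end

section

/-!
# E1: the theta function with base point `1/2`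
-/

open Complex

noncomputable section

namespace Pool.Agent.LT.KE

/-- PROOF: `MSP.th_real_ne` (file P/T3_Zeros) with `x = 1/2`. -/
theorem th_half_ne (z : ℂ) (hz : 0 < z.im) : MSP.th z (1 / 2) ≠ 0 := by
  have h := MSP.th_real_ne z hz (1 / 2) (by
    intro m hm
    have h2 : (2 * m : ℤ) = 1 := by
      have : (2 : ℝ) * m = 1 := by rw [← hm]; norm_num
      exact_mod_cast this
    omega)
  have e : (((1 / 2 : ℝ)) : ℂ) = 1 / 2 := by push_cast; ring
  rwa [e] at h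

theorem th1_zero (z : ℂ) (hz : 0 < z.im) : th1 z 0 = 1 := by
  unfold th1
  rw [add_zero, div_self (th_half_ne z hz)]

/-- PROOF: `MSP.th_differentiable`. -/
theorem th1_diff (z : ℂ) (hz : 0 < z.im) : Differentiable ℂ (th1 z) := by
  have h := MSP.th_differentiable z hz
  have h2 : Differentiable ℂ (fun x : ℂ => MSP.th z (1 / 2 + x)) :=
    h.comp ((differentiable_const _).add differentiable_id)
  exact h2.div_const _

/-- PROOF: `MSP.N0_shift` (P/T4_Shift) at `t = 1/2 + x`: `au z m n t = (-1)^(m+n) exp(-πi n² z - 2πi n (1/2 + x))` and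
`exp(-πi n) = (-1)^n` (e.g. `Complex.exp_int_mul`, `Complex.exp_pi_mul_I`). -/
theorem th1_shift (z : ℂ) (hz : 0 < z.im) (m n : ℤ) (x : ℂ) :
    th1 z (x + m + n * z) = (-1 : ℂ) ^ m * cexp (-(Real.pi * I * (n : ℂ) ^ 2 * z)) * ee (-(n * x)) * th1 z x := by
  have h := MSP.N0_shift z hz m n (1 / 2 + x)
  unfold MSP.N0 MSP.au at h
  have e1 : (1 : ℂ) / 2 + (x + m + n * z) = 1 / 2 + x + m + n * z := by ring
  unfold th1
  rw [e1, h]
  have e2 : -(Real.pi * I * (n : ℂ) ^ 2 * z) - 2 * Real.pi * I * n * (1 / 2 + x) =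
      -(Real.pi * I * (n : ℂ) ^ 2 * z) + (((-n : ℤ) : ℂ) * (Real.pi * I) + 2 * Real.pi * I * (-(n * x))) := by
    push_cast; ring
  have e3 : cexp (((-n : ℤ) : ℂ) * (Real.pi * I)) = (-1 : ℂ) ^ n := by
    rw [Complex.exp_int_mul, Complex.exp_pi_mul_I, zpow_neg, ← inv_zpow]
    norm_num
  have e4 : (-1 : ℂ) ^ n * (-1 : ℂ) ^ n = 1 := by
    rw [← mul_zpow]; norm_num
  rw [e2, Complex.exp_add, Complex.exp_add, e3, zpow_add₀ (by norm_num : (-1 : ℂ) ≠ 0)]
  unfold ee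
  have e5 : ∀ (a b c e f : ℂ), a * b * (c * (b * e)) * f = (b * b) * (a * c * e * f) := by intros; ring
  rw [mul_div_assoc, e5, e4, one_mul]

/-- PROOF: `MSP.growth` (P/T5_Growth; any `s`, e.g. `0`; `N0 = th`), `|Im (1/2 + x)| ≤ ‖x‖`, and the constant `1/‖th z (1/2)‖` is at most
`exp C'` for some `C' ≥ 0` (e.g. `Real.add_one_le_exp`). -/
theorem th1_growth (z : ℂ) (hz : 0 < z.im) : ∃ C : ℝ, 0 ≤ C ∧ ∀ x, ‖th1 z x‖ ≤ Real.exp (C * (1 + ‖x‖ ^ 2)) := by
  obtain ⟨C, hC, h⟩ := MSP.growth z 0 hz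
  set B : ℝ := 1 / ‖MSP.th z (1 / 2)‖ with hB
  have hB0 : 0 ≤ B := by positivity
  refine ⟨C + B, by positivity, ?_⟩
  intro x
  have h1 := (h (1 / 2 + x)).1
  unfold MSP.N0 at h1
  have him : (1 / 2 + x).im = x.im := by
    have : ((1 : ℂ) / 2).im = 0 := by simp
    rw [Complex.add_im, this, zero_add]
  rw [him] at h1
  have hx : x.im ^ 2 ≤ ‖x‖ ^ 2 := by
    rw [← sq_abs]
    exact pow_le_pow_left₀ (abs_nonneg _) (Complex.abs_im_le_norm x) 2
  have hBe : B ≤ Real.exp (B * (1 + ‖x‖ ^ 2)) := by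
    have h2 := Real.add_one_le_exp (B * (1 + ‖x‖ ^ 2))
    have h3 : B ≤ B * (1 + ‖x‖ ^ 2) := by
      have : 0 ≤ B * ‖x‖ ^ 2 := by positivity
      nlinarith
    linarith
  unfold th1
  rw [norm_div, div_eq_mul_one_div, ← hB, add_mul, Real.exp_add]
  apply mul_le_mul _ hBe hB0 (Real.exp_nonneg _)
  refine h1.trans (Real.exp_le_exp.mpr ?_)
  apply mul_le_mul_of_nonneg_left _ hC.le
  linarith

end Pool.Agent.LT.KE
end

end

section

/-!
# MP_f58a57_nt, large transcendence degree, part C (row lt-C-B3)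

First step of C.4: INT for F_q / exp(A T log T) (use Fq_sec, Fq_pdl, exists_wd for (I4)), then extend_bound; k^2 >= T^(1+2 eps) >> T log T absorbs exp(A T log T).
-/

open Complex Matrix MeasureTheory

noncomputable section

namespace Pool.Agent.LT

variable {c : ℕ}

namespace B3_

theorem Fq_scale {T : ℕ} (Φ : VN c → VN c → ℂ) (q : Wd (2 * c + 1) T → ℂ) (t : ℂ) (u : VN c) :
    Fq Φ (fun β => t * q β) u = t * Fq Φ q u := by
  unfold Fq
  rw [Finset.mul_sum]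
  exact Finset.sum_congr rfl fun β _ => by ring

theorem BM_scale {n T : ℕ} (Φ : (Fin n → ℂ) → (Fin n → ℂ) → ℂ) (q : Wd n T → ℂ) (t : ℂ) (α : Wd n T) :
    (BM Φ T *ᵥ (fun β => t * q β)) α = t * (BM Φ T *ᵥ q) α := by
  simp only [Matrix.mulVec, dotProduct]
  rw [Finset.mul_sum]
  exact Finset.sum_congr rfl fun β _ => by ring

theorem nsq_nonneg {n : ℕ} (z : Fin n → ℂ) : 0 ≤ nsq z := Finset.sum_nonneg fun _ _ => by positivity

theorem nsq_pt_le {n : ℕ} (g : Fin n → ℤ) (d : ℕ) (b : Fin n → ℝ) (hb : ∀ j, 0 ≤ b j ∧ b j ≤ d) (y : ℝ) :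
    nsq (pt g b y) ≤ (n * (d : ℝ) ^ 2) + (∑ j, (g j : ℝ) ^ 2) * y ^ 2 := by
  unfold nsq pt
  have h1 : ∀ j, ‖(b j : ℂ) + I * y * (g j : ℂ)‖ ^ 2 = b j ^ 2 + (g j : ℝ) ^ 2 * y ^ 2 := by
    intro j
    have : (b j : ℂ) + I * y * (g j : ℂ) = ((b j : ℝ) : ℂ) + ((y * (g j : ℝ) : ℝ) : ℂ) * I := by
      push_cast
      ring
    rw [this, ← Complex.normSq_eq_norm_sq, Complex.normSq_add_mul_I]
    ring
  calc ∑ j, ‖(b j : ℂ) + I * y * (g j : ℂ)‖ ^ 2 = ∑ j, (b j ^ 2 + (g j : ℝ) ^ 2 * y ^ 2) :=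
        Finset.sum_congr rfl fun j _ => h1 j
    _ = ∑ j, b j ^ 2 + (∑ j, (g j : ℝ) ^ 2) * y ^ 2 := by rw [Finset.sum_add_distrib, Finset.sum_mul]
    _ ≤ (n * (d : ℝ) ^ 2) + (∑ j, (g j : ℝ) ^ 2) * y ^ 2 := by
        have : ∑ j, b j ^ 2 ≤ ∑ _j : Fin n, (d : ℝ) ^ 2 :=
          Finset.sum_le_sum fun j _ => pow_le_pow_left₀ (hb j).1 (hb j).2 2
        rw [Finset.sum_const, Finset.card_univ, Fintype.card_fin, nsmul_eq_mul] at this
        linarith

theorem log_small (ε B : ℝ) (hε : 0 < ε) (hB : 0 < B) : ∃ T2 : ℝ, ∀ T : ℝ, T2 ≤ T → Real.log T ≤ B * T ^ (2 * ε) := by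
  have h := (isLittleO_log_rpow_atTop (show (0 : ℝ) < 2 * ε by linarith)).bound hB
  rw [Filter.eventually_atTop] at h
  obtain ⟨a, ha⟩ := h
  refine ⟨max a 1, fun T hT => ?_⟩
  have h1 := ha T (le_trans (le_max_left _ _) hT)
  have hT1 : (1 : ℝ) ≤ T := le_trans (le_max_right _ _) hT
  rw [Real.norm_of_nonneg (Real.log_nonneg hT1), Real.norm_of_nonneg (Real.rpow_nonneg (by linarith) _)] at h1
  exact h1

end B3_

open B3_ in
theorem Fq_small {D : Dat c} {Φ : VN c → VN c → ℂ} {C C' : (Fin (2 * c + 1) → ℤ) → ℂ} (hK : Ker D Φ C C') (hI : INT D.d D.g D.Lt C)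
    {b : VN c →ₗ[ℝ] (Fin (2 * c + 1) → ℝ)} {Y : VN c →ₗ[ℝ] ℝ} (hd : Dec D D.Lt b Y) {ε : ℝ} (hε : 0 < ε) (hε' : ε ≤ 1 / 20) :
    ∃ K T1 : ℝ, 1 ≤ K ∧ ∀ T : ℕ, T1 ≤ (T : ℝ) → ∀ k : ℝ, (T : ℝ) ^ (1 / 2 + ε) ≤ k → k ≤ (T : ℝ) ^ ((c : ℝ) + 1 - ε) →
      ∀ q : Wd (2 * c + 1) T → ℂ, (∀ β, ‖q β‖ ≤ 1) → (∀ α, ‖(BM Φ T *ᵥ q) α‖ ≤ Real.exp (-((T : ℝ) ^ ε * k ^ 2))) →
        ∀ u, |Y u| ≤ k / K → ‖Fq Φ q u‖ ≤ Real.exp (K * (1 + nsq u) - k ^ 2 / K) := by
  obtain ⟨A1, hA1, hF⟩ := Fq_bound hK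
  obtain ⟨A2, hA2, hext⟩ := extend_bound D D.Lt hd hK.mulu
  set G : ℝ := ∑ j, (D.g j : ℝ) ^ 2 with hG
  have hG0 : 0 ≤ G := Finset.sum_nonneg fun _ _ => by positivity
  set N : ℝ := (((2 * c + 1 : ℕ) : ℝ) * (D.d : ℝ) ^ 2) with hN
  have hN0 : 0 ≤ N := by positivity
  obtain ⟨C0, T0, hC0, hint⟩ := hI ε (A1 * (1 + N + G)) hε hε' (by positivity)
  have hC0p : 0 < C0 := by linarith
  obtain ⟨T2, hT2⟩ := log_small ε (1 / (2 * C0 * (A1 + 1))) hε (by positivity)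
  set K : ℝ := max (2 * C0) (max A2 1) with hKdef
  have hK1 : 1 ≤ K := le_trans (le_max_right _ _) (le_max_right _ _)
  have hKC : 2 * C0 ≤ K := le_max_left _ _
  have hKA : A2 ≤ K := le_trans (le_max_left _ _) (le_max_right _ _)
  have hKp : 0 < K := by linarith
  refine ⟨K, max (max T0 T2) 2, hK1, ?_⟩
  intro T hT k hk1 hk2 q hq hBM u hu
  have hTT0 : T0 ≤ (T : ℝ) := le_trans (le_trans (le_max_left _ _) (le_max_left _ _)) hT
  have hTT2 : T2 ≤ (T : ℝ) := le_trans (le_trans (le_max_right _ _) (le_max_left _ _)) hT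
  have hT2r : (2 : ℝ) ≤ (T : ℝ) := le_trans (le_max_right _ _) hT
  have hT2n : 2 ≤ T := by exact_mod_cast hT2r
  have hTpos : (0 : ℝ) < (T : ℝ) := by linarith
  have hk0 : 0 ≤ k := le_trans (Real.rpow_nonneg hTpos.le _) hk1
  have hlog0 : 0 ≤ Real.log T := Real.log_nonneg (by linarith)
  set W : ℝ := (T : ℝ) * Real.log T with hW
  have hW0 : 0 ≤ W := mul_nonneg hTpos.le hlog0
  -- the scaled function
  set t : ℝ := Real.exp (-(A1 * W)) with ht
  have ht0 : 0 < t := Real.exp_pos _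
  have ht1 : t ≤ 1 := by
    rw [ht]
    exact Real.exp_le_one_iff.2 (by nlinarith)
  have htn : ‖(t : ℂ)‖ = t := by rw [Complex.norm_real, Real.norm_of_nonneg ht0.le]
  have hsec := Fq_sec hK (fun β => (t : ℂ) * q β)
  have hgrow : ∀ (b' : Fin (2 * c + 1) → ℝ) (y : ℝ), (∀ j, 0 ≤ b' j ∧ b' j ≤ D.d) → |y| ≤ k →
      ‖Fq Φ (fun β => (t : ℂ) * q β) (pt D.g b' y)‖ ≤ Real.exp (A1 * (1 + N + G) * (1 + y ^ 2)) := by
    intro b' y hb' _
    rw [Fq_scale, norm_mul, htn]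
    have h1 := hF T hT2n q hq (pt D.g b' y)
    have h2 := nsq_pt_le D.g D.d b' hb' y
    calc t * ‖Fq Φ q (pt D.g b' y)‖ ≤ t * Real.exp (A1 * W + A1 * (1 + nsq (pt D.g b' y))) :=
          mul_le_mul_of_nonneg_left h1 ht0.le
      _ = Real.exp (A1 * (1 + nsq (pt D.g b' y))) := by
          rw [ht, ← Real.exp_add]
          congr 1
          ring
      _ ≤ Real.exp (A1 * (1 + N + G) * (1 + y ^ 2)) := by
          apply Real.exp_le_exp.2
          rw [mul_assoc]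
          apply mul_le_mul_of_nonneg_left _ hA1
          have h3 : nsq (pt D.g b' y) ≤ N + G * y ^ 2 := h2
          nlinarith [sq_nonneg y, mul_nonneg hN0 (sq_nonneg y)]
  have hder : ∀ w : List (Fin (2 * c + 1)), w.length < T →
      ‖pdl w (Fq Φ (fun β => (t : ℂ) * q β)) 0‖ ≤ Real.exp (-((T : ℝ) ^ ε * k ^ 2)) := by
    intro w hw
    obtain ⟨α, rfl⟩ := exists_wd w hw
    rw [Fq_pdl hK, BM_scale, norm_mul, htn]
    calc t * ‖(BM Φ T *ᵥ q) α‖ ≤ 1 * ‖(BM Φ T *ᵥ q) α‖ := mul_le_mul_of_nonneg_right ht1 (norm_nonneg _)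
      _ = ‖(BM Φ T *ᵥ q) α‖ := one_mul _
      _ ≤ _ := hBM α
  have hsmall := hint T hTT0 k hk1 hk2 _ hsec hgrow hder
  -- the absorption
  have hk2' : (T : ℝ) ^ (1 + 2 * ε) ≤ k ^ 2 := by
    have h1 : ((T : ℝ) ^ (1 / 2 + ε)) ^ 2 ≤ k ^ 2 := pow_le_pow_left₀ (Real.rpow_nonneg hTpos.le _) hk1 2
    have h2 : ((T : ℝ) ^ (1 / 2 + ε)) ^ 2 = (T : ℝ) ^ (1 + 2 * ε) := by
      rw [← Real.rpow_natCast, ← Real.rpow_mul hTpos.le]
      congr 1
      push_cast
      ring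
    rw [← h2]
    exact h1
  have habs : A1 * W ≤ k ^ 2 / (2 * C0) := by
    have h1 := hT2 T hTT2
    have h2 : W ≤ 1 / (2 * C0 * (A1 + 1)) * k ^ 2 := by
      calc W ≤ (T : ℝ) * (1 / (2 * C0 * (A1 + 1)) * (T : ℝ) ^ (2 * ε)) := mul_le_mul_of_nonneg_left h1 hTpos.le
        _ = 1 / (2 * C0 * (A1 + 1)) * (T : ℝ) ^ (1 + 2 * ε) := by
            rw [Real.rpow_add hTpos, Real.rpow_one]
            ring
        _ ≤ 1 / (2 * C0 * (A1 + 1)) * k ^ 2 := mul_le_mul_of_nonneg_left hk2' (by positivity)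
    calc A1 * W ≤ (A1 + 1) * W := by nlinarith
      _ ≤ (A1 + 1) * (1 / (2 * C0 * (A1 + 1)) * k ^ 2) := mul_le_mul_of_nonneg_left h2 (by linarith)
      _ = k ^ 2 / (2 * C0) := by
          field_simp
  have hs : ∀ (b' : Fin (2 * c + 1) → ℝ) (y : ℝ), (∀ j, 0 ≤ b' j ∧ b' j ≤ D.d) → |y| ≤ k / C0 →
      ‖Fq Φ q (pt D.g b' y)‖ ≤ Real.exp (-(k ^ 2 / (2 * C0))) := by
    intro b' y hb' hy
    have h1 := hsmall b' y hb' hy
    rw [Fq_scale, norm_mul, htn] at h1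
    have h2 : ‖Fq Φ q (pt D.g b' y)‖ = Real.exp (A1 * W) * (t * ‖Fq Φ q (pt D.g b' y)‖) := by
      rw [ht, ← mul_assoc, ← Real.exp_add]
      simp
    rw [h2]
    calc Real.exp (A1 * W) * (t * ‖Fq Φ q (pt D.g b' y)‖) ≤ Real.exp (A1 * W) * Real.exp (-(k ^ 2 / C0)) :=
          mul_le_mul_of_nonneg_left h1 (Real.exp_pos _).le
      _ = Real.exp (A1 * W - k ^ 2 / C0) := by rw [← Real.exp_add]; rfl
      _ ≤ Real.exp (-(k ^ 2 / (2 * C0))) := by
          apply Real.exp_le_exp.2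
          have : k ^ 2 / C0 = k ^ 2 / (2 * C0) + k ^ 2 / (2 * C0) := by
            field_simp
            ring
          linarith
  have hfin := hext (Fq Φ q) (Fq_sec hK q) (Real.exp (-(k ^ 2 / (2 * C0)))) (k / C0) (Real.exp_pos _).le hs u
    (le_trans hu (div_le_div_of_nonneg_left hk0 hC0p (by linarith)))
  refine le_trans hfin ?_
  rw [← Real.exp_add]
  apply Real.exp_le_exp.2
  have h1 : k ^ 2 / K ≤ k ^ 2 / (2 * C0) := div_le_div_of_nonneg_left (sq_nonneg k) (by linarith) hKC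
  have h2 : A2 * (1 + nsq u) ≤ K * (1 + nsq u) := mul_le_mul_of_nonneg_right hKA (by linarith [nsq_nonneg u])
  linarith

end Pool.Agent.LT
end

end

section

/-!
# MP_f58a57_nt, large transcendence degree, part C (row lt-C-M7)

(C3),(C3prime),(C4),(C5): integrate the transformation properties of fm; for the shifts by xi use hk_shift with w = xi.
-/

open Complex Matrix MeasureTheory

noncomputable section

namespace Pool.Agent.LT

variable {c : ℕ}

namespace M7_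

theorem pull (d : ℂ) (a b : ℝ) (A : ℂ) (f g : ℝ → ℂ) (h : ∀ x, f x = A * g x) :
    d⁻¹ * ∫ x in a..b, f x = A * (d⁻¹ * ∫ x in a..b, g x) := by
  have h1 : (∫ x in a..b, f x) = A * ∫ x in a..b, g x := by
    rw [← intervalIntegral.integral_const_mul]
    exact intervalIntegral.integral_congr (fun x _ => h x)
  rw [h1]
  ring

theorem shift {D : Dat c} {Φ : VN c → VN c → ℂ} {C C' : (Fin (2 * c + 1) → ℤ) → ℂ} (hK : Ker D Φ C C') {μ : ℂ} (hμ : Mu D C μ) (κ : ℤ)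
    (u s : VN c) (ξ B : ℂ) (f : ℝ → ℂ)
    (hf : ∀ x : ℝ, f x = ee (B - μ * ξ) * fm D Φ μ u s (x + ξ) * ee (-(κ * x / D.d))) :
    (D.d : ℂ)⁻¹ * ∫ x in (0 : ℝ)..(D.d : ℝ), f x = ee (B - (μ - κ / D.d) * ξ) * hk D Φ μ κ u s := by
  rw [hk_shift hK hμ κ u s ξ]
  refine pull _ _ _ _ _ _ ?_
  intro x
  rw [hf x]
  have h1 : ee (B - μ * ξ) * ee (-(κ * x / D.d)) = ee (B - (μ - κ / D.d) * ξ) * ee (-(κ * (x + ξ) / D.d)) := by
    rw [← ee_add, ← ee_add]
    congr 1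
    ring
  calc ee (B - μ * ξ) * fm D Φ μ u s (x + ξ) * ee (-(κ * x / D.d))
      = (ee (B - μ * ξ) * ee (-(κ * x / D.d))) * fm D Φ μ u s (x + ξ) := by ring
    _ = ee (B - (μ - κ / D.d) * ξ) * (fm D Φ μ u s (x + ξ) * ee (-(κ * (x + ξ) / D.d))) := by
      rw [h1]
      ring

theorem compL (F : VN c → VN c → ℂ) (h1 : Differentiable ℂ (fun q : VN c × VN c => F q.1 q.2)) (s : VN c) :
    Differentiable ℂ (fun u : VN c => F u s) := by
  have h2 : Differentiable ℂ (fun u : VN c => ((u, s) : VN c × VN c)) := differentiable_id.prodMk (differentiable_const s)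
  exact Differentiable.comp (g := fun q : VN c × VN c => F q.1 q.2) (f := fun u : VN c => ((u, s) : VN c × VN c)) h1 h2

theorem compR (F : VN c → VN c → ℂ) (h1 : Differentiable ℂ (fun q : VN c × VN c => F q.1 q.2)) (u : VN c) :
    Differentiable ℂ (fun s : VN c => F u s) := by
  have h2 : Differentiable ℂ (fun s : VN c => ((u, s) : VN c × VN c)) := (differentiable_const u).prodMk differentiable_id
  exact Differentiable.comp (g := fun q : VN c × VN c => F q.1 q.2) (f := fun s : VN c => ((u, s) : VN c × VN c)) h1 h2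

end M7_

theorem hk_mode {D : Dat c} {Φ : VN c → VN c → ℂ} {C C' : (Fin (2 * c + 1) → ℤ) → ℂ} (hK : Ker D Φ C C') {μ : ℂ} (hμ : Mu D C μ) (κ : ℤ) (s : VN c) :
    Mode D C μ κ (fun u => hk D Φ μ κ u s) := by
  refine ⟨⟨?_, ?_, ?_⟩, ?_⟩
  · exact M7_.compL (hk D Φ μ κ) (hk_diff hK μ κ) s
  · intro a u
    show hk D Φ μ κ (u + lat D.d a) s = C a * ee (-(lat D.d a ⬝ᵥ (D.Lt *ᵥ u))) * hk D Φ μ κ u s
    unfold hk
    refine M7_.pull _ _ _ _ _ _ ?_
    intro x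
    rw [fm_lat hK]
    ring
  · intro k hk0 u
    show hk D Φ μ κ (u + k) s = hk D Φ μ κ u s
    unfold hk
    congr 1
    refine intervalIntegral.integral_congr ?_
    intro x _
    show fm D Φ μ (u + k) s x * ee (-(κ * x / D.d)) = fm D Φ μ u s x * ee (-(κ * x / D.d))
    rw [fm_ker hK μ u s k hk0]
  · intro ξ u
    show hk D Φ μ κ (u + ξ • D.gc) s = ee (-(D.nu * ξ ^ 2 / 2) - ξ * (D.v0 ⬝ᵥ u) - (μ - κ / D.d) * ξ) * hk D Φ μ κ u s
    refine M7_.shift hK hμ κ u s ξ _ _ ?_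
    intro x
    rw [fm_gu hK]

theorem hk_secs {D : Dat c} {Φ : VN c → VN c → ℂ} {C C' : (Fin (2 * c + 1) → ℤ) → ℂ} (hK : Ker D Φ C C') {μ : ℂ} (hμ : Mu D C μ) (κ : ℤ) (u : VN c) :
    Sec D.d D.L C' (hk D Φ μ κ u) := by
  refine ⟨?_, ?_, ?_⟩
  · exact M7_.compR (hk D Φ μ κ) (hk_diff hK μ κ) u
  · intro a s
    unfold hk
    refine M7_.pull _ _ _ _ _ _ ?_
    intro x
    rw [fm_lat' hK]
    ring
  · intro k hk0 s
    unfold hk
    congr 1
    refine intervalIntegral.integral_congr ?_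
    intro x _
    show fm D Φ μ u (s + k) x * ee (-(κ * x / D.d)) = fm D Φ μ u s x * ee (-(κ * x / D.d))
    rw [fm_ker' hK μ u s k hk0]

theorem hk_gs {D : Dat c} {Φ : VN c → VN c → ℂ} {C C' : (Fin (2 * c + 1) → ℤ) → ℂ} (hK : Ker D Φ C C') {μ : ℂ} (hμ : Mu D C μ) (κ : ℤ) (u s : VN c) (ξ : ℂ) :
    hk D Φ μ κ u (s + ξ • D.gc) = ee (-(D.nu * ξ ^ 2 / 2) - ξ * (D.v0 ⬝ᵥ s) - (μ - κ / D.d) * ξ) * hk D Φ μ κ u s := by
  refine M7_.shift hK hμ κ u s ξ _ _ ?_
  intro x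
  rw [fm_gs hK]

theorem hk_jump {D : Dat c} {Φ : VN c → VN c → ℂ} {p p' : VN c} {nn : Fin (2 * c + 1) → ℤ} {C5 : ℂ} {m : ℤ} (hJ : Jump D Φ p p' nn C5 m) (μ : ℂ)
    (κ : ℤ) (u s : VN c) :
    hk D Φ μ κ (u + p) (s + p') = C5 * ee (p ⬝ᵥ (D.L *ᵥ s) + u ⬝ᵥ (D.L *ᵥ p')) * hk D Φ μ (κ - m * D.d) u s := by
  unfold hk
  refine M7_.pull _ _ _ _ _ _ ?_
  intro x
  rw [fm_jump hJ]
  have hd : (D.d : ℂ) ≠ 0 := by
    have h0 := D.hd
    exact_mod_cast h0.ne'
  have h1 : ee (-(((κ - m * D.d : ℤ) : ℂ) * x / D.d)) = ee (m * x) * ee (-(κ * x / D.d)) := by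
    rw [← ee_add]
    congr 1
    push_cast
    field_simp
    ring
  rw [h1]
  ring

end Pool.Agent.LT
end

end

section

/-!
# MP_f58a57_nt, large transcendence degree, part C (row lt-C-B7)

Extraction of y_i: by hk_gs the integrand is a trigonometric sum in xi.
-/

open Complex Matrix MeasureTheory

noncomputable section

namespace Pool.Agent.LT

variable {c : ℕ}

theorem gy_extract {D : Dat c} {Φ : VN c → VN c → ℂ} {C C' : (Fin (2 * c + 1) → ℤ) → ℂ} (hK : Ker D Φ C C') {μ : ℂ} (hμ : Mu D C μ) (κ m : ℤ) (hm : 1 ≤ m)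
    (p s : VN c) {j : ℕ} (y : Fin j → ℂ) (i : Fin j) :
    y i * hk D Φ μ (κ + (i : ℕ) * m * D.d) (((i : ℕ) : ℂ) • p) s = (D.d : ℂ)⁻¹ * ∫ ξ in (0 : ℝ)..(D.d : ℝ),
      gy D Φ μ κ m p y (s + (ξ : ℂ) • D.gc) * ee (D.nu * ξ ^ 2 / 2 + ξ * (D.v0 ⬝ᵥ s) + μ * ξ) * ee (-(((κ + (i : ℕ) * m * D.d : ℤ) : ℂ) * ξ / D.d)) := by
  have hd : (0 : ℝ) < (D.d : ℝ) := by exact_mod_cast D.hd
  have hinj : Function.Injective (fun l : Fin j => κ + ((l : ℕ) : ℤ) * m * (D.d : ℤ)) := by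
    intro a b hab
    have h1 : ((a : ℕ) : ℤ) * (m * (D.d : ℤ)) = ((b : ℕ) : ℤ) * (m * (D.d : ℤ)) := by
      have : κ + ((a : ℕ) : ℤ) * m * (D.d : ℤ) = κ + ((b : ℕ) : ℤ) * m * (D.d : ℤ) := hab
      linarith
    have h2 : (m * (D.d : ℤ)) ≠ 0 := by
      have : (0 : ℤ) < D.d := by exact_mod_cast D.hd
      positivity
    have h3 := mul_right_cancel₀ h2 h1
    exact Fin.ext (by exact_mod_cast h3)
  have h := fourier_fin hd
    (fun l : Fin j => y l * hk D Φ μ (κ + (l : ℕ) * m * D.d) (((l : ℕ) : ℂ) • p) s)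
    (fun l : Fin j => κ + ((l : ℕ) : ℤ) * m * (D.d : ℤ)) hinj i
  rw [Complex.ofReal_natCast] at h
  rw [← h]
  congr 1
  refine intervalIntegral.integral_congr fun ξ _ => ?_
  congr 1
  unfold gy
  rw [Finset.sum_mul]
  refine Finset.sum_congr rfl fun l _ => ?_
  rw [hk_gs hK hμ]
  have he : ee (-(D.nu * (ξ : ℂ) ^ 2 / 2) - ξ * (D.v0 ⬝ᵥ s) -
      (μ - ((κ + ((l : ℕ) : ℤ) * m * (D.d : ℤ) : ℤ) : ℂ) / D.d) * ξ) *
      ee (D.nu * ξ ^ 2 / 2 + ξ * (D.v0 ⬝ᵥ s) + μ * ξ) =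
      ee (((κ + ((l : ℕ) : ℤ) * m * (D.d : ℤ) : ℤ) : ℂ) * ξ / D.d) := by
    rw [← ee_add]
    congr 1
    ring
  rw [← he]
  ring

end Pool.Agent.LT
end

end
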