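import Mathlib

/-!
# MP_f58a57_nt, large transcendence degree, part C (row lt-C-La3)

Linear algebra: choose y (j unknowns) killing the orthogonal complement of X (dimension < j), normalised; L y b is the pairing with the orthogonal projection of the b-th unit vector to X.
-/

open Complex Matrix MeasureTheory

noncomputable section

namespace Pool.Agent.LT

variable {c : ℕ}

theorem exists_y {κ : Type} [Fintype κ] (j : ℕ) (L : (Fin j → ℂ) →ₗ[ℂ] (κ → ℂ)) (X : Submodule ℂ (κ → ℂ))
    (hX : Fintype.card κ < Module.finrank ℂ X + j) :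
    ∃ y : Fin j → ℂ, (∀ i, ‖y i‖ ≤ 1) ∧ (∃ i, ‖y i‖ = 1) ∧
      ∀ t : ℝ, (∀ q ∈ X, ∑ b, ‖q b‖ ^ 2 ≤ 1 → ‖∑ b, q b * L y b‖ ≤ t) → ∀ b, ‖L y b‖ ≤ t := by
  classical
  let e : EuclideanSpace ℂ κ ≃ₗ[ℂ] (κ → ℂ) := WithLp.linearEquiv 2 ℂ (κ → ℂ)
  let X' : Submodule ℂ (EuclideanSpace ℂ κ) := X.map e.symm.toLinearMap
  have hfr : Module.finrank ℂ X' = Module.finrank ℂ X := LinearEquiv.finrank_map_eq e.symm X
  have hsum : Module.finrank ℂ X' + Module.finrank ℂ X'ᗮ = Fintype.card κ := by
    rw [Submodule.finrank_add_finrank_orthogonal X', finrank_euclideanSpace]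
  let T : (Fin j → ℂ) →ₗ[ℂ] Module.Dual ℂ X'ᗮ :=
    LinearMap.mk₂ ℂ (fun (y : Fin j → ℂ) (q : X'ᗮ) => ∑ b, (e (q : EuclideanSpace ℂ κ)) b * L y b)
      (by
        intro y1 y2 q
        rw [← Finset.sum_add_distrib]
        refine Finset.sum_congr rfl fun b _ => ?_
        rw [map_add, Pi.add_apply, mul_add])
      (by
        intro a y q
        rw [Finset.smul_sum]
        refine Finset.sum_congr rfl fun b _ => ?_
        rw [map_smul, Pi.smul_apply, smul_eq_mul, smul_eq_mul]
        ring)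
      (by
        intro y q1 q2
        rw [← Finset.sum_add_distrib]
        refine Finset.sum_congr rfl fun b _ => ?_
        rw [Submodule.coe_add, map_add, Pi.add_apply, add_mul])
      (by
        intro a y q
        rw [Finset.smul_sum]
        refine Finset.sum_congr rfl fun b _ => ?_
        rw [Submodule.coe_smul, map_smul, Pi.smul_apply, smul_eq_mul, smul_eq_mul]
        ring)
  have hker : LinearMap.ker T ≠ ⊥ := by
    apply LinearMap.ker_ne_bot_of_finrank_lt
    rw [Subspace.dual_finrank_eq, Module.finrank_fin_fun]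
    omega
  obtain ⟨y0, hy0, hy0ne⟩ := Submodule.exists_mem_ne_zero_of_ne_bot hker
  have hn : 0 < ‖y0‖ := norm_pos_iff.mpr hy0ne
  have hjpos : 0 < j := by
    rcases Nat.eq_zero_or_pos j with h | h
    · subst h
      exact absurd (Subsingleton.elim y0 0) hy0ne
    · exact h
  have : Nonempty (Fin j) := ⟨⟨0, hjpos⟩⟩
  have hT : ∀ q : X'ᗮ, ∑ b, (e (q : EuclideanSpace ℂ κ)) b * L y0 b = 0 := by
    intro q
    have h1 : T y0 = 0 := hy0
    have h2 : T y0 q = 0 := by rw [h1]; rfl
    exact h2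
  refine ⟨((‖y0‖ : ℂ))⁻¹ • y0, ?_, ?_, ?_⟩
  · intro i
    rw [Pi.smul_apply, norm_smul, norm_inv, Complex.norm_real, norm_norm]
    rw [inv_mul_le_iff₀ hn, mul_one]
    exact norm_le_pi_norm y0 i
  · obtain ⟨i, hi⟩ := Finite.exists_max (fun i => ‖y0 i‖)
    refine ⟨i, ?_⟩
    rw [Pi.smul_apply, norm_smul, norm_inv, Complex.norm_real, norm_norm]
    have h1 : ‖y0‖ = ‖y0 i‖ := by
      apply le_antisymm
      · exact (pi_norm_le_iff_of_nonneg (norm_nonneg _)).mpr hi
      · exact norm_le_pi_norm y0 i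
    rw [← h1, inv_mul_cancel₀ hn.ne']
  · intro t ht b
    have hy : ∀ q : X'ᗮ, ∑ a, (e (q : EuclideanSpace ℂ κ)) a * L (((‖y0‖ : ℂ))⁻¹ • y0) a = 0 := by
      intro q
      have h1 := hT q
      have h2 : ∑ a, (e (q : EuclideanSpace ℂ κ)) a * L (((‖y0‖ : ℂ))⁻¹ • y0) a =
          ((‖y0‖ : ℂ))⁻¹ * ∑ a, (e (q : EuclideanSpace ℂ κ)) a * L y0 a := by
        rw [Finset.mul_sum]
        refine Finset.sum_congr rfl fun a _ => ?_
        rw [map_smul, Pi.smul_apply, smul_eq_mul]
        ring
      rw [h2, h1, mul_zero]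
    set y := ((‖y0‖ : ℂ))⁻¹ • y0 with hydef
    let v : EuclideanSpace ℂ κ := EuclideanSpace.single b 1
    let p : EuclideanSpace ℂ κ := X'.starProjection v
    have hp : p ∈ X' := Submodule.starProjection_apply_mem X' v
    have hp' : v - p ∈ X'ᗮ := Submodule.sub_starProjection_mem_orthogonal v
    have hnorm : ‖p‖ ≤ 1 := by
      have h1 : ‖p‖ ≤ ‖v‖ := Submodule.norm_starProjection_apply_le X' v
      have h2 : ‖v‖ = 1 := by simp [v]
      linarith
    have hpX : e p ∈ X := by
      obtain ⟨x, hx, hxe⟩ := Submodule.mem_map.mp hp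
      rw [← hxe]
      simpa using hx
    have h3 := ht (e p) hpX (by
      have h4 : ∑ a, ‖(e p) a‖ ^ 2 = ‖p‖ ^ 2 := by
        rw [EuclideanSpace.norm_sq_eq]
        rfl
      rw [h4]
      have := norm_nonneg p
      nlinarith)
    have h5 : ∑ a, (e p) a * L y a = L y b := by
      have h6 := hy ⟨v - p, hp'⟩
      have h7 : ∑ a, (e v) a * L y a = L y b := by
        have h8 : ∀ a, (e v) a = if a = b then 1 else 0 := by
          intro a
          have : (e v) a = v a := rfl
          rw [this]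
          simp [v]
        simp [h8]
      have h9 : ∑ a, (e (v - p)) a * L y a = ∑ a, (e v) a * L y a - ∑ a, (e p) a * L y a := by
        rw [← Finset.sum_sub_distrib]
        refine Finset.sum_congr rfl fun a _ => ?_
        rw [map_sub, Pi.sub_apply, sub_mul]
      have h10 : ∑ a, (e (v - p)) a * L y a = 0 := h6
      rw [h9, h7] at h10
      exact (sub_eq_zero.mp h10).symm
    rw [h5] at h3
    exact h3

end Pool.Agent.LT
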