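import Mathlib
import Pool.Agent.Lib.MP_f58a57_nt.LK.K008

namespace Pool.Agent.LT.La2_
end Pool.Agent.LT.La2_

section

/-!
# MP_f58a57_nt, large transcendence degree, part C (row lt-C-B9)

Real analysis: the parameters of C.4.
-/

open Complex Matrix MeasureTheory

noncomputable section

namespace Pool.Agent.LT

variable {c : ℕ}

theorem params (c : ℕ) {ε K : ℝ} (hε : 0 < ε) (hε' : ε ≤ 1 / 20) (hK : 1 ≤ K) : ∃ T0 : ℕ, 2 ≤ T0 ∧ ∀ T : ℕ, T0 ≤ T → ∀ j : ℕ, 1 ≤ j →
    (j : ℝ) ≤ (T : ℝ) ^ ((c : ℝ) + 1 - 4 * ε) → ∀ k k' : ℝ, k' = max (2 * K * j) ((T : ℝ) ^ (1 / 2 + ε)) → k = (T : ℝ) ^ ε * k' →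
      ((T : ℝ) ^ (1 / 2 + ε) ≤ k' ∧ k' ≤ (T : ℝ) ^ ((c : ℝ) + 1 - ε)) ∧ ((T : ℝ) ^ (1 / 2 + ε) ≤ k ∧ k ≤ (T : ℝ) ^ ((c : ℝ) + 1 - ε)) ∧
        K * j ≤ k ∧ K * j ≤ k' ∧ Real.exp (-(k ^ 2 / K)) ≤ Real.exp (-((T : ℝ) ^ ε * k' ^ 2)) ∧
          Real.exp (K * (1 + (j : ℝ) ^ 2) - k' ^ 2 / K) < 1 ∧ 0 ≤ (T : ℝ) ^ (6 * ε) * ((j : ℝ) ^ 2 + T) ∧
            (Real.exp (-((T : ℝ) ^ ε * k ^ 2)))⁻¹ ≤ Real.exp ((T : ℝ) ^ (6 * ε) * ((j : ℝ) ^ 2 + T)) := by
  have hten : Filter.Tendsto (fun n : ℕ => ((n : ℝ)) ^ ε) Filter.atTop Filter.atTop :=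
    (tendsto_rpow_atTop hε).comp tendsto_natCast_atTop_atTop
  obtain ⟨N, hN⟩ := Filter.eventually_atTop.1 (hten.eventually_ge_atTop (4 * K ^ 2))
  refine ⟨max N 2, le_max_right _ _, fun T hT j hj hjT k k' hk' hk => ?_⟩
  have hTN : N ≤ T := le_trans (le_max_left _ _) hT
  have hT2 : 2 ≤ T := le_trans (le_max_right _ _) hT
  have hP : 4 * K ^ 2 ≤ (T : ℝ) ^ ε := hN T hTN
  have ht1 : (1 : ℝ) ≤ T := by exact_mod_cast (by omega : 1 ≤ T)
  have ht0 : (0 : ℝ) < T := by linarith
  set t : ℝ := (T : ℝ) with ht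
  have hK0 : 0 < K := by linarith
  have hK2 : K ≤ K ^ 2 := by nlinarith
  have hj1 : (1 : ℝ) ≤ j := by exact_mod_cast hj
  set P : ℝ := t ^ ε with hPdef
  have hP1 : 1 ≤ P := by nlinarith
  have hP0 : 0 < P := by linarith
  have hPK : K ≤ P := by nlinarith
  have hP2K : 2 * K ≤ P := by nlinarith
  have hc0 : (0 : ℝ) ≤ c := Nat.cast_nonneg c
  -- powers of `P`
  have hP2 : t ^ (2 * ε) = P ^ 2 := by
    rw [hPdef, ← Real.rpow_natCast, ← Real.rpow_mul ht0.le]; congr 1; push_cast; ring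
  have hP3 : t ^ (3 * ε) = P ^ 3 := by
    rw [hPdef, ← Real.rpow_natCast, ← Real.rpow_mul ht0.le]; congr 1; push_cast; ring
  have hP6 : t ^ (6 * ε) = P ^ 6 := by
    rw [hPdef, ← Real.rpow_natCast, ← Real.rpow_mul ht0.le]; congr 1; push_cast; ring
  have hPP2 : P ≤ P ^ 2 := by nlinarith
  have hPP3 : P ^ 2 ≤ P ^ 3 := by
    have := mul_le_mul_of_nonneg_right hP1 (sq_nonneg P)
    nlinarith
  set S : ℝ := t ^ (1 / 2 + ε) with hS
  have hS0 : 0 < S := Real.rpow_pos_of_pos ht0 _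
  set Q : ℝ := t ^ ((c : ℝ) + 1 - 4 * ε) with hQ
  have hQ0 : 0 < Q := Real.rpow_pos_of_pos ht0 _
  have hR : t ^ ((c : ℝ) + 1 - ε) = Q * P ^ 3 := by
    rw [hQ, ← hP3, ← Real.rpow_add ht0]; congr 1; ring
  have hk'0 : 0 < k' := by rw [hk']; exact lt_of_lt_of_le hS0 (le_max_right _ _)
  have hSk' : S ≤ k' := by rw [hk']; exact le_max_right _ _
  have hjk' : 2 * K * j ≤ k' := by rw [hk']; exact le_max_left _ _
  -- upper bound for `k`
  have hPS : P * S ≤ t ^ ((c : ℝ) + 1 - ε) := by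
    rw [hPdef, hS, ← Real.rpow_add ht0]
    apply Real.rpow_le_rpow_of_exponent_le ht1
    linarith
  have hkR : k ≤ t ^ ((c : ℝ) + 1 - ε) := by
    rw [hk, hk']
    rcases le_total (2 * K * (j : ℝ)) S with h | h
    · rw [max_eq_right h]; exact hPS
    · rw [max_eq_left h, hR]
      have h1 : 2 * K * (j : ℝ) ≤ P * Q := mul_le_mul hP2K hjT (by linarith) hP0.le
      have h2 : P * (2 * K * (j : ℝ)) ≤ P * (P * Q) := mul_le_mul_of_nonneg_left h1 hP0.le
      have h3 : P ^ 2 * Q ≤ P ^ 3 * Q := mul_le_mul_of_nonneg_right hPP3 hQ0.le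
      nlinarith
  have hk'k : k' ≤ k := by rw [hk]; nlinarith
  have hKj : K * j ≤ k' := by nlinarith
  refine ⟨⟨hSk', hk'k.trans hkR⟩, ⟨hSk'.trans hk'k, hkR⟩, hKj.trans hk'k, hKj, ?_, ?_, ?_, ?_⟩
  · rw [Real.exp_le_exp, neg_le_neg_iff, hk, le_div_iff₀ hK0]
    have h1 : (P * k' ^ 2) * K ≤ (P * k' ^ 2) * P := mul_le_mul_of_nonneg_left hPK (by positivity)
    nlinarith
  · rw [Real.exp_lt_one_iff, sub_neg, lt_div_iff₀ hK0]
    have h1 : (2 * K * (j : ℝ)) ^ 2 ≤ k' ^ 2 := pow_le_pow_left₀ (by positivity) hjk' 2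
    have h2 : (1 : ℝ) ≤ (j : ℝ) ^ 2 := by nlinarith
    have h3 : 0 < K ^ 2 * (j : ℝ) ^ 2 := by positivity
    have h4 : K ^ 2 * 1 ≤ K ^ 2 * (j : ℝ) ^ 2 := mul_le_mul_of_nonneg_left h2 (by positivity)
    nlinarith
  · positivity
  · rw [← Real.exp_neg, neg_neg, Real.exp_le_exp, hP6, hk]
    have hS2 : S ^ 2 = P ^ 2 * t := by
      rw [hS, ← hP2, ← Real.rpow_natCast, ← Real.rpow_mul ht0.le]
      conv_rhs => rw [show t ^ (2 * ε) * t = t ^ (2 * ε) * t ^ (1 : ℝ) by rw [Real.rpow_one]]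
      rw [← Real.rpow_add ht0]; congr 1; push_cast; ring
    have hk'2 : k' ^ 2 ≤ P ^ 3 * ((j : ℝ) ^ 2 + t) := by
      rw [hk']
      rcases le_total (2 * K * (j : ℝ)) S with h | h
      · rw [max_eq_right h, hS2]
        have h1 : P ^ 2 * t ≤ P ^ 3 * t := mul_le_mul_of_nonneg_right hPP3 ht0.le
        have h2 : 0 ≤ P ^ 3 * (j : ℝ) ^ 2 := by positivity
        nlinarith
      · rw [max_eq_left h]
        have h1 : 4 * K ^ 2 ≤ P ^ 3 := hP.trans (hPP2.trans hPP3)
        have h2 : 4 * K ^ 2 * (j : ℝ) ^ 2 ≤ P ^ 3 * (j : ℝ) ^ 2 := mul_le_mul_of_nonneg_right h1 (sq_nonneg _)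
        have h3 : 0 ≤ P ^ 3 * t := by positivity
        nlinarith
    have h5 : P ^ 3 * k' ^ 2 ≤ P ^ 3 * (P ^ 3 * ((j : ℝ) ^ 2 + t)) := mul_le_mul_of_nonneg_left hk'2 (by positivity)
    nlinarith

end Pool.Agent.LT
end

end

section

/-!
# MP_f58a57_nt, large transcendence degree, part C (row lt-C-La1)

Linear algebra: choose the columns e_(j-1), e_(j-2), ..., e_0 successively, e_l in S l of norm 1 orthogonal to the previous ones.
-/

open Complex Matrix MeasureTheory

noncomputable section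

namespace Pool.Agent.LT

variable {c : ℕ}

namespace La1_

/-- `star v ⬝ᵥ v` is the real number `nsq v` -/
theorem star_dot_self {j : ℕ} (v : Fin j → ℂ) : star v ⬝ᵥ v = ((∑ i, ‖v i‖ ^ 2 : ℝ) : ℂ) := by
  simp only [dotProduct, Pi.star_apply, RCLike.star_def, Complex.conj_mul', Complex.ofReal_sum, Complex.ofReal_pow]

/-- one step: a vector of norm one in `S`, orthogonal to the given family -/
theorem step {j t : ℕ} (S : Submodule ℂ (Fin j → ℂ)) (h : t < Module.finrank ℂ S) (e : Fin t → (Fin j → ℂ)) :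
    ∃ v ∈ S, star v ⬝ᵥ v = 1 ∧ ∀ a, star (e a) ⬝ᵥ v = 0 := by
  let f : S →ₗ[ℂ] (Fin t → ℂ) :=
    { toFun := fun v a => star (e a) ⬝ᵥ (v : Fin j → ℂ)
      map_add' := by
        intro x y
        funext a
        simp [dotProduct_add]
      map_smul' := by
        intro r x
        funext a
        simp [dotProduct_smul] }
  have hf : LinearMap.ker f ≠ ⊥ := by
    apply LinearMap.ker_ne_bot_of_finrank_lt
    rw [Module.finrank_fin_fun]
    exact h
  obtain ⟨v, hv, hv0⟩ := (Submodule.ne_bot_iff _).1 hf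
  have hfv : ∀ a, star (e a) ⬝ᵥ (v : Fin j → ℂ) = 0 := fun a => congrFun (LinearMap.mem_ker.1 hv) a
  have hvne : (v : Fin j → ℂ) ≠ 0 := fun h0 => hv0 (Subtype.ext h0)
  obtain ⟨i0, hi0⟩ := Function.ne_iff.1 hvne
  have hpos : 0 < ∑ i, ‖(v : Fin j → ℂ) i‖ ^ 2 := by
    apply Finset.sum_pos'
    · intro i _
      positivity
    · exact ⟨i0, Finset.mem_univ _, by
        have : 0 < ‖(v : Fin j → ℂ) i0‖ := norm_pos_iff.2 (by simpa using hi0)
        positivity⟩
  set r : ℝ := ∑ i, ‖(v : Fin j → ℂ) i‖ ^ 2 with hr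
  refine ⟨(((Real.sqrt r)⁻¹ : ℝ) : ℂ) • (v : Fin j → ℂ), S.smul_mem _ v.2, ?_, ?_⟩
  · have e1 : star ((((Real.sqrt r)⁻¹ : ℝ) : ℂ) • (v : Fin j → ℂ)) = (((Real.sqrt r)⁻¹ : ℝ) : ℂ) • star (v : Fin j → ℂ) := by
      rw [star_smul]
      congr 1
      exact Complex.conj_ofReal _
    rw [e1, smul_dotProduct, dotProduct_smul, star_dot_self, ← hr, smul_eq_mul, smul_eq_mul, ← Complex.ofReal_mul, ← Complex.ofReal_mul]
    have : (Real.sqrt r)⁻¹ * ((Real.sqrt r)⁻¹ * r) = 1 := by
      have hs : Real.sqrt r * Real.sqrt r = r := Real.mul_self_sqrt hpos.le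
      have hs0 : Real.sqrt r ≠ 0 := (Real.sqrt_pos.2 hpos).ne'
      rw [← mul_assoc, ← mul_inv, hs, inv_mul_cancel₀ hpos.ne']
    rw [this, Complex.ofReal_one]
  · intro a
    rw [dotProduct_smul, hfv a, smul_zero]

/-- the induction -/
theorem ind {j : ℕ} (S : Fin j → Submodule ℂ (Fin j → ℂ)) (h : ∀ l : Fin j, j ≤ Module.finrank ℂ (S l) + l) (t : ℕ) (ht : t ≤ j) :
    ∃ e : Fin j → (Fin j → ℂ), (∀ l : Fin j, j ≤ l + t → e l ∈ S l) ∧
      ∀ l l' : Fin j, j ≤ l + t → j ≤ l' + t → star (e l) ⬝ᵥ e l' = if l = l' then 1 else 0 := by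
  induction t with
  | zero =>
    refine ⟨0, fun l hl => ?_, fun l _ hl => ?_⟩
    · exact absurd hl (by have := l.2; omega)
    · exact absurd hl (by have := l.2; omega)
  | succ t ih =>
    obtain ⟨e, he1, he2⟩ := ih (by omega)
    set l0 : Fin j := ⟨j - (t + 1), by omega⟩ with hl0
    have hfin : t < Module.finrank ℂ (S l0) := by
      have := h l0
      simp only [hl0] at this ⊢
      omega
    obtain ⟨v, hvS, hv1, hv2⟩ := step (S l0) hfin (fun a : Fin t => e ⟨j - t + a, by have := a.2; omega⟩)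
    have hv3 : ∀ l : Fin j, j ≤ l + t → star (e l) ⬝ᵥ v = 0 := by
      intro l hl
      have hl2 := l.2
      have h3 := hv2 ⟨(l : ℕ) - (j - t), by omega⟩
      have h4 : (⟨j - t + ((l : ℕ) - (j - t)), by omega⟩ : Fin j) = l := by
        apply Fin.ext
        show j - t + ((l : ℕ) - (j - t)) = l
        omega
      simp only [h4] at h3
      exact h3
    have hv4 : ∀ l : Fin j, j ≤ l + t → star v ⬝ᵥ e l = 0 := by
      intro l hl
      have h5 : star (star (e l) ⬝ᵥ v) = star v ⬝ᵥ e l := by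
        rw [Matrix.star_dotProduct, star_star]
      rw [← h5, hv3 l hl, star_zero]
    have hne : ∀ l : Fin j, j ≤ l + t → l ≠ l0 := by
      intro l hl hll
      rw [hll] at hl
      simp only [hl0] at hl
      omega
    have hcase : ∀ l : Fin j, j ≤ l + (t + 1) → l = l0 ∨ j ≤ l + t := by
      intro l hl
      by_cases h1 : j ≤ l + t
      · exact Or.inr h1
      · left
        apply Fin.ext
        simp only [hl0]
        omega
    refine ⟨Function.update e l0 v, fun l hl => ?_, fun l l' hl hl' => ?_⟩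
    · rcases hcase l hl with rfl | h1
      · rw [Function.update_self]
        exact hvS
      · rw [Function.update_of_ne (hne l h1)]
        exact he1 l h1
    · rcases hcase l hl with h1 | h1
      · rcases hcase l' hl' with h2 | h2
        · rw [h1, h2, Function.update_self, if_pos rfl]
          exact hv1
        · rw [h1, Function.update_self, Function.update_of_ne (hne l' h2), if_neg (hne l' h2).symm]
          exact hv4 l' h2
      · rcases hcase l' hl' with h2 | h2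
        · rw [h2, Function.update_self, Function.update_of_ne (hne l h1), if_neg (hne l h1)]
          exact hv3 l h1
        · rw [Function.update_of_ne (hne l h1), Function.update_of_ne (hne l' h2)]
          exact he2 l l' h1 h2

end La1_

theorem exists_unitary_cols {j : ℕ} (S : Fin j → Submodule ℂ (Fin j → ℂ)) (h : ∀ l : Fin j, j ≤ Module.finrank ℂ (S l) + l) :
    ∃ E : Matrix (Fin j) (Fin j) ℂ, E ∈ Matrix.unitaryGroup (Fin j) ℂ ∧ ∀ l, (fun i => E i l) ∈ S l := by
  obtain ⟨e, he1, he2⟩ := La1_.ind S h j le_rfl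
  refine ⟨Matrix.of (fun i l => e l i), ?_, fun l => ?_⟩
  · rw [Matrix.mem_unitaryGroup_iff']
    ext l l'
    have h1 := he2 l l' (by omega) (by omega)
    rw [Matrix.mul_apply, Matrix.one_apply, ← h1]
    simp only [dotProduct, Matrix.star_apply, Matrix.of_apply, Pi.star_apply]
  · exact he1 l (by omega)

end Pool.Agent.LT
end

end

section

/-!
# MP_f58a57_nt, large transcendence degree, part C (row lt-C-La2)

Linear algebra: at least j eigenvalues of B* B are > s^2 (otherwise X := span of the eigenvectors with eigenvalue <= s^2 has codimension < j and norm(B q) <= s norm(q) on X); V := j orthonormal eigenvectors with eigenvalue lam_i > s^2, U := diag(1/lam) V* B*; the entries of U are at most lam_i^(-1) norm(B v_i) = lam_i^(-1/2).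
-/

open Complex Matrix MeasureTheory

noncomputable section

namespace Pool.Agent.LT

variable {c : ℕ}

namespace La2_

theorem star_dot_self {ι : Type} [Fintype ι] (w : ι → ℂ) :
    star w ⬝ᵥ w = ((∑ a, ‖w a‖ ^ 2 : ℝ) : ℂ) := by
  rw [dotProduct, Complex.ofReal_sum]
  refine Finset.sum_congr rfl fun a _ => ?_
  rw [Pi.star_apply, Complex.star_def, Complex.conj_mul', Complex.ofReal_pow]

theorem star_dot_mulVec {ι κ : Type} [Fintype ι] [Fintype κ] (B : Matrix ι κ ℂ) (x y : κ → ℂ) :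
    star (B *ᵥ x) ⬝ᵥ (B *ᵥ y) = star x ⬝ᵥ ((Bᴴ * B) *ᵥ y) := by
  rw [star_mulVec, ← dotProduct_mulVec, mulVec_mulVec]

/-- spectral data -/
theorem spec {ι κ : Type} [Fintype ι] [Fintype κ] [DecidableEq κ] (B : Matrix ι κ ℂ) :
    ∃ (lam : κ → ℝ) (v : κ → κ → ℂ), LinearIndependent ℂ v ∧
      (∀ k l, star (v k) ⬝ᵥ v l = if k = l then 1 else 0) ∧
      ∀ k, (Bᴴ * B) *ᵥ v k = (lam k : ℂ) • v k := by
  have hA : (Bᴴ * B).IsHermitian := isHermitian_conjTranspose_mul_self B
  refine ⟨hA.eigenvalues, fun k => WithLp.ofLp (hA.eigenvectorBasis k), ?_, ?_, ?_⟩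
  · have h1 := hA.eigenvectorBasis.toBasis.linearIndependent
    have h2 := h1.map' (WithLp.linearEquiv 2 ℂ (κ → ℂ)).toLinearMap
      (LinearEquiv.ker _)
    have h3 : (fun k => WithLp.ofLp (hA.eigenvectorBasis k)) =
        ((WithLp.linearEquiv 2 ℂ (κ → ℂ)).toLinearMap ∘ ⇑hA.eigenvectorBasis.toBasis) := by
      funext k
      simp
    rw [h3]
    exact h2
  · intro k l
    have h1 := orthonormal_iff_ite.mp hA.eigenvectorBasis.orthonormal k l
    rw [EuclideanSpace.inner_eq_star_dotProduct] at h1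
    rw [dotProduct_comm]
    exact h1
  · intro k
    exact hA.mulVec_eigenvectorBasis k

end La2_

open La2_ in
theorem exists_UV {ι κ : Type} [Fintype ι] [Fintype κ] (B : Matrix ι κ ℂ) {s : ℝ} (hs : 0 < s) (j : ℕ)
    (h : ∀ X : Submodule ℂ (κ → ℂ), Fintype.card κ < Module.finrank ℂ X + j →
      ∃ q ∈ X, s * Real.sqrt (∑ b, ‖q b‖ ^ 2) < Real.sqrt (∑ a, ‖(B *ᵥ q) a‖ ^ 2)) :
    ∃ (U : Matrix (Fin j) ι ℂ) (V : Matrix κ (Fin j) ℂ), (∀ i a, ‖U i a‖ ≤ s⁻¹) ∧ (∀ b i, ‖V b i‖ ≤ 1) ∧ U * B * V = 1 := by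
  classical
  obtain ⟨lam, v, hli, hon, heig⟩ := spec B
  let I : Finset κ := Finset.univ.filter fun k => s ^ 2 < lam k
  have hcard : j ≤ I.card := by
    by_contra hlt
    rw [not_le] at hlt
    let w : {k : κ // k ∉ I} → κ → ℂ := fun k => v k.1
    have hw : LinearIndependent ℂ w := hli.comp _ Subtype.val_injective
    have hfr : Module.finrank ℂ (Submodule.span ℂ (Set.range w)) = Fintype.card κ - I.card := by
      rw [finrank_span_eq_card hw, Fintype.card_subtype_compl]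
      simp
    have hle : I.card ≤ Fintype.card κ := Finset.card_le_univ I
    obtain ⟨q, hq, hlt2⟩ := h (Submodule.span ℂ (Set.range w)) (by rw [hfr]; omega)
    obtain ⟨c, rfl⟩ := (Submodule.mem_span_range_iff_exists_fun ℂ).mp hq
    have e1 : star (∑ k, c k • w k) ⬝ᵥ (∑ k, c k • w k) = ((∑ k, ‖c k‖ ^ 2 : ℝ) : ℂ) := by
      rw [star_sum, sum_dotProduct, Complex.ofReal_sum]
      refine Finset.sum_congr rfl fun k _ => ?_
      rw [dotProduct_sum, Finset.sum_eq_single k]
      · rw [star_smul, smul_dotProduct, dotProduct_smul, hon, if_pos rfl, smul_eq_mul, smul_eq_mul,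
          mul_one, Complex.star_def, Complex.conj_mul', Complex.ofReal_pow]
      · intro l _ hl
        rw [star_smul, smul_dotProduct, dotProduct_smul, hon, if_neg (fun h => hl (Subtype.ext h).symm),
          smul_zero, smul_zero]
      · intro h
        exact absurd (Finset.mem_univ _) h
    have e2 : star (B *ᵥ ∑ k, c k • w k) ⬝ᵥ (B *ᵥ ∑ k, c k • w k) =
        ((∑ k, lam k.1 * ‖c k‖ ^ 2 : ℝ) : ℂ) := by
      have e3 : (Bᴴ * B) *ᵥ (∑ k, c k • w k) = ∑ k, (c k * lam k.1) • w k := by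
        rw [mulVec_sum]
        refine Finset.sum_congr rfl fun k _ => ?_
        rw [mulVec_smul, heig k.1, smul_smul]
      rw [star_dot_mulVec, e3, star_sum, sum_dotProduct, Complex.ofReal_sum]
      refine Finset.sum_congr rfl fun k _ => ?_
      rw [dotProduct_sum, Finset.sum_eq_single k]
      · rw [star_smul, smul_dotProduct, dotProduct_smul, hon, if_pos rfl, smul_eq_mul, smul_eq_mul,
          mul_one, Complex.star_def, ← mul_assoc, Complex.conj_mul', Complex.ofReal_mul,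
          Complex.ofReal_pow, mul_comm]
      · intro l _ hl
        rw [star_smul, smul_dotProduct, dotProduct_smul, hon, if_neg (fun h => hl (Subtype.ext h).symm),
          smul_zero, smul_zero]
      · intro h
        exact absurd (Finset.mem_univ _) h
    rw [star_dot_self] at e1 e2
    have f1 := Complex.ofReal_injective e1
    have f2 := Complex.ofReal_injective e2
    rw [f1, f2] at hlt2
    have hle3 : ∑ k, lam k.1 * ‖c k‖ ^ 2 ≤ s ^ 2 * ∑ k, ‖c k‖ ^ 2 := by
      rw [Finset.mul_sum]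
      refine Finset.sum_le_sum fun k _ => ?_
      have hk : ¬ s ^ 2 < lam k.1 := fun hc => k.2 (Finset.mem_filter.mpr ⟨Finset.mem_univ _, hc⟩)
      exact mul_le_mul_of_nonneg_right (not_lt.mp hk) (sq_nonneg _)
    have h4 : Real.sqrt (∑ k, lam k.1 * ‖c k‖ ^ 2) ≤ s * Real.sqrt (∑ k, ‖c k‖ ^ 2) := by
      refine (Real.sqrt_le_sqrt hle3).trans (le_of_eq ?_)
      rw [Real.sqrt_mul (sq_nonneg s), Real.sqrt_sq hs.le]
    exact absurd hlt2 (not_lt.mpr h4)
  obtain ⟨e⟩ : Nonempty (Fin j ↪ I) := by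
    rw [Function.Embedding.nonempty_iff_card_le, Fintype.card_fin, Fintype.card_coe]
    exact hcard
  have hlam : ∀ i, s ^ 2 < lam (e i).1 := fun i => (Finset.mem_filter.mp (e i).2).2
  have hpos : ∀ i, 0 < lam (e i).1 := fun i => lt_of_le_of_lt (sq_nonneg s) (hlam i)
  have hBv : ∀ i, ∑ a, ‖(B *ᵥ v (e i).1) a‖ ^ 2 = lam (e i).1 := by
    intro i
    have h1 := star_dot_mulVec B (v (e i).1) (v (e i).1)
    rw [heig, dotProduct_smul, hon, if_pos rfl, star_dot_self, smul_eq_mul, mul_one] at h1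
    exact Complex.ofReal_injective h1
  have hv1 : ∀ k, ∑ b, ‖v k b‖ ^ 2 = 1 := by
    intro k
    have h1 := hon k k
    rw [if_pos rfl, star_dot_self] at h1
    exact_mod_cast h1
  refine ⟨Matrix.of fun i a => ((lam (e i).1 : ℂ))⁻¹ * star ((B *ᵥ v (e i).1) a),
    Matrix.of fun b i => v (e i).1 b, ?_, ?_, ?_⟩
  · intro i a
    rw [Matrix.of_apply, norm_mul, norm_inv, Complex.norm_real, Real.norm_of_nonneg (hpos i).le,
      norm_star]
    have h1 : ‖(B *ᵥ v (e i).1) a‖ ^ 2 ≤ lam (e i).1 := by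
      rw [← hBv i]
      exact Finset.single_le_sum (f := fun a => ‖(B *ᵥ v (e i).1) a‖ ^ 2)
        (fun a _ => sq_nonneg _) (Finset.mem_univ a)
    have h2 : ‖(B *ᵥ v (e i).1) a‖ ≤ Real.sqrt (lam (e i).1) := Real.le_sqrt_of_sq_le h1
    have h3 : s ≤ Real.sqrt (lam (e i).1) := Real.le_sqrt_of_sq_le (hlam i).le
    have h4 : 0 < Real.sqrt (lam (e i).1) := Real.sqrt_pos.mpr (hpos i)
    calc (lam (e i).1)⁻¹ * ‖(B *ᵥ v (e i).1) a‖
        ≤ (lam (e i).1)⁻¹ * Real.sqrt (lam (e i).1) :=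
          mul_le_mul_of_nonneg_left h2 (inv_nonneg.mpr (hpos i).le)
      _ = (Real.sqrt (lam (e i).1))⁻¹ := by
          have h5 : lam (e i).1 = Real.sqrt (lam (e i).1) * Real.sqrt (lam (e i).1) :=
            (Real.mul_self_sqrt (hpos i).le).symm
          rw [eq_comm, inv_eq_iff_eq_inv, mul_inv, inv_inv]
          field_simp
          rw [sq]
          exact h5.symm
      _ ≤ s⁻¹ := inv_anti₀ hs h3
  · intro b i
    rw [Matrix.of_apply]
    have h1 : ‖v (e i).1 b‖ ^ 2 ≤ 1 := by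
      rw [← hv1 (e i).1]
      exact Finset.single_le_sum (f := fun b => ‖v (e i).1 b‖ ^ 2)
        (fun a _ => sq_nonneg _) (Finset.mem_univ b)
    nlinarith [norm_nonneg (v (e i).1 b)]
  · ext i i'
    have h1 : ((Matrix.of fun i a => ((lam (e i).1 : ℂ))⁻¹ * star ((B *ᵥ v (e i).1) a)) * B *
        (Matrix.of fun b i => v (e i).1 b)) i i' =
        ((lam (e i).1 : ℂ))⁻¹ * (star (B *ᵥ v (e i).1) ⬝ᵥ (B *ᵥ v (e i').1)) := by
      rw [Matrix.mul_assoc, Matrix.mul_apply, dotProduct, Finset.mul_sum]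
      refine Finset.sum_congr rfl fun a _ => ?_
      rw [Matrix.of_apply, Pi.star_apply, mul_assoc]
      rfl
    rw [h1, star_dot_mulVec, heig, dotProduct_smul, hon, Matrix.one_apply]
    by_cases hii : i = i'
    · subst hii
      rw [if_pos rfl, if_pos rfl, smul_eq_mul, mul_one]
      exact inv_mul_cancel₀ (Complex.ofReal_ne_zero.mpr (hpos i).ne')
    · rw [if_neg hii, if_neg, smul_zero, mul_zero]
      intro hc
      exact hii (e.injective (Subtype.ext hc))

end Pool.Agent.LT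
end

end

section

/-!
# MP_f58a57_nt, large transcendence degree, version 2: the number `p` of a quartic field
-/

open Module Complex

noncomputable section

namespace Pool.Agent.LT.QGf

/-- the composite of `K` and `K̄` as an intermediate field over `K` -/
theorem sup_eq (K : Subfield ℂ) [FiniteDimensional ℚ K] (α : K) (hα : IntermediateField.adjoin ℚ {α} = ⊤) :
    (IntermediateField.adjoin K {(starRingEnd ℂ) (α : ℂ)} : IntermediateField K ℂ).toSubfield = K ⊔ K.map (starRingEnd ℂ) := by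
  apply le_antisymm
  · show Subfield.closure (Set.range (algebraMap K ℂ) ∪ {(starRingEnd ℂ) (α : ℂ)}) ≤ _
    rw [Subfield.closure_le]
    rintro x (⟨y, rfl⟩ | hx)
    · exact (le_sup_left : K ≤ K ⊔ K.map (starRingEnd ℂ)) y.2
    · rw [Set.mem_singleton_iff] at hx
      rw [hx]
      exact (le_sup_right : K.map (starRingEnd ℂ) ≤ K ⊔ K.map (starRingEnd ℂ)) ⟨α, α.2, rfl⟩
  · apply sup_le
    · intro x hx
      exact (IntermediateField.adjoin K {(starRingEnd ℂ) (α : ℂ)}).algebraMap_mem ⟨x, hx⟩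
    · rintro _ ⟨x, hx, rfl⟩
      set T : IntermediateField K ℂ := IntermediateField.adjoin K {(starRingEnd ℂ) (α : ℂ)} with hT
      -- the elements of `K` whose conjugate is in `T`
      let S : Subfield K := (T.toSubfield.comap (starRingEnd ℂ)).comap K.subtype
      have hS : ∀ q : ℚ, algebraMap ℚ K q ∈ S := by
        intro q
        show (starRingEnd ℂ) (((algebraMap ℚ K q : K)) : ℂ) ∈ T
        have h1 : ((algebraMap ℚ K q : K) : ℂ) = (q : ℂ) := by simp
        rw [h1, map_ratCast]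
        exact SubfieldClass.ratCast_mem T q
      have h2 : IntermediateField.adjoin ℚ {α} ≤ S.toIntermediateField hS := by
        rw [IntermediateField.adjoin_le_iff]
        rintro y hy
        rw [Set.mem_singleton_iff] at hy
        rw [hy]
        show (starRingEnd ℂ) (α : ℂ) ∈ T
        exact IntermediateField.mem_adjoin_simple_self K _
      rw [hα] at h2
      exact h2 (IntermediateField.mem_top (x := (⟨x, hx⟩ : K)))

/-- the degree of the composite -/
theorem finrank_sup (K : Subfield ℂ) [FiniteDimensional ℚ K] (α : K) (hα : IntermediateField.adjoin ℚ {α} = ⊤) :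
    finrank ℚ ↥(K ⊔ K.map (starRingEnd ℂ)) =
      finrank ℚ K * finrank K (IntermediateField.adjoin K {(starRingEnd ℂ) (α : ℂ)} : IntermediateField K ℂ) := by
  rw [← sup_eq K α hα, Module.finrank_mul_finrank]
  rfl

/-- the generator is not real -/
theorem conj_ne (K : Subfield ℂ) [FiniteDimensional ℚ K] (hnr : ∃ x ∈ K, x.im ≠ 0) (α : K) (hα : IntermediateField.adjoin ℚ {α} = ⊤) :
    (starRingEnd ℂ) (α : ℂ) ≠ (α : ℂ) := by
  intro h
  obtain ⟨x, hx, hxi⟩ := hnr
  apply hxi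
  let S : Subfield K := RingHom.eqLocusField ((starRingEnd ℂ).comp K.subtype) K.subtype
  have hS : ∀ q : ℚ, algebraMap ℚ K q ∈ S := by
    intro q
    show (starRingEnd ℂ) (((algebraMap ℚ K q : K)) : ℂ) = ((algebraMap ℚ K q : K) : ℂ)
    have h1 : ((algebraMap ℚ K q : K) : ℂ) = (q : ℂ) := by simp
    rw [h1, map_ratCast]
  have h2 : IntermediateField.adjoin ℚ {α} ≤ S.toIntermediateField hS := by
    rw [IntermediateField.adjoin_le_iff]
    rintro y hy
    rw [Set.mem_singleton_iff] at hy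
    rw [hy]
    exact h
  rw [hα] at h2
  have h3 : (starRingEnd ℂ) x = x := h2 (IntermediateField.mem_top (x := (⟨x, hx⟩ : K)))
  exact Complex.conj_eq_iff_im.mp h3

/-- the degree of `K K̄` over `K` is at most `3` -/
theorem deg_le (K : Subfield ℂ) [FiniteDimensional ℚ K] (hnr : ∃ x ∈ K, x.im ≠ 0) (α : K) (hα : IntermediateField.adjoin ℚ {α} = ⊤) :
    finrank K (IntermediateField.adjoin K {(starRingEnd ℂ) (α : ℂ)} : IntermediateField K ℂ) + 1 ≤ finrank ℚ K := by
  have hαi : IsIntegral ℚ α := Algebra.IsIntegral.isIntegral α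
  set m : Polynomial ℚ := minpoly ℚ α with hm
  have hm0 : m ≠ 0 := minpoly.ne_zero hαi
  have hdm : m.natDegree = finrank ℚ K := by
    rw [hm, ← IntermediateField.adjoin.finrank hαi, hα]
    exact IntermediateField.finrank_top'
  set f : Polynomial K := m.map (algebraMap ℚ K) with hf
  have hfr : f.IsRoot α := by
    rw [hf, Polynomial.IsRoot.def, Polynomial.eval_map, ← Polynomial.aeval_def]
    exact minpoly.aeval ℚ α
  obtain ⟨g, hg⟩ := Polynomial.dvd_iff_isRoot.mpr hfr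
  have hf0 : f ≠ 0 := by
    rw [hf]
    exact (Polynomial.map_ne_zero_iff (algebraMap ℚ K).injective).mpr hm0
  have hg0 : g ≠ 0 := by
    rintro rfl
    rw [mul_zero] at hg
    exact hf0 hg
  have hdg : g.natDegree + 1 = finrank ℚ K := by
    have h1 : f.natDegree = finrank ℚ K := by rw [hf, Polynomial.natDegree_map, hdm]
    rw [hg, Polynomial.natDegree_mul (Polynomial.X_sub_C_ne_zero α) hg0, Polynomial.natDegree_X_sub_C] at h1
    omega
  have hconj : Polynomial.aeval ((starRingEnd ℂ) (α : ℂ)) f = 0 := by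
    have h1 : Polynomial.aeval (α : ℂ) m = 0 := by
      have h2 := minpoly.aeval ℚ α
      have h3 := congrArg (fun t : K => (t : ℂ)) h2
      have h4 := Polynomial.aeval_algebraMap_apply ℂ α m
      rw [show (algebraMap K ℂ) α = (α : ℂ) from rfl] at h4
      rw [h4, hm, h2, map_zero]
    have h5 : Polynomial.aeval ((starRingEnd ℂ) (α : ℂ)) m = 0 := by
      have h6 := congrArg (starRingEnd ℂ) h1
      rw [Polynomial.aeval_def, Polynomial.hom_eval₂, map_zero] at h6
      rw [Polynomial.aeval_def, ← h6]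
      congr 1
      exact Subsingleton.elim _ _
    rw [hf, Polynomial.aeval_map_algebraMap]
    exact h5
  have hgz : Polynomial.aeval ((starRingEnd ℂ) (α : ℂ)) g = 0 := by
    rw [hg, map_mul] at hconj
    rcases mul_eq_zero.mp hconj with h | h
    · exfalso
      rw [map_sub, Polynomial.aeval_X, Polynomial.aeval_C, sub_eq_zero] at h
      exact conj_ne K hnr α hα h
    · exact h
  have hint : IsIntegral K ((starRingEnd ℂ) (α : ℂ)) := by
    have h1 : IsAlgebraic K ((starRingEnd ℂ) (α : ℂ)) := ⟨g, hg0, hgz⟩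
    exact h1.isIntegral
  rw [IntermediateField.adjoin.finrank hint, ← hdg]
  have h7 := Polynomial.natDegree_le_of_dvd (minpoly.dvd K _ hgz) hg0
  omega

/-- EXISTENCE of `p` -/
theorem exists_p (K : Subfield ℂ) (hK : finrank ℚ K = 4) (hnr : ∃ x ∈ K, x.im ≠ 0) : ∃ p, p ≤ 2 ∧ QG K p := by
  have hfK : FiniteDimensional ℚ K := FiniteDimensional.of_finrank_pos (by omega)
  obtain ⟨α, hα⟩ := Field.exists_primitive_element ℚ K
  have h1 := deg_le K hnr α hα
  have h2 := finrank_sup K α hα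
  rw [hK] at h1 h2
  have h3 : 0 < finrank K (IntermediateField.adjoin K {(starRingEnd ℂ) (α : ℂ)} : IntermediateField K ℂ) := by
    have hint : IsIntegral K ((starRingEnd ℂ) (α : ℂ)) := by
      have h5 : Polynomial.aeval (α : ℂ) (minpoly ℚ α) = 0 := by
        have h4 := Polynomial.aeval_algebraMap_apply ℂ α (minpoly ℚ α)
        rw [show (algebraMap K ℂ) α = (α : ℂ) from rfl] at h4
        rw [h4, minpoly.aeval, map_zero]
      have h6 : IsIntegral ℚ (α : ℂ) := by
        have h7 : IsAlgebraic ℚ (α : ℂ) := ⟨_, minpoly.ne_zero (Algebra.IsIntegral.isIntegral α), h5⟩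
        exact h7.isIntegral
      have h8 : IsIntegral ℚ ((starRingEnd ℂ) (α : ℂ)) := by
        have h9 : Polynomial.aeval ((starRingEnd ℂ) (α : ℂ)) (minpoly ℚ (α : ℂ)) = 0 := by
          have h6 := congrArg (starRingEnd ℂ) (minpoly.aeval ℚ (α : ℂ))
          rw [Polynomial.aeval_def, Polynomial.hom_eval₂, map_zero] at h6
          rw [Polynomial.aeval_def, ← h6]
          congr 1
          exact Subsingleton.elim _ _
        have h10 : IsAlgebraic ℚ ((starRingEnd ℂ) (α : ℂ)) := ⟨_, minpoly.ne_zero h6, h9⟩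
        exact h10.isIntegral
      exact h8.tower_top
    rw [IntermediateField.adjoin.finrank hint]
    exact minpoly.natDegree_pos hint
  obtain ⟨p, hp⟩ : ∃ p, finrank K (IntermediateField.adjoin K {(starRingEnd ℂ) (α : ℂ)} : IntermediateField K ℂ) = p + 1 := ⟨_, (Nat.sub_add_cancel h3).symm⟩
  rw [hp] at h1 h2
  exact ⟨p, by omega, hK, hnr, h2⟩

theorem p_unique {K : Subfield ℂ} {p q : ℕ} (hp : QG K p) (hq : QG K q) : p = q := by
  have h1 := hp.rel
  rw [hq.rel] at h1
  omega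

theorem p_le {K : Subfield ℂ} {p : ℕ} (hp : QG K p) : p ≤ 2 := by
  obtain ⟨q, hq, h⟩ := exists_p K hp.dim hp.nr
  rw [p_unique hp h]
  exact hq

end Pool.Agent.LT.QGf
end

end
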