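import Mathlib
import Pool.Agent.Lib.MP_f58a57_nt.LK.K017

section

/-!
# E3b: the analytic properties of the kernel
-/

open Complex Matrix

noncomputable section

namespace Pool.Agent.LT.KE

variable {c : ℕ} (D : Dat c)

theorem Ph_diff : Differentiable ℂ (fun q : (Fin (2 * c + 1) → ℂ) × (Fin (2 * c + 1) → ℂ) => Ph D q.1 q.2) := by
  have hu : ∀ j, Differentiable ℂ (fun q : (Fin (2 * c + 1) → ℂ) × (Fin (2 * c + 1) → ℂ) => q.1 j) :=
    fun j => by fun_prop
  have hs : ∀ j, Differentiable ℂ (fun q : (Fin (2 * c + 1) → ℂ) × (Fin (2 * c + 1) → ℂ) => q.2 j) :=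
    fun j => by fun_prop
  have hx : ∀ j, Differentiable ℂ (fun q : (Fin (2 * c + 1) → ℂ) × (Fin (2 * c + 1) → ℂ) => xa D q.1 q.2 j) := by
    intro j
    simp only [xa, Pi.add_apply, Matrix.mulVec, dotProduct]
    exact (Differentiable.fun_sum fun k _ => (hs k).const_mul _).add
      (Differentiable.fun_sum fun k _ => (hu k).const_mul _)
  have he : Differentiable ℂ (fun q : (Fin (2 * c + 1) → ℂ) × (Fin (2 * c + 1) → ℂ) => q.1 ⬝ᵥ (D.L *ᵥ q.2)) := by
    simp only [Matrix.mulVec, dotProduct]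
    exact Differentiable.fun_sum fun j _ => (hu j).mul (Differentiable.fun_sum fun k _ => (hs k).const_mul _)
  unfold Ph
  refine Differentiable.mul ?_ ?_
  · unfold ee
    exact (he.const_mul _).cexp
  · have h : ∀ S : Finset (Fin (2 * c + 1)), Differentiable ℂ
        (fun q : (Fin (2 * c + 1) → ℂ) × (Fin (2 * c + 1) → ℂ) => ∏ j ∈ S, th1 (D.z j) (xa D q.1 q.2 j)) := by
      intro S
      induction S using Finset.induction_on with
      | empty => simp
      | insert a S ha ih =>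
        simp only [Finset.prod_insert ha]
        exact ((th1_diff (D.z a) (D.im a)).comp (hx a)).mul ih
    exact h Finset.univ

theorem Ph_one : Ph D 0 0 = 1 := by
  have hx : ∀ j, xa D 0 0 j = 0 := by
    intro j
    simp [xa]
  unfold Ph
  rw [Finset.prod_eq_one (fun j _ => by rw [hx j]; exact th1_zero _ (D.im j))]
  simp [ee]

private lemma E3b_ee (w : ℂ) : ‖ee w‖ ≤ Real.exp (2 * Real.pi * ‖w‖) := by
  unfold ee
  rw [Complex.norm_exp]
  apply Real.exp_le_exp.mpr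
  refine (Complex.re_le_norm _).trans ?_
  rw [norm_mul, norm_mul, norm_mul]
  simp [abs_of_pos Real.pi_pos]

private lemma E3b_le {n : ℕ} (u : Fin n → ℂ) (j : Fin n) : ‖u j‖ ≤ Real.sqrt (nsq u) := by
  apply Real.le_sqrt_of_sq_le
  unfold nsq
  exact Finset.single_le_sum (f := fun j => ‖u j‖ ^ 2) (fun _ _ => by positivity) (Finset.mem_univ j)

/-- PROOF: `‖ee w‖ ≤ exp (2π‖w‖)`; `|u ⬝ᵥ L s| ≤ C (nsq u + nsq s)`; `‖xa j‖² ≤ C (nsq u + nsq s)`; `th1_growth` for every `j` (finite sum of the constants).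
Entrywise: `‖v j‖² ≤ nsq v`, `‖v j‖ ‖w k‖ ≤ nsq v + nsq w`. -/
theorem Ph_grow : ∃ A : ℝ, ∀ u s, ‖Ph D u s‖ ≤ Real.exp (A * (1 + nsq u + nsq s)) := by
  choose C hC0 hC using fun j => th1_growth (D.z j) (D.im j)
  set Λ : ℝ := (∑ j, ∑ k, ‖D.L j k‖) + ∑ j, ∑ k, ‖D.Lt j k‖ with hΛ
  have hΛL : 0 ≤ ∑ j, ∑ k, ‖D.L j k‖ := Finset.sum_nonneg fun _ _ => Finset.sum_nonneg fun _ _ => norm_nonneg _
  have hΛT : 0 ≤ ∑ j, ∑ k, ‖D.Lt j k‖ := Finset.sum_nonneg fun _ _ => Finset.sum_nonneg fun _ _ => norm_nonneg _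
  have hΛ0 : 0 ≤ Λ := add_nonneg hΛL hΛT
  refine ⟨2 * Real.pi * Λ + ∑ j, C j * (1 + Λ ^ 2), fun u s => ?_⟩
  have hnu : 0 ≤ nsq u := Finset.sum_nonneg fun _ _ => by positivity
  have hns : 0 ≤ nsq s := Finset.sum_nonneg fun _ _ => by positivity
  set r : ℝ := Real.sqrt (nsq u + nsq s) with hr
  have hr0 : 0 ≤ r := Real.sqrt_nonneg _
  have hr2 : r ^ 2 = nsq u + nsq s := Real.sq_sqrt (add_nonneg hnu hns)
  have hur : ∀ j, ‖u j‖ ≤ r := fun j => (E3b_le u j).trans (Real.sqrt_le_sqrt (by linarith))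
  have hsr : ∀ j, ‖s j‖ ≤ r := fun j => (E3b_le s j).trans (Real.sqrt_le_sqrt (by linarith))
  have hmul : ∀ (P : Matrix (Fin (2 * c + 1)) (Fin (2 * c + 1)) ℂ) (v : Fin (2 * c + 1) → ℂ), (∀ j, ‖v j‖ ≤ r) →
      ∀ j, ‖(P *ᵥ v) j‖ ≤ (∑ k, ‖P j k‖) * r := by
    intro P v hv j
    rw [Matrix.mulVec, dotProduct, Finset.sum_mul]
    refine (norm_sum_le _ _).trans (Finset.sum_le_sum fun k _ => ?_)
    rw [norm_mul]
    exact mul_le_mul_of_nonneg_left (hv k) (norm_nonneg _)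
  have hsingle : ∀ (P : Matrix (Fin (2 * c + 1)) (Fin (2 * c + 1)) ℂ) (j : Fin (2 * c + 1)),
      ∑ k, ‖P j k‖ ≤ ∑ j, ∑ k, ‖P j k‖ := fun P j =>
    Finset.single_le_sum (f := fun j => ∑ k, ‖P j k‖) (fun _ _ => Finset.sum_nonneg fun _ _ => norm_nonneg _)
      (Finset.mem_univ j)
  have hxa : ∀ j, ‖xa D u s j‖ ^ 2 ≤ Λ ^ 2 * (nsq u + nsq s) := by
    intro j
    have h1 : ‖xa D u s j‖ ≤ Λ * r := by
      unfold xa
      rw [Pi.add_apply]
      refine (norm_add_le _ _).trans ?_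
      have h2 := hmul D.L s hsr j
      have h3 := hmul D.Lt u hur j
      have h4 := mul_le_mul_of_nonneg_right (hsingle D.L j) hr0
      have h5 := mul_le_mul_of_nonneg_right (hsingle D.Lt j) hr0
      rw [hΛ, add_mul]
      linarith
    calc ‖xa D u s j‖ ^ 2 ≤ (Λ * r) ^ 2 := pow_le_pow_left₀ (norm_nonneg _) h1 2
      _ = Λ ^ 2 * (nsq u + nsq s) := by rw [mul_pow, hr2]
  have hdot : ‖u ⬝ᵥ (D.L *ᵥ s)‖ ≤ Λ * (nsq u + nsq s) := by
    rw [dotProduct]
    refine (norm_sum_le _ _).trans ?_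
    calc ∑ j, ‖u j * (D.L *ᵥ s) j‖ ≤ ∑ j, (∑ k, ‖D.L j k‖) * r ^ 2 := by
          refine Finset.sum_le_sum fun j _ => ?_
          rw [norm_mul]
          have h2 := hmul D.L s hsr j
          have h3 := hur j
          calc ‖u j‖ * ‖(D.L *ᵥ s) j‖ ≤ r * ((∑ k, ‖D.L j k‖) * r) :=
                mul_le_mul h3 h2 (norm_nonneg _) hr0
            _ = (∑ k, ‖D.L j k‖) * r ^ 2 := by ring
      _ = (∑ j, ∑ k, ‖D.L j k‖) * r ^ 2 := by rw [← Finset.sum_mul]
      _ ≤ Λ * r ^ 2 := by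
          apply mul_le_mul_of_nonneg_right _ (sq_nonneg r)
          rw [hΛ]; linarith
      _ = Λ * (nsq u + nsq s) := by rw [hr2]
  have hprod : ‖∏ j, th1 (D.z j) (xa D u s j)‖ ≤ Real.exp ((∑ j, C j * (1 + Λ ^ 2)) * (1 + nsq u + nsq s)) := by
    rw [norm_prod, Finset.sum_mul, Real.exp_sum]
    refine Finset.prod_le_prod (fun _ _ => norm_nonneg _) fun j _ => ?_
    refine (hC j _).trans (Real.exp_le_exp.mpr ?_)
    rw [mul_assoc]
    refine mul_le_mul_of_nonneg_left ?_ (hC0 j)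
    have := hxa j
    nlinarith [sq_nonneg Λ]
  unfold Ph
  rw [norm_mul]
  have h1 : ‖ee (u ⬝ᵥ (D.L *ᵥ s))‖ ≤ Real.exp (2 * Real.pi * Λ * (1 + nsq u + nsq s)) := by
    refine (E3b_ee _).trans (Real.exp_le_exp.mpr ?_)
    rw [mul_assoc (2 * Real.pi)]
    refine mul_le_mul_of_nonneg_left (hdot.trans ?_) (by positivity)
    exact mul_le_mul_of_nonneg_left (by linarith) hΛ0
  calc ‖ee (u ⬝ᵥ (D.L *ᵥ s))‖ * ‖∏ j, th1 (D.z j) (xa D u s j)‖
      ≤ Real.exp (2 * Real.pi * Λ * (1 + nsq u + nsq s)) *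
        Real.exp ((∑ j, C j * (1 + Λ ^ 2)) * (1 + nsq u + nsq s)) :=
        mul_le_mul h1 hprod (norm_nonneg _) (Real.exp_pos _).le
    _ = Real.exp ((2 * Real.pi * Λ + ∑ j, C j * (1 + Λ ^ 2)) * (1 + nsq u + nsq s)) := by
        rw [← Real.exp_add, add_mul]

end Pool.Agent.LT.KE
end

end

section

/-!
# MP_f58a57_nt, large transcendence degree, part C (row lt-C-U1)

The functions u -> d_s^w hk(kappa)(u, 0) belong to Q_kappa (differentiate the identities of hk_mode in s; the factors do not depend on s).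
-/

open Complex Matrix MeasureTheory

noncomputable section

namespace Pool.Agent.LT

variable {c : ℕ}

/-- constants come out of the derivatives -/
private theorem U1_pdl_const_mul {n : ℕ} (K : ℂ) {F : (Fin n → ℂ) → ℂ} (hF : Differentiable ℂ F) (w : List (Fin n)) (u : Fin n → ℂ) :
    pdl w (fun s => K * F s) u = K * pdl w F u := by
  have h := pdlC_sum (n := n) ({()} : Finset Unit) (fun _ => K) (fun _ => F) (fun _ _ => hF) w u
  simpa only [Finset.sum_singleton] using h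

private theorem U1_comp {n : ℕ} (H : (Fin n → ℂ) → (Fin n → ℂ) → ℂ) {w : List (Fin n)}
    (h : Differentiable ℂ (fun q : (Fin n → ℂ) × (Fin n → ℂ) => pdl w (H q.1) q.2)) :
    Differentiable ℂ (fun u : Fin n → ℂ => pdl w (H u) 0) := by
  generalize hG : (fun q : (Fin n → ℂ) × (Fin n → ℂ) => pdl w (H q.1) q.2) = G at h
  have h2 : Differentiable ℂ (fun u : Fin n → ℂ => ((u, (0 : Fin n → ℂ)) : (Fin n → ℂ) × (Fin n → ℂ))) :=
    differentiable_id.prodMk (differentiable_const _)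
  have h3 : (fun u : Fin n → ℂ => pdl w (H u) 0) = G ∘ (fun u : Fin n → ℂ => (u, (0 : Fin n → ℂ))) := by
    rw [← hG]; rfl
  rw [h3]
  exact h.comp h2

theorem hk_mem_QQ {D : Dat c} {Φ : VN c → VN c → ℂ} {C C' : (Fin (2 * c + 1) → ℤ) → ℂ} (hK : Ker D Φ C C') {μ : ℂ} (hμ : Mu D C μ) (κ : ℤ)
    (w : List (Fin (2 * c + 1))) : (fun u => pdl w (hk D Φ μ κ u) 0) ∈ QQ D C μ κ := by
  have hd : ∀ u, Differentiable ℂ (hk D Φ μ κ u) := fun u => (hk_secs hK hμ κ u).diff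
  rw [mem_QQ]
  refine ⟨⟨?_, fun a u => ?_, fun k hk0 u => ?_⟩, fun ξ u => ?_⟩
  · exact U1_comp (hk D Φ μ κ) (pdl_param (hk D Φ μ κ) (hk_diff hK μ κ) w)
  · have h1 : hk D Φ μ κ (u + lat D.d a) = fun s => (C a * ee (-(lat D.d a ⬝ᵥ (D.Lt *ᵥ u)))) * hk D Φ μ κ u s := by
      funext s
      exact (hk_mode hK hμ κ s).sec.per a u
    show pdl w (hk D Φ μ κ (u + lat D.d a)) 0 = _ * pdl w (hk D Φ μ κ u) 0
    rw [h1, U1_pdl_const_mul _ (hd u)]
  · have h1 : hk D Φ μ κ (u + k) = hk D Φ μ κ u := by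
      funext s
      exact (hk_mode hK hμ κ s).sec.ker k hk0 u
    show pdl w (hk D Φ μ κ (u + k)) 0 = pdl w (hk D Φ μ κ u) 0
    rw [h1]
  · have h1 : hk D Φ μ κ (u + ξ • D.gc) =
        fun s => (ee (-(D.nu * ξ ^ 2 / 2) - ξ * (D.v0 ⬝ᵥ u) - (μ - κ / D.d) * ξ)) * hk D Φ μ κ u s := by
      funext s
      exact (hk_mode hK hμ κ s).g ξ u
    show pdl w (hk D Φ μ κ (u + ξ • D.gc)) 0 = _ * pdl w (hk D Φ μ κ u) 0
    rw [h1, U1_pdl_const_mul _ (hd u)]

end Pool.Agent.LT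
end

end

section

/-!
# MP_f58a57_nt, large transcendence degree, part D analysis (row lt-DD7): the normal coordinates

`X : Matrix (Fin (c+1)) (Fin N) ℂ` with rows `x i`; `X` has a right inverse `E` (rows linearly independent). `u - E X u ∈ ker P` for all `u` by `hker`, and
`H k v = 0` for `k ∈ ker P` (`hk`, and `H v k = conj (H k v)`), so `H u v = H (E X u) (E X v) = ∑_{i,j} x_i(u) conj (x_j(v)) H (e_i) (e_j)`, `e_i` = `i`-th column of `E`.
`h j i := H e_i e_j` is hermitian and positive definite: `star a ⬝ᵥ (h *ᵥ a) = H (∑ a_i e_i) (∑ a_i e_i)`, and `P (∑ a_i e_i) = 0` iff all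
`a_i = x_i (∑ a_l e_l) = 0`. `r` from `chol`, `ζ u = r *ᵥ (X *ᵥ u)`, `sec z = E *ᵥ (r⁻¹ *ᵥ z)`; `det r ≠ 0` (triangular, `Matrix.det_of_lowerTriangular`).
-/

open Complex Matrix ComplexOrder

noncomputable section

namespace Pool.Agent.LT

variable {c : ℕ}

theorem exists_zeta {P : Matrix (Fin (2 * c + 1)) (Fin (2 * c + 1)) ℂ} {x : Fin (c + 1) → Fin (2 * c + 1) → ℂ}
    (hker : ∀ u, P *ᵥ u = 0 ↔ ∀ i, x i ⬝ᵥ u = 0) (li : LinearIndependent ℂ x) (H : VN c → VN c → ℂ)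
    (hadd : ∀ u u' v, H (u + u') v = H u v + H u' v) (hsmul : ∀ (t : ℂ) u v, H (t • u) v = t * H u v)
    (hconj : ∀ u v, (starRingEnd ℂ) (H u v) = H v u) (hk : ∀ u, P *ᵥ u = 0 → ∀ v, H u v = 0)
    (hpos : ∀ u, P *ᵥ u ≠ 0 → 0 < (H u u).re) :
    ∃ (ζ : VN c →ₗ[ℂ] Vc c) (sec : Vc c →ₗ[ℂ] VN c) (r : Fin (c + 1) → Fin (c + 1) → ℂ), Zt P x H ζ sec r := by
  classical
  let X : VN c →ₗ[ℂ] Vc c := (Matrix.of x).mulVecLin
  have hX : ∀ u i, X u i = x i ⬝ᵥ u := fun u i => rfl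
  have hsurj : LinearMap.range X = ⊤ := by
    apply Submodule.eq_top_of_finrank_eq
    have h1 : (Matrix.of x).rank = Fintype.card (Fin (c + 1)) := LinearIndependent.rank_matrix (M := Matrix.of x) li
    have h2 : Module.finrank ℂ (LinearMap.range X) = (Matrix.of x).rank := rfl
    rw [h2, h1]
    simp
  obtain ⟨s0, hs0⟩ := X.exists_rightInverse_of_surjective hsurj
  have hs0' : ∀ z, X (s0 z) = z := fun z => by
    have := congrArg (fun f => f z) hs0
    simpa using this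
  -- `H` only depends on `X`
  have hH1 : ∀ u v, H u v = H (s0 (X u)) v := by
    intro u v
    have hk0 : P *ᵥ (u - s0 (X u)) = 0 := by
      rw [hker]
      intro i
      have h1 : x i ⬝ᵥ (u - s0 (X u)) = X u i - X (s0 (X u)) i := by
        rw [hX, hX, dotProduct_sub]
      rw [h1, hs0', sub_self]
    have h2 : H u v = H (u - s0 (X u)) v + H (s0 (X u)) v := by
      rw [← hadd, sub_add_cancel]
    rw [h2, hk _ hk0, zero_add]
  have hH : ∀ u v, H u v = H (s0 (X u)) (s0 (X v)) := by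
    intro u v
    rw [hH1 u v, ← hconj v (s0 (X u)), hH1 v (s0 (X u)), hconj]
  -- the Gram matrix
  let e : Fin (c + 1) → VN c := fun i => s0 (Pi.single i 1)
  let h : Matrix (Fin (c + 1)) (Fin (c + 1)) ℂ := Matrix.of fun j i => H (e i) (e j)
  have hsum : ∀ (ι : Type) (s : Finset ι) (f : ι → VN c) (v : VN c), H (∑ i ∈ s, f i) v = ∑ i ∈ s, H (f i) v := by
    intro ι s f v
    induction s using Finset.induction_on with
    | empty =>
      have := hsmul 0 0 v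
      simpa using this
    | insert a s ha ih => rw [Finset.sum_insert ha, Finset.sum_insert ha, hadd, ih]
  have hs0sum : ∀ z : Vc c, s0 z = ∑ i, z i • e i := by
    intro z
    have h1 : z = ∑ i, z i • (Pi.single i (1 : ℂ) : Vc c) := by
      funext j
      simp [Finset.sum_apply, Pi.single_apply]
    conv_lhs => rw [h1]
    rw [map_sum]
    refine Finset.sum_congr rfl fun i _ => ?_
    rw [map_smul]
  have hleft : ∀ (z : Vc c) (v : VN c), H (s0 z) v = ∑ i, z i * H (e i) v := by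
    intro z v
    rw [hs0sum, hsum]
    refine Finset.sum_congr rfl fun i _ => ?_
    rw [hsmul]
  have hright : ∀ (w : Vc c) (u : VN c), H u (s0 w) = ∑ j, (starRingEnd ℂ) (w j) * H u (e j) := by
    intro w u
    rw [← hconj (s0 w) u, hleft, map_sum]
    refine Finset.sum_congr rfl fun i _ => ?_
    rw [map_mul, hconj]
  have hform : ∀ z w : Vc c, H (s0 z) (s0 w) = star w ⬝ᵥ (h *ᵥ z) := by
    intro z w
    rw [hright]
    unfold dotProduct
    refine Finset.sum_congr rfl fun j _ => ?_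
    rw [hleft]
    have h1 : (h *ᵥ z) j = ∑ i, z i * H (e i) (e j) := by
      unfold Matrix.mulVec dotProduct
      refine Finset.sum_congr rfl fun i _ => ?_
      rw [mul_comm]
      rfl
    rw [h1]
    rfl
  have hpd : h.PosDef := by
    rw [Matrix.posDef_iff_dotProduct_mulVec]
    refine ⟨?_, ?_⟩
    · ext i j
      rw [Matrix.conjTranspose_apply]
      exact hconj (e i) (e j)
    · intro z hz
      rw [← hform]
      have h1 : P *ᵥ (s0 z) ≠ 0 := by
        intro h0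
        apply hz
        rw [hker] at h0
        funext i
        have h2 := h0 i
        rw [← hX, hs0'] at h2
        exact h2
      have h2 := hpos _ h1
      have h3 : (H (s0 z) (s0 z)).im = 0 := by
        have := hconj (s0 z) (s0 z)
        exact Complex.conj_eq_iff_im.1 this
      rw [Complex.lt_def]
      exact ⟨h2, h3.symm⟩
  obtain ⟨r, hr1, hr2, hr3⟩ := chol (c + 1) h hpd
  have hdet : IsUnit r.det := by
    have h1 : IsUnit h.det := (Matrix.isUnit_iff_isUnit_det _).1 hpd.isUnit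
    rw [← hr3, Matrix.det_mul] at h1
    exact (IsUnit.mul_iff.1 h1).2
  refine ⟨r.mulVecLin ∘ₗ X, s0 ∘ₗ r⁻¹.mulVecLin, r, ?_, ?_, ?_, ?_, hr1, hr2⟩
  · intro z
    have h1 : (r.mulVecLin ∘ₗ X) ((s0 ∘ₗ r⁻¹.mulVecLin) z) = r *ᵥ (X (s0 (r⁻¹ *ᵥ z))) := rfl
    rw [h1, hs0', Matrix.mulVec_mulVec, Matrix.mul_nonsing_inv _ hdet, Matrix.one_mulVec]
  · intro u
    have h1 : (r.mulVecLin ∘ₗ X) u = r *ᵥ (X u) := rfl
    rw [h1, hker]
    constructor
    · intro h2 i
      have h3 : X u = 0 := by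
        have h4 : r⁻¹ *ᵥ (r *ᵥ (X u)) = 0 := by rw [h2, Matrix.mulVec_zero]
        rwa [Matrix.mulVec_mulVec, Matrix.nonsing_inv_mul _ hdet, Matrix.one_mulVec] at h4
      rw [← hX, h3]
      rfl
    · intro h2
      have h3 : X u = 0 := by
        funext i
        rw [hX]
        exact h2 i
      rw [h3, Matrix.mulVec_zero]
  · intro u v
    have h1 : herm ((r.mulVecLin ∘ₗ X) u) ((r.mulVecLin ∘ₗ X) v) = star (r *ᵥ (X v)) ⬝ᵥ (r *ᵥ (X u)) := by
      unfold herm dotProduct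
      refine Finset.sum_congr rfl fun i _ => ?_
      rw [mul_comm]
      rfl
    rw [h1, hH, hform, ← hr3, Matrix.star_mulVec, ← Matrix.mulVec_mulVec, Matrix.dotProduct_mulVec]
  · intro i u
    rfl

end Pool.Agent.LT
end

end
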