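import Mathlib
import Pool.Agent.Lib.MP_f58a57_nt.LK.K012
import Pool.Agent.Lib.MP_f58a57_nt.LK.K020

namespace Pool.Agent.LT.Q2_
end Pool.Agent.LT.Q2_
namespace Pool.Agent.LT.Q3_
end Pool.Agent.LT.Q3_

section

/-!
# MP_f58a57_nt, large transcendence degree, part C (row lt-C-Q1)

C.2: the shift Q_kappa -> Q_(kappa - i m d). k^T L p' = (Lt k)^T p' = 0 for Lt k = 0; a^T(Lt p + L p') = a^T nn integral.
-/

open Complex Matrix MeasureTheory

noncomputable section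

namespace Pool.Agent.LT

variable {c : ℕ}

theorem QQ_shift {D : Dat c} {Φ : VN c → VN c → ℂ} {p p' : VN c} {nn : Fin (2 * c + 1) → ℤ} {C5 : ℂ} {m : ℤ} (hJ : Jump D Φ p p' nn C5 m)
    {C : (Fin (2 * c + 1) → ℤ) → ℂ} {μ : ℂ} (κ i : ℤ) {h : VN c → ℂ} (hh : h ∈ QQ D C μ κ) :
    (fun u => h (u + (i : ℂ) • p) * ee (-(i * (u ⬝ᵥ (D.L *ᵥ p'))))) ∈ QQ D C μ (κ - i * m * D.d) := by
  have hm : Mode D C μ κ h := hh
  have hd0 : (D.d : ℂ) ≠ 0 := by exact_mod_cast D.hd.ne'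
  refine ⟨⟨?_, ?_, ?_⟩, ?_⟩
  · -- differentiability
    have h1 : Differentiable ℂ (fun u : VN c => h (u + (i : ℂ) • p)) :=
      hm.sec.diff.comp (differentiable_id.add (differentiable_const _))
    have h2 : Differentiable ℂ (fun u : VN c => (u ⬝ᵥ (D.L *ᵥ p'))) := by
      unfold dotProduct
      fun_prop
    have h3 : Differentiable ℂ (fun u : VN c => ee (-(i * (u ⬝ᵥ (D.L *ᵥ p'))))) := by
      unfold ee
      fun_prop
    exact h1.mul h3
  · intro a u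
    have e1 : u + lat D.d a + (i : ℂ) • p = (u + (i : ℂ) • p) + lat D.d a := by
      rw [add_right_comm]
    have e2 : lat D.d a ⬝ᵥ (D.Lt *ᵥ p) + lat D.d a ⬝ᵥ (D.L *ᵥ p') = ((∑ j, (D.d : ℤ) * a j * nn j : ℤ) : ℂ) := by
      rw [← dotProduct_add, add_comm (D.Lt *ᵥ p), hJ.eq]
      simp [dotProduct, lat]
    show h (u + lat D.d a + (i : ℂ) • p) * ee (-(i * ((u + lat D.d a) ⬝ᵥ (D.L *ᵥ p')))) =
      C a * ee (-(lat D.d a ⬝ᵥ (D.Lt *ᵥ u))) * (h (u + (i : ℂ) • p) * ee (-(i * (u ⬝ᵥ (D.L *ᵥ p')))))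
    rw [e1, hm.sec.per a]
    have e3 : ee (-(lat D.d a ⬝ᵥ (D.Lt *ᵥ (u + (i : ℂ) • p)))) * ee (-(i * ((u + lat D.d a) ⬝ᵥ (D.L *ᵥ p')))) =
        ee (-(lat D.d a ⬝ᵥ (D.Lt *ᵥ u))) * ee (-(i * (u ⬝ᵥ (D.L *ᵥ p')))) := by
      have e4 : -(lat D.d a ⬝ᵥ (D.Lt *ᵥ (u + (i : ℂ) • p))) + -(i * ((u + lat D.d a) ⬝ᵥ (D.L *ᵥ p'))) =
          -(lat D.d a ⬝ᵥ (D.Lt *ᵥ u)) + -(i * (u ⬝ᵥ (D.L *ᵥ p'))) + ((-(i * ∑ j, (D.d : ℤ) * a j * nn j) : ℤ) : ℂ) := by
        have e5 : ((-(i * ∑ j, (D.d : ℤ) * a j * nn j) : ℤ) : ℂ) =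
            -(i * (lat D.d a ⬝ᵥ (D.Lt *ᵥ p) + lat D.d a ⬝ᵥ (D.L *ᵥ p'))) := by
          rw [e2, Int.cast_neg, Int.cast_mul]
        rw [e5, Matrix.mulVec_add, Matrix.mulVec_smul, dotProduct_add, dotProduct_smul, add_dotProduct, smul_eq_mul]
        ring
      rw [← ee_add, e4, ee_add, ee_int, mul_one, ee_add]
    linear_combination (C a * h (u + (i : ℂ) • p)) * e3
  · intro k hk u
    have e1 : u + k + (i : ℂ) • p = (u + (i : ℂ) • p) + k := by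
      rw [add_right_comm]
    show h (u + k + (i : ℂ) • p) * ee (-(i * ((u + k) ⬝ᵥ (D.L *ᵥ p')))) = h (u + (i : ℂ) • p) * ee (-(i * (u ⬝ᵥ (D.L *ᵥ p'))))
    rw [e1, hm.sec.ker k hk, add_dotProduct, dot_L D k p', hk, dotProduct_zero, add_zero]
  · intro ξ u
    have e1 : u + ξ • D.gc + (i : ℂ) • p = (u + (i : ℂ) • p) + ξ • D.gc := by
      rw [add_right_comm]
    have e2 : D.gc ⬝ᵥ (D.Lt *ᵥ p) + D.gc ⬝ᵥ (D.L *ᵥ p') = (m : ℂ) := by
      rw [← dotProduct_add, add_comm (D.Lt *ᵥ p), hJ.eq, hJ.hm]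
      simp [dotProduct, Dat.gc]
    rw [gc_dot_Lt] at e2
    show h (u + ξ • D.gc + (i : ℂ) • p) * ee (-(i * ((u + ξ • D.gc) ⬝ᵥ (D.L *ᵥ p')))) =
      ee (-(D.nu * ξ ^ 2 / 2) - ξ * (D.v0 ⬝ᵥ u) - (μ - ((κ - i * m * D.d : ℤ) : ℂ) / D.d) * ξ) *
        (h (u + (i : ℂ) • p) * ee (-(i * (u ⬝ᵥ (D.L *ᵥ p')))))
    rw [e1, hm.g ξ]
    have e3 : ee (-(D.nu * ξ ^ 2 / 2) - ξ * (D.v0 ⬝ᵥ (u + (i : ℂ) • p)) - (μ - κ / D.d) * ξ) *
        ee (-(i * ((u + ξ • D.gc) ⬝ᵥ (D.L *ᵥ p')))) =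
        ee (-(D.nu * ξ ^ 2 / 2) - ξ * (D.v0 ⬝ᵥ u) - (μ - ((κ - i * m * D.d : ℤ) : ℂ) / D.d) * ξ) *
          ee (-(i * (u ⬝ᵥ (D.L *ᵥ p')))) := by
      rw [← ee_add, ← ee_add]
      congr 1
      have e6 : ((κ - i * m * D.d : ℤ) : ℂ) / D.d = κ / D.d - i * m := by
        push_cast
        field_simp
      rw [e6, dotProduct_add, dotProduct_smul, add_dotProduct, smul_dotProduct, smul_eq_mul, smul_eq_mul, ← e2]
      ring
    linear_combination (h (u + (i : ℂ) • p)) * e3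

end Pool.Agent.LT
end

end

section

/-!
# MP_f58a57_nt, large transcendence degree, part C (row lt-C-Q2)

C.2: for fixed kappa a function of Q_kappa which vanishes to high order at 0 is 0: S := max of |h| on the cube [0,d]^N of R^N; |h(u)| <= S exp(A(1+|u|^2)) (u = pt g b y + k; use Mode.g with xi = iy, then Sec.per); pdl_schwarz on t -> h(t b): S <= 2^(-T) exp(A(1+4 d^2 N)) S.
-/

open Complex Matrix MeasureTheory

noncomputable section

namespace Pool.Agent.LT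

variable {c : ℕ}

namespace Q2_

theorem nsq_nonneg {n : ℕ} (u : Fin n → ℂ) : 0 ≤ nsq u := Finset.sum_nonneg fun _ _ => by positivity

theorem norm_sq_le {n : ℕ} (u : Fin n → ℂ) : ‖u‖ ^ 2 ≤ nsq u := by
  have h : ‖u‖ ≤ Real.sqrt (nsq u) := by
    refine (pi_norm_le_iff_of_nonneg (Real.sqrt_nonneg _)).2 fun j => ?_
    refine Real.le_sqrt_of_sq_le ?_
    exact Finset.single_le_sum (f := fun i => ‖u i‖ ^ 2) (fun i _ => by positivity) (Finset.mem_univ j)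
  calc ‖u‖ ^ 2 ≤ Real.sqrt (nsq u) ^ 2 := pow_le_pow_left₀ (norm_nonneg _) h 2
    _ = nsq u := Real.sq_sqrt (nsq_nonneg u)

theorem norm_ee_le (z : ℂ) : ‖ee z‖ ≤ Real.exp (2 * Real.pi * ‖z‖) := by
  unfold ee
  rw [Complex.norm_exp]
  apply Real.exp_le_exp.2
  have h : (2 * Real.pi * I * z).re = -(2 * Real.pi * z.im) := by
    simp
  rw [h]
  have h2 := Complex.abs_im_le_norm z
  have h3 := neg_abs_le z.im
  have hp := Real.pi_pos
  nlinarith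

theorem dot_le {n : ℕ} (v w : Fin n → ℂ) {B : ℝ} (hw : ∀ j, ‖w j‖ ≤ B) : ‖v ⬝ᵥ w‖ ≤ (∑ j, ‖v j‖) * B := by
  unfold dotProduct
  refine (norm_sum_le _ _).trans ?_
  rw [Finset.sum_mul]
  refine Finset.sum_le_sum fun j _ => ?_
  rw [norm_mul]
  exact mul_le_mul_of_nonneg_left (hw j) (norm_nonneg _)

/-- the real vector as a complex vector -/
def rc {n : ℕ} (b : Fin n → ℝ) : Fin n → ℂ := fun j => (b j : ℂ)

/-- the translation in the direction of `i g` -/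
theorem step1 {D : Dat c} {C : (Fin (2 * c + 1) → ℤ) → ℂ} (μ : ℂ) (κ : ℤ) : ∃ A : ℝ, 0 ≤ A ∧ ∀ h, Mode D C μ κ h →
    ∀ (b : Fin (2 * c + 1) → ℝ) (y : ℝ), ‖h (pt D.g b y)‖ ≤ Real.exp (A * (1 + y ^ 2 + ‖b‖ ^ 2)) * ‖h (rc b)‖ := by
  have hp := Real.pi_pos
  set V : ℝ := ∑ j, ‖D.v0 j‖ with hV
  have hV0 : 0 ≤ V := Finset.sum_nonneg fun _ _ => norm_nonneg _
  set W : ℝ := ‖μ - κ / D.d‖ with hW
  have hW0 : 0 ≤ W := norm_nonneg _
  refine ⟨2 * Real.pi * (‖D.nu‖ + V + W), by positivity, fun h hh b y => ?_⟩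
  have e : pt D.g b y = rc b + (I * y) • D.gc := by
    funext j; simp [pt, rc, Dat.gc]
  rw [e, hh.g, norm_mul]
  refine mul_le_mul_of_nonneg_right ((norm_ee_le _).trans (Real.exp_le_exp.2 ?_)) (norm_nonneg _)
  have hdot : ‖D.v0 ⬝ᵥ rc b‖ ≤ V * ‖b‖ := dot_le _ _ fun j => by
    simp only [rc, Complex.norm_real]
    exact norm_le_pi_norm b j
  have hIy : ‖I * (y : ℂ)‖ = |y| := by simp
  have h1 : ‖-(D.nu * (I * y) ^ 2 / 2) - I * y * (D.v0 ⬝ᵥ rc b) - (μ - κ / D.d) * (I * y)‖ ≤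
      ‖D.nu‖ * y ^ 2 / 2 + |y| * (V * ‖b‖) + W * |y| := by
    refine (norm_sub_le _ _).trans (add_le_add ((norm_sub_le _ _).trans (add_le_add ?_ ?_)) ?_)
    · rw [norm_neg, norm_div, norm_mul, norm_pow, hIy, sq_abs]
      simp
    · rw [norm_mul, hIy]
      exact mul_le_mul_of_nonneg_left hdot (abs_nonneg _)
    · rw [norm_mul, hIy]
  have hb := norm_nonneg b
  have hy := abs_nonneg y
  have hn := norm_nonneg D.nu
  have h2 : |y| * ‖b‖ ≤ 1 + y ^ 2 + ‖b‖ ^ 2 := by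
    have := sq_nonneg (|y| - ‖b‖)
    have h3 := sq_abs y
    nlinarith
  have h3 : |y| ≤ 1 + y ^ 2 + ‖b‖ ^ 2 := by
    have := sq_nonneg (|y| - 1)
    have h4 := sq_abs y
    nlinarith [sq_nonneg ‖b‖]
  have h4 : y ^ 2 / 2 ≤ 1 + y ^ 2 + ‖b‖ ^ 2 := by nlinarith [sq_nonneg ‖b‖, sq_nonneg y]
  have h5 : ‖D.nu‖ * y ^ 2 / 2 + |y| * (V * ‖b‖) + W * |y| ≤ (‖D.nu‖ + V + W) * (1 + y ^ 2 + ‖b‖ ^ 2) := by
    have e1 := mul_le_mul_of_nonneg_left h4 hn
    have e2 := mul_le_mul_of_nonneg_left h2 hV0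
    have e3 := mul_le_mul_of_nonneg_left h3 hW0
    calc ‖D.nu‖ * y ^ 2 / 2 + |y| * (V * ‖b‖) + W * |y| = ‖D.nu‖ * (y ^ 2 / 2) + V * (|y| * ‖b‖) + W * |y| := by ring
      _ ≤ ‖D.nu‖ * (1 + y ^ 2 + ‖b‖ ^ 2) + V * (1 + y ^ 2 + ‖b‖ ^ 2) + W * (1 + y ^ 2 + ‖b‖ ^ 2) := by linarith
      _ = _ := by ring
  calc 2 * Real.pi * _ ≤ 2 * Real.pi * ((‖D.nu‖ + V + W) * (1 + y ^ 2 + ‖b‖ ^ 2)) :=
        mul_le_mul_of_nonneg_left (h1.trans h5) (by positivity)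
    _ = _ := by ring

/-- reduction to the cube -/
theorem step2 {D : Dat c} {C : (Fin (2 * c + 1) → ℤ) → ℂ} (hC : MulOK D.d D.z C) : ∃ A : ℝ, 0 ≤ A ∧ ∀ h, Sec D.d D.Lt C h →
    ∀ b : Fin (2 * c + 1) → ℝ, ∃ b' : Fin (2 * c + 1) → ℝ, (∀ j, 0 ≤ b' j ∧ b' j ≤ D.d) ∧
      ‖h (rc b)‖ ≤ Real.exp (A * (1 + ‖b‖ ^ 2)) * ‖h (rc b')‖ := by
  have hp := Real.pi_pos
  have hdp : (0 : ℝ) < D.d := by exact_mod_cast D.hd
  obtain ⟨l, hl⟩ := hC
  set A2 : ℝ := ∑ j, (Real.pi * (D.z j).im + |l j|) with hA2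
  have hz : ∀ j, 0 ≤ (D.z j).im := fun j => (D.im j).le
  have hA20 : 0 ≤ A2 := Finset.sum_nonneg fun j _ => by have := hz j; positivity
  set Ls : ℝ := ∑ i, ∑ j, ‖D.Lt i j‖ with hLs
  have hLs0 : 0 ≤ Ls := Finset.sum_nonneg fun _ _ => Finset.sum_nonneg fun _ _ => norm_nonneg _
  refine ⟨(A2 + 2 * Real.pi * (D.d * Ls)) * (2 + 2 * (D.d : ℝ) ^ 2), by positivity, fun h hh b => ?_⟩
  set a : Fin (2 * c + 1) → ℤ := fun j => ⌊b j / D.d⌋ with ha
  set b' : Fin (2 * c + 1) → ℝ := fun j => b j - D.d * a j with hb'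
  have hb1 : ∀ j, 0 ≤ b' j ∧ b' j ≤ D.d := by
    intro j
    have h1 : (a j : ℝ) ≤ b j / D.d := Int.floor_le _
    have h2 : b j / D.d < a j + 1 := Int.lt_floor_add_one _
    rw [le_div_iff₀ hdp] at h1
    rw [div_lt_iff₀ hdp] at h2
    constructor
    · simp only [hb']; linarith
    · simp only [hb']; linarith
  refine ⟨b', hb1, ?_⟩
  have e : rc b = rc b' + lat D.d a := by
    funext j; simp [rc, lat, hb']
  rw [e, hh.per, norm_mul, norm_mul, hl]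
  have hbn := norm_nonneg b
  set B : ℝ := ‖b‖ + D.d with hB
  have hB0 : 0 ≤ B := by positivity
  have hda : ∀ j, |(D.d : ℝ) * (a j : ℝ)| ≤ B := by
    intro j
    have h1 := hb1 j
    have h2 : (D.d : ℝ) * (a j : ℝ) = b j - b' j := by simp [hb']
    rw [h2]
    have h3 : |b j| ≤ ‖b‖ := norm_le_pi_norm b j
    have h4 := abs_le.1 h3
    exact abs_le.2 ⟨by linarith, by linarith⟩
  have hBB : B ^ 2 ≤ 2 * ‖b‖ ^ 2 + 2 * (D.d : ℝ) ^ 2 := by
    have := sq_nonneg (‖b‖ - D.d)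
    rw [hB]; nlinarith
  have hB1 : B ≤ 1 + 2 * ‖b‖ ^ 2 + 2 * (D.d : ℝ) ^ 2 := by
    have := sq_nonneg (B - 1)
    nlinarith [sq_nonneg B]
  have hX : 1 + 2 * ‖b‖ ^ 2 + 2 * (D.d : ℝ) ^ 2 ≤ (2 + 2 * (D.d : ℝ) ^ 2) * (1 + ‖b‖ ^ 2) := by
    have : 0 ≤ (D.d : ℝ) ^ 2 * ‖b‖ ^ 2 := by positivity
    nlinarith
  set X : ℝ := 1 + 2 * ‖b‖ ^ 2 + 2 * (D.d : ℝ) ^ 2 with hXd
  -- the multiplier
  have m1 : Real.pi * ∑ j, (D.z j).im * ((D.d : ℝ) * (a j : ℝ)) ^ 2 + ∑ j, l j * ((D.d : ℝ) * (a j : ℝ)) ≤ A2 * X := by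
    rw [Finset.mul_sum, ← Finset.sum_add_distrib, hA2, Finset.sum_mul]
    refine Finset.sum_le_sum fun j _ => ?_
    have t1 : ((D.d : ℝ) * (a j : ℝ)) ^ 2 ≤ X := by
      have h1 : ((D.d : ℝ) * (a j : ℝ)) ^ 2 ≤ B ^ 2 := by
        rw [← sq_abs ((D.d : ℝ) * (a j : ℝ))]; exact pow_le_pow_left₀ (abs_nonneg _) (hda j) 2
      rw [hXd]; linarith
    have t2 : l j * ((D.d : ℝ) * (a j : ℝ)) ≤ |l j| * X := by
      refine (le_abs_self _).trans ?_
      rw [abs_mul]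
      exact mul_le_mul_of_nonneg_left ((hda j).trans hB1) (abs_nonneg _)
    have t3 : Real.pi * ((D.z j).im * ((D.d : ℝ) * (a j : ℝ)) ^ 2) ≤ Real.pi * (D.z j).im * X := by
      rw [← mul_assoc]; exact mul_le_mul_of_nonneg_left t1 (mul_nonneg hp.le (hz j))
    rw [add_mul]; exact add_le_add t3 t2
  have m2 : ‖ee (-(lat D.d a ⬝ᵥ (D.Lt *ᵥ rc b')))‖ ≤ Real.exp (2 * Real.pi * (D.d * Ls) * X) := by
    refine (norm_ee_le _).trans (Real.exp_le_exp.2 ?_)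
    rw [norm_neg]
    have h1 : ‖lat D.d a ⬝ᵥ (D.Lt *ᵥ rc b')‖ ≤ (D.d * Ls) * X := by
      unfold dotProduct
      refine (norm_sum_le _ _).trans ?_
      have h2 : ∀ i ∈ Finset.univ, ‖lat D.d a i * (D.Lt *ᵥ rc b') i‖ ≤ X * (D.d * ∑ j, ‖D.Lt i j‖) := by
        intro i _
        rw [norm_mul]
        refine mul_le_mul ?_ ?_ (norm_nonneg _) (by rw [hXd]; positivity)
        · have : ‖lat D.d a i‖ = |(D.d : ℝ) * (a i : ℝ)| := by
            have : lat D.d a i = (((D.d : ℝ) * (a i : ℝ) : ℝ) : ℂ) := by simp [lat]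
            rw [this, Complex.norm_real, Real.norm_eq_abs]
          rw [this]; exact (hda i).trans hB1
        · have h3 : ‖D.Lt i ⬝ᵥ rc b'‖ ≤ (∑ j, ‖D.Lt i j‖) * D.d := dot_le _ _ fun j => by
            simp only [rc, Complex.norm_real, Real.norm_eq_abs, abs_of_nonneg (hb1 j).1]
            exact (hb1 j).2
          exact h3.trans (le_of_eq (mul_comm _ _))
      refine (Finset.sum_le_sum h2).trans (le_of_eq ?_)
      rw [← Finset.mul_sum, ← Finset.mul_sum, hLs]; ring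
    calc 2 * Real.pi * _ ≤ 2 * Real.pi * ((D.d * Ls) * X) := mul_le_mul_of_nonneg_left h1 (by positivity)
      _ = _ := by ring
  refine mul_le_mul_of_nonneg_right ?_ (norm_nonneg _)
  refine (mul_le_mul (Real.exp_le_exp.2 m1) m2 (norm_nonneg _) (Real.exp_pos _).le).trans ?_
  rw [← Real.exp_add]
  apply Real.exp_le_exp.2
  calc A2 * X + 2 * Real.pi * (D.d * Ls) * X = (A2 + 2 * Real.pi * (D.d * Ls)) * X := by ring
    _ ≤ (A2 + 2 * Real.pi * (D.d * Ls)) * ((2 + 2 * (D.d : ℝ) ^ 2) * (1 + ‖b‖ ^ 2)) :=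
        mul_le_mul_of_nonneg_left hX (by positivity)
    _ = _ := by ring

/-- the growth in terms of the maximum on the cube -/
theorem step3 {D : Dat c} {C : (Fin (2 * c + 1) → ℤ) → ℂ} (hC : MulOK D.d D.z C) (μ : ℂ) (κ : ℤ) : ∃ A : ℝ, 0 ≤ A ∧ ∀ h, Mode D C μ κ h →
    ∀ S : ℝ, (∀ b : Fin (2 * c + 1) → ℝ, (∀ j, 0 ≤ b j ∧ b j ≤ D.d) → ‖h (rc b)‖ ≤ S) →
      ∀ u, ‖h u‖ ≤ Real.exp (A * (1 + nsq u)) * S := by
  obtain ⟨b, Y, hd⟩ := exists_dec D D.Lt (Or.inl rfl)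
  obtain ⟨A1, hA1, h1⟩ := step1 (D := D) (C := C) μ κ
  obtain ⟨A2, hA2, h2⟩ := step2 hC
  obtain ⟨Cb, hCb0, hCb⟩ := (LinearMap.toContinuousLinearMap b).isBoundedLinearMap.bound
  obtain ⟨CY, hCY0, hCY⟩ := (LinearMap.toContinuousLinearMap Y).isBoundedLinearMap.bound
  refine ⟨(A1 + A2) * (1 + Cb ^ 2 + CY ^ 2), by positivity, fun h hh S hS u => ?_⟩
  have e1 : h u = h (pt D.g (b u) (Y u)) := by
    have := hh.sec.ker (u - pt D.g (b u) (Y u)) (hd.dec u) (pt D.g (b u) (Y u))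
    rw [add_sub_cancel] at this
    exact this
  obtain ⟨b', hb', h3⟩ := h2 h hh.sec (b u)
  have hb2 : ‖b u‖ ^ 2 ≤ Cb ^ 2 * nsq u := by
    have h4 : ‖b u‖ ≤ Cb * ‖u‖ := hCb u
    calc ‖b u‖ ^ 2 ≤ (Cb * ‖u‖) ^ 2 := pow_le_pow_left₀ (norm_nonneg _) h4 2
      _ = Cb ^ 2 * ‖u‖ ^ 2 := by ring
      _ ≤ Cb ^ 2 * nsq u := mul_le_mul_of_nonneg_left (norm_sq_le u) (by positivity)
  have hY2 : (Y u) ^ 2 ≤ CY ^ 2 * nsq u := by
    have h4 : ‖Y u‖ ≤ CY * ‖u‖ := hCY u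
    calc (Y u) ^ 2 = ‖Y u‖ ^ 2 := by rw [Real.norm_eq_abs, sq_abs]
      _ ≤ (CY * ‖u‖) ^ 2 := pow_le_pow_left₀ (norm_nonneg _) h4 2
      _ = CY ^ 2 * ‖u‖ ^ 2 := by ring
      _ ≤ CY ^ 2 * nsq u := mul_le_mul_of_nonneg_left (norm_sq_le u) (by positivity)
  have hn := nsq_nonneg u
  have hS0 : 0 ≤ S := (norm_nonneg _).trans (hS b' hb')
  rw [e1]
  refine (h1 h hh (b u) (Y u)).trans ?_
  refine (mul_le_mul_of_nonneg_left (h3.trans (mul_le_mul_of_nonneg_left (hS b' hb') (Real.exp_pos _).le)) (Real.exp_pos _).le).trans ?_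
  rw [← mul_assoc, ← Real.exp_add]
  refine mul_le_mul_of_nonneg_right (Real.exp_le_exp.2 ?_) hS0
  have q1 : 1 + (Y u) ^ 2 + ‖b u‖ ^ 2 ≤ (1 + Cb ^ 2 + CY ^ 2) * (1 + nsq u) := by
    have : 0 ≤ Cb ^ 2 := sq_nonneg _
    have : 0 ≤ CY ^ 2 := sq_nonneg _
    nlinarith
  have q2 : 1 + ‖b u‖ ^ 2 ≤ (1 + Cb ^ 2 + CY ^ 2) * (1 + nsq u) := by
    have := sq_nonneg (Y u)
    linarith
  calc A1 * (1 + (Y u) ^ 2 + ‖b u‖ ^ 2) + A2 * (1 + ‖b u‖ ^ 2) ≤
        A1 * ((1 + Cb ^ 2 + CY ^ 2) * (1 + nsq u)) + A2 * ((1 + Cb ^ 2 + CY ^ 2) * (1 + nsq u)) :=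
      add_le_add (mul_le_mul_of_nonneg_left q1 hA1) (mul_le_mul_of_nonneg_left q2 hA2)
    _ = _ := by ring

end Q2_

open Q2_

theorem QQ_van {D : Dat c} {C : (Fin (2 * c + 1) → ℤ) → ℂ} (hC : MulOK D.d D.z C) (μ : ℂ) (κ : ℤ) :
    ∃ T0 : ℕ, ∀ h ∈ QQ D C μ κ, (∀ w : List (Fin (2 * c + 1)), w.length < T0 → pdl w h 0 = 0) → h = 0 := by
  obtain ⟨A, hA, h3⟩ := step3 hC μ κ
  have hdp : (0 : ℝ) < D.d := by exact_mod_cast D.hd
  set E : ℝ := Real.exp (A * (1 + 4 * ((2 * c + 1 : ℕ) * (D.d : ℝ) ^ 2))) with hE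
  obtain ⟨T0, hT0⟩ := pow_unbounded_of_one_lt (2 * E) (one_lt_two : (1 : ℝ) < 2)
  refine ⟨T0, fun h hh hw => ?_⟩
  have hm : Mode D C μ κ h := mem_QQ.1 hh
  -- the maximum on the cube
  have hcomp : IsCompact (Set.Icc (0 : Fin (2 * c + 1) → ℝ) (fun _ => (D.d : ℝ))) := isCompact_Icc
  have hne : (Set.Icc (0 : Fin (2 * c + 1) → ℝ) (fun _ => (D.d : ℝ))).Nonempty := ⟨0, le_refl _, fun _ => hdp.le⟩
  have hcont : Continuous fun b : Fin (2 * c + 1) → ℝ => ‖h (rc b)‖ := by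
    refine (hm.sec.diff.continuous.comp ?_).norm
    exact continuous_pi fun j => Complex.continuous_ofReal.comp (continuous_apply j)
  obtain ⟨b0, hb0, hmax⟩ := hcomp.exists_isMaxOn hne hcont.continuousOn
  set S : ℝ := ‖h (rc b0)‖ with hS
  have hS0 : 0 ≤ S := norm_nonneg _
  have hcube : ∀ b : Fin (2 * c + 1) → ℝ, (∀ j, 0 ≤ b j ∧ b j ≤ D.d) → ‖h (rc b)‖ ≤ S := by
    intro b hb
    exact hmax ⟨fun j => (hb j).1, fun j => (hb j).2⟩
  have hgrow := h3 h hm S hcube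
  have hSle : S ≤ E * S / 2 ^ T0 := by
    refine pdl_schwarz hm.sec.diff T0 hw (rc b0) fun t ht => ?_
    refine (hgrow _).trans (mul_le_mul_of_nonneg_right (Real.exp_le_exp.2 ?_) hS0)
    refine mul_le_mul_of_nonneg_left ?_ hA
    have : nsq (t • rc b0) ≤ 4 * ((2 * c + 1 : ℕ) * (D.d : ℝ) ^ 2) := by
      unfold nsq
      have h4 : ∀ j ∈ Finset.univ, ‖(t • rc b0) j‖ ^ 2 ≤ 4 * (D.d : ℝ) ^ 2 := by
        intro j _
        rw [Pi.smul_apply, norm_smul, mul_pow]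
        have h5 : ‖rc b0 j‖ ≤ D.d := by
          simp only [rc, Complex.norm_real, Real.norm_eq_abs]
          rw [abs_of_nonneg (hb0.1 j)]
          exact hb0.2 j
        have h6 : ‖t‖ ^ 2 ≤ 4 := by nlinarith [norm_nonneg t]
        exact mul_le_mul h6 (pow_le_pow_left₀ (norm_nonneg _) h5 2) (by positivity) (by norm_num)
      refine (Finset.sum_le_card_nsmul _ _ _ h4).trans (le_of_eq ?_)
      rw [Finset.card_univ, Fintype.card_fin, nsmul_eq_mul]; ring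
    linarith
  have hSz : S = 0 := by
    by_contra hne0
    have hSp : 0 < S := lt_of_le_of_ne hS0 (Ne.symm hne0)
    have h2T : (0 : ℝ) < 2 ^ T0 := by positivity
    rw [le_div_iff₀ h2T] at hSle
    have h7 : S * (2 * E) < S * 2 ^ T0 := mul_lt_mul_of_pos_left hT0 hSp
    have hEp : 0 < E := Real.exp_pos _
    have h8 : 0 < S * E := mul_pos hSp hEp
    nlinarith
  funext u
  have := hgrow u
  rw [hSz, mul_zero] at this
  simpa using this

end Pool.Agent.LT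
end

end

section

/-!
# MP_f58a57_nt, large transcendence degree, part C (row lt-C-M5)

(C2): Fourier series of x -> fm u s x at x = 0; fm u s 0 = Phi u s.
-/

open Complex Matrix MeasureTheory

noncomputable section

namespace Pool.Agent.LT

variable {c : ℕ}

namespace M5_

/-- a gaussian over the integers is summable -/
theorem summable_gauss (B : ℝ) {c1 : ℝ} (hc : 0 < c1) : Summable (fun κ : ℤ => Real.exp (B - c1 * (κ : ℝ) ^ 2)) := by
  have h1 : Summable (fun n : ℕ => Real.exp (-c1 * (n : ℝ))) := by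
    have : (fun n : ℕ => Real.exp (-c1 * (n : ℝ))) = fun n : ℕ => (Real.exp (-c1)) ^ n := by
      funext n
      rw [← Real.exp_nat_mul]
      ring_nf
    rw [this]
    exact summable_geometric_of_lt_one (Real.exp_pos _).le (by rw [Real.exp_lt_one_iff]; linarith)
  have h2 : Summable (fun n : ℕ => Real.exp (B - c1 * ((n : ℤ) : ℝ) ^ 2)) := by
    refine Summable.of_nonneg_of_le (fun _ => (Real.exp_pos _).le) (fun n => ?_) (h1.mul_left (Real.exp B))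
    rw [← Real.exp_add]
    apply Real.exp_le_exp.mpr
    have h3 : (n : ℝ) ≤ (n : ℝ) ^ 2 := by
      rcases Nat.eq_zero_or_pos n with h | h
      · subst h; simp
      · have : (1 : ℝ) ≤ n := by exact_mod_cast h
        nlinarith
    have h4 : (((n : ℤ) : ℝ)) = (n : ℝ) := by simp
    rw [h4]
    nlinarith
  refine Summable.of_nat_of_neg h2 ?_
  refine h2.congr (fun n => ?_)
  simp

end M5_

theorem hk_sum {D : Dat c} {Φ : VN c → VN c → ℂ} {C C' : (Fin (2 * c + 1) → ℤ) → ℂ} (hK : Ker D Φ C C') {μ : ℂ} (hμ : Mu D C μ) (u s : VN c) :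
    HasSum (fun κ : ℤ => hk D Φ μ κ u s) (Φ u s) := by
  obtain ⟨A, c1, _, hc1, hb⟩ := hk_bound hK hμ
  have hd : (0 : ℝ) < (D.d : ℝ) := by exact_mod_cast D.hd
  have hdiff : Differentiable ℂ (fm D Φ μ u s) := by
    have h1 := fm_diff hK μ
    have h2 : Differentiable ℂ (fun x : ℂ => ((x, u, s) : ℂ × VN c × VN c)) :=
      differentiable_id.prodMk (differentiable_const _)
    exact h1.comp h2
  have hcast : ∀ κ : ℤ, (((D.d : ℝ) : ℂ)⁻¹ * ∫ x in (0 : ℝ)..(D.d : ℝ), fm D Φ μ u s x * ee (-(κ * x / ((D.d : ℝ) : ℂ)))) = hk D Φ μ κ u s := by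
    intro κ
    simp only [hk, Complex.ofReal_natCast]
  have hsum : Summable (fun κ : ℤ => hk D Φ μ κ u s) :=
    Summable.of_norm_bounded (M5_.summable_gauss (A * (1 + nsq u + nsq s)) hc1) (fun κ => hb κ u s)
  have key := fourier_zero hdiff hd (fun x => fm_per hK hμ u s x) (by simpa only [hcast] using hsum)
  have h0 : fm D Φ μ u s 0 = Φ u s := by simp [fm, ee]
  rw [h0] at key
  simpa only [hcast] using key

end Pool.Agent.LT
end

end

section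

/-!
# MP_f58a57_nt, large transcendence degree, part C (row lt-C-Q3)

C.2: finite dimension, uniformly in kappa.
-/

open Complex Matrix MeasureTheory

noncomputable section

namespace Pool.Agent.LT

variable {c : ℕ}

namespace Q3_

theorem ee_ne_zero (x : ℂ) : ee x ≠ 0 := Complex.exp_ne_zero _

/-- the jets of order `< T` -/
def jet (D : Dat c) (C : (Fin (2 * c + 1) → ℤ) → ℂ) (μ : ℂ) (κ : ℤ) (T : ℕ) : QQ D C μ κ →ₗ[ℂ] (Wd (2 * c + 1) T → ℂ) where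
  toFun h w := pdl w.l (h : VN c → ℂ) 0
  map_add' a b := by
    funext w
    have ha : Differentiable ℂ (a : VN c → ℂ) := (mem_QQ.1 a.2).sec.diff
    have hb : Differentiable ℂ (b : VN c → ℂ) := (mem_QQ.1 b.2).sec.diff
    exact pdl_add ha hb w.l 0
  map_smul' t a := by
    funext w
    have ha : Differentiable ℂ (a : VN c → ℂ) := (mem_QQ.1 a.2).sec.diff
    exact pdl_smul ha t w.l 0

/-- the shift -/
def sh {D : Dat c} {Φ : VN c → VN c → ℂ} {p p' : VN c} {nn : Fin (2 * c + 1) → ℤ} {C5 : ℂ} {m : ℤ} (hJ : Jump D Φ p p' nn C5 m)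
    (C : (Fin (2 * c + 1) → ℤ) → ℂ) (μ : ℂ) (κ i : ℤ) : QQ D C μ κ →ₗ[ℂ] QQ D C μ (κ - i * m * D.d) where
  toFun h := ⟨_, QQ_shift hJ κ i h.2⟩
  map_add' a b := by
    apply Subtype.ext
    funext u
    show ((a : VN c → ℂ) + (b : VN c → ℂ)) _ * _ = _
    simp only [Pi.add_apply, add_mul, Submodule.coe_add]
  map_smul' t a := by
    apply Subtype.ext
    funext u
    show (t • (a : VN c → ℂ)) _ * _ = _
    simp only [Pi.smul_apply, smul_eq_mul, RingHom.id_apply, SetLike.val_smul, mul_assoc]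

theorem sh_inj {D : Dat c} {Φ : VN c → VN c → ℂ} {p p' : VN c} {nn : Fin (2 * c + 1) → ℤ} {C5 : ℂ} {m : ℤ} (hJ : Jump D Φ p p' nn C5 m)
    (C : (Fin (2 * c + 1) → ℤ) → ℂ) (μ : ℂ) (κ i : ℤ) : Function.Injective (sh hJ C μ κ i) := by
  rw [injective_iff_map_eq_zero]
  intro a ha
  apply Subtype.ext
  funext u
  have h1 : ((sh hJ C μ κ i a : QQ D C μ (κ - i * m * D.d)) : VN c → ℂ) (u - (i : ℂ) • p) = 0 := by
    rw [ha]
    rfl
  have h2 : (a : VN c → ℂ) (u - (i : ℂ) • p + (i : ℂ) • p) * ee (-(i * ((u - (i : ℂ) • p) ⬝ᵥ (D.L *ᵥ p')))) = 0 := h1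
  rw [sub_add_cancel] at h2
  exact (mul_eq_zero.1 h2).resolve_right (ee_ne_zero _)

theorem wd_of_list {n T : ℕ} (w : List (Fin n)) (hw : w.length < T) : ∃ α : Wd n T, α.l = w :=
  ⟨⟨⟨w.length, hw⟩, fun i => w.get i⟩, by simp [Wd.l]⟩

end Q3_

open Q3_ in
theorem QQ_fin {D : Dat c} {Φ : VN c → VN c → ℂ} {p p' : VN c} {nn : Fin (2 * c + 1) → ℤ} {C5 : ℂ} {m : ℤ} (hJ : Jump D Φ p p' nn C5 m)
    {C : (Fin (2 * c + 1) → ℤ) → ℂ} (hC : MulOK D.d D.z C) (μ : ℂ) :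
    ∃ d1 : ℕ, ∀ κ : ℤ, Module.Finite ℂ (QQ D C μ κ) ∧ Module.finrank ℂ (QQ D C μ κ) ≤ d1 := by
  classical
  choose T0 hT0 using fun κ : ℤ => QQ_van hC μ κ
  have hmd : 0 < m * (D.d : ℤ) := mul_pos (by linarith [hJ.pos]) (by exact_mod_cast D.hd)
  set T1 : ℕ := (Finset.Ico (0 : ℤ) (m * D.d)).sup T0 with hT1
  refine ⟨Fintype.card (Wd (2 * c + 1) T1), fun κ => ?_⟩
  set i : ℤ := κ / (m * D.d) with hi
  have hκ : κ - i * m * D.d = κ % (m * D.d) := by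
    rw [Int.emod_def, hi]
    ring
  have hmem : κ - i * m * D.d ∈ Finset.Ico (0 : ℤ) (m * D.d) := by
    rw [hκ, Finset.mem_Ico]
    exact ⟨Int.emod_nonneg _ hmd.ne', Int.emod_lt_of_pos _ hmd⟩
  have hle : T0 (κ - i * m * D.d) ≤ T1 := Finset.le_sup (f := T0) hmem
  let J : QQ D C μ κ →ₗ[ℂ] (Wd (2 * c + 1) T1 → ℂ) := (jet D C μ (κ - i * m * D.d) T1).comp (sh hJ C μ κ i)
  have hJi : Function.Injective J := by
    have hj : Function.Injective (jet D C μ (κ - i * m * D.d) T1) := by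
      rw [injective_iff_map_eq_zero]
      intro a ha
      apply Subtype.ext
      apply hT0 (κ - i * m * D.d) _ a.2
      intro w hw
      obtain ⟨α, rfl⟩ := wd_of_list w (hw.trans_le hle)
      exact congrFun ha α
    exact hj.comp (sh_inj hJ C μ κ i)
  have : Module.Finite ℂ (QQ D C μ κ) := Module.Finite.of_injective J hJi
  refine ⟨this, ?_⟩
  have h1 := LinearMap.finrank_le_finrank_of_injective hJi
  rwa [Module.finrank_fintype_fun_eq_card] at h1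

end Pool.Agent.LT
end

end

section

/-! # A7: the derivatives of the j-function (MP_f58a57_nt) -/

open Complex ModularForm EisensteinSeries Filter
open UpperHalfPlane hiding I
open scoped Topology MatrixGroups

noncomputable section

namespace Pool.Agent.MSD

/-- A7a. `dl' = 2πi e2 dl`, `jj' = -2πi e4² e6/dl`. -/
theorem deriv_dl (z : ℂ) (hz : 0 < z.im) : HasDerivAt dl (2 * Real.pi * I * (e2 z * dl z)) z := by
  have h := (((deriv_e4 z hz).pow 3).sub ((deriv_e6 z hz).pow 2)).div_const 1728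
  have h' : HasDerivAt dl _ z := h
  refine h'.congr_deriv ?_
  unfold dl
  push_cast
  ring

theorem deriv_jj (z : ℂ) (hz : 0 < z.im) :
    HasDerivAt jj (-(2 * Real.pi * I) * (e4 z ^ 2 * e6 z / dl z)) z := by
  have hd := dl_ne_zero z hz
  have h := ((deriv_e4 z hz).pow 3).div (deriv_dl z hz) hd
  have h' : HasDerivAt jj _ z := h
  refine h'.congr_deriv ?_
  simp only [Pi.pow_apply]
  push_cast
  field_simp
  ring

/-- A7b. `jj'' = -(2πi)² (e2 e4² e6/6 - (2/3) e4 e6² - e4⁴/2)/dl`. -/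
theorem deriv_deriv_jj (z : ℂ) (hz : 0 < z.im) :
    deriv (deriv jj) z = -(2 * Real.pi * I) ^ 2 *
      ((e2 z * e4 z ^ 2 * e6 z / 6 - 2 / 3 * e4 z * e6 z ^ 2 - e4 z ^ 4 / 2) / dl z) := by
  have hd := dl_ne_zero z hz
  have hev : deriv jj =ᶠ[𝓝 z] fun w => -(2 * Real.pi * I) * (e4 w ^ 2 * e6 w / dl w) := by
    have hopen : IsOpen {w : ℂ | 0 < w.im} := isOpen_lt continuous_const Complex.continuous_im
    filter_upwards [hopen.mem_nhds hz] with w hw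
    exact (deriv_jj w hw).deriv
  rw [hev.deriv_eq]
  have h := (((((deriv_e4 z hz).pow 2).mul (deriv_e6 z hz)).div (deriv_dl z hz) hd)).const_mul
    (-(2 * Real.pi * I))
  have h' : HasDerivAt (fun w => -(2 * Real.pi * I) * (e4 w ^ 2 * e6 w / dl w)) _ z := h
  rw [h'.deriv]
  simp only [Pi.pow_apply, Pi.mul_apply]
  push_cast
  field_simp
  ring

/-- A7c. invariance of `jj` (sanity check, not used). -/
theorem jj_transform (a b c d : ℤ) (h : a * d - b * c = 1) (z : ℂ) (hz : 0 < z.im) :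
    jj ((a * z + b) / (c * z + d)) = jj z := by
  have hd := dl_ne_zero z hz
  have hcd : (c : ℂ) * z + d ≠ 0 := by
    intro h0
    have him : (c : ℝ) * z.im = 0 := by
      have := congrArg Complex.im h0
      simpa using this
    have hc : c = 0 := by
      rcases mul_eq_zero.mp him with h1 | h1
      · exact_mod_cast h1
      · exact absurd h1 hz.ne'
    subst hc
    have hd0 : (d : ℂ) = 0 := by simpa using h0
    have hd1 : d = 0 := by exact_mod_cast hd0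
    subst hd1
    simp at h
  unfold jj dl
  rw [e4_transform a b c d h z hz, e6_transform a b c d h z hz]
  have hd2 : e4 z ^ 3 - e6 z ^ 2 ≠ 0 := by
    intro h0
    apply hd
    unfold dl
    rw [h0]
    simp
  have e1 : ((c * z + d) ^ 4 * e4 z) ^ 3 - ((c * z + d) ^ 6 * e6 z) ^ 2
      = (c * z + d) ^ 12 * (e4 z ^ 3 - e6 z ^ 2) := by ring
  rw [e1]
  field_simp

end Pool.Agent.MSD
end

end

section

/-!
# MP_f58a57_nt, large transcendence degree, part C (row lt-C-U2)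

The subspace W_kappa of the relations has codimension <= d1 (kernel of the linear map q -> sum q_l d_s^(s l) hk(kappa)(. ,0) with values in Q_kappa).
-/

open Complex Matrix MeasureTheory

noncomputable section

namespace Pool.Agent.LT

variable {c : ℕ}

/-- the relations between the functions `u ↦ ∂_s^(s l) h_κ (u, 0)` -/
def WW (D : Dat c) (Φ : VN c → VN c → ℂ) (μ : ℂ) (κ : ℤ) {j : ℕ} (s : Fin j → List (Fin (2 * c + 1))) : Submodule ℂ (Fin j → ℂ) where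
  carrier := {q | ∀ u, ∑ l, q l * pdl (s l) (hk D Φ μ κ u) 0 = 0}
  add_mem' := by
    intro a b ha hb u
    simp only [Pi.add_apply, add_mul, Finset.sum_add_distrib, ha u, hb u, add_zero]
  zero_mem' := by intro u; simp
  smul_mem' := by
    intro t a ha u
    simp only [Pi.smul_apply, smul_eq_mul, mul_assoc, ← Finset.mul_sum, ha u, mul_zero]

theorem WW_rank {D : Dat c} {Φ : VN c → VN c → ℂ} {C C' : (Fin (2 * c + 1) → ℤ) → ℂ} (hK : Ker D Φ C C') {μ : ℂ} (hμ : Mu D C μ) :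
    ∃ d1 : ℕ, 1 ≤ d1 ∧ ∀ (κ : ℤ) (j : ℕ) (s : Fin j → List (Fin (2 * c + 1))), j ≤ Module.finrank ℂ (WW D Φ μ κ s) + d1 := by
  obtain ⟨p, p', nn, C5, m, hJ⟩ := hK.exists_jump
  obtain ⟨d1, hd1⟩ := QQ_fin hJ hK.mulu μ
  refine ⟨d1 + 1, by omega, fun κ j s => ?_⟩
  obtain ⟨hfin, hle⟩ := hd1 κ
  -- the linear map with kernel `WW`
  let e : Fin j → QQ D C μ κ := fun l => ⟨fun u => pdl (s l) (hk D Φ μ κ u) 0, hk_mem_QQ hK hμ κ (s l)⟩
  let L : (Fin j → ℂ) →ₗ[ℂ] QQ D C μ κ := Fintype.linearCombination ℂ e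
  have hker : LinearMap.ker L = WW D Φ μ κ s := by
    ext q
    rw [LinearMap.mem_ker]
    have h1 : L q = 0 ↔ ((L q : QQ D C μ κ) : VN c → ℂ) = 0 := by
      constructor
      · intro h; rw [h]; rfl
      · intro h; exact Subtype.ext h
    have h2 : ((L q : QQ D C μ κ) : VN c → ℂ) = fun u => ∑ l, q l * pdl (s l) (hk D Φ μ κ u) 0 := by
      have h3 : L q = ∑ l, q l • e l := Fintype.linearCombination_apply ℂ e q
      rw [h3]
      funext u
      have h4 : ((∑ l, q l • e l : QQ D C μ κ) : VN c → ℂ) = ∑ l, q l • ((e l : QQ D C μ κ) : VN c → ℂ) := by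
        push_cast
        rfl
      rw [h4, Finset.sum_apply]
      rfl
    rw [h1, h2]
    constructor
    · intro h u
      exact congrFun h u
    · intro h
      funext u
      exact h u
  have hrn := LinearMap.finrank_range_add_finrank_ker L
  have hdim : Module.finrank ℂ (Fin j → ℂ) = j := by simp
  have hr : Module.finrank ℂ (LinearMap.range L) ≤ Module.finrank ℂ (QQ D C μ κ) := Submodule.finrank_le _
  rw [hker] at hrn
  omega

/-- intersections over `|κ| < i` -/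
theorem WW_inf_rank {D : Dat c} {Φ : VN c → VN c → ℂ} {μ : ℂ} {d1 : ℕ}
    (h : ∀ (κ : ℤ) (j : ℕ) (s : Fin j → List (Fin (2 * c + 1))), j ≤ Module.finrank ℂ (WW D Φ μ κ s) + d1)
    (i j : ℕ) (s : Fin j → List (Fin (2 * c + 1))) :
    j ≤ Module.finrank ℂ (⨅ κ ∈ Finset.Ioo (-(i : ℤ)) i, WW D Φ μ κ s : Submodule ℂ (Fin j → ℂ)) + 2 * i * d1 := by
  have key : ∀ S : Finset ℤ,
      j ≤ Module.finrank ℂ (⨅ κ ∈ S, WW D Φ μ κ s : Submodule ℂ (Fin j → ℂ)) + S.card * d1 := by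
    intro S
    induction S using Finset.induction_on with
    | empty =>
      have h0 : (⨅ κ ∈ (∅ : Finset ℤ), WW D Φ μ κ s : Submodule ℂ (Fin j → ℂ)) = ⊤ := by simp
      rw [h0, finrank_top]
      simp
    | insert a S ha ih =>
      rw [Finset.iInf_insert, Finset.card_insert_of_notMem ha]
      have h1 := Submodule.finrank_sup_add_finrank_inf_eq (WW D Φ μ a s) (⨅ κ ∈ S, WW D Φ μ κ s)
      have h2 : Module.finrank ℂ ((WW D Φ μ a s) ⊔ (⨅ κ ∈ S, WW D Φ μ κ s) : Submodule ℂ (Fin j → ℂ)) ≤ j := by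
        have := Submodule.finrank_le ((WW D Φ μ a s) ⊔ (⨅ κ ∈ S, WW D Φ μ κ s) : Submodule ℂ (Fin j → ℂ))
        simpa using this
      have h3 := h a j s
      have h4 : (S.card + 1) * d1 = S.card * d1 + d1 := by ring
      omega
  refine (key (Finset.Ioo (-(i : ℤ)) i)).trans ?_
  have hc : (Finset.Ioo (-(i : ℤ)) i).card ≤ 2 * i := by
    rw [Int.card_Ioo]
    omega
  exact Nat.add_le_add_left (Nat.mul_le_mul_right d1 hc) _

end Pool.Agent.LT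
end

end
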