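import Mathlib
import Pool.Agent.Lib.MP_f58a57_nt.LK.K012
import Pool.Agent.Lib.MP_f58a57_nt.LK.K017

namespace Pool.Agent.LT.B6_
end Pool.Agent.LT.B6_

section

/-! # T7: `wp` is the Weierstrass function of `ℤ + ℤτ` (MP_f58a57_nt, pairs) -/

open Complex Filter Topology

noncomputable section

namespace Pool.Agent.MSP

theorem pp_indep (τ : ℂ) (hτ : 0 < τ.im) : LinearIndependent ℝ ![(1 : ℂ), τ] := by
  rw [LinearIndependent.pair_iff]
  intro a b h
  have him := congrArg Complex.im h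
  simp at him
  have hb : b = 0 := by
    rcases him with h' | h'
    · exact h'
    · exact absurd h' hτ.ne'
  have hre := congrArg Complex.re h
  simp [hb] at hre
  exact ⟨hre, hb⟩

/-- the period pair `(1, τ)` -/
def pp (τ : ℂ) (hτ : 0 < τ.im) : PeriodPair := ⟨1, τ, pp_indep τ hτ⟩

theorem mem_pp (τ : ℂ) (hτ : 0 < τ.im) (t : ℂ) : t ∈ (pp τ hτ).lattice ↔ th τ t = 0 := by
  rw [PeriodPair.mem_lattice, th_eq_zero_iff τ hτ]
  constructor
  · rintro ⟨m, n, h⟩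
    exact ⟨m, n, by rw [← h]; simp [pp]⟩
  · rintro ⟨m, n, h⟩
    exact ⟨m, n, by rw [h]; simp [pp]⟩

theorem t7_wp_add (τ : ℂ) (hτ : 0 < τ.im) (s : ℂ) (m n : ℤ) (t : ℂ) :
    wp τ s (t + m + n * τ) = wp τ s t := by
  unfold wp
  rw [N2_shift τ s hτ, N0_shift τ hτ, mul_pow]
  exact mul_div_mul_left _ _ (pow_ne_zero 2 (au_ne τ m n t))

theorem t7_wp_lat (τ : ℂ) (hτ : 0 < τ.im) (s : ℂ) (l : (pp τ hτ).lattice) (t : ℂ) :
    wp τ s (t + l) = wp τ s t := by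
  obtain ⟨m, n, h⟩ := PeriodPair.mem_lattice.1 l.2
  rw [← h, ← t7_wp_add τ hτ s m n t]
  congr 1
  simp only [pp]
  ring

theorem t7_analytic (τ : ℂ) (hτ : 0 < τ.im) (s t : ℂ) (ht : th τ t ≠ 0) :
    AnalyticAt ℂ (wp τ s) t := by
  have h1 : AnalyticAt ℂ (th τ) t := (th_differentiable τ hτ).analyticAt t
  have h2 : AnalyticAt ℂ (deriv (th τ)) t := h1.deriv
  have h3 : AnalyticAt ℂ (deriv (deriv (th τ))) t := h2.deriv
  have h4 : AnalyticAt ℂ (fun t => N2 τ s t) t := by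
    unfold N2
    fun_prop
  have h5 : AnalyticAt ℂ (fun t => N0 τ t ^ 2) t := by
    unfold N0
    fun_prop
  exact h4.div h5 (pow_ne_zero 2 ht)

open Classical in
/-- the difference of the two functions, `0` on the lattice -/
def t7_D (τ : ℂ) (hτ : 0 < τ.im) (x : ℂ) : ℂ :=
  if x ∈ (pp τ hτ).lattice then 0 else wp τ (sE τ) x - (pp τ hτ).weierstrassP x

theorem t7_D_add (τ : ℂ) (hτ : 0 < τ.im) (x : ℂ) (l : (pp τ hτ).lattice) :
    t7_D τ hτ (x + l) = t7_D τ hτ x := by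
  unfold t7_D
  rw [t7_wp_lat, PeriodPair.weierstrassP_add_coe]
  have h : (x + l ∈ (pp τ hτ).lattice) ↔ (x ∈ (pp τ hτ).lattice) := by
    simpa using ((pp τ hτ).lattice.toAddSubgroup.add_mem_cancel_right (y := x) l.2)
  by_cases hx : x ∈ (pp τ hτ).lattice
  · rw [if_pos (h.2 hx), if_pos hx]
  · rw [if_neg (fun h' => hx (h.1 h')), if_neg hx]

theorem t7_D_off (τ : ℂ) (hτ : 0 < τ.im) (x : ℂ) (hx : x ∉ (pp τ hτ).lattice) :
    AnalyticAt ℂ (t7_D τ hτ) x := by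
  have h1 : AnalyticAt ℂ (wp τ (sE τ)) x :=
    t7_analytic τ hτ _ x (fun h => hx ((mem_pp τ hτ x).2 h))
  have h2 : AnalyticAt ℂ (pp τ hτ).weierstrassP x :=
    (pp τ hτ).analyticOnNhd_weierstrassP x hx
  have h3 : AnalyticAt ℂ (fun x => wp τ (sE τ) x - (pp τ hτ).weierstrassP x) x := h1.sub h2
  refine h3.congr ?_
  filter_upwards [(pp τ hτ).isClosed_lattice.isOpen_compl.mem_nhds hx] with y hy
  unfold t7_D
  rw [if_neg (show y ∉ (pp τ hτ).lattice from hy)]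

theorem t7_D_zero (τ : ℂ) (hτ : 0 < τ.im) : AnalyticAt ℂ (t7_D τ hτ) 0 := by
  set L := pp τ hτ with hL
  have hev : ∀ᶠ x in 𝓝[≠] (0 : ℂ), x ∉ L.lattice := by
    have h1 := L.compl_lattice_sdiff_singleton_mem_nhds 0
    filter_upwards [nhdsWithin_le_nhds h1, self_mem_nhdsWithin] with x hx hx0
    intro hxL
    exact hx ⟨hxL, hx0⟩
  have h0 : t7_D τ hτ 0 = 0 := by
    unfold t7_D
    rw [if_pos (zero_mem _)]
  have hP : Tendsto (fun t : ℂ => L.weierstrassP t - 1 / t ^ 2) (𝓝[≠] 0) (𝓝 0) := by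
    have h1 : ∀ t : ℂ, L.weierstrassP t - 1 / t ^ 2 = L.weierstrassPExcept 0 t := by
      intro t
      have := L.weierstrassPExcept_add 0 t
      simp only [ZeroMemClass.coe_zero, sub_zero] at this
      rw [← this]
      simp
    have h2 : Tendsto (L.weierstrassPExcept 0) (𝓝 0) (𝓝 0) := by
      have h3 := (L.analyticAt_weierstrassPExcept 0).continuousAt.tendsto
      rwa [L.weierstrassPExcept_zero] at h3
    refine (h2.mono_left nhdsWithin_le_nhds).congr fun t => (h1 t).symm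
  have hD : Tendsto (t7_D τ hτ) (𝓝[≠] 0) (𝓝 0) := by
    have h1 := (wp_lim τ hτ).sub hP
    rw [sub_zero] at h1
    refine h1.congr' ?_
    filter_upwards [hev] with x hx
    unfold t7_D
    rw [if_neg hx]
    ring
  refine Complex.analyticAt_of_differentiable_on_punctured_nhds_of_continuousAt ?_ ?_
  · filter_upwards [hev] with x hx
    exact (t7_D_off τ hτ x hx).differentiableAt
  · rw [continuousAt_iff_punctured_nhds, h0]
    exact hD

theorem t7_D_analytic (τ : ℂ) (hτ : 0 < τ.im) (x : ℂ) : AnalyticAt ℂ (t7_D τ hτ) x := by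
  by_cases hx : x ∈ (pp τ hτ).lattice
  · have h0 := t7_D_zero τ hτ
    have h1 : AnalyticAt ℂ (fun y => t7_D τ hτ (y - x)) x := by
      have h2 : AnalyticAt ℂ (t7_D τ hτ) ((fun y : ℂ => y - x) x) := by
        simpa using h0
      exact h2.comp (f := fun y : ℂ => y - x) (by fun_prop)
    refine h1.congr (Eventually.of_forall fun y => ?_)
    have := t7_D_add τ hτ (y - x) ⟨x, hx⟩
    simp only [sub_add_cancel] at this
    exact this.symm
  · exact t7_D_off τ hτ x hx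

/-- T7. PROOF. Both sides are analytic off the lattice (`wp = N2/N0²`, `N0 = th ≠ 0` there; Mathlib
`analyticOnNhd_weierstrassP`), and periodic (T4; `weierstrassP_add_coe`). At `0` the difference tends to `0`:
`wp - 1/t² → 0` (T6c) and `℘ - 1/t² → 0` (Mathlib: `weierstrassPExcept 0` is analytic at `0` with value `0`,
`weierstrassPExcept_add`, `weierstrassPExcept_zero`). So the difference `D`, extended by `0` on the lattice, is continuous and
analytic off the lattice, hence entire (removable singularities: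
`Complex.differentiableOn_update_limUnder_of_isLittleO` or
`DifferentiableOn... continuousAt`), periodic for `1` and `τ`, so bounded, so constant (`Differentiable.apply_eq_apply_of_bounded`),
`= D 0 = 0`. See Mathlib's proof of `PeriodPair.relation_eq_zero` for the same pattern. -/
theorem wp_eq (τ : ℂ) (hτ : 0 < τ.im) (t : ℂ) (ht : th τ t ≠ 0) :
    wp τ (sE τ) t = (pp τ hτ).weierstrassP t := by
  have hd : Differentiable ℂ (t7_D τ hτ) := fun x => (t7_D_analytic τ hτ x).differentiableAt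
  have h1 : t7_D τ hτ t = t7_D τ hτ 0 :=
    hd.apply_eq_apply_of_bounded (IsZLattice.isCompact_range_of_periodic (pp τ hτ).lattice _
      hd.continuous fun z w hw => by
        have := t7_D_add τ hτ z ⟨w, hw⟩
        exact this).isBounded t 0
  have h0 : t7_D τ hτ 0 = 0 := by
    unfold t7_D
    rw [if_pos (zero_mem _)]
  rw [h0] at h1
  unfold t7_D at h1
  rw [if_neg (fun h => ht ((mem_pp τ hτ t).1 h))] at h1
  exact sub_eq_zero.1 h1

end Pool.Agent.MSP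
end

end

section

/-! # T8: the invariants and the differential equation (MP_f58a57_nt, pairs) -/

open Complex Filter Topology

noncomputable section

namespace Pool.Agent.MSP

/-- the lattice sum is the Eisenstein series -/
theorem t8_G (τ : ℂ) (hτ : 0 < τ.im) {k : ℕ} (hk : 3 ≤ k) :
    (pp τ hτ).G k = 2 * riemannZeta k * ModularForm.E hk (UpperHalfPlane.ofComplex τ) := by
  have hz : UpperHalfPlane.ofComplex τ = ⟨τ, hτ⟩ := UpperHalfPlane.ofComplex_apply_of_im_pos hτ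
  rw [hz]
  have h1 := tsum_eisSummand_eq_riemannZeta_mul_eisensteinSeries hk (⟨τ, hτ⟩ : UpperHalfPlane)
  have h2 : ModularForm.E hk (⟨τ, hτ⟩ : UpperHalfPlane) =
      (1 / 2 : ℂ) * eisensteinSeries (N := 1) 0 k ⟨τ, hτ⟩ := by
    rw [show ModularForm.E hk (⟨τ, hτ⟩ : UpperHalfPlane) =
      (1 / 2 : ℂ) • EisensteinSeries.eisensteinSeriesSIF (N := 1) 0 k ⟨τ, hτ⟩ from rfl,
      EisensteinSeries.eisensteinSeriesSIF_apply 0 k, smul_eq_mul]
  have h3 : 2 * riemannZeta k * ((1 / 2 : ℂ) * eisensteinSeries (N := 1) 0 k ⟨τ, hτ⟩) =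
      riemannZeta k * eisensteinSeries (N := 1) 0 k ⟨τ, hτ⟩ := by ring
  rw [h2, h3, ← h1]
  set e : (Fin 2 → ℤ) ≃ (pp τ hτ).lattice :=
    ((finTwoArrowEquiv ℤ).trans (Equiv.prodComm ℤ ℤ)).trans
      (pp τ hτ).latticeEquivProd.symm.toEquiv with he
  rw [PeriodPair.G, ← e.tsum_eq]
  apply tsum_congr
  intro v
  have h4 : ((e v : (pp τ hτ).lattice) : ℂ) = v 0 * τ + v 1 := by
    have h5 := (pp τ hτ).latticeEquiv_symm_apply (v 1, v 0)
    have h6 : e v = (pp τ hτ).latticeEquivProd.symm (v 1, v 0) := by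
      rw [he]
      rfl
    rw [h6, h5]
    simp only [pp]
    ring
  rw [h4, EisensteinSeries.eisSummand, zpow_neg, zpow_natCast]

theorem t8_bernoulli_six : bernoulli 6 = 1 / 42 := by
  have h5 : bernoulli' 5 = 0 := bernoulli'_eq_zero_of_odd (by decide) (by norm_num)
  have c2 : Nat.choose 6 2 = 15 := by decide
  have c3 : Nat.choose 6 3 = 20 := by decide
  have c4 : Nat.choose 6 4 = 15 := by decide
  rw [bernoulli_eq_bernoulli'_of_ne_one (by norm_num), bernoulli'_def]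
  norm_num [Finset.sum_range_succ, Finset.sum_range_zero, h5, c2, c3, c4]

theorem t8_zeta_six : riemannZeta 6 = (Real.pi : ℂ) ^ 6 / 945 := by
  have h := riemannZeta_two_mul_nat (k := 3) (by norm_num)
  have e1 : (2 * ((3 : ℕ) : ℂ)) = 6 := by norm_num
  have e2 : 2 * 3 = 6 := by norm_num
  rw [e1, e2, t8_bernoulli_six] at h
  rw [h]
  simp only [Nat.factorial]
  push_cast
  ring

/-- T8a. `g₂ = 60 ∑ λ⁻⁴ = 60 · 2ζ(4) E₄ = (4/3) π⁴ E₄`. PROOF. `PeriodPair.g₂ = 60 * G 4`, `G 4 = ∑' l : lattice, (l^4)⁻¹`; reindex by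
`PeriodPair.latticeEquivProd` as a sum over pairs of integers; Mathlib: the sum over all pairs is `2ζ(k)` times the normalised
Eisenstein series (`EisensteinSeries`: `tsum_eisSummand_eq_riemannZeta_mul_eisensteinSeries` or the like; the definition of `E₄` is
`ModularForm.E`/`EisensteinSeries.E`), `riemannZeta_four`. -/
theorem g2_eq (τ : ℂ) (hτ : 0 < τ.im) : (pp τ hτ).g₂ = 4 / 3 * Real.pi ^ 4 * MSD.e4 τ := by
  have h : (pp τ hτ).G 4 = 2 * riemannZeta (4 : ℕ) * MSD.e4 τ := t8_G τ hτ (by norm_num)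
  rw [PeriodPair.g₂, h]
  push_cast
  rw [riemannZeta_four]
  ring

/-- T8b. `g₃ = 140 ∑ λ⁻⁶ = 140 · 2ζ(6) E₆ = (8/27) π⁶ E₆`; `ζ(6) = π⁶/945` (`riemannZeta_two_mul_nat` with Bernoulli numbers). -/
theorem g3_eq (τ : ℂ) (hτ : 0 < τ.im) : (pp τ hτ).g₃ = 8 / 27 * Real.pi ^ 6 * MSD.e6 τ := by
  have h : (pp τ hτ).G 6 = 2 * riemannZeta (6 : ℕ) * MSD.e6 τ := t8_G τ hτ (by norm_num)
  rw [PeriodPair.g₃, h]
  push_cast
  rw [t8_zeta_six]
  ring

end Pool.Agent.MSP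
end

end

section

/-! # T8c: the differential equation (MP_f58a57_nt, pairs) -/

open Complex Filter Topology

noncomputable section

namespace Pool.Agent.MSP

theorem t8c_th_an (τ : ℂ) (hτ : 0 < τ.im) (t : ℂ) : AnalyticAt ℂ (th τ) t :=
  (th_differentiable τ hτ).analyticAt t

/-- `wp` is analytic where `th ≠ 0`. -/
theorem wp_analyticAt (τ s : ℂ) (hτ : 0 < τ.im) (t : ℂ) (ht : th τ t ≠ 0) : AnalyticAt ℂ (wp τ s) t := by
  have h0 := t8c_th_an τ hτ t
  have h1 : AnalyticAt ℂ (deriv (th τ)) t := h0.deriv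
  have h2 : AnalyticAt ℂ (deriv (deriv (th τ))) t := h1.deriv
  have hn : AnalyticAt ℂ (fun t => deriv (th τ) t ^ 2 - th τ t * deriv (deriv (th τ)) t - s * th τ t ^ 2) t :=
    ((h1.pow 2).sub (h0.mul h2)).sub (analyticAt_const.mul (h0.pow 2))
  have hd : AnalyticAt ℂ (fun t => th τ t ^ 2) t := h0.pow 2
  exact hn.div hd (pow_ne_zero 2 ht)

/-- `ph` is analytic where `th ≠ 0`, and `ph' = -(wp + s)`. -/
theorem ph_analyticAt (τ : ℂ) (hτ : 0 < τ.im) (t : ℂ) (ht : th τ t ≠ 0) : AnalyticAt ℂ (ph τ) t := by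
  have h0 := t8c_th_an τ hτ t
  have h1 : AnalyticAt ℂ (deriv (th τ)) t := h0.deriv
  exact h1.div h0 ht

theorem hasDerivAt_ph (τ s : ℂ) (hτ : 0 < τ.im) (t : ℂ) (ht : th τ t ≠ 0) :
    HasDerivAt (ph τ) (-(wp τ s t + s)) t := by
  have h0 := t8c_th_an τ hτ t
  have h1 : AnalyticAt ℂ (deriv (th τ)) t := h0.deriv
  have h := h1.differentiableAt.hasDerivAt.div h0.differentiableAt.hasDerivAt ht
  have e : (deriv (deriv (th τ)) t * th τ t - deriv (th τ) t * deriv (th τ) t) / th τ t ^ 2 =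
      -(wp τ s t + s) := by
    unfold wp N2 N0
    field_simp
    ring
  rw [e] at h
  exact h

theorem t8c_open (τ : ℂ) (hτ : 0 < τ.im) : IsOpen {t : ℂ | th τ t ≠ 0} :=
  isOpen_ne_fun (th_differentiable τ hτ).continuous continuous_const

/-- T8c. PROOF. `derivWeierstrassP_sq`, `deriv_weierstrassP` and T7 (the functions agree on an open set). -/
theorem wp_ode (τ : ℂ) (hτ : 0 < τ.im) (t : ℂ) (ht : th τ t ≠ 0) :
    deriv (wp τ (sE τ)) t ^ 2 = 4 * wp τ (sE τ) t ^ 3 - 4 / 3 * Real.pi ^ 4 * MSD.e4 τ * wp τ (sE τ) t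
      - 8 / 27 * Real.pi ^ 6 * MSD.e6 τ := by
  have hmem : t ∉ (pp τ hτ).lattice := fun h => ht ((mem_pp τ hτ t).1 h)
  have heq : wp τ (sE τ) =ᶠ[𝓝 t] (pp τ hτ).weierstrassP := by
    filter_upwards [(t8c_open τ hτ).mem_nhds ht] with u hu
    exact wp_eq τ hτ u hu
  rw [heq.deriv_eq, PeriodPair.deriv_weierstrassP, PeriodPair.derivWeierstrassP_sq _ t hmem, wp_eq τ hτ t ht,
    g2_eq, g3_eq]

theorem t8c_zeros_countable (τ : ℂ) (hτ : 0 < τ.im) : {t : ℂ | th τ t = 0}.Countable := by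
  have : {t : ℂ | th τ t = 0} ⊆ Set.range (fun p : ℤ × ℤ => (p.1 : ℂ) + p.2 * τ) := by
    intro t ht
    obtain ⟨m, n, h⟩ := (th_eq_zero_iff τ hτ t).1 ht
    exact ⟨(m, n), h.symm⟩
  exact (Set.countable_range _).mono this

theorem t8c_preconn (τ : ℂ) (hτ : 0 < τ.im) : IsPreconnected {t : ℂ | th τ t ≠ 0} := by
  have h := Set.Countable.isPathConnected_compl_of_one_lt_rank
    (by rw [Complex.rank_real_complex]; exact Cardinal.one_lt_two) (t8c_zeros_countable τ hτ)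
  exact h.isConnected.isPreconnected

theorem t8c_zero (τ : ℂ) (hτ : 0 < τ.im) : th τ 0 = 0 :=
  (th_eq_zero_iff τ hτ 0).2 ⟨0, 0, by simp⟩

theorem t8c_ev_ne (τ : ℂ) (hτ : 0 < τ.im) : ∀ᶠ t in 𝓝[≠] (0 : ℂ), th τ t ≠ 0 := by
  rcases (t8c_th_an τ hτ 0).eventually_eq_zero_or_eventually_ne_zero with h | h
  · exfalso
    have : deriv (th τ) 0 = 0 := by
      have h' : th τ =ᶠ[𝓝 0] fun _ => 0 := h
      rw [h'.deriv_eq]
      simp
    exact deriv_th_zero_ne τ hτ this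
  · exact h

/-- `wp'` does not vanish identically near any point -/
theorem t8c_deriv_ne (τ : ℂ) (hτ : 0 < τ.im) (t : ℂ) (ht : th τ t ≠ 0) :
    ∀ᶠ u in 𝓝[≠] t, deriv (wp τ (sE τ)) u ≠ 0 := by
  rcases (wp_analyticAt τ (sE τ) hτ t ht).deriv.eventually_eq_zero_or_eventually_ne_zero with h | h
  swap
  · exact h
  exfalso
  have han : AnalyticOnNhd ℂ (deriv (wp τ (sE τ))) {t : ℂ | th τ t ≠ 0} :=
    fun u hu => (wp_analyticAt τ (sE τ) hτ u hu).deriv
  have hz : Set.EqOn (deriv (wp τ (sE τ))) 0 {t : ℂ | th τ t ≠ 0} :=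
    han.eqOn_zero_of_preconnected_of_eventuallyEq_zero (t8c_preconn τ hτ) ht h
  have hdiff : DifferentiableOn ℂ (wp τ (sE τ)) {t : ℂ | th τ t ≠ 0} :=
    fun u hu => (wp_analyticAt τ (sE τ) hτ u hu).differentiableAt.differentiableWithinAt
  have hconst : ∀ u, th τ u ≠ 0 → wp τ (sE τ) u = wp τ (sE τ) t := fun u hu =>
    (t8c_open τ hτ).is_const_of_deriv_eq_zero (t8c_preconn τ hτ) hdiff hz hu ht
  -- then `1/u²` would be bounded near `0`
  have h1 : Tendsto (fun u : ℂ => wp τ (sE τ) t - 1 / u ^ 2) (𝓝[≠] 0) (𝓝 0) := by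
    refine (wp_lim τ hτ).congr' ?_
    filter_upwards [t8c_ev_ne τ hτ] with u hu
    rw [hconst u hu]
  have h2 : Tendsto (fun u : ℂ => u ^ 2) (𝓝[≠] (0 : ℂ)) (𝓝 0) := by
    have : Tendsto (fun u : ℂ => u ^ 2) (𝓝 (0 : ℂ)) (𝓝 ((0 : ℂ) ^ 2)) := (continuous_pow 2).tendsto 0
    simp only [ne_eq, OfNat.ofNat_ne_zero, not_false_eq_true, zero_pow] at this
    exact this.mono_left nhdsWithin_le_nhds
  have h3 : Tendsto (fun u : ℂ => (wp τ (sE τ) t - 1 / u ^ 2) * u ^ 2) (𝓝[≠] 0) (𝓝 (0 * 0)) := h1.mul h2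
  have h4 : Tendsto (fun u : ℂ => wp τ (sE τ) t * u ^ 2 - 1) (𝓝[≠] (0 : ℂ)) (𝓝 (0 * 0)) := by
    refine h3.congr' ?_
    filter_upwards [self_mem_nhdsWithin] with u hu
    have hu' : u ≠ 0 := hu
    field_simp
  have h5 : Tendsto (fun u : ℂ => wp τ (sE τ) t * u ^ 2 - 1) (𝓝[≠] (0 : ℂ)) (𝓝 (wp τ (sE τ) t * 0 - 1)) :=
    (h2.const_mul _).sub_const 1
  have h6 := tendsto_nhds_unique h4 h5
  norm_num at h6

/-- T8d. PROOF. Differentiate T8c: `2 wp' wp'' = (12 wp² - g₂) wp'`; divide by `wp'` where `wp' ≠ 0`. `wp'` is not identically zero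
near any point (otherwise, the complement of the lattice being connected, `wp` would be constant, but `wp → ∞` at `0`), so the zeros of
`wp'` are isolated and the identity extends by continuity. -/
theorem wp_ode2 (τ : ℂ) (hτ : 0 < τ.im) (t : ℂ) (ht : th τ t ≠ 0) :
    HasDerivAt (deriv (wp τ (sE τ))) (6 * wp τ (sE τ) t ^ 2 - 2 / 3 * Real.pi ^ 4 * MSD.e4 τ) t := by
  set f := wp τ (sE τ) with hf
  set g : ℂ := 4 / 3 * Real.pi ^ 4 * MSD.e4 τ with hg
  -- the identity after differentiation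
  have key : ∀ u, th τ u ≠ 0 → 2 * deriv f u * deriv (deriv f) u = (12 * f u ^ 2 - g) * deriv f u := by
    intro u hu
    have hfa := wp_analyticAt τ (sE τ) hτ u hu
    have hd0 : HasDerivAt f (deriv f u) u := hfa.differentiableAt.hasDerivAt
    have hd1 : HasDerivAt (deriv f) (deriv (deriv f) u) u := hfa.deriv.differentiableAt.hasDerivAt
    have hL : HasDerivAt (fun v => deriv f v ^ 2) (2 * deriv f u * deriv (deriv f) u) u := by
      have := hd1.fun_pow 2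
      simpa using this
    have hR : HasDerivAt (fun v => 4 * f v ^ 3 - g * f v - 8 / 27 * Real.pi ^ 6 * MSD.e6 τ)
        ((12 * f u ^ 2 - g) * deriv f u) u := by
      have h := (((hd0.fun_pow 3).const_mul 4).fun_sub (hd0.const_mul g)).sub_const (8 / 27 * Real.pi ^ 6 * MSD.e6 τ)
      have e : (12 * f u ^ 2 - g) * deriv f u = 4 * ((3 : ℕ) * f u ^ (3 - 1) * deriv f u) - g * deriv f u := by
        norm_num
        ring
      rw [e]
      exact h
    have heq : (fun v => deriv f v ^ 2) =ᶠ[𝓝 u] fun v => 4 * f v ^ 3 - g * f v - 8 / 27 * Real.pi ^ 6 * MSD.e6 τ := by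
      filter_upwards [(t8c_open τ hτ).mem_nhds hu] with v hv
      exact wp_ode τ hτ v hv
    exact hL.unique (hR.congr_of_eventuallyEq heq)
  have hfa := wp_analyticAt τ (sE τ) hτ t ht
  have hd1 : HasDerivAt (deriv f) (deriv (deriv f) t) t := hfa.deriv.differentiableAt.hasDerivAt
  -- continuity of the difference
  have hc : ContinuousAt (fun u => deriv (deriv f) u - (6 * f u ^ 2 - g / 2)) t := by
    have h1 : ContinuousAt (deriv (deriv f)) t := hfa.deriv.deriv.continuousAt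
    have h2 : ContinuousAt f t := hfa.continuousAt
    fun_prop
  have hz : ∀ᶠ u in 𝓝[≠] t, deriv (deriv f) u - (6 * f u ^ 2 - g / 2) = 0 := by
    filter_upwards [t8c_deriv_ne τ hτ t ht, nhdsWithin_le_nhds ((t8c_open τ hτ).mem_nhds ht)] with u hu hu'
    have := key u hu'
    have h3 : deriv f u * (2 * (deriv (deriv f) u - (6 * f u ^ 2 - g / 2))) = 0 := by linear_combination this
    rcases mul_eq_zero.1 h3 with h | h
    · exact absurd h hu
    · simpa using h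
  have h0 : deriv (deriv f) t - (6 * f t ^ 2 - g / 2) = 0 := by
    have ha : Tendsto (fun u => deriv (deriv f) u - (6 * f u ^ 2 - g / 2)) (𝓝[≠] t)
        (𝓝 (deriv (deriv f) t - (6 * f t ^ 2 - g / 2))) := hc.tendsto.mono_left nhdsWithin_le_nhds
    have hb : Tendsto (fun u => deriv (deriv f) u - (6 * f u ^ 2 - g / 2)) (𝓝[≠] t) (𝓝 0) :=
      tendsto_const_nhds.congr' (hz.mono fun u hu => hu.symm)
    exact tendsto_nhds_unique ha hb
  have e : (6 * f t ^ 2 - 2 / 3 * Real.pi ^ 4 * MSD.e4 τ : ℂ) = deriv (deriv f) t := by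
    rw [sub_eq_zero.1 h0, hg]
    ring
  rw [e]
  exact hd1

end Pool.Agent.MSP
end

end

section

/-!
# MP_f58a57_nt, large transcendence degree, part C (row lt-C-B6)

Third step of C.4: g_y is a section in s, INT for g_y / exp(A(1+j^2)), then extend_bound.
-/

open Complex Matrix MeasureTheory

noncomputable section

namespace Pool.Agent.LT

variable {c : ℕ}

namespace B6_

theorem gy_scale (D : Dat c) (Φ : VN c → VN c → ℂ) (μ : ℂ) (κ m : ℤ) (p : VN c) {j : ℕ} (y : Fin j → ℂ) (t : ℂ) (s : VN c) :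
    gy D Φ μ κ m p (fun i => t * y i) s = t * gy D Φ μ κ m p y s := by
  unfold gy
  rw [Finset.mul_sum]
  exact Finset.sum_congr rfl fun β _ => by ring

theorem nsq_nonneg {n : ℕ} (z : Fin n → ℂ) : 0 ≤ nsq z := Finset.sum_nonneg fun _ _ => by positivity

theorem nsq_smul {n : ℕ} (a : ℂ) (z : Fin n → ℂ) : nsq (a • z) = ‖a‖ ^ 2 * nsq z := by
  unfold nsq
  rw [Finset.mul_sum]
  exact Finset.sum_congr rfl fun i _ => by rw [Pi.smul_apply, smul_eq_mul, norm_mul, mul_pow]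

theorem nsq_pt_le {n : ℕ} (g : Fin n → ℤ) (d : ℕ) (b : Fin n → ℝ) (hb : ∀ j, 0 ≤ b j ∧ b j ≤ d) (y : ℝ) :
    nsq (pt g b y) ≤ (n * (d : ℝ) ^ 2) + (∑ j, (g j : ℝ) ^ 2) * y ^ 2 := by
  unfold nsq pt
  have h1 : ∀ j, ‖(b j : ℂ) + I * y * (g j : ℂ)‖ ^ 2 = b j ^ 2 + (g j : ℝ) ^ 2 * y ^ 2 := by
    intro j
    have : (b j : ℂ) + I * y * (g j : ℂ) = ((b j : ℝ) : ℂ) + ((y * (g j : ℝ) : ℝ) : ℂ) * I := by
      push_cast
      ring
    rw [this, ← Complex.normSq_eq_norm_sq, Complex.normSq_add_mul_I]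
    ring
  calc ∑ j, ‖(b j : ℂ) + I * y * (g j : ℂ)‖ ^ 2 = ∑ j, (b j ^ 2 + (g j : ℝ) ^ 2 * y ^ 2) :=
        Finset.sum_congr rfl fun j _ => h1 j
    _ = ∑ j, b j ^ 2 + (∑ j, (g j : ℝ) ^ 2) * y ^ 2 := by rw [Finset.sum_add_distrib, Finset.sum_mul]
    _ ≤ (n * (d : ℝ) ^ 2) + (∑ j, (g j : ℝ) ^ 2) * y ^ 2 := by
        have : ∑ j, b j ^ 2 ≤ ∑ _j : Fin n, (d : ℝ) ^ 2 :=
          Finset.sum_le_sum fun j _ => pow_le_pow_left₀ (hb j).1 (hb j).2 2
        rw [Finset.sum_const, Finset.card_univ, Fintype.card_fin, nsmul_eq_mul] at this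
        linarith

theorem gy_sec {D : Dat c} {Φ : VN c → VN c → ℂ} {C C' : (Fin (2 * c + 1) → ℤ) → ℂ} (hK : Ker D Φ C C') {μ : ℂ} (hμ : Mu D C μ) (κ m : ℤ)
    (p : VN c) {j : ℕ} (y : Fin j → ℂ) : Sec D.d D.L C' (gy D Φ μ κ m p y) where
  diff := by
    unfold gy
    exact Differentiable.fun_sum fun i _ => (hk_secs hK hμ _ _).diff.const_mul (y i)
  per := fun a u => by
    unfold gy
    rw [Finset.mul_sum]
    refine Finset.sum_congr rfl fun i _ => ?_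
    rw [(hk_secs hK hμ _ _).per]
    ring
  ker := fun k hk u => by
    unfold gy
    refine Finset.sum_congr rfl fun i _ => ?_
    rw [(hk_secs hK hμ _ _).ker k hk]

theorem gy_bound {D : Dat c} {Φ : VN c → VN c → ℂ} {C C' : (Fin (2 * c + 1) → ℤ) → ℂ} (hK : Ker D Φ C C') {μ : ℂ} (hμ : Mu D C μ) (κ m : ℤ)
    (p : VN c) : ∃ A : ℝ, 0 ≤ A ∧ ∀ (j : ℕ) (y : Fin j → ℂ), (∀ i, ‖y i‖ ≤ 1) → ∀ s,
      ‖gy D Φ μ κ m p y s‖ ≤ Real.exp (A * (1 + (j : ℝ) ^ 2) + A * (1 + nsq s)) := by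
  obtain ⟨A, c1, hA, hc1, h⟩ := hk_bound hK hμ
  have hP0 := nsq_nonneg p
  refine ⟨A * nsq p + A + 1, by positivity, fun j y hy s => ?_⟩
  have hS0 := nsq_nonneg s
  have hj0 : (0 : ℝ) ≤ (j : ℝ) := Nat.cast_nonneg j
  have h1 : ∀ i : Fin j, ‖y i * hk D Φ μ (κ + (i : ℕ) * m * D.d) (((i : ℕ) : ℂ) • p) s‖ ≤ Real.exp (A * (1 + (j : ℝ) ^ 2 * nsq p + nsq s)) := by
    intro i
    rw [norm_mul]
    have h2 := h (κ + (i : ℕ) * m * D.d) (((i : ℕ) : ℂ) • p) s
    have h3 : nsq ((((i : ℕ) : ℂ)) • p) ≤ (j : ℝ) ^ 2 * nsq p := by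
      rw [nsq_smul, Complex.norm_natCast]
      apply mul_le_mul_of_nonneg_right _ hP0
      have h4 : ((i : ℕ) : ℝ) ≤ (j : ℝ) := by exact_mod_cast i.2.le
      exact pow_le_pow_left₀ (Nat.cast_nonneg _) h4 2
    calc ‖y i‖ * ‖hk D Φ μ (κ + (i : ℕ) * m * D.d) (((i : ℕ) : ℂ) • p) s‖
        ≤ 1 * ‖hk D Φ μ (κ + (i : ℕ) * m * D.d) (((i : ℕ) : ℂ) • p) s‖ := mul_le_mul_of_nonneg_right (hy i) (norm_nonneg _)
      _ = ‖hk D Φ μ (κ + (i : ℕ) * m * D.d) (((i : ℕ) : ℂ) • p) s‖ := one_mul _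
      _ ≤ _ := h2
      _ ≤ Real.exp (A * (1 + (j : ℝ) ^ 2 * nsq p + nsq s)) := by
          apply Real.exp_le_exp.2
          have h5 : 0 ≤ c1 * ((κ + (i : ℕ) * m * D.d : ℤ) : ℝ) ^ 2 := by positivity
          have h6 : A * (1 + nsq ((((i : ℕ) : ℂ)) • p) + nsq s) ≤ A * (1 + (j : ℝ) ^ 2 * nsq p + nsq s) :=
            mul_le_mul_of_nonneg_left (by linarith) hA
          linarith
  have h7 : ‖gy D Φ μ κ m p y s‖ ≤ (j : ℝ) * Real.exp (A * (1 + (j : ℝ) ^ 2 * nsq p + nsq s)) := by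
    unfold gy
    refine (norm_sum_le _ _).trans ?_
    refine (Finset.sum_le_sum fun i _ => h1 i).trans ?_
    rw [Finset.sum_const, Finset.card_univ, Fintype.card_fin, nsmul_eq_mul]
  refine h7.trans ?_
  have h8 : (j : ℝ) ≤ Real.exp (1 + (j : ℝ) ^ 2) := by
    have h9 := Real.add_one_le_exp (1 + (j : ℝ) ^ 2)
    nlinarith [sq_nonneg ((j : ℝ) - 1)]
  calc (j : ℝ) * Real.exp (A * (1 + (j : ℝ) ^ 2 * nsq p + nsq s))
      ≤ Real.exp (1 + (j : ℝ) ^ 2) * Real.exp (A * (1 + (j : ℝ) ^ 2 * nsq p + nsq s)) :=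
        mul_le_mul_of_nonneg_right h8 (Real.exp_pos _).le
    _ = Real.exp (1 + (j : ℝ) ^ 2 + A * (1 + (j : ℝ) ^ 2 * nsq p + nsq s)) := by rw [← Real.exp_add]
    _ ≤ _ := by
        apply Real.exp_le_exp.2
        have e1 : 0 ≤ A * nsq p := mul_nonneg hA hP0
        have e2 : 0 ≤ A * nsq s := mul_nonneg hA hS0
        have e3 : 0 ≤ A * (j : ℝ) ^ 2 := mul_nonneg hA (sq_nonneg _)
        have e4 : 0 ≤ A * nsq p * (j : ℝ) ^ 2 := mul_nonneg e1 (sq_nonneg _)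
        have e5 : 0 ≤ A * nsq p * nsq s := mul_nonneg e1 hS0
        nlinarith

end B6_

open B6_ in
theorem gy_small {D : Dat c} {Φ : VN c → VN c → ℂ} {C C' : (Fin (2 * c + 1) → ℤ) → ℂ} (hK : Ker D Φ C C') (hI : INT D.d D.g D.L C')
    {b : VN c →ₗ[ℝ] (Fin (2 * c + 1) → ℝ)} {Y : VN c →ₗ[ℝ] ℝ} (hd : Dec D D.L b Y) {μ : ℂ} (hμ : Mu D C μ) (κ m : ℤ) (p : VN c)
    {ε : ℝ} (hε : 0 < ε) (hε' : ε ≤ 1 / 20) :
    ∃ K T1 : ℝ, 1 ≤ K ∧ ∀ T : ℕ, T1 ≤ (T : ℝ) → ∀ k : ℝ, (T : ℝ) ^ (1 / 2 + ε) ≤ k → k ≤ (T : ℝ) ^ ((c : ℝ) + 1 - ε) →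
      ∀ (j : ℕ) (y : Fin j → ℂ), (∀ i, ‖y i‖ ≤ 1) →
        (∀ w : List (Fin (2 * c + 1)), w.length < T → ‖pdl w (gy D Φ μ κ m p y) 0‖ ≤ Real.exp (-((T : ℝ) ^ ε * k ^ 2))) →
          ∀ s, |Y s| ≤ k / K → ‖gy D Φ μ κ m p y s‖ ≤ Real.exp (K * (1 + nsq s) + K * (1 + (j : ℝ) ^ 2) - k ^ 2 / K) := by
  obtain ⟨A1, hA1, hF⟩ := gy_bound hK hμ κ m p
  obtain ⟨A2, hA2, hext⟩ := extend_bound D D.L hd hK.muls
  set G : ℝ := ∑ j, (D.g j : ℝ) ^ 2 with hG
  have hG0 : 0 ≤ G := Finset.sum_nonneg fun _ _ => by positivity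
  set N : ℝ := (((2 * c + 1 : ℕ) : ℝ) * (D.d : ℝ) ^ 2) with hN
  have hN0 : 0 ≤ N := by positivity
  obtain ⟨C0, T0, hC0, hint⟩ := hI ε (A1 * (1 + N + G)) hε hε' (by positivity)
  have hC0p : 0 < C0 := by linarith
  set K : ℝ := max C0 (max A1 A2) with hKdef
  have hKC : C0 ≤ K := le_max_left _ _
  have hK1 : 1 ≤ K := hC0.trans hKC
  have hKA1 : A1 ≤ K := le_trans (le_max_left _ _) (le_max_right _ _)
  have hKA2 : A2 ≤ K := le_trans (le_max_right _ _) (le_max_right _ _)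
  have hKp : 0 < K := by linarith
  refine ⟨K, max T0 1, hK1, ?_⟩
  intro T hT k hk1 hk2 j y hy hder0 s hs
  have hTT0 : T0 ≤ (T : ℝ) := le_trans (le_max_left _ _) hT
  have hTpos : (0 : ℝ) < (T : ℝ) := by linarith [le_trans (le_max_right T0 1) hT]
  have hk0 : 0 ≤ k := le_trans (Real.rpow_nonneg hTpos.le _) hk1
  have hj2 : 0 ≤ (j : ℝ) ^ 2 := sq_nonneg _
  set W : ℝ := 1 + (j : ℝ) ^ 2 with hW
  have hW0 : 0 ≤ W := by positivity
  set t : ℝ := Real.exp (-(A1 * W)) with ht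
  have ht0 : 0 < t := Real.exp_pos _
  have ht1 : t ≤ 1 := by
    rw [ht]
    exact Real.exp_le_one_iff.2 (by nlinarith)
  have htn : ‖(t : ℂ)‖ = t := by rw [Complex.norm_real, Real.norm_of_nonneg ht0.le]
  have hsec := gy_sec hK hμ κ m p (fun i => (t : ℂ) * y i)
  have hfun : gy D Φ μ κ m p (fun i => (t : ℂ) * y i) = fun s => (t : ℂ) * gy D Φ μ κ m p y s := by
    funext s
    exact gy_scale D Φ μ κ m p y _ s
  have hgrow : ∀ (b' : Fin (2 * c + 1) → ℝ) (x : ℝ), (∀ j, 0 ≤ b' j ∧ b' j ≤ D.d) → |x| ≤ k →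
      ‖gy D Φ μ κ m p (fun i => (t : ℂ) * y i) (pt D.g b' x)‖ ≤ Real.exp (A1 * (1 + N + G) * (1 + x ^ 2)) := by
    intro b' x hb' _
    rw [gy_scale, norm_mul, htn]
    have h1 := hF j y hy (pt D.g b' x)
    have h2 := nsq_pt_le D.g D.d b' hb' x
    calc t * ‖gy D Φ μ κ m p y (pt D.g b' x)‖ ≤ t * Real.exp (A1 * W + A1 * (1 + nsq (pt D.g b' x))) :=
          mul_le_mul_of_nonneg_left h1 ht0.le
      _ = Real.exp (A1 * (1 + nsq (pt D.g b' x))) := by
          rw [ht, ← Real.exp_add]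
          congr 1
          ring
      _ ≤ Real.exp (A1 * (1 + N + G) * (1 + x ^ 2)) := by
          apply Real.exp_le_exp.2
          rw [mul_assoc]
          apply mul_le_mul_of_nonneg_left _ hA1
          have h3 : nsq (pt D.g b' x) ≤ N + G * x ^ 2 := h2
          nlinarith [sq_nonneg x, mul_nonneg hN0 (sq_nonneg x)]
  have hder : ∀ w : List (Fin (2 * c + 1)), w.length < T →
      ‖pdl w (gy D Φ μ κ m p (fun i => (t : ℂ) * y i)) 0‖ ≤ Real.exp (-((T : ℝ) ^ ε * k ^ 2)) := by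
    intro w hw
    rw [hfun, pdl_smul (gy_sec hK hμ κ m p y).diff, norm_mul, htn]
    calc t * ‖pdl w (gy D Φ μ κ m p y) 0‖ ≤ 1 * ‖pdl w (gy D Φ μ κ m p y) 0‖ := mul_le_mul_of_nonneg_right ht1 (norm_nonneg _)
      _ = ‖pdl w (gy D Φ μ κ m p y) 0‖ := one_mul _
      _ ≤ _ := hder0 w hw
  have hsmall := hint T hTT0 k hk1 hk2 _ hsec hgrow hder
  have hs' : ∀ (b' : Fin (2 * c + 1) → ℝ) (x : ℝ), (∀ j, 0 ≤ b' j ∧ b' j ≤ D.d) → |x| ≤ k / C0 →
      ‖gy D Φ μ κ m p y (pt D.g b' x)‖ ≤ Real.exp (A1 * W - k ^ 2 / C0) := by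
    intro b' x hb' hx
    have h1 := hsmall b' x hb' hx
    rw [gy_scale, norm_mul, htn] at h1
    have h2 : ‖gy D Φ μ κ m p y (pt D.g b' x)‖ = Real.exp (A1 * W) * (t * ‖gy D Φ μ κ m p y (pt D.g b' x)‖) := by
      rw [ht, ← mul_assoc, ← Real.exp_add]
      simp
    rw [h2]
    calc Real.exp (A1 * W) * (t * ‖gy D Φ μ κ m p y (pt D.g b' x)‖) ≤ Real.exp (A1 * W) * Real.exp (-(k ^ 2 / C0)) :=
          mul_le_mul_of_nonneg_left h1 (Real.exp_pos _).le
      _ = Real.exp (A1 * W - k ^ 2 / C0) := by rw [← Real.exp_add]; rfl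
  have hfin := hext (gy D Φ μ κ m p y) (gy_sec hK hμ κ m p y) (Real.exp (A1 * W - k ^ 2 / C0)) (k / C0) (Real.exp_pos _).le hs' s
    (le_trans hs (div_le_div_of_nonneg_left hk0 hC0p hKC))
  refine le_trans hfin ?_
  rw [← Real.exp_add]
  apply Real.exp_le_exp.2
  have h1 : k ^ 2 / K ≤ k ^ 2 / C0 := div_le_div_of_nonneg_left (sq_nonneg k) hC0p hKC
  have h2 : A2 * (1 + nsq s) ≤ K * (1 + nsq s) := mul_le_mul_of_nonneg_right hKA2 (by linarith [nsq_nonneg s])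
  have h3 : A1 * W ≤ K * W := mul_le_mul_of_nonneg_right hKA1 hW0
  linarith

end Pool.Agent.LT
end

end
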