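import Mathlib
import Pool.Agent.Lib.MP_f58a57_nt.LK.K012
import Pool.Agent.Lib.MP_f58a57_nt.LK.K017

namespace Pool.Agent.LT.B5_
end Pool.Agent.LT.B5_
namespace Pool.Agent.MSD
end Pool.Agent.MSD

section

/-! # A1: lengths of integer polynomials (MP_f58a57_nt, pairs) -/

open Complex Filter Topology

noncomputable section

namespace Pool.Agent.MSP

/-! ## one variable -/

theorem a1_len_eq (p : Polynomial ℤ) (s : Finset ℕ) (h : p.support ⊆ s) :
    len p = ∑ i ∈ s, |((p.coeff i : ℤ) : ℝ)| := by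
  unfold len
  refine Finset.sum_subset h fun i _ hi => ?_
  rw [Polynomial.notMem_support_iff.1 hi]
  simp

theorem len_nonneg (p : Polynomial ℤ) : 0 ≤ len p :=
  Finset.sum_nonneg fun _ _ => abs_nonneg _

theorem len_zero : len 0 = 0 := by
  simp [len]

theorem a1_len_monomial (n : ℕ) (a : ℤ) : len (Polynomial.monomial n a) = |(a : ℝ)| := by
  rw [a1_len_eq _ {n} (Polynomial.support_monomial_subset n a), Finset.sum_singleton, Polynomial.coeff_monomial_same]

theorem len_C (a : ℤ) : len (Polynomial.C a) = |(a : ℝ)| := by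
  rw [← Polynomial.monomial_zero_left, a1_len_monomial]

theorem abs_coeff_le_len (p : Polynomial ℤ) (i : ℕ) : |((p.coeff i : ℤ) : ℝ)| ≤ len p := by
  by_cases hi : i ∈ p.support
  · exact Finset.single_le_sum (f := fun i => |((p.coeff i : ℤ) : ℝ)|) (fun _ _ => abs_nonneg _) hi
  · rw [Polynomial.notMem_support_iff.1 hi]
    simpa using len_nonneg p

theorem one_le_len (p : Polynomial ℤ) (hp : p ≠ 0) : 1 ≤ len p := by
  refine le_trans ?_ (abs_coeff_le_len p p.natDegree)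
  have h : p.coeff p.natDegree ≠ 0 := by
    rw [Polynomial.coeff_natDegree]
    exact Polynomial.leadingCoeff_ne_zero.2 hp
  have h2 : 1 ≤ |p.coeff p.natDegree| := Int.one_le_abs h
  exact_mod_cast h2

theorem len_neg (p : Polynomial ℤ) : len (-p) = len p := by
  simp [len]

theorem len_add (p q : Polynomial ℤ) : len (p + q) ≤ len p + len q := by
  rw [a1_len_eq (p + q) (p.support ∪ q.support) Polynomial.support_add,
    a1_len_eq p (p.support ∪ q.support) Finset.subset_union_left,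
    a1_len_eq q (p.support ∪ q.support) Finset.subset_union_right, ← Finset.sum_add_distrib]
  refine Finset.sum_le_sum fun i _ => ?_
  rw [Polynomial.coeff_add]
  push_cast
  exact abs_add_le _ _

theorem len_sum {ι : Type*} (s : Finset ι) (p : ι → Polynomial ℤ) : len (∑ i ∈ s, p i) ≤ ∑ i ∈ s, len (p i) := by
  classical
  induction s using Finset.induction_on with
  | empty => simp [len_zero]
  | insert a s ha ih =>
    rw [Finset.sum_insert ha, Finset.sum_insert ha]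
    exact (len_add _ _).trans (by linarith)

theorem len_mul (p q : Polynomial ℤ) : len (p * q) ≤ len p * len q := by
  rw [Polynomial.mul_eq_sum_sum]
  refine (len_sum _ _).trans ?_
  have h : len p * len q = ∑ i ∈ p.support, |((p.coeff i : ℤ) : ℝ)| * len q := by
    rw [← Finset.sum_mul]
    rfl
  rw [h]
  refine Finset.sum_le_sum fun i _ => ?_
  rw [Polynomial.sum]
  refine (len_sum _ _).trans ?_
  have h2 : |((p.coeff i : ℤ) : ℝ)| * len q = ∑ j ∈ q.support, |((p.coeff i : ℤ) : ℝ)| * |((q.coeff j : ℤ) : ℝ)| := by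
    rw [← Finset.mul_sum]
    rfl
  rw [h2]
  refine Finset.sum_le_sum fun j _ => ?_
  rw [a1_len_monomial]
  push_cast
  rw [abs_mul]

theorem len_prod {ι : Type*} (s : Finset ι) (p : ι → Polynomial ℤ) : len (∏ i ∈ s, p i) ≤ ∏ i ∈ s, len (p i) := by
  classical
  induction s using Finset.induction_on with
  | empty =>
    rw [Finset.prod_empty, Finset.prod_empty, ← Polynomial.C_1, len_C]
    simp
  | insert a s ha ih =>
    rw [Finset.prod_insert ha, Finset.prod_insert ha]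
    exact (len_mul _ _).trans (mul_le_mul_of_nonneg_left ih (len_nonneg _))

/-- if all coefficients are at most `B` in absolute value -/
theorem len_le_of_coeff (p : Polynomial ℤ) (B : ℝ) (h : ∀ i, |((p.coeff i : ℤ) : ℝ)| ≤ B) :
    len p ≤ (p.natDegree + 1) * B := by
  rw [a1_len_eq p (Finset.range (p.natDegree + 1)) Polynomial.supp_subset_range_natDegree_succ]
  refine (Finset.sum_le_card_nsmul _ _ B fun i _ => h i).trans ?_
  rw [Finset.card_range, nsmul_eq_mul]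
  push_cast
  exact le_refl _

theorem norm_aeval_le (ϑ : ℂ) (p : Polynomial ℤ) : ‖Polynomial.aeval ϑ p‖ ≤ len p * (max 1 ‖ϑ‖) ^ p.natDegree := by
  rw [Polynomial.aeval_def, Polynomial.eval₂_eq_sum, Polynomial.sum]
  refine (norm_sum_le _ _).trans ?_
  unfold len
  rw [Finset.sum_mul]
  refine Finset.sum_le_sum fun i hi => ?_
  rw [norm_mul, norm_pow]
  have h1 : ‖(algebraMap ℤ ℂ) (p.coeff i)‖ = |((p.coeff i : ℤ) : ℝ)| := by
    simp
  rw [h1]
  refine mul_le_mul_of_nonneg_left ?_ (abs_nonneg _)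
  calc ‖ϑ‖ ^ i ≤ (max 1 ‖ϑ‖) ^ i := pow_le_pow_left₀ (norm_nonneg _) (le_max_right _ _) i
    _ ≤ (max 1 ‖ϑ‖) ^ p.natDegree := pow_le_pow_right₀ (le_max_left _ _) (Polynomial.le_natDegree_of_mem_supp i hi)

/-- PROOF. Leibniz formula: `N!` products of `N` entries. -/
theorem det_bounds {N : ℕ} (M : Matrix (Fin N) (Fin N) (Polynomial ℤ)) (e : ℕ) (B : ℝ)
    (hd : ∀ i j, (M i j).natDegree ≤ e) (hB : ∀ i j, len (M i j) ≤ B) :
    (M.det).natDegree ≤ N * e ∧ len M.det ≤ (N.factorial : ℝ) * B ^ N := by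
  have hsgn : ∀ (σ : Equiv.Perm (Fin N)) (q : Polynomial ℤ), Equiv.Perm.sign σ • q = q ∨
      Equiv.Perm.sign σ • q = -q := by
    intro σ q
    rcases Int.units_eq_one_or (Equiv.Perm.sign σ) with h | h
    · left; rw [h, one_smul]
    · right; rw [h]; simp
  constructor
  · rw [Matrix.det_apply]
    refine Polynomial.natDegree_sum_le_of_forall_le _ _ fun σ _ => ?_
    have h1 : (∏ i, M (σ i) i).natDegree ≤ N * e := by
      refine (Polynomial.natDegree_prod_le _ _).trans ?_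
      refine (Finset.sum_le_card_nsmul _ _ e fun i _ => hd _ _).trans ?_
      simp
    rcases hsgn σ (∏ i, M (σ i) i) with h | h
    · rw [h]; exact h1
    · rw [h, Polynomial.natDegree_neg]; exact h1
  · rw [Matrix.det_apply]
    refine (len_sum _ _).trans ?_
    have h1 : ∀ σ ∈ (Finset.univ : Finset (Equiv.Perm (Fin N))),
        len (Equiv.Perm.sign σ • ∏ i, M (σ i) i) ≤ B ^ N := by
      intro σ _
      have h2 : len (Equiv.Perm.sign σ • ∏ i, M (σ i) i) = len (∏ i, M (σ i) i) := by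
        rcases hsgn σ (∏ i, M (σ i) i) with h | h
        · rw [h]
        · rw [h, len_neg]
      rw [h2]
      refine (len_prod _ _).trans ?_
      calc ∏ i : Fin N, len (M (σ i) i) ≤ ∏ _i : Fin N, B :=
            Finset.prod_le_prod (fun i _ => len_nonneg _) fun i _ => hB _ _
        _ = B ^ N := by simp
    refine (Finset.sum_le_card_nsmul _ _ _ h1).trans ?_
    rw [Finset.card_univ, Fintype.card_perm, Fintype.card_fin, nsmul_eq_mul]

/-! ## several variables -/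

variable {σ : Type*}

theorem a1_mlen_eq (p : MvPolynomial σ ℤ) (s : Finset (σ →₀ ℕ)) (h : p.support ⊆ s) :
    mlen p = ∑ m ∈ s, |((p.coeff m : ℤ) : ℝ)| := by
  unfold mlen
  refine Finset.sum_subset h fun i _ hi => ?_
  rw [MvPolynomial.notMem_support_iff.1 hi]
  simp

theorem mlen_nonneg (p : MvPolynomial σ ℤ) : 0 ≤ mlen p :=
  Finset.sum_nonneg fun _ _ => abs_nonneg _

theorem mlen_zero : mlen (0 : MvPolynomial σ ℤ) = 0 := by
  simp [mlen]

theorem mlen_monomial (m : σ →₀ ℕ) (a : ℤ) : mlen (MvPolynomial.monomial m a) = |(a : ℝ)| := by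
  classical
  rw [a1_mlen_eq _ {m} MvPolynomial.support_monomial_subset, Finset.sum_singleton, MvPolynomial.coeff_monomial,
    if_pos rfl]

theorem mlen_C (a : ℤ) : mlen (MvPolynomial.C a : MvPolynomial σ ℤ) = |(a : ℝ)| := by
  rw [← MvPolynomial.monomial_zero', mlen_monomial]

theorem mlen_add (p q : MvPolynomial σ ℤ) : mlen (p + q) ≤ mlen p + mlen q := by
  classical
  rw [a1_mlen_eq (p + q) (p.support ∪ q.support) MvPolynomial.support_add,
    a1_mlen_eq p (p.support ∪ q.support) Finset.subset_union_left,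
    a1_mlen_eq q (p.support ∪ q.support) Finset.subset_union_right, ← Finset.sum_add_distrib]
  refine Finset.sum_le_sum fun i _ => ?_
  rw [MvPolynomial.coeff_add]
  push_cast
  exact abs_add_le _ _

theorem mlen_sum {ι : Type*} (s : Finset ι) (p : ι → MvPolynomial σ ℤ) :
    mlen (∑ i ∈ s, p i) ≤ ∑ i ∈ s, mlen (p i) := by
  classical
  induction s using Finset.induction_on with
  | empty => simp [mlen_zero]
  | insert a s ha ih =>
    rw [Finset.sum_insert ha, Finset.sum_insert ha]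
    exact (mlen_add _ _).trans (by linarith)

theorem mlen_mul (p q : MvPolynomial σ ℤ) : mlen (p * q) ≤ mlen p * mlen q := by
  have e : p * q = ∑ m ∈ p.support, ∑ n ∈ q.support, MvPolynomial.monomial (m + n) (p.coeff m * q.coeff n) := by
    conv_lhs => rw [p.as_sum, q.as_sum, Finset.sum_mul_sum]
    refine Finset.sum_congr rfl fun m _ => Finset.sum_congr rfl fun n _ => ?_
    rw [MvPolynomial.monomial_mul]
  rw [e]
  refine (mlen_sum _ _).trans ?_
  have h : mlen p * mlen q = ∑ i ∈ p.support, ∑ j ∈ q.support, |((p.coeff i : ℤ) : ℝ)| * |((q.coeff j : ℤ) : ℝ)| := by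
    unfold mlen
    rw [Finset.sum_mul_sum]
  rw [h]
  refine Finset.sum_le_sum fun i _ => ?_
  refine (mlen_sum _ _).trans ?_
  refine Finset.sum_le_sum fun j _ => ?_
  rw [mlen_monomial]
  push_cast
  rw [abs_mul]

end Pool.Agent.MSP
end

end

section

/-!
# MP_f58a57_nt, large transcendence degree: the assembly (E.4)
-/

open Complex MvPolynomial Matrix Filter

noncomputable section

namespace Pool.Agent.LT.ZA

open Pool.Agent.MSD (jj)

/-- the number of words -/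
theorem card_Wd (n T : ℕ) : (Fintype.card (Wd n T) : ℝ) ≤ Real.exp (((n : ℝ) + 1) * T) := by
  have h1 : Fintype.card (Wd n T) = ∑ d : Fin T, n ^ (d : ℕ) := by
    simp [Wd, Fintype.card_sigma]
  rw [h1]
  push_cast
  have h2 : ∀ d : Fin T, (n : ℝ) ^ (d : ℕ) ≤ Real.exp ((n : ℝ) * T) := by
    intro d
    calc (n : ℝ) ^ (d : ℕ) ≤ (Real.exp n) ^ (d : ℕ) := by
          gcongr
          linarith [Real.add_one_le_exp (n : ℝ)]
      _ = Real.exp (d * n) := by rw [← Real.exp_nat_mul]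
      _ ≤ Real.exp ((n : ℝ) * T) := by
          apply Real.exp_le_exp.mpr
          have : ((d : ℕ) : ℝ) ≤ T := by exact_mod_cast d.2.le
          nlinarith [Nat.cast_nonneg (α := ℝ) n]
  calc ∑ d : Fin T, (n : ℝ) ^ (d : ℕ) ≤ ∑ _d : Fin T, Real.exp ((n : ℝ) * T) := Finset.sum_le_sum fun d _ => h2 d
    _ = T * Real.exp ((n : ℝ) * T) := by simp
    _ ≤ Real.exp T * Real.exp ((n : ℝ) * T) := by
        gcongr
        linarith [Real.add_one_le_exp (T : ℝ)]
    _ = Real.exp (((n : ℝ) + 1) * T) := by rw [← Real.exp_add]; ring_nf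

theorem ev_log (A : ℝ) {ε : ℝ} (hε : 0 < ε) : ∀ᶠ x : ℝ in atTop, A * Real.log x ≤ x ^ ε := by
  have h := (isLittleO_log_rpow_atTop hε).const_mul_left A
  filter_upwards [h.bound one_pos, eventually_ge_atTop (1 : ℝ)] with x hx h1
  rw [Real.norm_eq_abs, Real.norm_eq_abs, one_mul, abs_of_nonneg (Real.rpow_nonneg (by linarith) _)] at hx
  exact (le_abs_self _).trans hx

theorem ev_const (A : ℝ) {ε : ℝ} (hε : 0 < ε) : ∀ᶠ x : ℝ in atTop, A ≤ x ^ ε :=
  (tendsto_rpow_atTop hε).eventually_ge_atTop A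

/-- all the inequalities needed for large `T` -/
structure Big (c : ℕ) (ε q A : ℝ) (x : ℝ) : Prop where
  one : 1 ≤ x
  e1 : A * x * Real.log x ≤ (q * x) ^ (1 + ε)
  e2 : A * x ≤ (q * x) ^ (1 + ε)
  e3 : ∀ j : ℝ, 1 ≤ j → j ≤ RR (2 * c) ε (q * x) → Real.log j + A * x + A * x * Real.log x ≤ (q * x) ^ (1 + ε)
  e4 : RR (2 * c) ε (q * x) ≤ x ^ ((c : ℝ) + 1 - 4 * (ε / 12))
  e5 : ∀ j : ℝ, 0 ≤ j → x ^ (6 * (ε / 12)) * (j + x) + A * x ≤ (q * x) ^ ε * (j + q * x)

theorem big (c : ℕ) {ε q A : ℝ} (hε : 0 < ε) (hc : ε * (200 * ((c : ℝ) + 1)) ≤ 1) (hq : 1 ≤ q) (hA : 0 ≤ A) :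
    ∀ᶠ x : ℝ in atTop, Big c ε q A x := by
  have _ := hA
  have hc0 : (0 : ℝ) ≤ c := Nat.cast_nonneg c
  set e : ℝ := ((2 * c : ℕ) + 1 : ℝ) / 2 + 10 * ((2 * c : ℕ) + 2 : ℝ) * ε with he
  have he' : e = (c : ℝ) + 1 / 2 + 20 * ((c : ℝ) + 1) * ε := by rw [he]; push_cast; ring
  have he1 : e ≤ (c : ℝ) + 1 / 2 + 1 / 10 := by rw [he']; nlinarith
  have he0 : 0 ≤ e := by rw [he']; positivity
  have hεs : ε ≤ 1 / 200 := by nlinarith
  have hgap : 0 < ((c : ℝ) + 1 - 4 * (ε / 12)) - e := by linarith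
  filter_upwards [eventually_ge_atTop (1 : ℝ), ev_log (8 * A) hε, ev_log (8 * e) (show (0 : ℝ) < 1 + ε by linarith),
    ev_const (8 * A) hε, ev_const (8 * e * Real.log q) hε, ev_const (q ^ e) hgap, ev_const 2 (show (0 : ℝ) < ε / 2 by linarith)] with
    x h1 hl1 hl2 hc1 hc2 hc3 hc4
  have hx0 : 0 < x := by linarith
  have hqx : x ≤ q * x := by nlinarith
  have hq0 : 0 < q := by linarith
  have hlog : 0 ≤ Real.log x := Real.log_nonneg h1
  have hxe : x ^ (1 + ε) = x * x ^ ε := by rw [Real.rpow_add hx0, Real.rpow_one]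
  have hbig : x ^ (1 + ε) ≤ (q * x) ^ (1 + ε) := Real.rpow_le_rpow hx0.le hqx (by linarith)
  have hxe1 : x ≤ x ^ (1 + ε) := by
    rw [hxe]
    have : 1 ≤ x ^ ε := Real.one_le_rpow h1 hε.le
    nlinarith
  have hA1 : A * x * Real.log x ≤ x ^ (1 + ε) / 8 := by
    rw [hxe]; nlinarith
  have hA2 : A * x ≤ x ^ (1 + ε) / 8 := by
    rw [hxe]; nlinarith
  have hp : 0 < x ^ (1 + ε) := Real.rpow_pos_of_pos hx0 _
  refine ⟨h1, by linarith, by linarith, ?_, ?_, ?_⟩
  · intro j hj hjR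
    have hRR : RR (2 * c) ε (q * x) = (q * x) ^ e := by rw [RR, he]
    rw [hRR] at hjR
    have h3 : Real.log j ≤ e * (Real.log q + Real.log x) := by
      calc Real.log j ≤ Real.log ((q * x) ^ e) := Real.log_le_log (by linarith) hjR
        _ = e * Real.log (q * x) := Real.log_rpow (by positivity) _
        _ = e * (Real.log q + Real.log x) := by rw [Real.log_mul hq0.ne' hx0.ne']
    have h4 : e * Real.log x ≤ x ^ (1 + ε) / 8 := by linarith
    have h5 : e * Real.log q ≤ x ^ (1 + ε) / 8 := by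
      have h6 : x ^ ε ≤ x ^ (1 + ε) := Real.rpow_le_rpow_of_exponent_le h1 (by linarith)
      linarith
    nlinarith
  · have hRR : RR (2 * c) ε (q * x) = (q * x) ^ e := by rw [RR, he]
    rw [hRR, Real.mul_rpow hq0.le hx0.le]
    calc q ^ e * x ^ e ≤ x ^ (((c : ℝ) + 1 - 4 * (ε / 12)) - e) * x ^ e := by gcongr
      _ = x ^ ((c : ℝ) + 1 - 4 * (ε / 12)) := by rw [← Real.rpow_add hx0]; ring_nf
  · intro j hj
    have h7 : x ^ (6 * (ε / 12)) = x ^ (ε / 2) := by ring_nf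
    have h8 : x ^ ε = x ^ (ε / 2) * x ^ (ε / 2) := by rw [← Real.rpow_add hx0]; ring_nf
    have h9 : x ^ ε ≤ (q * x) ^ ε := Real.rpow_le_rpow hx0.le hqx hε.le
    have h10 : 0 < x ^ (ε / 2) := Real.rpow_pos_of_pos hx0 _
    have h11 : x ^ (ε / 2) ≤ x ^ ε / 2 := by rw [h8]; nlinarith
    rw [h7]
    have hp' : 0 < x ^ ε := Real.rpow_pos_of_pos hx0 _
    have hjx : 0 ≤ j + x := by linarith
    have h12 : A * x ≤ x ^ ε / 8 * x := mul_le_mul_of_nonneg_right (by linarith) hx0.le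
    have h13 : x ^ ε / 8 * x ≤ x ^ ε / 8 * (j + x) := mul_le_mul_of_nonneg_left (by linarith) (by linarith)
    have h14 : x ^ (ε / 2) * (j + x) ≤ x ^ ε / 2 * (j + x) := mul_le_mul_of_nonneg_right h11 hjx
    have h15 : 0 ≤ x ^ ε * (j + x) := mul_nonneg hp'.le hjx
    have h16 : x ^ ε * (j + x) ≤ (q * x) ^ ε * (j + q * x) :=
      mul_le_mul h9 (by linarith) hjx (hp'.le.trans h9)
    linarith


/-- the hypotheses of the criterion hold for the matrices of part E -/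
theorem badMat {n : ℕ} (c : ℕ) {Φ : (Fin n → ℂ) → (Fin n → ℂ) → ℂ} {m : ℕ} (θ : Fin m → ℂ) {lam : ℂ} (hlam : lam ≠ 0)
    {ε q A c0 CE C : ℝ} {qn T Tn : ℕ} (hqn : (qn : ℝ) = q) (hTn : Tn = qn * T)
    (hbig : Big c ε q A T) (hn : (n : ℝ) + 1 ≤ q) (hCE : CE ≤ q) (hCEA : CE ≤ A)
    (hA1 : 2 * |Real.log ‖lam‖| ≤ A) (hCA : C ≤ A)
    (P : Matrix (Wd n T) (Wd n T) (MvPolynomial (Fin m) ℤ))
    (hdeg : ∀ w w', ((P w w').totalDegree : ℝ) ≤ CE * T) (hlen : ∀ w w', len (P w w') ≤ Real.exp (CE * T * Real.log T))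
    (hval : ∀ w w', MvPolynomial.aeval θ (P w w') = lam ^ ((w.1 : ℕ) + (w'.1 : ℕ)) * mix Φ w.l w'.l)
    (hU : ∀ j : ℕ, ∀ r s : Fin j → Wd n T, ∃ E : Matrix (Fin j) (Fin j) ℂ,
      1 ≤ ‖E.det‖ ∧ (∀ i l, ‖E i l‖ ≤ 1) ∧ ∀ i l, ‖((BM Φ T).submatrix r s * E) i l‖ ≤ j * Real.exp (-c0 * ((l : ℕ) + 1 : ℝ) ^ 2 + C * T * Real.log T))
    (hL : ∀ j : ℕ, 1 ≤ j → (j : ℝ) ≤ (T : ℝ) ^ ((c : ℝ) + 1 - 4 * (ε / 12)) →
      ∃ (U : Matrix (Fin j) (Wd n T) ℂ) (V : Matrix (Wd n T) (Fin j) ℂ),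
        (∀ i a, ‖U i a‖ ≤ Real.exp ((T : ℝ) ^ (6 * (ε / 12)) * ((j : ℝ) ^ 2 + T))) ∧
          (∀ b i, ‖V b i‖ ≤ Real.exp ((T : ℝ) ^ (6 * (ε / 12)) * ((j : ℝ) ^ 2 + T))) ∧ U * BM Φ T * V = 1) :
    BadMat (2 * c) θ ε c0 Tn P := by
  have hTnr : (Tn : ℝ) = q * T := by rw [hTn]; push_cast; rw [hqn]
  have hT1 : (1 : ℝ) ≤ T := hbig.one
  have hT0 : (0 : ℝ) < T := by linarith
  have hlogT : 0 ≤ Real.log T := Real.log_nonneg hT1
  set a : ℝ := |Real.log ‖lam‖| with ha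
  have ha0 : 0 ≤ a := abs_nonneg _
  have hlp : 0 < ‖lam‖ := norm_pos_iff.mpr hlam
  -- powers of lam
  have hpow : ∀ d : ℕ, d ≤ T → ‖lam‖ ^ d ≤ Real.exp (a * T) := by
    intro d hd
    have h1 : ‖lam‖ ^ d = Real.exp (d * Real.log ‖lam‖) := by
      rw [Real.exp_nat_mul, Real.exp_log hlp]
    rw [h1]
    apply Real.exp_le_exp.mpr
    have h2 : (d : ℝ) ≤ T := by exact_mod_cast hd
    calc (d : ℝ) * Real.log ‖lam‖ ≤ d * a := mul_le_mul_of_nonneg_left (le_abs_self _) (Nat.cast_nonneg _)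
      _ ≤ T * a := mul_le_mul_of_nonneg_right h2 ha0
      _ = a * T := by ring
  have hpow' : ∀ d : ℕ, d ≤ T → (‖lam‖ ^ d)⁻¹ ≤ Real.exp (a * T) := by
    intro d hd
    have h1 : ‖lam‖ ^ d = Real.exp (d * Real.log ‖lam‖) := by
      rw [Real.exp_nat_mul, Real.exp_log hlp]
    rw [h1, ← Real.exp_neg]
    apply Real.exp_le_exp.mpr
    have h2 : (d : ℝ) ≤ T := by exact_mod_cast hd
    calc -((d : ℝ) * Real.log ‖lam‖) = d * (-Real.log ‖lam‖) := by ring
      _ ≤ d * a := mul_le_mul_of_nonneg_left (neg_le_abs _) (Nat.cast_nonneg _)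
      _ ≤ T * a := mul_le_mul_of_nonneg_right h2 ha0
      _ = a * T := by ring
  have hev : ∀ w w', evM θ P w w' = lam ^ (w.1 : ℕ) * BM Φ T w w' * lam ^ (w'.1 : ℕ) := by
    intro w w'
    rw [evM, Matrix.map_apply, hval, BM, pow_add]
    ring
  refine ⟨?_, ?_, ?_, ?_, ?_, ?_⟩
  · intro w w'
    have h1 := hdeg w w'
    have h2 : ((P w w').totalDegree : ℝ) ≤ Tn := by
      rw [hTnr]
      exact h1.trans (mul_le_mul_of_nonneg_right hCE hT0.le)
    exact_mod_cast h2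
  · intro w w'
    refine (hlen w w').trans (Real.exp_le_exp.mpr ?_)
    rw [hTnr]
    refine le_trans ?_ hbig.e1
    apply mul_le_mul_of_nonneg_right _ hlogT
    exact mul_le_mul_of_nonneg_right hCEA hT0.le
  · rw [hTnr]
    exact (card_Wd n T).trans (Real.exp_le_exp.mpr (mul_le_mul_of_nonneg_right hn hT0.le))
  · rw [hTnr]
    exact (card_Wd n T).trans (Real.exp_le_exp.mpr (mul_le_mul_of_nonneg_right hn hT0.le))
  · intro j hj1 hjR r s
    obtain ⟨E, hE1, hE2, hE3⟩ := hU j r s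
    have hj1' : (1 : ℝ) ≤ j := by exact_mod_cast hj1
    rw [hTnr] at hjR ⊢
    set mu : ℂ := ((Real.exp (a * T) : ℝ) : ℂ) with hmu
    have hmun : ‖mu‖ = Real.exp (a * T) := by
      rw [hmu, Complex.norm_real, Real.norm_eq_abs, abs_of_pos (Real.exp_pos _)]
    set Dg : Matrix (Fin j) (Fin j) ℂ := Matrix.diagonal (fun i => mu * (lam ^ ((s i).1 : ℕ))⁻¹) with hDg
    have hsd : ∀ i : Fin j, (((s i).1 : Fin T) : ℕ) ≤ T := fun i => (s i).1.2.le
    have hrd : ∀ i : Fin j, (((r i).1 : Fin T) : ℕ) ≤ T := fun i => (r i).1.2.le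
    have hDn : ∀ i, 1 ≤ ‖mu * (lam ^ ((s i).1 : ℕ))⁻¹‖ := by
      intro i
      rw [norm_mul, norm_inv, norm_pow, hmun, ← div_eq_mul_inv, one_le_div (pow_pos hlp _)]
      exact hpow _ (hsd i)
    have hDn2 : ∀ i, ‖mu * (lam ^ ((s i).1 : ℕ))⁻¹‖ ≤ Real.exp (A * T) := by
      intro i
      rw [norm_mul, norm_inv, norm_pow, hmun]
      calc Real.exp (a * T) * (‖lam‖ ^ ((s i).1 : ℕ))⁻¹ ≤ Real.exp (a * T) * Real.exp (a * T) :=
            mul_le_mul_of_nonneg_left (hpow' _ (hsd i)) (Real.exp_pos _).le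
        _ = Real.exp (2 * a * T) := by rw [← Real.exp_add]; ring_nf
        _ ≤ Real.exp (A * T) := Real.exp_le_exp.mpr (mul_le_mul_of_nonneg_right hA1 hT0.le)
    refine ⟨Dg * E, ?_, ?_, ?_⟩
    · rw [Matrix.det_mul, norm_mul, hDg, Matrix.det_diagonal, norm_prod]
      have h1 : 1 ≤ ∏ i, ‖mu * (lam ^ ((s i).1 : ℕ))⁻¹‖ := by
        have := Finset.prod_le_prod (s := (Finset.univ : Finset (Fin j))) (f := fun _ => (1 : ℝ))
          (g := fun i => ‖mu * (lam ^ ((s i).1 : ℕ))⁻¹‖) (fun i _ => zero_le_one) (fun i _ => hDn i)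
        simpa using this
      nlinarith [norm_nonneg E.det]
    · intro i l
      rw [hDg, Matrix.diagonal_mul, norm_mul]
      calc ‖mu * (lam ^ ((s i).1 : ℕ))⁻¹‖ * ‖E i l‖ ≤ Real.exp (A * T) * 1 :=
            mul_le_mul (hDn2 i) (hE2 i l) (norm_nonneg _) (Real.exp_pos _).le
        _ ≤ Real.exp ((q * T) ^ (1 + ε)) := by
            rw [mul_one]
            exact Real.exp_le_exp.mpr hbig.e2
    · intro i l
      have h1 : (((evM θ P).submatrix r s) * (Dg * E)) i l = mu * lam ^ ((r i).1 : ℕ) * (((BM Φ T).submatrix r s * E) i l) := by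
        rw [Matrix.mul_apply, Matrix.mul_apply, Finset.mul_sum]
        apply Finset.sum_congr rfl
        intro t _
        rw [hDg, Matrix.diagonal_mul, Matrix.submatrix_apply, Matrix.submatrix_apply, hev]
        have : lam ^ ((s t).1 : ℕ) ≠ 0 := pow_ne_zero _ hlam
        field_simp
      rw [h1, norm_mul, norm_mul, norm_pow, hmun]
      have h2 := hE3 i l
      have h3 : Real.exp (a * T) * ‖lam‖ ^ ((r i).1 : ℕ) ≤ Real.exp (A * T) := by
        calc Real.exp (a * T) * ‖lam‖ ^ ((r i).1 : ℕ) ≤ Real.exp (a * T) * Real.exp (a * T) :=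
              mul_le_mul_of_nonneg_left (hpow _ (hrd i)) (Real.exp_pos _).le
          _ = Real.exp (2 * a * T) := by rw [← Real.exp_add]; ring_nf
          _ ≤ Real.exp (A * T) := Real.exp_le_exp.mpr (mul_le_mul_of_nonneg_right hA1 hT0.le)
      have h4 := hbig.e3 j hj1' hjR
      calc Real.exp (a * T) * ‖lam‖ ^ ((r i).1 : ℕ) * ‖((BM Φ T).submatrix r s * E) i l‖
          ≤ Real.exp (A * T) * (j * Real.exp (-c0 * ((l : ℕ) + 1 : ℝ) ^ 2 + C * T * Real.log T)) :=
            mul_le_mul h3 h2 (norm_nonneg _) (Real.exp_pos _).le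
        _ = Real.exp (A * T + Real.log j + (-c0 * ((l : ℕ) + 1 : ℝ) ^ 2 + C * T * Real.log T)) := by
            rw [Real.exp_add (A * T + Real.log j), Real.exp_add (A * T), Real.exp_log (show (0 : ℝ) < j by linarith)]
            ring
        _ ≤ Real.exp (-c0 * ((l : ℕ) + 1 : ℝ) ^ 2 + (q * T) ^ (1 + ε)) := by
            apply Real.exp_le_exp.mpr
            have h5 : C * T * Real.log T ≤ A * T * Real.log T :=
              mul_le_mul_of_nonneg_right (mul_le_mul_of_nonneg_right hCA hT0.le) hlogT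
            linarith
  · intro j hj1 hjR
    rw [hTnr] at hjR ⊢
    obtain ⟨U, V, hU1, hV1, hUV⟩ := hL j hj1 (hjR.trans hbig.e4)
    have h5 := hbig.e5 ((j : ℝ) ^ 2) (by positivity)
    have haA : a * T ≤ A * T := mul_le_mul_of_nonneg_right (by linarith) hT0.le
    refine ⟨U * Matrix.diagonal (fun w : Wd n T => (lam ^ (w.1 : ℕ))⁻¹), Matrix.diagonal (fun w : Wd n T => (lam ^ (w.1 : ℕ))⁻¹) * V, ?_, ?_, ?_⟩
    · intro i w
      rw [Matrix.mul_diagonal, norm_mul, norm_inv, norm_pow]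
      calc ‖U i w‖ * (‖lam‖ ^ (w.1 : ℕ))⁻¹ ≤ Real.exp ((T : ℝ) ^ (6 * (ε / 12)) * ((j : ℝ) ^ 2 + T)) * Real.exp (a * T) :=
            mul_le_mul (hU1 i w) (hpow' _ w.1.2.le) (by positivity) (Real.exp_pos _).le
        _ ≤ _ := by
            rw [← Real.exp_add]
            apply Real.exp_le_exp.mpr
            linarith
    · intro w i
      rw [Matrix.diagonal_mul, norm_mul, norm_inv, norm_pow, mul_comm]
      calc ‖V w i‖ * (‖lam‖ ^ (w.1 : ℕ))⁻¹ ≤ Real.exp ((T : ℝ) ^ (6 * (ε / 12)) * ((j : ℝ) ^ 2 + T)) * Real.exp (a * T) :=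
            mul_le_mul (hV1 w i) (hpow' _ w.1.2.le) (by positivity) (Real.exp_pos _).le
        _ ≤ _ := by
            rw [← Real.exp_add]
            apply Real.exp_le_exp.mpr
            linarith
    · have h6 : Matrix.diagonal (fun w : Wd n T => (lam ^ (w.1 : ℕ))⁻¹) * evM θ P * Matrix.diagonal (fun w : Wd n T => (lam ^ (w.1 : ℕ))⁻¹) = BM Φ T := by
        ext w w'
        rw [Matrix.mul_diagonal, Matrix.diagonal_mul, hev]
        have h7 : lam ^ (w.1 : ℕ) ≠ 0 := pow_ne_zero _ hlam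
        have h8 : lam ^ (w'.1 : ℕ) ≠ 0 := pow_ne_zero _ hlam
        field_simp
      calc U * Matrix.diagonal (fun w : Wd n T => (lam ^ (w.1 : ℕ))⁻¹) * evM θ P * (Matrix.diagonal (fun w : Wd n T => (lam ^ (w.1 : ℕ))⁻¹) * V)
          = U * (Matrix.diagonal (fun w : Wd n T => (lam ^ (w.1 : ℕ))⁻¹) * evM θ P * Matrix.diagonal (fun w : Wd n T => (lam ^ (w.1 : ℕ))⁻¹)) * V := by
            simp only [Matrix.mul_assoc]
        _ = 1 := by rw [h6, hUV]


/-- the analytic core: parts A, C, E give the lower bound for the transcendence degree of `θ` -/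
theorem core (hA : ThmA) {n : ℕ} (c : ℕ) {Φ : (Fin n → ℂ) → (Fin n → ℂ) → ℂ} (hL : LB c Φ) (hU : UB Φ) {m : ℕ} (θ : Fin m → ℂ)
    {lam : ℂ} (hlam : lam ≠ 0) (CE : ℝ)
    (hP : ∀ T : ℕ, 2 ≤ T → ∃ P : Matrix (Wd n T) (Wd n T) (MvPolynomial (Fin m) ℤ),
      (∀ w w', ((P w w').totalDegree : ℝ) ≤ CE * T) ∧ (∀ w w', len (P w w') ≤ Real.exp (CE * T * Real.log T)) ∧
        ∀ w w', MvPolynomial.aeval θ (P w w') = lam ^ ((w.1 : ℕ) + (w'.1 : ℕ)) * mix Φ w.l w'.l) :
    ((2 * c + 1 : ℕ) : Cardinal) ≤ Algebra.trdeg ℚ (Algebra.adjoin ℚ (Set.range θ)) := by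
  by_contra hcon
  have htr : Algebra.trdeg ℚ (Algebra.adjoin ℚ (Set.range θ)) ≤ ((2 * c : ℕ) : Cardinal) := by
    rw [not_le] at hcon
    have h1 : Algebra.trdeg ℚ (Algebra.adjoin ℚ (Set.range θ)) < Order.succ ((2 * c : ℕ) : Cardinal) := by
      refine lt_of_lt_of_le hcon ?_
      have h3 : Order.succ ((2 * c : ℕ) : Cardinal) = ((2 * c + 1 : ℕ) : Cardinal) := by
        rw [Cardinal.succ_natCast]; norm_cast
      rw [h3]
    exact Order.lt_succ_iff.mp h1
  obtain ⟨c0, C, hc0, hUB⟩ := hU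
  have hcpos : (0 : ℝ) < 200 * ((c : ℝ) + 1) := by positivity
  set ε : ℝ := 1 / (200 * ((c : ℝ) + 1)) with hε
  have hε0 : 0 < ε := by rw [hε]; positivity
  have hεc : ε * (200 * ((c : ℝ) + 1)) ≤ 1 := by rw [hε]; field_simp; exact le_refl _
  have hε1 : ε ≤ 1 / 200 := by
    have h1 : (0 : ℝ) ≤ c := Nat.cast_nonneg c
    nlinarith
  obtain ⟨T0, hT0⟩ := hA m (2 * c) θ (by exact_mod_cast htr) ε c0 hε0 (by linarith) hc0
  obtain ⟨T1, hT1⟩ := hL (ε / 12) (by linarith) (by linarith)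
  obtain ⟨qn, hqn⟩ := exists_nat_ge (max ((n : ℝ) + 1) CE)
  have hq1 : (n : ℝ) + 1 ≤ qn := (le_max_left _ _).trans hqn
  have hq2 : CE ≤ qn := (le_max_right _ _).trans hqn
  have hq3 : (1 : ℝ) ≤ qn := by
    have := Nat.cast_nonneg (α := ℝ) n
    linarith
  set A : ℝ := max (max CE C) (2 * |Real.log ‖lam‖|) with hAd
  have hA0 : 0 ≤ A := le_trans (by positivity) (le_max_right _ _)
  have hev := (big c (q := qn) (A := A) hε0 hεc hq3 hA0)
  obtain ⟨x0, hx0⟩ := Filter.eventually_atTop.mp hev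
  obtain ⟨T2, hT2⟩ := exists_nat_ge x0
  set T : ℕ := max (max T0 T1) (max T2 2) with hTd
  have hTT0 : T0 ≤ T := (le_max_left _ _).trans (le_max_left _ _)
  have hTT1 : T1 ≤ T := (le_max_right _ _).trans (le_max_left _ _)
  have hTT2 : T2 ≤ T := (le_max_left _ _).trans (le_max_right _ _)
  have hT2' : 2 ≤ T := (le_max_right _ _).trans (le_max_right _ _)
  have hbig := hx0 (T : ℝ) (hT2.trans (by exact_mod_cast hTT2))
  obtain ⟨P, hdeg, hlen, hval⟩ := hP T hT2'
  have hqn1 : 1 ≤ qn := by exact_mod_cast hq3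
  refine hT0 (qn * T) (hTT0.trans (Nat.le_mul_of_pos_left T (by omega))) (Wd n T) (Wd n T) P ?_
  exact badMat c θ hlam rfl rfl hbig hq1 hq2 ((le_max_left _ _).trans (le_max_left _ _)) (le_max_right _ _)
    ((le_max_right _ _).trans (le_max_left _ _)) P hdeg hlen hval (fun j r s => hUB T j hT2' r s) (fun j hj1 hj2 => hT1 T hTT1 j hj1 hj2)

/-- THE MAIN THEOREM from the five parts -/
theorem main_of (hA : ThmA) (hC : ThmC) (hD1 : ThmD1) (hD2 : ThmD2) (hE : ThmE) (K : Subfield ℂ) (hK : QF K) (n : ℕ)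
    (z : Fin n → ℂ) (hzK : ∀ i, z i ∈ K) (him : ∀ i, 0 < (z i).im) (hNQ : ∀ i, NQ (z i)) (hind : ∀ i j, i ≠ j → ¬ GEq (z i) (z j))
    (hj : ∀ i, deriv jj (z i) ≠ 0) :
    ((2 * n - 1 : ℕ) : Cardinal) ≤ Algebra.trdeg ℚ (IntermediateField.adjoin ℚ
      (⋃ i, {z i, jj (z i), deriv jj (z i), deriv (deriv jj) (z i)} : Set ℂ)) := by
  rcases n with _ | c
  · simp
  obtain ⟨D, idx, hidx⟩ := hD1 K hK c z hzK him hNQ hind
  have hDK : ∀ j, D.z j ∈ K := fun j => by rw [hidx]; exact hzK _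
  have hDN : ∀ j, NQ (D.z j) := fun j => by rw [hidx]; exact hNQ _
  have hDG : ∀ i j, D.z i ≠ D.z j → ¬ GEq (D.z i) (D.z j) := by
    intro i j hij
    rw [hidx, hidx] at hij ⊢
    exact hind _ _ fun h => hij (by rw [h])
  obtain ⟨Φ, C, C', hker, m, θ, lam, CE, hlam, htr, hP⟩ := hE c D hDN (fun j => by rw [hidx]; exact hj _)
  obtain ⟨hI1, hI2⟩ := hD2 K hK c D hDK hDN hDG
  obtain ⟨hLB, hUB⟩ := hC c D Φ C C' hker
  have h1 := core hA c (hLB (hI1 C hker.mulu) (hI2 C' hker.muls)) hUB θ hlam CE hP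
  refine h1.trans (htr.trans ?_)
  have hsub : (⋃ j, {D.z j, jj (D.z j), deriv jj (D.z j), deriv (deriv jj) (D.z j)} : Set ℂ) ⊆
      ⋃ i, {z i, jj (z i), deriv jj (z i), deriv (deriv jj) (z i)} := by
    apply Set.iUnion_subset
    intro j
    rw [hidx j]
    exact Set.subset_iUnion (fun i => ({z i, jj (z i), deriv jj (z i), deriv (deriv jj) (z i)} : Set ℂ)) (idx j)
  have hle := IntermediateField.adjoin.mono ℚ _ _ hsub
  exact trdeg_le_of_injective (IntermediateField.inclusion hle) (IntermediateField.inclusion_injective hle)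

end Pool.Agent.LT.ZA
end

end

section

/-!
# MP_f58a57_nt, large transcendence degree: D algebra 6, existence of the matrix `M` (assembly)
-/

open Module Submodule Complex Matrix

noncomputable section

namespace Pool.Agent.LT.DA

section

variable {K : Type*} [Field K] [CharZero K]

theorem nq_ne_zero {z : K} (h : nq z) : z ≠ 0 := by
  rintro rfl
  have := (h 0 1 0 (by simp)).2.1
  exact one_ne_zero this

/-- CLAIM B -/
theorem claimB (h4 : finrank ℚ K = 4) {c : ℕ} (hc : 1 ≤ c) (z : Fin (c + 1) → K) (hnq : ∀ i, nq (z i))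
    (hrl : ∀ i j, i ≠ j → rl (z i) (z j)) : ⨆ i, PP (TT (w0 K c) z) (z i) = TT (w0 K c) z := by
  have hfK : FiniteDimensional ℚ K := FiniteDimensional.of_finrank_pos (by omega)
  set S := TT (w0 K c) z with hS
  have hSd : finrank ℚ S = 2 * c + 1 := finrank_S hc z hnq hrl
  set Q := ⨆ i, PP S (z i) with hQ
  have hQS : Q ≤ S := iSup_le fun i => inf_le_left
  by_contra hne
  have hlt : Q < S := lt_of_le_of_ne hQS hne
  -- a hyperplane
  obtain ⟨H, hQH, hHS, hHd⟩ : ∃ H : Submodule ℚ (Fin c → K), Q ≤ H ∧ H ≤ S ∧ finrank ℚ H = 2 * c := by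
    have h1 : Q.comap S.subtype < ⊤ := by
      rw [lt_top_iff_ne_top]
      intro h
      apply hne
      apply le_antisymm hQS
      intro x hx
      have : (⟨x, hx⟩ : S) ∈ Q.comap S.subtype := by rw [h]; exact mem_top
      exact this
    obtain ⟨f, hf0, hf⟩ := Submodule.exists_le_ker_of_lt_top _ h1
    refine ⟨(LinearMap.ker f).map S.subtype, ?_, ?_, ?_⟩
    · intro x hx
      exact ⟨⟨x, hQS hx⟩, hf hx, rfl⟩
    · rintro _ ⟨x, _, rfl⟩
      exact x.2
    · rw [Submodule.finrank_map_subtype_eq]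
      have h2 := LinearMap.finrank_range_add_finrank_ker f
      have h3 : finrank ℚ (LinearMap.range f) = 1 := by
        rw [LinearMap.range_eq_top.mpr (LinearMap.surjective hf0), finrank_top, finrank_self]
      omega
  have hex : ∀ i, ∃ v ≠ 0, v ∈ H ∧ z i • v ∈ H := fun i =>
    exists_in_H h4 S H hSd hHS hHd (z i) (nq_ne_zero (hnq i)) ((le_iSup (fun i => PP S (z i)) i).trans hQH)
  choose v hv0 hvH hzvH using hex
  set U := span K (Set.range v) with hU
  obtain ⟨J, hJ1, hJ2⟩ := exists_basis_sub (K := K) v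
  classical
  have hu : finrank K U = Fintype.card J := by
    rw [hU, ← hJ2]; exact finrank_span_eq_card hJ1
  set T := TT (fun j : J => v j) (fun j : J => z j) with hT
  have hTd : finrank ℚ T = 2 * Fintype.card J := finrank_TT hJ1 fun j => hnq j
  have hTle : T ≤ H ⊓ U.restrictScalars ℚ := by
    rw [hT, TT]
    apply sup_le
    · rw [span_le]
      rintro _ ⟨j, rfl⟩
      exact ⟨hvH j, subset_span ⟨(j : Fin (c + 1)), rfl⟩⟩
    · rw [span_le]
      rintro _ ⟨j, rfl⟩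
      exact ⟨hzvH j, U.smul_mem _ (subset_span ⟨(j : Fin (c + 1)), rfl⟩)⟩
  have hHU : finrank ℚ (H ⊓ U.restrictScalars ℚ : Submodule ℚ (Fin c → K)) ≤ 2 * Fintype.card J := by
    by_contra hgt
    rw [not_le] at hgt
    have hUt : U ≠ ⊤ := by
      intro h
      rw [h, finrank_top, finrank_fin_fun] at hu
      have h5 : finrank ℚ (H ⊓ U.restrictScalars ℚ : Submodule ℚ (Fin c → K)) ≤ finrank ℚ H := Submodule.finrank_mono inf_le_left
      omega
    have h6 := claimA hc z hnq hrl U hUt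
    have h7 : finrank ℚ (H ⊓ U.restrictScalars ℚ : Submodule ℚ (Fin c → K)) ≤ finrank ℚ (S ⊓ U.restrictScalars ℚ : Submodule ℚ (Fin c → K)) :=
      Submodule.finrank_mono (inf_le_inf_right _ hHS)
    rw [← hS] at h6
    omega
  have hTeq : T = H ⊓ U.restrictScalars ℚ := Submodule.eq_of_le_of_finrank_le hTle (by rw [hTd]; exact hHU)
  obtain ⟨l, hl⟩ : ∃ l : Fin (c + 1), l ∉ J := by
    by_contra hall
    push Not at hall
    have h8 : Fintype.card J = c + 1 := by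
      have : J = Set.univ := Set.eq_univ_of_forall hall
      subst this
      simp
    have h9 : finrank K U ≤ c := by
      have := Submodule.finrank_le U
      rwa [finrank_fin_fun] at this
    omega
  apply hv0 l
  apply TT_zero hJ1 (ζ := fun j : J => z j) (z := z l)
  · intro j
    apply hrl
    intro h
    exact hl (h ▸ j.2)
  · rw [← hT, hTeq]
    exact ⟨hvH l, subset_span ⟨l, rfl⟩⟩
  · rw [← hT, hTeq]
    exact ⟨hzvH l, U.smul_mem _ (subset_span ⟨l, rfl⟩)⟩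

/-- the matrix `M`, over `K` -/
theorem exists_M (h4 : finrank ℚ K = 4) (c : ℕ) (z : Fin (c + 1) → K) (hnq : ∀ i, nq (z i)) (hrl : ∀ i j, i ≠ j → rl (z i) (z j)) :
    ∃ (idx : Fin (2 * c + 1) → Fin (c + 1)) (M : Matrix (Fin (2 * c + 1)) (Fin (2 * c + 1)) ℚ) (v : Fin c → Fin (2 * c + 1) → K),
      LinearIndependent K v ∧ ∀ i, (Matrix.diagonal (fun j => z (idx j)) - M.map (fun q : ℚ => (q : K))) *ᵥ v i = 0 := by
  rcases Nat.eq_zero_or_pos c with rfl | hc
  · exact ⟨fun _ => 0, 0, fun i => i.elim0, linearIndependent_empty_type, fun i => i.elim0⟩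
  have hfK : FiniteDimensional ℚ K := FiniteDimensional.of_finrank_pos (by omega)
  have hB := claimB h4 hc z hnq hrl
  obtain ⟨idx, w, M, hw, hM⟩ := exists_adapted (TT (w0 K c) z) (finrank_S hc z hnq hrl) inferInstance z hB
  refine ⟨idx, M, fun i j => w j i, ?_, ?_⟩
  · rw [Fintype.linearIndependent_iff]
    intro a ha i
    have h1 : ∀ j, ∑ i, a i * w j i = 0 := by
      intro j
      have := congrFun ha j
      simpa [Finset.sum_apply] using this
    -- the functional `a` kills everything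
    let f : (Fin c → K) →ₗ[K] K := ∑ i, a i • LinearMap.proj i
    have hf : ∀ x, f x = ∑ i, a i * x i := by
      intro x
      simp [f]
    have h2 : span K (Set.range w) = ⊤ := by
      rw [eq_top_iff, ← w0_span c, span_le]
      rintro _ ⟨t, rfl⟩
      have h3 : w0 K c t ∈ span ℚ (Set.range w) := by
        rw [hw]
        exact le_sup_left (a := span ℚ (Set.range (w0 K c))) (subset_span ⟨t, rfl⟩)
      have h4 : span ℚ (Set.range w) ≤ (span K (Set.range w)).restrictScalars ℚ := by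
        rw [span_le]; exact subset_span
      exact h4 h3
    have h5 : f = 0 := by
      apply LinearMap.ext_on_range h2
      intro j
      rw [hf, h1, LinearMap.zero_apply]
    have h6 : f (Pi.single i 1) = 0 := by rw [h5, LinearMap.zero_apply]
    rw [hf, Finset.sum_eq_single i] at h6
    · simpa using h6
    · intro k _ hk
      simp [Pi.single_eq_of_ne hk]
    · intro h; exact absurd (Finset.mem_univ i) h
  · intro i
    funext j
    rw [Matrix.sub_mulVec, Pi.sub_apply, Matrix.mulVec_diagonal, Pi.zero_apply, sub_eq_zero]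
    have h1 := congrFun (hM j) i
    rw [Pi.smul_apply, smul_eq_mul, Finset.sum_apply] at h1
    rw [h1, Matrix.mulVec, dotProduct]
    apply Finset.sum_congr rfl
    intro k _
    rw [Pi.smul_apply, Matrix.map_apply, Algebra.smul_def]
    rfl

end

/-- THEOREM D1 -/
theorem thmD10 : ThmD1 := by
  intro K hK c z hzK him hNQ hG
  let ζ : Fin (c + 1) → K := fun i => ⟨z i, hzK i⟩
  have hnq : ∀ i, nq (ζ i) := fun i => nq_of K (hNQ i)
  have hrl : ∀ i j, i ≠ j → rl (ζ i) (ζ j) := fun i j hij => rl_of K (hNQ i) (hNQ j) (hG j i hij.symm)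
  obtain ⟨idx, M, v, hv, hMv⟩ := exists_M hK.dim c ζ hnq hrl
  obtain ⟨d, dM, hd, hdM⟩ := exists_d M
  obtain ⟨g, hg, hMg⟩ := exists_g (n := 2 * c + 1) (c := c) rfl M
  have hker : c ≤ Module.finrank ℂ (LinearMap.ker (Matrix.mulVecLin (Matrix.diagonal (fun j => z (idx j)) - M.map (fun q : ℚ => (q : ℂ))))) := by
    set V := LinearMap.ker (Matrix.mulVecLin (Matrix.diagonal (fun j => z (idx j)) - M.map (fun q : ℚ => (q : ℂ)))) with hV
    have h1 : ∀ i, (fun j => ((v i j : K) : ℂ)) ∈ V := by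
      intro i
      rw [hV, LinearMap.mem_ker, Matrix.mulVecLin_apply]
      funext j
      have h2 := congrArg (fun t : K => (t : ℂ)) (congrFun (hMv i) j)
      simp only [Matrix.mulVec, dotProduct] at h2 ⊢
      push_cast at h2
      rw [Pi.zero_apply]
      rw [Pi.zero_apply] at h2
      refine Eq.trans ?_ h2
      apply Finset.sum_congr rfl
      intro k _
      congr 1
      rw [Matrix.sub_apply, Matrix.sub_apply, Matrix.map_apply, Matrix.map_apply, Matrix.diagonal_apply, Matrix.diagonal_apply]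
      split_ifs <;> push_cast <;> rfl
    have h3 : LinearIndependent ℂ (fun i : Fin c => (⟨fun j => ((v i j : K) : ℂ), h1 i⟩ : V)) := by
      apply LinearIndependent.of_comp V.subtype
      exact li_KC K hv
    have h4 := h3.fintype_card_le_finrank
    simpa using h4
  exact ⟨⟨fun j => z (idx j), fun j => him _, M, d, hd, dM, hdM, g, hg, hMg, hker⟩, idx, fun j => rfl⟩

end Pool.Agent.LT.DA

/-- THEOREM D1 -/
theorem Pool.Agent.LT.thmD1 : Pool.Agent.LT.ThmD1 := Pool.Agent.LT.DA.thmD10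
end

end

section

/-!
# MP_f58a57_nt, large transcendence degree, part C (row lt-C-B4)

The pairing of q with the derivatives of g_y, by hk_pdl.
-/

open Complex Matrix MeasureTheory

noncomputable section

namespace Pool.Agent.LT

variable {c : ℕ}

namespace B4_

theorem hk_diff2 {D : Dat c} {Φ : VN c → VN c → ℂ} {C C' : (Fin (2 * c + 1) → ℤ) → ℂ} (hK : Ker D Φ C C') (μ : ℂ) (a : ℤ)
    (u : VN c) : Differentiable ℂ (fun s => hk D Φ μ a u s) := by
  have h2 : Differentiable ℂ (fun s : VN c => ((u, s) : VN c × VN c)) :=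
      (differentiable_const u).prodMk differentiable_id
  have h1 := hk_diff hK μ a
  have h3 := h1.comp h2
  simp only [Function.comp_def] at h3
  exact h3

theorem gy_pdl {D : Dat c} {Φ : VN c → VN c → ℂ} {C C' : (Fin (2 * c + 1) → ℤ) → ℂ} (hK : Ker D Φ C C') (μ : ℂ) (κ m : ℤ) (p : VN c) {j : ℕ}
    (y : Fin j → ℂ) (w : List (Fin (2 * c + 1))) (s : VN c) :
    pdl w (gy D Φ μ κ m p y) s = ∑ i : Fin j, y i * pdl w (hk D Φ μ (κ + (i : ℕ) * m * D.d) (((i : ℕ) : ℂ) • p)) s := by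
  have h := pdlC_sum (Finset.univ : Finset (Fin j)) y
    (fun i s => hk D Φ μ (κ + (i : ℕ) * m * D.d) (((i : ℕ) : ℂ) • p) s) (fun i _ => hk_diff2 hK μ _ _) w s
  exact h

theorem ee_cont {f : ℝ → ℂ} (hf : Continuous f) : Continuous (fun x => ee (f x)) := by
  unfold ee
  exact Complex.continuous_exp.comp (continuous_const.mul hf)

theorem term_cont {D : Dat c} {Φ : VN c → VN c → ℂ} {C C' : (Fin (2 * c + 1) → ℤ) → ℂ} (hK : Ker D Φ C C') (μ : ℂ) (κ : ℤ)
    (u s : VN c) (w : List (Fin (2 * c + 1))) :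
    Continuous (fun x : ℝ => pdl w (Φ (u + (x : ℂ) • D.gc)) s * ee (D.nu * x ^ 2 / 2 + x * (D.v0 ⬝ᵥ u) + μ * x) *
      ee (-(κ * x / D.d))) := by
  refine Continuous.mul (Continuous.mul ?_ ?_) ?_
  · have h1 : Continuous (fun q : VN c × VN c => pdl w (Φ q.1) q.2) := (pdl_param Φ hK.diff w).continuous
    have h2 : Continuous (fun x : ℝ => ((u + (x : ℂ) • D.gc, s) : VN c × VN c)) := by
      refine Continuous.prodMk ?_ continuous_const
      exact continuous_const.add (Complex.continuous_ofReal.smul continuous_const)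
    exact h1.comp h2
  · apply ee_cont
    fun_prop
  · apply ee_cont
    fun_prop

end B4_

theorem gy_pair {D : Dat c} {Φ : VN c → VN c → ℂ} {C C' : (Fin (2 * c + 1) → ℤ) → ℂ} (hK : Ker D Φ C C') (μ : ℂ) (κ m : ℤ) (p : VN c) {j T : ℕ}
    (y : Fin j → ℂ) (q : Wd (2 * c + 1) T → ℂ) :
    ∑ β : Wd (2 * c + 1) T, q β * pdl β.l (gy D Φ μ κ m p y) 0 = ∑ i : Fin j, y i * ((D.d : ℂ)⁻¹ * ∫ x in (0 : ℝ)..(D.d : ℝ),
      Fq Φ q ((((i : ℕ) : ℂ) • p) + (x : ℂ) • D.gc) * ee (D.nu * x ^ 2 / 2 + x * (D.v0 ⬝ᵥ (((i : ℕ) : ℂ) • p)) + μ * x) *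
        ee (-(((κ + (i : ℕ) * m * D.d : ℤ) : ℂ) * x / D.d))) := by
  have hL : ∀ β : Wd (2 * c + 1) T, q β * pdl β.l (gy D Φ μ κ m p y) 0 =
      ∑ i : Fin j, y i * ((D.d : ℂ)⁻¹ * (q β * ∫ x in (0 : ℝ)..(D.d : ℝ),
        pdl β.l (Φ ((((i : ℕ) : ℂ) • p) + (x : ℂ) • D.gc)) 0 *
          ee (D.nu * x ^ 2 / 2 + x * (D.v0 ⬝ᵥ (((i : ℕ) : ℂ) • p)) + μ * x) *
          ee (-(((κ + (i : ℕ) * m * D.d : ℤ) : ℂ) * x / D.d)))) := by
    intro β
    rw [B4_.gy_pdl hK, Finset.mul_sum]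
    refine Finset.sum_congr rfl fun i _ => ?_
    rw [hk_pdl hK]
    ring
  rw [Finset.sum_congr rfl fun β _ => hL β, Finset.sum_comm]
  refine Finset.sum_congr rfl fun i _ => ?_
  rw [← Finset.mul_sum, ← Finset.mul_sum]
  congr 2
  simp_rw [← intervalIntegral.integral_const_mul]
  rw [← intervalIntegral.integral_finsetSum]
  · refine intervalIntegral.integral_congr fun x _ => ?_
    simp only [Fq]
    rw [Finset.sum_mul, Finset.sum_mul]
    refine Finset.sum_congr rfl fun β _ => ?_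
    ring
  · intro β _
    exact (continuous_const.mul (B4_.term_cont hK μ _ _ 0 β.l)).intervalIntegrable _ _

/-- `y ↦` the derivatives of `g_y` at `0` is linear -/
theorem gy_lin {D : Dat c} {Φ : VN c → VN c → ℂ} {C C' : (Fin (2 * c + 1) → ℤ) → ℂ} (hK : Ker D Φ C C') (μ : ℂ) (κ m : ℤ) (p : VN c) (j T : ℕ) :
    ∃ L : (Fin j → ℂ) →ₗ[ℂ] (Wd (2 * c + 1) T → ℂ), ∀ y β, L y β = pdl β.l (gy D Φ μ κ m p y) 0 := by
  refine ⟨{ toFun := fun y β => ∑ i : Fin j, y i *
              pdl β.l (hk D Φ μ (κ + (i : ℕ) * m * D.d) (((i : ℕ) : ℂ) • p)) 0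
            map_add' := fun a b => by
              funext β
              simp only [Pi.add_apply, add_mul, Finset.sum_add_distrib]
            map_smul' := fun t a => by
              funext β
              simp only [Pi.smul_apply, smul_eq_mul, RingHom.id_apply, Finset.mul_sum, mul_assoc] }, fun y β => ?_⟩
  rw [B4_.gy_pdl hK]
  rfl

end Pool.Agent.LT
end

end

section

/-!
# MP_f58a57_nt, large transcendence degree, version 2: THEOREM D1 for all quartic fields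
-/

open Module Submodule Complex Matrix

noncomputable section

namespace Pool.Agent.LT.DA

/-- THEOREM D1, version 2 -/
theorem thmD1G0 : ThmD1G := by
  intro K hK c z hzK him hNQ hG
  let ζ : Fin (c + 1) → K := fun i => ⟨z i, hzK i⟩
  have hnq : ∀ i, nq (ζ i) := fun i => nq_of K (hNQ i)
  have hrl : ∀ i j, i ≠ j → rl (ζ i) (ζ j) := fun i j hij => rl_of K (hNQ i) (hNQ j) (hG j i hij.symm)
  obtain ⟨idx, M, v, hv, hMv⟩ := exists_M hK c ζ hnq hrl
  obtain ⟨d, dM, hd, hdM⟩ := exists_d M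
  obtain ⟨g, hg, hMg⟩ := exists_g (n := 2 * c + 1) (c := c) rfl M
  have hker : c ≤ Module.finrank ℂ (LinearMap.ker (Matrix.mulVecLin (Matrix.diagonal (fun j => z (idx j)) - M.map (fun q : ℚ => (q : ℂ))))) := by
    set V := LinearMap.ker (Matrix.mulVecLin (Matrix.diagonal (fun j => z (idx j)) - M.map (fun q : ℚ => (q : ℂ)))) with hV
    have h1 : ∀ i, (fun j => ((v i j : K) : ℂ)) ∈ V := by
      intro i
      rw [hV, LinearMap.mem_ker, Matrix.mulVecLin_apply]
      funext j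
      have h2 := congrArg (fun t : K => (t : ℂ)) (congrFun (hMv i) j)
      simp only [Matrix.mulVec, dotProduct] at h2 ⊢
      push_cast at h2
      rw [Pi.zero_apply]
      rw [Pi.zero_apply] at h2
      refine Eq.trans ?_ h2
      apply Finset.sum_congr rfl
      intro k _
      congr 1
      rw [Matrix.sub_apply, Matrix.sub_apply, Matrix.map_apply, Matrix.map_apply, Matrix.diagonal_apply, Matrix.diagonal_apply]
      split_ifs <;> push_cast <;> rfl
    have h3 : LinearIndependent ℂ (fun i : Fin c => (⟨fun j => ((v i j : K) : ℂ), h1 i⟩ : V)) := by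
      apply LinearIndependent.of_comp V.subtype
      exact li_KC K hv
    have h4 := h3.fintype_card_le_finrank
    simpa using h4
  exact ⟨⟨fun j => z (idx j), fun j => him _, M, d, hd, dM, hdM, g, hg, hMg, hker⟩, idx, fun j => rfl⟩

end Pool.Agent.LT.DA

/-- THEOREM D1, version 2 -/
theorem Pool.Agent.LT.thmD1G : Pool.Agent.LT.ThmD1G := Pool.Agent.LT.DA.thmD1G0
end

end

section

/-!
# MP_f58a57_nt, large transcendence degree, part C (row lt-C-B5)

Second step of C.4: by gy_pair and Fq_small at the points i p + x g (Y(i p + x g) = i Y(p)): |sum| <= j exp(K(1+C(1+j^2)) + C j - k^2/K); the new K j <= k absorbs everything (k >= T^(1/2) large).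
-/

open Complex Matrix MeasureTheory

noncomputable section

namespace Pool.Agent.LT

variable {c : ℕ}

namespace B5_

theorem nsq_nonneg {n : ℕ} (u : Fin n → ℂ) : 0 ≤ nsq u := Finset.sum_nonneg fun _ _ => by positivity

theorem nsq_comb {n : ℕ} (p g : Fin n → ℂ) (a x : ℝ) :
    nsq ((a : ℂ) • p + (x : ℂ) • g) ≤ 2 * a ^ 2 * nsq p + 2 * x ^ 2 * nsq g := by
  unfold nsq
  rw [Finset.mul_sum, Finset.mul_sum, ← Finset.sum_add_distrib]
  refine Finset.sum_le_sum fun l _ => ?_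
  have h1 : ‖((a : ℂ) • p + (x : ℂ) • g) l‖ ≤ |a| * ‖p l‖ + |x| * ‖g l‖ := by
    refine (norm_add_le _ _).trans (le_of_eq ?_)
    simp
  have h2 : ‖((a : ℂ) • p + (x : ℂ) • g) l‖ ^ 2 ≤ (|a| * ‖p l‖ + |x| * ‖g l‖) ^ 2 :=
    pow_le_pow_left₀ (norm_nonneg _) h1 2
  have h3 : (|a| * ‖p l‖ + |x| * ‖g l‖) ^ 2 ≤ 2 * (|a| * ‖p l‖) ^ 2 + 2 * (|x| * ‖g l‖) ^ 2 := by
    nlinarith [sq_nonneg (|a| * ‖p l‖ - |x| * ‖g l‖)]
  have h4 : 2 * (|a| * ‖p l‖) ^ 2 + 2 * (|x| * ‖g l‖) ^ 2 = 2 * a ^ 2 * ‖p l‖ ^ 2 + 2 * x ^ 2 * ‖g l‖ ^ 2 := by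
    rw [mul_pow, mul_pow, sq_abs, sq_abs]; ring
  linarith

theorem norm_ee_le (z : ℂ) : ‖ee z‖ ≤ Real.exp (2 * Real.pi * ‖z‖) := by
  unfold ee
  rw [Complex.norm_exp]
  apply Real.exp_le_exp.2
  have h : (2 * Real.pi * I * z).re = -(2 * Real.pi * z.im) := by
    simp
  rw [h]
  have h2 := Complex.abs_im_le_norm z
  have h3 := neg_abs_le z.im
  have hp := Real.pi_pos
  nlinarith

theorem norm_ee_real (x : ℝ) : ‖ee (x : ℂ)‖ = 1 := by
  unfold ee
  rw [Complex.norm_exp]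
  simp

end B5_

open B5_

theorem pair_small {D : Dat c} {Φ : VN c → VN c → ℂ} {C C' : (Fin (2 * c + 1) → ℤ) → ℂ} (hK : Ker D Φ C C') (hI : INT D.d D.g D.Lt C)
    (μ : ℂ) (κ m : ℤ) (p : VN c) {ε : ℝ} (hε : 0 < ε) (hε' : ε ≤ 1 / 20) :
    ∃ K T1 : ℝ, 1 ≤ K ∧ ∀ T : ℕ, T1 ≤ (T : ℝ) → ∀ k : ℝ, (T : ℝ) ^ (1 / 2 + ε) ≤ k → k ≤ (T : ℝ) ^ ((c : ℝ) + 1 - ε) →
      ∀ j : ℕ, K * j ≤ k → ∀ q : Wd (2 * c + 1) T → ℂ, (∀ β, ‖q β‖ ≤ 1) →
        (∀ α, ‖(BM Φ T *ᵥ q) α‖ ≤ Real.exp (-((T : ℝ) ^ ε * k ^ 2))) → ∀ y : Fin j → ℂ, (∀ i, ‖y i‖ ≤ 1) →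
          ‖∑ β : Wd (2 * c + 1) T, q β * pdl β.l (gy D Φ μ κ m p y) 0‖ ≤ Real.exp (-(k ^ 2 / K)) := by
  obtain ⟨b, Y, hd⟩ := exists_dec D D.Lt (Or.inl rfl)
  obtain ⟨K0, T0, hK0, hF⟩ := Fq_small hK hI hd hε hε'
  have hK0' : 0 < K0 := by linarith
  have hdp : (0 : ℝ) < D.d := by exact_mod_cast D.hd
  have hNp := nsq_nonneg p
  have hNg := nsq_nonneg D.gc
  set c1 : ℝ := 2 * Real.pi * (‖D.nu‖ * (D.d : ℝ) ^ 2 / 2 + ‖μ‖ * D.d) with hc1
  set c2 : ℝ := 2 * Real.pi * (D.d * ‖D.v0 ⬝ᵥ p‖) with hc2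
  set c3 : ℝ := K0 + 2 * K0 * (D.d : ℝ) ^ 2 * nsq D.gc + c1 with hc3
  have hc1' : 0 ≤ c1 := by have := Real.pi_pos; positivity
  have hc2' : 0 ≤ c2 := by have := Real.pi_pos; positivity
  have hc3' : 0 ≤ c3 := by positivity
  set K : ℝ := 4 * K0 + K0 * |Y p| + 8 * K0 ^ 2 * nsq p with hKd
  have hK1 : 4 * K0 ≤ K := by have : 0 ≤ K0 * |Y p| := by positivity
                              have : 0 ≤ 8 * K0 ^ 2 * nsq p := by positivity
                              linarith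
  have hK2 : K0 * |Y p| ≤ K := by have : 0 ≤ 8 * K0 ^ 2 * nsq p := by positivity
                                  linarith
  have hK3 : 8 * K0 ^ 2 * nsq p ≤ K := by have : 0 ≤ K0 * |Y p| := by positivity
                                          linarith
  have hKp : 0 < K := by linarith
  set k0 : ℝ := 1 + 4 * K0 * (1 + c2) + 4 * K0 * c3 with hk0
  have hk01 : 1 ≤ k0 := by have : 0 ≤ 4 * K0 * (1 + c2) := by positivity
                           have : 0 ≤ 4 * K0 * c3 := by positivity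
                           linarith
  refine ⟨K, max T0 (k0 ^ 2), by linarith, fun T hT k hk1 hk2 j hj q hq hB y hy => ?_⟩
  have hT0 : T0 ≤ (T : ℝ) := (le_max_left _ _).trans hT
  have hTk : k0 ^ 2 ≤ (T : ℝ) := (le_max_right _ _).trans hT
  have hT1 : (1 : ℝ) ≤ T := le_trans (one_le_pow₀ hk01) hTk
  have hkk : k0 ≤ k := by
    refine le_trans ?_ hk1
    have h1 : (T : ℝ) ^ (1 / 2 : ℝ) ≤ (T : ℝ) ^ (1 / 2 + ε) := Real.rpow_le_rpow_of_exponent_le hT1 (by linarith)
    refine le_trans ?_ h1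
    rw [← Real.sqrt_eq_rpow]
    exact Real.le_sqrt_of_sq_le hTk
  have hk1' : 1 ≤ k := hk01.trans hkk
  have hkp : 0 < k := by linarith
  have hj0 : (0 : ℝ) ≤ j := Nat.cast_nonneg j
  have hjk : (j : ℝ) ≤ k / K := by rw [le_div_iff₀ hKp]; linarith
  rw [gy_pair hK μ κ m p y q]
  -- the bound of each term
  set E : ℝ := c3 + 2 * K0 * nsq p * (j : ℝ) ^ 2 + c2 * j - k ^ 2 / K0 with hE
  have hterm : ∀ i : Fin j, ‖y i * ((D.d : ℂ)⁻¹ * ∫ x in (0 : ℝ)..(D.d : ℝ),
      Fq Φ q ((((i : ℕ) : ℂ) • p) + (x : ℂ) • D.gc) * ee (D.nu * x ^ 2 / 2 + x * (D.v0 ⬝ᵥ (((i : ℕ) : ℂ) • p)) + μ * x) *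
        ee (-(((κ + (i : ℕ) * m * D.d : ℤ) : ℂ) * x / D.d)))‖ ≤ Real.exp E := by
    intro i
    have hij : ((i : ℕ) : ℝ) ≤ j := by exact_mod_cast i.2.le
    have hi0 : (0 : ℝ) ≤ ((i : ℕ) : ℝ) := Nat.cast_nonneg _
    have hint : ‖∫ x in (0 : ℝ)..(D.d : ℝ),
      Fq Φ q ((((i : ℕ) : ℂ) • p) + (x : ℂ) • D.gc) * ee (D.nu * x ^ 2 / 2 + x * (D.v0 ⬝ᵥ (((i : ℕ) : ℂ) • p)) + μ * x) *
        ee (-(((κ + (i : ℕ) * m * D.d : ℤ) : ℂ) * x / D.d))‖ ≤ Real.exp E * |(D.d : ℝ) - 0| := by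
      refine intervalIntegral.norm_integral_le_of_norm_le_const fun x hx => ?_
      rw [Set.uIoc_of_le hdp.le] at hx
      have hx0 : 0 ≤ x := hx.1.le
      have hxd : x ≤ D.d := hx.2
      rw [norm_mul, norm_mul]
      have e3 : ‖ee (-(((κ + (i : ℕ) * m * D.d : ℤ) : ℂ) * x / D.d))‖ = 1 := by
        have : (-(((κ + (i : ℕ) * m * D.d : ℤ) : ℂ) * x / D.d)) = ((-(((κ + (i : ℕ) * m * D.d : ℤ) : ℝ) * x / D.d) : ℝ) : ℂ) := by
          push_cast; ring
        rw [this, norm_ee_real]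
      have e2 : ‖ee (D.nu * x ^ 2 / 2 + x * (D.v0 ⬝ᵥ (((i : ℕ) : ℂ) • p)) + μ * x)‖ ≤ Real.exp (c1 + c2 * j) := by
        refine (norm_ee_le _).trans (Real.exp_le_exp.2 ?_)
        have hn : ‖D.nu * (x : ℂ) ^ 2 / 2 + x * (D.v0 ⬝ᵥ (((i : ℕ) : ℂ) • p)) + μ * x‖ ≤
            ‖D.nu‖ * (D.d : ℝ) ^ 2 / 2 + D.d * (j * ‖D.v0 ⬝ᵥ p‖) + ‖μ‖ * D.d := by
          refine (norm_add_le _ _).trans (add_le_add ((norm_add_le _ _).trans (add_le_add ?_ ?_)) ?_)
          · rw [norm_div, norm_mul, norm_pow, Complex.norm_real, Real.norm_eq_abs, abs_of_nonneg hx0]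
            simp only [Complex.norm_ofNat]
            have : x ^ 2 ≤ (D.d : ℝ) ^ 2 := pow_le_pow_left₀ hx0 hxd 2
            have h0 := norm_nonneg D.nu
            have := mul_le_mul_of_nonneg_left this h0
            linarith
          · rw [dotProduct_smul, smul_eq_mul, norm_mul, norm_mul, Complex.norm_real, Real.norm_eq_abs, abs_of_nonneg hx0,
              Complex.norm_natCast]
            exact mul_le_mul hxd (mul_le_mul_of_nonneg_right hij (norm_nonneg _)) (by positivity) hdp.le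
          · rw [norm_mul, Complex.norm_real, Real.norm_eq_abs, abs_of_nonneg hx0]
            exact mul_le_mul_of_nonneg_left hxd (norm_nonneg _)
        have := mul_le_mul_of_nonneg_left hn (by have := Real.pi_pos; positivity : (0 : ℝ) ≤ 2 * Real.pi)
        refine this.trans (le_of_eq ?_)
        rw [hc1, hc2]; ring
      have e1 : ‖Fq Φ q ((((i : ℕ) : ℂ) • p) + (x : ℂ) • D.gc)‖ ≤
          Real.exp (K0 + 2 * K0 * (D.d : ℝ) ^ 2 * nsq D.gc + 2 * K0 * nsq p * (j : ℝ) ^ 2 - k ^ 2 / K0) := by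
        have hcast : (((i : ℕ) : ℂ) • p) + (x : ℂ) • D.gc = ((((i : ℕ) : ℝ) : ℂ) • p) + (x : ℂ) • D.gc := by
          push_cast; rfl
        rw [hcast]
        have hY : |Y (((((i : ℕ) : ℝ) : ℂ) • p) + (x : ℂ) • D.gc)| ≤ k / K0 := by
          rw [map_add, hd.Y_g x, add_zero]
          have : ((((i : ℕ) : ℝ) : ℂ) • p) = (((i : ℕ) : ℝ)) • p := by
            ext l; simp
          rw [this, map_smul, smul_eq_mul, abs_mul, abs_of_nonneg hi0]
          calc ((i : ℕ) : ℝ) * |Y p| ≤ (k / K) * |Y p| := mul_le_mul_of_nonneg_right (hij.trans hjk) (abs_nonneg _)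
            _ ≤ k / K0 := by
              rw [div_mul_eq_mul_div, div_le_div_iff₀ hKp hK0', mul_assoc]
              refine mul_le_mul_of_nonneg_left ?_ hkp.le
              rw [mul_comm]; exact hK2
        refine (hF T hT0 k hk1 hk2 q hq hB _ hY).trans (Real.exp_le_exp.2 ?_)
        have hn := nsq_comb p D.gc ((i : ℕ) : ℝ) x
        have h1 : ((i : ℕ) : ℝ) ^ 2 ≤ (j : ℝ) ^ 2 := pow_le_pow_left₀ hi0 hij 2
        have h2 : x ^ 2 ≤ (D.d : ℝ) ^ 2 := pow_le_pow_left₀ hx0 hxd 2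
        have h3 : 2 * ((i : ℕ) : ℝ) ^ 2 * nsq p ≤ 2 * (j : ℝ) ^ 2 * nsq p := by
          apply mul_le_mul_of_nonneg_right _ hNp; linarith
        have h4 : 2 * x ^ 2 * nsq D.gc ≤ 2 * (D.d : ℝ) ^ 2 * nsq D.gc := by
          apply mul_le_mul_of_nonneg_right _ hNg; linarith
        have h5 := mul_le_mul_of_nonneg_left (hn.trans (add_le_add h3 h4)) hK0'.le
        have h6 : K0 * (2 * (j : ℝ) ^ 2 * nsq p + 2 * (D.d : ℝ) ^ 2 * nsq D.gc) =
            2 * K0 * (D.d : ℝ) ^ 2 * nsq D.gc + 2 * K0 * nsq p * (j : ℝ) ^ 2 := by ring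
        rw [mul_add, mul_one]
        linarith [h5, h6]
      rw [e3, mul_one]
      refine (mul_le_mul e1 e2 (norm_nonneg _) (Real.exp_pos _).le).trans (le_of_eq ?_)
      rw [← Real.exp_add]
      congr 1
      rw [hE, hc3]; ring
    rw [norm_mul, norm_mul, norm_inv, Complex.norm_natCast]
    rw [sub_zero, abs_of_pos hdp] at hint
    calc ‖y i‖ * ((D.d : ℝ)⁻¹ * _) ≤ 1 * ((D.d : ℝ)⁻¹ * (Real.exp E * D.d)) := by
          refine mul_le_mul (hy i) (mul_le_mul_of_nonneg_left hint (by positivity)) (by positivity) zero_le_one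
      _ = Real.exp E := by field_simp
  refine (norm_sum_le _ _).trans ?_
  refine (Finset.sum_le_card_nsmul _ _ _ fun i _ => hterm i).trans ?_
  rw [Finset.card_univ, Fintype.card_fin, nsmul_eq_mul]
  have hje : (j : ℝ) ≤ Real.exp j := by have := Real.add_one_le_exp (j : ℝ); linarith
  refine (mul_le_mul_of_nonneg_right hje (Real.exp_pos _).le).trans ?_
  rw [← Real.exp_add]
  apply Real.exp_le_exp.2
  rw [hE]
  -- final inequality
  have hj2 : (j : ℝ) ^ 2 ≤ k ^ 2 / K ^ 2 := by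
    rw [← div_pow]; exact pow_le_pow_left₀ hj0 hjk 2
  have hK1' : 1 ≤ K := by linarith
  have hjk' : (j : ℝ) ≤ k := hjk.trans (div_le_self hkp.le hK1')
  have q1 : k ^ 2 / K ≤ k ^ 2 / (4 * K0) := div_le_div_of_nonneg_left (by positivity) (by positivity) hK1
  have q2 : 2 * K0 * nsq p * (j : ℝ) ^ 2 ≤ k ^ 2 / (4 * K0) := by
    have h1 : 2 * K0 * nsq p * (j : ℝ) ^ 2 ≤ 2 * K0 * nsq p * (k ^ 2 / K ^ 2) := mul_le_mul_of_nonneg_left hj2 (by positivity)
    refine h1.trans ?_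
    rw [mul_div_assoc', div_le_div_iff₀ (by positivity) (by positivity)]
    have h2 : 8 * K0 ^ 2 * nsq p ≤ K ^ 2 := hK3.trans (le_self_pow₀ hK1' two_ne_zero)
    calc 2 * K0 * nsq p * k ^ 2 * (4 * K0) = k ^ 2 * (8 * K0 ^ 2 * nsq p) := by ring
      _ ≤ k ^ 2 * K ^ 2 := mul_le_mul_of_nonneg_left h2 (sq_nonneg k)
  have q3 : (1 + c2) * (j : ℝ) ≤ k ^ 2 / (4 * K0) := by
    rw [le_div_iff₀ (by positivity)]
    have h1 : 4 * K0 * (1 + c2) ≤ k := by
      have : 0 ≤ 4 * K0 * c3 := by positivity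
      linarith
    have h2 : (1 + c2) * (j : ℝ) ≤ (1 + c2) * k := mul_le_mul_of_nonneg_left hjk' (by positivity)
    calc (1 + c2) * (j : ℝ) * (4 * K0) ≤ (1 + c2) * k * (4 * K0) := mul_le_mul_of_nonneg_right h2 (by positivity)
      _ = (4 * K0 * (1 + c2)) * k := by ring
      _ ≤ k * k := mul_le_mul_of_nonneg_right h1 hkp.le
      _ = k ^ 2 := by ring
  have q4 : c3 ≤ k ^ 2 / (4 * K0) := by
    rw [le_div_iff₀ (by positivity)]
    have h1 : 4 * K0 * c3 ≤ k := by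
      have : 0 ≤ 4 * K0 * (1 + c2) := by positivity
      linarith
    calc c3 * (4 * K0) = 4 * K0 * c3 := by ring
      _ ≤ k := h1
      _ ≤ k ^ 2 := le_self_pow₀ hk1' two_ne_zero
  have q5 : k ^ 2 / K0 = 4 * (k ^ 2 / (4 * K0)) := by field_simp
  rw [q5]
  have q3' : (j : ℝ) + c2 * j ≤ k ^ 2 / (4 * K0) := by
    refine le_trans (le_of_eq ?_) q3
    ring
  linarith [q1, q2, q3', q4]

end Pool.Agent.LT
end

end
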