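import Mathlib
import Pool.Agent.Lib.MP_f58a57_nt.LK.K018
import Pool.Agent.Lib.MP_f58a57_nt.LK.K019
import Pool.Agent.Lib.MP_f58a57_nt.LK.K021
import Pool.Agent.Lib.MP_f58a57_nt.LK.K022
import Pool.Agent.Lib.MP_f58a57_nt.LK.K023

namespace Pool.Agent.LT.B8_
end Pool.Agent.LT.B8_
namespace Pool.Agent.LT.M8_
end Pool.Agent.LT.M8_

section

/-!
# MP_f58a57_nt, large transcendence degree, part C (row lt-C-U4)

Real analysis: the Gaussian tail.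
-/

open Complex Matrix MeasureTheory

noncomputable section

namespace Pool.Agent.LT

variable {c : ℕ}

namespace U4_

lemma summable_gauss {a : ℝ} (ha : 0 < a) : Summable (fun κ : ℤ => Real.exp (-(a * (κ : ℝ) ^ 2))) := by
  have hnat : Summable (fun n : ℕ => Real.exp (-(a * (n : ℝ)))) := by
    have h1 : Summable (fun n : ℕ => (Real.exp (-a)) ^ n) :=
      summable_geometric_of_lt_one (Real.exp_pos _).le (by
        rw [Real.exp_lt_one_iff]; linarith)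
    refine h1.congr (fun n => ?_)
    rw [← Real.exp_nat_mul]
    congr 1
    ring
  have hsq : ∀ n : ℕ, (n : ℝ) ≤ (n : ℝ) ^ 2 := by
    intro n
    have : n ≤ n ^ 2 := by
      rcases Nat.eq_zero_or_pos n with h | h
      · simp [h]
      · nlinarith
    exact_mod_cast this
  have hnat2 : Summable (fun n : ℕ => Real.exp (-(a * (n : ℝ) ^ 2))) := by
    refine Summable.of_nonneg_of_le (fun n => (Real.exp_pos _).le) (fun n => ?_) hnat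
    apply Real.exp_le_exp.mpr
    have := mul_le_mul_of_nonneg_left (hsq n) ha.le
    linarith
  refine Summable.of_nat_of_neg ?_ ?_
  · simpa using hnat2
  · simpa using hnat2

end U4_

theorem gauss_tail {c1 : ℝ} (hc : 0 < c1) : ∃ A : ℝ, ∀ i : ℕ, Summable (fun κ : ℤ => if |κ| < i then (0 : ℝ) else Real.exp (-(c1 * (κ : ℝ) ^ 2))) ∧
    ∑' κ : ℤ, (if |κ| < i then (0 : ℝ) else Real.exp (-(c1 * (κ : ℝ) ^ 2))) ≤ Real.exp (A - c1 * (i : ℝ) ^ 2 / 2) := by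
  have hS := U4_.summable_gauss (half_pos hc)
  have hpos : 0 < ∑' κ : ℤ, Real.exp (-(c1 / 2 * (κ : ℝ) ^ 2)) :=
    hS.tsum_pos (fun κ => (Real.exp_pos _).le) 0 (Real.exp_pos _)
  refine ⟨Real.log (∑' κ : ℤ, Real.exp (-(c1 / 2 * (κ : ℝ) ^ 2))), fun i => ?_⟩
  have hle : ∀ κ : ℤ, (if |κ| < i then (0 : ℝ) else Real.exp (-(c1 * (κ : ℝ) ^ 2))) ≤
      Real.exp (-(c1 * (i : ℝ) ^ 2 / 2)) * Real.exp (-(c1 / 2 * (κ : ℝ) ^ 2)) := by
    intro κ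
    split_ifs with h
    · exact mul_nonneg (Real.exp_pos _).le (Real.exp_pos _).le
    · rw [← Real.exp_add]
      apply Real.exp_le_exp.mpr
      have h1 : (i : ℤ) ≤ |κ| := not_lt.mp h
      have h2 : (i : ℝ) ≤ |(κ : ℝ)| := by exact_mod_cast h1
      have h3 : (i : ℝ) ^ 2 ≤ (κ : ℝ) ^ 2 := by
        rw [← sq_abs (κ : ℝ)]
        exact pow_le_pow_left₀ (Nat.cast_nonneg _) h2 2
      nlinarith
  have hnn : ∀ κ : ℤ, 0 ≤ (if |κ| < i then (0 : ℝ) else Real.exp (-(c1 * (κ : ℝ) ^ 2))) := by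
    intro κ
    split_ifs
    · exact le_refl _
    · exact (Real.exp_pos _).le
  have hsum : Summable (fun κ : ℤ => if |κ| < i then (0 : ℝ) else Real.exp (-(c1 * (κ : ℝ) ^ 2))) :=
    Summable.of_nonneg_of_le hnn hle (hS.mul_left _)
  refine ⟨hsum, ?_⟩
  calc ∑' κ : ℤ, (if |κ| < i then (0 : ℝ) else Real.exp (-(c1 * (κ : ℝ) ^ 2)))
      ≤ ∑' κ : ℤ, Real.exp (-(c1 * (i : ℝ) ^ 2 / 2)) * Real.exp (-(c1 / 2 * (κ : ℝ) ^ 2)) :=
        hsum.tsum_le_tsum hle (hS.mul_left _)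
    _ = Real.exp (-(c1 * (i : ℝ) ^ 2 / 2)) * ∑' κ : ℤ, Real.exp (-(c1 / 2 * (κ : ℝ) ^ 2)) := tsum_mul_left
    _ = Real.exp (Real.log (∑' κ : ℤ, Real.exp (-(c1 / 2 * (κ : ℝ) ^ 2))) - c1 * (i : ℝ) ^ 2 / 2) := by
        rw [sub_eq_add_neg, Real.exp_add, Real.exp_log hpos, mul_comm]

end Pool.Agent.LT
end

end

section

/-!
# MP_f58a57_nt, large transcendence degree, part C (row lt-C-U3)

Mixed derivatives of the modes: Cauchy estimate (twice pdlC_bound, with |hk kappa| <= exp(A - c1 kappa^2) on the unit polydiscs) and the sum over kappa (e.g. the difference Phi - sum over |kappa| < K of hk kappa is small on the unit polydiscs, so are its mixed derivatives; or uniform convergence).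
-/

open Complex Matrix MeasureTheory

noncomputable section

namespace Pool.Agent.LT

variable {c : ℕ}

namespace U3_

/-- iterated derivatives of a difference with a finite sum -/
theorem pdl_sub_sum {n : ℕ} {ι : Type} (s : Finset ι) (F0 : (Fin n → ℂ) → ℂ) (F : ι → (Fin n → ℂ) → ℂ)
    (h0 : Differentiable ℂ F0) (hF : ∀ i ∈ s, Differentiable ℂ (F i)) (w : List (Fin n)) :
    pdl w (fun u => F0 u - ∑ i ∈ s, F i u) = fun u => pdl w F0 u - ∑ i ∈ s, pdl w (F i) u := by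
  induction w with
  | nil => rfl
  | cons j w ih =>
    funext u
    change pd j (pdl w (fun u => F0 u - ∑ i ∈ s, F i u)) u = pd j (pdl w F0) u - ∑ i ∈ s, pd j (pdl w (F i)) u
    rw [ih]
    unfold pd
    have h1 : DifferentiableAt ℂ (pdl w F0) u := pdl_diff h0 w u
    have h2 : ∀ i ∈ s, DifferentiableAt ℂ (pdl w (F i)) u := fun i hi => pdl_diff (hF i hi) w u
    have h3 : HasFDerivAt (fun u => pdl w F0 u - ∑ i ∈ s, pdl w (F i) u)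
        (fderiv ℂ (pdl w F0) u - ∑ i ∈ s, fderiv ℂ (pdl w (F i)) u) u := by
      refine h1.hasFDerivAt.sub ?_
      exact HasFDerivAt.fun_sum fun i hi => (h2 i hi).hasFDerivAt
    rw [h3.fderiv]
    simp

variable {n : ℕ}

/-- the second variable -/
theorem diff_snd {Ψ : (Fin n → ℂ) → (Fin n → ℂ) → ℂ}
    (h : Differentiable ℂ (fun q : (Fin n → ℂ) × (Fin n → ℂ) => Ψ q.1 q.2)) (u : Fin n → ℂ) : Differentiable ℂ (Ψ u) := by
  have h1 : Differentiable ℂ (fun s : Fin n → ℂ => (u, s)) := (differentiable_const u).prodMk differentiable_id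
  exact h.comp h1

/-- the first variable of the derivative in the second variable -/
theorem diff_fst {Ψ : (Fin n → ℂ) → (Fin n → ℂ) → ℂ}
    (h : Differentiable ℂ (fun q : (Fin n → ℂ) × (Fin n → ℂ) => Ψ q.1 q.2)) (w : List (Fin n)) :
    Differentiable ℂ (fun u => pdl w (Ψ u) 0) := by
  have h1 : Differentiable ℂ (fun u : Fin n → ℂ => (u, (0 : Fin n → ℂ))) :=
    differentiable_id.prodMk (differentiable_const 0)
  exact (pdl_param Ψ h w).comp h1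

/-- the Cauchy estimate for mixed derivatives -/
theorem mix_le {Ψ : (Fin n → ℂ) → (Fin n → ℂ) → ℂ}
    (h : Differentiable ℂ (fun q : (Fin n → ℂ) × (Fin n → ℂ) => Ψ q.1 q.2)) {M : ℝ}
    (hM : ∀ u s : Fin n → ℂ, (∀ i, ‖u i‖ ≤ 1) → (∀ i, ‖s i‖ ≤ 1) → ‖Ψ u s‖ ≤ M) (w w' : List (Fin n)) :
    ‖mix Ψ w w'‖ ≤ (w.length : ℝ) ^ w.length * ((w'.length : ℝ) ^ w'.length * M) := by
  unfold mix
  refine pdlC_bound (diff_fst h w') ?_ w
  intro u hu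
  exact pdlC_bound (diff_snd h u) (fun s hs => hM u s hu hs) w'

/-- mixed derivatives of a difference with a finite sum -/
theorem mix_sub_sum {ι : Type} (t : Finset ι) {Ψ0 : (Fin n → ℂ) → (Fin n → ℂ) → ℂ} {Ψ : ι → (Fin n → ℂ) → (Fin n → ℂ) → ℂ}
    (h0 : Differentiable ℂ (fun q : (Fin n → ℂ) × (Fin n → ℂ) => Ψ0 q.1 q.2))
    (h : ∀ i, Differentiable ℂ (fun q : (Fin n → ℂ) × (Fin n → ℂ) => Ψ i q.1 q.2)) (w w' : List (Fin n)) :
    mix (fun u s => Ψ0 u s - ∑ i ∈ t, Ψ i u s) w w' = mix Ψ0 w w' - ∑ i ∈ t, mix (Ψ i) w w' := by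
  unfold mix
  have h1 : (fun u => pdl w' ((fun u s => Ψ0 u s - ∑ i ∈ t, Ψ i u s) u) 0)
      = fun u => pdl w' (Ψ0 u) 0 - ∑ i ∈ t, pdl w' (Ψ i u) 0 := by
    funext u
    exact congrFun (pdl_sub_sum t (Ψ0 u) (fun i => Ψ i u) (diff_snd h0 u) (fun i _ => diff_snd (h i) u) w') 0
  rw [h1]
  exact congrFun (pdl_sub_sum t (fun u => pdl w' (Ψ0 u) 0) (fun i u => pdl w' (Ψ i u) 0) (diff_fst h0 w')
    (fun i _ => diff_fst (h i) w') w) 0

/-- Gaussian sums over the integers -/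
theorem summable_gauss (A c1 : ℝ) (hc1 : 0 < c1) : Summable (fun κ : ℤ => Real.exp (A - c1 * (κ : ℝ) ^ 2)) := by
  have h0 : Summable (fun k : ℕ => Real.exp A * Real.exp (k * (-c1))) :=
    ((Real.summable_exp_nat_mul_iff (a := -c1)).2 (by linarith)).mul_left _
  have h1 : ∀ k : ℕ, Real.exp (A - c1 * (k : ℝ) ^ 2) ≤ Real.exp A * Real.exp (k * (-c1)) := by
    intro k
    rw [← Real.exp_add]
    refine Real.exp_le_exp.2 ?_
    have h2 : (k : ℝ) ≤ (k : ℝ) ^ 2 := by exact_mod_cast Nat.le_self_pow (by norm_num) k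
    nlinarith
  have h3 : Summable (fun k : ℕ => Real.exp (A - c1 * (k : ℝ) ^ 2)) :=
    h0.of_nonneg_of_le (fun _ => (Real.exp_pos _).le) h1
  refine Summable.of_nat_of_neg ?_ ?_
  · simpa using h3
  · simpa using h3

theorem nsq_le (u : VN c) (hu : ∀ i, ‖u i‖ ≤ 1) : nsq u ≤ 2 * c + 1 := by
  unfold nsq
  calc ∑ i, ‖u i‖ ^ 2 ≤ ∑ _i : Fin (2 * c + 1), (1 : ℝ) := by
        refine Finset.sum_le_sum fun i _ => ?_
        have := hu i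
        have h0 := norm_nonneg (u i)
        nlinarith
    _ = 2 * c + 1 := by simp

/-- the bound on the unit polydiscs -/
theorem poly_bound {D : Dat c} {Φ : VN c → VN c → ℂ} {C C' : (Fin (2 * c + 1) → ℤ) → ℂ} (hK : Ker D Φ C C') {μ : ℂ} (hμ : Mu D C μ) :
    ∃ A c1 : ℝ, 0 ≤ A ∧ 0 < c1 ∧ ∀ (κ : ℤ) (u s : VN c), (∀ i, ‖u i‖ ≤ 1) → (∀ i, ‖s i‖ ≤ 1) →
      ‖hk D Φ μ κ u s‖ ≤ Real.exp (A - c1 * (κ : ℝ) ^ 2) := by
  obtain ⟨A, c1, hA, hc1, h⟩ := hk_bound hK hμ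
  refine ⟨A * (1 + (2 * c + 1) + (2 * c + 1)), c1, by positivity, hc1, ?_⟩
  intro κ u s hu hs
  refine (h κ u s).trans (Real.exp_le_exp.2 ?_)
  have h1 := nsq_le u hu
  have h2 := nsq_le s hs
  have h3 : A * (1 + nsq u + nsq s) ≤ A * (1 + (2 * c + 1) + (2 * c + 1)) :=
    mul_le_mul_of_nonneg_left (by linarith) hA
  linarith

theorem pow_self_le {a T : ℕ} (h : a < T) : (a : ℝ) ^ a ≤ (T : ℝ) ^ T := by
  have hT : (1 : ℝ) ≤ T := by exact_mod_cast (by omega : 1 ≤ T)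
  calc (a : ℝ) ^ a ≤ (T : ℝ) ^ a := pow_le_pow_left₀ (by positivity) (by exact_mod_cast h.le) a
    _ ≤ (T : ℝ) ^ T := pow_le_pow_right₀ hT h.le

end U3_

theorem mix_bound {D : Dat c} {Φ : VN c → VN c → ℂ} {C C' : (Fin (2 * c + 1) → ℤ) → ℂ} (hK : Ker D Φ C C') {μ : ℂ} (hμ : Mu D C μ) :
    ∃ A c1 : ℝ, 0 ≤ A ∧ 0 < c1 ∧ ∀ (κ : ℤ) (T : ℕ) (w w' : List (Fin (2 * c + 1))), w.length < T → w'.length < T →
      ‖mix (hk D Φ μ κ) w w'‖ ≤ (T : ℝ) ^ (2 * T) * Real.exp (A - c1 * (κ : ℝ) ^ 2) := by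
  obtain ⟨A, c1, hA, hc1, h⟩ := U3_.poly_bound hK hμ
  refine ⟨A, c1, hA, hc1, ?_⟩
  intro κ T w w' hw hw'
  refine (U3_.mix_le (hk_diff hK μ κ) (h κ) w w').trans ?_
  rw [← mul_assoc]
  refine mul_le_mul_of_nonneg_right ?_ (Real.exp_pos _).le
  have h2T : (T : ℝ) ^ (2 * T) = (T : ℝ) ^ T * (T : ℝ) ^ T := by ring
  rw [h2T]
  exact mul_le_mul (U3_.pow_self_le hw) (U3_.pow_self_le hw') (by positivity) (by positivity)

theorem mix_hasSum {D : Dat c} {Φ : VN c → VN c → ℂ} {C C' : (Fin (2 * c + 1) → ℤ) → ℂ} (hK : Ker D Φ C C') {μ : ℂ} (hμ : Mu D C μ)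
    (w w' : List (Fin (2 * c + 1))) : HasSum (fun κ : ℤ => mix (hk D Φ μ κ) w w') (mix Φ w w') := by
  obtain ⟨A, c1, hA, hc1, h⟩ := U3_.poly_bound hK hμ
  have hg := U3_.summable_gauss A c1 hc1
  set K : ℝ := (w.length : ℝ) ^ w.length * (w'.length : ℝ) ^ w'.length with hKdef
  have htail : ∀ t : Finset ℤ, ‖mix Φ w w' - ∑ κ ∈ t, mix (hk D Φ μ κ) w w'‖
      ≤ K * ∑' κ : {x // x ∉ t}, Real.exp (A - c1 * ((κ : ℤ) : ℝ) ^ 2) := by
    intro t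
    rw [← U3_.mix_sub_sum t hK.diff (fun κ => hk_diff hK μ κ) w w']
    have hd : Differentiable ℂ (fun q : VN c × VN c => Φ q.1 q.2 - ∑ κ ∈ t, hk D Φ μ κ q.1 q.2) :=
      hK.diff.sub (Differentiable.fun_sum fun κ _ => hk_diff hK μ κ)
    refine (U3_.mix_le hd (M := ∑' κ : {x // x ∉ t}, Real.exp (A - c1 * ((κ : ℤ) : ℝ) ^ 2)) ?_ w w').trans
      (le_of_eq (by rw [hKdef]; ring))
    intro u s hu hs
    have hs1 := hk_sum hK hμ u s
    have h1 := hs1.summable.sum_add_tsum_subtype_compl t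
    rw [hs1.tsum_eq] at h1
    have h2 : Φ u s - ∑ κ ∈ t, hk D Φ μ κ u s = ∑' κ : {x // x ∉ t}, hk D Φ μ κ u s := by
      rw [← h1]; ring
    rw [h2]
    have h3 : Summable (fun κ : {x // x ∉ t} => Real.exp (A - c1 * ((κ : ℤ) : ℝ) ^ 2)) := hg.subtype _
    exact tsum_of_norm_bounded h3.hasSum (fun κ => h κ u s hu hs)
  have ht0 := tendsto_tsum_compl_atTop_zero (fun κ : ℤ => Real.exp (A - c1 * (κ : ℝ) ^ 2))
  have ht1 := ht0.const_mul K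
  rw [mul_zero] at ht1
  unfold HasSum
  rw [SummationFilter.unconditional_filter]
  rw [tendsto_iff_norm_sub_tendsto_zero]
  refine squeeze_zero (fun t => norm_nonneg _) (fun t => ?_) ht1
  rw [norm_sub_rev]
  exact htail t

end Pool.Agent.LT
end

end

section

/-!
# MP_f58a57_nt, large transcendence degree, part C (row lt-C-M8)

(C6): some mode does not vanish at (0,0) because the sum is Phi(0,0) = 1; then iterate hk_jump i times: hk (kappa0 + i m d) (i p) (i p') = C5^i ee(i(i-1) p^T L p') hk kappa0 0 0.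
-/

open Complex Matrix MeasureTheory

noncomputable section

namespace Pool.Agent.LT

variable {c : ℕ}

namespace M8_

theorem norm_ee (x : ℂ) : ‖ee x‖ = Real.exp (-(2 * Real.pi * x.im)) := by
  unfold ee
  rw [Complex.norm_exp]
  congr 1
  simp

theorem ee_add (x y : ℂ) : ee (x + y) = ee x * ee y := by
  unfold ee
  rw [← Complex.exp_add]
  congr 1
  ring

theorem hk_iter {D : Dat c} {Φ : VN c → VN c → ℂ} {p p' : VN c} {nn : Fin (2 * c + 1) → ℤ} {C5 : ℂ} {m : ℤ}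
    (hJ : Jump D Φ p p' nn C5 m) (μ : ℂ) (κ : ℤ) (i : ℕ) :
    hk D Φ μ (κ + (i : ℕ) * m * D.d) ((i : ℂ) • p) ((i : ℂ) • p')
      = C5 ^ i * ee ((i : ℂ) * ((i : ℂ) - 1) * (p ⬝ᵥ (D.L *ᵥ p'))) * hk D Φ μ κ 0 0 := by
  induction i with
  | zero =>
    simp [ee]
  | succ i ih =>
    have h1 : (((i + 1 : ℕ) : ℂ)) • p = (i : ℂ) • p + p := by
      push_cast
      rw [add_smul, one_smul]
    have h2 : (((i + 1 : ℕ) : ℂ)) • p' = (i : ℂ) • p' + p' := by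
      push_cast
      rw [add_smul, one_smul]
    rw [h1, h2, hk_jump hJ]
    have h3 : κ + ((i + 1 : ℕ) : ℤ) * m * D.d - m * D.d = κ + (i : ℕ) * m * D.d := by
      push_cast
      ring
    rw [h3, ih, Matrix.mulVec_smul, dotProduct_smul, smul_dotProduct]
    have h4 : ee ((((i + 1 : ℕ) : ℂ)) * ((((i + 1 : ℕ) : ℂ)) - 1) * (p ⬝ᵥ (D.L *ᵥ p')))
        = ee ((i : ℂ) • (p ⬝ᵥ (D.L *ᵥ p')) + (i : ℂ) • (p ⬝ᵥ (D.L *ᵥ p')))
          * ee ((i : ℂ) * ((i : ℂ) - 1) * (p ⬝ᵥ (D.L *ᵥ p'))) := by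
      rw [← ee_add]
      congr 1
      push_cast
      simp only [smul_eq_mul]
      ring
    rw [h4, pow_succ]
    ring

end M8_

open M8_ in
theorem hk_low {D : Dat c} {Φ : VN c → VN c → ℂ} {C C' : (Fin (2 * c + 1) → ℤ) → ℂ} (hK : Ker D Φ C C') {μ : ℂ} (hμ : Mu D C μ)
    {p p' : VN c} {nn : Fin (2 * c + 1) → ℤ} {C5 : ℂ} {m : ℤ} (hJ : Jump D Φ p p' nn C5 m) :
    ∃ (κ : ℤ) (A : ℝ), 0 ≤ A ∧ ∀ i : ℕ, Real.exp (-(A * (1 + (i : ℝ) ^ 2))) ≤ ‖hk D Φ μ (κ + (i : ℕ) * m * D.d) ((i : ℂ) • p) ((i : ℂ) • p')‖ := by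
  have hsum := hk_sum hK hμ 0 0
  rw [hK.one] at hsum
  obtain ⟨κ, hκ⟩ : ∃ κ : ℤ, hk D Φ μ κ 0 0 ≠ 0 := by
    by_contra hcon
    push Not at hcon
    have h0 : (fun κ : ℤ => hk D Φ μ κ 0 0) = fun _ => 0 := by
      funext κ
      exact hcon κ
    rw [h0] at hsum
    exact one_ne_zero (hsum.unique hasSum_zero)
  refine ⟨κ, |Real.log ‖C5‖| + 2 * Real.pi * |(p ⬝ᵥ (D.L *ᵥ p')).im| + |Real.log ‖hk D Φ μ κ 0 0‖|, by positivity, ?_⟩
  intro i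
  rw [hk_iter hJ μ κ i, norm_mul, norm_mul, norm_pow, norm_ee]
  have hC5 : 0 < ‖C5‖ := norm_pos_iff.mpr hJ.ne
  have hh0 : 0 < ‖hk D Φ μ κ 0 0‖ := norm_pos_iff.mpr hκ
  have him : ((i : ℂ) * ((i : ℂ) - 1) * (p ⬝ᵥ (D.L *ᵥ p'))).im = (i : ℝ) * ((i : ℝ) - 1) * (p ⬝ᵥ (D.L *ᵥ p')).im := by
    have : (i : ℂ) * ((i : ℂ) - 1) = (((i : ℝ) * ((i : ℝ) - 1) : ℝ) : ℂ) := by push_cast; ring
    rw [this, Complex.im_ofReal_mul]
  rw [him]
  have e1 : ‖C5‖ ^ i = Real.exp (i * Real.log ‖C5‖) := by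
    rw [mul_comm, Real.exp_mul, Real.exp_log hC5, Real.rpow_natCast]
  have e2 : ‖hk D Φ μ κ 0 0‖ = Real.exp (Real.log ‖hk D Φ μ κ 0 0‖) := (Real.exp_log hh0).symm
  rw [e1]
  rw [show Real.exp (i * Real.log ‖C5‖) * Real.exp (-(2 * Real.pi * ((i : ℝ) * ((i : ℝ) - 1) * (p ⬝ᵥ (D.L *ᵥ p')).im))) * ‖hk D Φ μ κ 0 0‖
    = Real.exp (i * Real.log ‖C5‖ + -(2 * Real.pi * ((i : ℝ) * ((i : ℝ) - 1) * (p ⬝ᵥ (D.L *ᵥ p')).im)) + Real.log ‖hk D Φ μ κ 0 0‖) by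
      rw [Real.exp_add, Real.exp_add, ← e2]]
  apply Real.exp_le_exp.mpr
  have hi : (0 : ℝ) ≤ i := Nat.cast_nonneg i
  have b1 : -(|Real.log ‖C5‖| * (1 + (i : ℝ) ^ 2)) ≤ i * Real.log ‖C5‖ := by
    have h1 := neg_abs_le (Real.log ‖C5‖)
    have h2 : (i : ℝ) ≤ 1 + (i : ℝ) ^ 2 := by nlinarith [sq_nonneg ((i : ℝ) - 1)]
    have h3 := abs_nonneg (Real.log ‖C5‖)
    nlinarith [mul_le_mul_of_nonneg_left h2 h3, mul_le_mul_of_nonneg_left h1 hi]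
  have b2 : -(2 * Real.pi * |(p ⬝ᵥ (D.L *ᵥ p')).im| * (1 + (i : ℝ) ^ 2))
      ≤ -(2 * Real.pi * ((i : ℝ) * ((i : ℝ) - 1) * (p ⬝ᵥ (D.L *ᵥ p')).im)) := by
    have h1 : (i : ℝ) * ((i : ℝ) - 1) * (p ⬝ᵥ (D.L *ᵥ p')).im ≤ |(p ⬝ᵥ (D.L *ᵥ p')).im| * (1 + (i : ℝ) ^ 2) := by
      refine (le_abs_self _).trans ?_
      rw [abs_mul, mul_comm]
      refine mul_le_mul_of_nonneg_left ?_ (abs_nonneg _)
      rw [abs_le]
      constructor
      · nlinarith [sq_nonneg ((i : ℝ) - 1)]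
      · nlinarith
    have h2 := Real.pi_pos
    nlinarith [mul_le_mul_of_nonneg_left h1 (by positivity : (0 : ℝ) ≤ 2 * Real.pi)]
  have b3 : -(|Real.log ‖hk D Φ μ κ 0 0‖| * (1 + (i : ℝ) ^ 2)) ≤ Real.log ‖hk D Φ μ κ 0 0‖ := by
    have h1 := neg_abs_le (Real.log ‖hk D Φ μ κ 0 0‖)
    have h3 := abs_nonneg (Real.log ‖hk D Φ μ κ 0 0‖)
    nlinarith [mul_nonneg h3 (sq_nonneg (i : ℝ))]
  linarith

end Pool.Agent.LT
end

end

section

/-!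
# MP_f58a57_nt, large transcendence degree, part C (row lt-C-B8)

Fourth step of C.4: y_i is small: gy_extract at s = i p' (Y(i p' + xi g) = i Y(p') <= k/K), gy_small and hk_low.
-/

open Complex Matrix MeasureTheory

noncomputable section

namespace Pool.Agent.LT

variable {c : ℕ}

namespace B8_

theorem nsq_nonneg {n : ℕ} (z : Fin n → ℂ) : 0 ≤ nsq z := Finset.sum_nonneg fun i _ => sq_nonneg _

theorem nsq_add_le {n : ℕ} (z w : Fin n → ℂ) : nsq (z + w) ≤ 2 * nsq z + 2 * nsq w := by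
  unfold nsq
  rw [Finset.mul_sum, Finset.mul_sum, ← Finset.sum_add_distrib]
  refine Finset.sum_le_sum fun i _ => ?_
  have h1 : ‖(z + w) i‖ ≤ ‖z i‖ + ‖w i‖ := norm_add_le _ _
  have h2 : ‖(z + w) i‖ ^ 2 ≤ (‖z i‖ + ‖w i‖) ^ 2 := pow_le_pow_left₀ (norm_nonneg _) h1 2
  nlinarith [sq_nonneg (‖z i‖ - ‖w i‖)]

theorem nsq_smul {n : ℕ} (a : ℂ) (z : Fin n → ℂ) : nsq (a • z) = ‖a‖ ^ 2 * nsq z := by
  unfold nsq
  rw [Finset.mul_sum]
  refine Finset.sum_congr rfl fun i _ => ?_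
  rw [Pi.smul_apply, smul_eq_mul, norm_mul, mul_pow]

theorem norm_ee' (x : ℂ) : ‖ee x‖ = Real.exp (-(2 * Real.pi * x.im)) := by
  unfold ee
  rw [Complex.norm_exp]
  congr 1
  simp

theorem norm_ee_le (x : ℂ) : ‖ee x‖ ≤ Real.exp (2 * Real.pi * ‖x‖) := by
  rw [norm_ee']
  apply Real.exp_le_exp.mpr
  have h1 : |x.im| ≤ ‖x‖ := Complex.abs_im_le_norm x
  have h2 := neg_abs_le x.im
  have hp := Real.pi_pos
  nlinarith

theorem norm_ee_real (r : ℝ) : ‖ee (r : ℂ)‖ = 1 := by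
  rw [norm_ee']; simp

end B8_

open B8_ in
theorem y_small {D : Dat c} {Φ : VN c → VN c → ℂ} {C C' : (Fin (2 * c + 1) → ℤ) → ℂ} (hK : Ker D Φ C C') (hI : INT D.d D.g D.L C')
    {μ : ℂ} (hμ : Mu D C μ) {p p' : VN c} {nn : Fin (2 * c + 1) → ℤ} {C5 : ℂ} {m : ℤ} (hJ : Jump D Φ p p' nn C5 m) {ε : ℝ} (hε : 0 < ε) (hε' : ε ≤ 1 / 20) :
    ∃ (κ : ℤ) (K T1 : ℝ), 1 ≤ K ∧ ∀ T : ℕ, T1 ≤ (T : ℝ) → ∀ k : ℝ, (T : ℝ) ^ (1 / 2 + ε) ≤ k → k ≤ (T : ℝ) ^ ((c : ℝ) + 1 - ε) →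
      ∀ (j : ℕ) (y : Fin j → ℂ), K * j ≤ k → (∀ i, ‖y i‖ ≤ 1) →
        (∀ w : List (Fin (2 * c + 1)), w.length < T → ‖pdl w (gy D Φ μ κ m p y) 0‖ ≤ Real.exp (-((T : ℝ) ^ ε * k ^ 2))) →
          ∀ i, ‖y i‖ ≤ Real.exp (K * (1 + (j : ℝ) ^ 2) - k ^ 2 / K) := by
  obtain ⟨κ, A, hA, hlow⟩ := hk_low hK hμ hJ
  obtain ⟨b, Y, hd⟩ := exists_dec D D.L (Or.inr rfl)
  obtain ⟨K0, T10, hK0, hgy⟩ := gy_small hK hI hd hμ κ m p hε hε'
  set d : ℝ := (D.d : ℝ) with hdef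
  have hdpos : 0 < d := by rw [hdef]; exact_mod_cast D.hd
  set B : ℝ := 2 * nsq p' + 2 * (d ^ 2 * nsq D.gc) with hBdef
  have hB : 0 ≤ B := by
    have h1 := nsq_nonneg p'
    have h2 := nsq_nonneg D.gc
    positivity
  set B2 : ℝ := 2 * Real.pi * (‖D.nu‖ * d ^ 2 / 2 + d * ‖D.v0 ⬝ᵥ p'‖ + ‖μ‖ * d) with hB2def
  have hB2 : 0 ≤ B2 := by
    have hp := Real.pi_pos
    positivity
  set K : ℝ := K0 * (1 + |Y p'|) + K0 * (1 + B) + K0 + B2 * 2 + A with hKdef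
  have hY0 : 0 ≤ |Y p'| := abs_nonneg _
  have hKK0 : K0 ≤ K := by
    have : 0 ≤ K0 * |Y p'| := by positivity
    have : 0 ≤ K0 * (1 + B) := by positivity
    rw [hKdef]; nlinarith
  have hK1 : 1 ≤ K := hK0.trans hKK0
  have hKY : K0 * |Y p'| ≤ K := by
    have : 0 ≤ K0 * (1 + B) := by positivity
    rw [hKdef]; nlinarith
  refine ⟨κ, K, T10, hK1, fun T hT k hk1 hk2 j y hj hy hpd i => ?_⟩
  have hg := hgy T hT k hk1 hk2 j y hy hpd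
  have hk0 : 0 ≤ k := le_trans (by positivity) hj
  have hij : ((i : ℕ) : ℝ) ≤ j := by exact_mod_cast i.isLt.le
  have hi0 : (0 : ℝ) ≤ ((i : ℕ) : ℝ) := Nat.cast_nonneg _
  have hj0 : (0 : ℝ) ≤ (j : ℝ) := Nat.cast_nonneg _
  have hi2 : ((i : ℕ) : ℝ) ^ 2 ≤ (j : ℝ) ^ 2 := pow_le_pow_left₀ hi0 hij 2
  have hi1 : ((i : ℕ) : ℝ) ≤ 1 + (j : ℝ) ^ 2 := by nlinarith [sq_nonneg ((j : ℝ) - 1)]
  -- the extraction formula
  have hex := gy_extract hK hμ κ m hJ.pos p ((((i : ℕ) : ℂ)) • p') y i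
  have hYs : ∀ ξ : ℝ, Y ((((i : ℕ) : ℂ)) • p' + (ξ : ℂ) • D.gc) = ((i : ℕ) : ℝ) * Y p' := by
    intro ξ
    rw [map_add, hd.Y_g, add_zero]
    have : (((i : ℕ) : ℂ)) • p' = (((i : ℕ) : ℝ)) • p' := by
      ext l; simp
    rw [this, map_smul, smul_eq_mul]
  have hE : ∀ ξ ∈ Set.uIoc (0 : ℝ) (D.d : ℝ), ‖gy D Φ μ κ m p y ((((i : ℕ) : ℂ)) • p' + (ξ : ℂ) • D.gc) *
      ee (D.nu * ξ ^ 2 / 2 + ξ * (D.v0 ⬝ᵥ ((((i : ℕ) : ℂ)) • p')) + μ * ξ) * ee (-(((κ + (i : ℕ) * m * D.d : ℤ) : ℂ) * ξ / D.d))‖ ≤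
      Real.exp (K0 * (1 + B * (1 + (j : ℝ) ^ 2)) + K0 * (1 + (j : ℝ) ^ 2) - k ^ 2 / K0) * Real.exp (B2 * (2 * (1 + (j : ℝ) ^ 2))) := by
    intro ξ hξ
    rw [Set.uIoc_of_le hdpos.le] at hξ
    have hξ0 : 0 ≤ ξ := hξ.1.le
    have hξd : ξ ≤ d := hξ.2
    rw [norm_mul, norm_mul]
    have e3 : ‖ee (-(((κ + (i : ℕ) * m * D.d : ℤ) : ℂ) * ξ / D.d))‖ = 1 := by
      have : (-(((κ + (i : ℕ) * m * D.d : ℤ) : ℂ) * ξ / D.d)) = ((-(((κ + (i : ℕ) * m * D.d : ℤ) : ℝ) * ξ / D.d) : ℝ) : ℂ) := by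
        push_cast; ring
      rw [this, norm_ee_real]
    rw [e3, mul_one]
    refine mul_le_mul ?_ ?_ (norm_nonneg _) (Real.exp_pos _).le
    · refine (hg _ ?_).trans (Real.exp_le_exp.mpr ?_)
      · rw [hYs, abs_mul, abs_of_nonneg hi0, le_div_iff₀ (by linarith)]
        calc ((i : ℕ) : ℝ) * |Y p'| * K0 = ((i : ℕ) : ℝ) * (K0 * |Y p'|) := by ring
          _ ≤ (j : ℝ) * K := mul_le_mul hij hKY (by positivity) hj0
          _ = K * j := by ring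
          _ ≤ k := hj
      · have h1 : nsq ((((i : ℕ) : ℂ)) • p' + (ξ : ℂ) • D.gc) ≤ B * (1 + (j : ℝ) ^ 2) := by
          refine (nsq_add_le _ _).trans ?_
          rw [nsq_smul, nsq_smul]
          have e1 : ‖(((i : ℕ) : ℂ))‖ = ((i : ℕ) : ℝ) := by simp
          have e2 : ‖(ξ : ℂ)‖ = ξ := by rw [Complex.norm_real, Real.norm_of_nonneg hξ0]
          rw [e1, e2]
          have h2 : ξ ^ 2 ≤ d ^ 2 := pow_le_pow_left₀ hξ0 hξd 2
          have n1 := nsq_nonneg p'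
          have n2 := nsq_nonneg D.gc
          have h3 : ξ ^ 2 * nsq D.gc ≤ d ^ 2 * nsq D.gc := mul_le_mul_of_nonneg_right h2 n2
          have h4 : ((i : ℕ) : ℝ) ^ 2 * nsq p' ≤ (j : ℝ) ^ 2 * nsq p' := mul_le_mul_of_nonneg_right hi2 n1
          have h5 : 0 ≤ (j : ℝ) ^ 2 * (d ^ 2 * nsq D.gc) := by positivity
          rw [hBdef]
          nlinarith
        have hK00 : 0 ≤ K0 := by linarith
        have := mul_le_mul_of_nonneg_left h1 hK00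
        linarith
    · refine (norm_ee_le _).trans (Real.exp_le_exp.mpr ?_)
      have hn : ‖D.nu * (ξ : ℂ) ^ 2 / 2 + ξ * (D.v0 ⬝ᵥ ((((i : ℕ) : ℂ)) • p')) + μ * ξ‖ ≤
          ‖D.nu‖ * d ^ 2 / 2 + d * (((i : ℕ) : ℝ) * ‖D.v0 ⬝ᵥ p'‖) + ‖μ‖ * d := by
        refine (norm_add_le _ _).trans (add_le_add ((norm_add_le _ _).trans (add_le_add ?_ ?_)) ?_)
        · rw [norm_div, norm_mul, norm_pow, Complex.norm_real, Real.norm_of_nonneg hξ0]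
          have h2 : ξ ^ 2 ≤ d ^ 2 := pow_le_pow_left₀ hξ0 hξd 2
          have : ‖(2 : ℂ)‖ = 2 := by simp
          rw [this]
          have := mul_le_mul_of_nonneg_left h2 (norm_nonneg D.nu)
          linarith
        · rw [norm_mul, Complex.norm_real, Real.norm_of_nonneg hξ0, dotProduct_smul, smul_eq_mul, norm_mul]
          have : ‖(((i : ℕ) : ℂ))‖ = ((i : ℕ) : ℝ) := by simp
          rw [this]
          exact mul_le_mul_of_nonneg_right hξd (by positivity)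
        · rw [norm_mul, Complex.norm_real, Real.norm_of_nonneg hξ0]
          exact mul_le_mul_of_nonneg_left hξd (norm_nonneg _)
      have hp := Real.pi_pos
      refine (mul_le_mul_of_nonneg_left hn (by positivity)).trans ?_
      rw [hB2def]
      have a1 : 0 ≤ ‖D.nu‖ * d ^ 2 / 2 := by positivity
      have a2 : 0 ≤ d * ‖D.v0 ⬝ᵥ p'‖ := by positivity
      have a3 : 0 ≤ ‖μ‖ * d := by positivity
      have hj2 : 0 ≤ (j : ℝ) ^ 2 := by positivity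
      have b2 : d * (((i : ℕ) : ℝ) * ‖D.v0 ⬝ᵥ p'‖) ≤ (d * ‖D.v0 ⬝ᵥ p'‖) * (2 * (1 + (j : ℝ) ^ 2)) := by
        have := mul_le_mul_of_nonneg_left hi1 a2
        nlinarith [mul_nonneg a2 hj2]
      have b1 : ‖D.nu‖ * d ^ 2 / 2 ≤ (‖D.nu‖ * d ^ 2 / 2) * (2 * (1 + (j : ℝ) ^ 2)) := by nlinarith [mul_nonneg a1 hj2]
      have b3 : ‖μ‖ * d ≤ (‖μ‖ * d) * (2 * (1 + (j : ℝ) ^ 2)) := by nlinarith [mul_nonneg a3 hj2]
      calc 2 * Real.pi * (‖D.nu‖ * d ^ 2 / 2 + d * (((i : ℕ) : ℝ) * ‖D.v0 ⬝ᵥ p'‖) + ‖μ‖ * d)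
          ≤ 2 * Real.pi * ((‖D.nu‖ * d ^ 2 / 2) * (2 * (1 + (j : ℝ) ^ 2)) + (d * ‖D.v0 ⬝ᵥ p'‖) * (2 * (1 + (j : ℝ) ^ 2)) +
            (‖μ‖ * d) * (2 * (1 + (j : ℝ) ^ 2))) := mul_le_mul_of_nonneg_left (by linarith) (by positivity)
        _ = 2 * Real.pi * (‖D.nu‖ * d ^ 2 / 2 + d * ‖D.v0 ⬝ᵥ p'‖ + ‖μ‖ * d) * (2 * (1 + (j : ℝ) ^ 2)) := by ring
  have hint := intervalIntegral.norm_integral_le_of_norm_le_const hE
  have hnorm := congrArg norm hex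
  rw [norm_mul, norm_mul, norm_inv] at hnorm
  have hdn : ‖(D.d : ℂ)‖ = d := by rw [hdef]; simp
  rw [hdn] at hnorm
  rw [sub_zero, abs_of_nonneg hdpos.le] at hint
  set E : ℝ := K0 * (1 + B * (1 + (j : ℝ) ^ 2)) + K0 * (1 + (j : ℝ) ^ 2) - k ^ 2 / K0 + B2 * (2 * (1 + (j : ℝ) ^ 2)) with hEdef
  have h1 : ‖y i‖ * ‖hk D Φ μ (κ + (i : ℕ) * m * D.d) (((i : ℕ) : ℂ) • p) (((i : ℕ) : ℂ) • p')‖ ≤ Real.exp E := by
    rw [hnorm, hEdef, Real.exp_add, inv_mul_le_iff₀ hdpos]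
    calc _ ≤ _ := hint
      _ = _ := by ring
  have h2 := hlow i
  have h3 : ‖y i‖ * Real.exp (-(A * (1 + ((i : ℕ) : ℝ) ^ 2))) ≤ Real.exp E :=
    (mul_le_mul_of_nonneg_left h2 (norm_nonneg _)).trans h1
  have h4 : ‖y i‖ ≤ Real.exp (E + A * (1 + ((i : ℕ) : ℝ) ^ 2)) := by
    rw [Real.exp_add]
    have h5 : Real.exp (-(A * (1 + ((i : ℕ) : ℝ) ^ 2))) * Real.exp (A * (1 + ((i : ℕ) : ℝ) ^ 2)) = 1 := by
      rw [← Real.exp_add]; simp
    calc ‖y i‖ = ‖y i‖ * Real.exp (-(A * (1 + ((i : ℕ) : ℝ) ^ 2))) * Real.exp (A * (1 + ((i : ℕ) : ℝ) ^ 2)) := by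
          rw [mul_assoc, h5, mul_one]
      _ ≤ _ := mul_le_mul_of_nonneg_right h3 (Real.exp_pos _).le
  refine h4.trans (Real.exp_le_exp.mpr ?_)
  have hJ2 : 0 ≤ (j : ℝ) ^ 2 := by positivity
  have hk2' : k ^ 2 / K ≤ k ^ 2 / K0 := div_le_div_of_nonneg_left (by positivity) (by linarith) hKK0
  have hAi : A * (1 + ((i : ℕ) : ℝ) ^ 2) ≤ A * (1 + (j : ℝ) ^ 2) := mul_le_mul_of_nonneg_left (by linarith) hA
  have hK00 : 0 ≤ K0 := by linarith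
  have c1 : K0 * (1 + B * (1 + (j : ℝ) ^ 2)) ≤ K0 * (1 + B) * (1 + (j : ℝ) ^ 2) := by
    have : 0 ≤ K0 * (j : ℝ) ^ 2 := by positivity
    nlinarith
  have c2 : 0 ≤ K0 * (1 + |Y p'|) * (1 + (j : ℝ) ^ 2) := by positivity
  rw [hEdef, hKdef] at *
  nlinarith

end Pool.Agent.LT
end

end

section

/-!
# MP_f58a57_nt, large transcendence degree, part C (row lt-C-U5)

THE UPPER BOUND (C.3). i(l) := l / (2 d1) (natural division, l : Fin j counted from 0), S l := inf over |kappa| < i(l) of WW kappa s, E from exists_unitary_cols; for q in S l: (B_(r,s) q)_a = sum over |kappa| >= i(l); bound j T^(2T) exp(A) gauss_tail; i(l) >= (l+1)/(2 d1) - 1, so i^2 >= (l+1)^2/(8 d1^2) - 1; constants are absorbed by C T log T (T >= 2).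
-/

open Complex Matrix MeasureTheory

noncomputable section

namespace Pool.Agent.LT

variable {c : ℕ}

namespace U5_

private theorem pdl_zero {n : ℕ} (w : List (Fin n)) (u : Fin n → ℂ) : pdl w (fun _ : Fin n → ℂ => (0 : ℂ)) u = 0 := by
  have h := pdlC_sum (n := n) (∅ : Finset ℕ) (fun _ => (0 : ℂ)) (fun _ _ => (0 : ℂ)) (fun i hi => by simp at hi) w u
  simpa using h

theorem slice_diff {n : ℕ} (H : (Fin n → ℂ) → (Fin n → ℂ) → ℂ)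
    (h : Differentiable ℂ (fun q : (Fin n → ℂ) × (Fin n → ℂ) => H q.1 q.2)) (w : List (Fin n)) :
    Differentiable ℂ (fun u : Fin n → ℂ => pdl w (H u) 0) := by
  have h1 := pdl_param H h w
  have h2 : Differentiable ℂ (fun u : Fin n → ℂ => ((u, 0) : (Fin n → ℂ) × (Fin n → ℂ))) :=
    differentiable_id.prodMk (differentiable_const _)
  generalize hG : (fun q : (Fin n → ℂ) × (Fin n → ℂ) => pdl w (H q.1) q.2) = G at h1
  have h3 : (fun u : Fin n → ℂ => pdl w (H u) 0) = fun u => G (u, 0) := by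
    rw [← hG]
  rw [h3]
  exact Differentiable.comp (g := G) h1 h2

/-- the modes with `|κ| < i` do not contribute -/
private theorem mode_zero {D : Dat c} {Φ : VN c → VN c → ℂ} {C C' : (Fin (2 * c + 1) → ℤ) → ℂ} (hK : Ker D Φ C C') (μ : ℂ) (κ : ℤ)
    {j : ℕ} (s : Fin j → List (Fin (2 * c + 1))) (q : Fin j → ℂ) (hq : q ∈ WW D Φ μ κ s) (w : List (Fin (2 * c + 1))) :
    ∑ m, mix (hk D Φ μ κ) w (s m) * q m = 0 := by
  have hd : ∀ m ∈ (Finset.univ : Finset (Fin j)), Differentiable ℂ (fun u : VN c => pdl (s m) (hk D Φ μ κ u) 0) := by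
    intro m _
    exact slice_diff (hk D Φ μ κ) (hk_diff hK μ κ) (s m)
  have h := pdlC_sum (Finset.univ : Finset (Fin j)) q (fun m u => pdl (s m) (hk D Φ μ κ u) 0) hd w 0
  have h0 : (fun u : VN c => ∑ m, q m * pdl (s m) (hk D Φ μ κ u) 0) = fun _ => 0 := by
    funext u
    exact hq u
  rw [h0, pdl_zero] at h
  rw [h]
  refine Finset.sum_congr rfl fun m _ => ?_
  rw [mix]
  ring

private theorem main_est {D : Dat c} {Φ : VN c → VN c → ℂ} {C C' : (Fin (2 * c + 1) → ℤ) → ℂ} (hK : Ker D Φ C C') {μ : ℂ} (hμ : Mu D C μ)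
    {A c1 A' : ℝ} (hmb : ∀ (κ : ℤ) (T : ℕ) (w w' : List (Fin (2 * c + 1))), w.length < T → w'.length < T →
      ‖mix (hk D Φ μ κ) w w'‖ ≤ (T : ℝ) ^ (2 * T) * Real.exp (A - c1 * (κ : ℝ) ^ 2))
    (htail : ∀ i : ℕ, Summable (fun κ : ℤ => if |κ| < i then (0 : ℝ) else Real.exp (-(c1 * (κ : ℝ) ^ 2))) ∧
      ∑' κ : ℤ, (if |κ| < i then (0 : ℝ) else Real.exp (-(c1 * (κ : ℝ) ^ 2))) ≤ Real.exp (A' - c1 * (i : ℝ) ^ 2 / 2))
    {T j : ℕ} (w : List (Fin (2 * c + 1))) (hw : w.length < T) (s : Fin j → List (Fin (2 * c + 1))) (hs : ∀ m, (s m).length < T)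
    (q : Fin j → ℂ) (hq1 : ∀ m, ‖q m‖ ≤ 1) (i : ℕ) (hq : ∀ κ : ℤ, |κ| < i → q ∈ WW D Φ μ κ s) :
    ‖∑ m, mix Φ w (s m) * q m‖ ≤ j * ((T : ℝ) ^ (2 * T) * Real.exp A * Real.exp (A' - c1 * (i : ℝ) ^ 2 / 2)) := by
  have hsum : HasSum (fun κ : ℤ => ∑ m, mix (hk D Φ μ κ) w (s m) * q m) (∑ m, mix Φ w (s m) * q m) :=
    hasSum_sum fun m _ => (mix_hasSum hK hμ w (s m)).mul_right (q m)
  obtain ⟨hS, hT⟩ := htail i
  set K : ℝ := j * ((T : ℝ) ^ (2 * T) * Real.exp A) with hKdef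
  have hK0 : 0 ≤ K := by positivity
  have hterm : ∀ κ : ℤ, ‖∑ m, mix (hk D Φ μ κ) w (s m) * q m‖ ≤ K * (if |κ| < i then (0 : ℝ) else Real.exp (-(c1 * (κ : ℝ) ^ 2))) := by
    intro κ
    by_cases hκ : |κ| < i
    · rw [mode_zero hK μ κ s q (hq κ hκ) w]
      simp [hκ]
    · rw [if_neg hκ]
      calc ‖∑ m, mix (hk D Φ μ κ) w (s m) * q m‖ ≤ ∑ m : Fin j, ‖mix (hk D Φ μ κ) w (s m) * q m‖ := norm_sum_le _ _
        _ ≤ ∑ m : Fin j, (T : ℝ) ^ (2 * T) * Real.exp (A - c1 * (κ : ℝ) ^ 2) := by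
            refine Finset.sum_le_sum fun m _ => ?_
            rw [norm_mul]
            calc ‖mix (hk D Φ μ κ) w (s m)‖ * ‖q m‖ ≤ ((T : ℝ) ^ (2 * T) * Real.exp (A - c1 * (κ : ℝ) ^ 2)) * 1 :=
                  mul_le_mul (hmb κ T w (s m) hw (hs m)) (hq1 m) (norm_nonneg _) (by positivity)
              _ = _ := by ring
        _ = K * Real.exp (-(c1 * (κ : ℝ) ^ 2)) := by
            rw [Finset.sum_const, Finset.card_univ, Fintype.card_fin, nsmul_eq_mul, hKdef,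
              show A - c1 * (κ : ℝ) ^ 2 = A + -(c1 * (κ : ℝ) ^ 2) by ring, Real.exp_add]
            ring
  have hSK : Summable (fun κ : ℤ => K * (if |κ| < i then (0 : ℝ) else Real.exp (-(c1 * (κ : ℝ) ^ 2)))) := hS.mul_left K
  have hnorm : Summable (fun κ : ℤ => ‖∑ m, mix (hk D Φ μ κ) w (s m) * q m‖) :=
    Summable.of_nonneg_of_le (fun _ => norm_nonneg _) hterm hSK
  calc ‖∑ m, mix Φ w (s m) * q m‖ = ‖∑' κ : ℤ, ∑ m, mix (hk D Φ μ κ) w (s m) * q m‖ := by rw [hsum.tsum_eq]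
    _ ≤ ∑' κ : ℤ, ‖∑ m, mix (hk D Φ μ κ) w (s m) * q m‖ := norm_tsum_le_tsum_norm hnorm
    _ ≤ ∑' κ : ℤ, K * (if |κ| < i then (0 : ℝ) else Real.exp (-(c1 * (κ : ℝ) ^ 2))) := hnorm.tsum_le_tsum hterm hSK
    _ = K * ∑' κ : ℤ, (if |κ| < i then (0 : ℝ) else Real.exp (-(c1 * (κ : ℝ) ^ 2))) := tsum_mul_left
    _ ≤ K * Real.exp (A' - c1 * (i : ℝ) ^ 2 / 2) := mul_le_mul_of_nonneg_left hT hK0
    _ = _ := by rw [hKdef]; ring

private theorem num_est {A A' c1 : ℝ} (hc1 : 0 < c1) {d1 : ℕ} (hd1 : 1 ≤ d1) {T : ℕ} (hT : 2 ≤ T) (l : ℕ) :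
    (T : ℝ) ^ (2 * T) * Real.exp A * Real.exp (A' - c1 * ((l / (2 * d1) : ℕ) : ℝ) ^ 2 / 2) ≤
      Real.exp (-(c1 / (16 * (d1 : ℝ) ^ 2)) * ((l : ℕ) + 1 : ℝ) ^ 2 + (2 + |A + A' + c1 / 2|) * T * Real.log T) := by
  have hd : (1 : ℝ) ≤ d1 := by exact_mod_cast hd1
  have hd0 : (0 : ℝ) < d1 := by linarith
  have hT2 : (2 : ℝ) ≤ T := by exact_mod_cast hT
  have hT0 : (0 : ℝ) < T := by linarith
  set i : ℕ := l / (2 * d1) with hi
  have h1 : l < 2 * d1 * (i + 1) := by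
    have := Nat.lt_mul_div_succ l (show 0 < 2 * d1 by omega)
    simpa [hi] using this
  have h2 : ((l : ℝ) + 1) ≤ 2 * d1 * ((i : ℝ) + 1) := by exact_mod_cast h1
  have h3 : ((l : ℝ) + 1) ^ 2 ≤ 4 * (d1 : ℝ) ^ 2 * (2 * (i : ℝ) ^ 2 + 2) := by
    have hl0 : (0 : ℝ) ≤ (l : ℝ) + 1 := by positivity
    calc ((l : ℝ) + 1) ^ 2 ≤ (2 * d1 * ((i : ℝ) + 1)) ^ 2 := pow_le_pow_left₀ hl0 h2 2
      _ = 4 * (d1 : ℝ) ^ 2 * ((i : ℝ) + 1) ^ 2 := by ring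
      _ ≤ 4 * (d1 : ℝ) ^ 2 * (2 * (i : ℝ) ^ 2 + 2) := by
          apply mul_le_mul_of_nonneg_left _ (by positivity)
          nlinarith [sq_nonneg ((i : ℝ) - 1)]
  have h4 : c1 / (16 * (d1 : ℝ) ^ 2) * ((l : ℝ) + 1) ^ 2 ≤ c1 * (i : ℝ) ^ 2 / 2 + c1 / 2 := by
    calc c1 / (16 * (d1 : ℝ) ^ 2) * ((l : ℝ) + 1) ^ 2 ≤ c1 / (16 * (d1 : ℝ) ^ 2) * (4 * (d1 : ℝ) ^ 2 * (2 * (i : ℝ) ^ 2 + 2)) :=
          mul_le_mul_of_nonneg_left h3 (by positivity)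
      _ = c1 * (i : ℝ) ^ 2 / 2 + c1 / 2 := by
          field_simp
          ring
  have hlog : 0 < Real.log T := Real.log_pos (by linarith)
  have hTl : (1 : ℝ) ≤ T * Real.log T := by
    have h5 : Real.log 2 ≤ Real.log T := Real.log_le_log (by norm_num) hT2
    have h6 := Real.log_two_gt_d9
    nlinarith
  have h7 : A + A' + c1 / 2 ≤ |A + A' + c1 / 2| * (T * Real.log T) := by
    calc A + A' + c1 / 2 ≤ |A + A' + c1 / 2| := le_abs_self _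
      _ = |A + A' + c1 / 2| * 1 := by ring
      _ ≤ _ := mul_le_mul_of_nonneg_left hTl (abs_nonneg _)
  have h8 : (T : ℝ) ^ (2 * T) = Real.exp (2 * T * Real.log T) := by
    rw [← Real.rpow_natCast, Real.rpow_def_of_pos hT0]
    congr 1
    push_cast
    ring
  rw [h8, ← Real.exp_add, ← Real.exp_add]
  apply Real.exp_le_exp.mpr
  have h9 : (2 + |A + A' + c1 / 2|) * T * Real.log T = 2 * T * Real.log T + |A + A' + c1 / 2| * (T * Real.log T) := by ring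
  rw [h9]
  have h10 : -(c1 / (16 * (d1 : ℝ) ^ 2)) * ((l : ℝ) + 1) ^ 2 = -(c1 / (16 * (d1 : ℝ) ^ 2) * ((l : ℝ) + 1) ^ 2) := by ring
  rw [h10]
  linarith

end U5_

theorem ub_main {D : Dat c} {Φ : VN c → VN c → ℂ} {C C' : (Fin (2 * c + 1) → ℤ) → ℂ} (hK : Ker D Φ C C') : UB Φ := by
  obtain ⟨μ, hμ⟩ := exists_mu hK.mulu
  obtain ⟨A, c1, hA, hc1, hmb⟩ := mix_bound hK hμ
  obtain ⟨d1, hd1, hW⟩ := WW_rank hK hμ
  obtain ⟨A', htail⟩ := gauss_tail hc1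
  have hd : (1 : ℝ) ≤ d1 := by exact_mod_cast hd1
  refine ⟨c1 / (16 * (d1 : ℝ) ^ 2), 2 + |A + A' + c1 / 2|, by positivity, ?_⟩
  intro T j hT r s
  have hlen : ∀ w : Wd (2 * c + 1) T, w.l.length < T := by
    intro w
    rw [Wd.l, List.length_ofFn]
    exact w.1.2
  let s' : Fin j → List (Fin (2 * c + 1)) := fun m => (s m).l
  obtain ⟨E, hE, hcol⟩ := exists_unitary_cols
    (fun l : Fin j => (⨅ κ ∈ Finset.Ioo (-((l.val / (2 * d1) : ℕ) : ℤ)) ((l.val / (2 * d1) : ℕ) : ℤ), WW D Φ μ κ s' : Submodule ℂ (Fin j → ℂ))) (by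
      intro l
      refine (WW_inf_rank hW (l.val / (2 * d1)) j s').trans ?_
      have h1 : 2 * (l.val / (2 * d1)) * d1 ≤ l.val := by
        have := Nat.div_mul_le_self l.val (2 * d1)
        nlinarith
      omega)
  refine ⟨E, ?_, fun i l => entry_norm_bound_of_unitary hE i l, fun i l => ?_⟩
  · have hdet := Matrix.det_of_mem_unitary hE
    rw [CStarRing.norm_of_mem_unitary hdet]
  · have hq : ∀ κ : ℤ, |κ| < ((l.val / (2 * d1) : ℕ) : ℤ) → (fun m => E m l) ∈ WW D Φ μ κ s' := by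
      intro κ hκ
      have h := hcol l
      simp only [Submodule.mem_iInf] at h
      exact h κ (by rw [Finset.mem_Ioo]; exact abs_lt.mp hκ)
    have hmain := U5_.main_est hK hμ hmb htail (r i).l (hlen _) s' (fun m => hlen _) (fun m => E m l)
      (fun m => entry_norm_bound_of_unitary hE m l) (l.val / (2 * d1)) hq
    have heq : ((BM Φ T).submatrix r s * E) i l = ∑ m, mix Φ (r i).l (s' m) * E m l := by
      rw [Matrix.mul_apply]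
      rfl
    rw [heq]
    refine hmain.trans (mul_le_mul_of_nonneg_left ?_ (Nat.cast_nonneg j))
    have := U5_.num_est (A := A) (A' := A') hc1 hd1 hT l.val
    exact this

end Pool.Agent.LT
end

end

section

/-!
# MP_f58a57_nt, large transcendence degree, part C (row lt-C-B10)

THE LOWER BOUND (C.4): assembly.
-/

open Complex Matrix MeasureTheory

noncomputable section

namespace Pool.Agent.LT

variable {c : ℕ}

theorem lb_main {D : Dat c} {Φ : VN c → VN c → ℂ} {C C' : (Fin (2 * c + 1) → ℤ) → ℂ} (hK : Ker D Φ C C') (hI : INT D.d D.g D.Lt C)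
    (hI' : INT D.d D.g D.L C') : LB c Φ := by
  intro ε hε hε'
  obtain ⟨μ, hμ⟩ := exists_mu hK.mulu
  obtain ⟨p, p', nn, C5, m, hJ⟩ := hK.exists_jump
  obtain ⟨κ, K8, T8, hK8, h8⟩ := y_small hK hI' hμ hJ hε hε'
  obtain ⟨K5, T5, hK5, h5⟩ := pair_small hK hI μ κ m p hε hε'
  have hKa : K5 ≤ max K5 K8 := le_max_left _ _
  have hKb : K8 ≤ max K5 K8 := le_max_right _ _
  have hK1 : 1 ≤ max K5 K8 := hK5.trans hKa
  generalize max K5 K8 = K at hKa hKb hK1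
  obtain ⟨T9, hT9, h9⟩ := params c hε hε' hK1
  refine ⟨max T9 ⌈max T5 T8⌉₊, fun T hT j hj hjT => ?_⟩
  have hTa : T9 ≤ T := (le_max_left _ _).trans hT
  have hTb : max T5 T8 ≤ (T : ℝ) := (Nat.le_ceil _).trans (by exact_mod_cast (le_max_right _ _).trans hT)
  have hTc : T5 ≤ (T : ℝ) := (le_max_left _ _).trans hTb
  have hTd : T8 ≤ (T : ℝ) := (le_max_right _ _).trans hTb
  obtain ⟨k', hk'⟩ : ∃ k' : ℝ, k' = max (2 * K * j) ((T : ℝ) ^ (1 / 2 + ε)) := ⟨_, rfl⟩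
  obtain ⟨k, hk⟩ : ∃ k : ℝ, k = (T : ℝ) ^ ε * k' := ⟨_, rfl⟩
  obtain ⟨⟨a1, a2⟩, ⟨b1, b2⟩, hkj, hkj', hex, hlt, h0, hinv⟩ := h9 T hTa j hj hjT k k' hk' hk
  have hj0 : (0 : ℝ) ≤ (j : ℝ) := Nat.cast_nonneg j
  obtain ⟨U, V, hU, hV, hUV⟩ := exists_UV (BM Φ T) (s := Real.exp (-((T : ℝ) ^ ε * k ^ 2))) (Real.exp_pos _) j (by
    intro X hX
    by_contra hcon
    push Not at hcon
    obtain ⟨L, hL⟩ := gy_lin hK μ κ m p j T
    obtain ⟨y, hy1, ⟨i0, hi0⟩, hy⟩ := exists_y j L X hX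
    have h1 : ∀ β, ‖L y β‖ ≤ Real.exp (-(k ^ 2 / K5)) := by
      apply hy
      intro q hq hq1
      have hq2 : ∀ β, ‖q β‖ ≤ 1 := fun β => by
        have h2 : ‖q β‖ ^ 2 ≤ ∑ b, ‖q b‖ ^ 2 := Finset.single_le_sum (f := fun b => ‖q b‖ ^ 2) (fun b _ => by positivity) (Finset.mem_univ β)
        have h3 : ‖q β‖ ^ 2 ≤ 1 := h2.trans hq1
        nlinarith [norm_nonneg (q β)]
      have hBq : ∀ α, ‖(BM Φ T *ᵥ q) α‖ ≤ Real.exp (-((T : ℝ) ^ ε * k ^ 2)) := fun α => by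
        have h2 : ‖(BM Φ T *ᵥ q) α‖ ^ 2 ≤ ∑ a, ‖(BM Φ T *ᵥ q) a‖ ^ 2 :=
          Finset.single_le_sum (f := fun a => ‖(BM Φ T *ᵥ q) a‖ ^ 2) (fun b _ => by positivity) (Finset.mem_univ α)
        have h3 : ‖(BM Φ T *ᵥ q) α‖ ≤ Real.sqrt (∑ a, ‖(BM Φ T *ᵥ q) a‖ ^ 2) := Real.le_sqrt_of_sq_le h2
        have h4 : Real.sqrt (∑ b, ‖q b‖ ^ 2) ≤ 1 := Real.sqrt_le_one.2 hq1
        calc ‖(BM Φ T *ᵥ q) α‖ ≤ Real.sqrt (∑ a, ‖(BM Φ T *ᵥ q) a‖ ^ 2) := h3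
          _ ≤ Real.exp (-((T : ℝ) ^ ε * k ^ 2)) * Real.sqrt (∑ b, ‖q b‖ ^ 2) := hcon q hq
          _ ≤ Real.exp (-((T : ℝ) ^ ε * k ^ 2)) * 1 := mul_le_mul_of_nonneg_left h4 (Real.exp_pos _).le
          _ = _ := mul_one _
      have h6 := h5 T hTc k b1 b2 j ((mul_le_mul_of_nonneg_right hKa hj0).trans hkj) q hq2 hBq y hy1
      simpa only [hL] using h6
    have h2 : ∀ w : List (Fin (2 * c + 1)), w.length < T → ‖pdl w (gy D Φ μ κ m p y) 0‖ ≤ Real.exp (-((T : ℝ) ^ ε * k' ^ 2)) := by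
      intro w hw
      obtain ⟨β, rfl⟩ := exists_wd w hw
      rw [← hL]
      refine (h1 β).trans (le_trans ?_ hex)
      apply Real.exp_le_exp.2
      have h3 : k ^ 2 / K ≤ k ^ 2 / K5 := div_le_div_of_nonneg_left (sq_nonneg k) (by linarith) hKa
      linarith
    have h3 := h8 T hTd k' a1 a2 j y ((mul_le_mul_of_nonneg_right hKb hj0).trans hkj') hy1 h2 i0
    rw [hi0] at h3
    have h4 : Real.exp (K8 * (1 + (j : ℝ) ^ 2) - k' ^ 2 / K8) ≤ Real.exp (K * (1 + (j : ℝ) ^ 2) - k' ^ 2 / K) := by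
      apply Real.exp_le_exp.2
      have h5 : k' ^ 2 / K ≤ k' ^ 2 / K8 := div_le_div_of_nonneg_left (sq_nonneg k') (by linarith) hKb
      have h6 : K8 * (1 + (j : ℝ) ^ 2) ≤ K * (1 + (j : ℝ) ^ 2) := mul_le_mul_of_nonneg_right hKb (by positivity)
      linarith
    linarith)
  exact ⟨U, V, fun i a => (hU i a).trans hinv, fun b i => (hV b i).trans (Real.one_le_exp h0), hUV⟩

end Pool.Agent.LT
end

end

section

/-!
# MP_f58a57_nt, large transcendence degree, part C (row lt-C-Z)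

THEOREM C.
-/

open Complex Matrix MeasureTheory

noncomputable section

namespace Pool.Agent.LT

variable {c : ℕ}

theorem thmC : ThmC := fun _ _ _ _ _ hK => ⟨fun h1 h2 => lb_main hK h1 h2, ub_main hK⟩

end Pool.Agent.LT
end

end
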