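import Mathlib
import Pool.Agent.Lib.MP_f58a57_nt.LK.K011
import Pool.Agent.Lib.MP_f58a57_nt.LK.K016

namespace Pool.Agent.LT.R10_
end Pool.Agent.LT.R10_

section

/-!
# MP_f58a57_nt, points with algebraic `j`: the hypotheses
-/

open Complex IntermediateField

noncomputable section

namespace Pool.Agent.MSN

/-- a point `τ` with algebraic `j(τ)` and a scaling factor `Ω`; everything else is algebraic over `ℚ(ϑ)` -/
structure DD (τ Ω ϑ : ℂ) : Prop where
  im : 0 < τ.im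
  ne : Ω ≠ 0
  a4 : IsAlgebraic ℚ (MSD.e4 τ / Ω ^ 4)
  a6 : IsAlgebraic ℚ (MSD.e6 τ / Ω ^ 6)
  aτ : IsAlgebraic ℚ⟮ϑ⟯ τ
  a2 : IsAlgebraic ℚ⟮ϑ⟯ (MSD.e2 τ / Ω ^ 2)
  aΩ : IsAlgebraic ℚ⟮ϑ⟯ (Real.pi * Ω ^ 2)

/-- all the hypotheses on the two curves -/
structure Hyp2 (c₁ c₂ : MSP.Cv) (Ω₁ Ω₂ ϑ : ℂ) : Prop where
  s₁ : c₁.s = MSP.sE c₁.τ
  s₂ : c₂.s = MSP.sE c₂.τ
  h₁ : DD c₁.τ Ω₁ ϑ
  h₂ : DD c₂.τ Ω₂ ϑ
  tr : Transcendental ℚ ϑ

end Pool.Agent.MSN
end

end

section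

/-!
# E2: linear algebra of `L` and `Lᵀ`
-/

open Complex Matrix

noncomputable section

namespace Pool.Agent.LT.KE

variable {c : ℕ} (D : Dat c)

theorem Lt_transpose : D.Ltᵀ = D.L := by
  unfold Dat.Lt Dat.L
  rw [transpose_sub, diagonal_transpose, transpose_map]

private theorem L_transpose : D.Lᵀ = D.Lt := by
  rw [← Lt_transpose, transpose_transpose]

theorem dot_L (u s : Fin (2 * c + 1) → ℂ) : u ⬝ᵥ (D.L *ᵥ s) = (D.Lt *ᵥ u) ⬝ᵥ s := by
  rw [dotProduct_mulVec, ← L_transpose, mulVec_transpose]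

theorem dot_Lt (u s : Fin (2 * c + 1) → ℂ) : u ⬝ᵥ (D.Lt *ᵥ s) = (D.L *ᵥ u) ⬝ᵥ s := by
  rw [dotProduct_mulVec, ← Lt_transpose, mulVec_transpose]

private theorem Lt_apply (y : Fin (2 * c + 1) → ℂ) (j : Fin (2 * c + 1)) :
    (D.Lt *ᵥ y) j = D.z j * y j - ∑ k, (D.M j k : ℂ) * y k := by
  unfold Dat.Lt
  rw [sub_mulVec, Pi.sub_apply, mulVec_diagonal]
  rfl

private theorem L_apply (y : Fin (2 * c + 1) → ℂ) (j : Fin (2 * c + 1)) :
    (D.L *ᵥ y) j = D.z j * y j - ∑ k, (D.M k j : ℂ) * y k := by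
  unfold Dat.L
  rw [sub_mulVec, Pi.sub_apply, mulVec_diagonal]
  rfl

/-- PROOF: `D.hMg` (over `ℚ`), cast to `ℂ`. -/
theorem L_gc : D.L *ᵥ D.gc = D.v0 := by
  unfold Dat.v0
  funext j
  rw [L_apply, Lt_apply]
  congr 1
  have h := congrFun D.hMg j
  have h1 : ∑ k, D.M j k * (D.g k : ℚ) = ∑ k, D.M k j * (D.g k : ℚ) := h
  have h2 := congrArg (fun q : ℚ => (q : ℂ)) h1
  simp only [Rat.cast_sum, Rat.cast_mul, Rat.cast_intCast] at h2
  exact h2.symm

private theorem dM_cast (i j : Fin (2 * c + 1)) : ((D.dM i j : ℤ) : ℂ) = (D.d : ℂ) * (D.M i j : ℂ) := by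
  have h := congrArg (fun q : ℚ => (q : ℂ)) (D.hdM i j)
  simpa only [Rat.cast_intCast, Rat.cast_mul, Rat.cast_natCast] using h

/-- PROOF: `D.hdM`. -/
theorem Lt_lat (a : Fin (2 * c + 1) → ℤ) (j : Fin (2 * c + 1)) :
    (D.Lt *ᵥ lat D.d a) j = ((D.d * a j : ℤ) : ℂ) * D.z j - (((D.dM *ᵥ a) j : ℤ) : ℂ) := by
  rw [Lt_apply]
  have h1 : (((D.dM *ᵥ a) j : ℤ) : ℂ) = ∑ k, (D.M j k : ℂ) * lat D.d a k := by
    have h2 : (D.dM *ᵥ a) j = ∑ k, D.dM j k * a k := rfl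
    rw [h2, Int.cast_sum]
    refine Finset.sum_congr rfl fun k _ => ?_
    rw [Int.cast_mul, dM_cast]
    unfold lat
    ring
  rw [h1]
  unfold lat
  push_cast
  ring

theorem L_lat (a : Fin (2 * c + 1) → ℤ) (j : Fin (2 * c + 1)) :
    (D.L *ᵥ lat D.d a) j = ((D.d * a j : ℤ) : ℂ) * D.z j - (((D.dMᵀ *ᵥ a) j : ℤ) : ℂ) := by
  rw [L_apply]
  have h1 : (((D.dMᵀ *ᵥ a) j : ℤ) : ℂ) = ∑ k, (D.M k j : ℂ) * lat D.d a k := by
    have h2 : (D.dMᵀ *ᵥ a) j = ∑ k, D.dM k j * a k := rfl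
    rw [h2, Int.cast_sum]
    refine Finset.sum_congr rfl fun k _ => ?_
    rw [Int.cast_mul, dM_cast]
    unfold lat
    ring
  rw [h1]
  unfold lat
  push_cast
  ring

/-- PROOF: `Lt y = L y = 0`. `conj(y)ᵀ Z y = conj(y)ᵀ M y =: t`; conj(t) = `yᵀ M conj(y)` = (as a scalar, transposed) `conj(y)ᵀ Mᵀ y` = `conj(y)ᵀ Z y = t`
(from `L y = 0`). So `t = Σ z_j |y_j|²` is real: `Σ Im(z_j) |y_j|² = 0`, `y = 0`. -/
theorem ker_zero (y : Fin (2 * c + 1) → ℂ) (h : D.L *ᵥ y = 0) (h' : D.Lt *ᵥ y = 0) : y = 0 := by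
  have h1 : ∀ j, D.z j * y j = ∑ k, (D.M j k : ℂ) * y k := by
    intro j
    have h2 := congrFun h' j
    rw [Lt_apply, Pi.zero_apply, sub_eq_zero] at h2
    exact h2
  have h2 : ∀ j, D.z j * y j = ∑ k, (D.M k j : ℂ) * y k := by
    intro j
    have h3 := congrFun h j
    rw [L_apply, Pi.zero_apply, sub_eq_zero] at h3
    exact h3
  -- the number t
  have ht : (starRingEnd ℂ) (∑ j, D.z j * y j * (starRingEnd ℂ) (y j)) = ∑ j, D.z j * y j * (starRingEnd ℂ) (y j) := by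
    have h3 : ∑ j, D.z j * y j * (starRingEnd ℂ) (y j) = ∑ j, ∑ k, (D.M j k : ℂ) * y k * (starRingEnd ℂ) (y j) := by
      refine Finset.sum_congr rfl fun j _ => ?_
      rw [h1 j, Finset.sum_mul]
    have h4 : ∑ j, D.z j * y j * (starRingEnd ℂ) (y j) = ∑ j, ∑ k, (D.M k j : ℂ) * y k * (starRingEnd ℂ) (y j) := by
      refine Finset.sum_congr rfl fun j _ => ?_
      rw [h2 j, Finset.sum_mul]
    rw [h3, map_sum]
    rw [h3] at h4
    rw [h4, Finset.sum_comm]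
    refine Finset.sum_congr rfl fun j _ => ?_
    rw [map_sum]
    refine Finset.sum_congr rfl fun k _ => ?_
    rw [map_mul, map_mul, Complex.conj_conj, map_ratCast]
    ring
  have him : (∑ j, D.z j * y j * (starRingEnd ℂ) (y j)).im = 0 := Complex.conj_eq_iff_im.mp ht
  rw [Complex.im_sum] at him
  have h5 : ∀ j, (D.z j * y j * (starRingEnd ℂ) (y j)).im = (D.z j).im * Complex.normSq (y j) := by
    intro j
    rw [mul_assoc, Complex.mul_conj, Complex.im_mul_ofReal]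
  have h6 : ∀ j ∈ Finset.univ, 0 ≤ (D.z j).im * Complex.normSq (y j) := fun j _ =>
    mul_nonneg (D.im j).le (Complex.normSq_nonneg _)
  rw [Finset.sum_congr rfl fun j _ => h5 j] at him
  have h7 := (Finset.sum_eq_zero_iff_of_nonneg h6).mp him
  funext j
  have h8 := h7 j (Finset.mem_univ j)
  rcases mul_eq_zero.mp h8 with h9 | h9
  · exact absurd h9 (D.im j).ne'
  · exact Complex.normSq_eq_zero.mp h9

/-- PROOF: the range of `(p, p') ↦ L p' + Lt p` is everything: otherwise there is a nonzero `y` with `y ⬝ᵥ (L p' + Lt p) = 0` for all `p, p'`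
(a nonzero functional vanishing on a proper subspace: `Submodule.exists_le_ker_of_lt_top` / dual annihilator), so `Lt y = 0` and `L y = 0` by
`dot_L`, `dot_Lt`; use `ker_zero`. -/
theorem Lsum_surj (w : Fin (2 * c + 1) → ℂ) : ∃ p p' : Fin (2 * c + 1) → ℂ, D.L *ᵥ p' + D.Lt *ᵥ p = w := by
  classical
  by_contra hcon
  push Not at hcon
  let S : Submodule ℂ (Fin (2 * c + 1) → ℂ) :=
    LinearMap.range (Matrix.mulVecLin D.L) ⊔ LinearMap.range (Matrix.mulVecLin D.Lt)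
  have hS : S < ⊤ := by
    rw [lt_top_iff_ne_top]
    intro htop
    have hw : w ∈ S := by rw [htop]; trivial
    obtain ⟨a, ⟨p', rfl⟩, b, ⟨p, rfl⟩, hab⟩ := Submodule.mem_sup.mp hw
    exact hcon p p' hab
  obtain ⟨f, hf0, hfS⟩ := Submodule.exists_le_ker_of_lt_top S hS
  have hf : ∀ v : Fin (2 * c + 1) → ℂ, f v = (fun i => f (Pi.single i 1)) ⬝ᵥ v := by
    intro v
    conv_lhs => rw [pi_eq_sum_univ' v]
    rw [map_sum]
    refine Finset.sum_congr rfl fun i _ => ?_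
    rw [map_smul, smul_eq_mul, mul_comm]
  have hy : (fun i => f (Pi.single i 1)) = (0 : Fin (2 * c + 1) → ℂ) := by
    apply ker_zero D
    · funext j
      have h1 : f (D.Lt *ᵥ (Pi.single j 1)) = 0 :=
        hfS (Submodule.mem_sup_right ⟨Pi.single j 1, rfl⟩)
      rw [hf, dot_Lt, dotProduct_single, mul_one] at h1
      exact h1
    · funext j
      have h1 : f (D.L *ᵥ (Pi.single j 1)) = 0 :=
        hfS (Submodule.mem_sup_left ⟨Pi.single j 1, rfl⟩)
      rw [hf, dot_L, dotProduct_single, mul_one] at h1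
      exact h1
  apply hf0
  refine LinearMap.ext fun v => ?_
  rw [hf, hy, zero_dotProduct, LinearMap.zero_apply]

end Pool.Agent.LT.KE
end

end

section

/-! # The action of `SL₂(ℤ)` (MP_f58a57_nt, algebraic `j`) -/

open Complex IntermediateField

noncomputable section

namespace Pool.Agent.MSN

theorem gm_ne {c d : ℤ} {a b : ℤ} (h : a * d - b * c = 1) {z : ℂ} (hz : 0 < z.im) : (c : ℂ) * z + d ≠ 0 := by
  intro h0
  have him := congrArg Complex.im h0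
  have hre := congrArg Complex.re h0
  simp at him hre
  rcases him with hc | hc
  · subst hc
    simp at hre
    subst hre
    simp at h
  · exact hz.ne' hc

theorem gm_im {c d : ℤ} {a b : ℤ} (h : a * d - b * c = 1) (z : ℂ) :
    (((a : ℂ) * z + b) / ((c : ℂ) * z + d)).im = z.im / Complex.normSq ((c : ℂ) * z + d) := by
  have hR : (a : ℝ) * d - b * c = 1 := by exact_mod_cast h
  rw [Complex.div_im]
  simp only [add_re, add_im, mul_re, mul_im, intCast_re, intCast_im, zero_mul, sub_zero, add_zero]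
  rw [← sub_div]
  congr 1
  linear_combination z.im * hR

theorem gm_alg (K : IntermediateField ℚ ℂ) {x y : ℂ} (hx : IsAlgebraic K x) (hy : IsAlgebraic K y) :
    IsAlgebraic K (x / y) := by
  rw [div_eq_mul_inv]
  exact hx.mul hy.inv

theorem gm_algI (K : IntermediateField ℚ ℂ) : IsAlgebraic K (I : ℂ) := by
  refine ⟨Polynomial.X ^ 2 + 1, ?_, by simp⟩
  intro h
  have h2 := congrArg (Polynomial.eval 0) h
  simp at h2

theorem gm_algZ (K : IntermediateField ℚ ℂ) (n : ℤ) : IsAlgebraic K (n : ℂ) := isAlgebraic_intCast n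

/-- the data move with `SL₂(ℤ)` -/
theorem DD.sl2 {τ Ω ϑ : ℂ} (h : DD τ Ω ϑ) {a b c d : ℤ} (hd : a * d - b * c = 1) :
    DD (((a : ℂ) * τ + b) / ((c : ℂ) * τ + d)) (((c : ℂ) * τ + d) * Ω) ϑ := by
  have hne : (c : ℂ) * τ + d ≠ 0 := gm_ne hd h.im
  have hpi : (Real.pi : ℂ) ≠ 0 := by exact_mod_cast Real.pi_ne_zero
  have hΩ := h.ne
  have hcd : IsAlgebraic ℚ⟮ϑ⟯ ((c : ℂ) * τ + d) := ((gm_algZ _ c).mul h.aτ).add (gm_algZ _ d)
  refine ⟨?_, mul_ne_zero hne h.ne, ?_, ?_, ?_, ?_, ?_⟩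
  · rw [gm_im hd]
    exact div_pos h.im (Complex.normSq_pos.2 hne)
  · rw [MSD.e4_transform a b c d hd τ h.im]
    have : ((c : ℂ) * τ + d) ^ 4 * MSD.e4 τ / (((c : ℂ) * τ + d) * Ω) ^ 4 = MSD.e4 τ / Ω ^ 4 := by
      field_simp
    rw [this]
    exact h.a4
  · rw [MSD.e6_transform a b c d hd τ h.im]
    have : ((c : ℂ) * τ + d) ^ 6 * MSD.e6 τ / (((c : ℂ) * τ + d) * Ω) ^ 6 = MSD.e6 τ / Ω ^ 6 := by
      field_simp
    rw [this]
    exact h.a6
  · exact gm_alg _ (((gm_algZ _ a).mul h.aτ).add (gm_algZ _ b)) hcd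
  · rw [MSD.e2_transform a b c d hd τ h.im]
    have : (((c : ℂ) * τ + d) ^ 2 * MSD.e2 τ - 6 * I * c / Real.pi * (c * τ + d)) / (((c : ℂ) * τ + d) * Ω) ^ 2 =
        MSD.e2 τ / Ω ^ 2 - ((6 * c : ℤ) : ℂ) * I / (((c : ℂ) * τ + d) * (Real.pi * Ω ^ 2)) := by
      push_cast
      field_simp
    rw [this]
    exact h.a2.sub (gm_alg _ ((gm_algZ _ _).mul (gm_algI _)) (hcd.mul h.aΩ))
  · have : (Real.pi : ℂ) * (((c : ℂ) * τ + d) * Ω) ^ 2 = ((c : ℂ) * τ + d) ^ 2 * (Real.pi * Ω ^ 2) := by ring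
    rw [this]
    exact (hcd.pow 2).mul h.aΩ

theorem gm_special (z : ℂ) (x N : ℚ) (hx : z.re = x) (hN : z.re ^ 2 + z.im ^ 2 = N) : MSD.IsSpecial z := by
  refine ⟨x.den * N.den, -(2 * x.num * N.den), x.den * N.num, ?_, ?_⟩
  · rintro ⟨h, -, -⟩
    have h1 : (x.den : ℤ) ≠ 0 := by exact_mod_cast x.den_nz
    have h2 : (N.den : ℤ) ≠ 0 := by exact_mod_cast N.den_nz
    exact mul_ne_zero h1 h2 h
  · have hx' : (x.den : ℂ) * x = x.num := by exact_mod_cast Rat.den_mul_eq_num x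
    have hN' : (N.den : ℂ) * N = N.num := by exact_mod_cast Rat.den_mul_eq_num N
    have hz : z ^ 2 - 2 * x * z + N = 0 := by
      have h3 : (x : ℂ) = ((z.re : ℝ) : ℂ) := by rw [hx]; norm_cast
      have h4 : (N : ℂ) = ((z.re ^ 2 + z.im ^ 2 : ℝ) : ℂ) := by rw [hN]; norm_cast
      rw [h3, h4]
      apply Complex.ext
      · simp [pow_two]
        ring
      · simp [pow_two]
        ring
    push_cast
    linear_combination (x.den : ℂ) * N.den * hz + (-2 * (N.den : ℂ) * z) * hx' * (-1) + (x.den : ℂ) * hN' * (-1)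

theorem gm_rat_div {a b : ℝ} (hb : b ≠ 0) (ha : ∃ r : ℚ, (r : ℝ) = a) (hab : ∃ r : ℚ, (r : ℝ) = a * b) (ha0 : a ≠ 0) :
    ∃ r : ℚ, (r : ℝ) = b := by
  obtain ⟨r, hr⟩ := ha
  obtain ⟨s, hs⟩ := hab
  refine ⟨s / r, ?_⟩
  push_cast
  rw [hr, hs]
  field_simp

/-- translates with an irrational ratio of the imaginary parts -/
theorem exists_irr (τ τ' : ℂ) (h : 0 < τ.im) (h' : 0 < τ'.im)
    (hn : ¬ (MSD.IsSpecial τ ∧ MSD.IsSpecial τ' ∧ MSD.GEquiv τ τ')) :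
    ∃ a b c d a' b' c' d' : ℤ, a * d - b * c = 1 ∧ a' * d' - b' * c' = 1 ∧
      Irrational ((((a : ℂ) * τ + b) / ((c : ℂ) * τ + d)).im / (((a' : ℂ) * τ' + b') / ((c' : ℂ) * τ' + d')).im) := by
  by_contra hcon
  push Not at hcon
  have key : ∀ a b c d a' b' c' d' : ℤ, a * d - b * c = 1 → a' * d' - b' * c' = 1 →
      ∃ r : ℚ, (r : ℝ) = (τ.im / Complex.normSq ((c : ℂ) * τ + d)) / (τ'.im / Complex.normSq ((c' : ℂ) * τ' + d')) := by
    intro a b c d a' b' c' d' hd hd'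
    have h1 := hcon a b c d a' b' c' d' hd hd'
    rw [gm_im hd, gm_im hd'] at h1
    unfold Irrational at h1
    rw [not_not] at h1
    obtain ⟨r, hr⟩ := h1
    exact ⟨r, hr⟩
  have hsq : ∀ (z : ℂ), Complex.normSq (((1 : ℤ) : ℂ) * z + ((0 : ℤ) : ℂ)) = z.re ^ 2 + z.im ^ 2 := by
    intro z
    simp [Complex.normSq_apply]
    ring
  have hsq1 : ∀ (z : ℂ), Complex.normSq (((1 : ℤ) : ℂ) * z + ((1 : ℤ) : ℂ)) = z.re ^ 2 + z.im ^ 2 + 2 * z.re + 1 := by
    intro z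
    simp [Complex.normSq_apply]
    ring
  have hsq0 : ∀ (z : ℂ), Complex.normSq (((0 : ℤ) : ℂ) * z + ((1 : ℤ) : ℂ)) = 1 := by
    intro z
    simp
  have hp : 0 < τ.re ^ 2 + τ.im ^ 2 := by positivity
  have hp' : 0 < τ'.re ^ 2 + τ'.im ^ 2 := by positivity
  have hq : 0 < τ.re ^ 2 + τ.im ^ 2 + 2 * τ.re + 1 := by nlinarith [sq_nonneg (τ.re + 1), h]
  have hq' : 0 < τ'.re ^ 2 + τ'.im ^ 2 + 2 * τ'.re + 1 := by nlinarith [sq_nonneg (τ'.re + 1), h']
  -- the ratio of the imaginary parts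
  obtain ⟨r₀, hr₀⟩ := key 1 0 0 1 1 0 0 1 (by norm_num) (by norm_num)
  rw [hsq0, hsq0, div_one, div_one] at hr₀
  obtain ⟨r₁, hr₁⟩ := key 0 (-1) 1 0 1 0 0 1 (by norm_num) (by norm_num)
  rw [hsq, hsq0, div_one] at hr₁
  obtain ⟨r₂, hr₂⟩ := key 0 (-1) 1 1 1 0 0 1 (by norm_num) (by norm_num)
  rw [hsq1, hsq0, div_one] at hr₂
  obtain ⟨s₁, hs₁⟩ := key 1 0 0 1 0 (-1) 1 0 (by norm_num) (by norm_num)
  rw [hsq0, hsq, div_one] at hs₁
  obtain ⟨s₂, hs₂⟩ := key 1 0 0 1 0 (-1) 1 1 (by norm_num) (by norm_num)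
  rw [hsq0, hsq1, div_one] at hs₂
  have hr₀p : 0 < (r₀ : ℝ) := by rw [hr₀]; positivity
  have hN : τ.re ^ 2 + τ.im ^ 2 = ((r₀ / r₁ : ℚ) : ℝ) := by
    push_cast
    rw [hr₀, hr₁]
    field_simp
  have hN1 : τ.re ^ 2 + τ.im ^ 2 + 2 * τ.re + 1 = ((r₀ / r₂ : ℚ) : ℝ) := by
    push_cast
    rw [hr₀, hr₂]
    field_simp
  have hN' : τ'.re ^ 2 + τ'.im ^ 2 = ((s₁ / r₀ : ℚ) : ℝ) := by
    push_cast
    rw [hr₀, hs₁]
    field_simp
  have hN1' : τ'.re ^ 2 + τ'.im ^ 2 + 2 * τ'.re + 1 = ((s₂ / r₀ : ℚ) : ℝ) := by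
    push_cast
    rw [hr₀, hs₂]
    field_simp
  have hx : τ.re = ((((r₀ / r₂) - (r₀ / r₁) - 1) / 2 : ℚ) : ℝ) := by
    push_cast at hN hN1 ⊢
    linarith
  have hx' : τ'.re = ((((s₂ / r₀) - (s₁ / r₀) - 1) / 2 : ℚ) : ℝ) := by
    push_cast at hN' hN1' ⊢
    linarith
  refine hn ⟨gm_special τ _ _ hx hN, gm_special τ' _ _ hx' hN', ?_⟩
  refine ⟨r₀⁻¹, (((s₂ / r₀) - (s₁ / r₀) - 1) / 2) - r₀⁻¹ * (((r₀ / r₂) - (r₀ / r₁) - 1) / 2), 0, 1, ?_, ?_, ?_⟩
  · have : (r₀ : ℂ) ≠ 0 := by exact_mod_cast (by exact_mod_cast hr₀p.ne' : r₀ ≠ 0)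
    simp [this]
  · simp
  · have h5 : ((r₀⁻¹ : ℚ) : ℝ) = τ'.im / τ.im := by
      push_cast
      rw [hr₀, inv_div]
    apply Complex.ext
    · have e1 : (((r₀⁻¹ : ℚ) : ℂ) * τ + (((((s₂ / r₀) - (s₁ / r₀) - 1) / 2) - r₀⁻¹ * (((r₀ / r₂) - (r₀ / r₁) - 1) / 2) : ℚ) : ℂ)) / (((0 : ℚ) : ℂ) * τ + ((1 : ℚ) : ℂ)) =
        ((r₀⁻¹ : ℚ) : ℂ) * τ + (((((s₂ / r₀) - (s₁ / r₀) - 1) / 2) - r₀⁻¹ * (((r₀ / r₂) - (r₀ / r₁) - 1) / 2) : ℚ) : ℂ) := by simp
      rw [e1]
      simp only [add_re, mul_re, ratCast_re, ratCast_im, zero_mul, sub_zero]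
      rw [Rat.cast_sub, ← hx', Rat.cast_mul, ← hx]
      ring
    · have e1 : (((r₀⁻¹ : ℚ) : ℂ) * τ + (((((s₂ / r₀) - (s₁ / r₀) - 1) / 2) - r₀⁻¹ * (((r₀ / r₂) - (r₀ / r₁) - 1) / 2) : ℚ) : ℂ)) / (((0 : ℚ) : ℂ) * τ + ((1 : ℚ) : ℂ)) =
        ((r₀⁻¹ : ℚ) : ℂ) * τ + (((((s₂ / r₀) - (s₁ / r₀) - 1) / 2) - r₀⁻¹ * (((r₀ / r₂) - (r₀ / r₁) - 1) / 2) : ℚ) : ℂ) := by simp
      rw [e1]
      simp only [add_im, mul_im, ratCast_re, ratCast_im, zero_mul, add_zero]
      rw [h5]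
      field_simp

end Pool.Agent.MSN
end

end

section

/-!
# MP_f58a57_nt, large transcendence degree, part D analysis (row lt-DD5): hermitian and symmetric part of a real symmetric form

All by the definitions, `RB` and `I • I • u = -u`, `R (-u) v = -R u v` (from `smul` with `t = -1`).
For the complex scalar `t = a + i b`: `t • u = (a : ℂ) • u + (b : ℂ) • (I • u)`.
-/

open Complex Matrix

noncomputable section

namespace Pool.Agent.LT

variable {V : Type} [AddCommGroup V] [Module ℂ V] {R : V → V → ℝ}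

private theorem R5_II (u : V) : (I : ℂ) • (I : ℂ) • u = -u := by
  rw [smul_smul, I_mul_I, neg_smul, one_smul]

private theorem R5_neg (h : RB R) (u v : V) : R (-u) v = -R u v := by
  have h1 := h.smul (-1) u v
  rw [Complex.ofReal_neg, Complex.ofReal_one, neg_smul, one_smul, neg_one_mul] at h1
  exact h1

private theorem R5_t (h : RB R) (t : ℂ) (u v : V) : R (t • u) v = t.re * R u v + t.im * R (I • u) v := by
  have h1 : t • u = ((t.re : ℝ) : ℂ) • u + ((t.im : ℝ) : ℂ) • ((I : ℂ) • u) := by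
    rw [smul_smul, ← add_smul, Complex.re_add_im]
  rw [h1, h.add, h.smul, h.smul]

private theorem R5_It (h : RB R) (t : ℂ) (u v : V) : R (I • (t • u)) v = t.re * R (I • u) v - t.im * R u v := by
  rw [smul_comm, R5_t h, R5_II, R5_neg h]
  ring

theorem Hf_add (h : RB R) (u u' v : V) : Hf R (u + u') v = Hf R u v + Hf R u' v := by
  unfold Hf
  rw [smul_add, h.add, h.add, h.add, h.add]
  push_cast
  ring

theorem Hf_smul (h : RB R) (t : ℂ) (u v : V) : Hf R (t • u) v = t * Hf R u v := by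
  unfold Hf
  rw [R5_t h t u v, R5_t h t u (I • v), R5_It h t u v, R5_It h t u (I • v)]
  apply Complex.ext
  · simp
    ring
  · simp
    ring

theorem Hf_conj (h : RB R) (u v : V) : (starRingEnd ℂ) (Hf R u v) = Hf R v u := by
  unfold Hf
  rw [h.symm v u, h.symm (I • v) (I • u), h.symm v (I • u), h.symm (I • v) u]
  simp only [map_div₀, map_add, map_mul, Complex.conj_ofReal, Complex.conj_I]
  rw [show (starRingEnd ℂ) (2 : ℂ) = 2 from Complex.conj_ofNat 2]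
  push_cast
  ring

theorem Hf_self (h : RB R) (u : V) : Hf R u u = (((R u u + R (I • u) (I • u)) / 2 : ℝ) : ℂ) := by
  unfold Hf
  rw [h.symm (I • u) u]
  push_cast
  ring

theorem Sf_symm (h : RB R) (u v : V) : Sf R u v = Sf R v u := by
  unfold Sf
  rw [h.symm v u, h.symm (I • v) (I • u), h.symm v (I • u), h.symm (I • v) u]
  push_cast
  ring

theorem Sf_add (h : RB R) (u u' v : V) : Sf R (u + u') v = Sf R u v + Sf R u' v := by
  unfold Sf
  rw [smul_add, h.add, h.add, h.add, h.add]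
  push_cast
  ring

theorem Sf_smul (h : RB R) (t : ℂ) (u v : V) : Sf R (t • u) v = t * Sf R u v := by
  unfold Sf
  rw [R5_t h t u v, R5_t h t u (I • v), R5_It h t u v, R5_It h t u (I • v)]
  apply Complex.ext
  · simp
    ring
  · simp
    ring

/-- the sum of the two parts -/
theorem HS_add (h : RB R) (u v : V) : Hf R u v + Sf R u v = (R u v : ℂ) - I * (R (I • u) v : ℂ) := by
  unfold Hf Sf
  push_cast
  ring

theorem Sf_quad (h : RB R) (u v : V) : Sf R (u + v) (u + v) = Sf R u u + 2 * Sf R u v + Sf R v v := by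
  rw [Sf_add h, Sf_symm h u (u + v), Sf_symm h v (u + v), Sf_add h, Sf_add h, Sf_symm h v u]
  ring

end Pool.Agent.LT
end

end

section

/-!
# MP_f58a57_nt, large transcendence degree, version 2: ThmD2G from ThmB2 and ThmFlagG
-/

open Complex Matrix

noncomputable section

namespace Pool.Agent.LT

namespace D2G

variable {c : ℕ}

/-! ### prefixing zeros -/

theorem zc_apply : ∀ (q : ℕ) (z : Vc c) (l : Fin (c + q + 1)), (zcV q z) l = if h : (l : ℕ) < q then 0 else z ⟨(l : ℕ) - q, by omega⟩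
  | 0, z, l => by
    simp only [Nat.not_lt_zero, dite_false]
    rfl
  | q + 1, z, l => by
    refine Fin.cases ?_ (fun l' => ?_) l
    · have h0 : ((0 : Fin (c + (q + 1) + 1)) : ℕ) < q + 1 := by simp
      rw [dif_pos h0]
      rfl
    · have e : (zcV (q + 1) z : Vc (c + (q + 1))) (Fin.succ l') = (zcV q z) l' := rfl
      rw [e, zc_apply q z l']
      by_cases h : (l' : ℕ) < q
      · have h' : ((Fin.succ l' : Fin (c + (q + 1) + 1)) : ℕ) < q + 1 := by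
          rw [Fin.val_succ]; omega
        rw [dif_pos h, dif_pos h']
      · have h' : ¬ ((Fin.succ l' : Fin (c + (q + 1) + 1)) : ℕ) < q + 1 := by
          rw [Fin.val_succ]; omega
        rw [dif_neg h, dif_neg h']
        congr 1
        apply Fin.ext
        show (l' : ℕ) - q = ((Fin.succ l' : Fin (c + (q + 1) + 1)) : ℕ) - (q + 1)
        rw [Fin.val_succ]; omega

/-- prefixing zeros as a homomorphism -/
def zcH (q : ℕ) : Vc c →+ Vc (c + q) where
  toFun := zcV q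
  map_zero' := by
    funext l
    rw [zc_apply]
    split <;> rfl
  map_add' := by
    intro a b
    funext l
    rw [Pi.add_apply, zc_apply, zc_apply, zc_apply]
    split
    · simp
    · rfl

/-- removing the first coordinates -/
def drop (q : ℕ) (γ : Vc (c + q)) : Vc c := fun l => γ ⟨(l : ℕ) + q, by omega⟩

theorem zc_drop (q : ℕ) (γ : Vc (c + q)) (h : ∀ l : Fin (c + q + 1), (l : ℕ) < q → γ l = 0) : zcV q (drop q γ) = γ := by
  funext l
  rw [zc_apply]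
  split
  · rename_i hl
    exact (h l hl).symm
  · rename_i hl
    show γ ⟨(l : ℕ) - q + q, _⟩ = γ l
    congr 1
    apply Fin.ext
    show (l : ℕ) - q + q = l
    omega

/-! ### the tower -/

/-- the covering property at the level `i` -/
def CovZ (p i : ℕ) (Γ : AddSubgroup (Vc c)) : Prop :=
  ∃ C : ℝ, 0 < C ∧ ∀ r ρ k : ℝ, 0 < r → 0 < ρ → 0 < k → C ≤ r * ρ ^ (2 * p) * k → C * r ≤ ρ → C * ρ ≤ k → ∀ w : Vc c, ∃ γ ∈ Γ,
    (∀ l : Fin (c + 1), (l : ℕ) < i → γ l = 0) ∧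
    (∀ l : Fin (c + 1), (l : ℕ) = i → (γ l).im = 0 ∧ |(w l).re - (γ l).re| ≤ r) ∧
    (∀ l : Fin (c + 1), i < (l : ℕ) → (l : ℕ) ≤ i + p → ‖w l - γ l‖ ≤ ρ) ∧
    (∀ l : Fin (c + 1), (l : ℕ) = i + p + 1 → |(w l).im - (γ l).im| ≤ k)

theorem covG_of {p : ℕ} {Γ : AddSubgroup (Vc c)} (h : CovZ p 0 Γ) : CovG p Γ := by
  obtain ⟨C, hC, h⟩ := h
  refine ⟨C, hC, fun r ρ k hr hρ hk h1 h2 h3 w => ?_⟩
  obtain ⟨γ, hγ, -, a1, a2, a3⟩ := h r ρ k hr hρ hk h1 h2 h3 w
  exact ⟨γ, hγ, a1, fun l hl hl' => a2 l hl (by omega), fun l hl => a3 l (by omega)⟩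

theorem covZ_comap {p q i : ℕ} {Γ : AddSubgroup (Vc (c + q))} (h : CovZ p (i + q) Γ) : CovZ p i (Γ.comap (zcH q)) := by
  obtain ⟨C, hC, h⟩ := h
  refine ⟨C, hC, fun r ρ k hr hρ hk h1 h2 h3 w => ?_⟩
  obtain ⟨γ, hγ, a0, a1, a2, a3⟩ := h r ρ k hr hρ hk h1 h2 h3 (zcV q w)
  have hz : zcV q (drop q γ) = γ := zc_drop q γ (fun l hl => a0 l (by omega))
  have hw : ∀ l : Fin (c + 1), (zcV q w) ⟨(l : ℕ) + q, by omega⟩ = w l := by
    intro l
    rw [zc_apply, dif_neg (by simp)]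
    congr 1
    apply Fin.ext
    show (l : ℕ) + q - q = l
    omega
  refine ⟨drop q γ, ?_, ?_, ?_, ?_, ?_⟩
  · show zcV q (drop q γ) ∈ Γ
    rw [hz]; exact hγ
  · intro l hl
    exact a0 ⟨(l : ℕ) + q, by omega⟩ (by show (l : ℕ) + q < i + q; omega)
  · intro l hl
    have := a1 ⟨(l : ℕ) + q, by omega⟩ (by show (l : ℕ) + q = i + q; omega)
    rw [hw] at this
    exact this
  · intro l hl hl'
    have := a2 ⟨(l : ℕ) + q, by omega⟩ (by show i + q < (l : ℕ) + q; omega) (by show (l : ℕ) + q ≤ i + q + p; omega)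
    rw [hw] at this
    exact this
  · intro l hl
    have := a3 ⟨(l : ℕ) + q, by omega⟩ (by show (l : ℕ) + q = i + q + p + 1; omega)
    rw [hw] at this
    exact this

theorem towG_of (p : ℕ) : ∀ (m : ℕ) (Γ : AddSubgroup (Vc (cp p m))), (∀ t : ℕ, t < m → CovZ p ((p + 1) * t) Γ) →
    (∃ g ∈ Γ, (∀ l : Fin (cp p m + 1), (l : ℕ) < cp p m → g l = 0) ∧ g (Fin.last _) ≠ 0 ∧ (g (Fin.last _)).im = 0) → TowG (cp p m) Γ
  | 0, Γ, _, h2 => by
    obtain ⟨g, hg, -, h3, h4⟩ := h2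
    exact TowG.base Γ ⟨g, hg, h3, h4⟩
  | m + 1, Γ, h1, h2 => by
    refine TowG.step (cp p m) p (AddSubgroup.comap (zcH (p + 1)) Γ) Γ (towG_of p m _ (fun t ht => ?_) ?_) (fun γ hγ => hγ) ?_
    · have := h1 (t + 1) (by omega)
      rw [Nat.mul_add, Nat.mul_one] at this
      exact covZ_comap (q := p + 1) this
    · obtain ⟨g, hg, h3, h4, h5⟩ := h2
      have hz : zcV (p + 1) (drop (c := cp p m) (p + 1) g) = g := zc_drop (c := cp p m) (p + 1) g (fun l hl => h3 l (by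
        show (l : ℕ) < cp p m + p + 1
        omega))
      refine ⟨drop (c := cp p m) (p + 1) g, ?_, ?_, ?_, ?_⟩
      · show zcV (p + 1) (drop (c := cp p m) (p + 1) g) ∈ Γ
        rw [hz]; exact hg
      · intro l hl
        exact h3 ⟨(l : ℕ) + (p + 1), by show (l : ℕ) + (p + 1) < cp p m + p + 1 + 1; omega⟩ (by
          show (l : ℕ) + (p + 1) < cp p m + p + 1
          omega)
      · exact h4
      · exact h5
    · have := h1 0 (by omega)
      rw [Nat.mul_zero] at this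
      exact covG_of this

/-! ### from the functionals to the coordinates -/

open R10_

section
variable {P : Matrix (Fin (2 * c + 1)) (Fin (2 * c + 1)) ℂ} {x : Fin (c + 1) → Fin (2 * c + 1) → ℂ} {H : VN c → VN c → ℂ}
    {ζ : VN c →ₗ[ℂ] Vc c} {sec : Vc c →ₗ[ℂ] VN c} {r : Fin (c + 1) → Fin (c + 1) → ℂ}

theorem xzero (hz : Zt P x H ζ sec r) {i : ℕ} {u : VN c} (hu : ∀ l : Fin (c + 1), (l : ℕ) < i → ζ u l = 0) :
    ∀ l : Fin (c + 1), (l : ℕ) < i → x l ⬝ᵥ u = 0 := by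
  have key : ∀ n : ℕ, ∀ l : Fin (c + 1), (l : ℕ) = n → (l : ℕ) < i → x l ⬝ᵥ u = 0 := by
    intro n
    induction n using Nat.strong_induction_on with
    | _ n ih =>
      intro l hl hli
      have h1 : ∀ l' : Fin (c + 1), (l' : ℕ) < l → x l' ⬝ᵥ u = 0 := fun l' hl' => ih l' (by omega) l' rfl (by omega)
      have h2 := zeq hz (i := l) h1
      rw [hu l hli] at h2
      have h3 : r l l ≠ 0 := by
        intro h0
        have := (hz.diag l).1
        rw [h0] at this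
        simp at this
      rcases mul_eq_zero.mp h2.symm with h | h
      · exact absurd h h3
      · exact h
  exact fun l hl => key l l rfl hl

theorem covZ_of {d : ℕ} (hd : 0 < d) {p i : ℕ} (hz : Zt P x H ζ sec r) (hx : CovX p i x) : CovZ p i (Gam d ζ) := by
  obtain ⟨C, hC, hcov⟩ := hx
  have hd0 : (0 : ℝ) < d := by exact_mod_cast hd
  have hd1 : (1 : ℝ) ≤ d := by exact_mod_cast hd
  set S : ℝ := 1 + ∑ l, ∑ l', ‖r l l'‖ with hS
  have hSl : ∀ l, ∑ l', ‖r l l'‖ ≤ S := by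
    intro l
    have h1 : ∑ l', ‖r l l'‖ ≤ ∑ l, ∑ l', ‖r l l'‖ :=
      Finset.single_le_sum (f := fun l => ∑ l', ‖r l l'‖) (fun l _ => Finset.sum_nonneg fun l' _ => norm_nonneg _) (Finset.mem_univ l)
    linarith
  have hS1 : 1 ≤ S := by
    have : 0 ≤ ∑ l, ∑ l', ‖r l l'‖ := Finset.sum_nonneg fun l _ => Finset.sum_nonneg fun l' _ => norm_nonneg _
    linarith
  set E : ℝ := d * S with hE
  have hE1 : 1 ≤ E := by nlinarith
  have hE0 : 0 < E := by linarith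
  refine ⟨2 * E ^ (2 * p + 2) * C + 2 * C + 2, by positivity, ?_⟩
  intro r0 ρ k hr hρ hk h1 h2 h3 w
  have hEp : 0 < E ^ (2 * p + 2) := by positivity
  -- the parameters
  have g1 : C ≤ r0 / E * (ρ / E) ^ (2 * p) * (k / (2 * E)) := by
    have e : r0 / E * (ρ / E) ^ (2 * p) * (k / (2 * E)) = (r0 * ρ ^ (2 * p) * k) / (2 * E ^ (2 * p + 2)) := by
      rw [div_pow, pow_succ, pow_succ]
      field_simp
    rw [e, le_div_iff₀ (by positivity)]
    nlinarith [mul_pos hEp hC]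
  have hrρ : C * r0 ≤ ρ := by
    have : 0 ≤ (2 * E ^ (2 * p + 2) * C + C + 2) * r0 := by positivity
    nlinarith
  have hrρ' : r0 ≤ ρ := by
    have : 0 ≤ (2 * E ^ (2 * p + 2) * C + 2 * C + 1) * r0 := by positivity
    nlinarith
  have hρk : 2 * (C * ρ) ≤ k := by
    have : 0 ≤ (2 * E ^ (2 * p + 2) * C + 2) * ρ := by positivity
    nlinarith
  have hρk' : 2 * ρ ≤ k := by
    have : 0 ≤ (2 * E ^ (2 * p + 2) * C + 2 * C) * ρ := by positivity
    nlinarith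
  have g2 : C * (r0 / E) ≤ ρ / E := by
    rw [← mul_div_assoc]
    exact div_le_div_of_nonneg_right hrρ hE0.le
  have g3 : C * (ρ / E) ≤ k / (2 * E) := by
    rw [← mul_div_assoc, div_le_div_iff₀ hE0 (by positivity)]
    nlinarith
  -- the target
  let w' : Vc c := fun l => if (l : ℕ) < i then 0 else if (l : ℕ) = i then ((w l).re : ℂ) else w l
  set u : VN c := sec ((d : ℂ)⁻¹ • w') with hu
  have hζu : ∀ l, ζ u l = (d : ℂ)⁻¹ * w' l := by
    intro l
    rw [hu, hz.hsec, Pi.smul_apply, smul_eq_mul]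
  have hdc : (d : ℂ) ≠ 0 := by exact_mod_cast hd.ne'
  obtain ⟨a, a0, a1, a2, a3⟩ := hcov (r0 / E) (ρ / E) (k / (2 * E)) (by positivity) (by positivity) (by positivity) g1 g2 g3 (fun l => x l ⬝ᵥ u)
  have hW0 : ∀ l : Fin (c + 1), (l : ℕ) < i → x l ⬝ᵥ u = 0 := xzero hz (fun l hl => by
    rw [hζu]
    show (d : ℂ)⁻¹ * (if (l : ℕ) < i then 0 else _) = 0
    rw [if_pos hl, mul_zero])
  set Dl : Fin (c + 1) → ℂ := fun l => x l ⬝ᵥ u - x l ⬝ᵥ zv a with hDl
  have hD0 : ∀ l : Fin (c + 1), (l : ℕ) < i → Dl l = 0 := fun l hl => by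
    show x l ⬝ᵥ u - x l ⬝ᵥ zv a = 0
    rw [hW0 l hl, a0 l hl, sub_zero]
  have hWi : ∀ l : Fin (c + 1), (l : ℕ) = i → (x l ⬝ᵥ u).im = 0 := by
    intro l hl
    have e := zeq hz (i := l) (u := u) (fun l' hl' => hW0 l' (by omega))
    rw [hζu] at e
    have e2 : w' l = ((w l).re : ℂ) := by
      show (if (l : ℕ) < i then 0 else if (l : ℕ) = i then ((w l).re : ℂ) else w l) = _
      rw [if_neg (by omega), if_pos hl]
    rw [e2, re_eq (hz.diag l).2] at e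
    have e3 := congrArg Complex.im e
    rw [Complex.im_ofReal_mul] at e3
    have e4 : ((d : ℂ)⁻¹ * ((w l).re : ℂ)).im = 0 := by
      have : ((d : ℂ)⁻¹ * ((w l).re : ℂ)) = (((d : ℝ)⁻¹ * (w l).re : ℝ) : ℂ) := by push_cast; rfl
      rw [this, Complex.ofReal_im]
    rw [e4] at e3
    exact (mul_eq_zero.mp e3.symm).resolve_left (hz.diag l).1.ne'
  have hDi : ∀ l : Fin (c + 1), (l : ℕ) = i → (Dl l).im = 0 ∧ ‖Dl l‖ ≤ r0 / E := by
    intro l hl
    have him : (Dl l).im = 0 := by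
      show (x l ⬝ᵥ u - x l ⬝ᵥ zv a).im = 0
      rw [Complex.sub_im, hWi l hl, (a1 l hl).1, sub_zero]
    refine ⟨him, ?_⟩
    rw [re_eq him, Complex.norm_real, Real.norm_eq_abs]
    have := (a1 l hl).2
    show |(x l ⬝ᵥ u - x l ⬝ᵥ zv a).re| ≤ _
    rw [Complex.sub_re]
    exact this
  have hDm : ∀ l : Fin (c + 1), (l : ℕ) ≤ i + p → ‖Dl l‖ ≤ ρ / E := by
    intro l hl
    rcases lt_trichotomy (l : ℕ) i with h | h | h
    · rw [hD0 l h, norm_zero]; positivity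
    · exact (hDi l h).2.trans (div_le_div_of_nonneg_right hrρ' hE0.le)
    · exact a2 l h hl
  have hmain : ∀ l, w' l - ζ (lat d a) l = d * ∑ l', r l l' * Dl l' := by
    intro l
    have e1 : w' l = d * ζ u l := by rw [hζu, ← mul_assoc, mul_inv_cancel₀ hdc, one_mul]
    rw [e1, hz.coord, hz.coord, Finset.mul_sum, Finset.mul_sum, ← Finset.sum_sub_distrib]
    refine Finset.sum_congr rfl fun l' _ => ?_
    rw [dot_lat]
    show _ = (d : ℂ) * (r l l' * (x l' ⬝ᵥ u - x l' ⬝ᵥ zv a))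
    ring
  have hsum : ∀ (l : Fin (c + 1)) (B : ℝ), (∀ l' : Fin (c + 1), l' ≤ l → ‖Dl l'‖ ≤ B) → 0 ≤ B → ‖∑ l', r l l' * Dl l'‖ ≤ S * B := by
    intro l B hB hB0
    refine (norm_sum_le _ _).trans ?_
    refine le_trans ?_ (mul_le_mul_of_nonneg_right (hSl l) hB0)
    rw [Finset.sum_mul]
    refine Finset.sum_le_sum fun l' _ => ?_
    rw [norm_mul]
    rcases le_or_gt l' l with h | h
    · exact mul_le_mul_of_nonneg_left (hB l' h) (norm_nonneg _)
    · rw [hz.tri l l' h, norm_zero, zero_mul, zero_mul]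
  have hlat0 : ∀ l : Fin (c + 1), (l : ℕ) < i → x l ⬝ᵥ lat d a = 0 := fun l hl => by rw [dot_lat, a0 l hl, mul_zero]
  refine ⟨ζ (lat d a), mem_Gam.2 ⟨a, rfl⟩, ?_, ?_, ?_, ?_⟩
  · exact fun l hl => zlt hz hlat0 l hl
  · intro l hl
    have e1 : ζ (lat d a) l = r l l * (x l ⬝ᵥ lat d a) := zeq hz (i := l) (fun l' hl' => hlat0 l' (by omega))
    have e2 : (ζ (lat d a) l).im = 0 := by
      rw [e1, dot_lat, re_eq (hz.diag l).2, Complex.im_ofReal_mul]
      have : ((d : ℂ) * (x l ⬝ᵥ zv a)).im = 0 := by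
        have h' : ((d : ℂ) * (x l ⬝ᵥ zv a)) = ((d : ℝ) : ℂ) * (x l ⬝ᵥ zv a) := by push_cast; rfl
        rw [h', Complex.im_ofReal_mul, (a1 l hl).1, mul_zero]
      rw [this, mul_zero]
    refine ⟨e2, ?_⟩
    have e3 := hmain l
    have e4 : w' l = ((w l).re : ℂ) := by
      show (if (l : ℕ) < i then 0 else if (l : ℕ) = i then ((w l).re : ℂ) else w l) = _
      rw [if_neg (by omega), if_pos hl]
    have e5 : |(w l).re - (ζ (lat d a) l).re| = ‖w' l - ζ (lat d a) l‖ := by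
      rw [e4, re_eq e2, ← Complex.ofReal_sub, Complex.norm_real, Real.norm_eq_abs, Complex.ofReal_re]
    have h5 := hsum l (r0 / E) (fun l' hl' => by
      rcases lt_or_eq_of_le hl' with h | h
      · rw [hD0 l' (by rw [Fin.lt_def] at h; omega), norm_zero]; positivity
      · rw [h]; exact (hDi l hl).2) (by positivity)
    rw [e5, e3, norm_mul, Complex.norm_natCast]
    calc (d : ℝ) * ‖∑ l', r l l' * Dl l'‖ ≤ d * (S * (r0 / E)) := mul_le_mul_of_nonneg_left h5 hd0.le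
      _ = E * (r0 / E) := by rw [hE]; ring
      _ = r0 := by field_simp
  · intro l hl hl'
    have e4 : w' l = w l := by
      show (if (l : ℕ) < i then 0 else if (l : ℕ) = i then ((w l).re : ℂ) else w l) = _
      rw [if_neg (by omega), if_neg (by omega)]
    rw [← e4, hmain l, norm_mul, Complex.norm_natCast]
    have h5 := hsum l (ρ / E) (fun l' h => hDm l' (by rw [Fin.le_def] at h; omega)) (by positivity)
    calc (d : ℝ) * ‖∑ l', r l l' * Dl l'‖ ≤ d * (S * (ρ / E)) := mul_le_mul_of_nonneg_left h5 hd0.le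
      _ = E * (ρ / E) := by rw [hE]; ring
      _ = ρ := by field_simp
  · intro l hl
    have e4 : w' l = w l := by
      show (if (l : ℕ) < i then 0 else if (l : ℕ) = i then ((w l).re : ℂ) else w l) = _
      rw [if_neg (by omega), if_neg (by omega)]
    rw [← Complex.sub_im, ← e4, hmain l]
    have e5 : ((d : ℂ) * ∑ l', r l l' * Dl l').im = d * (∑ l', r l l' * Dl l').im := by
      have h' : (d : ℂ) = ((d : ℝ) : ℂ) := by push_cast; rfl
      rw [h', Complex.im_ofReal_mul]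
    rw [e5, abs_mul, abs_of_pos hd0]
    -- split off the term `l`
    have e6 : ∑ l', r l l' * Dl l' = r l l * Dl l + ∑ l' ∈ Finset.univ.erase l, r l l' * Dl l' :=
      (Finset.add_sum_erase Finset.univ (fun l' => r l l' * Dl l') (Finset.mem_univ l)).symm
    have e7 : ‖∑ l' ∈ Finset.univ.erase l, r l l' * Dl l'‖ ≤ (∑ l' ∈ Finset.univ.erase l, ‖r l l'‖) * (ρ / E) := by
      refine (norm_sum_le _ _).trans ?_
      rw [Finset.sum_mul]
      refine Finset.sum_le_sum fun l' hl' => ?_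
      rw [norm_mul]
      rcases lt_or_ge l' l with h | h
      · exact mul_le_mul_of_nonneg_left (hDm l' (by rw [Fin.lt_def] at h; omega)) (norm_nonneg _)
      · have h8 : l < l' := lt_of_le_of_ne h (Finset.ne_of_mem_erase hl').symm
        rw [hz.tri l l' h8, norm_zero, zero_mul, zero_mul]
    have e8 : ‖r l l‖ + ∑ l' ∈ Finset.univ.erase l, ‖r l l'‖ ≤ S :=
      (Finset.add_sum_erase Finset.univ (fun l' => ‖r l l'‖) (Finset.mem_univ l)).le.trans (hSl l)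
    have e9 : |(r l l * Dl l).im| ≤ ‖r l l‖ * (k / (2 * E)) := by
      have h1 : (r l l * Dl l).im = (r l l).re * (Dl l).im := by
        conv_lhs => rw [re_eq (hz.diag l).2]
        rw [Complex.im_ofReal_mul]
      rw [h1, abs_mul]
      refine mul_le_mul (Complex.abs_re_le_norm _) ?_ (abs_nonneg _) (norm_nonneg _)
      have := a3 l hl
      show |(x l ⬝ᵥ u - x l ⬝ᵥ zv a).im| ≤ _
      rw [Complex.sub_im]
      exact this
    have e10 : |(∑ l', r l l' * Dl l').im| ≤ ‖r l l‖ * (k / (2 * E)) + (∑ l' ∈ Finset.univ.erase l, ‖r l l'‖) * (ρ / E) := by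
      rw [e6, Complex.add_im]
      exact (abs_add_le _ _).trans (add_le_add e9 ((Complex.abs_im_le_norm _).trans e7))
    have hn1 : 0 ≤ ‖r l l‖ := norm_nonneg _
    have hn2 : 0 ≤ ∑ l' ∈ Finset.univ.erase l, ‖r l l'‖ := Finset.sum_nonneg fun _ _ => norm_nonneg _
    have e11 : ‖r l l‖ * (k / (2 * E)) ≤ S * (k / (2 * E)) := mul_le_mul_of_nonneg_right (by linarith) (by positivity)
    have e12 : (∑ l' ∈ Finset.univ.erase l, ‖r l l'‖) * (ρ / E) ≤ S * (ρ / E) := mul_le_mul_of_nonneg_right (by linarith) (by positivity)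
    calc (d : ℝ) * |(∑ l', r l l' * Dl l').im| ≤ d * (S * (k / (2 * E)) + S * (ρ / E)) :=
          mul_le_mul_of_nonneg_left (by linarith) hd0.le
      _ = E * (k / (2 * E)) + E * (ρ / E) := by rw [hE]; ring
      _ = k / 2 + ρ := by field_simp
      _ ≤ k := by linarith

end

theorem tow_GamG {p m : ℕ} (D : Dat (cp p m)) {x : Fin (cp p m + 1) → Fin (2 * cp p m + 1) → ℂ} (hx : FlagG p m D.Lt x)
    {H : VN (cp p m) → VN (cp p m) → ℂ} {ζ : VN (cp p m) →ₗ[ℂ] Vc (cp p m)} {sec : Vc (cp p m) →ₗ[ℂ] VN (cp p m)}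
    {r : Fin (cp p m + 1) → Fin (cp p m + 1) → ℂ} (hz : Zt D.Lt x H ζ sec r) : TowG (cp p m) (Gam D.d ζ) := by
  refine towG_of p m _ (fun t ht => covZ_of D.hd hz (hx.step t ht)) ?_
  obtain ⟨a, hl, hne, him⟩ := hx.last
  have hua : ∀ l : Fin (cp p m + 1), (l : ℕ) < cp p m → x l ⬝ᵥ lat D.d a = 0 := fun l h => by rw [dot_lat, hl l h, mul_zero]
  have hr0 := re_eq (hz.diag (Fin.last (cp p m))).2
  have hp0 := (hz.diag (Fin.last (cp p m))).1
  have ea : ζ (lat D.d a) (Fin.last (cp p m)) = r (Fin.last (cp p m)) (Fin.last (cp p m)) * ((D.d : ℂ) * (x (Fin.last (cp p m)) ⬝ᵥ zv a)) := by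
    rw [zeq hz (i := Fin.last (cp p m)) (by simpa using hua), dot_lat]
  refine ⟨ζ (lat D.d a), ⟨a, rfl⟩, fun l h => zlt hz hua l h, ?_, ?_⟩
  · rw [ea]
    refine mul_ne_zero ?_ (mul_ne_zero (by exact_mod_cast D.hd.ne') hne)
    intro h0; rw [h0] at hp0; simp at hp0
  · rw [ea, hr0, re_eq him]
    simp

end D2G

end Pool.Agent.LT
end

end
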