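import Mathlib
import Pool.Agent.Lib.MP_f58a57_nt.LK.K013
import Pool.Agent.Lib.MP_f58a57_nt.LK.K019
import Pool.Agent.Lib.MP_f58a57_nt.LK.K020
import Pool.Agent.Lib.MP_f58a57_nt.LK.K022
import Pool.Agent.Lib.MP_f58a57_nt.LK.K023
import Pool.Agent.Lib.MP_f58a57_nt.LK.K025

namespace Pool.Agent.MSD
end Pool.Agent.MSD

section

/-!
# MP_f58a57_nt, large transcendence degree, version 2: the assembly
-/

open Complex MvPolynomial Matrix

noncomputable section

namespace Pool.Agent.LT.ZA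

open Pool.Agent.MSD (jj)

theorem cp_eq (p m : ℕ) : cp p m = (p + 1) * m := by
  induction m with
  | zero => rfl
  | succ m ih => rw [cp, ih]; ring

/-- THE MAIN THEOREM, version 2, from the parts, for `(p + 1) m + 1` points -/
theorem main_ofG1 (hA : ThmA) (hC : ThmC) (hD1 : ThmD1G) (hD2 : ThmD2G) (hE : ThmE) (K : Subfield ℂ) (p : ℕ) (hK : QG K p) (m : ℕ)
    (z : Fin (cp p m + 1) → ℂ) (hzK : ∀ i, z i ∈ K) (him : ∀ i, 0 < (z i).im) (hNQ : ∀ i, NQ (z i))
    (hind : ∀ i j, i ≠ j → ¬ GEq (z i) (z j)) (hj : ∀ i, deriv jj (z i) ≠ 0) :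
    ((2 * cp p m + 1 : ℕ) : Cardinal) ≤ Algebra.trdeg ℚ (IntermediateField.adjoin ℚ
      (⋃ i, {z i, jj (z i), deriv jj (z i), deriv (deriv jj) (z i)} : Set ℂ)) := by
  obtain ⟨D, idx, hidx⟩ := hD1 K hK.dim (cp p m) z hzK him hNQ hind
  have hDK : ∀ j, D.z j ∈ K := fun j => by rw [hidx]; exact hzK _
  have hDN : ∀ j, NQ (D.z j) := fun j => by rw [hidx]; exact hNQ _
  have hDG : ∀ i j, D.z i ≠ D.z j → ¬ GEq (D.z i) (D.z j) := by
    intro i j hij
    rw [hidx, hidx] at hij ⊢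
    exact hind _ _ fun h => hij (by rw [h])
  obtain ⟨Φ, C, C', hker, m', θ, lam, CE, hlam, htr, hP⟩ := hE (cp p m) D hDN (fun j => by rw [hidx]; exact hj _)
  obtain ⟨hI1, hI2⟩ := hD2 K p hK m D hDK hDN hDG
  obtain ⟨hLB, hUB⟩ := hC (cp p m) D Φ C C' hker
  have h1 := core hA (cp p m) (hLB (hI1 C hker.mulu) (hI2 C' hker.muls)) hUB θ hlam CE hP
  refine h1.trans (htr.trans ?_)
  have hsub : (⋃ j, {D.z j, jj (D.z j), deriv jj (D.z j), deriv (deriv jj) (D.z j)} : Set ℂ) ⊆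
      ⋃ i, {z i, jj (z i), deriv jj (z i), deriv (deriv jj) (z i)} := by
    apply Set.iUnion_subset
    intro j
    rw [hidx j]
    exact Set.subset_iUnion (fun i => ({z i, jj (z i), deriv jj (z i), deriv (deriv jj) (z i)} : Set ℂ)) (idx j)
  have hle := IntermediateField.adjoin.mono ℚ _ _ hsub
  exact trdeg_le_of_injective (IntermediateField.inclusion hle) (IntermediateField.inclusion_injective hle)

/-- THE MAIN THEOREM, version 2, from the parts, for `n` points -/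
theorem main_ofG (hA : ThmA) (hC : ThmC) (hD1 : ThmD1G) (hD2 : ThmD2G) (hE : ThmE) (K : Subfield ℂ) (p : ℕ) (hK : QG K p) (n : ℕ)
    (hn : 1 ≤ n) (z : Fin n → ℂ) (hzK : ∀ i, z i ∈ K) (him : ∀ i, 0 < (z i).im) (hNQ : ∀ i, NQ (z i))
    (hind : ∀ i j, i ≠ j → ¬ GEq (z i) (z j)) (hj : ∀ i, deriv jj (z i) ≠ 0) :
    ((2 * (p + 1) * ((n - 1) / (p + 1)) + 1 : ℕ) : Cardinal) ≤ Algebra.trdeg ℚ (IntermediateField.adjoin ℚ
      (⋃ i, {z i, jj (z i), deriv jj (z i), deriv (deriv jj) (z i)} : Set ℂ)) := by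
  set m : ℕ := (n - 1) / (p + 1) with hm
  have hle : cp p m + 1 ≤ n := by
    have h1 : (p + 1) * m ≤ n - 1 := Nat.mul_div_le (n - 1) (p + 1)
    rw [cp_eq]
    omega
  have h1 := main_ofG1 hA hC hD1 hD2 hE K p hK m (fun i => z (Fin.castLE hle i)) (fun i => hzK _) (fun i => him _) (fun i => hNQ _)
    (fun i j hij => hind _ _ fun h => hij (Fin.castLE_injective hle h)) (fun i => hj _)
  rw [show 2 * (p + 1) * m + 1 = 2 * cp p m + 1 by rw [cp_eq]; ring]
  refine h1.trans ?_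
  have hsub : (⋃ i : Fin (cp p m + 1), {z (Fin.castLE hle i), jj (z (Fin.castLE hle i)), deriv jj (z (Fin.castLE hle i)),
      deriv (deriv jj) (z (Fin.castLE hle i))} : Set ℂ) ⊆ ⋃ i, {z i, jj (z i), deriv jj (z i), deriv (deriv jj) (z i)} := by
    apply Set.iUnion_subset
    intro j
    exact Set.subset_iUnion (fun i => ({z i, jj (z i), deriv jj (z i), deriv (deriv jj) (z i)} : Set ℂ)) (Fin.castLE hle j)
  have hle2 := IntermediateField.adjoin.mono ℚ _ _ hsub
  exact trdeg_le_of_injective (IntermediateField.inclusion hle2) (IntermediateField.inclusion_injective hle2)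

/-- THE MAIN THEOREM, version 2, from the parts, all nonreal quartic fields; `s = [K K̄ : K]` -/
theorem main_of2 (hA : ThmA) (hC : ThmC) (hD1 : ThmD1G) (hD2 : ThmD2G) (hE : ThmE) (K : Subfield ℂ) (hdeg : Module.finrank ℚ K = 4)
    (hnr : ∃ x ∈ K, x.im ≠ 0) (n : ℕ) (z : Fin n → ℂ) (hzK : ∀ i, z i ∈ K) (him : ∀ i, 0 < (z i).im) (hNQ : ∀ i, NQ (z i))
    (hind : ∀ i j, i ≠ j → ¬ GEq (z i) (z j)) (hj : ∀ i, deriv jj (z i) ≠ 0) :
    ∃ s : ℕ, (s = 1 ∨ s = 2 ∨ s = 3) ∧ Module.finrank ℚ ↥(K ⊔ K.map (starRingEnd ℂ)) = 4 * s ∧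
      (s = 1 ↔ ∃ Δ : ℕ, ¬ IsSquare Δ ∧ ((Real.sqrt Δ : ℝ) : ℂ) ∈ K) ∧
      (1 ≤ n → ((2 * s * ((n - 1) / s) + 1 : ℕ) : Cardinal) ≤ Algebra.trdeg ℚ (IntermediateField.adjoin ℚ
        (⋃ i, {z i, jj (z i), deriv jj (z i), deriv (deriv jj) (z i)} : Set ℂ))) ∧
      ((2 * n - (2 * s - 1) : ℕ) : Cardinal) ≤ Algebra.trdeg ℚ (IntermediateField.adjoin ℚ
        (⋃ i, {z i, jj (z i), deriv jj (z i), deriv (deriv jj) (z i)} : Set ℂ)) := by
  obtain ⟨p, hp, hK⟩ := QGf.exists_p K hdeg hnr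
  have hmain := fun hn => main_ofG hA hC hD1 hD2 hE K p hK n hn z hzK him hNQ hind hj
  refine ⟨p + 1, by omega, hK.rel, ⟨?_, ?_⟩, hmain, ?_⟩
  · intro h
    obtain rfl : p = 0 := by omega
    exact (QGf.to_QF hK).rq
  · intro h
    have := QGf.p_unique hK (QGf.of_QF ⟨hdeg, hnr, h⟩)
    omega
  · rcases Nat.eq_zero_or_pos n with rfl | hn
    · simp
    refine le_trans ?_ (hmain hn)
    have h1 : n - 1 < (p + 1) * ((n - 1) / (p + 1)) + (p + 1) := Nat.lt_mul_div_succ (n - 1) (Nat.succ_pos p)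
    have h2 : 2 * (p + 1) * ((n - 1) / (p + 1)) = 2 * ((p + 1) * ((n - 1) / (p + 1))) := by ring
    rw [h2]
    generalize (p + 1) * ((n - 1) / (p + 1)) = q at h1 ⊢
    exact_mod_cast (by omega : 2 * n - (2 * (p + 1) - 1) ≤ 2 * q + 1)

end Pool.Agent.LT.ZA
end

end

section

/-!
# E3: the algebraic properties of the kernel
-/

open Complex Matrix

noncomputable section

namespace Pool.Agent.LT.KE

theorem ee_add (x y : ℂ) : ee (x + y) = ee x * ee y := by
  rw [ee, ee, ee, ← Complex.exp_add]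
  ring_nf

theorem ee_sum {ι : Type} (s : Finset ι) (f : ι → ℂ) : ee (∑ i ∈ s, f i) = ∏ i ∈ s, ee (f i) := by
  rw [ee, Finset.mul_sum, Complex.exp_sum]
  rfl

private theorem E3_ee_zero : ee 0 = 1 := by
  simp [ee]

private theorem E3_ee_ne (x : ℂ) : ee x ≠ 0 := Complex.exp_ne_zero _

private theorem E3_negone (m : ℤ) : (-1 : ℂ) ^ (-m) = (-1 : ℂ) ^ m := by
  rw [_root_.zpow_neg, ← _root_.inv_zpow, inv_neg_one]

variable {c : ℕ} (D : Dat c)

private theorem E3_prod (a m : Fin (2 * c + 1) → ℤ) (x : Fin (2 * c + 1) → ℂ) :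
    ∏ j, th1 (D.z j) (x j + (((D.d * a j : ℤ) : ℂ) * D.z j - ((m j : ℤ) : ℂ))) =
      (∏ j, ((-1 : ℂ) ^ (m j) * cexp (-(Real.pi * I * ((D.d : ℂ) * (a j : ℂ)) ^ 2 * D.z j)))) *
        ee (-(lat D.d a ⬝ᵥ x)) * ∏ j, th1 (D.z j) (x j) := by
  have h1 : ee (-(lat D.d a ⬝ᵥ x)) = ∏ j, ee (-((D.d : ℂ) * (a j : ℂ) * x j)) := by
    rw [← ee_sum, Finset.sum_neg_distrib]
    rfl
  rw [h1, ← Finset.prod_mul_distrib, ← Finset.prod_mul_distrib]
  apply Finset.prod_congr rfl
  intro j _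
  have h2 : x j + (((D.d * a j : ℤ) : ℂ) * D.z j - ((m j : ℤ) : ℂ)) =
      x j + ((-(m j) : ℤ) : ℂ) + ((D.d * a j : ℤ) : ℂ) * D.z j := by
    push_cast
    ring
  rw [h2, th1_shift (D.z j) (D.im j), E3_negone]
  push_cast
  rfl

private theorem E3_xa_add_u (u v s : Fin (2 * c + 1) → ℂ) (j : Fin (2 * c + 1)) :
    xa D (u + v) s j = xa D u s j + (D.Lt *ᵥ v) j := by
  simp only [xa, Matrix.mulVec_add, Pi.add_apply]
  ring

private theorem E3_xa_add_s (u v s : Fin (2 * c + 1) → ℂ) (j : Fin (2 * c + 1)) :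
    xa D u (s + v) j = xa D u s j + (D.L *ᵥ v) j := by
  simp only [xa, Matrix.mulVec_add, Pi.add_apply]
  ring

/-- PROOF: `Lt_lat` and `th1_shift` with `m = -(dM a)_j`, `n = d a_j` for every factor; the product of the `ee (-(d a_j x_j))` is `ee (-(lat ⬝ᵥ xa))`,
`xa = L s + Lt u`, and `ee ((u + lat) ⬝ᵥ L s) = ee (u ⬝ᵥ L s) ee (lat ⬝ᵥ L s)`. -/
theorem Ph_lat_u (a : Fin (2 * c + 1) → ℤ) (u s : Fin (2 * c + 1) → ℂ) :
    Ph D (u + lat D.d a) s = Cu D a * ee (-(lat D.d a ⬝ᵥ (D.Lt *ᵥ u))) * Ph D u s := by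
  have h1 : ∏ j, th1 (D.z j) (xa D (u + lat D.d a) s j) =
      Cu D a * ee (-(lat D.d a ⬝ᵥ xa D u s)) * ∏ j, th1 (D.z j) (xa D u s j) := by
    unfold Cu
    rw [← E3_prod]
    apply Finset.prod_congr rfl
    intro j _
    rw [E3_xa_add_u, Lt_lat]
  have h2 : ee ((u + lat D.d a) ⬝ᵥ (D.L *ᵥ s)) * ee (-(lat D.d a ⬝ᵥ xa D u s)) =
      ee (-(lat D.d a ⬝ᵥ (D.Lt *ᵥ u))) * ee (u ⬝ᵥ (D.L *ᵥ s)) := by
    rw [← ee_add, ← ee_add]
    congr 1
    unfold xa
    rw [add_dotProduct, dotProduct_add]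
    ring
  unfold Ph
  rw [h1]
  calc ee ((u + lat D.d a) ⬝ᵥ (D.L *ᵥ s)) * (Cu D a * ee (-(lat D.d a ⬝ᵥ xa D u s)) * ∏ j, th1 (D.z j) (xa D u s j))
      = (ee ((u + lat D.d a) ⬝ᵥ (D.L *ᵥ s)) * ee (-(lat D.d a ⬝ᵥ xa D u s))) * Cu D a * ∏ j, th1 (D.z j) (xa D u s j) := by ring
    _ = _ := by rw [h2]; ring

/-- PROOF: same with `L_lat`; `u ⬝ᵥ L (lat) = (Lt u) ⬝ᵥ lat` by `dot_L`. -/
theorem Ph_lat_s (a : Fin (2 * c + 1) → ℤ) (u s : Fin (2 * c + 1) → ℂ) :
    Ph D u (s + lat D.d a) = Cs D a * ee (-(lat D.d a ⬝ᵥ (D.L *ᵥ s))) * Ph D u s := by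
  have h1 : ∏ j, th1 (D.z j) (xa D u (s + lat D.d a) j) =
      Cs D a * ee (-(lat D.d a ⬝ᵥ xa D u s)) * ∏ j, th1 (D.z j) (xa D u s j) := by
    unfold Cs
    rw [← E3_prod]
    apply Finset.prod_congr rfl
    intro j _
    rw [E3_xa_add_s, L_lat]
  have h2 : ee (u ⬝ᵥ (D.L *ᵥ (s + lat D.d a))) * ee (-(lat D.d a ⬝ᵥ xa D u s)) =
      ee (-(lat D.d a ⬝ᵥ (D.L *ᵥ s))) * ee (u ⬝ᵥ (D.L *ᵥ s)) := by
    rw [← ee_add, ← ee_add]
    congr 1
    unfold xa
    rw [Matrix.mulVec_add, dotProduct_add, dotProduct_add, dot_L D u (lat D.d a),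
      dotProduct_comm (lat D.d a) (D.Lt *ᵥ u)]
    ring
  unfold Ph
  rw [h1]
  calc ee (u ⬝ᵥ (D.L *ᵥ (s + lat D.d a))) * (Cs D a * ee (-(lat D.d a ⬝ᵥ xa D u s)) * ∏ j, th1 (D.z j) (xa D u s j))
      = (ee (u ⬝ᵥ (D.L *ᵥ (s + lat D.d a))) * ee (-(lat D.d a ⬝ᵥ xa D u s))) * Cs D a * ∏ j, th1 (D.z j) (xa D u s j) := by ring
    _ = _ := by rw [h2]; ring

theorem Ph_ker_u (k : Fin (2 * c + 1) → ℂ) (hk : D.Lt *ᵥ k = 0) (u s : Fin (2 * c + 1) → ℂ) : Ph D (u + k) s = Ph D u s := by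
  have h1 : ∀ j, xa D (u + k) s j = xa D u s j := by
    intro j
    rw [E3_xa_add_u, hk, Pi.zero_apply, add_zero]
  unfold Ph
  rw [add_dotProduct, dot_L D k s, hk, zero_dotProduct, add_zero]
  simp only [h1]

theorem Ph_ker_s (k : Fin (2 * c + 1) → ℂ) (hk : D.L *ᵥ k = 0) (u s : Fin (2 * c + 1) → ℂ) : Ph D u (s + k) = Ph D u s := by
  have h1 : ∀ j, xa D u (s + k) j = xa D u s j := by
    intro j
    rw [E3_xa_add_s, hk, Pi.zero_apply, add_zero]
  unfold Ph
  rw [Matrix.mulVec_add, hk, add_zero]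
  simp only [h1]

private theorem E3_mul (m a : Fin (2 * c + 1) → ℤ) :
    ‖∏ j, ((-1 : ℂ) ^ (m j) * cexp (-(Real.pi * I * ((D.d : ℂ) * (a j : ℂ)) ^ 2 * D.z j)))‖ =
      Real.exp (Real.pi * ∑ j, (D.z j).im * ((D.d : ℝ) * (a j : ℝ)) ^ 2 + ∑ j, (0 : Fin (2 * c + 1) → ℝ) j * ((D.d : ℝ) * (a j : ℝ))) := by
  simp only [Pi.zero_apply, zero_mul, Finset.sum_const_zero, add_zero]
  rw [norm_prod, Finset.mul_sum, Real.exp_sum]
  apply Finset.prod_congr rfl
  intro j _
  rw [norm_mul, norm_zpow, norm_neg, norm_one, _root_.one_zpow, one_mul, Complex.norm_exp]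
  congr 1
  have h : -(Real.pi * I * ((D.d : ℂ) * (a j : ℂ)) ^ 2 * D.z j) =
      ((-(Real.pi * ((D.d : ℝ) * (a j : ℝ)) ^ 2) : ℝ) : ℂ) * (I * D.z j) := by
    push_cast
    ring
  rw [h, Complex.re_ofReal_mul, Complex.I_mul_re]
  ring

/-- PROOF: `l = 0`; the norm of every factor: `‖cexp w‖ = exp (re w)`. -/
theorem mulu_ok : MulOK D.d D.z (Cu D) := by
  refine ⟨0, fun a => ?_⟩
  unfold Cu
  exact E3_mul D (D.dM *ᵥ a) a

theorem muls_ok : MulOK D.d D.z (Cs D) := by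
  refine ⟨0, fun a => ?_⟩
  unfold Cs
  exact E3_mul D (D.dMᵀ *ᵥ a) a

/-- PROOF: `xa` does not change (`L_gc` and `Lt gc = v0` by definition); expand `(u + x g) ⬝ᵥ L (s - x g)` with `dot_L`. -/
theorem Ph_sh (x : ℂ) (u s : Fin (2 * c + 1) → ℂ) :
    Ph D (u + x • D.gc) (s - x • D.gc) = ee (x * (D.v0 ⬝ᵥ (s - u)) - x ^ 2 * D.nu) * Ph D u s := by
  have hv0 : D.Lt *ᵥ D.gc = D.v0 := rfl
  have hL : D.L *ᵥ (s - x • D.gc) = D.L *ᵥ s - x • D.v0 := by
    rw [Matrix.mulVec_sub, Matrix.mulVec_smul, L_gc]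
  have h1 : xa D (u + x • D.gc) (s - x • D.gc) = xa D u s := by
    unfold xa
    rw [hL, Matrix.mulVec_add, Matrix.mulVec_smul, hv0]
    funext j
    simp only [Pi.add_apply, Pi.sub_apply]
    ring
  have h2 : (u + x • D.gc) ⬝ᵥ (D.L *ᵥ (s - x • D.gc)) =
      (x * (D.v0 ⬝ᵥ (s - u)) - x ^ 2 * D.nu) + u ⬝ᵥ (D.L *ᵥ s) := by
    have h3 : D.gc ⬝ᵥ (D.L *ᵥ s) = D.v0 ⬝ᵥ s := by
      rw [dot_L, hv0]
    have h4 : u ⬝ᵥ D.v0 = D.v0 ⬝ᵥ u := dotProduct_comm _ _
    have h5 : D.gc ⬝ᵥ D.v0 = D.nu := rfl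
    rw [hL, add_dotProduct, dotProduct_sub, dotProduct_sub, smul_dotProduct, smul_dotProduct,
      dotProduct_smul, dotProduct_smul, h3, h4, h5, dotProduct_sub]
    simp only [smul_eq_mul]
    ring
  unfold Ph
  rw [h1, h2, ee_add]
  ring

/-- PROOF: `j` with `g j ≠ 0` (`D.hg`), `nn := Pi.single j (sign (g j))`, `p, p'` from `Lsum_surj`, `xa` moves by the integers `nn` (`th1_shift` with `n = 0`);
`C5 := ee (p ⬝ᵥ L p') * ∏ j, (-1) ^ nn j`. -/
theorem Ph_jump : ∃ (p p' : Fin (2 * c + 1) → ℂ) (nn : Fin (2 * c + 1) → ℤ) (C5 : ℂ), C5 ≠ 0 ∧ D.L *ᵥ p' + D.Lt *ᵥ p = (fun j => (nn j : ℂ)) ∧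
    1 ≤ ∑ j, D.g j * nn j ∧ ∀ u s, Ph D (u + p) (s + p') = C5 * ee (p ⬝ᵥ (D.L *ᵥ s) + u ⬝ᵥ (D.L *ᵥ p')) * Ph D u s := by
  obtain ⟨j0, hj0⟩ : ∃ j, D.g j ≠ 0 := by
    by_contra h
    push Not at h
    exact D.hg (funext h)
  obtain ⟨p, p', hp⟩ := Lsum_surj D (fun j => ((Pi.single j0 (Int.sign (D.g j0)) : Fin (2 * c + 1) → ℤ) j : ℂ))
  refine ⟨p, p', Pi.single j0 (Int.sign (D.g j0)), ee (p ⬝ᵥ (D.L *ᵥ p')) *
    ∏ j, (-1 : ℂ) ^ ((Pi.single j0 (Int.sign (D.g j0)) : Fin (2 * c + 1) → ℤ) j), ?_, hp, ?_, ?_⟩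
  · apply mul_ne_zero (E3_ee_ne _)
    rw [Finset.prod_ne_zero_iff]
    intro j _
    exact zpow_ne_zero _ (by norm_num)
  · rw [Finset.sum_eq_single j0]
    · rw [Pi.single_eq_same, mul_comm, Int.sign_mul_self_eq_abs]
      exact Int.one_le_abs hj0
    · intro j _ hj
      rw [Pi.single_eq_of_ne hj, mul_zero]
    · intro h
      exact absurd (Finset.mem_univ _) h
  · intro u s
    have h1 : ∀ j, xa D (u + p) (s + p') j = xa D u s j + (((Pi.single j0 (Int.sign (D.g j0)) : Fin (2 * c + 1) → ℤ) j : ℤ) : ℂ) := by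
      intro j
      rw [E3_xa_add_u, E3_xa_add_s, add_assoc]
      congr 1
      have := congrFun hp j
      rw [Pi.add_apply] at this
      exact this
    have h2 : ∏ j, th1 (D.z j) (xa D (u + p) (s + p') j) =
        (∏ j, (-1 : ℂ) ^ ((Pi.single j0 (Int.sign (D.g j0)) : Fin (2 * c + 1) → ℤ) j)) * ∏ j, th1 (D.z j) (xa D u s j) := by
      rw [← Finset.prod_mul_distrib]
      apply Finset.prod_congr rfl
      intro j _
      have h3 := th1_shift (D.z j) (D.im j) ((Pi.single j0 (Int.sign (D.g j0)) : Fin (2 * c + 1) → ℤ) j) 0 (xa D u s j)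
      rw [Int.cast_zero, zero_mul, add_zero, zero_mul, neg_zero, E3_ee_zero, mul_one, zero_pow two_ne_zero,
        mul_zero, zero_mul, neg_zero, Complex.exp_zero, mul_one] at h3
      rw [h1, h3]
    have h4 : (u + p) ⬝ᵥ (D.L *ᵥ (s + p')) =
        p ⬝ᵥ (D.L *ᵥ p') + ((p ⬝ᵥ (D.L *ᵥ s) + u ⬝ᵥ (D.L *ᵥ p')) + u ⬝ᵥ (D.L *ᵥ s)) := by
      rw [Matrix.mulVec_add, add_dotProduct, dotProduct_add, dotProduct_add]
      ring
    unfold Ph
    rw [h2, h4, ee_add, ee_add (p ⬝ᵥ (D.L *ᵥ s) + u ⬝ᵥ (D.L *ᵥ p'))]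
    ring

end Pool.Agent.LT.KE
end

end

section

/-!
# E4: derivatives of the values along a line
-/

open Complex Matrix MvPolynomial

noncomputable section

namespace Pool.Agent.LT.KE

theorem om_sq : om ^ 2 = (Real.pi : ℂ) := by
  rw [om, ← Complex.ofReal_pow, Real.sq_sqrt Real.pi_pos.le]

theorem om_ne : om ≠ 0 := by
  rw [om, Ne, Complex.ofReal_eq_zero]
  exact (Real.sqrt_pos.2 Real.pi_pos).ne'

/-- the argument moves with speed `δ j` -/
theorem E4_arg {N : ℕ} (x δ : Fin N → ℂ) (j : Fin N) :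
    HasDerivAt (fun t : ℂ => 1 / 2 + (x + t • δ) j) (δ j) 0 := by
  have h1 : HasDerivAt (fun t : ℂ => t * δ j) (1 * δ j) 0 := (hasDerivAt_id (0 : ℂ)).mul_const (δ j)
  have h2 := (h1.const_add (x j)).const_add (1 / 2 : ℂ)
  rw [one_mul] at h2
  exact h2

theorem E4_arg0 {N : ℕ} (x δ : Fin N → ℂ) (j : Fin N) : 1 / 2 + (x + (0 : ℂ) • δ) j = 1 / 2 + x j := by
  rw [zero_smul, add_zero]

theorem E4_comp {N : ℕ} (x δ : Fin N → ℂ) (j : Fin N) {F : ℂ → ℂ} {F' : ℂ} (h : HasDerivAt F F' (1 / 2 + x j)) :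
    HasDerivAt (fun t : ℂ => F (1 / 2 + (x + t • δ) j)) (F' * δ j) 0 := by
  have h1 : HasDerivAt F F' (1 / 2 + (x + (0 : ℂ) • δ) j) := by
    rw [E4_arg0]
    exact h
  exact HasDerivAt.comp (0 : ℂ) h1 (E4_arg x δ j)

theorem E4_lin {N : ℕ} (u e : Fin N → ℂ) (l : Fin N) : HasDerivAt (fun t : ℂ => om * (u + t • e) l) (om * e l) 0 := by
  have h1 : HasDerivAt (fun t : ℂ => t * e l) (1 * e l) 0 := (hasDerivAt_id (0 : ℂ)).mul_const (e l)
  have h2 := (h1.const_add (u l)).const_mul om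
  rw [one_mul] at h2
  exact h2

/-- PROOF: one variable at a time (`cases v`): `MSP.hasDerivAt_ph`, `MSP.wp_analyticAt` (for `wp`, its `deriv`), `MSP.wp_ode2` (for `deriv wp`), all
composed with `t ↦ 1/2 + (x j + t δ j)` (derivative `δ j`). -/
theorem vals_X {N : ℕ} (z x δ u e s e' : Fin N → ℂ) (hz : ∀ j, 0 < (z j).im) (hr : Reg z x)
    (a b b' : Fin N → MvPolynomial (Va N) ℤ) (κ : ℂ) (ha : ∀ j, om * δ j = κ * aeval (vv z x u s) (a j))
    (hb : ∀ l, om * e l = κ * aeval (vv z x u s) (b l)) (hb' : ∀ l, om * e' l = κ * aeval (vv z x u s) (b' l)) (v : Va N) :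
    HasDerivAt (fun t : ℂ => vv z (x + t • δ) (u + t • e) (s + t • e') v) (κ * aeval (vv z x u s) (dV a b b' (X v))) 0 := by
  have hom := om_ne
  rw [dV, mkDerivation_X]
  cases v with
  | z j =>
    show HasDerivAt (fun _ : ℂ => z j) (κ * aeval (vv z x u s) (0 : MvPolynomial (Va N) ℤ)) 0
    rw [map_zero, mul_zero]
    exact hasDerivAt_const _ _
  | i =>
    show HasDerivAt (fun _ : ℂ => I) (κ * aeval (vv z x u s) (0 : MvPolynomial (Va N) ℤ)) 0
    rw [map_zero, mul_zero]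
    exact hasDerivAt_const _ _
  | X j =>
    have h1 := E4_comp x δ j (MSP.wp_analyticAt (z j) (MSP.sE (z j)) (hz j) (1 / 2 + x j)
      (hr j)).differentiableAt.hasDerivAt
    have h2 := h1.div_const (om ^ 2)
    have e : κ * aeval (vv z x u s) (a j * MvPolynomial.X (Va.Y j)) =
        deriv (MSP.wp (z j) (MSP.sE (z j))) (1 / 2 + x j) * δ j / om ^ 2 := by
      have hY : vv z x u s (Va.Y j) = deriv (MSP.wp (z j) (MSP.sE (z j))) (1 / 2 + x j) / om ^ 3 := rfl
      rw [map_mul, aeval_X, hY, ← mul_assoc, ← ha j]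
      field_simp
    show HasDerivAt (fun t : ℂ => MSP.wp (z j) (MSP.sE (z j)) (1 / 2 + (x + t • δ) j) / om ^ 2)
      (κ * aeval (vv z x u s) (a j * MvPolynomial.X (Va.Y j))) 0
    rw [e]
    exact h2
  | Y j =>
    have h1 := E4_comp x δ j (MSP.wp_ode2 (z j) (hz j) (1 / 2 + x j) (hr j))
    have h2 := h1.div_const (om ^ 3)
    have e : κ * aeval (vv z x u s) (a j * (6 * MvPolynomial.X (Va.X j) ^ 2 - MvPolynomial.X (Va.g j))) =
        (6 * MSP.wp (z j) (MSP.sE (z j)) (1 / 2 + x j) ^ 2 - 2 / 3 * Real.pi ^ 4 * MSD.e4 (z j)) * δ j / om ^ 3 := by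
      have hX : vv z x u s (Va.X j) = MSP.wp (z j) (MSP.sE (z j)) (1 / 2 + x j) / om ^ 2 := rfl
      have hg : vv z x u s (Va.g j) = 2 / 3 * Real.pi ^ 4 * MSD.e4 (z j) / om ^ 4 := rfl
      rw [map_mul, map_sub, map_mul, map_pow, aeval_X, aeval_X, map_ofNat, hX, hg, ← mul_assoc, ← ha j]
      field_simp
    show HasDerivAt (fun t : ℂ => deriv (MSP.wp (z j) (MSP.sE (z j))) (1 / 2 + (x + t • δ) j) / om ^ 3)
      (κ * aeval (vv z x u s) (a j * (6 * MvPolynomial.X (Va.X j) ^ 2 - MvPolynomial.X (Va.g j)))) 0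
    rw [e]
    exact h2
  | g j =>
    show HasDerivAt (fun _ : ℂ => 2 / 3 * Real.pi ^ 4 * MSD.e4 (z j) / om ^ 4)
      (κ * aeval (vv z x u s) (0 : MvPolynomial (Va N) ℤ)) 0
    rw [map_zero, mul_zero]
    exact hasDerivAt_const _ _
  | k j =>
    show HasDerivAt (fun _ : ℂ => MSP.sE (z j) / om ^ 2) (κ * aeval (vv z x u s) (0 : MvPolynomial (Va N) ℤ)) 0
    rw [map_zero, mul_zero]
    exact hasDerivAt_const _ _
  | p j =>
    have h1 := E4_comp x δ j (MSP.hasDerivAt_ph (z j) (MSP.sE (z j)) (hz j) (1 / 2 + x j) (hr j))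
    have h2 := h1.div_const om
    have e : κ * aeval (vv z x u s) (-(a j * (MvPolynomial.X (Va.X j) + MvPolynomial.X (Va.k j)))) =
        -(MSP.wp (z j) (MSP.sE (z j)) (1 / 2 + x j) + MSP.sE (z j)) * δ j / om := by
      have hX : vv z x u s (Va.X j) = MSP.wp (z j) (MSP.sE (z j)) (1 / 2 + x j) / om ^ 2 := rfl
      have hk : vv z x u s (Va.k j) = MSP.sE (z j) / om ^ 2 := rfl
      rw [map_neg, map_mul, map_add, aeval_X, aeval_X, hX, hk, mul_neg, ← mul_assoc, ← ha j]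
      field_simp
    show HasDerivAt (fun t : ℂ => MSP.ph (z j) (1 / 2 + (x + t • δ) j) / om)
      (κ * aeval (vv z x u s) (-(a j * (MvPolynomial.X (Va.X j) + MvPolynomial.X (Va.k j))))) 0
    rw [e]
    exact h2
  | U l =>
    show HasDerivAt (fun t : ℂ => om * (u + t • e) l) (κ * aeval (vv z x u s) (b l)) 0
    rw [← hb l]
    exact E4_lin u e l
  | S l =>
    show HasDerivAt (fun t : ℂ => om * (s + t • e') l) (κ * aeval (vv z x u s) (b' l)) 0
    rw [← hb' l]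
    exact E4_lin s e' l

/-- PROOF: `MvPolynomial.induction_on` (C, add, mul_X) and the Leibniz rule, from `vals_X`. -/
theorem vals_R {N : ℕ} (z x δ u e s e' : Fin N → ℂ) (hz : ∀ j, 0 < (z j).im) (hr : Reg z x)
    (a b b' : Fin N → MvPolynomial (Va N) ℤ) (κ : ℂ) (ha : ∀ j, om * δ j = κ * aeval (vv z x u s) (a j))
    (hb : ∀ l, om * e l = κ * aeval (vv z x u s) (b l)) (hb' : ∀ l, om * e' l = κ * aeval (vv z x u s) (b' l))
    (R : MvPolynomial (Va N) ℤ) :
    HasDerivAt (fun t : ℂ => aeval (vv z (x + t • δ) (u + t • e) (s + t • e')) R) (κ * aeval (vv z x u s) (dV a b b' R)) 0 := by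
  induction R using MvPolynomial.induction_on with
  | C n =>
    have e1 : (fun t : ℂ => aeval (vv z (x + t • δ) (u + t • e) (s + t • e')) (C n : MvPolynomial (Va N) ℤ)) =
        fun _ => algebraMap ℤ ℂ n := by
      funext t
      exact aeval_C _ _
    have e2 : dV a b b' (C n) = 0 := derivation_C _ _
    rw [e1, e2, map_zero, mul_zero]
    exact hasDerivAt_const _ _
  | add p q hp hq =>
    have h := hp.add hq
    have e1 : (fun t : ℂ => aeval (vv z (x + t • δ) (u + t • e) (s + t • e')) (p + q)) =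
        (fun t : ℂ => aeval (vv z (x + t • δ) (u + t • e) (s + t • e')) p) +
        fun t : ℂ => aeval (vv z (x + t • δ) (u + t • e) (s + t • e')) q := by
      funext t
      exact map_add _ _ _
    rw [e1, map_add, map_add, mul_add]
    exact h
  | mul_X p v hp =>
    have hv := vals_X z x δ u e s e' hz hr a b b' κ ha hb hb' v
    have h := hp.mul hv
    have e1 : (fun t : ℂ => aeval (vv z (x + t • δ) (u + t • e) (s + t • e')) (p * MvPolynomial.X v)) =
        (fun t : ℂ => aeval (vv z (x + t • δ) (u + t • e) (s + t • e')) p) *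
        fun t : ℂ => vv z (x + t • δ) (u + t • e) (s + t • e') v := by
      funext t
      show aeval (vv z (x + t • δ) (u + t • e) (s + t • e')) (p * MvPolynomial.X v) =
        aeval (vv z (x + t • δ) (u + t • e) (s + t • e')) p * vv z (x + t • δ) (u + t • e) (s + t • e') v
      rw [map_mul, aeval_X]
    have e2 : κ * aeval (vv z x u s) (dV a b b' (p * MvPolynomial.X v)) =
        κ * aeval (vv z x u s) (dV a b b' p) * vv z (x + (0 : ℂ) • δ) (u + (0 : ℂ) • e) (s + (0 : ℂ) • e') v +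
        aeval (vv z (x + (0 : ℂ) • δ) (u + (0 : ℂ) • e) (s + (0 : ℂ) • e')) p *
          (κ * aeval (vv z x u s) (dV a b b' (MvPolynomial.X v))) := by
      rw [zero_smul, zero_smul, zero_smul, add_zero, add_zero, add_zero, Derivation.leibniz, map_add,
        smul_eq_mul, smul_eq_mul, map_mul, map_mul, aeval_X]
      ring
    rw [e1, e2]
    exact h

/-- PROOF: logarithmic derivative: `HasDerivAt (th1 z) (ph z (1/2 + x) * th1 z x) x` for `th z (1/2 + x) ≠ 0` (`ph = th'/th`), and the product rule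
(`HasDerivAt.finset_prod` or induction over the finset). -/
theorem prod_th1 {N : ℕ} (z x δ : Fin N → ℂ) (hz : ∀ j, 0 < (z j).im) (hr : Reg z x) :
    HasDerivAt (fun t : ℂ => ∏ j, th1 (z j) ((x + t • δ) j)) ((∑ j, δ j * MSP.ph (z j) (1 / 2 + x j)) * ∏ j, th1 (z j) (x j)) 0 := by
  classical
  have hj : ∀ j, HasDerivAt (fun t : ℂ => th1 (z j) ((x + t • δ) j))
      (δ j * MSP.ph (z j) (1 / 2 + x j) * th1 (z j) (x j)) 0 := by
    intro j
    have h1 := E4_comp x δ j (MSP.th_differentiable (z j) (hz j) (1 / 2 + x j)).hasDerivAt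
    have h2 := h1.div_const (MSP.th (z j) (1 / 2))
    have e : δ j * MSP.ph (z j) (1 / 2 + x j) * th1 (z j) (x j) =
        deriv (MSP.th (z j)) (1 / 2 + x j) * δ j / MSP.th (z j) (1 / 2) := by
      have hne := hr j
      have hph : MSP.ph (z j) (1 / 2 + x j) = deriv (MSP.th (z j)) (1 / 2 + x j) / MSP.th (z j) (1 / 2 + x j) := rfl
      have hth : th1 (z j) (x j) = MSP.th (z j) (1 / 2 + x j) / MSP.th (z j) (1 / 2) := rfl
      rw [hph, hth]
      generalize MSP.th (z j) (1 / 2 + x j) = T at hne ⊢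
      generalize deriv (MSP.th (z j)) (1 / 2 + x j) = T'
      field_simp
    rw [e]
    exact h2
  have key : ∀ S : Finset (Fin N), HasDerivAt (fun t : ℂ => ∏ j ∈ S, th1 (z j) ((x + t • δ) j))
      ((∑ j ∈ S, δ j * MSP.ph (z j) (1 / 2 + x j)) * ∏ j ∈ S, th1 (z j) (x j)) 0 := by
    intro S
    induction S using Finset.induction_on with
    | empty =>
      simp only [Finset.prod_empty, Finset.sum_empty, zero_mul]
      exact hasDerivAt_const _ _
    | insert i S hi ih =>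
      have h := (hj i).mul ih
      have e1 : (fun t : ℂ => ∏ j ∈ insert i S, th1 (z j) ((x + t • δ) j)) =
          (fun t : ℂ => th1 (z i) ((x + t • δ) i)) * fun t : ℂ => ∏ j ∈ S, th1 (z j) ((x + t • δ) j) := by
        funext t
        exact Finset.prod_insert hi
      rw [e1, Finset.sum_insert hi, Finset.prod_insert hi]
      have e2 : (δ i * MSP.ph (z i) (1 / 2 + x i) + ∑ j ∈ S, δ j * MSP.ph (z j) (1 / 2 + x j)) *
          (th1 (z i) (x i) * ∏ j ∈ S, th1 (z j) (x j)) =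
          δ i * MSP.ph (z i) (1 / 2 + x i) * th1 (z i) (x i) * ∏ j ∈ S, th1 (z j) ((x + (0 : ℂ) • δ) j) +
          th1 (z i) ((x + (0 : ℂ) • δ) i) *
            ((∑ j ∈ S, δ j * MSP.ph (z j) (1 / 2 + x j)) * ∏ j ∈ S, th1 (z j) (x j)) := by
        rw [zero_smul, add_zero]
        ring
      rw [e2]
      exact h
  exact key Finset.univ

end Pool.Agent.LT.KE
end

end

section

/-!
# E4b: the partial derivatives of `R(values) * Ph`
-/

open Complex Matrix MvPolynomial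

noncomputable section

namespace Pool.Agent.LT.KE

/-- PROOF: `HasFDerivAt.comp_hasDerivAt` (line `t ↦ u + t • Pi.single l 1`) and uniqueness of derivatives. -/
theorem pd_eq {n : ℕ} (l : Fin n) (F : (Fin n → ℂ) → ℂ) (u : Fin n → ℂ) (v : ℂ) (hF : DifferentiableAt ℂ F u)
    (h : HasDerivAt (fun t : ℂ => F (u + t • Pi.single l 1)) v 0) : pd l F u = v := by
  have h1 : HasDerivAt (fun t : ℂ => u + t • (Pi.single l 1 : Fin n → ℂ)) (Pi.single l 1) 0 := by
    simpa using ((hasDerivAt_id (0 : ℂ)).smul_const (Pi.single l 1 : Fin n → ℂ)).const_add u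
  have h2 : HasFDerivAt F (fderiv ℂ F u) (u + (0 : ℂ) • (Pi.single l 1 : Fin n → ℂ)) := by
    simpa using hF.hasFDerivAt
  exact (h2.comp_hasDerivAt 0 h1).unique h

private theorem e4b_diff {E : Type} [NormedAddCommGroup E] [NormedSpace ℂ E] {N : ℕ} (f : E → Va N → ℂ) (x : E)
    (h : ∀ v, DifferentiableAt ℂ (fun x => f x v) x) (R : MvPolynomial (Va N) ℤ) :
    DifferentiableAt ℂ (fun x => aeval (f x) R) x := by
  induction R using MvPolynomial.induction_on with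
  | C a => simp only [aeval_C]; exact differentiableAt_const _
  | add p q hp hq => simp only [map_add]; exact hp.add hq
  | mul_X p v hp => simp only [map_mul, aeval_X]; exact hp.mul (h v)

private theorem e4b_mv {n : ℕ} (A : Matrix (Fin n) (Fin n) ℂ) (j : Fin n) :
    Differentiable ℂ (fun u : Fin n → ℂ => (A *ᵥ u) j) := by
  have h1 : (fun u : Fin n → ℂ => (A *ᵥ u) j) = fun u => ∑ k, A j k * u k := rfl
  rw [h1]
  fun_prop

private theorem e4b_vals {E : Type} [NormedAddCommGroup E] [NormedSpace ℂ E] {N : ℕ} (z : Fin N → ℂ) (hz : ∀ j, 0 < (z j).im)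
    (X' U' S' : E → Fin N → ℂ) (x : E) (hX : ∀ j, DifferentiableAt ℂ (fun x => X' x j) x)
    (hU : ∀ j, DifferentiableAt ℂ (fun x => U' x j) x) (hS : ∀ j, DifferentiableAt ℂ (fun x => S' x j) x)
    (hr : Reg z (X' x)) (v : Va N) : DifferentiableAt ℂ (fun x => vv z (X' x) (U' x) (S' x) v) x := by
  cases v with
  | z j => exact differentiableAt_const _
  | i => exact differentiableAt_const _
  | X j =>
    have h1 : DifferentiableAt ℂ (MSP.wp (z j) (MSP.sE (z j))) (1 / 2 + X' x j) :=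
      (MSP.wp_analyticAt (z j) (MSP.sE (z j)) (hz j) _ (hr j)).differentiableAt
    have h2 := h1.comp x ((hX j).const_add (1 / 2))
    have h3 := h2.mul_const (om ^ 2)⁻¹
    exact h3
  | Y j =>
    have h1 : DifferentiableAt ℂ (deriv (MSP.wp (z j) (MSP.sE (z j)))) (1 / 2 + X' x j) :=
      (MSP.wp_analyticAt (z j) (MSP.sE (z j)) (hz j) _ (hr j)).deriv.differentiableAt
    have h2 := h1.comp x ((hX j).const_add (1 / 2))
    have h3 := h2.mul_const (om ^ 3)⁻¹
    exact h3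
  | g j => exact differentiableAt_const _
  | k j => exact differentiableAt_const _
  | p j =>
    have h1 : DifferentiableAt ℂ (MSP.ph (z j)) (1 / 2 + X' x j) :=
      (MSP.ph_analyticAt (z j) (hz j) _ (hr j)).differentiableAt
    have h2 := h1.comp x ((hX j).const_add (1 / 2))
    have h3 := h2.mul_const (om)⁻¹
    exact h3
  | U l => exact (hU l).const_mul _
  | S l => exact (hS l).const_mul _

private theorem e4b_ph {N : ℕ} (z x δ : Fin N → ℂ) (hz : ∀ j, 0 < (z j).im) (hr : Reg z x) (β γ : ℂ) :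
    HasDerivAt (fun t : ℂ => ee (β + t * γ) * ∏ j, th1 (z j) ((x + t • δ) j))
      ((2 * Real.pi * I * γ + ∑ j, δ j * MSP.ph (z j) (1 / 2 + x j)) * (ee β * ∏ j, th1 (z j) (x j))) 0 := by
  have h1 : HasDerivAt (fun t : ℂ => ee (β + t * γ)) (ee β * (2 * Real.pi * I * γ)) 0 := by
    have h2 : HasDerivAt (fun t : ℂ => 2 * Real.pi * I * (β + t * γ)) (2 * Real.pi * I * γ) 0 := by
      simpa using (((hasDerivAt_id (0 : ℂ)).mul_const γ).const_add β).const_mul (2 * (Real.pi : ℂ) * I)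
    have h3 := h2.cexp
    simpa [ee] using h3
  have h4 := h1.mul (prod_th1 z x δ hz hr)
  have h5 : (2 * (Real.pi : ℂ) * I * γ + ∑ j, δ j * MSP.ph (z j) (1 / 2 + x j)) * (ee β * ∏ j, th1 (z j) (x j))
      = ee β * (2 * Real.pi * I * γ) * (∏ j, th1 (z j) ((x + (0 : ℂ) • δ) j)) +
        ee (β + 0 * γ) * ((∑ j, δ j * MSP.ph (z j) (1 / 2 + x j)) * ∏ j, th1 (z j) (x j)) := by
    simp only [zero_smul, add_zero, zero_mul]; ring
  rw [h5]
  exact h4

variable {c : ℕ} (D : Dat c)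

private theorem e4b_dM (j l : Fin (2 * c + 1)) : ((D.dM j l : ℤ) : ℂ) = D.d * ((D.M j l : ℚ) : ℂ) := by
  have h := congrArg (fun q : ℚ => (q : ℂ)) (D.hdM j l)
  push_cast at h
  exact h

theorem cLt_val (u s : Fin (2 * c + 1) → ℂ) (j l : Fin (2 * c + 1)) : aeval (ev D u s) (cLt D j l) = D.d * D.Lt j l := by
  rw [cLt, map_sub, Dat.Lt, Matrix.sub_apply, Matrix.map_apply, aeval_C, mul_sub, ← e4b_dM]
  by_cases h : j = l
  · subst h
    simp [ev, vv]
  · simp [h]

theorem cL_val (u s : Fin (2 * c + 1) → ℂ) (j l : Fin (2 * c + 1)) : aeval (ev D u s) (cL D j l) = D.d * D.L j l := by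
  rw [cL, map_sub, Dat.L, Matrix.sub_apply, Matrix.map_apply, Matrix.transpose_apply, aeval_C, mul_sub, ← e4b_dM]
  by_cases h : j = l
  · subst h
    simp [ev, vv]
  · simp [h]

/-- PROOF: `(u, s) ↦ ev` : all values are differentiable in `u` (`s`) near a regular point (`MSP.wp_analyticAt`, `MSP.ph_analyticAt`), `Ph_diff`. -/
theorem diffAt_u (u s : Fin (2 * c + 1) → ℂ) (hr : Reg D.z (xa D u s)) (R : MvPolynomial (Va (2 * c + 1)) ℤ) :
    DifferentiableAt ℂ (fun u => aeval (ev D u s) R * Ph D u s) u := by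
  refine (e4b_diff (fun u => ev D u s) u (fun v => ?_) R).mul ?_
  · refine e4b_vals D.z D.im (fun u => xa D u s) (fun u => u) (fun _ => s) u (fun j => ?_) (fun j => ?_)
      (fun j => differentiableAt_const _) hr v
    · exact ((e4b_mv D.Lt j) u).const_add ((D.L *ᵥ s) j)
    · exact (differentiable_apply j) u
  · have h1 : Differentiable ℂ (fun u : Fin (2 * c + 1) → ℂ => (u, s)) := by fun_prop
    exact ((Ph_diff D).comp h1) u

theorem diffAt_s (u s : Fin (2 * c + 1) → ℂ) (hr : Reg D.z (xa D u s)) (R : MvPolynomial (Va (2 * c + 1)) ℤ) :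
    DifferentiableAt ℂ (fun s => aeval (ev D u s) R * Ph D u s) s := by
  refine (e4b_diff (fun s => ev D u s) s (fun v => ?_) R).mul ?_
  · refine e4b_vals D.z D.im (fun s => xa D u s) (fun _ => u) (fun s => s) s (fun j => ?_) (fun j => differentiableAt_const _)
      (fun j => ?_) hr v
    · exact ((e4b_mv D.L j) s).add_const ((D.Lt *ᵥ u) j)
    · exact (differentiable_apply j) s
  · have h1 : Differentiable ℂ (fun s : Fin (2 * c + 1) → ℂ => (u, s)) := by fun_prop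
    exact ((Ph_diff D).comp h1) s

private theorem e4b_d : (D.d : ℂ) ≠ 0 := Nat.cast_ne_zero.2 D.hd.ne'

/-- PROOF: `pd_eq`; `xa D (u + t e_l) s = xa D u s + t • (Lt e_l)`, `(Lt e_l) j = Lt j l`; `vals_R` with `κ = om / d`, `a j = cLt j l`, `b = dl D l`, `b' = 0`, `e' = 0`;
`Ph D (u + t e_l) s = ee (u ⬝ᵥ L s) * ee (t (L s) l) * ∏ th1`: derivative `(2πi (L s) l + ∑ j, Lt j l * ph j) * Ph = (om/d) * aeval (AU l) * Ph` (`om² = π`). -/
theorem rule_u (u s : Fin (2 * c + 1) → ℂ) (hr : Reg D.z (xa D u s)) (l : Fin (2 * c + 1)) (R : MvPolynomial (Va (2 * c + 1)) ℤ) :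
    pd l (fun u => aeval (ev D u s) R * Ph D u s) u = om / D.d * (aeval (ev D u s) (nabU D l R) * Ph D u s) := by
  refine pd_eq l _ u _ (diffAt_u D u s hr R) ?_
  have hx : ∀ t : ℂ, xa D (u + t • Pi.single l 1) s = xa D u s + t • (fun j => D.Lt j l) := by
    intro t
    rw [xa, xa, Matrix.mulVec_add, Matrix.mulVec_smul, Matrix.mulVec_single_one, ← add_assoc]
    rfl
  have h1 : HasDerivAt (fun t : ℂ => aeval (ev D (u + t • Pi.single l 1) s) R) (om / D.d * aeval (ev D u s) (Du D l R)) 0 := by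
    have h2 := vals_R D.z (xa D u s) (fun j => D.Lt j l) u (Pi.single l 1) s 0 D.im hr (fun j => cLt D j l) (dl D l) 0 (om / D.d)
      (fun j => by
        change _ = om / D.d * aeval (ev D u s) (cLt D j l)
        rw [cLt_val, div_mul_eq_mul_div, mul_left_comm, mul_div_assoc, mul_div_cancel₀ _ (e4b_d D)] )
      (fun l' => by
        rw [dl]
        by_cases h : l' = l
        · subst h
          rw [if_pos rfl, Pi.single_eq_same, aeval_C, div_mul_eq_mul_div]
          simp [mul_div_assoc, div_self (e4b_d D)]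
        · rw [if_neg h, Pi.single_eq_of_ne h]; simp)
      (fun l' => by simp) R
    have h3 : (fun t : ℂ => aeval (ev D (u + t • Pi.single l 1) s) R) =
        (fun t : ℂ => aeval (vv D.z (xa D u s + t • (fun j => D.Lt j l)) (u + t • Pi.single l 1) (s + t • 0)) R) := by
      funext t
      rw [ev, hx, smul_zero, add_zero]
    rw [h3]
    exact h2
  have h4 : HasDerivAt (fun t : ℂ => Ph D (u + t • Pi.single l 1) s) (om / D.d * aeval (ev D u s) (AU D l) * Ph D u s) 0 := by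
    have h5 := e4b_ph D.z (xa D u s) (fun j => D.Lt j l) D.im hr (u ⬝ᵥ (D.L *ᵥ s)) ((D.L *ᵥ s) l)
    have h6 : (fun t : ℂ => Ph D (u + t • Pi.single l 1) s) =
        (fun t : ℂ => ee (u ⬝ᵥ (D.L *ᵥ s) + t * (D.L *ᵥ s) l) * ∏ j, th1 (D.z j) ((xa D u s + t • (fun j => D.Lt j l)) j)) := by
      funext t
      rw [Ph, hx, add_dotProduct, smul_dotProduct, single_one_dotProduct, smul_eq_mul]
    have h7 : om / D.d * aeval (ev D u s) (AU D l) = 2 * Real.pi * I * (D.L *ᵥ s) l + ∑ j, D.Lt j l * MSP.ph (D.z j) (1 / 2 + xa D u s j) := by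
      rw [AU, map_add, map_mul, map_mul, map_sum, map_sum]
      simp only [map_mul, cL_val, cLt_val, aeval_X]
      have h8 : ∀ k, ev D u s (Va.S k) = om * s k := fun k => rfl
      have h9 : ∀ k, ev D u s (Va.p k) = MSP.ph (D.z k) (1 / 2 + xa D u s k) / om := fun k => rfl
      have h10 : ev D u s Va.i = I := rfl
      have h11 : (aeval (ev D u s)) (2 : MvPolynomial (Va (2 * c + 1)) ℤ) = 2 := map_ofNat _ 2
      simp only [h8, h9, h10, h11]
      rw [mul_add]
      congr 1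
      · have h12 : (D.L *ᵥ s) l = ∑ k, D.L l k * s k := rfl
        rw [h12, ← om_sq, Finset.mul_sum, Finset.mul_sum, Finset.mul_sum]
        refine Finset.sum_congr rfl fun k _ => ?_
        field_simp [e4b_d D]
      · rw [Finset.mul_sum]
        refine Finset.sum_congr rfl fun k _ => ?_
        field_simp [e4b_d D, om_ne]
    rw [h6, h7]
    exact h5
  have h13 := h1.mul h4
  have h14 : om / D.d * (aeval (ev D u s) (nabU D l R) * Ph D u s) =
      om / D.d * aeval (ev D u s) (Du D l R) * Ph D (u + (0 : ℂ) • Pi.single l 1) s +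
        aeval (ev D (u + (0 : ℂ) • Pi.single l 1) s) R * (om / D.d * aeval (ev D u s) (AU D l) * Ph D u s) := by
    rw [nabU, map_add, map_mul]
    simp only [zero_smul, add_zero]
    ring
  rw [h14]
  exact h13

/-- PROOF: same; `u ⬝ᵥ L (s + t e_l) = u ⬝ᵥ L s + t (Lt u) l` (`dot_L`). -/
theorem rule_s (u s : Fin (2 * c + 1) → ℂ) (hr : Reg D.z (xa D u s)) (l : Fin (2 * c + 1)) (R : MvPolynomial (Va (2 * c + 1)) ℤ) :
    pd l (fun s => aeval (ev D u s) R * Ph D u s) s = om / D.d * (aeval (ev D u s) (nabS D l R) * Ph D u s) := by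
  refine pd_eq l _ s _ (diffAt_s D u s hr R) ?_
  have hx : ∀ t : ℂ, xa D u (s + t • Pi.single l 1) = xa D u s + t • (fun j => D.L j l) := by
    intro t
    rw [xa, xa, Matrix.mulVec_add, Matrix.mulVec_smul, Matrix.mulVec_single_one, add_right_comm]
    rfl
  have h1 : HasDerivAt (fun t : ℂ => aeval (ev D u (s + t • Pi.single l 1)) R) (om / D.d * aeval (ev D u s) (Ds D l R)) 0 := by
    have h2 := vals_R D.z (xa D u s) (fun j => D.L j l) u 0 s (Pi.single l 1) D.im hr (fun j => cL D j l) 0 (dl D l) (om / D.d)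
      (fun j => by
        change _ = om / D.d * aeval (ev D u s) (cL D j l)
        rw [cL_val, div_mul_eq_mul_div, mul_left_comm, mul_div_assoc, mul_div_cancel₀ _ (e4b_d D)] )
      (fun l' => by simp)
      (fun l' => by
        rw [dl]
        by_cases h : l' = l
        · subst h
          rw [if_pos rfl, Pi.single_eq_same, aeval_C, div_mul_eq_mul_div]
          simp [mul_div_assoc, div_self (e4b_d D)]
        · rw [if_neg h, Pi.single_eq_of_ne h]; simp) R
    have h3 : (fun t : ℂ => aeval (ev D u (s + t • Pi.single l 1)) R) =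
        (fun t : ℂ => aeval (vv D.z (xa D u s + t • (fun j => D.L j l)) (u + t • 0) (s + t • Pi.single l 1)) R) := by
      funext t
      rw [ev, hx, smul_zero, add_zero]
    rw [h3]
    exact h2
  have h4 : HasDerivAt (fun t : ℂ => Ph D u (s + t • Pi.single l 1)) (om / D.d * aeval (ev D u s) (AS D l) * Ph D u s) 0 := by
    have h5 := e4b_ph D.z (xa D u s) (fun j => D.L j l) D.im hr (u ⬝ᵥ (D.L *ᵥ s)) ((D.Lt *ᵥ u) l)
    have h6 : (fun t : ℂ => Ph D u (s + t • Pi.single l 1)) =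
        (fun t : ℂ => ee (u ⬝ᵥ (D.L *ᵥ s) + t * (D.Lt *ᵥ u) l) * ∏ j, th1 (D.z j) ((xa D u s + t • (fun j => D.L j l)) j)) := by
      funext t
      rw [Ph, hx, dot_L, dotProduct_add, dotProduct_smul, dotProduct_single_one, smul_eq_mul, ← dot_L]
    have h7 : om / D.d * aeval (ev D u s) (AS D l) = 2 * Real.pi * I * (D.Lt *ᵥ u) l + ∑ j, D.L j l * MSP.ph (D.z j) (1 / 2 + xa D u s j) := by
      rw [AS, map_add, map_mul, map_mul, map_sum, map_sum]
      simp only [map_mul, cL_val, cLt_val, aeval_X]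
      have h8 : ∀ k, ev D u s (Va.U k) = om * u k := fun k => rfl
      have h9 : ∀ k, ev D u s (Va.p k) = MSP.ph (D.z k) (1 / 2 + xa D u s k) / om := fun k => rfl
      have h10 : ev D u s Va.i = I := rfl
      have h11 : (aeval (ev D u s)) (2 : MvPolynomial (Va (2 * c + 1)) ℤ) = 2 := map_ofNat _ 2
      simp only [h8, h9, h10, h11]
      rw [mul_add]
      congr 1
      · have h12 : (D.Lt *ᵥ u) l = ∑ k, D.Lt l k * u k := rfl
        rw [h12, ← om_sq, Finset.mul_sum, Finset.mul_sum, Finset.mul_sum]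
        refine Finset.sum_congr rfl fun k _ => ?_
        field_simp [e4b_d D]
      · rw [Finset.mul_sum]
        refine Finset.sum_congr rfl fun k _ => ?_
        field_simp [e4b_d D, om_ne]
    rw [h6, h7]
    exact h5
  have h13 := h1.mul h4
  have h14 : om / D.d * (aeval (ev D u s) (nabS D l R) * Ph D u s) =
      om / D.d * aeval (ev D u s) (Ds D l R) * Ph D u (s + (0 : ℂ) • Pi.single l 1) +
        aeval (ev D u (s + (0 : ℂ) • Pi.single l 1)) R * (om / D.d * aeval (ev D u s) (AS D l) * Ph D u s) := by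
    rw [nabS, map_add, map_mul]
    simp only [zero_smul, add_zero]
    ring
  rw [h14]
  exact h13

end Pool.Agent.LT.KE
end

end

section

/-!
# E5: the mixed derivatives
-/

open Complex Matrix MvPolynomial Filter Topology

noncomputable section

namespace Pool.Agent.LT.KE

theorem pdl_congr_ev {n : ℕ} (w : List (Fin n)) (F G : (Fin n → ℂ) → ℂ) (u : Fin n → ℂ) (h : F =ᶠ[𝓝 u] G) :
    pdl w F =ᶠ[𝓝 u] pdl w G := by
  induction w with
  | nil => exact h
  | cons i w ih =>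
    have h1 := ih.eventuallyEq_nhds
    filter_upwards [h1] with x hx
    show fderiv ℂ (pdl w F) x (Pi.single i 1) = fderiv ℂ (pdl w G) x (Pi.single i 1)
    rw [hx.fderiv_eq]

theorem pdl_congr {n : ℕ} (w : List (Fin n)) (F G : (Fin n → ℂ) → ℂ) (u : Fin n → ℂ) (h : F =ᶠ[𝓝 u] G) : pdl w F u = pdl w G u :=
  (pdl_congr_ev w F G u h).eq_of_nhds

theorem pd_const {n : ℕ} (l : Fin n) (κ : ℂ) (F : (Fin n → ℂ) → ℂ) (u : Fin n → ℂ) (hF : DifferentiableAt ℂ F u) :
    pd l (fun u => κ * F u) u = κ * pd l F u := by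
  unfold pd
  rw [fderiv_const_mul hF]
  rfl

variable {c : ℕ} (D : Dat c)

theorem xa_cont_u (s : Fin (2 * c + 1) → ℂ) : Continuous (fun u => xa D u s) := by
  unfold xa
  fun_prop

theorem reg_open_u (s : Fin (2 * c + 1) → ℂ) : IsOpen {u : Fin (2 * c + 1) → ℂ | Reg D.z (xa D u s)} := by
  have : {u : Fin (2 * c + 1) → ℂ | Reg D.z (xa D u s)} = ⋂ j, {u | MSP.th (D.z j) (1 / 2 + xa D u s j) ≠ 0} := by
    ext u; simp [Reg]
  rw [this]
  refine isOpen_iInter_of_finite fun j => ?_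
  refine isOpen_ne_fun ?_ continuous_const
  exact (MSP.th_differentiable _ (D.im j)).continuous.comp (continuous_const.add ((continuous_apply j).comp (xa_cont_u D s)))

theorem reg_open_s (u : Fin (2 * c + 1) → ℂ) : IsOpen {s : Fin (2 * c + 1) → ℂ | Reg D.z (xa D u s)} := by
  have : {s : Fin (2 * c + 1) → ℂ | Reg D.z (xa D u s)} = ⋂ j, {s | MSP.th (D.z j) (1 / 2 + xa D u s j) ≠ 0} := by
    ext u; simp [Reg]
  rw [this]
  refine isOpen_iInter_of_finite fun j => ?_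
  refine isOpen_ne_fun ?_ continuous_const
  have h : Continuous (fun s => xa D u s) := by unfold xa; fun_prop
  exact (MSP.th_differentiable _ (D.im j)).continuous.comp (continuous_const.add ((continuous_apply j).comp h))

theorem reg_zero : Reg D.z (xa D 0 0) := by
  intro j
  have : (1 : ℂ) / 2 + xa D 0 0 j = 1 / 2 := by simp [xa]
  rw [this]
  exact th_half_ne _ (D.im j)

theorem iter_u (s : Fin (2 * c + 1) → ℂ) (κ : ℂ) (R : MvPolynomial (Va (2 * c + 1)) ℤ) (w : List (Fin (2 * c + 1))) :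
    ∀ u, Reg D.z (xa D u s) → pdl w (fun u => κ * (aeval (ev D u s) R * Ph D u s)) u =
      κ * ((om / D.d) ^ w.length * (aeval (ev D u s) (nabW (nabU D) w R) * Ph D u s)) := by
  induction w with
  | nil => intro u _; simp [pdl, nabW]
  | cons i w ih =>
    intro u hu
    have h1 : pdl w (fun u => κ * (aeval (ev D u s) R * Ph D u s)) =ᶠ[𝓝 u]
        fun u => (κ * (om / D.d) ^ w.length) * (aeval (ev D u s) (nabW (nabU D) w R) * Ph D u s) := by
      filter_upwards [(reg_open_u D s).mem_nhds hu] with x hx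
      rw [ih x hx]; ring
    show pd i (pdl w (fun u => κ * (aeval (ev D u s) R * Ph D u s))) u = _
    have h2 : pd i (pdl w (fun u => κ * (aeval (ev D u s) R * Ph D u s))) u =
        pd i (fun u => (κ * (om / D.d) ^ w.length) * (aeval (ev D u s) (nabW (nabU D) w R) * Ph D u s)) u := by
      unfold pd; rw [h1.fderiv_eq]
    rw [h2, pd_const _ _ _ _ (diffAt_u D u s hu _), rule_u D u s hu]
    simp only [nabW, List.length_cons, pow_succ]
    ring

theorem iter_s (u : Fin (2 * c + 1) → ℂ) (κ : ℂ) (R : MvPolynomial (Va (2 * c + 1)) ℤ) (w : List (Fin (2 * c + 1))) :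
    ∀ s, Reg D.z (xa D u s) → pdl w (fun s => κ * (aeval (ev D u s) R * Ph D u s)) s =
      κ * ((om / D.d) ^ w.length * (aeval (ev D u s) (nabW (nabS D) w R) * Ph D u s)) := by
  induction w with
  | nil => intro s _; simp [pdl, nabW]
  | cons i w ih =>
    intro s hs
    have h1 : pdl w (fun s => κ * (aeval (ev D u s) R * Ph D u s)) =ᶠ[𝓝 s]
        fun s => (κ * (om / D.d) ^ w.length) * (aeval (ev D u s) (nabW (nabS D) w R) * Ph D u s) := by
      filter_upwards [(reg_open_s D u).mem_nhds hs] with x hx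
      rw [ih x hx]; ring
    show pd i (pdl w (fun s => κ * (aeval (ev D u s) R * Ph D u s))) s = _
    have h2 : pd i (pdl w (fun s => κ * (aeval (ev D u s) R * Ph D u s))) s =
        pd i (fun s => (κ * (om / D.d) ^ w.length) * (aeval (ev D u s) (nabW (nabS D) w R) * Ph D u s)) s := by
      unfold pd; rw [h1.fderiv_eq]
    rw [h2, pd_const _ _ _ _ (diffAt_s D u s hs _), rule_s D u s hs]
    simp only [nabW, List.length_cons, pow_succ]
    ring

theorem mix_eq (w w' : List (Fin (2 * c + 1))) :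
    mix (Ph D) w w' = (om / D.d) ^ (w.length + w'.length) * aeval (ev D 0 0) (PP D w w') := by
  have h0 := reg_zero D
  have h1 : (fun u => pdl w' (Ph D u) 0) =ᶠ[𝓝 (0 : Fin (2 * c + 1) → ℂ)]
      fun u => (om / D.d) ^ w'.length * (aeval (ev D u 0) (nabW (nabS D) w' 1) * Ph D u 0) := by
    filter_upwards [(reg_open_u D 0).mem_nhds h0] with u hu
    have h2 := iter_s D u 1 1 w' 0 hu
    simp only [map_one, one_mul] at h2
    exact h2
  unfold mix
  rw [pdl_congr w _ _ 0 h1, iter_u D 0 _ _ w 0 h0, Ph_one, PP, pow_add]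
  ring

end Pool.Agent.LT.KE
end

end
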