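import Mathlib
import Pool.Agent.Lib.MP_f58a57_nt.LK.K021
import Pool.Agent.Lib.MP_f58a57_nt.LK.K026
import Pool.Agent.Lib.MP_f58a57_nt.LK.K028

namespace Pool.Agent.LT.KE
end Pool.Agent.LT.KE
namespace Pool.Agent.MSD
end Pool.Agent.MSD

section

/-!
# E7: degrees and lengths
-/

open MvPolynomial Matrix

noncomputable section

namespace Pool.Agent.LT.KE

namespace E7_

theorem len_eq {σ : Type} (p : MvPolynomial σ ℤ) : len p = MSP.mlen p := rfl

theorem len_nonneg {σ : Type} (p : MvPolynomial σ ℤ) : 0 ≤ len p := MSP.mlen_nonneg p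

theorem len_add {σ : Type} (p q : MvPolynomial σ ℤ) : len (p + q) ≤ len p + len q := MSP.mlen_add p q

theorem len_mul {σ : Type} (p q : MvPolynomial σ ℤ) : len (p * q) ≤ len p * len q := MSP.mlen_mul p q

theorem len_sum {σ ι : Type} (s : Finset ι) (p : ι → MvPolynomial σ ℤ) : len (∑ i ∈ s, p i) ≤ ∑ i ∈ s, len (p i) :=
  MSP.mlen_sum s p

theorem der_mon {σ : Type} (E : Derivation ℤ (MvPolynomial σ ℤ) (MvPolynomial σ ℤ)) (m : σ →₀ ℕ) (a : ℤ) :
    E (MvPolynomial.monomial m a)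
      = a • ∑ v ∈ m.support, (MvPolynomial.monomial (m - Finsupp.single v 1) ((m v : ℕ) : ℤ)) * E (MvPolynomial.X v) := by
  have hE : E = MvPolynomial.mkDerivation ℤ (fun v => E (MvPolynomial.X v)) := by
    refine MvPolynomial.derivation_ext fun i => ?_
    rw [MvPolynomial.mkDerivation_X]
  conv_lhs => rw [hE]
  rw [MvPolynomial.mkDerivation_monomial, Finsupp.sum]
  rfl

theorem sub_deg {σ : Type} (m : σ →₀ ℕ) (v : σ) (hv : v ∈ m.support) :
    ((m - Finsupp.single v 1).sum fun _ e => e) + 1 = m.sum fun _ e => e := by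
  have h1 : Finsupp.single v 1 ≤ m := by
    rw [Finsupp.single_le_iff]
    exact Nat.one_le_iff_ne_zero.mpr (Finsupp.mem_support_iff.mp hv)
  have h2 : m - Finsupp.single v 1 + Finsupp.single v 1 = m := tsub_add_cancel_of_le h1
  conv_rhs => rw [← h2]
  rw [Finsupp.sum_add_index' (fun _ => rfl) (fun _ _ _ => rfl), Finsupp.sum_single_index rfl]

end E7_

/-- PROOF: `totalDegree` of a derivation: for `R` of total degree `n` a sum of monomials; `D (monomial) = Σ_v (∂_v monomial) * D(X v)` (`mkDerivation_monomial`,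
or `MvPolynomial.induction_on'`/`induction_on_monomial`), see `Pool/Agent/Lib/MP_f58a57_nt/K/A2_Bd.lean`, `R/A1_NabBd.lean` for the same proof. -/
theorem der_deg {σ : Type} [Fintype σ] [DecidableEq σ] (E : Derivation ℤ (MvPolynomial σ ℤ) (MvPolynomial σ ℤ)) (e : ℕ)
    (h : ∀ v, (E (X v)).totalDegree ≤ e + 1) (R : MvPolynomial σ ℤ) : (E R).totalDegree ≤ R.totalDegree + e := by
  have key : ∀ m ∈ R.support, (E (MvPolynomial.monomial m (R.coeff m))).totalDegree ≤ R.totalDegree + e := by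
    intro m hm
    rw [E7_.der_mon]
    refine (MvPolynomial.totalDegree_smul_le _ _).trans ?_
    refine MvPolynomial.totalDegree_finsetSum_le fun v hv => ?_
    refine (MvPolynomial.totalDegree_mul _ _).trans ?_
    have h1 := MvPolynomial.totalDegree_monomial_le (R := ℤ) (m - Finsupp.single v 1) ((m v : ℕ) : ℤ)
    have h1' : (MvPolynomial.monomial (m - Finsupp.single v 1) ((m v : ℕ) : ℤ)).totalDegree ≤ (m - Finsupp.single v 1).sum fun _ e => e := h1
    have h2 := E7_.sub_deg m v hv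
    have h3 := MvPolynomial.le_totalDegree hm
    have h4 := h v
    omega
  have e1 : E R = ∑ m ∈ R.support, E (MvPolynomial.monomial m (R.coeff m)) := by
    conv_lhs => rw [R.as_sum]
    rw [map_sum]
  rw [e1]
  exact MvPolynomial.totalDegree_finsetSum_le key

theorem der_len {σ : Type} [Fintype σ] [DecidableEq σ] (E : Derivation ℤ (MvPolynomial σ ℤ) (MvPolynomial σ ℤ)) (B : ℝ)
    (h : ∀ v, len (E (X v)) ≤ B) (R : MvPolynomial σ ℤ) : len (E R) ≤ B * R.totalDegree * len R := by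
  have hB : 0 ≤ B ∨ R.totalDegree = 0 := by
    by_cases hσ : Nonempty σ
    · obtain ⟨v⟩ := hσ
      exact Or.inl ((E7_.len_nonneg _).trans (h v))
    · right
      have : IsEmpty σ := not_nonempty_iff.mp hσ
      rw [MvPolynomial.eq_C_of_isEmpty R, MvPolynomial.totalDegree_C]
  have key : ∀ m ∈ R.support, len (E (MvPolynomial.monomial m (R.coeff m))) ≤ |((R.coeff m : ℤ) : ℝ)| * (B * R.totalDegree) := by
    intro m hm
    rw [E7_.der_mon, ← MvPolynomial.C_mul']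
    refine (E7_.len_mul _ _).trans ?_
    have e2 : len (MvPolynomial.C (R.coeff m) : MvPolynomial σ ℤ) = |((R.coeff m : ℤ) : ℝ)| := MSP.mlen_C _
    rw [e2]
    refine mul_le_mul_of_nonneg_left ?_ (abs_nonneg _)
    refine (E7_.len_sum _ _).trans ?_
    have h5 : ∀ v ∈ m.support, len ((MvPolynomial.monomial (m - Finsupp.single v 1) ((m v : ℕ) : ℤ)) * E (MvPolynomial.X v)) ≤ (m v : ℝ) * B := by
      intro v _
      refine (E7_.len_mul _ _).trans ?_
      have e3 : len (MvPolynomial.monomial (m - Finsupp.single v 1) ((m v : ℕ) : ℤ) : MvPolynomial σ ℤ) = (m v : ℝ) := by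
        have := MSP.mlen_monomial (m - Finsupp.single v 1) ((m v : ℕ) : ℤ)
        rw [E7_.len_eq, this]
        push_cast
        exact abs_of_nonneg (Nat.cast_nonneg _)
      rw [e3]
      exact mul_le_mul_of_nonneg_left (h v) (Nat.cast_nonneg _)
    refine (Finset.sum_le_sum h5).trans ?_
    rw [← Finset.sum_mul, mul_comm B]
    have hd : ∑ v ∈ m.support, m v ≤ R.totalDegree := MvPolynomial.le_totalDegree hm
    have hd' : (∑ v ∈ m.support, (m v : ℝ)) ≤ (R.totalDegree : ℝ) := by exact_mod_cast hd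
    rcases hB with hB | hB
    · exact mul_le_mul_of_nonneg_right hd' hB
    · have h6 : ∑ v ∈ m.support, m v = 0 := by omega
      have h7 : (∑ v ∈ m.support, (m v : ℝ)) = 0 := by exact_mod_cast h6
      rw [h7, hB]
      simp
  have e1 : E R = ∑ m ∈ R.support, E (MvPolynomial.monomial m (R.coeff m)) := by
    conv_lhs => rw [R.as_sum]
    rw [map_sum]
  rw [e1]
  refine (E7_.len_sum _ _).trans ((Finset.sum_le_sum key).trans ?_)
  rw [← Finset.sum_mul]
  have e4 : len R = ∑ m ∈ R.support, |((R.coeff m : ℤ) : ℝ)| := rfl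
  rw [← e4, mul_comm]

/-- PROOF: induction over the word, from `der_deg`, `der_len` (`len_mul`, `len_add` are `MSP.mlen_mul`, `MSP.mlen_add` of P/A1_Len; `len` and `MSP.mlen` have the same body). -/
theorem nabW_bd {σ κ : Type} [Fintype σ] [DecidableEq σ] (E : κ → Derivation ℤ (MvPolynomial σ ℤ) (MvPolynomial σ ℤ))
    (A : κ → MvPolynomial σ ℤ) (e : ℕ) (B : ℝ) (hB : 1 ≤ B) (hE : ∀ i v, (E i (X v)).totalDegree ≤ e + 1) (hA : ∀ i, (A i).totalDegree ≤ e)
    (hE' : ∀ i v, len (E i (X v)) ≤ B) (hA' : ∀ i, len (A i) ≤ B) (w : List κ) (R : MvPolynomial σ ℤ) (n : ℕ)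
    (hR : R.totalDegree ≤ e * n) (hR' : len R ≤ (B * (e * n + 1)) ^ n) :
    (nabW (fun i R => E i R + A i * R) w R).totalDegree ≤ e * (w.length + n) ∧
      len (nabW (fun i R => E i R + A i * R) w R) ≤ (B * (e * (w.length + n : ℕ) + 1)) ^ (w.length + n) := by
  have hB0 : 0 ≤ B := zero_le_one.trans hB
  induction w with
  | nil =>
    simp only [nabW, List.length_nil, Nat.zero_add]
    exact ⟨hR, hR'⟩
  | cons i w ih =>
    obtain ⟨h1, h2⟩ := ih
    set P := nabW (fun i R => E i R + A i * R) w R with hP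
    have hstep : nabW (fun i R => E i R + A i * R) (i :: w) R = E i P + A i * P := rfl
    rw [hstep, List.length_cons]
    set N := w.length + n with hN
    have hN' : w.length + 1 + n = N + 1 := by omega
    rw [hN']
    constructor
    · have h3 := der_deg (E i) e (hE i) P
      have h4 := MvPolynomial.totalDegree_mul (A i) P
      have h5 := hA i
      refine (MvPolynomial.totalDegree_add _ _).trans (max_le ?_ ?_)
      · rw [Nat.mul_succ]; omega
      · rw [Nat.mul_succ]; omega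
    · have h3 := der_len (E i) B (hE' i) P
      have h4 := E7_.len_mul (A i) P
      have h5 := hA' i
      have hP0 := E7_.len_nonneg P
      have h6 : len (A i * P) ≤ B * len P := h4.trans (mul_le_mul_of_nonneg_right h5 hP0)
      have h7 : (P.totalDegree : ℝ) ≤ e * (N : ℕ) := by exact_mod_cast h1
      have h8 : B * P.totalDegree * len P ≤ B * (e * (N : ℕ)) * len P :=
        mul_le_mul_of_nonneg_right (mul_le_mul_of_nonneg_left h7 hB0) hP0
      have h9 : len (E i P + A i * P) ≤ B * (e * (N : ℕ) + 1) * len P := by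
        refine (E7_.len_add _ _).trans ?_
        nlinarith
      have he : (0 : ℝ) ≤ e := Nat.cast_nonneg _
      have hNn : (0 : ℝ) ≤ (N : ℕ) := Nat.cast_nonneg _
      have h10 : 0 ≤ B * (e * (N : ℕ) + 1) := by positivity
      have h11 : B * (e * (N : ℕ) + 1) ≤ B * (e * ((N + 1 : ℕ) : ℝ) + 1) := by
        push_cast
        nlinarith
      calc len (E i P + A i * P) ≤ B * (e * (N : ℕ) + 1) * len P := h9
        _ ≤ B * (e * (N : ℕ) + 1) * (B * (e * (N : ℕ) + 1)) ^ N := mul_le_mul_of_nonneg_left h2 h10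
        _ = (B * (e * (N : ℕ) + 1)) ^ (N + 1) := by rw [pow_succ]; ring
        _ ≤ (B * (e * ((N + 1 : ℕ) : ℝ) + 1)) ^ (N + 1) := pow_le_pow_left₀ h10 h11 _

variable {c : ℕ} (D : Dat c)

namespace E7_

theorem td_ite {σ : Type} (p : Prop) [Decidable p] (f : MvPolynomial σ ℤ) (e : ℕ) (hf : f.totalDegree ≤ e) :
    (if p then f else 0).totalDegree ≤ e := by
  by_cases h : p
  · rw [if_pos h]; exact hf
  · rw [if_neg h, MvPolynomial.totalDegree_zero]; exact Nat.zero_le _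

theorem td_CX {σ : Type} (a : ℤ) (v : σ) : (MvPolynomial.C a * MvPolynomial.X v : MvPolynomial σ ℤ).totalDegree ≤ 1 := by
  refine (MvPolynomial.totalDegree_mul _ _).trans ?_
  rw [MvPolynomial.totalDegree_C, MvPolynomial.totalDegree_X]

theorem td_cLt (j l : Fin (2 * c + 1)) : (cLt D j l).totalDegree ≤ 1 := by
  unfold cLt
  refine (MvPolynomial.totalDegree_sub _ _).trans (max_le ?_ ?_)
  · exact td_ite _ _ _ (td_CX _ _)
  · rw [MvPolynomial.totalDegree_C]; exact Nat.zero_le _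

theorem td_cL (j l : Fin (2 * c + 1)) : (cL D j l).totalDegree ≤ 1 := by
  unfold cL
  refine (MvPolynomial.totalDegree_sub _ _).trans (max_le ?_ ?_)
  · exact td_ite _ _ _ (td_CX _ _)
  · rw [MvPolynomial.totalDegree_C]; exact Nat.zero_le _

theorem td_dl (l l' : Fin (2 * c + 1)) : (dl D l l').totalDegree ≤ 1 := by
  unfold dl
  refine td_ite _ _ _ ?_
  rw [MvPolynomial.totalDegree_C]; exact Nat.zero_le _

theorem td_mul {σ : Type} {p q : MvPolynomial σ ℤ} {a b : ℕ} (hp : p.totalDegree ≤ a) (hq : q.totalDegree ≤ b) :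
    (p * q).totalDegree ≤ a + b := (MvPolynomial.totalDegree_mul _ _).trans (add_le_add hp hq)

theorem td_X {σ : Type} (v : σ) : (MvPolynomial.X v : MvPolynomial σ ℤ).totalDegree ≤ 1 := by
  rw [MvPolynomial.totalDegree_X]

theorem td_num {σ : Type} (a : ℤ) : (MvPolynomial.C a : MvPolynomial σ ℤ).totalDegree ≤ 0 := by
  rw [MvPolynomial.totalDegree_C]

theorem td_dV {N : ℕ} (a b b' : Fin N → MvPolynomial (Va N) ℤ) (ha : ∀ j, (a j).totalDegree ≤ 1) (hb : ∀ j, (b j).totalDegree ≤ 1)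
    (hb' : ∀ j, (b' j).totalDegree ≤ 1) (v : Va N) : (dV a b b' (MvPolynomial.X v)).totalDegree ≤ 3 + 1 := by
  unfold dV
  rw [MvPolynomial.mkDerivation_X]
  cases v with
  | z j => simp
  | i => simp
  | X j =>
    change (a j * MvPolynomial.X (Va.Y j)).totalDegree ≤ _
    exact (td_mul (ha j) (td_X _)).trans (by norm_num)
  | Y j =>
    change (a j * (6 * MvPolynomial.X (Va.X j) ^ 2 - MvPolynomial.X (Va.g j))).totalDegree ≤ _
    refine (td_mul (ha j) (b := 2) ?_).trans (by norm_num)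
    refine (MvPolynomial.totalDegree_sub _ _).trans (max_le ?_ ?_)
    · rw [show (6 : MvPolynomial (Va N) ℤ) = MvPolynomial.C (6 : ℤ) from (map_ofNat _ 6).symm]
      refine (td_mul (td_num 6) (b := 2) ?_).trans (by norm_num)
      refine (MvPolynomial.totalDegree_pow _ _).trans ?_
      rw [MvPolynomial.totalDegree_X]
    · exact (td_X _).trans (by norm_num)
  | g j => simp
  | k j => simp
  | p j =>
    change (-(a j * (MvPolynomial.X (Va.X j) + MvPolynomial.X (Va.k j)))).totalDegree ≤ _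
    rw [MvPolynomial.totalDegree_neg]
    refine (td_mul (ha j) (b := 1) ?_).trans (by norm_num)
    exact (MvPolynomial.totalDegree_add _ _).trans (max_le (td_X _) (td_X _))
  | U l =>
    change (b l).totalDegree ≤ _
    exact (hb l).trans (by norm_num)
  | S l =>
    change (b' l).totalDegree ≤ _
    exact (hb' l).trans (by norm_num)

theorem td_zero {σ : Type} : ((0 : MvPolynomial σ ℤ)).totalDegree ≤ 1 := by
  rw [MvPolynomial.totalDegree_zero]; exact Nat.zero_le _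

theorem td_Du (l : Fin (2 * c + 1)) (v : Va (2 * c + 1)) : (Du D l (MvPolynomial.X v)).totalDegree ≤ 3 + 1 :=
  td_dV _ _ _ (fun j => td_cLt D j l) (fun j => td_dl D l j) (fun _ => td_zero) v

theorem td_Ds (l : Fin (2 * c + 1)) (v : Va (2 * c + 1)) : (Ds D l (MvPolynomial.X v)).totalDegree ≤ 3 + 1 :=
  td_dV _ _ _ (fun j => td_cL D j l) (fun _ => td_zero) (fun j => td_dl D l j) v

theorem td_two_i {N : ℕ} : (2 * MvPolynomial.X Va.i : MvPolynomial (Va N) ℤ).totalDegree ≤ 1 := by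
  rw [show (2 : MvPolynomial (Va N) ℤ) = MvPolynomial.C (2 : ℤ) from (map_ofNat _ 2).symm]
  exact td_CX _ _

theorem td_AU (l : Fin (2 * c + 1)) : (AU D l).totalDegree ≤ 3 := by
  unfold AU
  refine (MvPolynomial.totalDegree_add _ _).trans (max_le ?_ ?_)
  · refine (td_mul td_two_i (b := 2) ?_).trans (by norm_num)
    exact MvPolynomial.totalDegree_finsetSum_le fun k _ => td_mul (td_cL D l k) (td_X _)
  · refine MvPolynomial.totalDegree_finsetSum_le fun k _ => ?_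
    exact (td_mul (td_cLt D k l) (td_X _)).trans (by norm_num)

theorem td_AS (l : Fin (2 * c + 1)) : (AS D l).totalDegree ≤ 3 := by
  unfold AS
  refine (MvPolynomial.totalDegree_add _ _).trans (max_le ?_ ?_)
  · refine (td_mul td_two_i (b := 2) ?_).trans (by norm_num)
    exact MvPolynomial.totalDegree_finsetSum_le fun k _ => td_mul (td_cLt D l k) (td_X _)
  · refine MvPolynomial.totalDegree_finsetSum_le fun k _ => ?_
    exact (td_mul (td_cL D k l) (td_X _)).trans (by norm_num)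

theorem exB : ∃ B : ℝ, 1 ≤ B ∧ (∀ l v, len (Du D l (MvPolynomial.X v)) ≤ B) ∧ (∀ l v, len (Ds D l (MvPolynomial.X v)) ≤ B) ∧
    (∀ l, len (AU D l) ≤ B) ∧ (∀ l, len (AS D l) ≤ B) := by
  set s1 : ℝ := ∑ l, ∑ v, len (Du D l (MvPolynomial.X v)) with hs1
  set s2 : ℝ := ∑ l, ∑ v, len (Ds D l (MvPolynomial.X v)) with hs2
  set s3 : ℝ := ∑ l, len (AU D l) with hs3
  set s4 : ℝ := ∑ l, len (AS D l) with hs4
  have h1 : 0 ≤ s1 := Finset.sum_nonneg fun _ _ => Finset.sum_nonneg fun _ _ => len_nonneg _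
  have h2 : 0 ≤ s2 := Finset.sum_nonneg fun _ _ => Finset.sum_nonneg fun _ _ => len_nonneg _
  have h3 : 0 ≤ s3 := Finset.sum_nonneg fun _ _ => len_nonneg _
  have h4 : 0 ≤ s4 := Finset.sum_nonneg fun _ _ => len_nonneg _
  refine ⟨1 + s1 + s2 + s3 + s4, by linarith, ?_, ?_, ?_, ?_⟩
  · intro l v
    have a1 : len (Du D l (MvPolynomial.X v)) ≤ ∑ v, len (Du D l (MvPolynomial.X v)) :=
      Finset.single_le_sum (f := fun v => len (Du D l (MvPolynomial.X v))) (fun _ _ => len_nonneg _) (Finset.mem_univ v)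
    have a2 : ∑ v, len (Du D l (MvPolynomial.X v)) ≤ s1 :=
      Finset.single_le_sum (f := fun l => ∑ v, len (Du D l (MvPolynomial.X v))) (fun _ _ => Finset.sum_nonneg fun _ _ => len_nonneg _) (Finset.mem_univ l)
    linarith
  · intro l v
    have a1 : len (Ds D l (MvPolynomial.X v)) ≤ ∑ v, len (Ds D l (MvPolynomial.X v)) :=
      Finset.single_le_sum (f := fun v => len (Ds D l (MvPolynomial.X v))) (fun _ _ => len_nonneg _) (Finset.mem_univ v)
    have a2 : ∑ v, len (Ds D l (MvPolynomial.X v)) ≤ s2 :=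
      Finset.single_le_sum (f := fun l => ∑ v, len (Ds D l (MvPolynomial.X v))) (fun _ _ => Finset.sum_nonneg fun _ _ => len_nonneg _) (Finset.mem_univ l)
    linarith
  · intro l
    have a1 : len (AU D l) ≤ s3 := Finset.single_le_sum (f := fun l => len (AU D l)) (fun _ _ => len_nonneg _) (Finset.mem_univ l)
    linarith
  · intro l
    have a1 : len (AS D l) ≤ s4 := Finset.single_le_sum (f := fun l => len (AS D l)) (fun _ _ => len_nonneg _) (Finset.mem_univ l)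
    linarith

theorem both : ∃ B : ℝ, 1 ≤ B ∧ ∀ w w' : List (Fin (2 * c + 1)), (PP D w w').totalDegree ≤ 3 * (w.length + w'.length) ∧
    len (PP D w w') ≤ (B * ((3 : ℕ) * (w.length + w'.length : ℕ) + 1)) ^ (w.length + w'.length) := by
  obtain ⟨B, hB, hU, hS, hAU, hAS⟩ := exB D
  refine ⟨B, hB, fun w w' => ?_⟩
  have h0 : (1 : MvPolynomial (Va (2 * c + 1)) ℤ).totalDegree ≤ 3 * 0 := by
    rw [MvPolynomial.totalDegree_one]
  have h0' : len (1 : MvPolynomial (Va (2 * c + 1)) ℤ) ≤ (B * ((3 : ℕ) * (0 : ℕ) + 1)) ^ 0 := by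
    have : len (1 : MvPolynomial (Va (2 * c + 1)) ℤ) = 1 := by
      rw [← MvPolynomial.C_1]
      have h := MSP.mlen_C (σ := Va (2 * c + 1)) 1
      rw [len_eq, h]
      simp
    rw [this, pow_zero]
  have h1 := nabW_bd (Ds D) (AS D) 3 B hB (td_Ds D) (td_AS D) hS hAS w' 1 0 h0 h0'
  rw [add_zero] at h1
  have e1 : nabW (nabS D) w' 1 = nabW (fun i R => Ds D i R + AS D i * R) w' 1 := rfl
  have h2 := nabW_bd (Du D) (AU D) 3 B hB (td_Du D) (td_AU D) hU hAU w (nabW (fun i R => Ds D i R + AS D i * R) w' 1) w'.length h1.1 h1.2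
  exact h2

end E7_

theorem PP_deg (w w' : List (Fin (2 * c + 1))) : (PP D w w').totalDegree ≤ 3 * (w.length + w'.length) := by
  obtain ⟨B, _, h⟩ := E7_.both D
  exact (h w w').1

/-- PROOF: `nabW_bd` twice (`e = 3`), `B :=` 1 + the sum of all the lengths. -/
theorem PP_len : ∃ B : ℝ, 1 ≤ B ∧ ∀ w w' : List (Fin (2 * c + 1)),
    len (PP D w w') ≤ (B * (3 * (w.length + w'.length : ℕ) + 1)) ^ (w.length + w'.length) := by
  obtain ⟨B, hB, h⟩ := E7_.both D
  refine ⟨B, hB, fun w w' => ?_⟩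
  have := (h w w').2
  simpa using this

end Pool.Agent.LT.KE
end

end

section

/-! # G2: the invariants in terms of j, j-prime, j-double-prime (MP_f58a57_nt) -/

open Complex ModularForm EisensteinSeries Filter
open UpperHalfPlane hiding I
open scoped Topology MatrixGroups

noncomputable section

namespace Pool.Agent.MSD

/-- auxiliary: everything nonzero if `jj' z ≠ 0`. -/
theorem G2_ne (z : ℂ) (hz : 0 < z.im) (hj : deriv jj z ≠ 0) :
    e4 z ≠ 0 ∧ e6 z ≠ 0 ∧ dl z ≠ 0 := by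
  have h := (deriv_jj z hz).deriv
  rw [h] at hj
  refine ⟨?_, ?_, ?_⟩
  · intro h0
    apply hj
    rw [h0]
    simp
  · intro h0
    apply hj
    rw [h0]
    simp
  · intro h0
    apply hj
    rw [h0]
    simp

theorem G2_sub (z : ℂ) (h0 : dl z ≠ 0) : jj z - 1728 = e6 z ^ 2 / dl z := by
  unfold jj
  rw [eq_div_iff h0, sub_mul, div_mul_cancel₀ _ h0]
  unfold dl
  ring

/-- G2a. `jj z ≠ 0`, `jj z ≠ 1728` if `jj' z ≠ 0` (A7: `jj' = -2πi e4² e6/dl`, `jj = e4³/dl`, `jj - 1728 = e6²/dl`). -/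
theorem jj_ne (z : ℂ) (hz : 0 < z.im) (hj : deriv jj z ≠ 0) : jj z ≠ 0 ∧ jj z ≠ 1728 ∧ e4 z ≠ 0 ∧ e6 z ≠ 0 := by
  obtain ⟨h4, h6, hd⟩ := G2_ne z hz hj
  refine ⟨?_, ?_, h4, h6⟩
  · unfold jj
    exact div_ne_zero (pow_ne_zero 3 h4) hd
  · intro h
    have h1 := G2_sub z hd
    rw [h, sub_self] at h1
    exact (div_ne_zero (pow_ne_zero 2 h6) hd) h1.symm

/-- G2b. With `θ = π Ω²`, `y = Im z`: `e4/Ω⁴ = - j'²/(4 θ² j (j - 1728))`, `e6/Ω⁶ = (e4/Ω⁴) · (- j'/(2 i j θ))`,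
`e2s/Ω² = 6 [ (j''/j' - i/y)/(2 i θ) + (2/3) B/A + A²/(2B) ]`, `A = e4/Ω⁴`, `B = e6/Ω⁶`. -/
theorem link4 (z Ω : ℂ) (hz : 0 < z.im) (hΩ : Ω ≠ 0) (hj : deriv jj z ≠ 0) :
    e4 z / Ω ^ 4 = -(deriv jj z) ^ 2 / (4 * (Real.pi * Ω ^ 2) ^ 2 * jj z * (jj z - 1728)) := by
  obtain ⟨h4, h6, hd⟩ := G2_ne z hz hj
  have hpi : (Real.pi : ℂ) ≠ 0 := by exact_mod_cast Real.pi_ne_zero
  rw [G2_sub z hd, (deriv_jj z hz).deriv]
  unfold jj
  field_simp
  rw [I_sq]
  ring

theorem link6 (z Ω : ℂ) (hz : 0 < z.im) (hΩ : Ω ≠ 0) (hj : deriv jj z ≠ 0) :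
    e6 z / Ω ^ 6 = e4 z / Ω ^ 4 * (-(deriv jj z) / (2 * I * jj z * (Real.pi * Ω ^ 2))) := by
  obtain ⟨h4, h6, hd⟩ := G2_ne z hz hj
  have hpi : (Real.pi : ℂ) ≠ 0 := by exact_mod_cast Real.pi_ne_zero
  rw [(deriv_jj z hz).deriv]
  unfold jj
  field_simp

theorem link2 (z Ω : ℂ) (hz : 0 < z.im) (hΩ : Ω ≠ 0) (hj : deriv jj z ≠ 0) :
    e2s z / Ω ^ 2 = 6 * ((deriv (deriv jj) z / deriv jj z - I / z.im) / (2 * I * (Real.pi * Ω ^ 2))
      + 2 / 3 * ((e6 z / Ω ^ 6) / (e4 z / Ω ^ 4)) + (e4 z / Ω ^ 4) ^ 2 / (2 * (e6 z / Ω ^ 6))) := by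
  obtain ⟨h4, h6, hd⟩ := G2_ne z hz hj
  have hpi : (Real.pi : ℂ) ≠ 0 := by exact_mod_cast Real.pi_ne_zero
  have hy : (z.im : ℂ) ≠ 0 := by exact_mod_cast hz.ne'
  rw [deriv_deriv_jj z hz, (deriv_jj z hz).deriv]
  unfold e2s
  field_simp
  ring

/-- G2c. Consequence: the three numbers lie in a field `F` containing `I`, `jj z, jj' z, jj'' z, Im z` and `π Ω²`. -/
theorem link_mem (F : Subfield ℂ) (z Ω : ℂ) (hz : 0 < z.im) (hΩ : Ω ≠ 0) (hj : deriv jj z ≠ 0) (h0 : jj z ∈ F) (h1 : deriv jj z ∈ F)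
    (h2 : deriv (deriv jj) z ∈ F) (hI : I ∈ F) (hy : (z.im : ℂ) ∈ F) (hθ : Real.pi * Ω ^ 2 ∈ F) :
    e4 z / Ω ^ 4 ∈ F ∧ e6 z / Ω ^ 6 ∈ F ∧ e2s z / Ω ^ 2 ∈ F := by
  have n2 : (2 : ℂ) ∈ F := by simp
  have n3 : (3 : ℂ) ∈ F := by simp
  have n4 : (4 : ℂ) ∈ F := by simp
  have n6 : (6 : ℂ) ∈ F := by simp
  have n1728 : (1728 : ℂ) ∈ F := by simp
  have a4 : e4 z / Ω ^ 4 ∈ F := by
    rw [link4 z Ω hz hΩ hj]
    exact F.div_mem (F.neg_mem (F.pow_mem h1 2))
      (F.mul_mem (F.mul_mem (F.mul_mem n4 (F.pow_mem hθ 2)) h0) (F.sub_mem h0 n1728))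
  have a6 : e6 z / Ω ^ 6 ∈ F := by
    rw [link6 z Ω hz hΩ hj]
    exact F.mul_mem a4 (F.div_mem (F.neg_mem h1) (F.mul_mem (F.mul_mem (F.mul_mem n2 hI) h0) hθ))
  refine ⟨a4, a6, ?_⟩
  rw [link2 z Ω hz hΩ hj]
  refine F.mul_mem n6 (F.add_mem (F.add_mem ?_ ?_) ?_)
  · exact F.div_mem (F.sub_mem (F.div_mem h2 h1) (F.div_mem hI hy)) (F.mul_mem (F.mul_mem n2 hI) hθ)
  · exact F.mul_mem (F.div_mem n2 n3) (F.div_mem a6 a4)
  · exact F.div_mem (F.pow_mem a4 2) (F.mul_mem n2 a6)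

end Pool.Agent.MSD
end

end

section

/-! # From `z, j(z), j'(z), j''(z)` to the data of the curve (MP_f58a57_nt, algebraic `j`) -/

open Complex IntermediateField

noncomputable section

namespace Pool.Agent.MSN

open MSD

theorem link2' (z Ω : ℂ) (hz : 0 < z.im) (hΩ : Ω ≠ 0) (hj : deriv jj z ≠ 0) :
    e2 z / Ω ^ 2 = 6 * (deriv (deriv jj) z / deriv jj z / (2 * I * (Real.pi * Ω ^ 2))
      + 2 / 3 * ((e6 z / Ω ^ 6) / (e4 z / Ω ^ 4)) + (e4 z / Ω ^ 4) ^ 2 / (2 * (e6 z / Ω ^ 6))) := by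
  obtain ⟨h4, h6, hd⟩ := G2_ne z hz hj
  have hpi : (Real.pi : ℂ) ≠ 0 := by exact_mod_cast Real.pi_ne_zero
  rw [deriv_deriv_jj z hz, (deriv_jj z hz).deriv]
  field_simp
  ring

/-- the data -/
theorem exists_DD (z ϑ : ℂ) (hz : 0 < z.im) (hj : deriv jj z ≠ 0) (h0 : IsAlgebraic ℚ (jj z)) (hz' : IsAlgebraic ℚ⟮ϑ⟯ z)
    (h1 : IsAlgebraic ℚ⟮ϑ⟯ (deriv jj z)) (h2 : IsAlgebraic ℚ⟮ϑ⟯ (deriv (deriv jj) z)) : ∃ Ω : ℂ, DD z Ω ϑ := by
  obtain ⟨h4, h6, hd⟩ := G2_ne z hz hj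
  obtain ⟨hj0, -, -, -⟩ := jj_ne z hz hj
  have hpi : (Real.pi : ℂ) ≠ 0 := by exact_mod_cast Real.pi_ne_zero
  obtain ⟨Ω, hΩ⟩ := IsAlgClosed.exists_pow_nat_eq (e4 z) (show 0 < 4 by norm_num)
  have hΩ0 : Ω ≠ 0 := by
    rintro rfl
    apply h4
    rw [← hΩ]
    norm_num
  have ha4 : e4 z / Ω ^ 4 = 1 := by
    rw [hΩ]
    exact div_self h4
  set B := e6 z / Ω ^ 6 with hB
  have hB0 : B ≠ 0 := div_ne_zero h6 (pow_ne_zero _ hΩ0)
  have hB2 : B ^ 2 = 1 - 1728 / jj z := by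
    have e1 : B ^ 2 = e6 z ^ 2 / e4 z ^ 3 := by
      rw [hB, div_pow, ← hΩ]
      ring
    rw [e1]
    unfold jj
    have hd2 : dl z = (e4 z ^ 3 - e6 z ^ 2) / 1728 := rfl
    field_simp
    rw [hd2]
    ring
  have hBQ : IsAlgebraic ℚ B := by
    apply IsAlgebraic.of_pow (n := 2) (by norm_num)
    rw [hB2, div_eq_mul_inv]
    exact isAlgebraic_one.sub ((by exact_mod_cast isAlgebraic_natCast (R := ℚ) (A := ℂ) 1728 : IsAlgebraic ℚ (1728 : ℂ)).mul h0.inv)
  have hl6 := link6 z Ω hz hΩ0 hj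
  rw [ha4, one_mul, ← hB] at hl6
  have hθ0 : (Real.pi : ℂ) * Ω ^ 2 ≠ 0 := mul_ne_zero hpi (pow_ne_zero _ hΩ0)
  have hθ : (Real.pi : ℂ) * Ω ^ 2 = -(deriv jj z) / (2 * I * jj z * B) := by
    have hI : I ≠ 0 := I_ne_zero
    rw [hl6]
    field_simp
  have tI := gm_algI ℚ⟮ϑ⟯
  have tZ := gm_algZ ℚ⟮ϑ⟯
  have t2 : IsAlgebraic ℚ⟮ϑ⟯ (2 : ℂ) := by simpa using tZ 2
  have t3 : IsAlgebraic ℚ⟮ϑ⟯ (3 : ℂ) := by simpa using tZ 3
  have t6 : IsAlgebraic ℚ⟮ϑ⟯ (6 : ℂ) := by simpa using tZ 6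
  have t1 : IsAlgebraic ℚ⟮ϑ⟯ (1 : ℂ) := isAlgebraic_one
  have tB : IsAlgebraic ℚ⟮ϑ⟯ B := hBQ.tower_top _
  have tθ : IsAlgebraic ℚ⟮ϑ⟯ (Real.pi * Ω ^ 2 : ℂ) := by
    rw [hθ]
    exact gm_alg _ h1.neg (((t2.mul tI).mul (h0.tower_top _)).mul tB)
  refine ⟨Ω, hz, hΩ0, ?_, hBQ, hz', ?_, tθ⟩
  · rw [ha4]
    exact isAlgebraic_one
  · rw [link2' z Ω hz hΩ0 hj, ha4, ← hB]
    refine t6.mul (((gm_alg _ (gm_alg _ h2 h1) ((t2.mul tI).mul tθ)).add ((gm_alg _ t2 t3).mul (gm_alg _ tB t1))).add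
      (gm_alg _ (t1.pow 2) (t2.mul tB)))

end Pool.Agent.MSN
end

end

section

/-!
# E9: the values at the origin are algebraic over `ℚ(z, j, j', j'')`
-/

open Complex MvPolynomial IntermediateField

noncomputable section

namespace Pool.Agent.LT.KE

open MSD

/-- PROOF: e.g. `Algebra.trdeg_le_of_injective`-type lemmas: with `A :=` the algebraic closure of `F` in `ℂ`, `adjoin ℚ S ≤ A` and `trdeg ℚ A = trdeg ℚ F`
(`A / F` algebraic). Look at `G4_Trdeg.lean` and the Mathlib files `RingTheory/AlgebraicIndependent/*`. -/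
theorem trdeg_le (F : IntermediateField ℚ ℂ) (S : Set ℂ) (h : ∀ x ∈ S, IsAlgebraic F x) :
    Algebra.trdeg ℚ (Algebra.adjoin ℚ S) ≤ Algebra.trdeg ℚ F := by
  have h1 : Algebra.trdeg ℚ F + Algebra.trdeg F (algebraicClosure F ℂ) = Algebra.trdeg ℚ (algebraicClosure F ℂ) :=
    _root_.trdeg_add_eq ℚ F (A := algebraicClosure F ℂ)
  rw [_root_.trdeg_eq_zero (R := F) (A := algebraicClosure F ℂ), add_zero] at h1
  rw [h1]
  have hsub : Algebra.adjoin ℚ S ≤ ((algebraicClosure F ℂ).toSubalgebra.restrictScalars ℚ) := by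
    apply Algebra.adjoin_le
    intro x hx
    exact mem_algebraicClosure_iff.2 (h x hx)
  exact _root_.trdeg_le_of_injective (A' := ((algebraicClosure F ℂ).toSubalgebra.restrictScalars ℚ))
    (Subalgebra.inclusion hsub) (Subalgebra.inclusion_injective hsub)

private theorem E9_root {F : IntermediateField ℚ ℂ} {a b x : ℂ} (ha : a ∈ algebraicClosure F ℂ) (hb : b ∈ algebraicClosure F ℂ)
    (h : 4 * x ^ 3 - a * x - b = 0) : x ∈ algebraicClosure F ℂ := by
  obtain ⟨a', rfl⟩ : ∃ a' : algebraicClosure F ℂ, (a' : ℂ) = a := ⟨⟨a, ha⟩, rfl⟩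
  obtain ⟨b', rfl⟩ : ∃ b' : algebraicClosure F ℂ, (b' : ℂ) = b := ⟨⟨b, hb⟩, rfl⟩
  refine mem_algebraicClosure_iff.2 (MSP.e2_root0 (Polynomial.C 4 * Polynomial.X ^ 3 - Polynomial.C a' * Polynomial.X -
    Polynomial.C b') ?_ x ?_)
  · intro h1
    have h2 := congrArg (fun p => Polynomial.coeff p 3) h1
    simp at h2
  · simp only [map_sub, map_mul, map_pow, Polynomial.aeval_X, Polynomial.aeval_C]
    exact h

private theorem E9_half (z : ℂ) (hz : 0 < z.im) : MSP.th z (1 / 2) ≠ 0 := by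
  have h := MSP.th_real_ne z hz (1 / 2) (fun m hm => by
    have h2 : (1 : ℝ) = 2 * m := by linarith
    have h3 : (1 : ℤ) = 2 * m := by exact_mod_cast h2
    omega)
  simpa using h

private theorem E9_I (F : IntermediateField ℚ ℂ) : I ∈ algebraicClosure F ℂ := by
  refine mem_algebraicClosure_iff.2 ⟨Polynomial.X ^ 2 + 1, ?_, ?_⟩
  · exact Polynomial.Monic.ne_zero (by monicity!)
  · simp

private theorem E9_forms {F : IntermediateField ℚ ℂ} {z : ℂ} (hz : 0 < z.im) (hj : deriv jj z ≠ 0)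
    (h1 : jj z ∈ F) (h2 : deriv jj z ∈ F) (h3 : deriv (deriv jj) z ∈ F) :
    (Real.pi : ℂ) ^ 2 * e4 z ∈ algebraicClosure F ℂ ∧ (Real.pi : ℂ) ^ 3 * e6 z ∈ algebraicClosure F ℂ ∧
      (Real.pi : ℂ) * e2 z ∈ algebraicClosure F ℂ := by
  have hmem : ∀ {x : ℂ}, x ∈ F → x ∈ algebraicClosure F ℂ := fun {x} hx =>
    mem_algebraicClosure_iff.2 (isAlgebraic_algebraMap (⟨x, hx⟩ : F))
  have hI := E9_I F
  have hnum : ∀ n : ℕ, ((n : ℕ) : ℂ) ∈ algebraicClosure F ℂ := fun n => _root_.natCast_mem _ n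
  have n2 : (2 : ℂ) ∈ algebraicClosure F ℂ := by exact_mod_cast hnum 2
  have n3 : (3 : ℂ) ∈ algebraicClosure F ℂ := by exact_mod_cast hnum 3
  have n4 : (4 : ℂ) ∈ algebraicClosure F ℂ := by exact_mod_cast hnum 4
  have n6 : (6 : ℂ) ∈ algebraicClosure F ℂ := by exact_mod_cast hnum 6
  have n1728 : (1728 : ℂ) ∈ algebraicClosure F ℂ := by exact_mod_cast hnum 1728
  have j0 := hmem h1
  have j1 := hmem h2
  have j2 := hmem h3
  have hom := om_ne
  have hpi : (Real.pi : ℂ) ≠ 0 := by exact_mod_cast Real.pi_ne_zero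
  have hΩ : (om⁻¹ : ℂ) ≠ 0 := inv_ne_zero hom
  have e : (Real.pi : ℂ) * (om⁻¹) ^ 2 = 1 := by
    rw [inv_pow, om_sq, mul_inv_cancel₀ hpi]
  have a4 : e4 z / (om⁻¹) ^ 4 = (Real.pi : ℂ) ^ 2 * e4 z := by
    rw [inv_pow, div_inv_eq_mul, show om ^ 4 = (om ^ 2) ^ 2 by ring, om_sq]
    ring
  have a6 : e6 z / (om⁻¹) ^ 6 = (Real.pi : ℂ) ^ 3 * e6 z := by
    rw [inv_pow, div_inv_eq_mul, show om ^ 6 = (om ^ 2) ^ 3 by ring, om_sq]
    ring
  have a2 : e2 z / (om⁻¹) ^ 2 = (Real.pi : ℂ) * e2 z := by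
    rw [inv_pow, div_inv_eq_mul, om_sq]
    ring
  have l4 := link4 z om⁻¹ hz hΩ hj
  have l6 := link6 z om⁻¹ hz hΩ hj
  have l2 := Pool.Agent.MSN.link2' z om⁻¹ hz hΩ hj
  rw [e, a4] at l4
  rw [e, a4, a6] at l6
  rw [e, a2, a4, a6] at l2
  have b4 : (Real.pi : ℂ) ^ 2 * e4 z ∈ algebraicClosure F ℂ := by
    rw [l4]
    exact div_mem (neg_mem (pow_mem j1 2)) (mul_mem (mul_mem (mul_mem n4 (pow_mem (one_mem _) 2)) j0) (sub_mem j0 n1728))
  have b6 : (Real.pi : ℂ) ^ 3 * e6 z ∈ algebraicClosure F ℂ := by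
    rw [l6]
    exact mul_mem b4 (div_mem (neg_mem j1) (mul_mem (mul_mem (mul_mem n2 hI) j0) (one_mem _)))
  refine ⟨b4, b6, ?_⟩
  rw [l2]
  exact mul_mem n6 (add_mem (add_mem (div_mem (div_mem j2 j1) (mul_mem (mul_mem n2 hI) (one_mem _)))
    (mul_mem (div_mem n2 n3) (div_mem b6 b4))) (div_mem (pow_mem b4 2) (mul_mem n2 b6)))

/-- PROOF. With `Ω² = 1/π` (some `Ω ≠ 0`): `link4`, `link6` (G2_Link), `link2'` (N/Link). `X = wp(1/2)/π` is a root of `4 X³ - (4/3) (π² e4) X - (8/27) (π³ e6)`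
(`wp_ode` at `1/2`, `half_values`: `wp' (1/2) = 0`), `Y = p = 0`; `I` is algebraic; `om² = π`; `sE = π²/3 e2`. -/
theorem vals_alg {N : ℕ} (z : Fin N → ℂ) (hz : ∀ j, 0 < (z j).im) (hj : ∀ j, deriv jj (z j) ≠ 0) (F : IntermediateField ℚ ℂ)
    (h0 : ∀ j, z j ∈ F) (h1 : ∀ j, jj (z j) ∈ F) (h2 : ∀ j, deriv jj (z j) ∈ F) (h3 : ∀ j, deriv (deriv jj) (z j) ∈ F) (v : Va N) :
    IsAlgebraic F (vv z 0 0 0 v) := by
  have hmem : ∀ {x : ℂ}, x ∈ F → x ∈ algebraicClosure F ℂ := fun {x} hx =>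
    mem_algebraicClosure_iff.2 (isAlgebraic_algebraMap (⟨x, hx⟩ : F))
  have hnum : ∀ n : ℕ, ((n : ℕ) : ℂ) ∈ algebraicClosure F ℂ := fun n => _root_.natCast_mem _ n
  have n2 : (2 : ℂ) ∈ algebraicClosure F ℂ := by exact_mod_cast hnum 2
  have n3 : (3 : ℂ) ∈ algebraicClosure F ℂ := by exact_mod_cast hnum 3
  have n4 : (4 : ℂ) ∈ algebraicClosure F ℂ := by exact_mod_cast hnum 4
  have n8 : (8 : ℂ) ∈ algebraicClosure F ℂ := by exact_mod_cast hnum 8
  have n27 : (27 : ℂ) ∈ algebraicClosure F ℂ := by exact_mod_cast hnum 27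
  have hpi : (Real.pi : ℂ) ≠ 0 := by exact_mod_cast Real.pi_ne_zero
  rw [← mem_algebraicClosure_iff]
  cases v with
  | z j => exact hmem (h0 j)
  | i => exact E9_I F
  | X j =>
    obtain ⟨b4, b6, -⟩ := E9_forms (hz j) (hj j) (h1 j) (h2 j) (h3 j)
    have hode := MSP.wp_ode (z j) (hz j) (1 / 2) (E9_half (z j) (hz j))
    rw [(MSP.half_values (z j) (hz j)).1] at hode
    have hv : vv z 0 0 0 (Va.X j) = MSP.wp (z j) (MSP.sE (z j)) (1 / 2) / Real.pi := by
      simp only [vv, Pi.zero_apply, add_zero, om_sq]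
    rw [hv]
    refine E9_root (a := 4 / 3 * ((Real.pi : ℂ) ^ 2 * e4 (z j))) (b := 8 / 27 * ((Real.pi : ℂ) ^ 3 * e6 (z j)))
      (mul_mem (div_mem n4 n3) b4) (mul_mem (div_mem n8 n27) b6) ?_
    field_simp
    linear_combination (-81 : ℂ) * hode
  | Y j =>
    have hv : vv z 0 0 0 (Va.Y j) = 0 := by
      simp only [vv, Pi.zero_apply, add_zero, (MSP.half_values (z j) (hz j)).1, zero_div]
    rw [hv]
    exact zero_mem _
  | g j =>
    obtain ⟨b4, b6, -⟩ := E9_forms (hz j) (hj j) (h1 j) (h2 j) (h3 j)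
    have hv : vv z 0 0 0 (Va.g j) = 2 / 3 * ((Real.pi : ℂ) ^ 2 * e4 (z j)) := by
      simp only [vv]
      rw [show om ^ 4 = (om ^ 2) ^ 2 by ring, om_sq]
      field_simp
    rw [hv]
    exact mul_mem (div_mem n2 n3) b4
  | k j =>
    obtain ⟨-, -, b2⟩ := E9_forms (hz j) (hj j) (h1 j) (h2 j) (h3 j)
    have hv : vv z 0 0 0 (Va.k j) = (Real.pi : ℂ) * e2 (z j) / 3 := by
      simp only [vv, MSP.sE]
      rw [om_sq]
      field_simp
    rw [hv]
    exact div_mem b2 n3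
  | p j =>
    have hv : vv z 0 0 0 (Va.p j) = 0 := by
      simp only [vv, Pi.zero_apply, add_zero, (MSP.half_values (z j) (hz j)).2, zero_div]
    rw [hv]
    exact zero_mem _
  | U l =>
    have hv : vv z 0 0 0 (Va.U l) = 0 := by
      simp only [vv, Pi.zero_apply, mul_zero]
    rw [hv]
    exact zero_mem _
  | S l =>
    have hv : vv z 0 0 0 (Va.S l) = 0 := by
      simp only [vv, Pi.zero_apply, mul_zero]
    rw [hv]
    exact zero_mem _

end Pool.Agent.LT.KE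
end

end

section

/-!
# E10: assembly of Theorem E
-/

open Complex Matrix MvPolynomial

noncomputable section

namespace Pool.Agent.LT.KE

theorem len_rename {σ τ : Type} (f : σ ≃ τ) (p : MvPolynomial σ ℤ) : len (rename f p) = len p := by
  classical
  rw [len, len, support_rename_of_injective f.injective, Finset.sum_image]
  · refine Finset.sum_congr rfl fun d _ => ?_
    rw [coeff_rename_mapDomain f f.injective]
  · intro a _ b _ hab
    exact Finsupp.mapDomain_injective f.injective hab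

/-- the numerical estimate -/
theorem num_bd (B : ℝ) (hB : 1 ≤ B) : ∃ CE : ℝ, 6 ≤ CE ∧ ∀ (T n : ℕ), 2 ≤ T → n ≤ 2 * T →
    (B * (3 * (n : ℕ) + 1)) ^ n ≤ Real.exp (CE * T * Real.log T) := by
  have hl2 : 0 < Real.log 2 := Real.log_pos (by norm_num)
  refine ⟨6 + 2 * ((Real.log B + Real.log 7) / Real.log 2 + 1), ?_, ?_⟩
  · have h1 : 0 ≤ Real.log B := Real.log_nonneg hB
    have h2 : 0 ≤ Real.log 7 := Real.log_nonneg (by norm_num)
    have h3 : 0 ≤ (Real.log B + Real.log 7) / Real.log 2 := div_nonneg (add_nonneg h1 h2) hl2.le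
    linarith
  intro T n hT hn
  have hT' : (2 : ℝ) ≤ T := by exact_mod_cast hT
  have hTp : (0 : ℝ) < T := by linarith
  have hn' : (n : ℝ) ≤ 2 * T := by exact_mod_cast hn
  have hn0 : (0 : ℝ) ≤ n := Nat.cast_nonneg n
  have hlT : Real.log 2 ≤ Real.log T := Real.log_le_log (by norm_num) hT'
  have hbase : B * (3 * (n : ℝ) + 1) ≤ B * 7 * T := by
    have : 3 * (n : ℝ) + 1 ≤ 7 * T := by linarith
    nlinarith
  have hB0 : 0 < B := by linarith
  have hpos : 0 < B * (3 * (n : ℝ) + 1) := by positivity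
  have hlog : Real.log (B * (3 * (n : ℝ) + 1)) ≤ Real.log B + Real.log 7 + Real.log T := by
    refine (Real.log_le_log hpos hbase).trans (le_of_eq ?_)
    rw [Real.log_mul (by positivity) hTp.ne', Real.log_mul hB0.ne' (by norm_num)]
  rw [← Real.rpow_natCast, Real.rpow_def_of_pos hpos]
  apply Real.exp_le_exp.2
  have h1 : 0 ≤ Real.log B := Real.log_nonneg hB
  have h2 : 0 ≤ Real.log 7 := Real.log_nonneg (by norm_num)
  have h3 : Real.log B + Real.log 7 ≤ (Real.log B + Real.log 7) / Real.log 2 * Real.log T := by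
    rw [div_mul_eq_mul_div, le_div_iff₀ hl2]
    exact mul_le_mul_of_nonneg_left hlT (add_nonneg h1 h2)
  have hlT0 : 0 ≤ Real.log T := hl2.le.trans hlT
  set K := (Real.log B + Real.log 7) / Real.log 2 with hK
  have h4 : Real.log (B * (3 * (n : ℝ) + 1)) ≤ (K + 1) * Real.log T := by
    have : (K + 1) * Real.log T = K * Real.log T + Real.log T := by ring
    rw [this]
    linarith
  have hK0 : 0 ≤ K := div_nonneg (add_nonneg h1 h2) hl2.le
  calc Real.log (B * (3 * (n : ℝ) + 1)) * n ≤ (K + 1) * Real.log T * n := mul_le_mul_of_nonneg_right h4 hn0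
    _ ≤ (K + 1) * Real.log T * (2 * T) := mul_le_mul_of_nonneg_left hn' (by positivity)
    _ ≤ (6 + 2 * (K + 1)) * T * Real.log T := by nlinarith [mul_nonneg hTp.le hlT0]

theorem Wd_length {n T : ℕ} (w : Wd n T) : w.l.length = (w.1 : ℕ) := by
  simp [Wd.l]

variable {c : ℕ} (D : Dat c)

theorem Ph_diff_u (s : Fin (2 * c + 1) → ℂ) : Differentiable ℂ (fun u => Ph D u s) := by
  have h : Differentiable ℂ (fun u : Fin (2 * c + 1) → ℂ => (u, s)) := differentiable_id.prodMk (differentiable_const s)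
  intro u
  exact ((Ph_diff D) (u, s)).comp u (h u)

theorem Ph_diff_s (u : Fin (2 * c + 1) → ℂ) : Differentiable ℂ (fun s => Ph D u s) := by
  have h : Differentiable ℂ (fun s : Fin (2 * c + 1) → ℂ => (u, s)) := (differentiable_const u).prodMk differentiable_id
  intro s
  exact ((Ph_diff D) (u, s)).comp s (h s)

theorem Ph_secu (s : Fin (2 * c + 1) → ℂ) : Sec D.d D.Lt (Cu D) (fun u => Ph D u s) where
  diff := Ph_diff_u D s
  per := fun a u => Ph_lat_u D a u s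
  ker := fun k hk u => Ph_ker_u D k hk u s

theorem Ph_secs (u : Fin (2 * c + 1) → ℂ) : Sec D.d D.L (Cs D) (fun s => Ph D u s) where
  diff := Ph_diff_s D u
  per := fun a s => Ph_lat_s D a u s
  ker := fun k hk s => Ph_ker_s D k hk u s

theorem Ph_Ker : Ker D (Ph D) (Cu D) (Cs D) where
  diff := Ph_diff D
  secu := Ph_secu D
  secs := Ph_secs D
  mulu := mulu_ok D
  muls := muls_ok D
  sh := Ph_sh D
  jump := Ph_jump D
  grow := Ph_grow D
  one := Ph_one D

theorem ev_zero : ev D 0 0 = vv D.z 0 0 0 := by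
  rw [ev]
  congr 1
  funext j
  simp [xa]

end Pool.Agent.LT.KE

namespace Pool.Agent.LT

open KE

/-- Theorem E -/
theorem thmE : ThmE := by
  intro c D _ hj
  refine ⟨Ph D, Cu D, Cs D, Ph_Ker D, ?_⟩
  obtain ⟨B, hB, hlen⟩ := PP_len D
  obtain ⟨CE, hCE, hnum⟩ := num_bd B hB
  set e := Fintype.equivFin (Va (2 * c + 1)) with he
  have hd : (D.d : ℂ) ≠ 0 := by exact_mod_cast D.hd.ne'
  refine ⟨Fintype.card (Va (2 * c + 1)), fun i => ev D 0 0 (e.symm i), D.d / om, CE, div_ne_zero hd om_ne, ?_, ?_⟩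
  · refine trdeg_le _ _ ?_
    rintro x ⟨i, rfl⟩
    simp only
    rw [ev_zero]
    refine vals_alg D.z D.im hj _ ?_ ?_ ?_ ?_ _
    · exact fun j => IntermediateField.subset_adjoin ℚ _ (Set.mem_iUnion.2 ⟨j, by simp⟩)
    · exact fun j => IntermediateField.subset_adjoin ℚ _ (Set.mem_iUnion.2 ⟨j, by simp⟩)
    · exact fun j => IntermediateField.subset_adjoin ℚ _ (Set.mem_iUnion.2 ⟨j, by simp⟩)
    · exact fun j => IntermediateField.subset_adjoin ℚ _ (Set.mem_iUnion.2 ⟨j, by simp⟩)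
  intro T hT
  have hT' : (2 : ℝ) ≤ T := by exact_mod_cast hT
  refine ⟨fun w w' => rename e (KE.PP D w.l w'.l), ?_, ?_, ?_⟩
  · intro w w'
    have h1 : (rename e (KE.PP D w.l w'.l)).totalDegree ≤ 3 * (w.l.length + w'.l.length) :=
      (totalDegree_rename_le _ _).trans (PP_deg D _ _)
    rw [Wd_length, Wd_length] at h1
    have h2 : (w.1 : ℕ) < T := w.1.2
    have h3 : (w'.1 : ℕ) < T := w'.1.2
    have h4 : (rename e (KE.PP D w.l w'.l)).totalDegree ≤ 6 * T := by omega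
    have h5 : ((rename e (KE.PP D w.l w'.l)).totalDegree : ℝ) ≤ 6 * T := by exact_mod_cast h4
    refine h5.trans ?_
    nlinarith
  · intro w w'
    rw [len_rename]
    refine (hlen w.l w'.l).trans ?_
    rw [Wd_length, Wd_length]
    have h2 : (w.1 : ℕ) < T := w.1.2
    have h3 : (w'.1 : ℕ) < T := w'.1.2
    exact hnum T _ hT (by omega)
  · intro w w'
    have h1 : aeval (fun i => ev D 0 0 (e.symm i)) (rename e (KE.PP D w.l w'.l)) = aeval (ev D 0 0) (KE.PP D w.l w'.l) := by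
      rw [aeval_rename]
      congr 2
      funext v
      simp
    rw [h1, mix_eq, Wd_length, Wd_length, ← mul_assoc, ← mul_pow]
    have h2 : (D.d : ℂ) / om * (om / D.d) = 1 := by
      field_simp [om_ne]
    rw [h2, one_pow, one_mul]

end Pool.Agent.LT
end

end
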