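import Mathlib
import Pool.Agent.Lib.MP_f58a57_nt.LK.K031

namespace Pool.Agent.LT.DA
end Pool.Agent.LT.DA

section

/-!
# MP_f58a57_nt, large transcendence degree, part D analysis (row lt-DD9): the real form is positive

`2 |Y (v0_j).re b_j| ≤ (1/2) (z_j).im b_j² + 2 Y² ‖v0_j‖² / (z_j).im` (AM-GM), so
`R u u ≥ (1/2) ∑ (z_j).im (b u j)² + (Y u)² ≥ 0`, and `> 0` unless `b u = 0`, `Y u = 0`, i.e. `P u = 0` (`Dec.ker_of`).
-/

open Complex Matrix

noncomputable section

namespace Pool.Agent.LT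

variable {c : ℕ} {D : Dat c} {b : VN c →ₗ[ℝ] (Fin (2 * c + 1) → ℝ)} {Y : VN c →ₗ[ℝ] ℝ}

private theorem R9_term {t β r n y : ℝ} (ht : 0 < t) (hr : r ^ 2 ≤ n ^ 2) :
    0 ≤ (1 / 2) * (t * β ^ 2) + 2 * y * (r * β) + 2 * (n ^ 2 / t) * y ^ 2 := by
  have h : (1 / 2) * (t * β ^ 2) + 2 * y * (r * β) + 2 * (n ^ 2 / t) * y ^ 2 =
      (1 / (2 * t)) * ((t * β + 2 * y * r) ^ 2 + 4 * y ^ 2 * (n ^ 2 - r ^ 2)) := by
    field_simp
    ring
  rw [h]
  apply mul_nonneg
  · positivity
  · apply add_nonneg (sq_nonneg _)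
    apply mul_nonneg (by positivity)
    linarith

theorem Rf_lower (h : Dec D D.Lt b Y) (u : VN c) : (1 / 2) * ∑ j, (D.z j).im * (b u j) ^ 2 + (Y u) ^ 2 ≤ Rf D b Y u u := by
  have key : Rf D b Y u u - ((1 / 2) * ∑ j, (D.z j).im * (b u j) ^ 2 + (Y u) ^ 2) =
      ∑ j, ((1 / 2) * ((D.z j).im * (b u j) ^ 2) + 2 * Y u * ((D.v0 j).re * b u j) +
        2 * (‖D.v0 j‖ ^ 2 / (D.z j).im) * (Y u) ^ 2) := by
    rw [Finset.sum_add_distrib, Finset.sum_add_distrib, ← Finset.mul_sum, ← Finset.mul_sum, ← Finset.sum_mul,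
      ← Finset.mul_sum]
    unfold Rf gam0
    have h1 : ∑ j, (D.z j).im * (b u j * b u j) = ∑ j, (D.z j).im * (b u j) ^ 2 := by
      apply Finset.sum_congr rfl
      intro j _
      ring
    rw [h1]
    ring
  have h2 : 0 ≤ ∑ j, ((1 / 2) * ((D.z j).im * (b u j) ^ 2) + 2 * Y u * ((D.v0 j).re * b u j) +
        2 * (‖D.v0 j‖ ^ 2 / (D.z j).im) * (Y u) ^ 2) := by
    apply Finset.sum_nonneg
    intro j _
    apply R9_term (D.im j)
    rw [← sq_abs (D.v0 j).re]
    exact pow_le_pow_left₀ (abs_nonneg _) (Complex.abs_re_le_norm _) 2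
  linarith

theorem Rf_nonneg (h : Dec D D.Lt b Y) (u : VN c) : 0 ≤ Rf D b Y u u := by
  refine le_trans ?_ (Rf_lower h u)
  apply add_nonneg _ (sq_nonneg _)
  apply mul_nonneg (by norm_num)
  apply Finset.sum_nonneg
  intro j _
  exact mul_nonneg (D.im j).le (sq_nonneg _)

theorem Rf_pos (h : Dec D D.Lt b Y) {u : VN c} (hu : D.Lt *ᵥ u ≠ 0) : 0 < Rf D b Y u u := by
  by_contra hcon
  apply hu
  have h0 : Rf D b Y u u ≤ 0 := not_lt.mp hcon
  have h1 := Rf_lower h u
  have h2 : 0 ≤ ∑ j, (D.z j).im * (b u j) ^ 2 := by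
    apply Finset.sum_nonneg
    intro j _
    exact mul_nonneg (D.im j).le (sq_nonneg _)
  have h3 : ∑ j, (D.z j).im * (b u j) ^ 2 = 0 := by
    nlinarith [sq_nonneg (Y u)]
  have h4 : Y u = 0 := by
    have : (Y u) ^ 2 = 0 := by nlinarith [sq_nonneg (Y u)]
    exact pow_eq_zero_iff two_ne_zero |>.1 this
  apply h.ker_of _ h4
  funext j
  have h5 := (Finset.sum_eq_zero_iff_of_nonneg (fun j _ => mul_nonneg (D.im j).le (sq_nonneg (b u j)))).1 h3 j (Finset.mem_univ j)
  rcases mul_eq_zero.1 h5 with h6 | h6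
  · exact absurd h6 (D.im j).ne'
  · exact pow_eq_zero_iff two_ne_zero |>.1 h6

/-- for the hermitian part (uses `Hf_self`, restated as the definition) -/
theorem Hf_Rf_pos (h : Dec D D.Lt b Y) {u : VN c} (hu : D.Lt *ᵥ u ≠ 0) : 0 < (Hf (Rf D b Y) u u).re := by
  have h1 : (Hf (Rf D b Y) u u).re = (Rf D b Y u u + Rf D b Y (I • u) (I • u)) / 2 := by
    have h2 : Hf (Rf D b Y) u u = (((Rf D b Y u u + Rf D b Y (I • u) (I • u)) / 2 : ℝ) : ℂ) +
        I * (((Rf D b Y u (I • u) - Rf D b Y (I • u) u) / 2 : ℝ) : ℂ) := by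
      unfold Hf
      push_cast
      ring
    rw [h2, Complex.add_re, Complex.ofReal_re, Complex.I_mul_re, Complex.ofReal_im]
    ring
  rw [h1]
  have h2 := Rf_pos h hu
  have h3 := Rf_nonneg h (I • u)
  linarith

end Pool.Agent.LT
end

end

section

/-!
# MP_f58a57_nt, large transcendence degree, version 2: the flag lemma and the matrix `M` (assembly)
-/

open Complex Matrix Module Submodule

noncomputable section

namespace Pool.Agent.LT.VA

open Pool.Agent.LT.DA

theorem cp_eq (p m : ℕ) : cp p m = (p + 1) * m := by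
  induction m with
  | zero => rfl
  | succ m ih => rw [cp, ih]; ring

/-- the row space over `ℂ` -/
def RCc {n : ℕ} (z : Fin n → ℂ) (M : Matrix (Fin n) (Fin n) ℚ) : Submodule ℂ (Fin n → ℂ) :=
  span ℂ (Set.range fun j => fun k => (Matrix.diagonal z - M.map (fun q : ℚ => (q : ℂ))) j k)

theorem finrank_RCc {n c : ℕ} (hn : n = 2 * c + 1) (z : Fin n → ℂ) (M : Matrix (Fin n) (Fin n) ℚ)
    (hker : finrank ℂ (LinearMap.ker (Matrix.mulVecLin (Matrix.diagonal z - M.map (fun q : ℚ => (q : ℂ))))) = c) :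
    finrank ℂ (RCc z M) = c + 1 := by
  set P := Matrix.diagonal z - M.map (fun q : ℚ => (q : ℂ)) with hP
  have h1 : RCc z M = span ℂ (Set.range P.row) := rfl
  rw [h1, ← Matrix.rank_eq_finrank_span_row]
  have h2 := LinearMap.finrank_range_add_finrank_ker (Matrix.mulVecLin P)
  rw [hker, finrank_fin_fun] at h2
  have h3 : P.rank = finrank ℂ (LinearMap.range (Matrix.mulVecLin P)) := rfl
  omega

theorem RCc_kills {n : ℕ} (z : Fin n → ℂ) (M : Matrix (Fin n) (Fin n) ℚ) (y : Fin n → ℂ) (hy : y ∈ RCc z M) (u : Fin n → ℂ)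
    (hu : (Matrix.diagonal z - M.map (fun q : ℚ => (q : ℂ))) *ᵥ u = 0) : y ⬝ᵥ u = 0 := by
  induction hy using Submodule.span_induction with
  | mem y hy =>
    obtain ⟨j, rfl⟩ := hy
    have h1 := congrFun hu j
    rw [Matrix.mulVec] at h1
    exact h1
  | zero => simp [dotProduct]
  | add a b _ _ ha hb => rw [add_dotProduct, ha, hb, add_zero]
  | smul t a _ ha => rw [smul_dotProduct, ha, smul_zero]

variable {K : Subfield ℂ} {p : ℕ}

theorem RK_emb (F : FD K p) (hF : FDP F) {n : ℕ} (z : Fin n → ℂ) (hzK : ∀ j, z j ∈ K) (M : Matrix (Fin n) (Fin n) ℚ) (v : Fin n → F.M)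
    (hv : v ∈ RK F.M (fun j => (⟨z j, hF.hKM (hzK j)⟩ : F.M)) M) (j : Fin (p + 1)) : (fun k => F.e j (v k)) ∈ RCc z M := by
  rw [RK] at hv
  induction hv using Submodule.span_induction with
  | mem y hy =>
    obtain ⟨i, rfl⟩ := hy
    refine subset_span ⟨i, ?_⟩
    funext k
    dsimp only
    rw [Matrix.sub_apply, Matrix.sub_apply, map_sub, Matrix.map_apply, Matrix.map_apply, map_ratCast, Matrix.diagonal_apply, Matrix.diagonal_apply]
    congr 1
    by_cases h : i = k
    · rw [if_pos h, if_pos h]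
      exact (hF.eK j ⟨z i, hF.hKM (hzK i)⟩ (hzK i)).symm
    · rw [if_neg h, if_neg h, map_zero]
  | zero =>
    have : (fun k => F.e j ((0 : Fin n → F.M) k)) = 0 := by
      funext k; simp
    rw [this]
    exact zero_mem _
  | add a b _ _ ha hb =>
    have : (fun k => F.e j ((a + b) k)) = (fun k => F.e j (a k)) + fun k => F.e j (b k) := by
      funext k; simp
    rw [this]
    exact add_mem ha hb
  | smul t a _ ha =>
    have : (fun k => F.e j ((t • a) k)) = F.e j t • fun k => F.e j (a k) := by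
      funext k; simp
    rw [this]
    exact Submodule.smul_mem _ _ ha

theorem nq_C {z : ℂ} (hz : NQ z) : nq z := hz

theorem rl_C (K : Subfield ℂ) {z w : ℂ} (hzK : z ∈ K) (hwK : w ∈ K) (hz : NQ z) (hw : NQ w) (h : ¬ GEq w z) : rl z w := by
  intro a b a' b' h1
  have h2 := rl_of K (z := ⟨z, hzK⟩) (w := ⟨w, hwK⟩) hz hw h a b a' b' (by
    apply Subtype.ext
    push_cast
    exact h1)
  exact h2

theorem Ind_all (F : FD K p) (hF : FDP F) {n m : ℕ} (R : Submodule F.M (Fin n → F.M)) (y : ℕ → Fin n → F.M) (hy : ∀ t ≤ m, SG F m R y t) :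
    Ind (XX F y) ((p + 1) * m + 1) := by
  have h1 : ∀ t ≤ m, Ind (XX F y) ((p + 1) * t) := by
    intro t
    induction t with
    | zero =>
      intro _ b _ l hl
      exact absurd hl (by simp)
    | succ t ih =>
      intro ht
      exact Ind_block F hF y t (ih (by omega)) ((hy t (by omega)).surj (by omega))
  exact Ind_succ F hF y m (h1 m le_rfl) (hy m le_rfl).ne

/-- the flag lemma, version 2 -/
theorem thmFlagG0 : ThmFlagG := by
  intro K p hK m z hzK him hNQ hG M hrk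
  obtain ⟨F, hF⟩ := exists_FD K p hK
  have hcp := cp_eq p m
  set P := Matrix.diagonal z - M.map (fun q : ℚ => (q : ℂ)) with hP
  obtain ⟨ζ, hζ⟩ : ∃ ζ : Fin (2 * cp p m + 1) → F.M, ζ = fun j => ⟨z j, hF.hKM (hzK j)⟩ := ⟨_, rfl⟩
  have hζz : (fun j => (ζ j : ℂ)) = z := by rw [hζ]
  have hker : finrank ℂ (LinearMap.ker (Matrix.mulVecLin P)) = cp p m := le_antisymm (ker_le rfl z him M) hrk
  have hRc : finrank F.M (RK F.M ζ M) = cp p m + 1 := finrank_RK F.M rfl ζ M (by rw [hζz]; exact hker)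
  have hnq : ∀ k, nq (ζ k) := fun k => nq_of F.M (by rw [hζ]; exact hNQ k)
  have hrl : ∀ k l, ζ k = ζ l ∨ rl (ζ k) (ζ l) := by
    intro k l
    by_cases h : z l = z k
    · left; rw [hζ]; exact Subtype.ext h.symm
    · right
      exact rl_of F.M (by rw [hζ]; exact hNQ k) (by rw [hζ]; exact hNQ l) (by rw [hζ]; exact hG l k h)
  have hGM := Gs ζ M hnq hrl (RK F.M ζ M) (fun j => subset_span ⟨j, rfl⟩)
  have hRC : finrank ℂ (RCc z M) = cp p m + 1 := finrank_RCc rfl z M hker
  have hGC := Gs z M (fun k => nq_C (hNQ k)) (fun k l => by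
    by_cases h : z l = z k
    · left; exact h.symm
    · right; exact rl_C K (hzK k) (hzK l) (hNQ k) (hNQ l) (hG l k h)) (RCc z M) (fun j => subset_span ⟨j, rfl⟩)
  have hRR : ∀ v ∈ RK F.M ζ M, ∀ j, (fun k => F.e j (v k)) ∈ RCc z M := by
    intro v hv j
    rw [hζ] at hv
    exact RK_emb F hF z hzK M v hv j
  obtain ⟨y, hy⟩ := exists_flagG F hF (n := 2 * cp p m + 1) (m := m) (by rw [hcp]) (RK F.M ζ M) (by rw [hRc, hcp]) hGM (RCc z M) (by rw [hRC, hcp]) hGC hRR
  have hreal : ∀ b : Fin (2 * cp p m + 1) → ℝ, P *ᵥ rv b = 0 → b = 0 := real_ker z him M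
  have hInd0 : Ind (XX F y) ((p + 1) * m + 1) := Ind_all F hF _ y hy
  have hInd : Ind (XX F y) (cp p m + 1) := (congrArg (fun N => Ind (XX F y) N) (by omega : (p + 1) * m + 1 = cp p m + 1)).mp hInd0
  have hli : LinearIndependent ℂ (fun l : Fin (cp p m + 1) => XX F y l) := (Ind_iff _ _).1 hInd
  have hkill : ∀ l ≤ (p + 1) * m, ∀ u, P *ᵥ u = 0 → XX F y l ⬝ᵥ u = 0 := by
    intro l hl u hu
    apply RCc_kills z M _ _ u hu
    apply hRR
    have h1 : l / (p + 1) ≤ m := Nat.div_le_of_le_mul hl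
    exact (hy _ h1).mem
  refine ⟨fun i => XX F y i, ?_, hli, ?_, ?_, ?_⟩
  · intro u
    constructor
    · intro hu i
      exact hkill i (by rw [← hcp]; omega) u hu
    · intro hu
      have h1 : LinearMap.ker (Matrix.mulVecLin P) ≤ LinearMap.ker (Matrix.mulVecLin (Matrix.of fun (i : Fin (cp p m + 1)) => XX F y i)) := by
        intro v hv
        have hv' : P *ᵥ v = 0 := hv
        rw [LinearMap.mem_ker, Matrix.mulVecLin_apply]
        funext i
        exact hkill i (by rw [← hcp]; omega) v hv'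
      have h2 := finrank_kill _ hli
      have h3 := Submodule.eq_of_le_of_finrank_le h1 (by rw [hker]; omega)
      have h4 : u ∈ LinearMap.ker (Matrix.mulVecLin (Matrix.of fun (i : Fin (cp p m + 1)) => XX F y i)) := by
        rw [LinearMap.mem_ker, Matrix.mulVecLin_apply]
        funext i
        exact hu i
      rw [← h3] at h4
      exact h4
  · intro b
    have h0 : ∀ j, (XX F y 0 j).im = 0 := by
      intro j
      have h1 := (hy 0 (by omega)).real (Pi.single j 1) (by intro l hl; exact absurd hl (by omega))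
      have h2 : dq (y 0) (Pi.single j 1) = y 0 j := by
        rw [dq, Finset.sum_eq_single j]
        · simp
        · intro k _ hk
          simp [Pi.single_eq_of_ne hk]
        · intro h; exact absurd (Finset.mem_univ j) h
      rw [h2] at h1
      have h3 := XX_zero F hF y 0 j
      rw [mul_zero] at h3
      rw [h3]
      exact h1
    rw [dotProduct, Complex.im_sum]
    apply Finset.sum_eq_zero
    intro j _
    simp only [rv, Complex.mul_im, Complex.ofReal_im, mul_zero, Complex.ofReal_re, zero_add]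
    rw [show (XX F y ((0 : Fin (cp p m + 1)) : ℕ) j).im = 0 from h0 j, zero_mul]
  · intro t ht
    exact covX F hF (by rw [hcp]) P hreal (by rw [← hcp]; exact hrk) y _ hy hkill hInd0 t ht hcp
  · exact lastX F hF y _ (hy m le_rfl) hcp

end Pool.Agent.LT.VA

/-- the flag lemma, version 2 -/
theorem Pool.Agent.LT.thmFlagG : Pool.Agent.LT.ThmFlagG := Pool.Agent.LT.VA.thmFlagG0
end

end
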