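import Mathlib
import Pool.Agent.Lib.MP_f58a57_nt.LK.K012
import Pool.Agent.Lib.MP_f58a57_nt.LK.K020
import Pool.Agent.Lib.MP_f58a57_nt.LK.K027
import Pool.Agent.Lib.MP_f58a57_nt.LK.K030
import Pool.Agent.Lib.MP_f58a57_nt.LK.K032

namespace Pool.Agent.LT.R10_
end Pool.Agent.LT.R10_

section

/-!
# MP_f58a57_nt, large transcendence degree, part D analysis (row lt-DD15): the jets

`Gf sec q F = (F ∘ sec) * exp (q ∘ sec)`. `cf (F ∘ sec) v d = cf F (sec v) d` (definition of `cf`, `sec` linear), `cf_eq_words` gives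
`‖cf F (sec v) d‖ ≤ (N B)^d η` with `‖(sec v) j‖ ≤ B` for `‖v i‖ ≤ 1` (`B = ∑_{i j} ‖sec e_i j‖`; number of words `N^d`, `1/d! ≤ 1`), `N = 2c+1`.
`‖cf (exp (q ∘ sec)) v d‖ ≤ E` by `cf_bound` with `r = 1`: `E = sup` of `‖exp (q (sec z))‖` on the compact unit polydisc. `cf_mul`:
`‖cf G v d‖ ≤ ∑_{x.1 + x.2 = d} (N B)^x.1 η E ≤ (d + 1) (1 + N B)^d E η ≤ C3^T η` for `d < T` (`d + 1 ≤ 2^T`).
-/

open Complex Matrix

noncomputable section

namespace Pool.Agent.LT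

variable {c : ℕ}

theorem cf_sec (sec : Vc c →ₗ[ℂ] VN c) (F : VN c → ℂ) (v : Vc c) (d : ℕ) : cf (fun z => F (sec z)) v d = cf F (sec v) d := by
  unfold cf
  simp only [map_smul]

theorem jets_DD (sec : Vc c →ₗ[ℂ] VN c) (q : VN c → ℂ) (hq : Differentiable ℂ q) : ∃ C3 : ℝ, 1 ≤ C3 ∧ ∀ F : VN c → ℂ, Differentiable ℂ F →
    ∀ (T : ℕ) (η : ℝ), 0 ≤ η → (∀ w : List (Fin (2 * c + 1)), w.length < T → ‖pdl w F 0‖ ≤ η) → JJ (Gf sec q F) T (C3 ^ T * η) := by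
  have hsc : Continuous sec := sec.continuous_of_finiteDimensional
  have hsd : Differentiable ℂ sec := (LinearMap.toContinuousLinearMap sec).differentiable
  set S := LinearMap.toContinuousLinearMap sec with hS
  set B : ℝ := ‖S‖ with hB
  have hB0 : 0 ≤ B := norm_nonneg _
  have hpoly : ∀ v : Vc c, (∀ i, ‖v i‖ ≤ 1) → ‖v‖ ≤ 1 := fun v hv => (pi_norm_le_iff_of_nonneg zero_le_one).2 hv
  have hsecB : ∀ v : Vc c, (∀ i, ‖v i‖ ≤ 1) → ∀ j, ‖sec v j‖ ≤ B := by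
    intro v hv j
    have h1 : ‖S v‖ ≤ ‖S‖ * ‖v‖ := S.le_opNorm v
    have h2 : ‖S‖ * ‖v‖ ≤ ‖S‖ := mul_le_of_le_one_right (norm_nonneg _) (hpoly v hv)
    have h3 : ‖sec v j‖ ≤ ‖sec v‖ := norm_le_pi_norm (sec v) j
    have h4 : sec v = S v := rfl
    rw [h4] at h3
    rw [h4]
    exact h3.trans (h1.trans h2)
  obtain ⟨E, hE⟩ := (isCompact_closedBall (0 : Vc c) 1).exists_bound_of_continuousOn
    (f := fun z : Vc c => cexp (q (sec z))) (by
      exact (Complex.continuous_exp.comp (hq.continuous.comp hsc)).continuousOn)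
  have hE0 : 0 ≤ E := (norm_nonneg _).trans (hE 0 (by simp))
  have hEd : Differentiable ℂ (fun z : Vc c => cexp (q (sec z))) := (hq.comp hsd).cexp
  set N : ℝ := ((2 * c + 1 : ℕ) : ℝ) with hN
  have hN0 : 0 ≤ N := Nat.cast_nonneg _
  refine ⟨2 * (1 + N * B) * (1 + E), ?_, ?_⟩
  · have h1 : 1 ≤ 1 + N * B := by nlinarith [mul_nonneg hN0 hB0]
    have h2 : 1 ≤ 1 + E := by linarith
    nlinarith
  intro F hF T η hη hw v hv d hd
  have hdT : d < T := by exact_mod_cast hd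
  have hFd : Differentiable ℂ (fun z : Vc c => F (sec z)) := hF.comp hsd
  -- the coefficients of `F ∘ sec`
  have c1 : ∀ e ≤ d, ‖cf (fun z => F (sec z)) v e‖ ≤ (N * B) ^ e * η := by
    intro e he
    rw [cf_sec]
    have h1 := cf_eq_words hF (sec v) e
    have h2 : ‖(e.factorial : ℂ) * cf F (sec v) e‖ ≤ (N * B) ^ e * η := by
      rw [h1]
      refine (norm_sum_le _ _).trans ?_
      have h3 : ∀ w ∈ (Finset.univ : Finset (Fin e → Fin (2 * c + 1))), ‖(∏ i, sec v (w i)) * pdl (List.ofFn w) F 0‖ ≤ B ^ e * η := by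
        intro w _
        rw [norm_mul, norm_prod]
        have h4 : ∏ i, ‖sec v (w i)‖ ≤ ∏ _i : Fin e, B := Finset.prod_le_prod (fun i _ => norm_nonneg _) fun i _ => hsecB v hv _
        have h5 : ‖pdl (List.ofFn w) F 0‖ ≤ η := hw _ (by rw [List.length_ofFn]; omega)
        rw [Finset.prod_const, Finset.card_univ, Fintype.card_fin] at h4
        exact mul_le_mul h4 h5 (norm_nonneg _) (by positivity)
      refine (Finset.sum_le_sum h3).trans (le_of_eq ?_)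
      rw [Finset.sum_const, Finset.card_univ, Fintype.card_fun, Fintype.card_fin, Fintype.card_fin, nsmul_eq_mul, mul_pow, hN]
      push_cast
      ring
    rw [norm_mul] at h2
    have h6 : (1 : ℝ) ≤ ‖(e.factorial : ℂ)‖ := by
      rw [Complex.norm_natCast]
      exact_mod_cast Nat.one_le_iff_ne_zero.2 (Nat.factorial_ne_zero e)
    calc ‖cf F (sec v) e‖ = 1 * ‖cf F (sec v) e‖ := (one_mul _).symm
      _ ≤ ‖(e.factorial : ℂ)‖ * ‖cf F (sec v) e‖ := mul_le_mul_of_nonneg_right h6 (norm_nonneg _)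
      _ ≤ _ := h2
  -- the coefficients of the exponential
  have c2 : ∀ e, ‖cf (fun z : Vc c => cexp (q (sec z))) v e‖ ≤ E := by
    intro e
    have h1 := cf_bound hEd v e (r := 1) (M := E) zero_lt_one (by
      intro t ht
      refine hE (t • v) ?_
      rw [mem_closedBall_zero_iff, norm_smul, ht, one_mul]
      exact hpoly v hv)
    simpa using h1
  have h1 : cf (Gf sec q F) v d = cf (fun z => F (sec z) * cexp (q (sec z))) v d := rfl
  rw [h1, cf_mul hFd hEd]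
  refine (norm_sum_le _ _).trans ?_
  have hNB : 0 ≤ N * B := mul_nonneg hN0 hB0
  have h2 : ∀ x ∈ Finset.HasAntidiagonal.antidiagonal d, ‖cf (fun z => F (sec z)) v x.1 * cf (fun z : Vc c => cexp (q (sec z))) v x.2‖
      ≤ (1 + N * B) ^ T * η * E := by
    intro x hx
    have hx1 : x.1 + x.2 = d := Finset.HasAntidiagonal.mem_antidiagonal.1 hx
    rw [norm_mul]
    have h3 := c1 x.1 (by omega)
    have h4 : (N * B) ^ x.1 ≤ (1 + N * B) ^ T :=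
      (pow_le_pow_left₀ hNB (by linarith) x.1).trans (pow_le_pow_right₀ (by linarith) (by omega))
    have h5 : (N * B) ^ x.1 * η ≤ (1 + N * B) ^ T * η := mul_le_mul_of_nonneg_right h4 hη
    exact mul_le_mul (h3.trans h5) (c2 _) (norm_nonneg _) (by positivity)
  refine (Finset.sum_le_sum h2).trans ?_
  rw [Finset.sum_const, Finset.Nat.card_antidiagonal, nsmul_eq_mul]
  have h6 : ((d + 1 : ℕ) : ℝ) ≤ 2 ^ T := by
    have h7 : d + 1 ≤ 2 ^ T := by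
      have := Nat.lt_two_pow_self (n := T)
      omega
    exact_mod_cast h7
  have h8 : E ≤ (1 + E) ^ T := by
    have h9 : (1 + E) ^ 1 ≤ (1 + E) ^ T := pow_le_pow_right₀ (by linarith) (by omega)
    rw [pow_one] at h9
    linarith
  calc ((d + 1 : ℕ) : ℝ) * ((1 + N * B) ^ T * η * E) ≤ 2 ^ T * ((1 + N * B) ^ T * η * (1 + E) ^ T) := by
        refine mul_le_mul h6 (mul_le_mul_of_nonneg_left h8 (by positivity)) (by positivity) (by positivity)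
    _ = (2 * (1 + N * B) * (1 + E)) ^ T * η := by
        rw [mul_pow, mul_pow]
        ring

end Pool.Agent.LT
end

end

section

/-!
# MP_f58a57_nt, large transcendence degree, version 2: assembly of ThmD2G (ThmB2 -> ThmFlagG -> ThmD2G)
-/

open Complex Matrix

noncomputable section

namespace Pool.Agent.LT

namespace D2G

open R10_

variable {c : ℕ}

/-- the normal form of the sections (without the tower) -/
structure NG (D : Dat c) (b : VN c →ₗ[ℝ] (Fin (2 * c + 1) → ℝ)) (Y : VN c →ₗ[ℝ] ℝ) (l : Fin (2 * c + 1) → ℝ) (ζ : VN c →ₗ[ℂ] Vc c)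
    (sec : Vc c →ₗ[ℂ] VN c) (q : VN c → ℂ) (c3 C : ℝ) : Prop where
  dec : Dec D D.Lt b Y
  hsec : ∀ z, ζ (sec z) = z
  ker : ∀ u, ζ u = 0 ↔ D.Lt *ᵥ u = 0
  diff : Differentiable ℂ q
  qker : ∀ k, D.Lt *ᵥ k = 0 → ∀ u, q (u + k) = q u
  trans : ∀ a : Fin (2 * c + 1) → ℤ, ∃ κ : ℂ,
    κ.re = Real.pi * nsq (ζ (lat D.d a)) -
      (Real.pi * ∑ j, (D.z j).im * ((D.d : ℝ) * (a j : ℝ)) ^ 2 + ∑ j, l j * ((D.d : ℝ) * (a j : ℝ))) ∧
    ∀ u, q (u + lat D.d a) = q u + 2 * Real.pi * I * (lat D.d a ⬝ᵥ (D.Lt *ᵥ u)) + 2 * Real.pi * herm (ζ u) (ζ (lat D.d a)) + κ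
  c3ne : c3 ≠ 0
  im0 : ∀ (b' : Fin (2 * c + 1) → ℝ) (y : ℝ), (ζ (pt D.g b' y) 0).im = c3 * y
  C0 : 0 ≤ C
  bd : ∀ (b' : Fin (2 * c + 1) → ℝ) (y : ℝ), (∀ j, 0 ≤ b' j ∧ b' j ≤ D.d) →
    |(q (pt D.g b' y)).re - Real.pi * nsq (ζ (pt D.g b' y))| ≤ C * (1 + y ^ 2)

section
variable {D : Dat c} {b : VN c →ₗ[ℝ] (Fin (2 * c + 1) → ℝ)} {Y : VN c →ₗ[ℝ] ℝ} {l : Fin (2 * c + 1) → ℝ} {ζ : VN c →ₗ[ℂ] Vc c}
  {sec : Vc c →ₗ[ℂ] VN c} {q : VN c → ℂ} {c3 C : ℝ} {Cf : (Fin (2 * c + 1) → ℤ) → ℂ} {F : VN c → ℂ}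

private theorem R13_zero (hN : NG D b Y l ζ sec q c3 C) {k : VN c} (hk : ζ k = 0) : D.Lt *ᵥ k = 0 :=
  (hN.ker k).1 hk

theorem Gf_aut (hN : NG D b Y l ζ sec q c3 C) (hC : MulL D.d D.z l Cf) (hF : Sec D.d D.Lt Cf F) : Aut (Gam D.d ζ) (Gf sec q F) := by
  refine ⟨?_, ?_⟩
  · have hs : Differentiable ℂ (fun z : Vc c => sec z) := (LinearMap.toContinuousLinearMap sec).differentiable
    have h1 : Differentiable ℂ (fun z : Vc c => F (sec z)) := hF.diff.comp hs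
    have h2 : Differentiable ℂ (fun z : Vc c => cexp (q (sec z))) := (hN.diff.comp hs).cexp
    exact h1.mul h2
  · intro γ hγ
    obtain ⟨a, ha⟩ := mem_Gam.1 hγ
    obtain ⟨κ, hκ, htr⟩ := hN.trans a
    rw [ha] at hκ
    refine ⟨Cf a * cexp κ * cexp (-((Real.pi * nsq γ : ℝ) : ℂ)), ?_, ?_⟩
    · rw [norm_mul, norm_mul, hC a, Complex.norm_exp, Complex.norm_exp, hκ, ← Real.exp_add, ← Real.exp_add]
      rw [Complex.neg_re, Complex.ofReal_re]
      rw [show Real.pi * ∑ j, (D.z j).im * ((D.d : ℝ) * (a j : ℝ)) ^ 2 + ∑ j, l j * ((D.d : ℝ) * (a j : ℝ)) +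
        (Real.pi * nsq γ - (Real.pi * ∑ j, (D.z j).im * ((D.d : ℝ) * (a j : ℝ)) ^ 2 + ∑ j, l j * ((D.d : ℝ) * (a j : ℝ)))) +
        -(Real.pi * nsq γ) = 0 by ring]
      exact Real.exp_zero
    · intro z
      have hk : ζ (sec (z + γ) - (sec z + lat D.d a)) = 0 := by
        rw [map_sub, hN.hsec, map_add ζ, hN.hsec, ha, sub_self]
      have hk' := R13_zero hN hk
      have e1 : sec (z + γ) = (sec z + lat D.d a) + (sec (z + γ) - (sec z + lat D.d a)) := by abel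
      have hFz : F (sec (z + γ)) = Cf a * ee (-(lat D.d a ⬝ᵥ (D.Lt *ᵥ (sec z)))) * F (sec z) := by
        rw [e1, hF.ker _ hk', hF.per]
      have hqz : q (sec (z + γ)) = q (sec z) + 2 * Real.pi * I * (lat D.d a ⬝ᵥ (D.Lt *ᵥ (sec z))) +
          2 * Real.pi * herm z γ + κ := by
        rw [e1, hN.qker _ hk', htr, hN.hsec, ha]
      show F (sec (z + γ)) * cexp (q (sec (z + γ))) = _ * (F (sec z) * cexp (q (sec z)))
      rw [hFz, hqz]
      unfold ee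
      have e2 : cexp (q (sec z) + 2 * Real.pi * I * (lat D.d a ⬝ᵥ (D.Lt *ᵥ (sec z))) + 2 * Real.pi * herm z γ + κ) =
          cexp (q (sec z)) * cexp (2 * Real.pi * I * (lat D.d a ⬝ᵥ (D.Lt *ᵥ (sec z)))) * cexp (2 * Real.pi * herm z γ) * cexp κ := by
        rw [← Complex.exp_add, ← Complex.exp_add, ← Complex.exp_add]
      have e3 : cexp (2 * Real.pi * herm z γ + Real.pi * nsq γ) = cexp (2 * Real.pi * herm z γ) * cexp ((Real.pi * nsq γ : ℝ) : ℂ) := by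
        rw [← Complex.exp_add]
        push_cast
        rfl
      have e4 : cexp (-((Real.pi * nsq γ : ℝ) : ℂ)) * cexp ((Real.pi * nsq γ : ℝ) : ℂ) = 1 := by
        rw [← Complex.exp_add, neg_add_cancel, Complex.exp_zero]
      have e5 : cexp (2 * Real.pi * I * (-(lat D.d a ⬝ᵥ (D.Lt *ᵥ (sec z))))) * cexp (2 * Real.pi * I * (lat D.d a ⬝ᵥ (D.Lt *ᵥ (sec z)))) = 1 := by
        rw [← Complex.exp_add, mul_neg, neg_add_cancel, Complex.exp_zero]
      rw [e2, e3]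
      linear_combination (Cf a * F (sec z) * cexp (q (sec z)) * cexp (2 * Real.pi * herm z γ) * cexp κ) * e5 -
        (Cf a * cexp κ * cexp (2 * Real.pi * herm z γ) * F (sec z) * cexp (q (sec z))) * e4

theorem NN_Gf (hN : NG D b Y l ζ sec q c3 C) (hF : Sec D.d D.Lt Cf F) (u : VN c) :
    NN (Gf sec q F) (ζ u) = ‖F u‖ * Real.exp ((q u).re - Real.pi * nsq (ζ u)) := by
  have hk : ζ (sec (ζ u) - u) = 0 := by rw [map_sub, hN.hsec, sub_self]
  have hk' := R13_zero hN hk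
  have e1 : sec (ζ u) = u + (sec (ζ u) - u) := by abel
  have h1 : F (sec (ζ u)) = F u := by rw [e1, hF.ker _ hk']
  have h2 : q (sec (ζ u)) = q u := by rw [e1, hN.qker _ hk']
  unfold NN Gf
  rw [h1, h2, norm_mul, Complex.norm_exp, mul_assoc, ← Real.exp_add]
  congr 2

theorem exists_box (hN : NG D b Y l ζ sec q c3 C) (hC : MulL D.d D.z l Cf) (hF : Sec D.d D.Lt Cf F) (z : Vc c) :
    ∃ (b' : Fin (2 * c + 1) → ℝ) (y : ℝ), (∀ j, 0 ≤ b' j ∧ b' j ≤ D.d) ∧ (z 0).im = c3 * y ∧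
      NN (Gf sec q F) z = NN (Gf sec q F) (ζ (pt D.g b' y)) := by
  have hd : (0 : ℝ) < D.d := by exact_mod_cast D.hd
  have hz : z = ζ (pt D.g (b (sec z)) (Y (sec z))) := by
    have h1 := (hN.ker _).2 (hN.dec.dec (sec z))
    rw [map_sub, hN.hsec, sub_eq_zero] at h1
    exact h1
  set y := Y (sec z) with hy
  set B := b (sec z) with hB
  let a : Fin (2 * c + 1) → ℤ := fun j => ⌊B j / D.d⌋
  let b' : Fin (2 * c + 1) → ℝ := fun j => B j - D.d * (a j : ℝ)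
  have hpt : pt D.g B y = pt D.g b' y + lat D.d a := by
    funext j
    simp only [pt, lat, b', Pi.add_apply]
    push_cast
    ring
  refine ⟨b', y, ?_, ?_, ?_⟩
  · intro j
    have h1 : (a j : ℝ) ≤ B j / D.d := Int.floor_le _
    have h2 : B j / D.d < (a j : ℝ) + 1 := Int.lt_floor_add_one _
    rw [le_div_iff₀ hd] at h1
    rw [div_lt_iff₀ hd] at h2
    constructor
    · show 0 ≤ B j - D.d * (a j : ℝ)
      linarith
    · show B j - D.d * (a j : ℝ) ≤ D.d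
      linarith
  · rw [hz]
    exact hN.im0 B y
  · have h1 : z = ζ (pt D.g b' y) + ζ (lat D.d a) := by
      rw [← map_add, ← hpt]
      exact hz
    rw [h1]
    exact NN_inv (Gf_aut hN hC hF) (mem_Gam.2 ⟨a, rfl⟩) _

/-- the imaginary part of the first coordinate -/
theorem im_zeta (D : Dat c) {x : Fin (c + 1) → Fin (2 * c + 1) → ℂ} (hker : ∀ u, D.Lt *ᵥ u = 0 ↔ ∀ i, x i ⬝ᵥ u = 0)
    (hli : LinearIndependent ℂ x) (hreal : ∀ b : Fin (2 * c + 1) → ℝ, (x 0 ⬝ᵥ rv b).im = 0) {H : VN c → VN c → ℂ}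
    {ζ : VN c →ₗ[ℂ] Vc c} {sec : Vc c →ₗ[ℂ] VN c} {r : Fin (c + 1) → Fin (c + 1) → ℂ} (hz : Zt D.Lt x H ζ sec r)
    {b : VN c →ₗ[ℝ] (Fin (2 * c + 1) → ℝ)} {Y : VN c →ₗ[ℝ] ℝ} (hd : Dec D D.Lt b Y) :
    ∃ c3 : ℝ, c3 ≠ 0 ∧ ∀ (b' : Fin (2 * c + 1) → ℝ) (y : ℝ), (ζ (pt D.g b' y) 0).im = c3 * y := by
  set G : ℝ := (x 0 ⬝ᵥ rv (fun j => (D.g j : ℝ))).re with hG
  have hGc : x 0 ⬝ᵥ rv (fun j => (D.g j : ℝ)) = (G : ℂ) := re_eq (hreal _)
  have hpt : ∀ (b' : Fin (2 * c + 1) → ℝ) (y : ℝ), x 0 ⬝ᵥ pt D.g b' y = x 0 ⬝ᵥ rv b' + I * y * G := by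
    intro b' y
    have e : pt D.g b' y = rv b' + (I * y) • rv (fun j => (D.g j : ℝ)) := by
      funext j; simp [pt, rv]
    rw [e, dotProduct_add, dotProduct_smul, hGc, smul_eq_mul]
  have him : ∀ (b' : Fin (2 * c + 1) → ℝ) (y : ℝ), (x 0 ⬝ᵥ pt D.g b' y).im = y * G := by
    intro b' y
    rw [hpt, Complex.add_im, hreal]
    simp
  have hG0 : G ≠ 0 := by
    intro h0
    have hall : ∀ u : VN c, (x 0 ⬝ᵥ u).im = 0 := by
      intro u
      have hk := (hker _).1 (hd.dec u) 0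
      rw [dotProduct_sub, sub_eq_zero] at hk
      rw [hk, him, h0, mul_zero]
    have hz0 : ∀ u : VN c, x 0 ⬝ᵥ u = 0 := by
      intro u
      have h1 := hall u
      have h2 := hall (I • u)
      rw [dotProduct_smul, smul_eq_mul] at h2
      simp at h2
      exact Complex.ext h2 h1
    have hx0 : x 0 = 0 := by
      funext j
      have := hz0 (Pi.single j 1)
      rw [dotProduct_single, mul_one] at this
      exact this
    exact hli.ne_zero 0 hx0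
  have hp0 := (hz.diag 0).1
  refine ⟨(r 0 0).re * G, mul_ne_zero hp0.ne' hG0, fun b' y => ?_⟩
  have e0 : ζ (pt D.g b' y) 0 = r 0 0 * (x 0 ⬝ᵥ pt D.g b' y) := zeq hz (i := 0) fun l h => absurd h (by simp)
  rw [e0, Complex.mul_im, (hz.diag 0).2, him]
  ring

end

theorem int_of_NG {D : Dat c} {b : VN c →ₗ[ℝ] (Fin (2 * c + 1) → ℝ)} {Y : VN c →ₗ[ℝ] ℝ} {l : Fin (2 * c + 1) → ℝ} {ζ : VN c →ₗ[ℂ] Vc c}
    {sec : Vc c →ₗ[ℂ] VN c} {q : VN c → ℂ} {c3 C1 : ℝ} (hB : IntB c (Gam D.d ζ)) (hN : NG D b Y l ζ sec q c3 C1)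
    {Cf : (Fin (2 * c + 1) → ℤ) → ℂ} (hC : MulL D.d D.z l Cf) : INT D.d D.g D.Lt Cf := by
  intro ε A hε hε1 hA
  have hc3 : 0 < |c3| := abs_pos.mpr hN.c3ne
  have hc32 : 0 < c3 ^ 2 := by have := hN.c3ne; positivity
  obtain ⟨CB, TB, hCB, hB1⟩ := hB (ε / 2) ((A + C1) * (1 + 1 / c3 ^ 2)) (by linarith) (by linarith)
    (mul_nonneg (add_nonneg hA hN.C0) (by positivity))
  obtain ⟨C3, hC3, hJ⟩ := jets_DD sec q hN.diff
  obtain ⟨C, T0, hC1, hT0, hest⟩ := est c ε c3 C1 C3 CB TB hε hε1 hN.c3ne hN.C0 hC3 hCB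
  refine ⟨C, T0, hC1, ?_⟩
  intro T hT k hk1 hk2 F hF hbox hjet b' y hb' hy
  obtain ⟨hk0, e1, e2, e3, e4⟩ := hest T hT k hk1 hk2
  obtain ⟨e5, e6⟩ := e4 y hy
  have hG := Gf_aut hN hC hF
  have hgrow : ∀ z, |(z 0).im| ≤ |c3| * k → NN (Gf sec q F) z ≤ Real.exp ((A + C1) * (1 + 1 / c3 ^ 2) * (1 + (z 0).im ^ 2)) := by
    intro z hz
    obtain ⟨b2, y2, h1, h2, h3⟩ := exists_box hN hC hF z
    rw [h3, NN_Gf hN hF]
    have hy2 : |y2| ≤ k := by
      rw [h2, abs_mul] at hz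
      exact le_of_mul_le_mul_left hz hc3
    have h4 := hbox b2 y2 h1 hy2
    have h5 : (q (pt D.g b2 y2)).re - Real.pi * nsq (ζ (pt D.g b2 y2)) ≤ C1 * (1 + y2 ^ 2) := (le_abs_self _).trans (hN.bd b2 y2 h1)
    calc ‖F (pt D.g b2 y2)‖ * Real.exp ((q (pt D.g b2 y2)).re - Real.pi * nsq (ζ (pt D.g b2 y2)))
        ≤ Real.exp (A * (1 + y2 ^ 2)) * Real.exp (C1 * (1 + y2 ^ 2)) :=
          mul_le_mul h4 (Real.exp_le_exp.mpr h5) (Real.exp_pos _).le (Real.exp_pos _).le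
      _ = Real.exp ((A + C1) * (1 + y2 ^ 2)) := by rw [← Real.exp_add]; ring_nf
      _ ≤ _ := by
        apply Real.exp_le_exp.mpr
        rw [mul_assoc]
        apply mul_le_mul_of_nonneg_left _ (add_nonneg hA hN.C0)
        rw [h2]
        have hne := hN.c3ne
        have : (1 + 1 / c3 ^ 2) * (1 + (c3 * y2) ^ 2) = 1 + y2 ^ 2 + (c3 ^ 2 * y2 ^ 2 + 1 / c3 ^ 2) := by
          field_simp
          ring
        rw [this]
        have : 0 ≤ c3 ^ 2 * y2 ^ 2 + 1 / c3 ^ 2 := by positivity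
        linarith
  have hJJ : JJ (Gf sec q F) T (Real.exp (-((T : ℝ) ^ (ε / 2) * (|c3| * k) ^ 2))) := by
    intro v hv d hd
    exact (hJ F hF.diff T _ (Real.exp_pos _).le hjet v hv d hd).trans e3
  have hsmall := hB1 T (hT0.trans hT) (|c3| * k) e1 e2 (Gf sec q F) hG hgrow hJJ (ζ (pt D.g b' y)) (by rw [hN.im0]; exact e5)
  rw [NN_Gf hN hF] at hsmall
  have h5 : -(C1 * (1 + y ^ 2)) ≤ (q (pt D.g b' y)).re - Real.pi * nsq (ζ (pt D.g b' y)) := (abs_le.mp (hN.bd b' y hb')).1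
  have h6 : ‖F (pt D.g b' y)‖ * Real.exp (-(C1 * (1 + y ^ 2))) ≤ Real.exp (-((|c3| * k) ^ 2 / CB)) :=
    (mul_le_mul_of_nonneg_left (Real.exp_le_exp.mpr h5) (norm_nonneg _)).trans hsmall
  calc ‖F (pt D.g b' y)‖ = ‖F (pt D.g b' y)‖ * Real.exp (-(C1 * (1 + y ^ 2))) * Real.exp (C1 * (1 + y ^ 2)) := by
        rw [mul_assoc, ← Real.exp_add, neg_add_cancel, Real.exp_zero, mul_one]
    _ ≤ Real.exp (-((|c3| * k) ^ 2 / CB)) * Real.exp (C1 * (1 + y ^ 2)) := mul_le_mul_of_nonneg_right h6 (Real.exp_pos _).le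
    _ ≤ _ := e6

theorem int_of_flagG (hB : ThmB2) {p m : ℕ} (D : Dat (cp p m)) {x : Fin (cp p m + 1) → Fin (2 * cp p m + 1) → ℂ} (hx : FlagG p m D.Lt x)
    {Cf : (Fin (2 * cp p m + 1) → ℤ) → ℂ} (hC : MulOK D.d D.z Cf) : INT D.d D.g D.Lt Cf := by
  obtain ⟨l, hl⟩ := hC
  obtain ⟨b, Y, hd⟩ := exists_dec D D.Lt (Or.inl rfl)
  have hR : RB (Rf D b Y) := Rf_RB
  have hHk : ∀ u, D.Lt *ᵥ u = 0 → ∀ v, Hf (Rf D b Y) u v = 0 := by
    intro u hu v
    have h2 : D.Lt *ᵥ (I • u) = 0 := by rw [Matrix.mulVec_smul, hu, smul_zero]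
    simp only [Hf, Rf_ker hd hu, Rf_ker hd h2]
    simp
  obtain ⟨ζ, sec, r, hz⟩ := exists_zeta hx.ker hx.li (Hf (Rf D b Y)) (Hf_add hR) (Hf_smul hR) (Hf_conj hR) hHk
    (fun u hu => Hf_Rf_pos hd hu)
  obtain ⟨c3, hc3, him⟩ := im_zeta D hx.ker hx.li hx.real0 hz hd
  obtain ⟨C, hC0, hbd⟩ := qf_bd hd l hz.hh
  exact int_of_NG (l := l) (C1 := C) (hB _ _ (tow_GamG D hx hz)) {
    dec := hd
    hsec := hz.hsec
    ker := hz.ker
    diff := qf_diff l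
    qker := fun k hk u => qf_ker hd l hk u
    trans := fun a => qf_trans hd l hz.hh a
    c3ne := hc3
    im0 := him
    C0 := hC0
    bd := hbd } hl

end D2G

theorem thmD2G (hB : ThmB2) (hFl : ThmFlagG) : ThmD2G := by
  intro K p hK m D h1 h2 h3
  constructor
  · intro C hC
    obtain ⟨x, hx⟩ := hFl K p hK m D.z h1 D.im h2 h3 D.M D.rk
    exact D2G.int_of_flagG hB D hx hC
  · intro C hC
    obtain ⟨x, hx⟩ := hFl K p hK m D.tr.z h1 D.tr.im h2 h3 D.tr.M D.tr.rk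
    exact D2G.int_of_flagG hB D.tr hx hC

end Pool.Agent.LT
end

end
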